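import Mathlib

/-!
Modules of rows of polynomials of constant rank away from the origin.
-/

namespace Pool.Agent.Hartshorne

open MvPolynomial

set_option linter.unusedSectionVars false

/-- Value of a row of polynomials at a point. -/
noncomputable def rowEval {σ τ : Type*} (z : σ → ℂ) (r : τ → MvPolynomial σ ℂ) : τ → ℂ :=
  fun b => eval z (r b)

section RowEval

variable {σ τ : Type*} (z : σ → ℂ)

lemma rowEval_apply (r : τ → MvPolynomial σ ℂ) (b : τ) : rowEval z r b = eval z (r b) := rfl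

lemma rowEval_add (r s : τ → MvPolynomial σ ℂ) :
    rowEval z (r + s) = rowEval z r + rowEval z s := by
  funext b; simp [rowEval]

lemma rowEval_sub (r s : τ → MvPolynomial σ ℂ) :
    rowEval z (r - s) = rowEval z r - rowEval z s := by
  funext b; simp [rowEval]

lemma rowEval_smul (g : MvPolynomial σ ℂ) (r : τ → MvPolynomial σ ℂ) :
    rowEval z (g • r) = eval z g • rowEval z r := by
  funext b; simp [rowEval]

lemma rowEval_zero : rowEval z (0 : τ → MvPolynomial σ ℂ) = 0 := by
  funext b; simp [rowEval]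

lemma rowEval_sum {ι : Type*} (s : Finset ι) (r : ι → τ → MvPolynomial σ ℂ) :
    rowEval z (∑ i ∈ s, r i) = ∑ i ∈ s, rowEval z (r i) := by
  classical
  induction s using Finset.induction_on with
  | empty => simp [rowEval_zero]
  | insert a s ha ih => rw [Finset.sum_insert ha, Finset.sum_insert ha, rowEval_add, ih]

end RowEval

/-- Independent vectors have a nonvanishing minor. -/
lemma exists_minor {κ τ : Type*} [Fintype κ] [DecidableEq κ] [Fintype τ] (w : κ → (τ → ℂ))
    (hw : LinearIndependent ℂ w) : ∃ T : κ → τ, (Matrix.of fun i l => w i (T l)).det ≠ 0 := by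
  classical
  have hrank : (Matrix.of w).rank = Fintype.card κ := by
    have h1 : LinearIndependent ℂ (Matrix.of w).row := hw
    exact h1.rank_matrix
  rw [Matrix.rank_eq_finrank_span_cols] at hrank
  obtain ⟨f, hf, -, hli⟩ := Submodule.exists_fun_fin_finrank_span_eq ℂ
    (Set.range (Matrix.of w).col)
  choose T hT using hf
  let e : κ ≃ Fin (Module.finrank ℂ (Submodule.span ℂ (Set.range (Matrix.of w).col))) :=
    Fintype.equivFinOfCardEq hrank.symm
  refine ⟨fun l => T (e l), ?_⟩
  set M : Matrix κ κ ℂ := Matrix.of fun i l => w i (T (e l)) with hM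
  have h2 : LinearIndependent ℂ M.col := by
    have h3 := hli.comp e e.injective
    have h4 : M.col = f ∘ e := by
      funext l
      funext i
      exact congrFun (hT (e l)) i
    rw [h4]
    exact h3
  rw [Matrix.linearIndependent_cols_iff_isUnit, Matrix.isUnit_iff_isUnit_det] at h2
  exact h2.ne_zero

lemma eval_det {σ κ : Type*} [Fintype κ] [DecidableEq κ] (z : σ → ℂ)
    (M : Matrix κ κ (MvPolynomial σ ℂ)) :
    eval z M.det = (Matrix.of fun i l => eval z (M i l)).det := by
  rw [RingHom.map_det]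
  rfl

lemma rowEval_li_of_det {σ τ κ : Type*} [Fintype κ] [DecidableEq κ] (z : σ → ℂ)
    (P : κ → τ → MvPolynomial σ ℂ) (T : κ → τ)
    (h : eval z (Matrix.of fun i l => P i (T l)).det ≠ 0) :
    LinearIndependent ℂ (fun i => rowEval z (P i)) := by
  rw [eval_det] at h
  have h1 := Matrix.linearIndependent_rows_of_det_ne_zero h
  apply LinearIndependent.of_comp (LinearMap.funLeft ℂ ℂ T)
  exact h1

/-- Cramer's rule for rows of polynomials, explicit form. -/
lemma cramer_comb' {σ τ κ : Type*} [Fintype κ] [DecidableEq κ] (P : κ → τ → MvPolynomial σ ℂ)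
    (T : κ → τ) (r : τ → MvPolynomial σ ℂ) (h : MvPolynomial σ ℂ) (hh : h ≠ 0)
    (hD : (Matrix.of fun i l => P i (T l)).det ≠ 0)
    (hspan : ∀ z, eval z h ≠ 0 → LinearIndependent ℂ (fun i => rowEval z (P i)) →
      rowEval z r ∈ Submodule.span ℂ (Set.range fun i => rowEval z (P i))) :
    (Matrix.of fun i l => P i (T l)).det • r =
      ∑ i, (Matrix.cramer (Matrix.of fun i l => P i (T l)).transpose (fun l => r (T l))) i • P i := by
  classical
  set M : Matrix κ κ (MvPolynomial σ ℂ) := Matrix.of fun i l => P i (T l) with hM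
  set a : κ → MvPolynomial σ ℂ := Matrix.cramer M.transpose (fun l => r (T l)) with ha
  have hcr : ∀ l, ∑ i, P i (T l) * a i = M.det * r (T l) := by
    intro l
    have h1 := Matrix.mulVec_cramer M.transpose (fun l => r (T l))
    have h2 := congrFun h1 l
    rw [Matrix.det_transpose] at h2
    rw [Pi.smul_apply, smul_eq_mul] at h2
    rw [← h2]
    rfl
  funext b
  have hprod : (h * M.det) * (M.det * r b - ∑ i, a i * P i b) = 0 := by
    apply MvPolynomial.funext
    intro z
    rw [map_mul, map_zero]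
    by_cases hz : eval z (h * M.det) = 0
    · rw [hz, zero_mul]
    rw [map_mul] at hz
    have hz1 := left_ne_zero_of_mul hz
    have hz2 := right_ne_zero_of_mul hz
    have hli := rowEval_li_of_det z P T hz2
    have h3 := hspan z hz1 hli
    rw [Submodule.mem_span_range_iff_exists_fun] at h3
    obtain ⟨c, hc⟩ := h3
    have hcb : ∀ b, eval z (r b) = ∑ i, c i * eval z (P i b) := by
      intro b
      have h4 := congrFun hc b
      rw [rowEval_apply] at h4
      rw [← h4, Finset.sum_apply]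
      rfl
    set e : κ → ℂ := fun i => eval z M.det * c i - eval z (a i) with he
    have he0 : e = 0 := by
      have hMz : (Matrix.of fun i l => eval z (M i l)).det ≠ 0 := by
        rw [← eval_det]; exact hz2
      apply Matrix.eq_zero_of_vecMul_eq_zero hMz
      funext l
      have h5 : (Matrix.vecMul e (Matrix.of fun i l => eval z (M i l))) l =
          ∑ i, e i * eval z (P i (T l)) := rfl
      rw [h5, he]
      have h6 := congrArg (eval z) (hcr l)
      rw [map_sum, map_mul, hcb (T l), Finset.mul_sum] at h6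
      simp only [map_mul] at h6
      simp only [sub_mul, Finset.sum_sub_distrib, Pi.zero_apply]
      rw [sub_eq_zero]
      rw [show (∑ i, eval z M.det * c i * eval z (P i (T l))) =
        ∑ i, eval z M.det * (c i * eval z (P i (T l))) from
        Finset.sum_congr rfl (fun i _ => by ring), ← h6]
      exact Finset.sum_congr rfl (fun i _ => by ring)
    have h7 : eval z (M.det * r b - ∑ i, a i * P i b) = ∑ i, e i * eval z (P i b) := by
      rw [map_sub, map_mul, hcb b, map_sum, Finset.mul_sum, he, ← Finset.sum_sub_distrib]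
      refine Finset.sum_congr rfl (fun i _ => ?_)
      rw [map_mul]
      ring
    rw [h7, he0]
    simp
  have h8 := (mul_eq_zero.mp hprod).resolve_left (mul_ne_zero hh hD)
  rw [Pi.smul_apply, smul_eq_mul, sub_eq_zero.mp h8, Finset.sum_apply]
  rfl

/-- Cramer's rule for rows of polynomials. -/
lemma cramer_comb {σ τ κ : Type*} [Fintype κ] [DecidableEq κ] (P : κ → τ → MvPolynomial σ ℂ)
    (T : κ → τ) (r : τ → MvPolynomial σ ℂ) (h : MvPolynomial σ ℂ) (hh : h ≠ 0)
    (hD : (Matrix.of fun i l => P i (T l)).det ≠ 0)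
    (hspan : ∀ z, eval z h ≠ 0 → LinearIndependent ℂ (fun i => rowEval z (P i)) →
      rowEval z r ∈ Submodule.span ℂ (Set.range fun i => rowEval z (P i))) :
    ∃ a : κ → MvPolynomial σ ℂ, (Matrix.of fun i l => P i (T l)).det • r = ∑ i, a i • P i :=
  ⟨_, cramer_comb' P T r h hh hD hspan⟩

/-- Membership up to powers, by the Nullstellensatz. -/
lemma exists_pow_smul_mem {σ τ : Type*} [Finite σ] [Fintype τ] (c : ℕ)
    (Γ : Submodule (MvPolynomial σ ℂ) (τ → MvPolynomial σ ℂ)) (g : MvPolynomial σ ℂ)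
    (r : τ → MvPolynomial σ ℂ)
    (h1 : ∀ z, eval z g ≠ 0 → ∃ P : Fin c → τ → MvPolynomial σ ℂ, (∀ i, P i ∈ Γ) ∧
      LinearIndependent ℂ (fun i => rowEval z (P i)))
    (h2 : ∀ z, eval z g ≠ 0 → ∀ P : Fin c → τ → MvPolynomial σ ℂ, (∀ i, P i ∈ Γ) →
      LinearIndependent ℂ (fun i => rowEval z (P i)) →
      rowEval z r ∈ Submodule.span ℂ (Set.range fun i => rowEval z (P i))) :
    ∃ K : ℕ, g ^ K • r ∈ Γ := by
  classical
  set I : Ideal (MvPolynomial σ ℂ) := Γ.comap (LinearMap.toSpanSingleton _ _ r) with hI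
  have hmem : ∀ h, h ∈ I ↔ h • r ∈ Γ := by
    intro h
    rw [hI, Submodule.mem_comap, LinearMap.toSpanSingleton_apply]
  have hg : g ∈ I.radical := by
    rw [← vanishingIdeal_zeroLocus_eq_radical (K := ℂ), mem_vanishingIdeal_iff]
    intro z hz
    rw [mem_zeroLocus_iff] at hz
    by_contra hne
    rw [aeval_eq_eval] at hne
    obtain ⟨P, hP, hli⟩ := h1 z hne
    obtain ⟨T, hT⟩ := exists_minor _ hli
    have hdet : eval z (Matrix.of fun i l => P i (T l)).det ≠ 0 := by
      rw [eval_det]; exact hT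
    have hg0 : g ≠ 0 := by rintro rfl; exact hne (map_zero _)
    have hD0 : (Matrix.of fun i l => P i (T l)).det ≠ 0 := by
      intro h0
      rw [h0, map_zero] at hdet
      exact hdet rfl
    obtain ⟨a, ha⟩ := cramer_comb P T r g hg0 hD0 (fun z' hz' hli' => h2 z' hz' P hP hli')
    have h3 : (Matrix.of fun i l => P i (T l)).det ∈ I := by
      rw [hmem, ha]
      exact Submodule.sum_mem _ (fun i _ => Submodule.smul_mem _ _ (hP i))
    have h4 := hz _ h3
    rw [aeval_eq_eval] at h4
    exact hdet h4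
  obtain ⟨K, hK⟩ := hg
  exact ⟨K, (hmem _).mp hK⟩

/-- Rows with homogeneous entries of the same degree. -/
def HomRow {σ τ : Type*} (e : ℕ) (r : τ → MvPolynomial σ ℂ) : Prop :=
  ∀ b, (r b).IsHomogeneous e

/-- Homogeneous components of rows. -/
noncomputable def rowComp {σ τ : Type*} (e : ℕ) (r : τ → MvPolynomial σ ℂ) :
    τ → MvPolynomial σ ℂ := fun b => homogeneousComponent e (r b)

/-- A module of rows `Γ` with values of constant rank `c` away from the origin. -/
structure IsBundle {σ τ : Type*} (c : ℕ)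
    (Γ : Submodule (MvPolynomial σ ℂ) (τ → MvPolynomial σ ℂ))
    (E : (σ → ℂ) → Submodule ℂ (τ → ℂ)) : Prop where
  mem : ∀ z ≠ 0, ∀ P ∈ Γ, rowEval z P ∈ E z
  exists_li : ∀ z ≠ 0, ∃ P : Fin c → τ → MvPolynomial σ ℂ, (∀ i, P i ∈ Γ) ∧
      (∀ i, ∃ e, HomRow e (P i)) ∧ LinearIndependent ℂ (fun i => rowEval z (P i))
  finrank : ∀ z ≠ 0, Module.finrank ℂ (E z) = c
  graded : ∀ P ∈ Γ, ∀ e, rowComp e P ∈ Γ

/-- Sections of the bundle. -/
def InE {σ τ : Type*} (E : (σ → ℂ) → Submodule ℂ (τ → ℂ)) (r : τ → MvPolynomial σ ℂ) : Prop :=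
  ∀ z ≠ 0, rowEval z r ∈ E z

section Bundle

variable {σ τ : Type*} [Fintype τ] {c : ℕ}
  {Γ : Submodule (MvPolynomial σ ℂ) (τ → MvPolynomial σ ℂ)}
  {E : (σ → ℂ) → Submodule ℂ (τ → ℂ)}

lemma span_eq_of_li {V : Submodule ℂ (τ → ℂ)} {c : ℕ} (hV : Module.finrank ℂ V = c)
    (w : Fin c → (τ → ℂ)) (hw : LinearIndependent ℂ w) (hmem : ∀ i, w i ∈ V) :
    Submodule.span ℂ (Set.range w) = V := by
  apply Submodule.eq_of_le_of_finrank_eq
  · rw [Submodule.span_le]
    rintro _ ⟨i, rfl⟩
    exact hmem i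
  · rw [finrank_span_eq_card hw, hV, Fintype.card_fin]

lemma IsBundle.span_eq (h : IsBundle c Γ E) {z : σ → ℂ} (hz : z ≠ 0)
    (P : Fin c → τ → MvPolynomial σ ℂ) (hP : ∀ i, InE E (P i))
    (hli : LinearIndependent ℂ (fun i => rowEval z (P i))) :
    Submodule.span ℂ (Set.range fun i => rowEval z (P i)) = E z :=
  span_eq_of_li (h.finrank z hz) _ hli (fun i => hP i z hz)

lemma IsBundle.inE (h : IsBundle c Γ E) {P : τ → MvPolynomial σ ℂ} (hP : P ∈ Γ) : InE E P :=
  fun z hz => h.mem z hz P hP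

lemma InE.add {r s : τ → MvPolynomial σ ℂ} (hr : InE E r) (hs : InE E s) : InE E (r + s) :=
  fun z hz => by rw [rowEval_add]; exact (E z).add_mem (hr z hz) (hs z hz)

lemma InE.sub {r s : τ → MvPolynomial σ ℂ} (hr : InE E r) (hs : InE E s) : InE E (r - s) :=
  fun z hz => by rw [rowEval_sub]; exact (E z).sub_mem (hr z hz) (hs z hz)

lemma InE.smul {r : τ → MvPolynomial σ ℂ} (g : MvPolynomial σ ℂ) (hr : InE E r) :
    InE E (g • r) :=
  fun z hz => by rw [rowEval_smul]; exact (E z).smul_mem _ (hr z hz)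

lemma InE.sum {ι : Type*} (s : Finset ι) (r : ι → τ → MvPolynomial σ ℂ)
    (hr : ∀ i ∈ s, InE E (r i)) : InE E (∑ i ∈ s, r i) :=
  fun z hz => by rw [rowEval_sum]; exact Submodule.sum_mem _ (fun i hi => hr i hi z hz)

lemma inE_zero : InE E (0 : τ → MvPolynomial σ ℂ) :=
  fun z _ => by rw [rowEval_zero]; exact (E z).zero_mem

/-- The conditions `rowEval z r ∈ E z` are closed. -/
lemma IsBundle.sat (hb : IsBundle c Γ E) {h : MvPolynomial σ ℂ} (hh : h ≠ 0)
    {r : τ → MvPolynomial σ ℂ} (hr : ∀ z ≠ 0, eval z h ≠ 0 → rowEval z r ∈ E z) :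
    InE E r := by
  classical
  intro z hz
  obtain ⟨P, hP, -, hli⟩ := hb.exists_li z hz
  obtain ⟨T, hT⟩ := exists_minor _ hli
  obtain ⟨i₀, hi₀⟩ := Function.ne_iff.mp hz
  have hdet : eval z (Matrix.of fun i l => P i (T l)).det ≠ 0 := by
    rw [eval_det]; exact hT
  have hD0 : (Matrix.of fun i l => P i (T l)).det ≠ 0 := by
    intro h0
    rw [h0, map_zero] at hdet
    exact hdet rfl
  obtain ⟨a, ha⟩ := cramer_comb P T r (h * X i₀) (mul_ne_zero hh (X_ne_zero _)) hD0 (by
    intro z' hz' hli'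
    rw [map_mul, eval_X] at hz'
    have h1 : z' ≠ 0 := by
      rintro rfl
      exact (right_ne_zero_of_mul hz') rfl
    rw [hb.span_eq h1 P (fun i => hb.inE (hP i)) hli']
    exact hr z' h1 (left_ne_zero_of_mul hz'))
  have h2 := congrArg (rowEval z) ha
  rw [rowEval_smul, rowEval_sum] at h2
  have h3 : eval z (Matrix.of fun i l => P i (T l)).det • rowEval z r ∈ E z := by
    rw [h2]
    refine Submodule.sum_mem _ (fun i _ => ?_)
    rw [rowEval_smul]
    exact Submodule.smul_mem _ _ (hb.mem z hz _ (hP i))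
  exact (Submodule.smul_mem_iff _ hdet).mp h3

lemma IsBundle.of_smul (hb : IsBundle c Γ E) {h : MvPolynomial σ ℂ} (hh : h ≠ 0)
    {r : τ → MvPolynomial σ ℂ} (hr : InE E (h • r)) : InE E r := by
  refine hb.sat hh (fun z hz hhz => ?_)
  have h1 := hr z hz
  rw [rowEval_smul] at h1
  exact (Submodule.smul_mem_iff _ hhz).mp h1

/-- Sections are generated by `Γ` up to powers. -/
lemma IsBundle.exists_pow [Finite σ] (hb : IsBundle c Γ E) {g : MvPolynomial σ ℂ}
    (hg : eval 0 g = 0) {r : τ → MvPolynomial σ ℂ} (hr : InE E r) : ∃ K : ℕ, g ^ K • r ∈ Γ := by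
  have hne : ∀ z, eval z g ≠ 0 → z ≠ 0 := by
    rintro z hz rfl
    exact hz hg
  refine exists_pow_smul_mem c Γ g r (fun z hz => ?_) ?_
  · obtain ⟨P, hP, -, hli⟩ := hb.exists_li z (hne z hz)
    exact ⟨P, hP, hli⟩
  intro z hz P hP hli
  rw [hb.span_eq (hne z hz) P (fun i => hb.inE (hP i)) hli]
  exact hr z (hne z hz)

end Bundle

end Pool.Agent.Hartshorne
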