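import Mathlib

/-!
Linear substitutions in polynomials, reflections and prime ideals stable under a finite
reflection group.
-/

namespace Pool.Agent.Hartshorne

open MvPolynomial

set_option linter.unusedSectionVars false

variable {σ : Type*} [Fintype σ] [DecidableEq σ]

/-- The linear substitution `f(x) ↦ f(g x)` attached to a square matrix `g`. -/
noncomputable def act (g : Matrix σ σ ℂ) : MvPolynomial σ ℂ →ₐ[ℂ] MvPolynomial σ ℂ :=
  aeval (fun i => ∑ j, C (g i j) * X j)

/-- `g` is a (pseudo-)reflection: `g ≠ 1` and `g x = x + (a · x) v` for some vectors `v`, `a`,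
that is, `g - 1` has rank one. -/
def IsReflection (g : GL σ ℂ) : Prop :=
  g ≠ 1 ∧ ∃ v a : σ → ℂ, (g : Matrix σ σ ℂ) = 1 + Matrix.vecMulVec v a

lemma act_X (g : Matrix σ σ ℂ) (i : σ) : act g (X i) = ∑ j, C (g i j) * X j := by
  simp [act]

lemma eval_act (g : Matrix σ σ ℂ) (p : σ → ℂ) (f : MvPolynomial σ ℂ) :
    eval p (act g f) = eval (g.mulVec p) f := by
  induction f using MvPolynomial.induction_on with
  | C a => simp [act]
  | add f h hf hh => simp [map_add, hf, hh]
  | mul_X f i hf =>
    rw [map_mul, map_mul, hf, map_mul, act_X]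
    simp [Matrix.mulVec, dotProduct]

lemma act_one : act (1 : Matrix σ σ ℂ) = AlgHom.id ℂ (MvPolynomial σ ℂ) := by
  apply MvPolynomial.algHom_ext
  intro i
  rw [act_X]
  simp [Matrix.one_apply]

lemma act_mul (g h : Matrix σ σ ℂ) (f : MvPolynomial σ ℂ) :
    act (g * h) f = act h (act g f) := by
  apply MvPolynomial.funext
  intro p
  rw [eval_act, eval_act, eval_act, Matrix.mulVec_mulVec]

lemma act_isHomogeneous (g : Matrix σ σ ℂ) {f : MvPolynomial σ ℂ} {d : ℕ}
    (hf : f.IsHomogeneous d) : (act g f).IsHomogeneous d := by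
  have h := hf.aeval (fun i => ∑ j, C (g i j) * X j) (n := 1)
    (fun i => IsHomogeneous.sum _ _ _ (fun j _ => isHomogeneous_C_mul_X _ _))
  simpa [act] using h

lemma act_totalDegree_le (g : Matrix σ σ ℂ) (f : MvPolynomial σ ℂ) :
    (act g f).totalDegree ≤ f.totalDegree := by
  conv_lhs => rw [← sum_homogeneousComponent f, map_sum]
  apply totalDegree_finsetSum_le
  intro i hi
  rw [Finset.mem_range] at hi
  have := (act_isHomogeneous g (homogeneousComponent_isHomogeneous i f)).totalDegree_le
  omega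

lemma act_homogeneousComponent (g : Matrix σ σ ℂ) (f : MvPolynomial σ ℂ) (d : ℕ) :
    homogeneousComponent d (act g f) = act g (homogeneousComponent d f) := by
  conv_lhs => rw [← sum_homogeneousComponent f, map_sum, map_sum]
  have h : ∀ i, homogeneousComponent d (act g (homogeneousComponent i f))
      = if d = i then act g (homogeneousComponent i f) else 0 := fun i =>
    homogeneousComponent_of_mem (act_isHomogeneous g (homogeneousComponent_isHomogeneous i f))
  simp_rw [h]
  rw [Finset.sum_ite_eq]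
  split_ifs with hd
  · rfl
  · rw [Finset.mem_range, not_lt] at hd
    rw [homogeneousComponent_eq_zero _ _ (by omega), map_zero]

/-- A reflection changes a polynomial by a multiple of the equation of its mirror. -/
lemma dvd_act_sub (v a : σ → ℂ) (f : MvPolynomial σ ℂ) :
    (∑ j, C (a j) * X j) ∣ act (1 + Matrix.vecMulVec v a) f - f := by
  rw [← Ideal.mem_span_singleton, ← Ideal.Quotient.eq_zero_iff_mem, map_sub, sub_eq_zero]
  set K := Ideal.span {(∑ j, C (a j) * X j : MvPolynomial σ ℂ)}
  have h : (Ideal.Quotient.mkₐ ℂ K).comp (act (1 + Matrix.vecMulVec v a))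
      = Ideal.Quotient.mkₐ ℂ K := by
    apply MvPolynomial.algHom_ext
    intro i
    rw [AlgHom.comp_apply, act_X]
    have e : (∑ j, C ((1 + Matrix.vecMulVec v a) i j) * X j : MvPolynomial σ ℂ)
        = X i + C (v i) * ∑ j, C (a j) * X j := by
      simp only [Matrix.add_apply, Matrix.vecMulVec_apply, map_add, add_mul, Finset.sum_add_distrib,
        Finset.mul_sum, map_mul, mul_assoc]
      congr 1
      simp [Matrix.one_apply]
    rw [e, map_add, map_mul]
    have z : Ideal.Quotient.mkₐ ℂ K (∑ j, C (a j) * X j : MvPolynomial σ ℂ) = 0 := by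
      rw [Ideal.Quotient.mkₐ_eq_mk, Ideal.Quotient.eq_zero_iff_mem]
      exact Ideal.subset_span rfl
    rw [z, mul_zero, add_zero]
  exact DFunLike.congr_fun h f

lemma eval_mirror (a p : σ → ℂ) : eval p (∑ j, C (a j) * X j : MvPolynomial σ ℂ) = a ⬝ᵥ p := by
  simp [dotProduct]

lemma totalDegree_linear {a : σ → ℂ} (h : (∑ j, C (a j) * X j : MvPolynomial σ ℂ) ≠ 0) :
    (∑ j, C (a j) * X j : MvPolynomial σ ℂ).totalDegree = 1 :=
  (IsHomogeneous.sum _ _ _ (fun j _ => isHomogeneous_C_mul_X _ _)).totalDegree h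

/-- The ideal generated by the invariant elements of `I` of degree at most `k`. -/
noncomputable def invSpan (G : Subgroup (GL σ ℂ)) (I : Ideal (MvPolynomial σ ℂ)) (k : ℕ) :
    Ideal (MvPolynomial σ ℂ) :=
  Ideal.span {h | h ∈ I ∧ (∀ g ∈ G, act (g : Matrix σ σ ℂ) h = h) ∧ h.totalDegree ≤ k}

lemma invSpan_mono (G : Subgroup (GL σ ℂ)) (I : Ideal (MvPolynomial σ ℂ)) {k l : ℕ}
    (h : k ≤ l) : invSpan G I k ≤ invSpan G I l :=
  Ideal.span_mono (fun _ hx => ⟨hx.1, hx.2.1, hx.2.2.trans h⟩)

lemma act_mem_invSpan (G : Subgroup (GL σ ℂ)) (I : Ideal (MvPolynomial σ ℂ)) (k : ℕ)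
    {g : GL σ ℂ} (hg : g ∈ G) {f : MvPolynomial σ ℂ} (hf : f ∈ invSpan G I k) :
    act (g : Matrix σ σ ℂ) f ∈ invSpan G I k := by
  unfold invSpan at hf ⊢
  induction hf using Submodule.span_induction with
  | mem x hx => rw [hx.2.1 g hg]; exact Ideal.subset_span hx
  | zero => rw [map_zero]; exact Ideal.zero_mem _
  | add x y _ _ hx hy => rw [map_add]; exact Ideal.add_mem _ hx hy
  | smul a x _ hx => rw [smul_eq_mul, map_mul]; exact Ideal.mul_mem_left _ _ hx

/-- A prime ideal that is stable under a finite reflection group and not contained in a mirror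
is generated by invariants, with control of degrees. -/
theorem mem_invSpan (G : Subgroup (GL σ ℂ)) [Finite G]
    (hG : Subgroup.closure {g | g ∈ G ∧ IsReflection g} = G)
    (I : Ideal (MvPolynomial σ ℂ)) (hI : I.IsPrime)
    (hstab : ∀ g ∈ G, ∀ h ∈ I, act (g : Matrix σ σ ℂ) h ∈ I)
    (hmir : ∀ g ∈ G, IsReflection g →
      ∃ p : σ → ℂ, (∀ h ∈ I, eval p h = 0) ∧ (g : Matrix σ σ ℂ).mulVec p ≠ p) :
    ∀ k : ℕ, ∀ f ∈ I, f.totalDegree ≤ k → f ∈ invSpan G I k := by
  intro k
  induction k using Nat.strong_induction_on with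
  | _ k ih =>
  intro f₀ hf₀ hk₀
  -- congruence modulo the span for all group elements
  have key : ∀ g ∈ G, ∀ f ∈ I, f.totalDegree ≤ k →
      act (g : Matrix σ σ ℂ) f - f ∈ invSpan G I k := by
    intro g hg
    rw [← hG] at hg
    have hg' : g ∈ G ∧ ∀ f ∈ I, f.totalDegree ≤ k →
      act (g : Matrix σ σ ℂ) f - f ∈ invSpan G I k := by
      induction hg using Subgroup.closure_induction with
      | mem g hg =>
        refine ⟨hg.1, ?_⟩
        intro f hf hk
        obtain ⟨hgG, hrefl⟩ := hg
        obtain ⟨p, hp, hpne⟩ := hmir g hgG hrefl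
        obtain ⟨_, v, a, hva⟩ := hrefl
        obtain ⟨q, hq⟩ := dvd_act_sub v a f
        rw [← hva] at hq
        set α : MvPolynomial σ ℂ := ∑ j, C (a j) * X j with hα
        have hαp : eval p α ≠ 0 := by
          rw [hα, eval_mirror]
          intro h0
          apply hpne
          rw [hva, Matrix.add_mulVec, Matrix.one_mulVec, Matrix.vecMulVec_mulVec, h0]
          simp
        have hαI : α ∉ I := fun h => hαp (hp α h)
        have hα0 : α ≠ 0 := by rintro h; rw [h, map_zero] at hαp; exact hαp rfl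
        have hmem : α * q ∈ I := by
          rw [← hq]; exact Ideal.sub_mem _ (hstab g hgG f hf) hf
        have hqI : q ∈ I := (hI.mem_or_mem hmem).resolve_left hαI
        rw [hq]
        by_cases hq0 : q = 0
        · rw [hq0, mul_zero]; exact Ideal.zero_mem _
        · have hdeg : (α * q).totalDegree = 1 + q.totalDegree := by
            rw [totalDegree_mul_of_isDomain hα0 hq0, totalDegree_linear hα0]
          have hdeg2 : (α * q).totalDegree ≤ k := by
            rw [← hq]
            refine (totalDegree_sub _ _).trans (max_le ?_ hk)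
            exact (act_totalDegree_le _ _).trans hk
          have hlt : q.totalDegree < k := by omega
          exact Ideal.mul_mem_left _ _ (invSpan_mono G I hlt.le (ih _ hlt q hqI le_rfl))
      | one =>
        refine ⟨G.one_mem, ?_⟩
        intro f _ _
        simp only [Units.val_one, act_one, AlgHom.id_apply, sub_self]
        exact Ideal.zero_mem _
      | mul g h _ _ hg hh =>
        refine ⟨G.mul_mem hg.1 hh.1, ?_⟩
        intro f hf hk
        rw [Units.val_mul, act_mul]
        have h1 := act_mem_invSpan G I k hh.1 (hg.2 f hf hk)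
        have h2 := hh.2 f hf hk
        rw [map_sub] at h1
        have := Ideal.add_mem _ h1 h2
        simpa using this
      | inv g _ hg =>
        have hginv := G.inv_mem hg.1
        refine ⟨hginv, ?_⟩
        intro f hf hk
        have h1 := act_mem_invSpan G I k hginv (hg.2 f hf hk)
        rw [map_sub, ← act_mul, ← Units.val_mul, mul_inv_cancel, Units.val_one, act_one,
          AlgHom.id_apply] at h1
        have := Ideal.neg_mem_iff (I := invSpan G I k) |>.mpr h1
        simpa using this
    exact hg'.2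
  -- averaging
  haveI : Fintype G := Fintype.ofFinite G
  set F : MvPolynomial σ ℂ := ∑ g : G, act ((g : GL σ ℂ) : Matrix σ σ ℂ) f₀ with hF
  have hFinv : ∀ h ∈ G, act (h : Matrix σ σ ℂ) F = F := by
    intro h hh
    rw [hF, map_sum]
    have : ∀ g : G, act (h : Matrix σ σ ℂ) (act ((g : GL σ ℂ) : Matrix σ σ ℂ) f₀)
        = act (((g * ⟨h, hh⟩ : G) : GL σ ℂ) : Matrix σ σ ℂ) f₀ := by
      intro g
      rw [Subgroup.coe_mul, Units.val_mul, act_mul]
    simp_rw [this]
    exact Fintype.sum_equiv (Equiv.mulRight (⟨h, hh⟩ : G)) _ _ (fun g => rfl)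
  have hFI : F ∈ I := Ideal.sum_mem _ (fun g _ => hstab _ g.2 _ hf₀)
  have hFdeg : F.totalDegree ≤ k :=
    totalDegree_finsetSum_le (fun g _ => (act_totalDegree_le _ _).trans hk₀)
  have hFmem : F ∈ invSpan G I k := Ideal.subset_span ⟨hFI, hFinv, hFdeg⟩
  have hdiff : F - (Fintype.card G : ℂ) • f₀ ∈ invSpan G I k := by
    have : F - (Fintype.card G : ℂ) • f₀
        = ∑ g : G, (act ((g : GL σ ℂ) : Matrix σ σ ℂ) f₀ - f₀) := by
      rw [Finset.sum_sub_distrib, ← hF]
      simp [Algebra.smul_def]
    rw [this]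
    exact Ideal.sum_mem _ (fun g _ => key _ g.2 f₀ hf₀ hk₀)
  have h3 : (Fintype.card G : ℂ) • f₀ ∈ invSpan G I k := by
    have := Ideal.sub_mem _ hFmem hdiff
    simpa using this
  have hcard : (Fintype.card G : ℂ) ≠ 0 := by
    exact_mod_cast Fintype.card_ne_zero
  have h4 : f₀ = C ((Fintype.card G : ℂ)⁻¹) * ((Fintype.card G : ℂ) • f₀) := by
    rw [Algebra.smul_def, algebraMap_eq, ← mul_assoc, ← C_mul, inv_mul_cancel₀ hcard, C_1, one_mul]
  rw [h4]
  exact Ideal.mul_mem_left _ _ h3

end Pool.Agent.Hartshorne
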