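import Mathlib
import Pool.Agent.Hartshorne.Act

/-!
Chevalley's theorem: the invariants of a finite reflection group in `n` variables are generated
by at most `n` homogeneous polynomials (which are algebraically independent).
-/

namespace Pool.Agent.Hartshorne

open MvPolynomial

set_option linter.unusedSectionVars false

variable {σ : Type*} [Fintype σ] [DecidableEq σ]

/-- Being invariant under `G`. -/
def Inv (G : Subgroup (GL σ ℂ)) (h : MvPolynomial σ ℂ) : Prop :=
  ∀ g ∈ G, act (g : Matrix σ σ ℂ) h = h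

section Homog

lemma homogeneousComponent_mul_right {p : MvPolynomial σ ℂ} {b : ℕ} (hp : p.IsHomogeneous b)
    (v : MvPolynomial σ ℂ) (n : ℕ) :
    homogeneousComponent n (v * p) = if b ≤ n then homogeneousComponent (n - b) v * p else 0 := by
  conv_lhs => rw [← sum_homogeneousComponent v, Finset.sum_mul, map_sum]
  have h : ∀ i, homogeneousComponent n (homogeneousComponent i v * p)
      = if n = i + b then homogeneousComponent i v * p else 0 := fun i =>
    homogeneousComponent_of_mem ((homogeneousComponent_isHomogeneous i v).mul hp)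
  simp_rw [h]
  split_ifs with hb
  · by_cases hn : n - b < v.totalDegree + 1
    · rw [Finset.sum_eq_single (n - b)]
      · rw [if_pos (by omega)]
      · intro i _ hi
        rw [if_neg (by omega)]
      · intro hcon
        exact absurd (Finset.mem_range.mpr hn) hcon
    · rw [homogeneousComponent_eq_zero _ _ (by omega), zero_mul]
      refine Finset.sum_eq_zero (fun i hi => ?_)
      rw [Finset.mem_range] at hi
      rw [if_neg (by omega)]
  · refine Finset.sum_eq_zero (fun i _ => ?_)
    rw [if_neg (by omega)]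

lemma isHomogeneous_of_mul_left {α q : MvPolynomial σ ℂ} {n : ℕ} (hα : α.IsHomogeneous 1)
    (hα0 : α ≠ 0) (h : (α * q).IsHomogeneous (n + 1)) : q.IsHomogeneous n := by
  have h1 : homogeneousComponent (n + 1) (q * α) = q * α := by
    rw [mul_comm]; exact homogeneousComponent_eq_self h
  rw [homogeneousComponent_mul_right hα, if_pos (by omega), Nat.add_sub_cancel] at h1
  have h2 := mul_right_cancel₀ hα0 h1
  rw [← h2]
  exact homogeneousComponent_isHomogeneous _ _

end Homog

section Reynolds

variable (G : Subgroup (GL σ ℂ)) [Fintype G]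

/-- The Reynolds operator. -/
noncomputable def reynolds : MvPolynomial σ ℂ →ₗ[ℂ] MvPolynomial σ ℂ :=
  ((Fintype.card G : ℂ)⁻¹) • ∑ g : G, (act ((g : GL σ ℂ) : Matrix σ σ ℂ)).toLinearMap

lemma reynolds_apply (f : MvPolynomial σ ℂ) : reynolds G f =
    ((Fintype.card G : ℂ)⁻¹) • ∑ g : G, act ((g : GL σ ℂ) : Matrix σ σ ℂ) f := by
  simp [reynolds, LinearMap.sum_apply]

lemma reynolds_inv (f : MvPolynomial σ ℂ) : Inv G (reynolds G f) := by
  intro h hh
  rw [reynolds_apply, map_smul, map_sum]
  have h1 : ∀ g : G, act (h : Matrix σ σ ℂ) (act ((g : GL σ ℂ) : Matrix σ σ ℂ) f)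
      = act (((g * ⟨h, hh⟩ : G) : GL σ ℂ) : Matrix σ σ ℂ) f := by
    intro g
    rw [Subgroup.coe_mul, Units.val_mul, act_mul]
  have h2 : ∑ g : G, act (h : Matrix σ σ ℂ) (act ((g : GL σ ℂ) : Matrix σ σ ℂ) f)
      = ∑ g : G, act ((g : GL σ ℂ) : Matrix σ σ ℂ) f := by
    rw [Finset.sum_congr rfl (fun g _ => h1 g)]
    exact Equiv.sum_comp (Equiv.mulRight (⟨h, hh⟩ : G))
      (fun g : G => act ((g : GL σ ℂ) : Matrix σ σ ℂ) f)
  rw [h2]

lemma reynolds_mul {u : MvPolynomial σ ℂ} (hu : Inv G u) (f : MvPolynomial σ ℂ) :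
    reynolds G (f * u) = reynolds G f * u := by
  rw [reynolds_apply, reynolds_apply, smul_mul_assoc, Finset.sum_mul]
  congr 1
  refine Finset.sum_congr rfl (fun g _ => ?_)
  rw [map_mul, hu _ g.2]

lemma card_ne : (Fintype.card G : ℂ) ≠ 0 := by
  exact_mod_cast Fintype.card_ne_zero

lemma reynolds_of_inv {u : MvPolynomial σ ℂ} (hu : Inv G u) : reynolds G u = u := by
  rw [reynolds_apply, Finset.sum_congr rfl (fun (g : G) _ => hu _ g.2), Finset.sum_const,
    Finset.card_univ, ← Nat.cast_smul_eq_nsmul ℂ, smul_smul, inv_mul_cancel₀ (card_ne G), one_smul]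

lemma reynolds_isHomogeneous {f : MvPolynomial σ ℂ} {n : ℕ} (hf : f.IsHomogeneous n) :
    (reynolds G f).IsHomogeneous n := by
  rw [reynolds_apply]
  exact Submodule.smul_mem (homogeneousSubmodule σ ℂ n) _
    (IsHomogeneous.sum _ _ _ (fun g _ => act_isHomogeneous _ hf))

lemma sub_reynolds_mem {K : Ideal (MvPolynomial σ ℂ)} {f : MvPolynomial σ ℂ}
    (h : ∀ g ∈ G, act (g : Matrix σ σ ℂ) f - f ∈ K) : reynolds G f - f ∈ K := by
  have : reynolds G f - f = C ((Fintype.card G : ℂ)⁻¹) *
      ∑ g : G, (act ((g : GL σ ℂ) : Matrix σ σ ℂ) f - f) := by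
    rw [Finset.sum_sub_distrib, mul_sub, reynolds_apply, Algebra.smul_def, algebraMap_eq,
      Finset.sum_const, Finset.card_univ, ← Nat.cast_smul_eq_nsmul ℂ, Algebra.smul_def,
      algebraMap_eq, ← mul_assoc, ← C_mul, inv_mul_cancel₀ (card_ne G), C_1, one_mul]
  rw [this]
  exact Ideal.mul_mem_left _ _ (Ideal.sum_mem _ (fun g _ => h _ g.2))

end Reynolds

/-- If all reflections fix `f` modulo a stable ideal, then so does the group they generate. -/
lemma act_sub_mem_of_reflections (G : Subgroup (GL σ ℂ))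
    (hG : Subgroup.closure {g | g ∈ G ∧ IsReflection g} = G)
    (K : Ideal (MvPolynomial σ ℂ))
    (hK : ∀ g ∈ G, ∀ f ∈ K, act (g : Matrix σ σ ℂ) f ∈ K) (f : MvPolynomial σ ℂ)
    (h : ∀ g ∈ G, IsReflection g → act (g : Matrix σ σ ℂ) f - f ∈ K) :
    ∀ g ∈ G, act (g : Matrix σ σ ℂ) f - f ∈ K := by
  intro g hg
  rw [← hG] at hg
  have hg' : g ∈ G ∧ act (g : Matrix σ σ ℂ) f - f ∈ K := by
    induction hg using Subgroup.closure_induction with
    | mem g hg => exact ⟨hg.1, h g hg.1 hg.2⟩
    | one =>
      refine ⟨G.one_mem, ?_⟩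
      simp only [Units.val_one, act_one, AlgHom.id_apply, sub_self]
      exact Ideal.zero_mem _
    | mul g h _ _ hg hh =>
      refine ⟨G.mul_mem hg.1 hh.1, ?_⟩
      rw [Units.val_mul, act_mul]
      have h1 := hK h hh.1 _ hg.2
      rw [map_sub] at h1
      have := Ideal.add_mem _ h1 hh.2
      simpa using this
    | inv g _ hg =>
      have hginv := G.inv_mem hg.1
      refine ⟨hginv, ?_⟩
      have h1 := hK _ hginv _ hg.2
      rw [map_sub, ← act_mul, ← Units.val_mul, mul_inv_cancel, Units.val_one, act_one,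
        AlgHom.id_apply] at h1
      have := K.neg_mem_iff.mpr h1
      simpa using this
  exact hg'.2

/-- The ideal generated by the homogeneous invariants of positive degree. -/
noncomputable def hilbertIdeal (G : Subgroup (GL σ ℂ)) : Ideal (MvPolynomial σ ℂ) :=
  Ideal.span {h | Inv G h ∧ ∃ e, 0 < e ∧ h.IsHomogeneous e}

lemma act_mem_hilbertIdeal (G : Subgroup (GL σ ℂ)) :
    ∀ g ∈ G, ∀ f ∈ hilbertIdeal G, act (g : Matrix σ σ ℂ) f ∈ hilbertIdeal G := by
  intro g hg f hf
  unfold hilbertIdeal at hf ⊢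
  induction hf using Submodule.span_induction with
  | mem x hx => rw [hx.1 g hg]; exact Ideal.subset_span hx
  | zero => rw [map_zero]; exact Ideal.zero_mem _
  | add x y _ _ hx hy => rw [map_add]; exact Ideal.add_mem _ hx hy
  | smul a x _ hx => rw [smul_eq_mul, map_mul]; exact Ideal.mul_mem_left _ _ hx

/-- Chevalley's lemma. -/
lemma chevalley_key (G : Subgroup (GL σ ℂ)) [Fintype G]
    (hG : Subgroup.closure {g | g ∈ G ∧ IsReflection g} = G)
    {ι : Type*} [DecidableEq ι] (U : Finset ι) (p : ι → MvPolynomial σ ℂ)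
    (hp : ∀ j ∈ U, Inv G (p j)) (i₁ : ι) (hi₁ : i₁ ∈ U)
    (hmin : p i₁ ∉ Ideal.span (p '' (U.erase i₁ : Finset ι))) :
    ∀ n, ∀ h : ι → MvPolynomial σ ℂ, (h i₁).IsHomogeneous n → ∑ j ∈ U, p j * h j = 0 →
      h i₁ ∈ hilbertIdeal G := by
  intro n
  induction n with
  | zero =>
    intro h hh hsum
    have h1 : (h i₁).totalDegree = 0 := Nat.le_zero.mp hh.totalDegree_le
    rw [totalDegree_eq_zero_iff_eq_C] at h1
    by_cases hc : coeff 0 (h i₁) = 0
    · rw [hc, map_zero] at h1
      rw [h1]; exact Ideal.zero_mem _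
    · exfalso
      apply hmin
      rw [← Finset.add_sum_erase U _ hi₁] at hsum
      have h2 : p i₁ = -(C (coeff 0 (h i₁))⁻¹) * ∑ j ∈ U.erase i₁, p j * h j := by
        have h3 : ∑ j ∈ U.erase i₁, p j * h j = - (p i₁ * h i₁) := by
          rw [eq_neg_iff_add_eq_zero, add_comm]; exact hsum
        rw [h3, h1, coeff_C, if_pos rfl]
        have h4 : (C (coeff 0 (h i₁))⁻¹ : MvPolynomial σ ℂ) * C (coeff 0 (h i₁)) = 1 := by
          rw [← C_mul, inv_mul_cancel₀ hc, C_1]
        linear_combination (-(p i₁)) * h4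
      rw [h2]
      refine Ideal.mul_mem_left _ _ (Ideal.sum_mem _ (fun j hj => ?_))
      exact Ideal.mul_mem_right _ _ (Ideal.subset_span ⟨j, hj, rfl⟩)
  | succ n ih =>
    intro h hh hsum
    have hrefl : ∀ g ∈ G, IsReflection g → act (g : Matrix σ σ ℂ) (h i₁) - h i₁ ∈ hilbertIdeal G := by
      rintro g hg ⟨hne, v, a, hva⟩
      have hq : ∀ j, ∃ q, act (g : Matrix σ σ ℂ) (h j) - h j = (∑ j, C (a j) * X j) * q := by
        intro j
        obtain ⟨q, hq⟩ := dvd_act_sub v a (h j)
        rw [← hva] at hq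
        exact ⟨q, hq⟩
      choose q hq using hq
      set α : MvPolynomial σ ℂ := ∑ j, C (a j) * X j with hα
      have hα0 : α ≠ 0 := by
        intro h0
        apply hne
        have ha : a = 0 := by
          funext j
          have h1 := congrArg (fun P => eval (Pi.single j 1 : σ → ℂ) P) h0
          simp only [hα, eval_mirror, map_zero] at h1
          simpa using h1
        apply Units.ext
        rw [hva, ha]
        simp
      have hα1 : α.IsHomogeneous 1 :=
        IsHomogeneous.sum _ _ _ (fun j _ => isHomogeneous_C_mul_X _ _)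
      have hsum' : ∑ j ∈ U, p j * q j = 0 := by
        apply mul_left_cancel₀ hα0
        rw [mul_zero, Finset.mul_sum]
        have h1 : ∀ j ∈ U, α * (p j * q j) = act (g : Matrix σ σ ℂ) (p j * h j) - p j * h j := by
          intro j hj
          rw [map_mul, hp j hj g hg]
          linear_combination (-(p j)) * hq j
        rw [Finset.sum_congr rfl h1, Finset.sum_sub_distrib, ← map_sum, hsum, map_zero, sub_zero]
      have hqh : (q i₁).IsHomogeneous n := by
        apply isHomogeneous_of_mul_left hα1 hα0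
        rw [← hq i₁]
        exact (act_isHomogeneous _ hh).sub hh
      rw [hq i₁]
      exact Ideal.mul_mem_left _ _ (ih q hqh hsum')
    have h1 := act_sub_mem_of_reflections G hG _ (act_mem_hilbertIdeal G) (h i₁) hrefl
    have h2 := sub_reynolds_mem G h1
    have h3 : reynolds G (h i₁) ∈ hilbertIdeal G :=
      Ideal.subset_span ⟨reynolds_inv G _, n + 1, by omega, reynolds_isHomogeneous G hh⟩
    have h4 := Ideal.sub_mem _ h3 h2
    simpa using h4

lemma aeval_weightedHomogeneousComponent {τ : Type*} (f : τ → MvPolynomial σ ℂ) (d : τ → ℕ)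
    (hf : ∀ i, (f i).IsHomogeneous (d i)) (e : ℕ) (P : MvPolynomial τ ℂ) :
    aeval f (weightedHomogeneousComponent d e P) = homogeneousComponent e (aeval f P) := by
  induction P using MvPolynomial.induction_on' with
  | add p q hp hq => rw [map_add, map_add, map_add, map_add, hp, hq]
  | monomial s c =>
    have hhom : (aeval f (monomial s c) : MvPolynomial σ ℂ).IsHomogeneous
        (Finsupp.weight d s) := by
      rw [aeval_monomial, algebraMap_eq]
      have h1 : (s.prod fun i k => f i ^ k).IsHomogeneous (Finsupp.weight d s) := by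
        rw [Finsupp.prod, Finsupp.weight_apply, Finsupp.sum]
        refine IsHomogeneous.prod _ _ _ (fun i _ => ?_)
        have := (hf i).pow (s i)
        rwa [smul_eq_mul, mul_comm]
      exact h1.C_mul c
    rw [homogeneousComponent_of_mem (hhom : _ ∈ homogeneousSubmodule σ ℂ _),
      weightedHomogeneousComponent_of_mem
      (isWeightedHomogeneous_monomial d s c rfl : _ ∈ weightedHomogeneousSubmodule ℂ d _)]
    split_ifs <;> simp

lemma inv_aeval (G : Subgroup (GL σ ℂ)) {τ : Type*} (f : τ → MvPolynomial σ ℂ)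
    (hf : ∀ i, Inv G (f i)) (P : MvPolynomial τ ℂ) : Inv G (aeval f P) := by
  intro g hg
  rw [← AlgHom.comp_apply, comp_aeval]
  have : (fun i => act (g : Matrix σ σ ℂ) (f i)) = f := by
    funext i; exact hf i g hg
  rw [this]

lemma pderiv_aeval {σ τ : Type*} [Fintype τ] (f : τ → MvPolynomial σ ℂ) (P : MvPolynomial τ ℂ)
    (j : σ) : pderiv j (aeval f P) = ∑ l, aeval f (pderiv l P) * pderiv j (f l) := by
  classical
  induction P using MvPolynomial.induction_on with
  | C a =>
    rw [aeval_C, algebraMap_eq, pderiv_C]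
    symm
    refine Finset.sum_eq_zero (fun l _ => ?_)
    rw [pderiv_C, map_zero, zero_mul]
  | add p q hp hq =>
    rw [map_add, map_add, hp, hq, ← Finset.sum_add_distrib]
    refine Finset.sum_congr rfl (fun l _ => ?_)
    rw [map_add, map_add, add_mul]
  | mul_X p i hp =>
    have h1 : ∀ l, aeval f (pderiv l (p * X i)) * pderiv j (f l)
        = (aeval f (pderiv l p) * pderiv j (f l)) * f i
          + (if l = i then aeval f p * pderiv j (f i) else 0) := by
      intro l
      rw [pderiv_mul, map_add, map_mul, map_mul, aeval_X]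
      by_cases hl : l = i
      · subst hl
        rw [pderiv_X_self, map_one, if_pos rfl]
        ring
      · rw [pderiv_X_of_ne (Ne.symm hl), map_zero, if_neg hl]
        ring
    rw [Finset.sum_congr rfl (fun l _ => h1 l), Finset.sum_add_distrib, ← Finset.sum_mul, ← hp,
      Finset.sum_ite_eq' Finset.univ i, if_pos (Finset.mem_univ i), map_mul, aeval_X, pderiv_mul]

/-- A minimal finite generating set of the Hilbert ideal. -/
lemma exists_minimal_generators (G : Subgroup (GL σ ℂ)) :
    ∃ (r : ℕ) (f : Fin r → MvPolynomial σ ℂ) (d : Fin r → ℕ), (∀ i, 0 < d i) ∧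
      (∀ i, (f i).IsHomogeneous (d i)) ∧ (∀ i, Inv G (f i)) ∧
      Ideal.span (Set.range f) = hilbertIdeal G ∧ ∀ i, f i ∉ Ideal.span (f '' {i}ᶜ) := by
  classical
  set T : Set (MvPolynomial σ ℂ) := {h | Inv G h ∧ ∃ e, 0 < e ∧ h.IsHomogeneous e} with hT
  have hfg : (Submodule.span (MvPolynomial σ ℂ) T).FG := IsNoetherian.noetherian _
  rw [Submodule.fg_span_iff_fg_span_finset_subset] at hfg
  have hex : ∃ k : ℕ, ∃ s : Finset (MvPolynomial σ ℂ), (s : Set (MvPolynomial σ ℂ)) ⊆ T ∧
      Ideal.span (s : Set (MvPolynomial σ ℂ)) = hilbertIdeal G ∧ s.card = k := by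
    obtain ⟨s, hs, hs2⟩ := hfg
    exact ⟨s.card, s, hs, hs2.symm, rfl⟩
  obtain ⟨s, hsT, hs, hcard⟩ := Nat.find_spec hex
  have hmin : ∀ s' : Finset (MvPolynomial σ ℂ), (s' : Set (MvPolynomial σ ℂ)) ⊆ T →
      Ideal.span (s' : Set (MvPolynomial σ ℂ)) = hilbertIdeal G → s.card ≤ s'.card := by
    intro s' h1 h2
    rw [hcard]
    exact Nat.find_min' hex ⟨s', h1, h2, rfl⟩
  let f : Fin s.card → MvPolynomial σ ℂ := fun i => (s.equivFin.symm i : MvPolynomial σ ℂ)
  have hfs : ∀ i, f i ∈ s := fun i => (s.equivFin.symm i).2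
  have hfT : ∀ i, f i ∈ T := fun i => hsT (hfs i)
  have hinj : Function.Injective f := fun i j hij =>
    s.equivFin.symm.injective (Subtype.ext hij)
  have hrange : Set.range f = s := by
    ext x
    constructor
    · rintro ⟨i, rfl⟩; exact hfs i
    · intro hx
      exact ⟨s.equivFin ⟨x, hx⟩, by simp [f]⟩
  choose d hd using fun i => (hfT i).2
  refine ⟨s.card, f, d, fun i => (hd i).1, fun i => (hd i).2, fun i => (hfT i).1, ?_, ?_⟩
  · rw [hrange, hs]
  · intro i hi
    have h1 : f '' {i}ᶜ = ((s.erase (f i) : Finset _) : Set (MvPolynomial σ ℂ)) := by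
      ext x
      rw [Finset.mem_coe, Finset.mem_erase]
      constructor
      · rintro ⟨j, hj, rfl⟩
        exact ⟨fun h => hj (hinj h), hfs j⟩
      · rintro ⟨hx, hxs⟩
        have : x ∈ Set.range f := by rw [hrange]; exact hxs
        obtain ⟨j, rfl⟩ := this
        exact ⟨j, fun h => hx (by rw [Set.mem_singleton_iff.mp h]), rfl⟩
    rw [h1] at hi
    have h2 : Ideal.span ((s.erase (f i) : Finset _) : Set (MvPolynomial σ ℂ)) = hilbertIdeal G := by
      apply le_antisymm
      · rw [← hs]; exact Ideal.span_mono (by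
          intro x hx
          exact Finset.mem_of_mem_erase hx)
      · rw [← hs, Ideal.span_le]
        intro x hx
        by_cases hxi : x = f i
        · rw [hxi]; exact hi
        · exact Ideal.subset_span (Finset.mem_erase.mpr ⟨hxi, hx⟩)
    have h3 := hmin (s.erase (f i)) (fun x hx => hsT (Finset.mem_of_mem_erase hx)) h2
    rw [Finset.card_erase_of_mem (hfs i)] at h3
    have : 0 < s.card := Finset.card_pos.mpr ⟨_, hfs i⟩
    omega

/-- Generators of the Hilbert ideal generate the ring of invariants. -/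
lemma inv_mem_adjoin (G : Subgroup (GL σ ℂ)) [Fintype G] {r : ℕ} (f : Fin r → MvPolynomial σ ℂ)
    (d : Fin r → ℕ) (hd : ∀ i, 0 < d i) (hfd : ∀ i, (f i).IsHomogeneous (d i))
    (hinv : ∀ i, Inv G (f i)) (hspan : Ideal.span (Set.range f) = hilbertIdeal G) :
    ∀ h, Inv G h → h ∈ Algebra.adjoin ℂ (Set.range f) := by
  have main : ∀ e : ℕ, ∀ h, Inv G h → h.IsHomogeneous e → h ∈ Algebra.adjoin ℂ (Set.range f) := by
    intro e
    induction e using Nat.strong_induction_on with
    | _ e ih =>
    intro h hh he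
    by_cases he0 : e = 0
    · subst he0
      have h1 : h.totalDegree = 0 := Nat.le_zero.mp he.totalDegree_le
      rw [totalDegree_eq_zero_iff_eq_C] at h1
      rw [h1]
      exact Subalgebra.algebraMap_mem _ _
    · have h1 : h ∈ Ideal.span (Set.range f) := by
        rw [hspan]
        exact Ideal.subset_span ⟨hh, e, Nat.pos_of_ne_zero he0, he⟩
      rw [Ideal.mem_span_range_iff_exists_fun] at h1
      obtain ⟨c, hc⟩ := h1
      have h2 : h = ∑ i, reynolds G (homogeneousComponent e (c i * f i)) := by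
        conv_lhs => rw [← reynolds_of_inv G hh, ← homogeneousComponent_eq_self he, ← hc]
        rw [map_sum, map_sum]
      rw [h2]
      refine Subalgebra.sum_mem _ (fun i _ => ?_)
      rw [homogeneousComponent_mul_right (hfd i)]
      split_ifs with hle
      · rw [reynolds_mul G (hinv i)]
        refine Subalgebra.mul_mem _ ?_ (Algebra.subset_adjoin ⟨i, rfl⟩)
        have := hd i
        exact ih (e - d i) (by omega) _ (reynolds_inv G _)
          (reynolds_isHomogeneous G (homogeneousComponent_isHomogeneous _ _))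
      · rw [map_zero]; exact Subalgebra.zero_mem _
  intro h hh
  rw [← sum_homogeneousComponent h]
  refine Subalgebra.sum_mem _ (fun e _ => main e _ ?_ (homogeneousComponent_isHomogeneous _ _))
  intro g hg
  rw [← act_homogeneousComponent, hh g hg]

/-- Chevalley's theorem: algebraic independence of a minimal set of generators. -/
lemma algebraicIndependent_generators (G : Subgroup (GL σ ℂ)) [Fintype G]
    (hG : Subgroup.closure {g | g ∈ G ∧ IsReflection g} = G)
    {r : ℕ} (f : Fin r → MvPolynomial σ ℂ)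
    (d : Fin r → ℕ) (hd : ∀ i, 0 < d i) (hfd : ∀ i, (f i).IsHomogeneous (d i))
    (hinv : ∀ i, Inv G (f i)) (hspan : Ideal.span (Set.range f) = hilbertIdeal G)
    (hmin : ∀ i, f i ∉ Ideal.span (f '' {i}ᶜ)) : AlgebraicIndependent ℂ f := by
  classical
  rw [AlgebraicIndependent, injective_iff_map_eq_zero]
  by_contra hcon
  push Not at hcon
  obtain ⟨P₀, hP₀, hP₀ne⟩ := hcon
  have hex : ∃ e : ℕ, ∃ P : MvPolynomial (Fin r) ℂ, P ≠ 0 ∧ IsWeightedHomogeneous d P e ∧
      aeval f P = 0 := by
    by_contra hno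
    push Not at hno
    apply hP₀ne
    have hz : ∀ e, weightedHomogeneousComponent d e P₀ = 0 := by
      intro e
      by_contra hne
      apply hno e _ hne (weightedHomogeneousComponent_isWeightedHomogeneous _ _)
      rw [aeval_weightedHomogeneousComponent f d hfd, hP₀, map_zero]
    rw [← finsum_weightedHomogeneousComponent d P₀]
    simp [hz]
  obtain ⟨P, hPne, hP, hPz⟩ := Nat.find_spec hex
  set e := Nat.find hex with he
  have hminE : ∀ m, m < e → ∀ Q : MvPolynomial (Fin r) ℂ, Q ≠ 0 → IsWeightedHomogeneous d Q m →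
      aeval f Q ≠ 0 := by
    intro m hm Q hQ hQh hQz
    exact Nat.find_min hex hm ⟨Q, hQ, hQh, hQz⟩
  -- partial derivatives
  set p : Fin r → MvPolynomial σ ℂ := fun i => aeval f (pderiv i P) with hpdef
  have hpinv : ∀ i, Inv G (p i) := fun i => inv_aeval G f hinv _
  have hpd0 : ∀ i, e < d i → pderiv i P = 0 := by
    intro i hi
    ext s
    rw [coeff_pderiv, coeff_zero]
    have : coeff (s + Finsupp.single i 1) P = 0 := by
      by_contra hne
      have h1 := hP hne
      rw [map_add, Finsupp.weight_single, one_smul] at h1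
      omega
    rw [this, zero_mul]
  have hphom : ∀ i, d i ≤ e → IsWeightedHomogeneous d (pderiv i P) (e - d i) := by
    intro i hi
    exact hP.pderiv (by omega)
  have hpne : ∀ i, p i ≠ 0 → d i ≤ e := by
    intro i hi
    by_contra hlt
    apply hi
    simp only [hpdef]
    rw [hpd0 i (by omega), map_zero]
  have hphom' : ∀ i, d i ≤ e → (p i).IsHomogeneous (e - d i) := by
    intro i hi
    have h1 := (weightedHomogeneousComponent_eq_self (hphom i hi))
    simp only [hpdef]
    rw [← h1, aeval_weightedHomogeneousComponent f d hfd]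
    exact homogeneousComponent_isHomogeneous _ _
  have hexi : ∃ i, p i ≠ 0 := by
    by_contra hno
    push Not at hno
    have hall : ∀ i, pderiv i P = 0 := by
      intro i
      by_contra hne
      by_cases hi : d i ≤ e
      · have := hd i
        exact hminE (e - d i) (by omega) _ hne (hphom i hi) (hno i)
      · exact hne (hpd0 i (by omega))
    have h1 := hP.sum_weight_X_mul_pderiv
    simp only [hall, mul_zero, smul_zero, Finset.sum_const_zero] at h1
    have he0 : e = 0 := by
      by_contra hne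
      apply hPne
      have h2 : (e : ℂ) • P = 0 := by
        rw [Nat.cast_smul_eq_nsmul]; exact h1.symm
      exact (smul_eq_zero.mp h2).resolve_left (by exact_mod_cast hne)
    have hPC : P = C (coeff 0 P) := by
      ext s
      rw [coeff_C]
      split_ifs with hs
      · rw [← hs]
      · by_contra hne
        have h2 := hP hne
        rw [he0] at h2
        apply hs
        symm
        ext i
        by_contra hi
        have h3 : s i * d i ≤ Finsupp.weight d s := by
          rw [Finsupp.weight_apply, Finsupp.sum]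
          exact Finset.single_le_sum (f := fun a => s a • d a) (fun _ _ => Nat.zero_le _)
            (Finsupp.mem_support_iff.mpr (fun h => hi (by simp [h])))
        have h4 : 0 < s i * d i := Nat.mul_pos (Nat.pos_of_ne_zero (fun h => hi (by simp [h]))) (hd i)
        omega
    rw [hPC, aeval_C, algebraMap_eq] at hPz
    have h5 : coeff 0 P = 0 := by
      exact (C_injective σ ℂ) (by rw [hPz, C_0])
    rw [h5, C_0] at hPC
    exact hPne hPC
  -- choose a minimal subset generating the ideal of the partial derivatives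
  have hexU : ∃ k : ℕ, ∃ U : Finset (Fin r), (∀ i, p i ∈ Ideal.span (p '' (U : Set (Fin r)))) ∧
      U.card = k :=
    ⟨_, Finset.univ, fun i => Ideal.subset_span ⟨i, by simp, rfl⟩, rfl⟩
  obtain ⟨U, hU, hUcard⟩ := Nat.find_spec hexU
  have hUmin : ∀ U' : Finset (Fin r), (∀ i, p i ∈ Ideal.span (p '' (U' : Set (Fin r)))) →
      U.card ≤ U'.card := by
    intro U' h1
    rw [hUcard]
    exact Nat.find_min' hexU ⟨U', h1, rfl⟩
  have hUne : U.Nonempty := by
    rw [Finset.nonempty_iff_ne_empty]
    rintro rfl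
    obtain ⟨i, hi⟩ := hexi
    apply hi
    have := hU i
    simpa using this
  obtain ⟨i₁, hi₁⟩ := hUne
  have hp₁ : p i₁ ∉ Ideal.span (p '' (U.erase i₁ : Finset (Fin r))) := by
    intro hmem
    have h1 : ∀ i, p i ∈ Ideal.span (p '' ((U.erase i₁ : Finset (Fin r)) : Set (Fin r))) := by
      intro i
      have h2 : Ideal.span (p '' (U : Set (Fin r)))
          ≤ Ideal.span (p '' ((U.erase i₁ : Finset (Fin r)) : Set (Fin r))) := by
        rw [Ideal.span_le]
        rintro _ ⟨j, hj, rfl⟩
        by_cases hji : j = i₁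
        · rw [hji]; exact hmem
        · exact Ideal.subset_span ⟨j, Finset.mem_coe.mpr (Finset.mem_erase.mpr ⟨hji, hj⟩), rfl⟩
      exact h2 (hU i)
    have h3 := hUmin _ h1
    rw [Finset.card_erase_of_mem hi₁] at h3
    have : 0 < U.card := Finset.card_pos.mpr ⟨_, hi₁⟩
    omega
  have hp₁ne : p i₁ ≠ 0 := by
    intro h
    rw [h] at hp₁
    exact hp₁ (Ideal.zero_mem _)
  have hd₁ := hpne i₁ hp₁ne
  -- homogeneous expressions for the other partial derivatives
  have hw : ∀ i, ∃ w : Fin r → MvPolynomial σ ℂ, p i = ∑ j ∈ U, w j * p j ∧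
      ∀ j, w j = 0 ∨ (d i ≤ d j ∧ (w j).IsHomogeneous (d j - d i)) := by
    intro i
    by_cases hpi : p i = 0
    · exact ⟨fun _ => 0, by simp [hpi], fun _ => Or.inl rfl⟩
    · have h1 := hU i
      rw [Ideal.span, Submodule.mem_span_image_finset_iff_exists_fun'] at h1
      obtain ⟨v, hv⟩ := h1
      refine ⟨fun j => if d i ≤ d j then homogeneousComponent (d j - d i) (v j) else 0, ?_, ?_⟩
      · have hdi := hpne i hpi
        conv_lhs => rw [← homogeneousComponent_eq_self (hphom' i hdi), ← hv, map_sum]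
        refine Finset.sum_congr rfl (fun j _ => ?_)
        rw [smul_eq_mul]
        by_cases hpj : p j = 0
        · rw [hpj]; simp
        · have hdj := hpne j hpj
          rw [homogeneousComponent_mul_right (hphom' j hdj)]
          by_cases hij : d i ≤ d j
          · have h5 : e - d i - (e - d j) = d j - d i := by omega
            simp only [if_pos hij]
            rw [if_pos (by omega), h5]
          · simp only [if_neg hij]
            rw [if_neg (by omega), zero_mul]
      · intro j
        by_cases hij : d i ≤ d j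
        · right
          refine ⟨hij, ?_⟩
          simp only [if_pos hij]
          exact homogeneousComponent_isHomogeneous _ _
        · left
          simp only [if_neg hij]
  choose w hw hwh using hw
  -- the relation obtained by differentiating
  have hrel : ∀ k : σ, ∑ i, p i * pderiv k (f i) = 0 := by
    intro k
    rw [← pderiv_aeval f P k, hPz, map_zero]
  set H : σ → Fin r → MvPolynomial σ ℂ := fun k j =>
    pderiv k (f j) + ∑ i ∈ Uᶜ, w i j * pderiv k (f i) with hH
  have hrel' : ∀ k, ∑ j ∈ U, p j * H k j = 0 := by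
    intro k
    rw [← hrel k, ← Finset.sum_add_sum_compl U]
    simp only [hH, mul_add, Finset.sum_add_distrib]
    congr 1
    have h1 : ∀ i ∈ Uᶜ, p i * pderiv k (f i) = ∑ j ∈ U, p j * (w i j * pderiv k (f i)) := by
      intro i _
      rw [hw i, Finset.sum_mul]
      refine Finset.sum_congr rfl (fun j _ => ?_)
      ring
    rw [Finset.sum_congr rfl h1, Finset.sum_comm]
    refine Finset.sum_congr rfl (fun j _ => ?_)
    rw [Finset.mul_sum]
  have hHhom : ∀ k, (H k i₁).IsHomogeneous (d i₁ - 1) := by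
    intro k
    simp only [hH]
    refine ((hfd i₁).pderiv).add (IsHomogeneous.sum _ _ _ (fun i _ => ?_))
    rcases hwh i i₁ with h0 | ⟨hle, hhom⟩
    · rw [h0, zero_mul]; exact isHomogeneous_zero _ _ _
    · have h1 := hhom.mul ((hfd i).pderiv (i := k))
      have h2 : d i₁ - d i + (d i - 1) = d i₁ - 1 := by
        have := hd i
        omega
      rwa [h2] at h1
  have hHmem : ∀ k, H k i₁ ∈ hilbertIdeal G := fun k =>
    chevalley_key G hG U p (fun j _ => hpinv j) i₁ hi₁ hp₁ _ (H k) (hHhom k) (hrel' k)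
  have hHmem' : ∀ k, H k i₁ ∈ Ideal.span (f '' {i₁}ᶜ) := by
    intro k
    have h1 := hHmem k
    rw [← hspan, Ideal.mem_span_range_iff_exists_fun] at h1
    obtain ⟨c, hc⟩ := h1
    rw [← homogeneousComponent_eq_self (hHhom k), ← hc, map_sum]
    refine Ideal.sum_mem _ (fun l _ => ?_)
    rw [homogeneousComponent_mul_right (hfd l)]
    split_ifs with hle
    · refine Ideal.mul_mem_left _ _ (Ideal.subset_span ⟨l, ?_, rfl⟩)
      intro hl
      rw [Set.mem_singleton_iff] at hl
      subst hl
      have := hd l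
      omega
    · exact Ideal.zero_mem _
  -- Euler's identity gives the contradiction
  have hEuler : ∑ k, X k * H k i₁ = d i₁ • f i₁ + ∑ i ∈ Uᶜ, w i i₁ * (d i • f i) := by
    have h1 : ∀ k, X k * H k i₁ = X k * pderiv k (f i₁)
        + ∑ i ∈ Uᶜ, w i i₁ * (X k * pderiv k (f i)) := by
      intro k
      simp only [hH]
      rw [mul_add, Finset.mul_sum]
      congr 1
      refine Finset.sum_congr rfl (fun i _ => ?_)
      ring
    rw [Finset.sum_congr rfl (fun k _ => h1 k), Finset.sum_add_distrib,
      (hfd i₁).sum_X_mul_pderiv, Finset.sum_comm]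
    congr 1
    refine Finset.sum_congr rfl (fun i _ => ?_)
    rw [← Finset.mul_sum, (hfd i).sum_X_mul_pderiv]
  have hL : ∑ k, X k * H k i₁ ∈ Ideal.span (f '' {i₁}ᶜ) :=
    Ideal.sum_mem _ (fun k _ => Ideal.mul_mem_left _ _ (hHmem' k))
  have hR : ∑ i ∈ Uᶜ, w i i₁ * (d i • f i) ∈ Ideal.span (f '' {i₁}ᶜ) := by
    refine Ideal.sum_mem _ (fun i hi => Ideal.mul_mem_left _ _ ?_)
    rw [nsmul_eq_mul]
    refine Ideal.mul_mem_left _ _ (Ideal.subset_span ⟨i, ?_, rfl⟩)
    intro h
    rw [Set.mem_singleton_iff] at h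
    subst h
    exact (Finset.mem_compl.mp hi) hi₁
  have hfin : d i₁ • f i₁ ∈ Ideal.span (f '' {i₁}ᶜ) := by
    have h1 : d i₁ • f i₁ = ∑ k, X k * H k i₁ - ∑ i ∈ Uᶜ, w i i₁ * (d i • f i) := by
      rw [hEuler]; ring
    rw [h1]
    exact Ideal.sub_mem _ hL hR
  apply hmin i₁
  have hdne : (d i₁ : ℂ) ≠ 0 := by exact_mod_cast (hd i₁).ne'
  have h2 : f i₁ = C ((d i₁ : ℂ)⁻¹) * (d i₁ • f i₁) := by
    rw [← Nat.cast_smul_eq_nsmul ℂ, Algebra.smul_def, algebraMap_eq, ← mul_assoc, ← C_mul,
      inv_mul_cancel₀ hdne, C_1, one_mul]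
  rw [h2]
  exact Ideal.mul_mem_left _ _ hfin

/-- **Chevalley's theorem.** -/
theorem exists_basic_invariants (G : Subgroup (GL σ ℂ)) [Finite G]
    (hG : Subgroup.closure {g | g ∈ G ∧ IsReflection g} = G) :
    ∃ (r : ℕ) (f : Fin r → MvPolynomial σ ℂ) (d : Fin r → ℕ), r ≤ Fintype.card σ ∧
      (∀ i, 0 < d i) ∧ (∀ i, (f i).IsHomogeneous (d i)) ∧ (∀ i, Inv G (f i)) ∧
      ∀ h, Inv G h → h ∈ Algebra.adjoin ℂ (Set.range f) := by
  have : Fintype G := Fintype.ofFinite G
  obtain ⟨r, f, d, hd, hfd, hinv, hspan, hmin⟩ := exists_minimal_generators G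
  refine ⟨r, f, d, ?_, hd, hfd, hinv, inv_mem_adjoin G f d hd hfd hinv hspan⟩
  have h1 := algebraicIndependent_generators G hG f d hd hfd hinv hspan hmin
  have h2 := h1.lift_cardinalMk_le_trdeg
  rw [MvPolynomial.trdeg_of_isDomain] at h2
  simpa using h2

end Pool.Agent.Hartshorne
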