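import Mathlib

/-!
Elimination of weighted variables, dimension of integral extensions, common zeros.
-/

namespace Pool.Agent.Hartshorne

open MvPolynomial

/-- If `y` satisfies weighted homogeneous relations whose linear parts together with the
coordinate vectors in `C'` span, then every `y l` lies in the algebra generated by `y '' C'`. -/
theorem elim_variables {R : Type*} [CommRing R] [Algebra ℂ R] {τ κ : Type*} [Fintype τ]
    [DecidableEq τ] (w : τ → ℕ) (hw : ∀ l, 0 < w l) (y : τ → R)
    (H : κ → MvPolynomial τ ℂ) (e : κ → ℕ)
    (hH : ∀ k, IsWeightedHomogeneous w (H k) (e k)) (hzero : ∀ k, aeval y (H k) = 0)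
    (C' : Set τ)
    (hspan : ∀ l : τ, (Pi.single l 1 : τ → ℂ) ∈ Submodule.span ℂ
      (Set.range (fun k => fun l => coeff (Finsupp.single l 1) (H k)) ∪
        (fun j => (Pi.single j 1 : τ → ℂ)) '' C')) :
    ∀ l, y l ∈ Algebra.adjoin ℂ (y '' C') := by
  set B := Algebra.adjoin ℂ (y '' C') with hB
  have main : ∀ m : ℕ, ∀ l, w l = m → y l ∈ B := by
    intro m
    induction m using Nat.strong_induction_on with
    | _ m ih =>
    intro l hl
    -- the map sending a vector to the weight `m` part of the combination of the `y`s
    let L : (τ → ℂ) →ₗ[ℂ] R :=
      { toFun := fun a => ∑ j, if w j = m then a j • y j else 0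
        map_add' := by
          intro a b
          rw [← Finset.sum_add_distrib]
          refine Finset.sum_congr rfl (fun j _ => ?_)
          split_ifs <;> simp [add_smul]
        map_smul' := by
          intro c a
          rw [RingHom.id_apply, Finset.smul_sum]
          refine Finset.sum_congr rfl (fun j _ => ?_)
          split_ifs <;> simp [mul_smul] }
    have hLapp : ∀ a, L a = ∑ j, if w j = m then a j • y j else 0 := fun a => rfl
    have hle : Submodule.span ℂ
      (Set.range (fun k => fun l => coeff (Finsupp.single l 1) (H k)) ∪
        (fun j => (Pi.single j 1 : τ → ℂ)) '' C') ≤ (Subalgebra.toSubmodule B).comap L := by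
      rw [Submodule.span_le]
      rintro a (⟨k, rfl⟩ | ⟨j, hj, rfl⟩)
      · -- linear part of `H k`
        rw [SetLike.mem_coe, Submodule.mem_comap, Subalgebra.mem_toSubmodule, hLapp]
        by_cases hk : e k = m
        · -- `0 = aeval y (H k)`
          have h0 := hzero k
          rw [aeval_def, eval₂_eq] at h0
          -- split off the linear monomials
          set T := (H k).support with hT
          set T1 := T.filter (fun s => ∃ j, s = Finsupp.single j 1) with hT1
          set T2 := T.filter (fun s => ¬ ∃ j, s = Finsupp.single j 1) with hT2
          have hsplit : (∑ s ∈ T, algebraMap ℂ R (coeff s (H k)) * ∏ i ∈ s.support, y i ^ s i)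
              = (∑ s ∈ T1, algebraMap ℂ R (coeff s (H k)) * ∏ i ∈ s.support, y i ^ s i)
              + ∑ s ∈ T2, algebraMap ℂ R (coeff s (H k)) * ∏ i ∈ s.support, y i ^ s i := by
            rw [hT1, hT2, Finset.sum_filter_add_sum_filter_not]
          have hlin : (∑ s ∈ T1, algebraMap ℂ R (coeff s (H k)) * ∏ i ∈ s.support, y i ^ s i)
              = ∑ j, if w j = m then coeff (Finsupp.single j 1) (H k) • y j else 0 := by
            have himg : T1 = (Finset.univ.filter
                (fun j : τ => Finsupp.single j 1 ∈ T)).image (fun j => Finsupp.single j 1) := by
              ext s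
              simp only [hT1, Finset.mem_filter, Finset.mem_image, Finset.mem_univ, true_and]
              constructor
              · rintro ⟨hs, j, rfl⟩
                exact ⟨j, hs, rfl⟩
              · rintro ⟨j, hj, rfl⟩
                exact ⟨hj, j, rfl⟩
            rw [himg, Finset.sum_image (by
              intro a _ b _ hab
              exact (Finsupp.single_left_injective one_ne_zero) hab)]
            rw [Finset.sum_filter]
            refine Finset.sum_congr rfl (fun j _ => ?_)
            by_cases hj : Finsupp.single j 1 ∈ T
            · have hwj : w j = m := by
                have := hH k (mem_support_iff.mp hj)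
                rw [Finsupp.weight_single] at this
                simpa [hk] using this
              rw [if_pos hj, if_pos hwj, Finsupp.support_single _ one_ne_zero,
                Finset.prod_singleton, Finsupp.single_eq_same, pow_one, Algebra.smul_def]
            · rw [if_neg hj]
              have : coeff (Finsupp.single j 1) (H k) = 0 := by
                simpa [hT] using hj
              rw [this]; simp
          have hnl : (∑ s ∈ T2, algebraMap ℂ R (coeff s (H k)) * ∏ i ∈ s.support, y i ^ s i) ∈ B := by
            refine Subalgebra.sum_mem _ (fun s hs => ?_)
            refine Subalgebra.mul_mem _ (Subalgebra.algebraMap_mem _ _) ?_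
            refine Subalgebra.prod_mem _ (fun i hi => ?_)
            refine Subalgebra.pow_mem _ ?_ _
            rw [hT2, Finset.mem_filter] at hs
            have hwt := hH k (mem_support_iff.mp hs.1)
            rw [hk] at hwt
            -- weight of `i` is smaller than `m`
            have hlt : w i < m := by
              rw [Finsupp.weight_apply, Finsupp.sum] at hwt
              by_contra hcon
              push Not at hcon
              have hpos : 0 < s i := Nat.pos_of_ne_zero (Finsupp.mem_support_iff.mp hi)
              have h1 : s i • w i ≤ ∑ a ∈ s.support, s a • w a :=
                Finset.single_le_sum (f := fun a => s a • w a) (fun _ _ => Nat.zero_le _) hi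
              rw [hwt] at h1
              have h2 : s i = 1 ∧ w i = m := by
                rw [smul_eq_mul] at h1
                have h3 : m ≤ w i := hcon
                have h4 : s i * w i ≥ w i := Nat.le_mul_of_pos_left _ hpos
                have h5 : w i = m := by omega
                refine ⟨?_, h5⟩
                by_contra hne
                have : 2 ≤ s i := by omega
                have h6 : 2 * w i ≤ s i * w i := Nat.mul_le_mul_right _ this
                have := hw i
                omega
              apply hs.2
              refine ⟨i, ?_⟩
              ext b
              by_cases hb : b = i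
              · subst hb; simp [h2.1]
              · rw [Finsupp.single_apply, if_neg (Ne.symm hb)]
                by_contra hsb
                have hbs : b ∈ s.support := Finsupp.mem_support_iff.mpr hsb
                have h7 : s i • w i + s b • w b ≤ ∑ a ∈ s.support, s a • w a := by
                  have hsub : ({i, b} : Finset τ) ⊆ s.support := by
                    intro z hz
                    rw [Finset.mem_insert, Finset.mem_singleton] at hz
                    rcases hz with rfl | rfl <;> assumption
                  have := Finset.sum_le_sum_of_subset (f := fun a => s a • w a) hsub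
                  rwa [Finset.sum_pair (Ne.symm hb)] at this
                rw [hwt, h2.1, h2.2, one_smul, smul_eq_mul] at h7
                have h8 : 0 < s b * w b := Nat.mul_pos (Nat.pos_of_ne_zero hsb) (hw b)
                omega
            exact ih (w i) hlt i rfl
          have hfin : (∑ j, if w j = m then coeff (Finsupp.single j 1) (H k) • y j else 0)
              = -∑ s ∈ T2, algebraMap ℂ R (coeff s (H k)) * ∏ i ∈ s.support, y i ^ s i := by
            rw [← hlin, eq_neg_iff_add_eq_zero, ← hsplit]
            exact h0
          rw [hfin]
          exact Subalgebra.neg_mem _ hnl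
        · -- no weight `m` variable occurs linearly in `H k`
          have : (∑ j, if w j = m then coeff (Finsupp.single j 1) (H k) • y j else 0) = 0 := by
            refine Finset.sum_eq_zero (fun j _ => ?_)
            split_ifs with hj
            · have hc : coeff (Finsupp.single j 1) (H k) = 0 := by
                by_contra hne
                have := hH k hne
                rw [Finsupp.weight_single] at this
                apply hk
                rw [← this, ← hj]; simp
              rw [hc, zero_smul]
            · rfl
          rw [this]
          exact Subalgebra.zero_mem _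
      · rw [SetLike.mem_coe, Submodule.mem_comap, Subalgebra.mem_toSubmodule, hLapp]
        refine Subalgebra.sum_mem _ (fun i _ => ?_)
        split_ifs with hi
        · by_cases hij : i = j
          · subst hij
            simp only [Pi.single_eq_same, one_smul]
            exact Algebra.subset_adjoin ⟨i, hj, rfl⟩
          · simp only [Pi.single_apply, if_neg hij, zero_smul]
            exact Subalgebra.zero_mem _
        · exact Subalgebra.zero_mem _
    have h := hle (hspan l)
    rw [Submodule.mem_comap, Subalgebra.mem_toSubmodule, hLapp] at h
    have hs : (∑ j, if w j = m then (Pi.single l 1 : τ → ℂ) j • y j else 0) = y l := by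
      rw [Finset.sum_eq_single l]
      · simp [hl]
      · intro j _ hj
        simp [Pi.single_apply, hj]
      · intro h; exact absurd (Finset.mem_univ _) h
    rw [hs] at h
    exact h
  exact fun l => main _ l rfl

/-- An integral extension does not have larger dimension. -/
theorem ringKrullDim_le_of_isIntegral {A B : Type*} [CommRing A] [CommRing B] [Algebra A B]
    [Algebra.IsIntegral A B] : ringKrullDim B ≤ ringKrullDim A := by
  refine Order.krullDim_le_of_strictMono (PrimeSpectrum.comap (algebraMap A B)) ?_
  intro p q hpq
  have h : p.asIdeal < q.asIdeal := hpq
  exact Ideal.IsIntegral.comap_lt_comap h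

/-- A polynomial ring over which a ring of at least the same dimension is integral embeds. -/
theorem injective_of_isIntegral {R ι : Type*} [CommRing R] [Finite ι] [Algebra ℂ R]
    (ψ : MvPolynomial ι ℂ →ₐ[ℂ] R)
    (hint : ∀ x : R, IsIntegral ψ.range x)
    (hdim : ((Nat.card ι : ℕ) : WithBot ℕ∞) ≤ ringKrullDim R) : Function.Injective ψ := by
  rw [injective_iff_map_eq_zero]
  intro r hr
  by_contra hne
  have hnz : r ∈ nonZeroDivisors (MvPolynomial ι ℂ) := mem_nonZeroDivisors_of_ne_zero hne
  have hI : Algebra.IsIntegral ψ.range R := ⟨hint⟩
  have h1 : ringKrullDim R ≤ ringKrullDim ψ.range := ringKrullDim_le_of_isIntegral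
  have h2 : ringKrullDim ψ.range + 1 ≤ ringKrullDim (MvPolynomial ι ℂ) := by
    refine ringKrullDim_succ_le_of_surjective ψ.rangeRestrict.toRingHom
      (AlgHom.rangeRestrict_surjective ψ) hnz ?_
    apply Subtype.ext
    exact hr
  rw [MvPolynomial.ringKrullDim_of_isNoetherianRing, ringKrullDim_eq_zero_of_field, zero_add] at h2
  have h3 : ((Nat.card ι : ℕ) : WithBot ℕ∞) + 1 ≤ ((Nat.card ι : ℕ) : WithBot ℕ∞) :=
    (add_le_add_left (hdim.trans h1) 1).trans h2
  have h4 : (((Nat.card ι + 1 : ℕ) : WithBot ℕ∞)) ≤ ((Nat.card ι : ℕ) : WithBot ℕ∞) := by
    push_cast
    exact h3
  have h5 := Nat.cast_le.mp h4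
  omega

end Pool.Agent.Hartshorne
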