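import Mathlib

/-!
Common zeros of few polynomials, homogeneity of factors, principal primes.
-/

namespace Pool.Agent.Hartshorne

open MvPolynomial

/-- The ideal of the origin has height at least the number of variables. -/
lemma card_le_height_origin {ι : Type*} [Fintype ι] :
    ((Fintype.card ι : ℕ) : ℕ∞) ≤ (vanishingIdeal ℂ {(0 : ι → ℂ)}).height := by
  classical
  let e : ι ≃ Fin (Fintype.card ι) := Fintype.equivFin ι
  let φ : ℕ → MvPolynomial ι ℂ →ₐ[ℂ] MvPolynomial ι ℂ := fun k =>
    aeval (fun i => if (e i : ℕ) < k then 0 else X i)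
  have hprime : ∀ k, (RingHom.ker (φ k)).IsPrime := fun k => RingHom.ker_isPrime _
  have hle : ∀ k, k ≤ Fintype.card ι → (k : ℕ∞) ≤ (RingHom.ker (φ k)).height := by
    intro k
    induction k with
    | zero => intro _; simp
    | succ k ih =>
      intro hk
      have h1 := ih (by omega)
      have hlt : RingHom.ker (φ k) < RingHom.ker (φ (k + 1)) := by
        refine lt_of_le_of_ne ?_ ?_
        · intro f hf
          rw [RingHom.mem_ker] at hf ⊢
          have : (φ (k + 1)) = (φ (k + 1)).comp (φ k) := by
            apply MvPolynomial.algHom_ext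
            intro i
            simp only [φ, AlgHom.comp_apply, aeval_X]
            by_cases hi : (e i : ℕ) < k
            · rw [if_pos hi, if_pos (by omega), map_zero]
            · rw [if_neg hi, aeval_X]
          rw [this, AlgHom.comp_apply, hf, map_zero]
        · intro heq
          have hmem : (X (e.symm ⟨k, by omega⟩) : MvPolynomial ι ℂ) ∈ RingHom.ker (φ (k + 1)) := by
            rw [RingHom.mem_ker]
            simp [φ]
          rw [← heq, RingHom.mem_ker] at hmem
          simp [φ] at hmem
      have := hprime k
      have := hprime (k + 1)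
      have h2 := Ideal.height_add_one_le_of_lt_of_isPrime hlt
      push_cast
      exact (add_le_add_left h1 1).trans h2
  have hfin : RingHom.ker (φ (Fintype.card ι)) = vanishingIdeal ℂ {(0 : ι → ℂ)} := by
    ext f
    rw [RingHom.mem_ker, mem_vanishingIdeal_singleton_iff]
    have : φ (Fintype.card ι) = (Algebra.ofId ℂ (MvPolynomial ι ℂ)).comp
        (aeval (0 : ι → ℂ)) := by
      apply MvPolynomial.algHom_ext
      intro i
      simp [φ]
    rw [this, AlgHom.comp_apply]
    constructor
    · intro h
      exact (C_injective ι ℂ) (by rw [C_0]; exact h)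
    · intro h
      rw [h, map_zero]
  rw [← hfin]
  exact hle _ le_rfl

/-- Fewer polynomials than variables, vanishing at the origin, have another common zero. -/
theorem exists_common_zero {ι κ : Type*} [Fintype ι] [Fintype κ] (h : κ → MvPolynomial ι ℂ)
    (h0 : ∀ k, eval 0 (h k) = 0) (hlt : Fintype.card κ < Fintype.card ι) :
    ∃ q : ι → ℂ, q ≠ 0 ∧ ∀ k, eval q (h k) = 0 := by
  classical
  by_contra hcon
  push Not at hcon
  have hz : zeroLocus ℂ (Ideal.span (Set.range h)) = {(0 : ι → ℂ)} := by
    rw [zeroLocus_span]
    ext x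
    rw [Set.mem_ofPred_eq, Set.mem_singleton_iff]
    constructor
    · intro hx
      by_contra hne
      obtain ⟨k, hk⟩ := hcon x hne
      exact hk (by rw [← hx (h k) ⟨k, rfl⟩, aeval_eq_eval])
    · rintro rfl _ ⟨k, rfl⟩
      rw [aeval_eq_eval]
      exact h0 k
  have hrad := vanishingIdeal_zeroLocus_eq_radical (K := ℂ) (Ideal.span (Set.range h))
  rw [hz] at hrad
  have hmin : vanishingIdeal ℂ {(0 : ι → ℂ)} ∈ (Ideal.span (Set.range h)).minimalPrimes := by
    rw [← Ideal.radical_minimalPrimes, ← hrad,
      Ideal.minimalPrimes_eq_subsingleton_self]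
    exact Set.mem_singleton _
  have h1 := Ideal.height_le_card_of_mem_minimalPrimes_span (Set.finite_range h) hmin
  have h2 : (Set.range h).ncard ≤ Fintype.card κ := by
    rw [← Set.image_univ]
    refine (Set.ncard_image_le Set.finite_univ).trans ?_
    rw [Set.ncard_univ, Nat.card_eq_fintype_card]
  have h3 := (card_le_height_origin (ι := ι)).trans h1
  have h4 : Fintype.card ι ≤ (Set.range h).ncard := by exact_mod_cast h3
  omega

section Factor

variable {σ : Type*} (v : σ → ℕ)

/-- The coaction attached to a grading of a polynomial ring. -/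
noncomputable def coact : MvPolynomial σ ℂ →ₐ[ℂ] Polynomial (MvPolynomial σ ℂ) :=
  aeval (fun i => Polynomial.C (X i) * Polynomial.X ^ v i)

lemma coact_monomial (s : σ →₀ ℕ) (c : ℂ) :
    coact v (monomial s c) = Polynomial.C (monomial s c) * Polynomial.X ^ (Finsupp.weight v s) := by
  rw [coact, aeval_monomial]
  have h1 : (s.prod fun i k => (Polynomial.C (X i : MvPolynomial σ ℂ) * Polynomial.X ^ v i) ^ k)
      = Polynomial.C (s.prod fun i k => (X i : MvPolynomial σ ℂ) ^ k)
        * Polynomial.X ^ (Finsupp.weight v s) := by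
    rw [Finsupp.prod, Finsupp.prod, Finsupp.weight_apply, Finsupp.sum, map_prod]
    simp_rw [mul_pow, Finset.prod_mul_distrib, ← pow_mul]
    rw [Finset.prod_pow_eq_pow_sum]
    congr 1
    · refine Finset.prod_congr rfl (fun i _ => ?_)
      rw [map_pow]
    · congr 1
      refine Finset.sum_congr rfl (fun i _ => ?_)
      rw [smul_eq_mul, mul_comm]
  rw [h1, monomial_eq (a := c), map_mul, mul_assoc]
  congr 1

lemma coeff_coact (f : MvPolynomial σ ℂ) (e : ℕ) :
    (coact v f).coeff e = weightedHomogeneousComponent v e f := by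
  induction f using MvPolynomial.induction_on' with
  | add p q hp hq => rw [map_add, Polynomial.coeff_add, hp, hq, map_add]
  | monomial s c =>
    rw [coact_monomial, Polynomial.coeff_C_mul_X_pow,
      weightedHomogeneousComponent_of_mem
      (isWeightedHomogeneous_monomial v s c rfl : _ ∈ weightedHomogeneousSubmodule ℂ v _)]

lemma coact_of_isWeightedHomogeneous {f : MvPolynomial σ ℂ} {e : ℕ}
    (hf : IsWeightedHomogeneous v f e) : coact v f = Polynomial.C f * Polynomial.X ^ e := by
  ext1 k
  rw [coeff_coact, Polynomial.coeff_C_mul_X_pow]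
  exact weightedHomogeneousComponent_of_mem hf

lemma coact_injective : Function.Injective (coact v) := by
  rw [injective_iff_map_eq_zero]
  intro f hf
  have : ∀ e, weightedHomogeneousComponent v e f = 0 := by
    intro e
    rw [← coeff_coact, hf, Polynomial.coeff_zero]
  rw [← finsum_weightedHomogeneousComponent v f]
  simp [this]

/-- A factor of a nonzero weighted homogeneous polynomial is weighted homogeneous. -/
theorem isWeightedHomogeneous_of_mul {f g : MvPolynomial σ ℂ} {e : ℕ} (hfg : f * g ≠ 0)
    (h : IsWeightedHomogeneous v (f * g) e) : ∃ a, IsWeightedHomogeneous v f a := by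
  have hf0 : f ≠ 0 := left_ne_zero_of_mul hfg
  have hg0 : g ≠ 0 := right_ne_zero_of_mul hfg
  have h1 : coact v f * coact v g = Polynomial.C (f * g) * Polynomial.X ^ e := by
    rw [← map_mul, coact_of_isWeightedHomogeneous v h]
  have hf1 : coact v f ≠ 0 := fun h => hf0 (coact_injective v (by rw [h, map_zero]))
  have hg1 : coact v g ≠ 0 := fun h => hg0 (coact_injective v (by rw [h, map_zero]))
  have hd : (coact v f).natDegree + (coact v g).natDegree = e := by
    rw [← Polynomial.natDegree_mul hf1 hg1, h1, Polynomial.natDegree_C_mul_X_pow _ _ hfg]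
  have ht : (coact v f).natTrailingDegree + (coact v g).natTrailingDegree = e := by
    rw [← Polynomial.natTrailingDegree_mul hf1 hg1, h1]
    rw [Polynomial.C_mul_X_pow_eq_monomial, Polynomial.natTrailingDegree_monomial hfg]
  have hf2 := Polynomial.natTrailingDegree_le_natDegree (coact v f)
  have hg2 := Polynomial.natTrailingDegree_le_natDegree (coact v g)
  have heq : (coact v f).natTrailingDegree = (coact v f).natDegree := by omega
  refine ⟨(coact v f).natDegree, ?_⟩
  have hz : ∀ k, k ≠ (coact v f).natDegree → weightedHomogeneousComponent v k f = 0 := by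
    intro k hk
    rw [← coeff_coact]
    rcases lt_or_gt_of_ne hk with hlt | hlt
    · rw [← heq] at hlt
      exact Polynomial.coeff_eq_zero_of_lt_natTrailingDegree hlt
    · exact Polynomial.coeff_eq_zero_of_natDegree_lt hlt
  intro s hs
  by_contra hne
  have h2 := hz _ hne
  have h3 := congrArg (coeff s) h2
  rw [coeff_weightedHomogeneousComponent, if_pos rfl, coeff_zero] at h3
  exact hs h3

end Factor

/-- A strict inclusion of primes lowers the dimension of the quotient. -/
lemma ringKrullDim_quotient_succ_le_of_lt {R : Type*} [CommRing R] {P Q : Ideal R} [P.IsPrime]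
    (h : P < Q) : ringKrullDim (R ⧸ Q) + 1 ≤ ringKrullDim (R ⧸ P) := by
  obtain ⟨x, hxQ, hxP⟩ := Set.exists_of_ssubset h
  refine ringKrullDim_succ_le_of_surjective (Ideal.Quotient.factor h.le)
    (Ideal.Quotient.factor_surjective h.le) (r := Ideal.Quotient.mk P x) ?_ ?_
  · apply mem_nonZeroDivisors_of_ne_zero
    rwa [Ne, Ideal.Quotient.eq_zero_iff_mem]
  · rw [Ideal.Quotient.factor_mk, Ideal.Quotient.eq_zero_iff_mem]
    exact hxQ

end Pool.Agent.Hartshorne
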