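import Mathlib
import Pool.Agent.Hartshorne.Elim
import Pool.Agent.Hartshorne.Zero

/-!
Weighted homogeneous polynomials with independent linear parts generate prime ideals.
-/

namespace Pool.Agent.Hartshorne

open MvPolynomial

lemma dim_cancel {a b : ℕ} {x : WithBot ℕ∞}
    (h : ((a + b : ℕ) : WithBot ℕ∞) ≤ x + ((b : ℕ) : WithBot ℕ∞)) :
    ((a : ℕ) : WithBot ℕ∞) ≤ x := by
  induction x using WithBot.recBotCoe with
  | bot =>
    rw [WithBot.bot_add, le_bot_iff] at h
    exact absurd h (WithBot.natCast_ne_bot _)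
  | coe x =>
    induction x using ENat.recTopCoe with
    | top => exact le_top
    | coe m =>
      have h' : a + b ≤ m + b := by exact_mod_cast h
      have h'' : a ≤ m := by omega
      exact_mod_cast h''

lemma dim_contra {a : WithBot ℕ∞} {n : ℕ} (h1 : a + 1 + 1 ≤ ((n : ℕ) : WithBot ℕ∞))
    (h2 : ((n : ℕ) : WithBot ℕ∞) ≤ a + 1) : False := by
  induction a using WithBot.recBotCoe with
  | bot =>
    rw [WithBot.bot_add, le_bot_iff] at h2
    exact absurd h2 (WithBot.natCast_ne_bot _)
  | coe x =>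
    induction x using ENat.recTopCoe with
    | top =>
      have h3 := h1
      have h4 : ((⊤ : ℕ∞) : WithBot ℕ∞) + 1 + 1 = ((⊤ : ℕ∞) : WithBot ℕ∞) := rfl
      rw [h4] at h3
      have h5 : (⊤ : ℕ∞) ≤ (n : ℕ∞) := by exact_mod_cast h3
      exact absurd h5 (by simp)
    | coe m =>
      have h3 : m + 1 + 1 ≤ n := by exact_mod_cast h1
      have h4 : n ≤ m + 1 := by exact_mod_cast h2
      omega

/-- Coordinate vectors completing an independent family. -/
lemma exists_complement {τ κ : Type*} [Fintype τ] [DecidableEq τ] [Fintype κ]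
    (A : κ → (τ → ℂ)) (hAli : LinearIndependent ℂ A) :
    ∃ C' : Set τ, Nat.card C' + Fintype.card κ ≤ Fintype.card τ ∧
      ∀ l : τ, (Pi.single l 1 : τ → ℂ) ∈ Submodule.span ℂ
        (Set.range A ∪ (fun j => (Pi.single j 1 : τ → ℂ)) '' C') := by
  classical
  have hrangeA : LinearIndepOn ℂ id (Set.range A) := hAli.linearIndepOn_id
  obtain ⟨b', hb't, hAb', hb'span, hb'li⟩ := exists_linearIndepOn_id_extension
    (t := Set.range A ∪ Set.range (fun j : τ => (Pi.single j 1 : τ → ℂ)))
    hrangeA Set.subset_union_left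
  set C' : Set τ := {j | (Pi.single j 1 : τ → ℂ) ∈ b' \ Set.range A} with hC'
  have hb'eq : b' ⊆ Set.range A ∪ (fun j => (Pi.single j 1 : τ → ℂ)) '' C' := by
    intro v hv
    by_cases hvA : v ∈ Set.range A
    · exact Or.inl hvA
    · right
      rcases hb't hv with h1 | ⟨j, rfl⟩
      · exact absurd h1 hvA
      · exact ⟨j, ⟨hv, hvA⟩, rfl⟩
  have hspanC : ∀ l : τ, (Pi.single l 1 : τ → ℂ) ∈ Submodule.span ℂ
      (Set.range A ∪ (fun j => (Pi.single j 1 : τ → ℂ)) '' C') := by
    intro l
    exact Submodule.span_mono hb'eq (hb'span (Or.inr ⟨l, rfl⟩))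
  refine ⟨C', ?_, hspanC⟩
  have hb'fin : b'.Finite := by
    have := hb'li.linearIndependent.finite
    exact Set.toFinite b'
  have hinj : Function.Injective (fun j : τ => (Pi.single j 1 : τ → ℂ)) := by
    intro i j hij
    by_contra hne
    have := congrFun hij i
    simp [hne] at this
  have h1 : b'.ncard ≤ Fintype.card τ := by
    have h2 := hb'li.linearIndependent
    have : Fintype b' := hb'fin.fintype
    have h3 := h2.fintype_card_le_finrank
    rw [Module.finrank_fintype_fun_eq_card, ← Nat.card_eq_fintype_card] at h3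
    exact h3
  have h4 : (Set.range A).ncard = Fintype.card κ := by
    rw [← Set.image_univ, Set.ncard_image_of_injective _ hAli.injective, Set.ncard_univ,
      Nat.card_eq_fintype_card]
  have h5 : ((fun j : τ => (Pi.single j 1 : τ → ℂ)) '' C').ncard
      = Nat.card C' := by
    rw [Set.ncard_image_of_injective _ hinj]
    rfl
  have h6 : (fun j : τ => (Pi.single j 1 : τ → ℂ)) '' C'
      ⊆ b' \ Set.range A := by
    rintro v ⟨j, hj, rfl⟩
    exact hj
  have h7 := Set.ncard_le_ncard h6 (hb'fin.subset Set.sdiff_subset)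
  have h8 : (b' \ Set.range A).ncard + (Set.range A).ncard = b'.ncard :=
    Set.ncard_sdiff_add_ncard_of_subset hAb' hb'fin
  omega

/-- Weighted homogeneous polynomials with a linear term vanish at the origin. -/
lemma eval_zero_of_linear {τ : Type*} (w : τ → ℕ) (hw : ∀ l, 0 < w l)
    {H : MvPolynomial τ ℂ} {e : ℕ} (hH : IsWeightedHomogeneous w H e)
    (hlin : ∃ l, coeff (Finsupp.single l 1) H ≠ 0) : coeff 0 H = 0 := by
  obtain ⟨l, hl⟩ := hlin
  have h1 := hH hl
  by_contra hne
  have h2 := hH hne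
  rw [Finsupp.weight_single, one_smul] at h1
  rw [map_zero] at h2
  have := hw l
  omega

lemma eval_zero_eq_coeff {τ : Type*} (H : MvPolynomial τ ℂ) : eval 0 H = coeff 0 H := by
  rw [eval_zero, constantCoeff_eq]

/-- Weighted homogeneous polynomials with independent linear parts generate a prime ideal. -/
theorem isPrime_span_of_linear {τ κ : Type*} [Fintype τ] [DecidableEq τ] [Fintype κ]
    (w : τ → ℕ) (hw : ∀ l, 0 < w l) (H : κ → MvPolynomial τ ℂ) (e : κ → ℕ)
    (hH : ∀ k, IsWeightedHomogeneous w (H k) (e k))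
    (hli : LinearIndependent ℂ (fun k => fun l => coeff (Finsupp.single l 1) (H k))) :
    (Ideal.span (Set.range H)).IsPrime := by
  classical
  obtain ⟨C', hcard, hspan⟩ := exists_complement _ hli
  set K := Ideal.span (Set.range H) with hK
  have hzero : ∀ k, aeval (fun l => Ideal.Quotient.mkₐ ℂ K (X l)) (H k) = 0 := by
    intro k
    have h1 : aeval (fun l => Ideal.Quotient.mkₐ ℂ K (X l)) (H k)
        = Ideal.Quotient.mkₐ ℂ K (aeval X (H k)) := by
      rw [← AlgHom.comp_apply, comp_aeval]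
    rw [h1, aeval_X_left_apply, Ideal.Quotient.mkₐ_eq_mk, Ideal.Quotient.eq_zero_iff_mem]
    exact Ideal.subset_span ⟨k, rfl⟩
  have helim := elim_variables w hw (fun l => Ideal.Quotient.mkₐ ℂ K (X l)) H e hH hzero C' hspan
  set ψ : MvPolynomial C' ℂ →ₐ[ℂ] (MvPolynomial τ ℂ ⧸ K) :=
    aeval (fun j : C' => Ideal.Quotient.mkₐ ℂ K (X (j : τ))) with hψ
  have hrange : ψ.range = Algebra.adjoin ℂ ((fun l => Ideal.Quotient.mkₐ ℂ K (X l)) '' C') := by
    rw [hψ, ← Algebra.adjoin_range_eq_range_aeval, Set.image_eq_range]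
  have hsurj : Function.Surjective ψ := by
    intro z
    obtain ⟨z, rfl⟩ := Ideal.Quotient.mkₐ_surjective ℂ K z
    have h1 : Algebra.adjoin ℂ (Set.range (X : τ → MvPolynomial τ ℂ))
        ≤ ψ.range.comap (Ideal.Quotient.mkₐ ℂ K) := by
      rw [Algebra.adjoin_le_iff]
      rintro _ ⟨l, rfl⟩
      rw [SetLike.mem_coe, Subalgebra.mem_comap, hrange]
      exact helim l
    rw [adjoin_range_X] at h1
    exact h1 (Algebra.mem_top (x := z))
  have hne : ∀ k, ∃ l, coeff (Finsupp.single l 1) (H k) ≠ 0 := by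
    intro k
    by_contra hcon
    push Not at hcon
    exact hli.ne_zero k (funext hcon)
  have hsub : Set.range H ⊆ vanishingIdeal ℂ {(0 : τ → ℂ)} := by
    rintro _ ⟨k, rfl⟩
    rw [SetLike.mem_coe, mem_vanishingIdeal_singleton_iff, aeval_eq_eval,
      eval_zero_eq_coeff]
    exact eval_zero_of_linear w hw (hH k) (hne k)
  have hht := Ideal.height_le_ringKrullDim_quotient_add_encard (Set.range H) hsub
  have hcardR : (Set.range H).encard ≤ ((Fintype.card κ : ℕ) : ℕ∞) := by
    rw [← Set.image_univ]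
    refine (Set.encard_image_le _ _).trans ?_
    rw [Set.encard_univ, ENat.card_eq_coe_fintype_card]
  have hdim : ((Nat.card C' : ℕ) : WithBot ℕ∞) ≤ ringKrullDim (MvPolynomial τ ℂ ⧸ K) := by
    apply dim_cancel (b := Fintype.card κ)
    have h1 : ((Fintype.card τ : ℕ) : WithBot ℕ∞) ≤
        (((vanishingIdeal ℂ {(0 : τ → ℂ)}).height : ℕ∞) : WithBot ℕ∞) := by
      exact_mod_cast card_le_height_origin (ι := τ)
    have h2 : ((Nat.card C' + Fintype.card κ : ℕ) : WithBot ℕ∞) ≤
        ((Fintype.card τ : ℕ) : WithBot ℕ∞) := by exact_mod_cast hcard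
    refine (h2.trans h1).trans (hht.trans ?_)
    refine add_le_add_right ?_ _
    exact_mod_cast hcardR
  have hinj : Function.Injective ψ := by
    apply injective_of_isIntegral ψ _ hdim
    intro x
    obtain ⟨y, rfl⟩ := hsurj x
    exact isIntegral_algebraMap (R := ψ.range) (x := ⟨ψ y, y, rfl⟩)
  have hdom : IsDomain (MvPolynomial τ ℂ ⧸ K) := by
    let e := AlgEquiv.ofBijective ψ ⟨hinj, hsurj⟩
    exact e.symm.toMulEquiv.isDomain _
  exact (Ideal.Quotient.isDomain_iff_prime K).mp hdom

end Pool.Agent.Hartshorne
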