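import Mathlib
import Pool.Agent.Hartshorne.Bundle
import Pool.Agent.Hartshorne.Lin
import Pool.Agent.Hartshorne.Chevalley

/-!
Homogeneous rows over the polynomial ring in two variables: a bundle on the projective line has
a homogeneous basis.
-/

namespace Pool.Agent.Hartshorne

open MvPolynomial

set_option linter.unusedSectionVars false

lemma eval_smul_of_isHomogeneous {σ : Type*} {f : MvPolynomial σ ℂ} {e : ℕ}
    (hf : f.IsHomogeneous e) (t : ℂ) (x : σ → ℂ) : eval (t • x) f = t ^ e * eval x f := by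
  rw [eval_eq, eval_eq, Finset.mul_sum]
  refine Finset.sum_congr rfl (fun s hs => ?_)
  have h8 := hf (mem_support_iff.mp hs)
  rw [Finsupp.weight_apply, Finsupp.sum] at h8
  simp only [Pi.one_apply, smul_eq_mul, mul_one] at h8
  simp only [Pi.smul_apply, smul_eq_mul, mul_pow, Finset.prod_mul_distrib]
  rw [Finset.prod_pow_eq_pow_sum, h8]
  ring

lemma fin2_cases (i : Fin 2) : i = 0 ∨ i = 1 := by omega

/-- The linear form vanishing at a point of the projective line. -/
noncomputable def linForm (z : Fin 2 → ℂ) : MvPolynomial (Fin 2) ℂ :=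
  C (z 1) * X 0 - C (z 0) * X 1

lemma linForm_isHomogeneous (z : Fin 2 → ℂ) : (linForm z).IsHomogeneous 1 :=
  (isHomogeneous_C_mul_X _ _).sub (isHomogeneous_C_mul_X _ _)

lemma eval_linForm (z w : Fin 2 → ℂ) : eval w (linForm z) = z 1 * w 0 - z 0 * w 1 := by
  simp [linForm]

lemma coeff_linForm (z : Fin 2 → ℂ) (l : Fin 2) :
    coeff (Finsupp.single l 1) (linForm z) = if l = 0 then z 1 else - z 0 := by
  rw [linForm, coeff_sub, coeff_C_mul, coeff_C_mul, coeff_X, coeff_X]
  have h0 : (Finsupp.single (0 : Fin 2) 1 = Finsupp.single l 1) ↔ l = 0 := by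
    rw [Finsupp.single_left_inj one_ne_zero]; exact eq_comm
  have h1 : (Finsupp.single (1 : Fin 2) 1 = Finsupp.single l 1) ↔ l = 1 := by
    rw [Finsupp.single_left_inj one_ne_zero]; exact eq_comm
  rw [if_congr h0 rfl rfl, if_congr h1 rfl rfl]
  rcases fin2_cases l with rfl | rfl
  · simp
  · simp

lemma linForm_coeff_ne {z : Fin 2 → ℂ} (hz : z ≠ 0) :
    (fun l => coeff (Finsupp.single l 1) (linForm z)) ≠ 0 := by
  intro h
  apply hz
  have h0 := congrFun h 0
  have h1 := congrFun h 1
  simp only [coeff_linForm] at h0 h1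
  simp at h0 h1
  funext i
  rcases fin2_cases i with rfl | rfl
  · exact h1
  · exact h0

lemma linForm_ne_zero {z : Fin 2 → ℂ} (hz : z ≠ 0) : linForm z ≠ 0 := by
  intro h
  apply linForm_coeff_ne hz
  rw [h]
  funext l
  simp

lemma span_linForm_isPrime {z : Fin 2 → ℂ} (hz : z ≠ 0) :
    (Ideal.span {linForm z}).IsPrime := by
  have h1 := isPrime_span_of_linear (τ := Fin 2) (κ := Unit) (fun _ => 1) (fun _ => Nat.one_pos)
    (fun _ => linForm z) (fun _ => 1) (fun _ => linForm_isHomogeneous z)
    (linearIndependent_unique_iff.mpr (linForm_coeff_ne hz))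
  rwa [Set.range_const] at h1

/-- A binary form vanishing at a point is divisible by the linear form of the point. -/
lemma linForm_dvd {z : Fin 2 → ℂ} (hz : z ≠ 0) {f : MvPolynomial (Fin 2) ℂ} {e : ℕ}
    (hf : f.IsHomogeneous e) (h0 : eval z f = 0) : linForm z ∣ f := by
  rw [← Ideal.mem_span_singleton, ← (span_linForm_isPrime hz).radical,
    ← vanishingIdeal_zeroLocus_eq_radical (K := ℂ), mem_vanishingIdeal_iff]
  intro w hw
  rw [mem_zeroLocus_iff] at hw
  have h1 := hw _ (Ideal.mem_span_singleton_self _)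
  rw [aeval_eq_eval, eval_linForm] at h1
  have h2 : ∃ t : ℂ, w = t • z := by
    by_cases hz0 : z 0 = 0
    · have hz1 : z 1 ≠ 0 := by
        intro hz1
        apply hz
        funext i
        rcases fin2_cases i with rfl | rfl
        · exact hz0
        · exact hz1
      refine ⟨w 1 / z 1, ?_⟩
      rw [hz0, zero_mul, sub_zero] at h1
      have hw0 := (mul_eq_zero.mp h1).resolve_left hz1
      funext i
      rcases fin2_cases i with rfl | rfl
      · rw [Pi.smul_apply, smul_eq_mul, hz0, mul_zero]; exact hw0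
      · rw [Pi.smul_apply, smul_eq_mul, div_mul_cancel₀ _ hz1]
    · refine ⟨w 0 / z 0, ?_⟩
      funext i
      rcases fin2_cases i with rfl | rfl
      · rw [Pi.smul_apply, smul_eq_mul, div_mul_cancel₀ _ hz0]
      · rw [Pi.smul_apply, smul_eq_mul]
        field_simp
        linear_combination -h1
  obtain ⟨t, rfl⟩ := h2
  rw [aeval_eq_eval, eval_smul_of_isHomogeneous hf, h0, mul_zero]

lemma exists_div_linForm {τ : Type*} {z : Fin 2 → ℂ} (hz : z ≠ 0)
    {r : τ → MvPolynomial (Fin 2) ℂ} {e : ℕ} (hr : HomRow (e + 1) r) (h0 : rowEval z r = 0) :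
    ∃ s : τ → MvPolynomial (Fin 2) ℂ, HomRow e s ∧ r = linForm z • s := by
  have h1 : ∀ b, ∃ g : MvPolynomial (Fin 2) ℂ, g.IsHomogeneous e ∧ r b = linForm z * g := by
    intro b
    obtain ⟨g, hg⟩ := linForm_dvd hz (hr b) (congrFun h0 b)
    refine ⟨g, ?_, hg⟩
    have h2 := hr b
    rw [hg] at h2
    exact isHomogeneous_of_mul_left (linForm_isHomogeneous z) (linForm_ne_zero hz) h2
  choose s hs using h1
  exact ⟨s, fun b => (hs b).1, funext fun b => (hs b).2⟩

/-- A homogeneous linear form with value one at a given point. -/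
lemma exists_unit_form {σ : Type*} {z : σ → ℂ} (hz : z ≠ 0) :
    ∃ η : MvPolynomial σ ℂ, η.IsHomogeneous 1 ∧ eval z η = 1 := by
  obtain ⟨i, hi⟩ := Function.ne_iff.mp hz
  refine ⟨C (z i)⁻¹ * X i, isHomogeneous_C_mul_X _ _, ?_⟩
  rw [map_mul, eval_C, eval_X]
  exact inv_mul_cancel₀ hi

lemma HomRow.smul {σ τ : Type*} {g : MvPolynomial σ ℂ} {r : τ → MvPolynomial σ ℂ} {d e : ℕ}
    (hg : g.IsHomogeneous d) (hr : HomRow e r) : HomRow (d + e) (g • r) :=
  fun b => hg.mul (hr b)

lemma HomRow.sub {σ τ : Type*} {r s : τ → MvPolynomial σ ℂ} {e : ℕ}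
    (hr : HomRow e r) (hs : HomRow e s) : HomRow e (r - s) := fun b => (hr b).sub (hs b)

lemma HomRow.add {σ τ : Type*} {r s : τ → MvPolynomial σ ℂ} {e : ℕ}
    (hr : HomRow e r) (hs : HomRow e s) : HomRow e (r + s) := fun b => (hr b).add (hs b)

lemma HomRow.sum {σ τ ι : Type*} (t : Finset ι) {r : ι → τ → MvPolynomial σ ℂ} {e : ℕ}
    (hr : ∀ i ∈ t, HomRow e (r i)) : HomRow e (∑ i ∈ t, r i) := by
  intro b
  rw [Finset.sum_apply]
  exact IsHomogeneous.sum _ _ _ (fun i hi => hr i hi b)

/-- A homogeneous basis of the sections. -/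
def SplitBasis {σ τ : Type*} (c : ℕ) (E : (σ → ℂ) → Submodule ℂ (τ → ℂ))
    (ψ : Fin c → τ → MvPolynomial σ ℂ) (f : Fin c → ℕ) : Prop :=
  (∀ i, HomRow (f i) (ψ i)) ∧ (∀ i, InE E (ψ i)) ∧
  (∀ z ≠ 0, LinearIndependent ℂ (fun i => rowEval z (ψ i))) ∧
  ∀ e r, HomRow e r → InE E r → r ∈ Submodule.span (MvPolynomial σ ℂ) (Set.range ψ)

/-- If homogeneous sections `ψ` generate the homogeneous sections, they are independent at every
point. -/
lemma IsBundle.li_of_gen {σ τ : Type*} [Fintype τ] {c : ℕ}
    {Γ : Submodule (MvPolynomial σ ℂ) (τ → MvPolynomial σ ℂ)}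
    {E : (σ → ℂ) → Submodule ℂ (τ → ℂ)} (hb : IsBundle c Γ E) {k : ℕ}
    (ψ : Fin k → τ → MvPolynomial σ ℂ)
    (hgen : ∀ e r, HomRow e r → InE E r →
      r ∈ Submodule.span (MvPolynomial σ ℂ) (Set.range ψ)) (z : σ → ℂ) (hz : z ≠ 0) :
    ∃ w : Fin c → (τ → ℂ), LinearIndependent ℂ w ∧
      ∀ i, w i ∈ Submodule.span ℂ (Set.range fun j => rowEval z (ψ j)) := by
  obtain ⟨P, hP, hPh, hli⟩ := hb.exists_li z hz
  refine ⟨_, hli, fun i => ?_⟩
  obtain ⟨e, he⟩ := hPh i
  have h1 := hgen e (P i) he (hb.inE (hP i))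
  obtain ⟨a, ha⟩ := (Submodule.mem_span_range_iff_exists_fun _).mp h1
  rw [← ha, rowEval_sum]
  refine Submodule.sum_mem _ (fun j _ => ?_)
  rw [rowEval_smul]
  exact Submodule.smul_mem _ _ (Submodule.subset_span ⟨j, rfl⟩)

lemma le_of_li_in_span {V : Type*} [AddCommGroup V] [Module ℂ V] {c k : ℕ} (w : Fin c → V)
    (hw : LinearIndependent ℂ w) (x : Fin k → V)
    (h : ∀ i, w i ∈ Submodule.span ℂ (Set.range x)) : c ≤ k := by
  have h1 : Submodule.span ℂ (Set.range w) ≤ Submodule.span ℂ (Set.range x) := by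
    rw [Submodule.span_le]
    rintro _ ⟨i, rfl⟩
    exact h i
  have hfin : Module.Finite ℂ (Submodule.span ℂ (Set.range x)) :=
    Module.Finite.span_of_finite ℂ (Set.finite_range x)
  have h2 := Submodule.finrank_mono h1
  rw [finrank_span_eq_card hw, Fintype.card_fin] at h2
  refine h2.trans ((finrank_range_le_card x).trans ?_)
  rw [Fintype.card_fin]

/-- **Bundles on the projective line split.** -/
theorem line_split {τ : Type*} [Fintype τ] {c : ℕ}
    {Γ : Submodule (MvPolynomial (Fin 2) ℂ) (τ → MvPolynomial (Fin 2) ℂ)}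
    {E : (Fin 2 → ℂ) → Submodule ℂ (τ → ℂ)} (hb : IsBundle c Γ E) :
    ∃ ψ f, SplitBasis c E ψ f := by
  classical
  set S : ℕ → Prop := fun k => ∃ (ψ : Fin k → τ → MvPolynomial (Fin 2) ℂ) (f : Fin k → ℕ) (e : ℕ),
    (∀ i, HomRow (f i) (ψ i)) ∧ (∀ i, InE E (ψ i)) ∧ (∀ i, f i ≤ e) ∧
    (∀ z ≠ 0, LinearIndependent ℂ (fun i => rowEval z (ψ i))) ∧
    (∀ r e', e' < e → HomRow e' r → InE E r →
      r ∈ Submodule.span (MvPolynomial (Fin 2) ℂ) (Set.range ψ)) with hS
  have hone : (fun _ => 1 : Fin 2 → ℂ) ≠ 0 := by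
    intro h
    exact one_ne_zero (congrFun h 0)
  have hle : ∀ k, S k → k ≤ c := by
    rintro k ⟨ψ, f, e, -, hin, -, hli, -⟩
    have h1 := hli _ hone
    have h2 : Submodule.span ℂ (Set.range fun i => rowEval (fun _ => 1) (ψ i)) ≤
        E (fun _ => 1) := by
      rw [Submodule.span_le]
      rintro _ ⟨i, rfl⟩
      exact hin i _ hone
    have h3 := Submodule.finrank_mono h2
    rwa [finrank_span_eq_card h1, hb.finrank _ hone, Fintype.card_fin] at h3
  have hstep : ∀ k, S k → (∃ ψ f, SplitBasis c E ψ f) ∨ S (k + 1) := by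
    rintro k ⟨ψ, f, e, hhom, hin, hfe, hli, hgen⟩
    by_cases hdone : ∀ e' r, HomRow e' r → InE E r →
        r ∈ Submodule.span (MvPolynomial (Fin 2) ℂ) (Set.range ψ)
    · left
      obtain ⟨w, hw, hwmem⟩ := hb.li_of_gen ψ hdone _ hone
      have hck := le_of_li_in_span w hw _ hwmem
      have hkc := hle k ⟨ψ, f, e, hhom, hin, hfe, hli, hgen⟩
      have hkeq : k = c := le_antisymm hkc hck
      subst hkeq
      exact ⟨ψ, f, hhom, hin, hli, hdone⟩
    · right
      push Not at hdone
      have hex : ∃ e', ∃ r, HomRow e' r ∧ InE E r ∧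
        r ∉ Submodule.span (MvPolynomial (Fin 2) ℂ) (Set.range ψ) := by
        obtain ⟨e', r, h1, h2, h3⟩ := hdone
        exact ⟨e', r, h1, h2, h3⟩
      obtain ⟨r, hr, hrE, hrn⟩ := Nat.find_spec hex
      have hmin : ∀ e'' < Nat.find hex, ∀ r, HomRow e'' r → InE E r →
          r ∈ Submodule.span (MvPolynomial (Fin 2) ℂ) (Set.range ψ) := by
        intro e'' he'' r h1 h2
        by_contra h3
        exact Nat.find_min hex he'' ⟨r, h1, h2, h3⟩
      set e' := Nat.find hex with he'
      have hee' : e ≤ e' := by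
        by_contra hlt
        push Not at hlt
        exact hrn (hgen r e' hlt hr hrE)
      refine ⟨Fin.snoc ψ r, Fin.snoc f e', e', ?_, ?_, ?_, ?_, ?_⟩
      · intro i
        refine Fin.lastCases ?_ (fun j => ?_) i
        · simpa using hr
        · simpa using hhom j
      · intro i
        refine Fin.lastCases ?_ (fun j => ?_) i
        · simpa using hrE
        · simpa using hin j
      · intro i
        refine Fin.lastCases ?_ (fun j => ?_) i
        · simp
        · simpa using (hfe j).trans hee'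
      · intro z hz
        have h1 : (fun i => rowEval z ((Fin.snoc ψ r : Fin (k + 1) → τ →
            MvPolynomial (Fin 2) ℂ) i)) = Fin.snoc (fun i => rowEval z (ψ i)) (rowEval z r) := by
          funext i
          refine Fin.lastCases ?_ (fun j => ?_) i
          · simp
          · simp
        rw [h1, linearIndependent_finSnoc]
        refine ⟨hli z hz, fun hmem => ?_⟩
        rw [Submodule.mem_span_range_iff_exists_fun] at hmem
        obtain ⟨lam, hlam⟩ := hmem
        obtain ⟨η, hη, hηz⟩ := exists_unit_form hz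
        set s := r - ∑ i, (C (lam i) * η ^ (e' - f i)) • ψ i with hs
        have hsE : InE E s := hrE.sub (InE.sum _ _ (fun i _ => (hin i).smul _))
        have hsh : HomRow e' s := by
          refine hr.sub (HomRow.sum _ (fun i _ => ?_))
          have h2 : (C (lam i) * η ^ (e' - f i)).IsHomogeneous (e' - f i) := by
            have h3 := hη.pow (e' - f i)
            rw [one_mul] at h3
            have h4 := (isHomogeneous_C (Fin 2) (lam i)).mul h3
            rwa [zero_add] at h4
          have h5 := HomRow.smul h2 (hhom i)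
          rwa [Nat.sub_add_cancel ((hfe i).trans hee')] at h5
        have hs0 : rowEval z s = 0 := by
          rw [hs, rowEval_sub, rowEval_sum, ← hlam, sub_eq_zero]
          refine Finset.sum_congr rfl (fun i _ => ?_)
          rw [rowEval_smul, map_mul, eval_C, map_pow, hηz, one_pow, mul_one]
        have hsmem : s ∈ Submodule.span (MvPolynomial (Fin 2) ℂ) (Set.range ψ) := by
          rcases Nat.eq_zero_or_pos e' with h0 | hpos
          · rw [h0] at hsh
            have h6 : s = 0 := by
              funext b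
              have h7 := totalDegree_eq_zero_iff_eq_C.mp
                (Nat.le_zero.mp (hsh b).totalDegree_le)
              have h8 := congrFun hs0 b
              rw [rowEval_apply, h7, eval_C] at h8
              rw [h7]
              simp only [Pi.zero_apply] at h8
              rw [h8, C_0]
              rfl
            rw [h6]
            exact Submodule.zero_mem _
          · obtain ⟨e'', he''⟩ : ∃ e'', e' = e'' + 1 := ⟨e' - 1, by omega⟩
            rw [he''] at hsh
            obtain ⟨s', hs'h, hs'⟩ := exists_div_linForm hz hsh hs0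
            have hs'E : InE E s' := by
              rw [hs'] at hsE
              exact hb.of_smul (linForm_ne_zero hz) hsE
            rw [hs']
            exact Submodule.smul_mem _ _ (hmin e'' (by omega) s' hs'h hs'E)
        apply hrn
        have h9 : r = s + ∑ i, (C (lam i) * η ^ (e' - f i)) • ψ i := by rw [hs]; abel
        rw [h9]
        exact Submodule.add_mem _ hsmem (Submodule.sum_mem _ (fun i _ =>
          Submodule.smul_mem _ _ (Submodule.subset_span ⟨i, rfl⟩)))
      · intro r' e'' he'' h1 h2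
        refine Submodule.span_mono ?_ (hmin e'' he'' r' h1 h2)
        rintro _ ⟨i, rfl⟩
        exact ⟨Fin.castSucc i, by simp⟩
  by_contra hcon
  have hall : ∀ k, S k := by
    intro k
    induction k with
    | zero =>
      refine ⟨Fin.elim0, Fin.elim0, 0, fun i => i.elim0, fun i => i.elim0, fun i => i.elim0,
        fun z _ => linearIndependent_empty_type, fun r e' he' => absurd he' (Nat.not_lt_zero _)⟩
    | succ k ih => exact (hstep k ih).resolve_left hcon
  exact absurd (hle (c + 1) (hall _)) (by omega)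

end Pool.Agent.Hartshorne
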