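import Mathlib
import Pool.Agent.Hartshorne.Line

/-!
General position: `c + 1` general sections generate a bundle of rank `c` on the projective line.
-/

namespace Pool.Agent.Hartshorne

open MvPolynomial

set_option linter.unusedSectionVars false

section GenPos

variable {V τ : Type*} [AddCommGroup V] [Module ℂ V] [Fintype τ]
  (T : V →ₗ[ℂ] (τ → MvPolynomial (Fin 2) ℂ))

/-- The span of the values at `z` of the sections attached to `v`. -/
noncomputable def valSpan {k : ℕ} (v : Fin k → V) (z : Fin 2 → ℂ) : Submodule ℂ (τ → ℂ) :=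
  Submodule.span ℂ (Set.range fun i => rowEval z (T (v i)))

/-- Value at `z` as a linear map. -/
noncomputable def valMap (z : Fin 2 → ℂ) : V →ₗ[ℂ] (τ → ℂ) where
  toFun := fun x => rowEval z (T x)
  map_add' := by intro x y; rw [map_add, rowEval_add]
  map_smul' := by
    intro a x
    rw [map_smul]
    funext b
    simp [rowEval, smul_eval]

lemma valMap_apply (z : Fin 2 → ℂ) (x : V) : valMap T z x = rowEval z (T x) := rfl

lemma valSpan_snoc {k : ℕ} (v : Fin k → V) (x : V) (z : Fin 2 → ℂ) :
    valSpan T (Fin.snoc v x : Fin (k + 1) → V) z =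
      valSpan T v z ⊔ Submodule.span ℂ {rowEval z (T x)} := by
  rw [valSpan, valSpan, ← Submodule.span_union]
  congr 1
  ext y
  constructor
  · rintro ⟨i, rfl⟩
    refine Fin.lastCases ?_ (fun j => ?_) i
    · right; simp
    · left; exact ⟨j, by simp⟩
  · rintro (⟨j, rfl⟩ | h)
    · exact ⟨Fin.castSucc j, by simp⟩
    · rw [Set.mem_singleton_iff] at h
      exact ⟨Fin.last k, by simp [h]⟩

lemma finrank_valSpan_snoc_of_notMem {k : ℕ} (v : Fin k → V) (x : V) (z : Fin 2 → ℂ)
    (h : rowEval z (T x) ∉ valSpan T v z) :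
    Module.finrank ℂ (valSpan T v z) + 1 ≤
      Module.finrank ℂ (valSpan T (Fin.snoc v x : Fin (k + 1) → V) z) := by
  apply Submodule.finrank_lt_finrank_of_lt
  rw [valSpan_snoc]
  refine lt_of_le_of_ne le_sup_left (fun heq => h ?_)
  rw [heq]
  exact Submodule.mem_sup_right (Submodule.mem_span_singleton_self _)

lemma finrank_valSpan_le_snoc {k : ℕ} (v : Fin k → V) (x : V) (z : Fin 2 → ℂ) :
    Module.finrank ℂ (valSpan T v z) ≤
      Module.finrank ℂ (valSpan T (Fin.snoc v x : Fin (k + 1) → V) z) := by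
  apply Submodule.finrank_mono
  rw [valSpan_snoc]
  exact le_sup_left

lemma rowEval_smul_point {σ : Type*} {e : ℕ} {r : τ → MvPolynomial σ ℂ} (hr : HomRow e r) (t : ℂ)
    (z : σ → ℂ) : rowEval (t • z) r = t ^ e • rowEval z r := by
  funext b
  rw [rowEval_apply, eval_smul_of_isHomogeneous (hr b), Pi.smul_apply, smul_eq_mul, rowEval_apply]

lemma valSpan_smul {e : ℕ} (hT : ∀ v, HomRow e (T v)) {k : ℕ} (v : Fin k → V) (z : Fin 2 → ℂ)
    {t : ℂ} (ht : t ≠ 0) : valSpan T v (t • z) = valSpan T v z := by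
  apply le_antisymm
  · rw [valSpan, Submodule.span_le]
    rintro _ ⟨i, rfl⟩
    simp only [SetLike.mem_coe]
    rw [rowEval_smul_point (hT _)]
    exact Submodule.smul_mem _ _ (Submodule.subset_span ⟨i, rfl⟩)
  · rw [valSpan, Submodule.span_le]
    rintro _ ⟨i, rfl⟩
    simp only [SetLike.mem_coe]
    have h1 : rowEval z (T (v i)) = (t ^ e)⁻¹ • rowEval (t • z) (T (v i)) := by
      rw [rowEval_smul_point (hT _), smul_smul, inv_mul_cancel₀ (pow_ne_zero e ht), one_smul]
    rw [h1]
    exact Submodule.smul_mem _ _ (Submodule.subset_span ⟨i, rfl⟩)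

/-- The point `(1, t)`. -/
def pt (t : ℂ) : Fin 2 → ℂ := ![1, t]

/-- One step. -/
lemma gen_step {e : ℕ} (hT : ∀ v, HomRow e (T v)) {c : ℕ}
    (hc : ∀ z ≠ 0, ∃ w : Fin c → V, LinearIndependent ℂ (fun i => rowEval z (T (w i))))
    {k : ℕ} (hk : k ≤ c) (v : Fin k → V)
    (hli : LinearIndependent ℂ (fun i => rowEval (pt 0) (T (v i))))
    (hv : ∀ z ≠ 0, k ≤ Module.finrank ℂ (valSpan T v z) + 1) :
    ∃ x : V, (∀ z ≠ 0, k ≤ Module.finrank ℂ
        (valSpan T (Fin.snoc v x : Fin (k + 1) → V) z)) ∧
      (k < c → LinearIndependent ℂ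
        (fun i => rowEval (pt 0) (T ((Fin.snoc v x : Fin (k + 1) → V) i)))) := by
  classical
  obtain ⟨M, hM⟩ := exists_minor _ hli
  set D : MvPolynomial (Fin 2) ℂ := (Matrix.of fun i l => T (v i) (M l)).det with hD
  have hD0 : eval (pt 0) D ≠ 0 := by
    rw [hD, eval_det]; exact hM
  set q : Polynomial ℂ := aeval (![1, Polynomial.X] : Fin 2 → Polynomial ℂ) D with hq
  have hqe : ∀ t, q.eval t = eval (pt t) D := by
    intro t
    rw [hq]
    have h1 : (Polynomial.evalRingHom t).comp
        ((aeval (![1, Polynomial.X] : Fin 2 → Polynomial ℂ) :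
          MvPolynomial (Fin 2) ℂ →ₐ[ℂ] Polynomial ℂ) : MvPolynomial (Fin 2) ℂ →+* Polynomial ℂ)
        = eval (pt t) := by
      apply MvPolynomial.ringHom_ext
      · intro a
        simp
      · intro i
        rcases fin2_cases i with rfl | rfl
        · simp [pt]
        · simp [pt]
    exact RingHom.congr_fun h1 D
  have hq0 : q ≠ 0 := by
    intro h
    apply hD0
    rw [← hqe, h, Polynomial.eval_zero]
  have hprop : ∀ z ≠ 0, Module.finrank ℂ (valSpan T v z) < c →
      (valSpan T v z).comap (valMap T z) ≠ ⊤ := by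
    intro z hz hlt htop
    obtain ⟨w, hw⟩ := hc z hz
    have h1 : Submodule.span ℂ (Set.range fun i => rowEval z (T (w i))) ≤ valSpan T v z := by
      rw [Submodule.span_le]
      rintro _ ⟨i, rfl⟩
      have h2 : w i ∈ (valSpan T v z).comap (valMap T z) := by
        rw [htop]; exact Submodule.mem_top
      exact h2
    have h3 := Submodule.finrank_mono h1
    rw [finrank_span_eq_card hw, Fintype.card_fin] at h3
    omega
  set B : Finset (Fin 2 → ℂ) := q.roots.toFinset.image pt ∪ {![0, 1], pt 0} with hB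
  have hBne : ∀ z ∈ B, z ≠ 0 := by
    intro z hz
    rw [hB, Finset.mem_union, Finset.mem_image, Finset.mem_insert, Finset.mem_singleton] at hz
    rcases hz with ⟨t, -, rfl⟩ | rfl | rfl
    · intro h; exact one_ne_zero (congrFun h 0)
    · intro h; exact one_ne_zero (congrFun h 1)
    · intro h; exact one_ne_zero (congrFun h 0)
  set S : Finset (Subspace ℂ V) :=
    (B.filter (fun z => Module.finrank ℂ (valSpan T v z) < c)).image
      (fun z => (valSpan T v z).comap (valMap T z)) with hS
  have hStop : (⊤ : Subspace ℂ V) ∉ S := by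
    rw [hS, Finset.mem_image]
    rintro ⟨z, hz, htop⟩
    rw [Finset.mem_filter] at hz
    exact hprop z (hBne z hz.1) hz.2 htop
  have hne := Subspace.biUnion_ne_univ_of_top_notMem hStop
  obtain ⟨x, hx⟩ := (Set.ne_univ_iff_exists_notMem _).mp hne
  have hxz : ∀ z ∈ B, Module.finrank ℂ (valSpan T v z) < c →
      rowEval z (T x) ∉ valSpan T v z := by
    intro z hz hlt hmem
    apply hx
    rw [Set.mem_iUnion₂]
    refine ⟨(valSpan T v z).comap (valMap T z), ?_, hmem⟩
    rw [hS, Finset.mem_image]
    exact ⟨z, Finset.mem_filter.mpr ⟨hz, hlt⟩, rfl⟩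
  have hBpt : ∀ z ∈ B, k ≤ Module.finrank ℂ
      (valSpan T (Fin.snoc v x : Fin (k + 1) → V) z) := by
    intro z hz
    by_cases hlt : Module.finrank ℂ (valSpan T v z) < c
    · have h1 := finrank_valSpan_snoc_of_notMem T v x z (hxz z hz hlt)
      have h2 := hv z (hBne z hz)
      omega
    · have h1 := finrank_valSpan_le_snoc T v x z
      omega
  refine ⟨x, ?_, ?_⟩
  · intro z hz
    by_cases hz0 : z 0 = 0
    · have hz1 : z 1 ≠ 0 := by
        intro hz1
        apply hz
        funext i
        rcases fin2_cases i with rfl | rfl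
        · exact hz0
        · exact hz1
      have h1 : z = z 1 • (![0, 1] : Fin 2 → ℂ) := by
        funext i
        rcases fin2_cases i with rfl | rfl
        · simp [hz0]
        · simp
      rw [h1, valSpan_smul T hT _ _ hz1]
      apply hBpt
      rw [hB]
      simp
    · have h1 : z = z 0 • pt (z 1 / z 0) := by
        funext i
        rcases fin2_cases i with rfl | rfl
        · simp [pt]
        · simp only [pt, Pi.smul_apply, smul_eq_mul]
          simp
          field_simp
      rw [h1, valSpan_smul T hT _ _ hz0]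
      by_cases hroot : q.eval (z 1 / z 0) = 0
      · apply hBpt
        rw [hB, Finset.mem_union, Finset.mem_image]
        left
        refine ⟨z 1 / z 0, ?_, rfl⟩
        rw [Multiset.mem_toFinset, Polynomial.mem_roots hq0]
        exact hroot
      · rw [hqe] at hroot
        have h2 := rowEval_li_of_det (pt (z 1 / z 0)) (fun i => T (v i)) M hroot
        refine le_trans ?_ (finrank_valSpan_le_snoc T v x _)
        rw [valSpan, finrank_span_eq_card h2, Fintype.card_fin]
  · intro hkc
    have h1 : (fun i => rowEval (pt 0) (T ((Fin.snoc v x : Fin (k + 1) → V) i))) =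
        Fin.snoc (fun i => rowEval (pt 0) (T (v i))) (rowEval (pt 0) (T x)) := by
      funext i
      refine Fin.lastCases ?_ (fun j => ?_) i
      · simp
      · simp
    rw [h1, linearIndependent_finSnoc]
    refine ⟨hli, ?_⟩
    apply hxz
    · rw [hB]; simp
    · rw [valSpan, finrank_span_eq_card hli, Fintype.card_fin]
      exact hkc

/-- `c + 1` general sections generate. -/
theorem gen_pos {e : ℕ} (hT : ∀ v, HomRow e (T v)) {c : ℕ}
    (hc : ∀ z ≠ 0, ∃ w : Fin c → V, LinearIndependent ℂ (fun i => rowEval z (T (w i)))) :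
    ∃ v : Fin (c + 1) → V, ∀ z ≠ 0, c ≤ Module.finrank ℂ (valSpan T v z) := by
  have hall : ∀ k ≤ c, ∃ v : Fin k → V,
      LinearIndependent ℂ (fun i => rowEval (pt 0) (T (v i))) ∧
      ∀ z ≠ 0, k ≤ Module.finrank ℂ (valSpan T v z) + 1 := by
    intro k
    induction k with
    | zero =>
      intro _
      exact ⟨Fin.elim0, linearIndependent_empty_type, fun z _ => Nat.zero_le _⟩
    | succ k ih =>
      intro hk
      obtain ⟨v, hli, hv⟩ := ih (by omega)
      obtain ⟨x, h1, h2⟩ := gen_step T hT hc (by omega) v hli hv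
      exact ⟨Fin.snoc v x, h2 (by omega), fun z hz => Nat.succ_le_succ (h1 z hz)⟩
  obtain ⟨v, hli, hv⟩ := hall c le_rfl
  obtain ⟨x, h1, -⟩ := gen_step T hT hc le_rfl v hli hv
  exact ⟨Fin.snoc v x, h1⟩

end GenPos

end Pool.Agent.Hartshorne
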