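import Mathlib
import Pool.Agent.Hartshorne.Line

/-!
More lemmas on rows of polynomials.
-/

namespace Pool.Agent.Hartshorne

open MvPolynomial

set_option linter.unusedSectionVars false

section Rows

variable {σ τ : Type*}

lemma homRow_zero (e : ℕ) : HomRow e (0 : τ → MvPolynomial σ ℂ) :=
  fun _ => isHomogeneous_zero _ _ _

/-- Homogeneous coefficients. -/
lemma exists_homog_coeffs [Fintype σ] {ι : Type*} [Fintype ι] {r : τ → MvPolynomial σ ℂ} {e : ℕ}
    (hr : HomRow e r) (P : ι → τ → MvPolynomial σ ℂ) (d : ι → ℕ) (hP : ∀ i, HomRow (d i) (P i))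
    (h : r ∈ Submodule.span (MvPolynomial σ ℂ) (Set.range P)) :
    ∃ a : ι → MvPolynomial σ ℂ, (∀ i, (a i).IsHomogeneous (e - d i)) ∧
      (∀ i, e < d i → a i = 0) ∧ ∑ i, a i • P i = r := by
  classical
  obtain ⟨a, ha⟩ := (Submodule.mem_span_range_iff_exists_fun _).mp h
  refine ⟨fun i => if d i ≤ e then homogeneousComponent (e - d i) (a i) else 0, ?_, ?_, ?_⟩
  · intro i
    simp only
    split_ifs
    · exact homogeneousComponent_isHomogeneous _ _
    · exact isHomogeneous_zero _ _ _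
  · intro i hi
    simp only
    rw [if_neg (by omega)]
  · funext b
    have h1 : r b = homogeneousComponent e (r b) := (homogeneousComponent_eq_self (hr b)).symm
    have h2 : r b = ∑ i, a i * P i b := by
      rw [← ha, Finset.sum_apply]
      rfl
    rw [h1, h2, map_sum, Finset.sum_apply]
    refine Finset.sum_congr rfl (fun i _ => ?_)
    rw [homogeneousComponent_mul_right (hP i b), Pi.smul_apply, smul_eq_mul, ite_mul, zero_mul]

lemma rowComp_of_homRow {r : τ → MvPolynomial σ ℂ} {e : ℕ} (hr : HomRow e r) :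
    rowComp e r = r := funext fun b => homogeneousComponent_eq_self (hr b)

lemma homRow_rowComp (r : τ → MvPolynomial σ ℂ) (e : ℕ) : HomRow e (rowComp e r) :=
  fun _ => homogeneousComponent_isHomogeneous _ _

lemma rowComp_add (r s : τ → MvPolynomial σ ℂ) (e : ℕ) :
    rowComp e (r + s) = rowComp e r + rowComp e s := funext fun _ => map_add _ _ _

lemma rowComp_sub (r s : τ → MvPolynomial σ ℂ) (e : ℕ) :
    rowComp e (r - s) = rowComp e r - rowComp e s := funext fun _ => map_sub _ _ _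

lemma rowComp_sum {ι : Type*} (t : Finset ι) (r : ι → τ → MvPolynomial σ ℂ) (e : ℕ) :
    rowComp e (∑ i ∈ t, r i) = ∑ i ∈ t, rowComp e (r i) := by
  funext b
  simp only [rowComp, Finset.sum_apply, map_sum]

lemma rowComp_smul [Fintype σ] {g : MvPolynomial σ ℂ} {d : ℕ} (hg : g.IsHomogeneous d)
    (r : τ → MvPolynomial σ ℂ) (e : ℕ) :
    rowComp e (g • r) = if d ≤ e then g • rowComp (e - d) r else 0 := by
  classical
  funext b
  simp only [rowComp, Pi.smul_apply, smul_eq_mul]
  rw [mul_comm, homogeneousComponent_mul_right hg]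
  split_ifs with h
  · rw [Pi.smul_apply, smul_eq_mul, mul_comm]
    rfl
  · rfl

lemma rowComp_smul_homRow [Fintype σ] {r : τ → MvPolynomial σ ℂ} {d : ℕ} (hr : HomRow d r)
    (g : MvPolynomial σ ℂ) (e : ℕ) :
    rowComp e (g • r) = if d ≤ e then homogeneousComponent (e - d) g • r else 0 := by
  classical
  funext b
  simp only [rowComp, Pi.smul_apply, smul_eq_mul]
  rw [homogeneousComponent_mul_right (hr b)]
  split_ifs with h
  · rw [Pi.smul_apply, smul_eq_mul]
  · rfl

lemma rowComp_mem_span [Fintype σ] {ι : Type*} [Fintype ι] (P : ι → τ → MvPolynomial σ ℂ)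
    (d : ι → ℕ) (hP : ∀ i, HomRow (d i) (P i)) {r : τ → MvPolynomial σ ℂ}
    (h : r ∈ Submodule.span (MvPolynomial σ ℂ) (Set.range P)) (e : ℕ) :
    rowComp e r ∈ Submodule.span (MvPolynomial σ ℂ) (Set.range P) := by
  classical
  obtain ⟨a, ha⟩ := (Submodule.mem_span_range_iff_exists_fun _).mp h
  rw [← ha, rowComp_sum]
  refine Submodule.sum_mem _ (fun i _ => ?_)
  rw [rowComp_smul_homRow (hP i)]
  split_ifs
  · exact Submodule.smul_mem _ _ (Submodule.subset_span ⟨i, rfl⟩)
  · exact Submodule.zero_mem _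

lemma exists_eq_sum_rowComp [Finite τ] (r : τ → MvPolynomial σ ℂ) :
    ∃ n : ℕ, r = ∑ e ∈ Finset.range n, rowComp e r := by
  classical
  have : Fintype τ := Fintype.ofFinite τ
  refine ⟨(Finset.univ.sup fun b => (r b).totalDegree) + 1, ?_⟩
  funext b
  rw [Finset.sum_apply]
  simp only [rowComp]
  conv_lhs => rw [← sum_homogeneousComponent (r b)]
  refine Finset.sum_subset ?_ ?_
  · intro i hi
    rw [Finset.mem_range] at hi ⊢
    have h1 : (r b).totalDegree ≤ Finset.univ.sup fun b => (r b).totalDegree :=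
      Finset.le_sup (f := fun b => (r b).totalDegree) (Finset.mem_univ b)
    omega
  · intro i _ hi
    rw [Finset.mem_range] at hi
    exact homogeneousComponent_eq_zero _ _ (by omega)

lemma homRow_comb {ι : Type*} [Fintype ι] {e : ℕ} (P : ι → τ → MvPolynomial σ ℂ) (d : ι → ℕ)
    (hP : ∀ i, HomRow (d i) (P i)) (a : ι → MvPolynomial σ ℂ)
    (ha : ∀ i, (a i).IsHomogeneous (e - d i)) (ha0 : ∀ i, e < d i → a i = 0) :
    HomRow e (∑ i, a i • P i) := by
  refine HomRow.sum _ (fun i _ => ?_)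
  by_cases h : d i ≤ e
  · have h1 := HomRow.smul (ha i) (hP i)
    rwa [Nat.sub_add_cancel h] at h1
  · rw [ha0 i (by omega), zero_smul]
    exact homRow_zero _

lemma isHomogeneous_of_X_pow_mul [Fintype σ] (i : σ) (K : ℕ) {q : MvPolynomial σ ℂ} {n : ℕ}
    (h : ((X i : MvPolynomial σ ℂ) ^ K * q).IsHomogeneous (K + n)) : q.IsHomogeneous n := by
  classical
  induction K with
  | zero => simpa using h
  | succ K ih =>
    apply ih
    have h1 : (X i : MvPolynomial σ ℂ) ^ (K + 1) * q = X i * (X i ^ K * q) := by ring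
    rw [h1, show K + 1 + n = (K + n) + 1 by ring] at h
    exact isHomogeneous_of_mul_left (isHomogeneous_X ℂ i) (X_ne_zero i) h

lemma homRow_of_X_pow_smul [Fintype σ] (i : σ) (K : ℕ) {r : τ → MvPolynomial σ ℂ} {n : ℕ}
    (h : HomRow (K + n) ((X i : MvPolynomial σ ℂ) ^ K • r)) : HomRow n r :=
  fun b => isHomogeneous_of_X_pow_mul i K (h b)

lemma prime_X' (i : σ) : Prime (X i : MvPolynomial σ ℂ) := by
  exact X_prime

lemma not_X_dvd_X_pow {i j : σ} (hij : i ≠ j) (K : ℕ) :
    ¬ (X i : MvPolynomial σ ℂ) ∣ X j ^ K := by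
  classical
  intro h
  have h1 := (prime_X' i).dvd_of_dvd_pow h
  obtain ⟨q, hq⟩ := h1
  have h2 := congrArg (eval (Pi.single j 1 : σ → ℂ)) hq
  rw [map_mul, eval_X, eval_X, Pi.single_eq_same, Pi.single_eq_of_ne hij, zero_mul] at h2
  exact one_ne_zero h2

/-- A polynomial vanishing off a hyperplane vanishes. -/
lemma eq_zero_of_eval {g f : MvPolynomial σ ℂ} (hg : g ≠ 0)
    (h : ∀ z, eval z g ≠ 0 → eval z f = 0) : f = 0 := by
  have h1 : g * f = 0 := by
    apply MvPolynomial.funext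
    intro z
    rw [map_mul, map_zero]
    by_cases hz : eval z g = 0
    · rw [hz, zero_mul]
    · rw [h z hz, mul_zero]
  exact (mul_eq_zero.mp h1).resolve_left hg

/-- Independence of rows over the polynomial ring. -/
lemma coeff_eq_zero_of_li {ι : Type*} [Fintype ι] (ρ : ι → τ → MvPolynomial σ ℂ)
    (a : ι → MvPolynomial σ ℂ) {g : MvPolynomial σ ℂ} (hg : g ≠ 0)
    (hli : ∀ z, eval z g ≠ 0 → LinearIndependent ℂ (fun i => rowEval z (ρ i)))
    (h : ∑ i, a i • ρ i = 0) : ∀ i, a i = 0 := by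
  intro i
  refine eq_zero_of_eval hg (fun z hz => ?_)
  have h1 := congrArg (rowEval z) h
  rw [rowEval_sum, rowEval_zero] at h1
  simp only [rowEval_smul] at h1
  exact Fintype.linearIndependent_iff.mp (hli z hz) _ h1 i

/-- Hartogs: membership in a free module outside codimension two. -/
lemma mem_span_of_two {ι : Type*} [Fintype ι] (ρ : ι → τ → MvPolynomial σ ℂ)
    {i j : σ} (hij : i ≠ j)
    (hli : ∀ z, eval z (X i : MvPolynomial σ ℂ) ≠ 0 →
      LinearIndependent ℂ (fun i => rowEval z (ρ i)))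
    (r : τ → MvPolynomial σ ℂ) {K K' : ℕ}
    (h1 : (X i : MvPolynomial σ ℂ) ^ K • r ∈
      Submodule.span (MvPolynomial σ ℂ) (Set.range ρ))
    (h2 : (X j : MvPolynomial σ ℂ) ^ K' • r ∈
      Submodule.span (MvPolynomial σ ℂ) (Set.range ρ)) :
    r ∈ Submodule.span (MvPolynomial σ ℂ) (Set.range ρ) := by
  obtain ⟨P, hP⟩ := (Submodule.mem_span_range_iff_exists_fun _).mp h1
  obtain ⟨Q, hQ⟩ := (Submodule.mem_span_range_iff_exists_fun _).mp h2
  have h3 : ∑ l, (X j ^ K' * P l - X i ^ K * Q l) • ρ l = 0 := by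
    simp only [sub_smul, Finset.sum_sub_distrib, mul_smul, ← Finset.smul_sum]
    rw [hP, hQ, ← mul_smul, ← mul_smul, mul_comm, sub_self]
  have h4 := coeff_eq_zero_of_li ρ _ (X_ne_zero i) hli h3
  have h5 : ∀ l, (X i : MvPolynomial σ ℂ) ^ K ∣ P l := by
    intro l
    refine (prime_X' i).pow_dvd_of_dvd_mul_left K (not_X_dvd_X_pow hij K') ?_
    rw [sub_eq_zero.mp (h4 l)]
    exact dvd_mul_right _ _
  choose P' hP' using h5
  have h6 : r = ∑ l, P' l • ρ l := by
    have h7 : (X i : MvPolynomial σ ℂ) ^ K • r = (X i : MvPolynomial σ ℂ) ^ K •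
        ∑ l, P' l • ρ l := by
      rw [← hP, Finset.smul_sum]
      refine Finset.sum_congr rfl (fun l _ => ?_)
      rw [hP' l, mul_smul]
    funext b
    have h8 := congrFun h7 b
    exact mul_left_cancel₀ (pow_ne_zero K (X_ne_zero i)) h8
  rw [h6]
  exact Submodule.sum_mem _ (fun l _ => Submodule.smul_mem _ _ (Submodule.subset_span ⟨l, rfl⟩))

/-- Division of rows. -/
lemma exists_row_div {i j : σ} (hij : i ≠ j) {A B : τ → MvPolynomial σ ℂ} {K K' : ℕ}
    (h : (X j : MvPolynomial σ ℂ) ^ K' • A = (X i : MvPolynomial σ ℂ) ^ K • B) :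
    ∃ A' : τ → MvPolynomial σ ℂ, A = (X i : MvPolynomial σ ℂ) ^ K • A' := by
  have h5 : ∀ l, (X i : MvPolynomial σ ℂ) ^ K ∣ A l := by
    intro l
    refine (prime_X' i).pow_dvd_of_dvd_mul_left K (not_X_dvd_X_pow hij K') ?_
    have h1 := congrFun h l
    rw [Pi.smul_apply, Pi.smul_apply, smul_eq_mul, smul_eq_mul] at h1
    rw [h1]
    exact dvd_mul_right _ _
  choose A' hA' using h5
  exact ⟨A', funext fun b => hA' b⟩

lemma smul_row_cancel {g : MvPolynomial σ ℂ} (hg : g ≠ 0) {r s : τ → MvPolynomial σ ℂ}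
    (h : g • r = g • s) : r = s := by
  funext b
  exact mul_left_cancel₀ hg (congrFun h b)

/-- Generating homogeneous sections form a basis. -/
lemma IsBundle.splitBasis_of_gen [Fintype τ] {c : ℕ}
    {Γ : Submodule (MvPolynomial σ ℂ) (τ → MvPolynomial σ ℂ)}
    {E : (σ → ℂ) → Submodule ℂ (τ → ℂ)} (hb : IsBundle c Γ E)
    (ψ : Fin c → τ → MvPolynomial σ ℂ) (f : Fin c → ℕ) (hhom : ∀ i, HomRow (f i) (ψ i))
    (hin : ∀ i, InE E (ψ i))
    (hgen : ∀ e r, HomRow e r → InE E r →
      r ∈ Submodule.span (MvPolynomial σ ℂ) (Set.range ψ)) : SplitBasis c E ψ f := by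
  refine ⟨hhom, hin, fun z hz => ?_, hgen⟩
  obtain ⟨w, hw, hwmem⟩ := hb.li_of_gen ψ hgen z hz
  rw [linearIndependent_iff_card_le_finrank_span, Fintype.card_fin]
  have h1 : Submodule.span ℂ (Set.range w) ≤
      Submodule.span ℂ (Set.range fun j => rowEval z (ψ j)) := by
    rw [Submodule.span_le]
    rintro _ ⟨i, rfl⟩
    exact hwmem i
  have h2 := Submodule.finrank_mono h1
  rwa [finrank_span_eq_card hw, Fintype.card_fin] at h2

lemma exists_subfamily {V ι : Type*} [AddCommGroup V] [Module ℂ V] [Fintype ι]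
    (w : ι → V) {c : ℕ} (h : Module.finrank ℂ (Submodule.span ℂ (Set.range w)) = c) :
    ∃ g : Fin c → ι, LinearIndependent ℂ (fun i => w (g i)) := by
  subst h
  have : Module.Finite ℂ (Submodule.span ℂ (Set.range w)) :=
    Module.Finite.span_of_finite ℂ (Set.finite_range w)
  obtain ⟨f, hf, -, hli⟩ := Submodule.exists_fun_fin_finrank_span_eq ℂ (Set.range w)
  choose g hg using hf
  refine ⟨g, ?_⟩
  have h1 : (fun i => w (g i)) = f := funext hg
  rw [h1]
  exact hli

end Rows

end Pool.Agent.Hartshorne
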