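import Mathlib
import Pool.Agent.Hartshorne.GenPos
import Pool.Agent.Hartshorne.Rows

/-!
Coefficients of rows of binary forms with values in a bundle on the projective line.
-/

namespace Pool.Agent.Hartshorne

open MvPolynomial

set_option linter.unusedSectionVars false

section Arr

variable {τ : Type*} [Fintype τ]

/-- The row of binary forms with given coefficients. -/
noncomputable def arr (n : ℕ) (q : Fin n × τ → ℂ) : τ → MvPolynomial (Fin 2) ℂ :=
  fun b => ∑ j : Fin n, C (q (j, b)) * (X 0 ^ (n - 1 - (j : ℕ)) * X 1 ^ (j : ℕ))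

lemma arr_apply (n : ℕ) (q : Fin n × τ → ℂ) (b : τ) : arr n q b =
    ∑ j : Fin n, C (q (j, b)) * (X 0 ^ (n - 1 - (j : ℕ)) * X 1 ^ (j : ℕ)) := rfl

lemma homRow_arr (n : ℕ) (q : Fin n × τ → ℂ) : HomRow (n - 1) (arr n q) := by
  intro b
  refine IsHomogeneous.sum _ _ _ (fun j _ => ?_)
  have h1 := ((isHomogeneous_X ℂ (0 : Fin 2)).pow (n - 1 - (j : ℕ))).mul
    ((isHomogeneous_X ℂ (1 : Fin 2)).pow (j : ℕ))
  have h2 := (isHomogeneous_C (Fin 2) (q (j, b))).mul h1
  have h3 : 0 + (1 * (n - 1 - (j : ℕ)) + 1 * (j : ℕ)) = n - 1 := by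
    have := j.2
    omega
  rwa [h3] at h2

lemma arr_zero (n : ℕ) : arr n (0 : Fin n × τ → ℂ) = 0 := by
  funext b
  simp [arr]

lemma arr_add (n : ℕ) (q q' : Fin n × τ → ℂ) : arr n (q + q') = arr n q + arr n q' := by
  funext b
  simp only [arr, Pi.add_apply, map_add, add_mul, Finset.sum_add_distrib]

lemma arr_smul (n : ℕ) (t : ℂ) (q : Fin n × τ → ℂ) :
    arr n (t • q) = (C t : MvPolynomial (Fin 2) ℂ) • arr n q := by
  funext b
  simp only [arr, Pi.smul_apply, smul_eq_mul, map_mul, Finset.mul_sum]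
  exact Finset.sum_congr rfl (fun j _ => by ring)

lemma rowEval_arr (n : ℕ) (q : Fin n × τ → ℂ) (z : Fin 2 → ℂ) :
    rowEval z (arr n q) = fun b => ∑ j : Fin n, z 0 ^ (n - 1 - (j : ℕ)) * z 1 ^ (j : ℕ) *
      q (j, b) := by
  funext b
  rw [rowEval_apply, arr_apply, map_sum]
  refine Finset.sum_congr rfl (fun j _ => ?_)
  rw [map_mul, map_mul, map_pow, map_pow, eval_C, eval_X, eval_X]
  ring

/-- A binary form is determined by its coefficients. -/
lemma binary_form {f : MvPolynomial (Fin 2) ℂ} {N : ℕ} (hf : f.IsHomogeneous N) :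
    f = ∑ j : Fin (N + 1), C (coeff (Finsupp.single 0 (N - (j : ℕ)) + Finsupp.single 1 (j : ℕ)) f) *
      (X 0 ^ (N + 1 - 1 - (j : ℕ)) * X 1 ^ (j : ℕ)) := by
  classical
  have hmon : ∀ (a b : ℕ) (c : ℂ), C c * (X 0 ^ a * X 1 ^ b) =
      monomial (Finsupp.single (0 : Fin 2) a + Finsupp.single 1 b) c := by
    intro a b c
    rw [monomial_eq, Finsupp.prod_add_index' (by simp) (by intros; rw [pow_add]),
      Finsupp.prod_single_index (by simp), Finsupp.prod_single_index (by simp)]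
  ext s
  rw [coeff_sum]
  have hs : s = Finsupp.single 0 (s 0) + Finsupp.single 1 (s 1) := by
    ext i
    rcases fin2_cases i with rfl | rfl
    · simp
    · simp
  simp only [hmon, coeff_monomial]
  by_cases hdeg : s 0 + s 1 = N
  · have hlt : s 1 < N + 1 := by omega
    rw [Finset.sum_eq_single (⟨s 1, hlt⟩ : Fin (N + 1))]
    · have h1 : N + 1 - 1 - s 1 = s 0 := by omega
      have h2 : N - s 1 = s 0 := by omega
      simp only
      rw [h1, h2, ← hs, if_pos rfl]
    · intro j _ hj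
      rw [if_neg]
      intro h
      apply hj
      have h1 := DFunLike.congr_fun h 1
      simp at h1
      exact Fin.ext h1
    · intro h; exact absurd (Finset.mem_univ _) h
  · have h0 : coeff s f = 0 := by
      by_contra hne
      have h1 := hf hne
      rw [Finsupp.weight_apply, Finsupp.sum_fintype _ _ (by simp)] at h1
      simp only [Fin.sum_univ_two, Pi.one_apply, smul_eq_mul, mul_one] at h1
      exact hdeg h1
    rw [h0]
    symm
    refine Finset.sum_eq_zero (fun j _ => ?_)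
    rw [if_neg]
    intro h
    apply hdeg
    have h1 := DFunLike.congr_fun h 0
    have h2 := DFunLike.congr_fun h 1
    simp at h1 h2
    have := j.2
    omega

lemma exists_arr {r : τ → MvPolynomial (Fin 2) ℂ} {n : ℕ} (hn : 0 < n) (hr : HomRow (n - 1) r) :
    ∃ q : Fin n × τ → ℂ, arr n q = r := by
  obtain ⟨N, rfl⟩ := Nat.exists_eq_succ_of_ne_zero hn.ne'
  refine ⟨fun p => coeff (Finsupp.single 0 (N - (p.1 : ℕ)) + Finsupp.single 1 (p.1 : ℕ)) (r p.2),
    ?_⟩
  funext b
  exact (binary_form (hr b)).symm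

lemma pt_zero_ne : (pt 0 : Fin 2 → ℂ) ≠ 0 := by
  intro h
  exact one_ne_zero (congrFun h 0)

lemma rowEval_arr_pt (n : ℕ) (hn : 0 < n) (q : Fin n × τ → ℂ) :
    rowEval (pt 0) (arr n q) = fun b => q (⟨0, hn⟩, b) := by
  rw [rowEval_arr]
  funext b
  rw [Finset.sum_eq_single (⟨0, hn⟩ : Fin n)]
  · simp [pt]
  · intro j _ hj
    have hj0 : (j : ℕ) ≠ 0 := fun h => hj (Fin.ext h)
    simp [pt, hj0]
  · intro h; exact absurd (Finset.mem_univ _) h

/-- Shift. -/
lemma arr_shift (n m : ℕ) (hm : m < n) (q : Fin n × τ → ℂ) (q' : Fin (n - m) × τ → ℂ)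
    (hq : ∀ (j : Fin n) b, (j : ℕ) < m → q (j, b) = 0)
    (hqq' : ∀ (j : Fin (n - m)) b, q (⟨(j : ℕ) + m, by have := j.2; omega⟩, b) = q' (j, b)) :
    arr n q = (X 1 ^ m : MvPolynomial (Fin 2) ℂ) • arr (n - m) q' := by
  funext b
  rw [Pi.smul_apply, smul_eq_mul, arr_apply, arr_apply, Finset.mul_sum]
  set g : Fin (n - m) → Fin n := fun j => ⟨(j : ℕ) + m, by have := j.2; omega⟩ with hg
  have hginj : Function.Injective g := by
    intro i j hij
    have := congrArg Fin.val hij
    simp [hg] at this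
    exact Fin.ext this
  have h1 : ∑ j : Fin n, C (q (j, b)) * (X 0 ^ (n - 1 - (j : ℕ)) * X 1 ^ (j : ℕ)) =
      ∑ j ∈ Finset.univ.image g, (C (q (j, b)) * (X 0 ^ (n - 1 - (j : ℕ)) * X 1 ^ (j : ℕ)) :
        MvPolynomial (Fin 2) ℂ) := by
    symm
    refine Finset.sum_subset (Finset.subset_univ _) (fun j _ hj => ?_)
    have hjm : (j : ℕ) < m := by
      by_contra hge
      push Not at hge
      apply hj
      rw [Finset.mem_image]
      refine ⟨⟨(j : ℕ) - m, by have := j.2; omega⟩, Finset.mem_univ _, ?_⟩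
      apply Fin.ext
      simp [hg]
      omega
    rw [hq j b hjm, C_0, zero_mul]
  rw [h1, Finset.sum_image (fun i _ j _ h => hginj h)]
  refine Finset.sum_congr rfl (fun j _ => ?_)
  have h2 : q (g j, b) = q' (j, b) := hqq' j b
  have h3 : n - 1 - ((g j : Fin n) : ℕ) = n - m - 1 - (j : ℕ) := by
    simp only [hg]
    have := j.2
    omega
  have h4 : ((g j : Fin n) : ℕ) = (j : ℕ) + m := rfl
  rw [h2, h3, h4, pow_add]
  ring

end Arr

section KM

variable {τ : Type*} [Fintype τ] {c : ℕ}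

/-- Coefficient arrays of sections. -/
noncomputable def KM (E : (Fin 2 → ℂ) → Submodule ℂ (τ → ℂ)) (n : ℕ) :
    Submodule ℂ (Fin n × τ → ℂ) where
  carrier := {q | InE E (arr n q)}
  zero_mem' := by
    show InE E (arr n 0)
    rw [arr_zero]; exact inE_zero
  add_mem' := by
    intro x y hx hy
    show InE E (arr n (x + y))
    rw [arr_add]; exact hx.add hy
  smul_mem' := by
    intro t x hx
    show InE E (arr n (t • x))
    rw [arr_smul]; exact hx.smul _

lemma mem_KM {E : (Fin 2 → ℂ) → Submodule ℂ (τ → ℂ)} {n : ℕ} {q : Fin n × τ → ℂ} :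
    q ∈ KM E n ↔ InE E (arr n q) := Iff.rfl

/-- Values at the first point of the sections of degree `e`. -/
noncomputable def Wsp (E : (Fin 2 → ℂ) → Submodule ℂ (τ → ℂ)) (e : ℕ) : Submodule ℂ (τ → ℂ) where
  carrier := {w | ∃ r, HomRow e r ∧ InE E r ∧ rowEval (pt 0) r = w}
  zero_mem' := ⟨0, homRow_zero e, inE_zero, rowEval_zero _⟩
  add_mem' := by
    rintro _ _ ⟨r, hr, hrE, rfl⟩ ⟨s, hs, hsE, rfl⟩
    exact ⟨r + s, hr.add hs, hrE.add hsE, rowEval_add _ _ _⟩
  smul_mem' := by
    rintro t _ ⟨r, hr, hrE, rfl⟩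
    refine ⟨(C t : MvPolynomial (Fin 2) ℂ) • r, ?_, hrE.smul _, ?_⟩
    · have h := HomRow.smul (isHomogeneous_C (Fin 2) t) hr
      rwa [zero_add] at h
    · rw [rowEval_smul, eval_C]

lemma mem_Wsp {E : (Fin 2 → ℂ) → Submodule ℂ (τ → ℂ)} {e : ℕ} {w : τ → ℂ} :
    w ∈ Wsp E e ↔ ∃ r, HomRow e r ∧ InE E r ∧ rowEval (pt 0) r = w := Iff.rfl

lemma Wsp_le (E : (Fin 2 → ℂ) → Submodule ℂ (τ → ℂ)) (e : ℕ) : Wsp E e ≤ E (pt 0) := by
  rintro _ ⟨r, -, hrE, rfl⟩
  exact hrE _ pt_zero_ne

variable {Γ : Submodule (MvPolynomial (Fin 2) ℂ) (τ → MvPolynomial (Fin 2) ℂ)}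
  {E : (Fin 2 → ℂ) → Submodule ℂ (τ → ℂ)}

lemma KM_lead (hb : IsBundle c Γ E) {n m : ℕ} (hm : m < n) {q : Fin n × τ → ℂ} (hq : q ∈ KM E n)
    (h0 : ∀ (j : Fin n) b, (j : ℕ) < m → q (j, b) = 0) :
    (fun b => q (⟨m, hm⟩, b)) ∈ Wsp E (n - 1 - m) := by
  set q' : Fin (n - m) × τ → ℂ := fun p => q (⟨(p.1 : ℕ) + m, by have := p.1.2; omega⟩, p.2)
    with hq'
  have h1 := arr_shift n m hm q q' h0 (fun j b => rfl)
  rw [mem_KM, h1] at hq
  have h2 : InE E (arr (n - m) q') := hb.of_smul (pow_ne_zero m (X_ne_zero 1)) hq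
  refine ⟨arr (n - m) q', ?_, h2, ?_⟩
  · have h3 := homRow_arr (n - m) q'
    have h4 : n - m - 1 = n - 1 - m := by omega
    rwa [h4] at h3
  · rw [rowEval_arr_pt _ (by omega)]
    funext b
    simp only [hq']
    congr 2
    apply Fin.ext
    simp

lemma KM_of_Wsp {n m : ℕ} (hm : m < n) {w : τ → ℂ} (hw : w ∈ Wsp E (n - 1 - m)) :
    ∃ q ∈ KM E n, (∀ (j : Fin n) b, (j : ℕ) < m → q (j, b) = 0) ∧
      ∀ b, q (⟨m, hm⟩, b) = w b := by
  obtain ⟨r, hr, hrE, hrw⟩ := hw
  have h4 : n - 1 - m = n - m - 1 := by omega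
  rw [h4] at hr
  obtain ⟨q', rfl⟩ := exists_arr (by omega) hr
  set q : Fin n × τ → ℂ := fun p => if h : (p.1 : ℕ) < m then 0 else
    q' (⟨(p.1 : ℕ) - m, by have := p.1.2; omega⟩, p.2) with hq
  have h0 : ∀ (j : Fin n) b, (j : ℕ) < m → q (j, b) = 0 := by
    intro j b hj
    simp only [hq]
    rw [dif_pos hj]
  have h1 : ∀ (j : Fin (n - m)) b, q (⟨(j : ℕ) + m, by have := j.2; omega⟩, b) = q' (j, b) := by
    intro j b
    simp only [hq]
    rw [dif_neg (by omega)]
    congr 2
    apply Fin.ext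
    simp
  refine ⟨q, ?_, h0, ?_⟩
  · rw [mem_KM, arr_shift n m hm q q' h0 h1]
    exact hrE.smul _
  · intro b
    rw [← hrw, rowEval_arr_pt _ (by omega)]
    have h2 := h1 ⟨0, by omega⟩ b
    simp only
    rw [← h2]
    congr 2
    apply Fin.ext
    simp

/-- Truncated coefficient arrays. -/
noncomputable def Hm (E : (Fin 2 → ℂ) → Submodule ℂ (τ → ℂ)) (T : Fin c → τ) (n m : ℕ)
    (hm : m ≤ n) : Submodule ℂ (Fin m × Fin c → ℂ) :=
  (KM E n).map (LinearMap.funLeft ℂ ℂ (fun p => (Fin.castLE hm p.1, T p.2)))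

variable (T : Fin c → τ)

/-- Vanishing of the leading coefficients. -/
lemma KM_vanish (hb : IsBundle c Γ E)
    (hT : ∀ w ∈ E (pt 0), (∀ l, w (T l) = 0) → w = 0) {n m : ℕ} (hm : m ≤ n)
    {q : Fin n × τ → ℂ} (hq : q ∈ KM E n)
    (h0 : ∀ (j : Fin n) l, (j : ℕ) < m → q (j, T l) = 0) :
    ∀ (j : Fin n) b, (j : ℕ) < m → q (j, b) = 0 := by
  have key : ∀ k ≤ m, ∀ (j : Fin n) b, (j : ℕ) < k → q (j, b) = 0 := by
    intro k
    induction k with
    | zero => intro _ j b hj; omega
    | succ k ih =>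
      intro hk j b hj
      by_cases hjk : (j : ℕ) < k
      · exact ih (by omega) j b hjk
      have hj' : (j : ℕ) = k := by omega
      have hkn : k < n := by omega
      have h1 := KM_lead hb hkn hq (ih (by omega))
      have h2 := Wsp_le _ _ h1
      have h3 := hT _ h2 (fun l => by
        exact h0 ⟨k, hkn⟩ l (by simp only; omega))
      have h4 := congrFun h3 b
      have h5 : j = ⟨k, hkn⟩ := Fin.ext hj'
      rw [h5]
      exact h4
  exact key m le_rfl

/-- The dimension of the truncated arrays. -/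
theorem finrank_Hm (hb : IsBundle c Γ E)
    (hT : ∀ w ∈ E (pt 0), (∀ l, w (T l) = 0) → w = 0) {n : ℕ} (m : ℕ) (hm : m ≤ n) :
    Module.finrank ℂ (Hm E T n m hm) =
      ∑ j ∈ Finset.range m, Module.finrank ℂ (Wsp E (n - 1 - j)) := by
  induction m with
  | zero =>
    rw [Finset.sum_range_zero]
    have h1 : Hm E T n 0 hm = ⊥ := by
      rw [eq_bot_iff]
      intro x _
      rw [Submodule.mem_bot]
      funext p
      exact p.1.elim0
    rw [h1, finrank_bot]
  | succ m ih =>
    rw [Finset.sum_range_succ, ← ih (by omega)]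
    set R : (Fin (m + 1) × Fin c → ℂ) →ₗ[ℂ] (Fin m × Fin c → ℂ) :=
      LinearMap.funLeft ℂ ℂ (fun p => (Fin.castSucc p.1, p.2)) with hR
    have h1 := LinearMap.finrank_range_add_finrank_ker (R.domRestrict (Hm E T n (m + 1) hm))
    have h2 : LinearMap.range (R.domRestrict (Hm E T n (m + 1) hm)) = Hm E T n m (by omega) := by
      rw [LinearMap.range_domRestrict, Hm, ← Submodule.map_comp]
      rfl
    rw [h2] at h1
    rw [← h1]
    congr 1
    -- the kernel
    have hmn : m < n := by omega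
    set φ : Wsp E (n - 1 - m) →ₗ[ℂ] (Fin (m + 1) × Fin c → ℂ) :=
      { toFun := fun w p => if p.1 = Fin.last m then (w : τ → ℂ) (T p.2) else 0
        map_add' := by
          intro x y; funext p
          by_cases h : p.1 = Fin.last m
          · simp [h]
          · simp [h]
        map_smul' := by
          intro t x; funext p
          by_cases h : p.1 = Fin.last m
          · simp [h]
          · simp [h] } with hφ
    have hφa : ∀ (w : Wsp E (n - 1 - m)) (p : Fin (m + 1) × Fin c), φ w p =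
        if p.1 = Fin.last m then (w : τ → ℂ) (T p.2) else 0 := fun w p => rfl
    have hφmem : ∀ w, φ w ∈ Hm E T n (m + 1) hm := by
      intro w
      obtain ⟨q, hq, hq0, hqw⟩ := KM_of_Wsp hmn w.2
      refine ⟨q, hq, ?_⟩
      funext p
      rw [LinearMap.funLeft_apply, hφa]
      by_cases hp : p.1 = Fin.last m
      · rw [if_pos hp, ← hqw]
        congr 2
        apply Fin.ext
        rw [hp]
        rfl
      · rw [if_neg hp]
        apply hq0
        have h3 : (p.1 : ℕ) < m := Fin.val_lt_last hp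
        exact h3
    set φ' : Wsp E (n - 1 - m) →ₗ[ℂ] Hm E T n (m + 1) hm := φ.codRestrict _ hφmem with hφ'
    have hφ'k : ∀ w, φ' w ∈ LinearMap.ker (R.domRestrict (Hm E T n (m + 1) hm)) := by
      intro w
      rw [LinearMap.mem_ker]
      funext p
      have h3 : (R.domRestrict (Hm E T n (m + 1) hm)) (φ' w) p = φ w (Fin.castSucc p.1, p.2) := rfl
      rw [h3, hφa, if_neg (Fin.castSucc_lt_last _).ne]
      rfl
    have hinj : Function.Injective (φ'.codRestrict _ hφ'k) := by
      rw [injective_iff_map_eq_zero]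
      intro w hw
      have h3 : φ w = 0 := congrArg Subtype.val (congrArg Subtype.val hw)
      apply Subtype.ext
      apply hT _ (Wsp_le _ _ w.2)
      intro l
      have h4 := congrFun h3 (Fin.last m, l)
      rw [hφa, if_pos rfl] at h4
      exact h4
    have hsurj : Function.Surjective (φ'.codRestrict _ hφ'k) := by
      rintro ⟨⟨x, hx⟩, hxk⟩
      obtain ⟨q, hq, hqx⟩ := hx
      have hx0 : ∀ (j : Fin m) l, x (Fin.castSucc j, l) = 0 := by
        intro j l
        have h3 := congrFun (LinearMap.mem_ker.mp hxk) (j, l)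
        exact h3
      have hq0 : ∀ (j : Fin n) b, (j : ℕ) < m → q (j, b) = 0 := by
        apply KM_vanish T hb hT (by omega) hq
        intro j l hj
        have h3 := hx0 ⟨j, hj⟩ l
        rw [← hqx] at h3
        exact h3
      have hw := KM_lead hb hmn hq hq0
      refine ⟨⟨_, hw⟩, ?_⟩
      apply Subtype.ext
      apply Subtype.ext
      show φ ⟨_, hw⟩ = x
      funext p
      rw [hφa]
      by_cases hp : p.1 = Fin.last m
      · rw [if_pos hp, ← hqx, LinearMap.funLeft_apply]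
        simp only
        congr 2
        apply Fin.ext
        rw [hp]
        rfl
      · rw [if_neg hp]
        have h3 : (p.1 : ℕ) < m := Fin.val_lt_last hp
        have h4 := hx0 ⟨p.1, h3⟩ p.2
        exact h4.symm
    exact (LinearEquiv.ofBijective _ ⟨hinj, hsurj⟩).finrank_eq.symm

/-- The dimension of the spaces of values. -/
theorem finrank_Wsp {ψ : Fin c → τ → MvPolynomial (Fin 2) ℂ} {f : Fin c → ℕ}
    (hψ : SplitBasis c E ψ f) (e : ℕ) :
    Module.finrank ℂ (Wsp E e) = (Finset.univ.filter (fun k => f k ≤ e)).card := by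
  classical
  obtain ⟨hhom, hin, hli, hgen⟩ := hψ
  have h1 : Wsp E e = Submodule.span ℂ (Set.range fun k : {k // f k ≤ e} =>
      rowEval (pt 0) (ψ k)) := by
    apply le_antisymm
    · rintro _ ⟨r, hr, hrE, rfl⟩
      obtain ⟨a, ha, ha0, hsum⟩ := exists_homog_coeffs hr ψ f hhom (hgen e r hr hrE)
      rw [← hsum, rowEval_sum]
      refine Submodule.sum_mem _ (fun k _ => ?_)
      rw [rowEval_smul]
      by_cases hk : f k ≤ e
      · exact Submodule.smul_mem _ _ (Submodule.subset_span ⟨⟨k, hk⟩, rfl⟩)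
      · rw [ha0 k (by omega), map_zero, zero_smul]
        exact Submodule.zero_mem _
    · rw [Submodule.span_le]
      rintro _ ⟨⟨k, hk⟩, rfl⟩
      refine ⟨(X 0 ^ (e - f k) : MvPolynomial (Fin 2) ℂ) • ψ k, ?_, (hin k).smul _, ?_⟩
      · have h2 := HomRow.smul ((isHomogeneous_X ℂ (0 : Fin 2)).pow (e - f k)) (hhom k)
        rwa [one_mul, Nat.sub_add_cancel hk] at h2
      · rw [rowEval_smul, map_pow, eval_X]
        simp [pt]
  have h2 : LinearIndependent ℂ (fun k : {k // f k ≤ e} => rowEval (pt 0) (ψ k)) :=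
    (hli _ pt_zero_ne).comp _ Subtype.val_injective
  rw [h1, finrank_span_eq_card h2, Fintype.card_subtype]

end KM

end Pool.Agent.Hartshorne
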