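import Mathlib
import Pool.Agent.Hartshorne.Arr

/-!
Independence of the coefficients of a splitting basis along a free line.
-/

namespace Pool.Agent.Hartshorne

open MvPolynomial

set_option linter.unusedSectionVars false

section Dual

variable {τ : Type*} [Fintype τ]

/-- A vector orthogonal to the orthogonal complement of a family lies in its span. -/
lemma mem_span_of_orth {ι : Type*} (v : ι → (τ → ℂ)) (w : τ → ℂ)
    (h : ∀ a : τ → ℂ, (∀ i, v i ⬝ᵥ a = 0) → w ⬝ᵥ a = 0) :
    w ∈ Submodule.span ℂ (Set.range v) := by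
  classical
  by_contra hw
  obtain ⟨φ, hφ, hker⟩ := Submodule.exists_le_ker_of_notMem hw
  have hdot : ∀ x : τ → ℂ, φ x = x ⬝ᵥ fun b => φ (Pi.single b 1) := by
    intro x
    rw [LinearMap.pi_apply_eq_sum_univ φ x, dotProduct]
    refine Finset.sum_congr rfl (fun b _ => ?_)
    rw [smul_eq_mul]
    congr 2
    funext j
    rw [Pi.single_apply]
    simp only [eq_comm]
  apply hφ
  rw [hdot]
  apply h
  intro i
  rw [← hdot]
  exact hker (Submodule.subset_span ⟨i, rfl⟩)

end Dual

section Dep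

variable {τ : Type*} [Fintype τ] {c : ℕ}

lemma poly_coeff_zero {n : ℕ} (a : Fin n → ℂ) (h : ∀ t : ℂ, ∑ j : Fin n, t ^ (j : ℕ) * a j = 0) :
    a = 0 := by
  have h1 : (∑ j : Fin n, Polynomial.monomial (j : ℕ) (a j) : Polynomial ℂ) = 0 := by
    apply Polynomial.funext
    intro t
    rw [Polynomial.eval_finsetSum, Polynomial.eval_zero, ← h t]
    refine Finset.sum_congr rfl (fun j _ => ?_)
    rw [Polynomial.eval_monomial, mul_comm]
  funext j
  have h2 := congrArg (fun p => Polynomial.coeff p (j : ℕ)) h1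
  simp only [Polynomial.finsetSum_coeff, Polynomial.coeff_monomial, Polynomial.coeff_zero] at h2
  rw [Finset.sum_eq_single j] at h2
  · simpa using h2
  · intro i _ hi
    rw [if_neg]
    intro h3
    exact hi (Fin.ext h3)
  · intro h3
    exact absurd (Finset.mem_univ _) h3

/-- Relations between the coefficients given by a first order deformation of the line. -/
lemma dot_rel {f : ℕ} (q : Fin (f + 1) × τ → ℂ) (a b : τ → ℂ)
    (h : ∀ z : Fin 2 → ℂ, rowEval z (arr (f + 1) q) ⬝ᵥ (z 0 • a + z 1 • b) = 0) :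
    (fun β => q (Fin.last f, β)) ⬝ᵥ b = 0 ∧
      ∀ j : Fin f, (fun β => q (j.succ, β)) ⬝ᵥ a + (fun β => q (j.castSucc, β)) ⬝ᵥ b = 0 := by
  have h1 : ∀ t : ℂ, ∑ j : Fin (f + 1 + 1), t ^ (j : ℕ) *
      ((Fin.cons (α := fun _ => ℂ) ((fun β => q (0, β)) ⬝ᵥ a)
        (fun j : Fin (f + 1) => (fun β => q (j, β)) ⬝ᵥ b) : Fin (f + 1 + 1) → ℂ) j +
      (Fin.snoc (α := fun _ => ℂ) (fun j : Fin (f + 1) => if j = 0 then 0 else
        (fun β => q (j, β)) ⬝ᵥ a) 0 : Fin (f + 1 + 1) → ℂ) j) = 0 := by
    intro t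
    have h2 := h ![1, t]
    rw [rowEval_arr, dotProduct_add, dotProduct_smul, dotProduct_smul] at h2
    simp only [Matrix.cons_val_zero, Matrix.cons_val_one, one_smul, one_pow, one_mul,
      smul_eq_mul] at h2
    have h3 : ∀ x : τ → ℂ, (fun β => ∑ j : Fin (f + 1), t ^ (j : ℕ) * q (j, β)) ⬝ᵥ x =
        ∑ j : Fin (f + 1), t ^ (j : ℕ) * ((fun β => q (j, β)) ⬝ᵥ x) := by
      intro x
      simp only [dotProduct, Finset.sum_mul, Finset.mul_sum]
      rw [Finset.sum_comm]
      refine Finset.sum_congr rfl (fun j _ => Finset.sum_congr rfl (fun β _ => by ring))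
    rw [h3, h3] at h2
    simp only [mul_add, Finset.sum_add_distrib]
    rw [Fin.sum_univ_succ]
    conv_lhs =>
      rw [Fin.sum_univ_castSucc (f := fun j : Fin (f + 1 + 1) => t ^ (j : ℕ) *
        (Fin.snoc (α := fun _ => ℂ) (fun j : Fin (f + 1) => if j = 0 then 0 else
        (fun β => q (j, β)) ⬝ᵥ a) 0 : Fin (f + 1 + 1) → ℂ) j)]
    simp only [Fin.cons_zero, Fin.cons_succ, Fin.snoc_castSucc, Fin.snoc_last, mul_zero,
      add_zero, Fin.val_zero, pow_zero, one_mul, Fin.val_succ, Fin.val_castSucc]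
    rw [Fin.sum_univ_succ] at h2
    conv_lhs =>
      rw [Fin.sum_univ_succ (f := fun j : Fin (f + 1) => t ^ (j : ℕ) * (if j = 0 then 0 else
        (fun β => q (j, β)) ⬝ᵥ a))]
    simp only [Fin.val_zero, pow_zero, one_mul, if_true, zero_add, Fin.succ_ne_zero,
      if_false] at h2 ⊢
    rw [Finset.mul_sum] at h2
    rw [← h2]
    simp only [pow_succ]
    have h4 : ∀ j : Fin (f + 1), t ^ (j : ℕ) * t * ((fun β => q (j, β)) ⬝ᵥ b) =
        t * (t ^ (j : ℕ) * ((fun β => q (j, β)) ⬝ᵥ b)) := fun j => by ring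
    rw [Finset.sum_congr rfl (fun j _ => h4 j)]
    ring
  have h2 := poly_coeff_zero _ h1
  constructor
  · have h3 := congrFun h2 (Fin.last (f + 1))
    rw [← Fin.succ_last, Fin.cons_succ, Fin.succ_last, Fin.snoc_last] at h3
    simpa using h3
  · intro j
    have h3 := congrFun h2 j.succ.castSucc
    have h4 : (j.succ.castSucc : Fin (f + 1 + 1)) = j.castSucc.succ := by
      apply Fin.ext; simp
    rw [Fin.snoc_castSucc, h4, Fin.cons_succ] at h3
    rw [if_neg (Fin.succ_ne_zero j)] at h3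
    rw [add_comm]
    simpa using h3

/-- The shift of a family of coefficients. -/
noncomputable def shiftM (f : Fin c → ℕ) (q : ∀ i, Fin (f i + 1) × τ → ℂ)
    (g : (τ → ℂ) →ₗ[ℂ] (Fin c → ℂ)) :
    (∀ i, Fin (f i + 1) → ℂ) →ₗ[ℂ] (∀ i, Fin (f i + 1) → ℂ) where
  toFun := fun lam i => Fin.cons (α := fun _ => ℂ)
    (-(g (fun b => ∑ i, ∑ j : Fin (f i), lam i j.castSucc * q i (j.succ, b)) i))
    (fun j : Fin (f i) => lam i j.castSucc)
  map_add' := by
    intro x y
    have h1 : (fun b => ∑ i, ∑ j : Fin (f i), (x + y) i j.castSucc * q i (j.succ, b)) =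
        (fun b => ∑ i, ∑ j : Fin (f i), x i j.castSucc * q i (j.succ, b)) +
        (fun b => ∑ i, ∑ j : Fin (f i), y i j.castSucc * q i (j.succ, b)) := by
      funext b
      simp only [Pi.add_apply, add_mul, Finset.sum_add_distrib]
    funext i j
    rw [h1, map_add]
    refine Fin.cases ?_ (fun j => ?_) j
    · simp only [Pi.add_apply, Fin.cons_zero]
      ring
    · simp only [Pi.add_apply, Fin.cons_succ]
  map_smul' := by
    intro t x
    have h1 : (fun b => ∑ i, ∑ j : Fin (f i), (t • x) i j.castSucc * q i (j.succ, b)) =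
        t • (fun b => ∑ i, ∑ j : Fin (f i), x i j.castSucc * q i (j.succ, b)) := by
      funext b
      simp only [Pi.smul_apply, smul_eq_mul, Finset.mul_sum]
      refine Finset.sum_congr rfl (fun i _ => Finset.sum_congr rfl (fun j _ => by ring))
    funext i j
    rw [h1, map_smul]
    refine Fin.cases ?_ (fun j => ?_) j
    · simp only [Pi.smul_apply, Fin.cons_zero, RingHom.id_apply, smul_eq_mul]
      ring
    · simp only [Pi.smul_apply, Fin.cons_succ, RingHom.id_apply]

lemma shiftM_zero (f : Fin c → ℕ) (q : ∀ i, Fin (f i + 1) × τ → ℂ)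
    (g : (τ → ℂ) →ₗ[ℂ] (Fin c → ℂ)) (lam : ∀ i, Fin (f i + 1) → ℂ) (i : Fin c) :
    shiftM f q g lam i 0 =
      -(g (fun b => ∑ i, ∑ j : Fin (f i), lam i j.castSucc * q i (j.succ, b)) i) := rfl

lemma shiftM_succ (f : Fin c → ℕ) (q : ∀ i, Fin (f i + 1) × τ → ℂ)
    (g : (τ → ℂ) →ₗ[ℂ] (Fin c → ℂ)) (lam : ∀ i, Fin (f i + 1) → ℂ) (i : Fin c) (j : Fin (f i)) :
    shiftM f q g lam i j.succ = lam i j.castSucc := rfl

/-- **Independence of the coefficients.** Let `ψ i` be rows of binary forms, independent at every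
point, such that every vector orthogonal to all rows at the point `(1, 0)` extends to a linear
family of vectors orthogonal to all rows. Then the coefficients of the rows are linearly
independent. -/
theorem coeff_li (f : Fin c → ℕ) (q : ∀ i, Fin (f i + 1) × τ → ℂ)
    (hli : ∀ z ≠ 0, LinearIndependent ℂ (fun i => rowEval z (arr (f i + 1) (q i))))
    (hfree : ∀ a : τ → ℂ, (∀ i, rowEval (pt 0) (arr (f i + 1) (q i)) ⬝ᵥ a = 0) →
      ∃ b : τ → ℂ, ∀ (z : Fin 2 → ℂ) i,
        rowEval z (arr (f i + 1) (q i)) ⬝ᵥ (z 0 • a + z 1 • b) = 0)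
    (lam : ∀ i, Fin (f i + 1) → ℂ)
    (h0 : ∀ b, ∑ i, ∑ j : Fin (f i + 1), lam i j * q i (j, b) = 0) : lam = 0 := by
  classical
  have hpt : ∀ i, rowEval (pt 0) (arr (f i + 1) (q i)) = fun b => q i (0, b) := fun i =>
    rowEval_arr_pt (f i + 1) (Nat.succ_pos _) (q i)
  have hli0 : LinearIndependent ℂ (fun i => fun b => q i (0, b)) := by
    have h1 := hli (pt 0) pt_zero_ne
    simp only [hpt] at h1
    exact h1
  -- a left inverse
  obtain ⟨g, hg⟩ := LinearMap.exists_leftInverse_of_injective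
    (Fintype.linearCombination ℂ (fun i => fun b => q i (0, b)))
    (LinearMap.ker_eq_bot.mpr hli0.fintypeLinearCombination_injective)
  set L := shiftM f q g with hL
  -- the space of relations
  let 𝒟 : Submodule ℂ (∀ i, Fin (f i + 1) → ℂ) :=
    { carrier := {lam | ∀ b, ∑ i, ∑ j : Fin (f i + 1), lam i j * q i (j, b) = 0}
      zero_mem' := by
        intro b
        simp
      add_mem' := by
        intro x y hx hy b
        simp only [Pi.add_apply, add_mul, Finset.sum_add_distrib]
        rw [hx b, hy b, add_zero]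
      smul_mem' := by
        intro t x hx b
        simp only [Pi.smul_apply, smul_eq_mul, mul_assoc]
        have h1 : ∑ i, ∑ j : Fin (f i + 1), t * (x i j * q i (j, b)) =
            t * ∑ i, ∑ j : Fin (f i + 1), x i j * q i (j, b) := by
          rw [Finset.mul_sum]
          exact Finset.sum_congr rfl (fun i _ => (Finset.mul_sum _ _ _).symm)
        rw [h1, hx b, mul_zero] }
  have hmem : ∀ x, x ∈ 𝒟 ↔ ∀ b, ∑ i, ∑ j : Fin (f i + 1), x i j * q i (j, b) = 0 :=
    fun x => Iff.rfl
  -- the shift preserves the space of relations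
  have hs : ∀ x ∈ 𝒟, ∀ b, ∑ i, ∑ j : Fin (f i), x i j.castSucc * q i (j.succ, b) =
      ∑ i, g (fun b => ∑ i, ∑ j : Fin (f i), x i j.castSucc * q i (j.succ, b)) i *
        q i (0, b) := by
    intro x hx
    have h1 : (fun b => ∑ i, ∑ j : Fin (f i), x i j.castSucc * q i (j.succ, b)) ∈
        Submodule.span ℂ (Set.range fun i => fun b => q i (0, b)) := by
      apply mem_span_of_orth
      intro a ha
      obtain ⟨b, hb⟩ := hfree a (fun i => by rw [hpt]; exact ha i)
      have h2 := fun i => dot_rel (q i) a b (fun z => hb z i)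
      have h3 : ∑ β, (∑ i, ∑ j : Fin (f i + 1), x i j * q i (j, β)) * b β = 0 :=
        Finset.sum_eq_zero (fun β _ => by rw [hx β, zero_mul])
      have h4 : ∀ (m : ∀ i, Fin (f i + 1) × τ → ℂ) (y : τ → ℂ),
          ∑ β, (∑ i, ∑ j : Fin (f i + 1), x i j * m i (j, β)) * y β =
            ∑ i, ∑ j : Fin (f i + 1), x i j * ((fun β => m i (j, β)) ⬝ᵥ y) := by
        intro m y
        simp only [dotProduct, Finset.sum_mul, Finset.mul_sum]
        rw [Finset.sum_comm]
        refine Finset.sum_congr rfl (fun i _ => ?_)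
        rw [Finset.sum_comm]
        refine Finset.sum_congr rfl (fun j _ => Finset.sum_congr rfl (fun β _ => by ring))
      rw [h4] at h3
      have h5 : (fun b => ∑ i, ∑ j : Fin (f i), x i j.castSucc * q i (j.succ, b)) ⬝ᵥ a =
          ∑ i, ∑ j : Fin (f i), x i j.castSucc * ((fun β => q i (j.succ, β)) ⬝ᵥ a) := by
        simp only [dotProduct, Finset.sum_mul, Finset.mul_sum]
        rw [Finset.sum_comm]
        refine Finset.sum_congr rfl (fun i _ => ?_)
        rw [Finset.sum_comm]
        refine Finset.sum_congr rfl (fun j _ => Finset.sum_congr rfl (fun β _ => by ring))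
      rw [h5, ← neg_eq_zero, ← h3, ← Finset.sum_neg_distrib]
      refine Finset.sum_congr rfl (fun i _ => ?_)
      rw [Fin.sum_univ_castSucc, (h2 i).1, mul_zero, add_zero, ← Finset.sum_neg_distrib]
      refine Finset.sum_congr rfl (fun j _ => ?_)
      have h6 := (h2 i).2 j
      linear_combination -(x i j.castSucc) * h6
    obtain ⟨μ, hμ⟩ := (Submodule.mem_span_range_iff_exists_fun _).mp h1
    have h2 : g (fun b => ∑ i, ∑ j : Fin (f i), x i j.castSucc * q i (j.succ, b)) = μ := by
      rw [← hμ, ← Fintype.linearCombination_apply ℂ]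
      exact DFunLike.congr_fun hg μ
    intro b
    rw [h2]
    have h3 := congrFun hμ b
    rw [← h3, Finset.sum_apply]
    rfl
  have hpres : ∀ x ∈ 𝒟, L x ∈ 𝒟 := by
    intro x hx
    rw [hmem]
    intro b
    have h1 : ∑ i, ∑ j : Fin (f i + 1), L x i j * q i (j, b) =
        ∑ i, (-(g (fun b => ∑ i, ∑ j : Fin (f i), x i j.castSucc * q i (j.succ, b)) i) *
          q i (0, b) + ∑ j : Fin (f i), x i j.castSucc * q i (j.succ, b)) := by
      refine Finset.sum_congr rfl (fun i _ => ?_)
      rw [Fin.sum_univ_succ, hL, shiftM_zero]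
      simp only [shiftM_succ]
    rw [h1, Finset.sum_add_distrib, hs x hx b]
    simp only [neg_mul, Finset.sum_neg_distrib, neg_add_cancel]
  by_contra hne
  have hnt : Nontrivial 𝒟 := by
    refine ⟨⟨⟨lam, h0⟩, 0, ?_⟩⟩
    intro h1
    exact hne (congrArg Subtype.val h1)
  obtain ⟨κ, hκ⟩ := Module.End.exists_eigenvalue (L.restrict hpres)
  obtain ⟨⟨x, hx⟩, hxe⟩ := hκ.exists_hasEigenvector
  have hx0 : x ≠ 0 := by
    intro h1
    exact hxe.2 (Subtype.ext h1)
  have hLx : L x = κ • x := congrArg Subtype.val hxe.apply_eq_smul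
  have hrec : ∀ i (j : Fin (f i)), x i j.castSucc = κ * x i j.succ := by
    intro i j
    have h1 := congrFun (congrFun hLx i) j.succ
    rw [hL, shiftM_succ] at h1
    exact h1
  have hpow : ∀ i (n : ℕ) (j : Fin (f i + 1)), (j : ℕ) + n = f i →
      x i j = κ ^ n * x i (Fin.last _) := by
    intro i n
    induction n with
    | zero =>
      intro j hj
      have h1 : j = Fin.last _ := Fin.ext (by simpa using hj)
      rw [h1, pow_zero, one_mul]
    | succ n ih =>
      intro j hj
      have hjlt : (j : ℕ) < f i := by omega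
      have h1 : j = (⟨(j : ℕ), hjlt⟩ : Fin (f i)).castSucc := Fin.ext rfl
      rw [h1, hrec i ⟨(j : ℕ), hjlt⟩, ih _ (by simp; omega), pow_succ]
      ring
  have hz : (![κ, 1] : Fin 2 → ℂ) ≠ 0 := by
    intro h1
    have := congrFun h1 1
    simp at this
  have hrel : ∑ i, x i (Fin.last _) • rowEval ![κ, 1] (arr (f i + 1) (q i)) = 0 := by
    funext b
    rw [Finset.sum_apply, Pi.zero_apply, ← hx b]
    refine Finset.sum_congr rfl (fun i _ => ?_)
    rw [Pi.smul_apply, rowEval_arr, smul_eq_mul, Finset.mul_sum]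
    refine Finset.sum_congr rfl (fun j _ => ?_)
    rw [hpow i (f i - j) j (by have := j.2; omega)]
    simp only [Matrix.cons_val_zero, Matrix.cons_val_one, one_pow, mul_one]
    have h1 : f i + 1 - 1 - (j : ℕ) = f i - j := by omega
    rw [h1]
    ring
  have hlast := Fintype.linearIndependent_iff.mp (hli _ hz) _ hrel
  apply hx0
  funext i j
  rw [hpow i (f i - j) j (by have := j.2; omega), hlast i, mul_zero]
  rfl

end Dep

end Pool.Agent.Hartshorne
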