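import Mathlib
import Pool.Agent.Hartshorne.Zero

/-!
Leading forms of ideals generated by polynomials with independent linear parts.
-/

namespace Pool.Agent.Hartshorne

open MvPolynomial

section LowPart

variable {ρ : Type*} (v : ρ → ℕ)

/-- All components of degree less than `k` vanish. -/
def Low (k : ℕ) (g : MvPolynomial ρ ℂ) : Prop := ∀ j < k, weightedHomogeneousComponent v j g = 0

variable {v}

lemma low_iff_dvd {k : ℕ} {g : MvPolynomial ρ ℂ} :
    Low v k g ↔ (Polynomial.X : Polynomial (MvPolynomial ρ ℂ)) ^ k ∣ coact v g := by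
  rw [Polynomial.X_pow_dvd_iff]
  simp only [coeff_coact]
  rfl

lemma low_mul {k l : ℕ} {f g : MvPolynomial ρ ℂ} (hf : Low v k f) (hg : Low v l g) :
    Low v (k + l) (f * g) ∧ weightedHomogeneousComponent v (k + l) (f * g) =
      weightedHomogeneousComponent v k f * weightedHomogeneousComponent v l g := by
  rw [low_iff_dvd] at hf hg ⊢
  obtain ⟨p, hp⟩ := hf
  obtain ⟨q, hq⟩ := hg
  have h1 : coact v (f * g) = (p * q) * Polynomial.X ^ (k + l) := by
    rw [map_mul, hp, hq]; ring
  refine ⟨⟨p * q, by rw [h1, mul_comm]⟩, ?_⟩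
  rw [← coeff_coact, ← coeff_coact, ← coeff_coact, h1, hp, hq]
  have h2 : ((p * q) * Polynomial.X ^ (k + l)).coeff (k + l) = (p * q).coeff 0 := by
    have := Polynomial.coeff_mul_X_pow (p * q) (k + l) 0
    rwa [zero_add] at this
  have h3 : (Polynomial.X ^ k * p).coeff k = p.coeff 0 := by
    have := Polynomial.coeff_X_pow_mul p k 0
    rwa [zero_add] at this
  have h4 : (Polynomial.X ^ l * q).coeff l = q.coeff 0 := by
    have := Polynomial.coeff_X_pow_mul q l 0
    rwa [zero_add] at this
  rw [h2, h3, h4, Polynomial.mul_coeff_zero]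

lemma low_zero (g : MvPolynomial ρ ℂ) : Low v 0 g := fun j hj => absurd hj (Nat.not_lt_zero j)

lemma Low.add {k : ℕ} {f g : MvPolynomial ρ ℂ} (hf : Low v k f) (hg : Low v k g) :
    Low v k (f + g) := fun j hj => by rw [map_add, hf j hj, hg j hj, add_zero]

lemma Low.sub {k : ℕ} {f g : MvPolynomial ρ ℂ} (hf : Low v k f) (hg : Low v k g) :
    Low v k (f - g) := fun j hj => by rw [map_sub, hf j hj, hg j hj, sub_zero]

lemma Low.mono {k l : ℕ} {f : MvPolynomial ρ ℂ} (hf : Low v k f) (hl : l ≤ k) : Low v l f :=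
  fun j hj => hf j (hj.trans_le hl)

lemma low_of_zero (k : ℕ) : Low v k (0 : MvPolynomial ρ ℂ) := fun _ _ => map_zero _

lemma Low.sum {ι : Type*} {k : ℕ} (s : Finset ι) (f : ι → MvPolynomial ρ ℂ)
    (hf : ∀ i ∈ s, Low v k (f i)) : Low v k (∑ i ∈ s, f i) := fun j hj => by
  rw [map_sum]
  exact Finset.sum_eq_zero (fun i hi => hf i hi j hj)

lemma Low.mul_left {k : ℕ} {g : MvPolynomial ρ ℂ} (f : MvPolynomial ρ ℂ) (hg : Low v k g) :
    Low v k (f * g) := by
  have := (low_mul (low_zero f) hg).1
  rwa [zero_add] at this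

lemma wc_zero_mul {k : ℕ} {f g : MvPolynomial ρ ℂ} (hg : Low v k g) :
    weightedHomogeneousComponent v k (f * g) =
      weightedHomogeneousComponent v 0 f * weightedHomogeneousComponent v k g := by
  have := (low_mul (low_zero f) hg).2
  rwa [zero_add] at this

lemma wc_self {k : ℕ} {g : MvPolynomial ρ ℂ} (hg : IsWeightedHomogeneous v g k) :
    weightedHomogeneousComponent v k g = g := weightedHomogeneousComponent_eq_self hg

lemma wc_of_ne {k j : ℕ} {g : MvPolynomial ρ ℂ} (hg : IsWeightedHomogeneous v g k) (h : j ≠ k) :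
    weightedHomogeneousComponent v j g = 0 := by
  have := weightedHomogeneousComponent_of_mem (m := j)
    (hg : g ∈ weightedHomogeneousSubmodule ℂ v k)
  rw [this, if_neg h]

lemma low_of_isWeightedHomogeneous {k : ℕ} {g : MvPolynomial ρ ℂ}
    (hg : IsWeightedHomogeneous v g k) : Low v k g := fun _ hj => wc_of_ne hg hj.ne

lemma low_succ {k : ℕ} {g : MvPolynomial ρ ℂ} (h : Low v k g)
    (h' : weightedHomogeneousComponent v k g = 0) : Low v (k + 1) g := by
  intro j hj
  rcases Nat.lt_succ_iff_lt_or_eq.mp hj with h1 | h1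
  · exact h j h1
  · rw [h1]; exact h'

/-- The degree zero part as a ring homomorphism. -/
noncomputable def wcZero (v : ρ → ℕ) : MvPolynomial ρ ℂ →+* MvPolynomial ρ ℂ :=
  Polynomial.constantCoeff.comp (coact v : MvPolynomial ρ ℂ →+* Polynomial (MvPolynomial ρ ℂ))

lemma wcZero_apply (g : MvPolynomial ρ ℂ) :
    wcZero v g = weightedHomogeneousComponent v 0 g := coeff_coact v g 0

/-- The ideal of elements of positive order. -/
noncomputable def posIdeal (v : ρ → ℕ) : Ideal (MvPolynomial ρ ℂ) := RingHom.ker (wcZero v)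

lemma mem_posIdeal {g : MvPolynomial ρ ℂ} :
    g ∈ posIdeal v ↔ weightedHomogeneousComponent v 0 g = 0 := by
  rw [posIdeal, RingHom.mem_ker, wcZero_apply]

instance : (posIdeal v).IsPrime := RingHom.ker_isPrime _

lemma monomial_mem_pow (hv : ∀ i, v i ≤ 1) (s : ρ →₀ ℕ) (c : ℂ) :
    monomial s c ∈ posIdeal v ^ (Finsupp.weight v s) := by
  rw [monomial_eq]
  refine Ideal.mul_mem_left _ _ ?_
  rw [Finsupp.prod, Finsupp.weight_apply, Finsupp.sum, ← Finset.prod_pow_eq_pow_sum]
  refine Ideal.prod_mem_prod (fun i _ => ?_)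
  have h1 := hv i
  rcases Nat.le_one_iff_eq_zero_or_eq_one.mp h1 with h0 | h0
  · rw [h0]; simp
  · rw [h0, smul_eq_mul, mul_one]
    refine Ideal.pow_mem_pow ?_ _
    rw [mem_posIdeal]
    refine wc_of_ne (k := 1) ?_ (by norm_num)
    have := isWeightedHomogeneous_X ℂ v i
    rwa [h0] at this

lemma mem_pow_of_low (hv : ∀ i, v i ≤ 1) {k : ℕ} {g : MvPolynomial ρ ℂ} (hg : Low v k g) :
    g ∈ posIdeal v ^ k := by
  classical
  rw [g.as_sum]
  refine Ideal.sum_mem _ (fun s hs => ?_)
  have h1 : k ≤ Finsupp.weight v s := by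
    by_contra hlt
    push Not at hlt
    have h2 := congrArg (coeff s) (hg _ hlt)
    rw [coeff_weightedHomogeneousComponent, if_pos rfl, coeff_zero] at h2
    exact (mem_support_iff.mp hs) h2
  exact Ideal.pow_le_pow_right h1 (monomial_mem_pow hv s _)

/-- Saturation with respect to elements of order zero. -/
noncomputable def satIdeal (v : ρ → ℕ) (K : Ideal (MvPolynomial ρ ℂ)) :
    Ideal (MvPolynomial ρ ℂ) where
  carrier := {g | ∃ u, weightedHomogeneousComponent v 0 u ≠ 0 ∧ u * g ∈ K}
  zero_mem' := ⟨1, by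
    rw [← wcZero_apply, map_one]; exact one_ne_zero, by simp⟩
  add_mem' := by
    rintro a b ⟨u, hu, hua⟩ ⟨w, hw, hwb⟩
    refine ⟨u * w, ?_, ?_⟩
    · rw [← wcZero_apply, map_mul, wcZero_apply, wcZero_apply]
      exact mul_ne_zero hu hw
    · have : u * w * (a + b) = w * (u * a) + u * (w * b) := by ring
      rw [this]
      exact K.add_mem (K.mul_mem_left _ hua) (K.mul_mem_left _ hwb)
  smul_mem' := by
    rintro c a ⟨u, hu, hua⟩
    refine ⟨u, hu, ?_⟩
    have : u * (c • a) = c * (u * a) := by rw [smul_eq_mul]; ring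
    rw [this]
    exact K.mul_mem_left _ hua

lemma mem_satIdeal {K : Ideal (MvPolynomial ρ ℂ)} {g : MvPolynomial ρ ℂ} :
    g ∈ satIdeal v K ↔ ∃ u, weightedHomogeneousComponent v 0 u ≠ 0 ∧ u * g ∈ K := Iff.rfl

lemma wc_one : weightedHomogeneousComponent v 0 (1 : MvPolynomial ρ ℂ) = 1 := by
  rw [← wcZero_apply, map_one]

lemma le_satIdeal (K : Ideal (MvPolynomial ρ ℂ)) : K ≤ satIdeal v K := fun g hg =>
  ⟨1, by rw [wc_one]; exact one_ne_zero, by rwa [one_mul]⟩

lemma satIdeal_mono {K K' : Ideal (MvPolynomial ρ ℂ)} (h : K ≤ K') :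
    satIdeal v K ≤ satIdeal v K' := fun _ ⟨u, hu, hug⟩ => ⟨u, hu, h hug⟩

lemma satIdeal_le {K J : Ideal (MvPolynomial ρ ℂ)} (hJ : J.IsPrime) (hJq : J ≤ posIdeal v)
    (h : K ≤ J) : satIdeal v K ≤ J := by
  rintro g ⟨u, hu, hug⟩
  refine (hJ.mem_or_mem (h hug)).resolve_left (fun hu' => ?_)
  exact hu (mem_posIdeal.mp (hJq hu'))

/-- Krull intersection. -/
lemma mem_satIdeal_of_forall [Finite ρ] (hv : ∀ i, v i ≤ 1) (K : Ideal (MvPolynomial ρ ℂ))
    (a : MvPolynomial ρ ℂ)
    (h : ∀ k, ∃ u, weightedHomogeneousComponent v 0 u ≠ 0 ∧ ∃ a' ∈ K, Low v k (u * a - a')) :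
    a ∈ satIdeal v K := by
  classical
  set q := posIdeal v with hq
  set B := Localization.AtPrime q with hB
  set KB := K.map (algebraMap (MvPolynomial ρ ℂ) B) with hKB
  have key : Submodule.Quotient.mk (p := KB) (algebraMap (MvPolynomial ρ ℂ) B a) = 0 := by
    have hinf := Ideal.iInf_pow_smul_eq_bot_of_isLocalRing (M := B ⧸ KB)
      (IsLocalRing.maximalIdeal B) (IsLocalRing.maximalIdeal.isMaximal B).ne_top
    rw [← Submodule.mem_bot (R := B), ← hinf, Submodule.mem_iInf]
    intro k
    obtain ⟨u, hu, a', ha', hlow⟩ := h k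
    have h1 := mem_pow_of_low hv hlow
    have h2 : algebraMap (MvPolynomial ρ ℂ) B (u * a - a') ∈ IsLocalRing.maximalIdeal B ^ k := by
      have h3 := Ideal.mem_map_of_mem (algebraMap (MvPolynomial ρ ℂ) B) h1
      rwa [Ideal.map_pow, Localization.AtPrime.map_eq_maximalIdeal] at h3
    have huq : u ∈ q.primeCompl := fun h4 => hu (mem_posIdeal.mp h4)
    have hunit : IsUnit (algebraMap (MvPolynomial ρ ℂ) B u) :=
      IsLocalization.map_units B (⟨u, huq⟩ : q.primeCompl)
    obtain ⟨w, hw⟩ := hunit.exists_left_inv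
    have h5 : algebraMap (MvPolynomial ρ ℂ) B a =
        w * algebraMap (MvPolynomial ρ ℂ) B (u * a - a') +
        w * algebraMap (MvPolynomial ρ ℂ) B a' := by
      rw [map_sub, map_mul, mul_sub, ← mul_assoc, hw]; ring
    have h6 : Submodule.Quotient.mk (p := KB) (algebraMap (MvPolynomial ρ ℂ) B a) =
        (w * algebraMap (MvPolynomial ρ ℂ) B (u * a - a')) •
          (Submodule.Quotient.mk (p := KB) (1 : B)) := by
      rw [← Submodule.Quotient.mk_smul, Submodule.Quotient.eq, h5, smul_eq_mul, mul_one,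
        add_sub_cancel_left]
      exact KB.mul_mem_left _ (Ideal.mem_map_of_mem _ ha')
    rw [h6]
    exact Submodule.smul_mem_smul (Ideal.mul_mem_left _ _ h2) Submodule.mem_top
  rw [Submodule.Quotient.mk_eq_zero, hKB,
    IsLocalization.algebraMap_mem_map_algebraMap_iff q.primeCompl] at key
  obtain ⟨m, hm, hma⟩ := key
  exact ⟨m, fun h0 => hm (mem_posIdeal.mpr h0), hma⟩

/-- The relation between an ideal `K` and an ideal `L` containing its leading forms. -/
structure Stage (v : ρ → ℕ) (K L : Ideal (MvPolynomial ρ ℂ)) : Prop where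
  prime : L.IsPrime
  deg : ∀ g ∈ L, IsWeightedHomogeneous v g 0 → g = 0
  gen : ∀ k, ∀ g ∈ L, IsWeightedHomogeneous v g k → ∃ u, u ≠ 0 ∧ IsWeightedHomogeneous v u 0 ∧
    ∃ b ∈ K, Low v k b ∧ weightedHomogeneousComponent v k b = u * g
  lead : ∀ g ∈ satIdeal v K, ∀ k, Low v k g → weightedHomogeneousComponent v k g ∈ L

lemma exists_good [Finite ρ] (hv : ∀ i, v i ≤ 1) {K L : Ideal (MvPolynomial ρ ℂ)}
    (hgen : ∀ k, ∀ g ∈ L, IsWeightedHomogeneous v g k → ∃ u, u ≠ 0 ∧
      IsWeightedHomogeneous v u 0 ∧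
      ∃ b ∈ K, Low v k b ∧ weightedHomogeneousComponent v k b = u * g)
    {a : MvPolynomial ρ ℂ} (ha : a ∉ satIdeal v K) :
    ∃ k u, weightedHomogeneousComponent v 0 u ≠ 0 ∧ ∃ a' ∈ K, Low v k (u * a - a') ∧
      weightedHomogeneousComponent v k (u * a - a') ∉ L := by
  by_contra hcon
  push Not at hcon
  apply ha
  apply mem_satIdeal_of_forall hv
  intro k
  induction k with
  | zero => exact ⟨1, by rw [wc_one]; exact one_ne_zero, 0, K.zero_mem, low_zero _⟩
  | succ k ih =>
    obtain ⟨u, hu, a', ha', hlow⟩ := ih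
    have h1 := hcon k u hu a' ha' hlow
    obtain ⟨w, hw, hw0, b, hb, hblow, hbk⟩ := hgen k _ h1
      (weightedHomogeneousComponent_isWeightedHomogeneous _ _)
    refine ⟨w * u, ?_, w * a' + b, K.add_mem (K.mul_mem_left _ ha') hb, ?_⟩
    · rw [← wcZero_apply, map_mul, wcZero_apply, wcZero_apply, wc_self hw0]
      exact mul_ne_zero hw hu
    · have h2 : w * u * a - (w * a' + b) = w * (u * a - a') - b := by ring
      rw [h2]
      apply low_succ ((hlow.mul_left w).sub hblow)
      rw [map_sub, wc_zero_mul hlow, wc_self hw0, hbk, sub_self]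

lemma Stage.satPrime [Finite ρ] (hv : ∀ i, v i ≤ 1) {K L : Ideal (MvPolynomial ρ ℂ)}
    (h : Stage v K L) : (satIdeal v K).IsPrime := by
  constructor
  · intro htop
    have h1 := h.lead 1 (by rw [htop]; exact Submodule.mem_top) 0 (low_zero _)
    rw [wc_one] at h1
    exact h.prime.ne_top ((Ideal.eq_top_iff_one _).mpr h1)
  · intro a b hab
    by_contra hcon
    push Not at hcon
    obtain ⟨k, u, hu, a', ha', hlow, hnot⟩ := exists_good hv h.gen hcon.1
    obtain ⟨l, w, hw, b', hb', hlow', hnot'⟩ := exists_good hv h.gen hcon.2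
    have h1 := low_mul hlow hlow'
    have h2 : (u * a - a') * (w * b - b') ∈ satIdeal v K := by
      have h3 : (u * a - a') * (w * b - b') =
          (u * w) * (a * b) - (u * a * b' + a' * (w * b - b')) := by ring
      rw [h3]
      refine Ideal.sub_mem _ (Ideal.mul_mem_left _ _ hab) (le_satIdeal _ ?_)
      exact K.add_mem (K.mul_mem_left _ hb') (K.mul_mem_right _ ha')
    have h3 := h.lead _ h2 _ h1.1
    rw [h1.2] at h3
    rcases h.prime.mem_or_mem h3 with h4 | h4
    · exact hnot h4
    · exact hnot' h4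

lemma Stage.step_lead [Finite ρ] (hv : ∀ i, v i ≤ 1) {K L K' L' : Ideal (MvPolynomial ρ ℂ)}
    (h : Stage v K L) (F : MvPolynomial ρ ℂ) (hF : weightedHomogeneousComponent v 0 F = 0)
    (hFL : weightedHomogeneousComponent v 1 F ∉ L) (hFL' : weightedHomogeneousComponent v 1 F ∈ L')
    (hK' : K' ≤ K ⊔ Ideal.span {F}) (hLL' : L ≤ L') (hL' : L'.IsPrime)
    (hdeg : ∀ g ∈ L', IsWeightedHomogeneous v g 0 → g = 0) :
    ∀ g ∈ satIdeal v K', ∀ k, Low v k g → weightedHomogeneousComponent v k g ∈ L' := by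
  intro g hg k hk
  obtain ⟨u, hu, hug⟩ := hg
  obtain ⟨b, hb, c, hc, hbc⟩ := Submodule.mem_sup.mp (hK' hug)
  obtain ⟨a, rfl⟩ := Ideal.mem_span_singleton'.mp hc
  by_cases ha : a ∈ satIdeal v K
  · obtain ⟨u', hu', hua⟩ := ha
    have hg' : g ∈ satIdeal v K := by
      refine ⟨u' * u, ?_, ?_⟩
      · rw [← wcZero_apply, map_mul, wcZero_apply, wcZero_apply]
        exact mul_ne_zero hu' hu
      · have h1 : u' * u * g = u' * b + (u' * a) * F := by rw [mul_assoc, ← hbc]; ring
        rw [h1]
        exact K.add_mem (K.mul_mem_left _ hb) (K.mul_mem_right _ hua)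
    exact hLL' (h.lead g hg' k hk)
  · obtain ⟨l, u', hu', a', ha', hlow, hnot⟩ := exists_good hv h.gen ha
    have hFlow : Low v 1 F := by
      intro j hj
      rw [Nat.lt_one_iff.mp hj]; exact hF
    set b' := u' * b + a' * F with hb'
    have hb'K : b' ∈ K := K.add_mem (K.mul_mem_left _ hb) (K.mul_mem_right _ ha')
    set w := u' * u with hw
    have hw0 : weightedHomogeneousComponent v 0 w ≠ 0 := by
      rw [hw, ← wcZero_apply, map_mul, wcZero_apply, wcZero_apply]
      exact mul_ne_zero hu' hu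
    have heq : w * g = b' + (u' * a - a') * F := by
      rw [hw, hb', mul_assoc, ← hbc]; ring
    have hm := low_mul hlow hFlow
    have hwg : Low v k (w * g) := hk.mul_left w
    have hwgk : weightedHomogeneousComponent v k (w * g) =
        weightedHomogeneousComponent v 0 w * weightedHomogeneousComponent v k g := wc_zero_mul hk
    have hb'eq : b' = w * g - (u' * a - a') * F := by rw [heq]; ring
    have hgoal : weightedHomogeneousComponent v k (w * g) ∈ L' := by
      rcases Nat.lt_or_ge l k with hlk | hlk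
      · have hlow1 : Low v (l + 1) (w * g) := hwg.mono hlk
        have hb'low : Low v (l + 1) b' := by
          rw [hb'eq]; exact hlow1.sub hm.1
        have h1 := h.lead b' (le_satIdeal _ hb'K) _ hb'low
        have h2 : weightedHomogeneousComponent v (l + 1) (w * g) =
            weightedHomogeneousComponent v (l + 1) b' +
            weightedHomogeneousComponent v (l + 1) ((u' * a - a') * F) := by
          rw [heq, map_add]
        rcases Nat.lt_or_ge (l + 1) k with hlk' | hlk'
        · exfalso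
          rw [hwg _ hlk', hm.2] at h2
          have h3 : weightedHomogeneousComponent v l (u' * a - a') *
              weightedHomogeneousComponent v 1 F ∈ L := by
            have h4 : weightedHomogeneousComponent v l (u' * a - a') *
              weightedHomogeneousComponent v 1 F = -weightedHomogeneousComponent v (l + 1) b' := by
              rw [eq_neg_iff_add_eq_zero, add_comm, ← h2]
            rw [h4]
            exact Ideal.neg_mem_iff _ |>.mpr h1
          rcases h.prime.mem_or_mem h3 with h4 | h4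
          · exact hnot h4
          · exact hFL h4
        · have hkl : k = l + 1 := le_antisymm hlk' hlk
          rw [hkl, h2, hm.2]
          exact L'.add_mem (hLL' h1) (L'.mul_mem_left _ hFL')
      · have hb'low : Low v k b' := by
          rw [hb'eq]
          exact hwg.sub (hm.1.mono (hlk.trans (Nat.le_succ l)))
        have h1 := h.lead b' (le_satIdeal _ hb'K) _ hb'low
        have h2 : weightedHomogeneousComponent v k (w * g) =
            weightedHomogeneousComponent v k b' := by
          rw [heq, map_add, hm.1 k (Nat.lt_succ_of_le hlk), add_zero]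
        rw [h2]
        exact hLL' h1
    rw [hwgk] at hgoal
    refine (hL'.mem_or_mem hgoal).resolve_left (fun h1 => hw0 ?_)
    exact hdeg _ h1 (weightedHomogeneousComponent_isWeightedHomogeneous _ _)

/-- The saturations increase strictly. -/
lemma Stage.notMem {K L : Ideal (MvPolynomial ρ ℂ)}
    (h : Stage v K L) (F : MvPolynomial ρ ℂ) (hF : weightedHomogeneousComponent v 0 F = 0)
    (hFL : weightedHomogeneousComponent v 1 F ∉ L) : F ∉ satIdeal v K := by
  intro hFK
  refine hFL (h.lead F hFK 1 ?_)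
  intro j hj
  rw [Nat.lt_one_iff.mp hj]; exact hF

end LowPart

end Pool.Agent.Hartshorne
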