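import Mathlib
import Pool.Agent.Hartshorne.Lead

/-!
Chains of primes attached to polynomials with independent linear parts; the ideal of a variety
near a point where the Jacobian criterion holds.
-/

namespace Pool.Agent.Hartshorne

open MvPolynomial

section Chain

variable {ρ : Type*} {v : ρ → ℕ}

lemma wc_mul_right {e : ℕ} {g : MvPolynomial ρ ℂ} (hg : IsWeightedHomogeneous v g e)
    (a : MvPolynomial ρ ℂ) (k : ℕ) : weightedHomogeneousComponent v (k + e) (a * g) =
      weightedHomogeneousComponent v k a * g := by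
  rw [← coeff_coact, map_mul, coact_of_isWeightedHomogeneous v hg, ← mul_assoc,
    Polynomial.coeff_mul_X_pow, Polynomial.coeff_mul_C, coeff_coact]

lemma isWH_mul {k l : ℕ} {f g : MvPolynomial ρ ℂ} (hf : IsWeightedHomogeneous v f k)
    (hg : IsWeightedHomogeneous v g l) : IsWeightedHomogeneous v (f * g) (k + l) := hf.mul hg

lemma exists_lift_of_mem_span {n : ℕ} (F : ℕ → MvPolynomial ρ ℂ)
    (hF : ∀ i < n, weightedHomogeneousComponent v 0 (F i) = 0) {i : ℕ} (hi : i ≤ n) {k : ℕ}
    {g : MvPolynomial ρ ℂ} (hg : IsWeightedHomogeneous v g k)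
    (hmem : g ∈ Ideal.span ((fun j => weightedHomogeneousComponent v 1 (F j)) '' Set.Iio i)) :
    ∃ b ∈ Ideal.span (F '' Set.Iio i), Low v k b ∧ weightedHomogeneousComponent v k b = g := by
  classical
  have hfin : (Set.Iio i) = ((Finset.range i : Finset ℕ) : Set ℕ) := by
    ext x; simp
  rw [hfin] at hmem
  obtain ⟨a, ha⟩ := (Submodule.mem_span_image_finset_iff_exists_fun' _).mp hmem
  simp only [smul_eq_mul] at ha
  rcases k with _ | k
  · refine ⟨0, Ideal.zero_mem _, low_of_zero _, ?_⟩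
    rw [map_zero, ← wc_self hg, ← ha, map_sum]
    symm
    refine Finset.sum_eq_zero (fun j _ => ?_)
    have h1 : Low v 1 (weightedHomogeneousComponent v 1 (F j)) :=
      low_of_isWeightedHomogeneous (weightedHomogeneousComponent_isWeightedHomogeneous _ _)
    exact (h1.mul_left (a j)) 0 Nat.zero_lt_one
  · have hlow : ∀ j ∈ Finset.range i, Low v (k + 1)
        (weightedHomogeneousComponent v k (a j) * F j) ∧
        weightedHomogeneousComponent v (k + 1) (weightedHomogeneousComponent v k (a j) * F j)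
          = weightedHomogeneousComponent v k (a j) *
            weightedHomogeneousComponent v 1 (F j) := by
      intro j hj
      have h1 : Low v 1 (F j) := by
        intro l hl
        rw [Nat.lt_one_iff.mp hl]
        exact hF j ((Finset.mem_range.mp hj).trans_le hi)
      have h2 := low_mul (low_of_isWeightedHomogeneous
        (weightedHomogeneousComponent_isWeightedHomogeneous (w := v) k (a j))) h1
      rw [wc_self (weightedHomogeneousComponent_isWeightedHomogeneous (w := v) k (a j))] at h2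
      exact h2
    refine ⟨∑ j ∈ Finset.range i, weightedHomogeneousComponent v k (a j) * F j, ?_, ?_, ?_⟩
    · refine Ideal.sum_mem _ (fun j hj => Ideal.mul_mem_left _ _ (Ideal.subset_span ⟨j, ?_, rfl⟩))
      exact Finset.mem_range.mp hj
    · exact Low.sum _ _ (fun j hj => (hlow j hj).1)
    · rw [map_sum, Finset.sum_congr rfl (fun j hj => (hlow j hj).2), ← wc_self hg, ← ha, map_sum]
      refine Finset.sum_congr rfl (fun j _ => ?_)
      rw [wc_mul_right (weightedHomogeneousComponent_isWeightedHomogeneous _ _)]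

theorem lead_chain [Finite ρ] (hv : ∀ i, v i ≤ 1) (n : ℕ) (F : ℕ → MvPolynomial ρ ℂ)
    (L : ℕ → Ideal (MvPolynomial ρ ℂ)) (hprime : ∀ i ≤ n, (L i).IsPrime)
    (hdeg : ∀ i ≤ n, ∀ g ∈ L i, IsWeightedHomogeneous v g 0 → g = 0)
    (hF : ∀ i < n, weightedHomogeneousComponent v 0 (F i) = 0)
    (hnot : ∀ i < n, weightedHomogeneousComponent v 1 (F i) ∉ L i)
    (hin : ∀ i < n, weightedHomogeneousComponent v 1 (F i) ∈ L (i + 1))
    (hmono : ∀ i < n, L i ≤ L (i + 1))
    (hgen : ∀ i ≤ n, ∀ g ∈ L i, ∃ u, u ≠ 0 ∧ IsWeightedHomogeneous v u 0 ∧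
      u * g ∈ Ideal.span ((fun j => weightedHomogeneousComponent v 1 (F j)) '' Set.Iio i)) :
    ∀ i ≤ n, Stage v (Ideal.span (F '' Set.Iio i)) (L i) := by
  have hgen' : ∀ i ≤ n, ∀ k, ∀ g ∈ L i, IsWeightedHomogeneous v g k → ∃ u, u ≠ 0 ∧
      IsWeightedHomogeneous v u 0 ∧ ∃ b ∈ Ideal.span (F '' Set.Iio i), Low v k b ∧
      weightedHomogeneousComponent v k b = u * g := by
    intro i hi k g hg hgk
    obtain ⟨u, hu, hu0, hug⟩ := hgen i hi g hg
    have h1 : IsWeightedHomogeneous v (u * g) k := by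
      have := hu0.mul hgk
      rwa [zero_add] at this
    exact ⟨u, hu, hu0, exists_lift_of_mem_span F hF hi h1 hug⟩
  intro i
  induction i with
  | zero =>
    intro hi
    refine ⟨hprime 0 hi, hdeg 0 hi, hgen' 0 hi, ?_⟩
    rintro g ⟨u, hu, hug⟩ k _
    have h1 : F '' Set.Iio 0 = ∅ := by simp
    rw [h1, Ideal.span_empty, Ideal.mem_bot] at hug
    have h2 : u ≠ 0 := by
      rintro rfl
      exact hu (map_zero _)
    rw [(mul_eq_zero.mp hug).resolve_left h2, map_zero]
    exact Ideal.zero_mem _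
  | succ i ih =>
    intro hi
    have hi' : i < n := hi
    have hst := ih hi'.le
    refine ⟨hprime _ hi, hdeg _ hi, hgen' _ hi, ?_⟩
    refine hst.step_lead hv (F i) (hF i hi') (hnot i hi') (hin i hi') ?_ (hmono i hi')
      (hprime _ hi) (hdeg _ hi)
    rw [Ideal.span_le]
    rintro _ ⟨j, hj, rfl⟩
    rcases Nat.lt_succ_iff_lt_or_eq.mp hj with h1 | h1
    · exact Ideal.mem_sup_left (Ideal.subset_span ⟨j, h1, rfl⟩)
    · rw [h1]
      exact Ideal.mem_sup_right (Ideal.mem_span_singleton_self _)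

lemma dim_contra' {a : WithBot ℕ∞} {n N : ℕ} (h1 : a + 1 + (n : WithBot ℕ∞) ≤ (N : WithBot ℕ∞))
    (h2 : (N : WithBot ℕ∞) ≤ a + (n : WithBot ℕ∞)) : False := by
  induction a using WithBot.recBotCoe with
  | bot =>
    rw [WithBot.bot_add, le_bot_iff] at h2
    exact absurd h2 (WithBot.natCast_ne_bot _)
  | coe x =>
    induction x using ENat.recTopCoe with
    | top =>
      have h4 : ((⊤ : ℕ∞) : WithBot ℕ∞) + 1 + (n : WithBot ℕ∞) = ((⊤ : ℕ∞) : WithBot ℕ∞) := rfl
      rw [h4] at h1
      have h5 : (⊤ : ℕ∞) ≤ (N : ℕ∞) := by exact_mod_cast h1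
      exact absurd h5 (by simp)
    | coe m =>
      have h3 : m + 1 + n ≤ N := by exact_mod_cast h1
      have h4 : N ≤ m + n := by exact_mod_cast h2
      omega

theorem chain_dim [Fintype ρ] (hv : ∀ i, v i ≤ 1) (n : ℕ) (F : ℕ → MvPolynomial ρ ℂ)
    (L : ℕ → Ideal (MvPolynomial ρ ℂ))
    (hF : ∀ i < n, weightedHomogeneousComponent v 0 (F i) = 0)
    (hnot : ∀ i < n, weightedHomogeneousComponent v 1 (F i) ∉ L i)
    (hst : ∀ i ≤ n, Stage v (Ideal.span (F '' Set.Iio i)) (L i)) :
    ∀ i ≤ n, ringKrullDim (MvPolynomial ρ ℂ ⧸ satIdeal v (Ideal.span (F '' Set.Iio i))) +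
      (i : WithBot ℕ∞) ≤ ((Fintype.card ρ : ℕ) : WithBot ℕ∞) := by
  intro i
  induction i with
  | zero =>
    intro _
    rw [Nat.cast_zero, add_zero]
    refine (ringKrullDim_quotient_le _).trans ?_
    rw [MvPolynomial.ringKrullDim_of_isNoetherianRing, ringKrullDim_eq_zero_of_field, zero_add,
      Nat.card_eq_fintype_card]
  | succ i ih =>
    intro hi
    have hi' : i < n := hi
    have hp1 := (hst i hi'.le).satPrime hv
    have hlt : satIdeal v (Ideal.span (F '' Set.Iio i)) <
        satIdeal v (Ideal.span (F '' Set.Iio (i + 1))) := by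
      refine lt_of_le_of_ne (satIdeal_mono (Ideal.span_mono (Set.image_mono ?_))) ?_
      · intro j hj
        exact lt_trans (Set.mem_Iio.mp hj) (Nat.lt_succ_self i)
      · intro heq
        have h1 : F i ∈ satIdeal v (Ideal.span (F '' Set.Iio (i + 1))) :=
          le_satIdeal _ (Ideal.subset_span ⟨i, Nat.lt_succ_self i, rfl⟩)
        rw [← heq] at h1
        exact (hst i hi'.le).notMem (F i) (hF i hi') (hnot i hi') h1
    have h2 := ringKrullDim_quotient_succ_le_of_lt hlt
    refine le_trans ?_ (ih hi'.le)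
    rw [Nat.cast_succ, add_comm (i : WithBot ℕ∞) 1, ← add_assoc]
    exact add_le_add_left h2 _

/-- Dimension count for a prime ideal containing the `F i`. -/
theorem chain_eq [Fintype ρ] (hv : ∀ i, v i ≤ 1) (n : ℕ) (F : ℕ → MvPolynomial ρ ℂ)
    (L : ℕ → Ideal (MvPolynomial ρ ℂ))
    (hF : ∀ i < n, weightedHomogeneousComponent v 0 (F i) = 0)
    (hnot : ∀ i < n, weightedHomogeneousComponent v 1 (F i) ∉ L i)
    (hst : ∀ i ≤ n, Stage v (Ideal.span (F '' Set.Iio i)) (L i))
    (J : Ideal (MvPolynomial ρ ℂ)) (hJ : J.IsPrime) (hJq : J ≤ posIdeal v)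
    (hFJ : ∀ i < n, F i ∈ J) :
    ringKrullDim (MvPolynomial ρ ℂ ⧸ J) + (n : WithBot ℕ∞) ≤
        ((Fintype.card ρ : ℕ) : WithBot ℕ∞) ∧
      (((Fintype.card ρ : ℕ) : WithBot ℕ∞) ≤
        ringKrullDim (MvPolynomial ρ ℂ ⧸ J) + (n : WithBot ℕ∞) →
        satIdeal v (Ideal.span (F '' Set.Iio n)) = J) := by
  have hle : satIdeal v (Ideal.span (F '' Set.Iio n)) ≤ J := by
    refine satIdeal_le hJ hJq ?_
    rw [Ideal.span_le]
    rintro _ ⟨j, hj, rfl⟩
    exact hFJ j hj
  have h1 := chain_dim hv n F L hF hnot hst n le_rfl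
  constructor
  · refine le_trans (add_le_add_left ?_ _) h1
    exact ringKrullDim_le_of_surjective (Ideal.Quotient.factor hle)
      (Ideal.Quotient.factor_surjective hle)
  · intro h2
    by_contra hne
    have hp1 := (hst n le_rfl).satPrime hv
    have hlt := lt_of_le_of_ne hle hne
    have h3 := ringKrullDim_quotient_succ_le_of_lt hlt
    exact dim_contra' ((add_le_add_left h3 _).trans h1) h2

end Chain

end Pool.Agent.Hartshorne
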