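import Mathlib
import Pool.Agent.Hartshorne.Rows

/-!
Regular sequences: abstract lemmas, and ideals generated by variables.
-/

namespace Pool.Agent.Hartshorne

open MvPolynomial

set_option linter.unusedSectionVars false

/-- If `x, y` is a regular sequence modulo `M`, so is `x ^ n, y ^ N`. -/
lemma reg_pow {R M' : Type*} [CommRing R] [AddCommGroup M'] [Module R M'] (M : Submodule R M')
    (x y : R) (ha : ∀ a, x • a ∈ M → a ∈ M)
    (hb : ∀ a, (∃ m ∈ M, ∃ b, y • a = m + x • b) → ∃ m ∈ M, ∃ b, a = m + x • b) (n : ℕ) :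
    ∀ (N : ℕ) (a : M'), (∃ m ∈ M, ∃ b, y ^ N • a = m + x ^ n • b) →
      ∃ m ∈ M, ∃ b, a = m + x ^ n • b := by
  have h1 : ∀ (n : ℕ) (a : M'), (∃ m ∈ M, ∃ b, y • a = m + x ^ n • b) →
      ∃ m ∈ M, ∃ b, a = m + x ^ n • b := by
    intro n
    induction n with
    | zero => intro a _; exact ⟨0, M.zero_mem, a, by simp⟩
    | succ n ih =>
      rintro a ⟨m, hm, b, hab⟩
      obtain ⟨m', hm', a', rfl⟩ := hb a ⟨m, hm, x ^ n • b, by rw [hab, pow_succ', mul_smul]⟩
      have h2 : y • a' - x ^ n • b ∈ M := by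
        apply ha
        have h3 : x • (y • a' - x ^ n • b) = m - y • m' := by
          rw [smul_add, pow_succ', mul_smul] at hab
          rw [smul_sub, smul_comm x y a']
          have h4 : y • x • a' = m + x • x ^ n • b - y • m' := by rw [← hab]; abel
          rw [h4]; abel
        rw [h3]
        exact M.sub_mem hm (M.smul_mem _ hm')
      obtain ⟨m'', hm'', b'', hb''⟩ := ih a' ⟨_, h2, b, by abel⟩
      refine ⟨m' + x • m'', M.add_mem hm' (M.smul_mem _ hm''), b'', ?_⟩
      rw [hb'', smul_add, pow_succ', mul_smul, add_assoc]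
  intro N
  induction N with
  | zero => rintro a ⟨m, hm, b, h⟩; exact ⟨m, hm, b, by simpa using h⟩
  | succ N ih =>
    rintro a ⟨m, hm, b, h⟩
    apply ih
    apply h1
    exact ⟨m, hm, b, by rw [← mul_smul, ← pow_succ', h]⟩

lemma reg_pow_left {R M' : Type*} [CommRing R] [AddCommGroup M'] [Module R M']
    (M : Submodule R M') (x : R) (ha : ∀ a, x • a ∈ M → a ∈ M) (n : ℕ) :
    ∀ a, x ^ n • a ∈ M → a ∈ M := by
  induction n with
  | zero => intro a h; simpa using h
  | succ n ih =>
    intro a h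
    apply ha
    apply ih
    rwa [← mul_smul, ← pow_succ]

section Kill

variable {σ : Type*}

open Classical in
/-- Set the variables in `Z` to zero. -/
noncomputable def kill (Z : Set σ) : MvPolynomial σ ℂ →ₐ[ℂ] MvPolynomial σ ℂ :=
  aeval (fun i => if i ∈ Z then 0 else X i)

lemma sub_kill_mem (Z : Set σ) (f : MvPolynomial σ ℂ) :
    f - kill Z f ∈ Ideal.span ((fun i => (X i : MvPolynomial σ ℂ)) '' Z) := by
  induction f using MvPolynomial.induction_on with
  | C a =>
    have : kill Z (C a) = C a := by simp [kill]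
    rw [this, sub_self]
    exact Ideal.zero_mem _
  | add f g hf hg =>
    have : f + g - kill Z (f + g) = (f - kill Z f) + (g - kill Z g) := by rw [map_add]; ring
    rw [this]
    exact Ideal.add_mem _ hf hg
  | mul_X f i hf =>
    have h1 : f * X i - kill Z (f * X i) = (f - kill Z f) * X i
        + kill Z f * (X i - kill Z (X i)) := by rw [map_mul]; ring
    rw [h1]
    refine Ideal.add_mem _ (Ideal.mul_mem_right _ _ hf) (Ideal.mul_mem_left _ _ ?_)
    by_cases hi : i ∈ Z
    · have h2 : kill Z (X i) = 0 := by simp [kill, hi]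
      rw [h2, sub_zero]
      exact Ideal.subset_span ⟨i, hi, rfl⟩
    · have h2 : kill Z (X i) = X i := by simp [kill, hi]
      rw [h2, sub_self]
      exact Ideal.zero_mem _

lemma mem_span_X_iff (Z : Set σ) (f : MvPolynomial σ ℂ) :
    f ∈ Ideal.span ((fun i => (X i : MvPolynomial σ ℂ)) '' Z) ↔ kill Z f = 0 := by
  constructor
  · intro h
    have h1 : Ideal.span ((fun i => (X i : MvPolynomial σ ℂ)) '' Z) ≤
        RingHom.ker (kill Z) := by
      rw [Ideal.span_le]
      rintro _ ⟨i, hi, rfl⟩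
      rw [SetLike.mem_coe, RingHom.mem_ker]
      simp [kill, hi]
    exact h1 h
  · intro h
    have h1 := sub_kill_mem Z f
    rwa [h, sub_zero] at h1

lemma span_X_isPrime (Z : Set σ) :
    (Ideal.span ((fun i => (X i : MvPolynomial σ ℂ)) '' Z)).IsPrime := by
  have h1 : Ideal.span ((fun i => (X i : MvPolynomial σ ℂ)) '' Z) = RingHom.ker (kill Z) := by
    ext f
    rw [mem_span_X_iff, RingHom.mem_ker]
  rw [h1]
  exact RingHom.ker_isPrime _

lemma X_notMem_span {Z : Set σ} {j : σ} (hj : j ∉ Z) :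
    (X j : MvPolynomial σ ℂ) ∉ Ideal.span ((fun i => (X i : MvPolynomial σ ℂ)) '' Z) := by
  rw [mem_span_X_iff]
  have h2 : kill Z (X j) = X j := by simp [kill, hj]
  rw [h2]
  exact X_ne_zero j

lemma mem_span_X_of_eval (Z : Set σ) (f : MvPolynomial σ ℂ)
    (h : ∀ z, (∀ i ∈ Z, z i = 0) → eval z f = 0) :
    f ∈ Ideal.span ((fun i => (X i : MvPolynomial σ ℂ)) '' Z) := by
  classical
  rw [mem_span_X_iff]
  apply MvPolynomial.funext
  intro w
  rw [map_zero]
  have h1 : eval w (kill Z f) = eval (fun i => if i ∈ Z then 0 else w i) f := by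
    have h2 : (eval w).comp (kill Z : MvPolynomial σ ℂ →+* MvPolynomial σ ℂ) =
        eval (fun i => if i ∈ Z then 0 else w i) := by
      apply MvPolynomial.ringHom_ext
      · intro a; simp
      · intro i
        by_cases hi : i ∈ Z
        · simp [kill, hi]
        · simp [kill, hi]
    exact RingHom.congr_fun h2 f
  rw [h1]
  apply h
  intro i hi
  rw [if_pos hi]

lemma mem_span_X_of_eval_ne {Z : Set σ} {j : σ} (hj : j ∉ Z) (f : MvPolynomial σ ℂ)
    (h : ∀ z ≠ 0, (∀ i ∈ Z, z i = 0) → eval z f = 0) :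
    f ∈ Ideal.span ((fun i => (X i : MvPolynomial σ ℂ)) '' Z) := by
  have h1 : X j * f ∈ Ideal.span ((fun i => (X i : MvPolynomial σ ℂ)) '' Z) := by
    apply mem_span_X_of_eval
    intro z hz
    rw [map_mul, eval_X]
    by_cases hz0 : z = 0
    · rw [hz0, Pi.zero_apply, zero_mul]
    · rw [h z hz0 hz, mul_zero]
  exact ((span_X_isPrime Z).mem_or_mem h1).resolve_left (X_notMem_span hj)

end Kill

section RowReg

variable {σ τ : Type*} {c : ℕ}

/-- Regularity of the first variable on the cokernel of a constant rank family. -/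
lemma row_reg_one (ψ : Fin c → τ → MvPolynomial σ ℂ)
    (hli : ∀ z ≠ 0, LinearIndependent ℂ (fun i => rowEval z (ψ i))) {i j : σ} (hij : j ≠ i)
    (a : τ → MvPolynomial σ ℂ)
    (h : (X i : MvPolynomial σ ℂ) • a ∈ Submodule.span (MvPolynomial σ ℂ) (Set.range ψ)) :
    a ∈ Submodule.span (MvPolynomial σ ℂ) (Set.range ψ) := by
  obtain ⟨r, hr⟩ := (Submodule.mem_span_range_iff_exists_fun _).mp h
  have h1 : ∀ k, (X i : MvPolynomial σ ℂ) ∣ r k := by
    intro k
    have h2 : r k ∈ Ideal.span ((fun i => (X i : MvPolynomial σ ℂ)) '' {i}) := by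
      apply mem_span_X_of_eval_ne (j := j) (by simpa using hij)
      intro z hz hzi
      have h3 := congrArg (rowEval z) hr
      rw [rowEval_sum, rowEval_smul, eval_X, hzi i rfl, zero_smul] at h3
      simp only [rowEval_smul] at h3
      exact Fintype.linearIndependent_iff.mp (hli z hz) _ h3 k
    rwa [Set.image_singleton, Ideal.mem_span_singleton] at h2
  choose s hs using h1
  have h4 : a = ∑ k, s k • ψ k := by
    apply smul_row_cancel (X_ne_zero i)
    rw [← hr, Finset.smul_sum]
    refine Finset.sum_congr rfl (fun k _ => ?_)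
    rw [hs k, mul_smul]
  rw [h4]
  exact Submodule.sum_mem _ (fun k _ => Submodule.smul_mem _ _ (Submodule.subset_span ⟨k, rfl⟩))

/-- Regularity of the second variable. -/
lemma row_reg_two (ψ : Fin c → τ → MvPolynomial σ ℂ)
    (hli : ∀ z ≠ 0, LinearIndependent ℂ (fun i => rowEval z (ψ i))) {i j l : σ} (hij : i ≠ j)
    (hli' : l ≠ i) (hlj : l ≠ j) (a : τ → MvPolynomial σ ℂ)
    (h : ∃ m ∈ Submodule.span (MvPolynomial σ ℂ) (Set.range ψ), ∃ b,
      (X j : MvPolynomial σ ℂ) • a = m + (X i : MvPolynomial σ ℂ) • b) :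
    ∃ m ∈ Submodule.span (MvPolynomial σ ℂ) (Set.range ψ), ∃ b,
      a = m + (X i : MvPolynomial σ ℂ) • b := by
  obtain ⟨m, hm, b, hab⟩ := h
  obtain ⟨r, hr⟩ := (Submodule.mem_span_range_iff_exists_fun _).mp hm
  have h1 : ∀ k, ∃ s t : MvPolynomial σ ℂ, r k = X i * s + X j * t := by
    intro k
    have h2 : r k ∈ Ideal.span ((fun i => (X i : MvPolynomial σ ℂ)) '' {i, j}) := by
      apply mem_span_X_of_eval_ne (j := l) (by simp [hli', hlj])
      intro z hz hzi
      have hzi0 : z i = 0 := hzi i (Or.inl rfl)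
      have hzj0 : z j = 0 := hzi j (Or.inr rfl)
      have h3 := congrArg (rowEval z) hab
      rw [← hr, rowEval_smul, rowEval_add, rowEval_smul, eval_X, eval_X, hzi0, hzj0, zero_smul,
        zero_smul, add_zero, rowEval_sum] at h3
      simp only [rowEval_smul] at h3
      exact Fintype.linearIndependent_iff.mp (hli z hz) _ h3.symm k
    rw [Set.image_insert_eq, Set.image_singleton, Ideal.mem_span_pair] at h2
    obtain ⟨s, t, hst⟩ := h2
    exact ⟨s, t, by rw [← hst]; ring⟩
  choose s t hst using h1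
  have h5 : (X j : MvPolynomial σ ℂ) • (a - ∑ k, t k • ψ k) =
      (X i : MvPolynomial σ ℂ) • (b + ∑ k, s k • ψ k) := by
    rw [smul_sub, hab, ← hr, smul_add, Finset.smul_sum, Finset.smul_sum]
    have h6 : ∑ k, r k • ψ k = ∑ k, (X i : MvPolynomial σ ℂ) • s k • ψ k +
        ∑ k, (X j : MvPolynomial σ ℂ) • t k • ψ k := by
      rw [← Finset.sum_add_distrib]
      refine Finset.sum_congr rfl (fun k _ => ?_)
      rw [hst k, add_smul, mul_smul, mul_smul]
    rw [h6]
    abel
  have h7 : (X j : MvPolynomial σ ℂ) ^ 1 • (a - ∑ k, t k • ψ k) =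
      (X i : MvPolynomial σ ℂ) ^ 1 • (b + ∑ k, s k • ψ k) := by
    rw [pow_one, pow_one]; exact h5
  obtain ⟨a', ha'⟩ := exists_row_div hij h7
  refine ⟨∑ k, t k • ψ k, Submodule.sum_mem _ (fun k _ =>
    Submodule.smul_mem _ _ (Submodule.subset_span ⟨k, rfl⟩)), a', ?_⟩
  rw [pow_one] at ha'
  rw [← ha']
  abel

end RowReg

end Pool.Agent.Hartshorne
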