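import Mathlib
import Pool.Agent.Hartshorne.Bundle
import Pool.Agent.Hartshorne.Lead

/-!
Gradings of polynomial rings, the grading by the degree in the second group of variables.
-/

namespace Pool.Agent.Hartshorne

open MvPolynomial

set_option linter.unusedSectionVars false

section Grading

variable {ρ : Type*} {v w : ρ → ℕ}

lemma wc_comm (v w : ρ → ℕ) (m n : ℕ) (f : MvPolynomial ρ ℂ) :
    weightedHomogeneousComponent v m (weightedHomogeneousComponent w n f) =
      weightedHomogeneousComponent w n (weightedHomogeneousComponent v m f) := by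
  classical
  ext s
  simp only [coeff_weightedHomogeneousComponent]
  split_ifs <;> rfl

lemma isWH_wc {n : ℕ} {f : MvPolynomial ρ ℂ} (hf : IsWeightedHomogeneous w f n) (m : ℕ) :
    IsWeightedHomogeneous w (weightedHomogeneousComponent v m f) n := by
  rw [← wc_self hf, wc_comm]
  exact weightedHomogeneousComponent_isWeightedHomogeneous _ _

lemma hc_eq (n : ℕ) (f : MvPolynomial ρ ℂ) :
    homogeneousComponent n f = weightedHomogeneousComponent (1 : ρ → ℕ) n f := rfl

lemma wc_mul_zero (f g : MvPolynomial ρ ℂ) : weightedHomogeneousComponent v 0 (f * g) =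
    weightedHomogeneousComponent v 0 f * weightedHomogeneousComponent v 0 g := by
  rw [← wcZero_apply, map_mul, wcZero_apply, wcZero_apply]

lemma wc_mul_one (f g : MvPolynomial ρ ℂ) : weightedHomogeneousComponent v 1 (f * g) =
    weightedHomogeneousComponent v 0 f * weightedHomogeneousComponent v 1 g +
    weightedHomogeneousComponent v 1 f * weightedHomogeneousComponent v 0 g := by
  simp only [← coeff_coact]
  rw [map_mul, Polynomial.mul_coeff_one]

lemma wc_mem_of_mul {I : Ideal (MvPolynomial ρ ℂ)} {f : MvPolynomial ρ ℂ}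
    (h : ∀ n, weightedHomogeneousComponent v n f ∈ I) (a : MvPolynomial ρ ℂ) (n : ℕ) :
    weightedHomogeneousComponent v n (a * f) ∈ I := by
  rw [← coeff_coact, map_mul, Polynomial.coeff_mul]
  refine Ideal.sum_mem _ (fun x _ => Ideal.mul_mem_left _ _ ?_)
  rw [coeff_coact]
  exact h _

lemma wc_mem_span {S : Set (MvPolynomial ρ ℂ)} (hS : ∀ g ∈ S, ∃ e, IsWeightedHomogeneous v g e)
    {f : MvPolynomial ρ ℂ} (hf : f ∈ Ideal.span S) (n : ℕ) :
    weightedHomogeneousComponent v n f ∈ Ideal.span S := by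
  revert n
  induction hf using Submodule.span_induction with
  | mem x hx =>
    intro n
    obtain ⟨e, he⟩ := hS x hx
    by_cases h : n = e
    · rw [h, wc_self he]; exact Ideal.subset_span hx
    · rw [wc_of_ne he h]; exact Ideal.zero_mem _
  | zero => intro n; rw [map_zero]; exact Ideal.zero_mem _
  | add x y _ _ hx hy => intro n; rw [map_add]; exact Ideal.add_mem _ (hx n) (hy n)
  | smul a x _ hx => intro n; exact wc_mem_of_mul hx a n

lemma exists_sum_wc (v : ρ → ℕ) (f : MvPolynomial ρ ℂ) :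
    ∃ D : ℕ, f = ∑ n ∈ Finset.range D, weightedHomogeneousComponent v n f := by
  refine ⟨(coact v f).natDegree + 1, ?_⟩
  have h1 : Polynomial.eval 1 (coact v f) = f := by
    have h2 : (Polynomial.evalRingHom (1 : MvPolynomial ρ ℂ)).comp
        (coact v : MvPolynomial ρ ℂ →+* Polynomial (MvPolynomial ρ ℂ)) = RingHom.id _ := by
      apply MvPolynomial.ringHom_ext
      · intro a
        have h3 : coact v (C a) = Polynomial.C (C a) := by
          rw [← algebraMap_eq]
          exact (coact v).commutes _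
        simp only [RingHom.comp_apply, RingHom.coe_coe, RingHom.id_apply]
        rw [h3]
        simp
      · intro i
        simp [coact]
    exact RingHom.congr_fun h2 f
  conv_lhs => rw [← h1, Polynomial.eval_eq_sum_range]
  refine Finset.sum_congr rfl (fun n _ => ?_)
  rw [one_pow, mul_one, coeff_coact]

/-- The substitution multiplying an element of degree `n` by `Δ ^ n`. -/
noncomputable def gam (v : ρ → ℕ) (Δ : MvPolynomial ρ ℂ) :
    MvPolynomial ρ ℂ →+* MvPolynomial ρ ℂ :=
  (Polynomial.evalRingHom Δ).comp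
    (coact v : MvPolynomial ρ ℂ →+* Polynomial (MvPolynomial ρ ℂ))

lemma gam_C (Δ : MvPolynomial ρ ℂ) (a : ℂ) : gam v Δ (C a) = C a := by
  have h3 : coact v (C a) = Polynomial.C (C a) := by
    rw [← algebraMap_eq]
    exact (coact v).commutes _
  rw [gam, RingHom.comp_apply, RingHom.coe_coe, h3, Polynomial.coe_evalRingHom,
    Polynomial.eval_C]

lemma gam_X (Δ : MvPolynomial ρ ℂ) (i : ρ) : gam v Δ (X i) = X i * Δ ^ v i := by
  simp [gam, coact]

lemma gam_of_isWH (Δ : MvPolynomial ρ ℂ) {f : MvPolynomial ρ ℂ} {n : ℕ}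
    (hf : IsWeightedHomogeneous v f n) : gam v Δ f = f * Δ ^ n := by
  rw [gam, RingHom.comp_apply, RingHom.coe_coe, coact_of_isWeightedHomogeneous v hf,
    Polynomial.coe_evalRingHom]
  simp

lemma pow_mul_mem_of_gam {S : Set (MvPolynomial ρ ℂ)}
    (hS : ∀ g ∈ S, ∃ e, IsWeightedHomogeneous v g e) {Δ : MvPolynomial ρ ℂ}
    (hΔ : IsWeightedHomogeneous v Δ 0) {f : MvPolynomial ρ ℂ} (h : gam v Δ f ∈ Ideal.span S) :
    ∃ N : ℕ, Δ ^ N * f ∈ Ideal.span S := by
  obtain ⟨D, hD⟩ := exists_sum_wc v f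
  have hΔn : ∀ n, IsWeightedHomogeneous v (Δ ^ n) 0 := by
    intro n
    have := hΔ.pow n
    rwa [smul_zero] at this
  have h1 : gam v Δ f = ∑ n ∈ Finset.range D, weightedHomogeneousComponent v n f * Δ ^ n := by
    conv_lhs => rw [hD, map_sum]
    refine Finset.sum_congr rfl (fun n _ => ?_)
    rw [gam_of_isWH Δ (weightedHomogeneousComponent_isWeightedHomogeneous n f)]
  have h2 : ∀ n ∈ Finset.range D, weightedHomogeneousComponent v n f * Δ ^ n ∈ Ideal.span S := by
    intro n hn
    have h3 := wc_mem_span hS h n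
    rw [h1, map_sum, Finset.sum_eq_single n] at h3
    · have h4 : IsWeightedHomogeneous v (weightedHomogeneousComponent v n f * Δ ^ n) n := by
        have := (weightedHomogeneousComponent_isWeightedHomogeneous (w := v) n f).mul (hΔn n)
        rwa [add_zero] at this
      rwa [wc_self h4] at h3
    · intro m _ hm
      have h4 : IsWeightedHomogeneous v (weightedHomogeneousComponent v m f * Δ ^ m) m := by
        have := (weightedHomogeneousComponent_isWeightedHomogeneous (w := v) m f).mul (hΔn m)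
        rwa [add_zero] at this
      exact wc_of_ne h4 (Ne.symm hm)
    · intro h4; exact absurd hn h4
  refine ⟨D, ?_⟩
  rw [hD, Finset.mul_sum]
  refine Ideal.sum_mem _ (fun n hn => ?_)
  have h3 : Δ ^ D * weightedHomogeneousComponent v n f =
      Δ ^ (D - n) * (weightedHomogeneousComponent v n f * Δ ^ n) := by
    rw [mul_comm (weightedHomogeneousComponent v n f), ← mul_assoc, ← pow_add,
      Nat.sub_add_cancel (Finset.mem_range.mp hn).le]
  rw [h3]
  exact Ideal.mul_mem_left _ _ (h2 n hn)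

end Grading

section Y

variable {σ τ : Type*}

/-- The degree in the second group of variables. -/
def Yw (σ τ : Type*) : σ ⊕ τ → ℕ := Sum.elim (fun _ => 0) (fun _ => 1)

lemma Yw_le (i : σ ⊕ τ) : Yw σ τ i ≤ 1 := by
  cases i <;> simp [Yw]

lemma isWH_X_inl (i : σ) : IsWeightedHomogeneous (Yw σ τ) (X (Sum.inl i) : MvPolynomial (σ ⊕ τ) ℂ)
    0 := isWeightedHomogeneous_X ℂ (Yw σ τ) (Sum.inl i)

lemma isWH_X_inr (b : τ) : IsWeightedHomogeneous (Yw σ τ) (X (Sum.inr b) : MvPolynomial (σ ⊕ τ) ℂ)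
    1 := isWeightedHomogeneous_X ℂ (Yw σ τ) (Sum.inr b)

/-- Set the second variables to zero. -/
noncomputable def projZ (σ τ : Type*) : MvPolynomial (σ ⊕ τ) ℂ →ₐ[ℂ] MvPolynomial σ ℂ :=
  aeval (Sum.elim X (fun _ => 0))

/-- Inclusion. -/
noncomputable def renL (σ τ : Type*) : MvPolynomial σ ℂ →ₐ[ℂ] MvPolynomial (σ ⊕ τ) ℂ :=
  rename Sum.inl

lemma projZ_X_inl (i : σ) : projZ σ τ (X (Sum.inl i)) = X i := by simp [projZ]

lemma projZ_X_inr (b : τ) : projZ σ τ (X (Sum.inr b)) = 0 := by simp [projZ]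

lemma renL_X (i : σ) : renL σ τ (X i) = X (Sum.inl i) := by simp [renL]

lemma projZ_renL (f : MvPolynomial σ ℂ) : projZ σ τ (renL σ τ f) = f := by
  rw [← AlgHom.comp_apply]
  conv_rhs => rw [← AlgHom.id_apply (R := ℂ) f]
  congr 1
  apply MvPolynomial.algHom_ext
  intro i
  rw [AlgHom.comp_apply, renL_X, projZ_X_inl, AlgHom.id_apply]

lemma eval_projZ (z : σ → ℂ) (f : MvPolynomial (σ ⊕ τ) ℂ) :
    eval z (projZ σ τ f) = eval (Sum.elim z 0) f := by
  have h2 : (eval z).comp (projZ σ τ : MvPolynomial (σ ⊕ τ) ℂ →+* MvPolynomial σ ℂ) =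
      eval (Sum.elim z 0) := by
    apply MvPolynomial.ringHom_ext
    · intro a; simp
    · rintro (i | b)
      · simp [projZ]
      · simp [projZ]
  exact RingHom.congr_fun h2 f

lemma eval_renL (z : σ → ℂ) (w : τ → ℂ) (f : MvPolynomial σ ℂ) :
    eval (Sum.elim z w) (renL σ τ f) = eval z f := by
  rw [renL, eval_rename]
  rfl

lemma wc_zero_eq (g : MvPolynomial (σ ⊕ τ) ℂ) :
    weightedHomogeneousComponent (Yw σ τ) 0 g = renL σ τ (projZ σ τ g) := by
  rw [← wcZero_apply]
  have h : wcZero (Yw σ τ) = ((renL σ τ).comp (projZ σ τ) :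
      MvPolynomial (σ ⊕ τ) ℂ →+* MvPolynomial (σ ⊕ τ) ℂ) := by
    apply MvPolynomial.ringHom_ext
    · intro a
      rw [wcZero_apply, wc_self]
      · simp
      · exact isWeightedHomogeneous_C _ _
    · rintro (i | b)
      · rw [wcZero_apply, wc_self (isWH_X_inl i)]
        simp [projZ, renL]
      · rw [wcZero_apply, wc_of_ne (isWH_X_inr b) (by norm_num)]
        simp [projZ, renL]
  rw [h]
  rfl

lemma isWH_renL (f : MvPolynomial σ ℂ) :
    IsWeightedHomogeneous (Yw σ τ) (renL σ τ f) 0 := by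
  have h := wc_zero_eq (renL σ τ f)
  rw [projZ_renL] at h
  rw [← h]
  exact weightedHomogeneousComponent_isWeightedHomogeneous _ _

lemma mem_posIdeal_iff (g : MvPolynomial (σ ⊕ τ) ℂ) :
    g ∈ posIdeal (Yw σ τ) ↔ projZ σ τ g = 0 := by
  rw [mem_posIdeal, wc_zero_eq]
  constructor
  · intro h
    rw [← projZ_renL (τ := τ) (projZ σ τ g), h, map_zero]
  · intro h
    rw [h, map_zero]

variable [Fintype τ]

/-- The linear form in the second variables attached to a row. -/
noncomputable def lin (r : τ → MvPolynomial σ ℂ) : MvPolynomial (σ ⊕ τ) ℂ :=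
  ∑ b, renL σ τ (r b) * X (Sum.inr b)

lemma isWH_lin (r : τ → MvPolynomial σ ℂ) : IsWeightedHomogeneous (Yw σ τ) (lin r) 1 := by
  refine (weightedHomogeneousSubmodule ℂ (Yw σ τ) 1).sum_mem (fun b _ => ?_)
  have h := (isWH_renL (τ := τ) (r b)).mul (isWH_X_inr (σ := σ) b)
  rwa [zero_add] at h

lemma isHomogeneous_lin {r : τ → MvPolynomial σ ℂ} {e : ℕ} (hr : HomRow e r) :
    (lin r).IsHomogeneous (e + 1) :=
  IsHomogeneous.sum _ _ _ (fun b _ =>
    (IsHomogeneous.rename_isHomogeneous (hr b)).mul (isHomogeneous_X _ _))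

lemma lin_smul (g : MvPolynomial σ ℂ) (r : τ → MvPolynomial σ ℂ) :
    lin (g • r) = renL σ τ g * lin r := by
  rw [lin, lin, Finset.mul_sum]
  refine Finset.sum_congr rfl (fun b _ => ?_)
  rw [Pi.smul_apply, smul_eq_mul, map_mul, mul_assoc]

lemma eval_lin (z : σ → ℂ) (w : τ → ℂ) (r : τ → MvPolynomial σ ℂ) :
    eval (Sum.elim z w) (lin r) = ∑ b, eval z (r b) * w b := by
  rw [lin, map_sum]
  refine Finset.sum_congr rfl (fun b _ => ?_)
  rw [map_mul, eval_renL, eval_X]
  rfl

/-- The gradient in the second variables, restricted to the first ones. -/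
noncomputable def rowOf (g : MvPolynomial (σ ⊕ τ) ℂ) : τ → MvPolynomial σ ℂ :=
  fun b => projZ σ τ (pderiv (Sum.inr b) g)

lemma rowOf_apply (g : MvPolynomial (σ ⊕ τ) ℂ) (b : τ) :
    rowOf g b = projZ σ τ (pderiv (Sum.inr b) g) := by rw [rowOf]

lemma rowOf_add (f g : MvPolynomial (σ ⊕ τ) ℂ) : rowOf (f + g) = rowOf f + rowOf g := by
  funext b
  rw [rowOf_apply, Pi.add_apply, rowOf_apply, rowOf_apply, map_add, map_add]

lemma rowOf_mul (f g : MvPolynomial (σ ⊕ τ) ℂ) :
    rowOf (f * g) = projZ σ τ f • rowOf g + projZ σ τ g • rowOf f := by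
  funext b
  rw [rowOf_apply, pderiv_mul, map_add, map_mul, map_mul, Pi.add_apply, Pi.smul_apply,
    Pi.smul_apply, smul_eq_mul, smul_eq_mul, rowOf_apply, rowOf_apply]
  ring

lemma rowOf_mul_of_mem {f g : MvPolynomial (σ ⊕ τ) ℂ} (hg : g ∈ posIdeal (Yw σ τ)) :
    rowOf (f * g) = projZ σ τ f • rowOf g := by
  rw [rowOf_mul, (mem_posIdeal_iff g).mp hg, zero_smul, add_zero]

lemma lin_add (r s : τ → MvPolynomial σ ℂ) : lin (r + s) = lin r + lin s := by
  rw [lin, lin, lin, ← Finset.sum_add_distrib]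
  refine Finset.sum_congr rfl (fun b _ => ?_)
  rw [Pi.add_apply, map_add, add_mul]

lemma wc_one_eq [DecidableEq τ] (g : MvPolynomial (σ ⊕ τ) ℂ) :
    weightedHomogeneousComponent (Yw σ τ) 1 g = lin (rowOf g) := by
  classical
  induction g using MvPolynomial.induction_on with
  | C a =>
    rw [wc_of_ne (isWeightedHomogeneous_C _ _) (by norm_num)]
    symm
    refine Finset.sum_eq_zero (fun b _ => ?_)
    rw [rowOf_apply, pderiv_C, map_zero, map_zero, zero_mul]
  | add f g hf hg => rw [map_add, hf, hg, rowOf_add, lin_add]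
  | mul_X f i hf =>
    rw [wc_mul_one, rowOf_mul, lin_add, lin_smul, lin_smul, ← wc_zero_eq, ← wc_zero_eq, ← hf]
    rcases i with i | b
    · rw [wc_of_ne (isWH_X_inl i) (by norm_num)]
      have h1 : rowOf (X (Sum.inl i) : MvPolynomial (σ ⊕ τ) ℂ) = 0 := by
        funext b
        rw [rowOf_apply, pderiv_X_of_ne (by simp), map_zero, Pi.zero_apply]
      have h2 : lin (0 : τ → MvPolynomial σ ℂ) = 0 := by simp [lin]
      rw [h1, h2]
      ring
    · rw [wc_of_ne (isWH_X_inr b) (zero_ne_one), wc_self (isWH_X_inr b)]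
      have h1 : lin (rowOf (X (Sum.inr b) : MvPolynomial (σ ⊕ τ) ℂ)) = X (Sum.inr b) := by
        rw [lin, Finset.sum_eq_single b]
        · rw [rowOf_apply, pderiv_X_self, map_one, map_one, one_mul]
        · intro b' _ hb'
          rw [rowOf_apply, pderiv_X_of_ne (by simpa using Ne.symm hb'), map_zero, map_zero,
            zero_mul]
        · intro h; exact absurd (Finset.mem_univ b) h
      rw [h1]
      ring

lemma rowEval_rowOf (z : σ → ℂ) (g : MvPolynomial (σ ⊕ τ) ℂ) (b : τ) :
    rowEval z (rowOf g) b = eval (Sum.elim z 0) (pderiv (Sum.inr b) g) := by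
  rw [rowEval_apply, rowOf_apply, eval_projZ]

end Y

end Pool.Agent.Hartshorne
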