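import Mathlib
import Pool.Agent.Hartshorne.Reg
import Pool.Agent.Hartshorne.YGrad

/-!
The ideal generated by linear forms whose coefficient rows are independent away from the origin.
-/

namespace Pool.Agent.Hartshorne

open MvPolynomial

set_option linter.unusedSectionVars false

section Null

variable {σ τ : Type*}

/-- Nullstellensatz. -/
lemma exists_X_pow_mul_mem [Finite σ] (𝔞 : Ideal (MvPolynomial (σ ⊕ τ) ℂ))
    (a : MvPolynomial (σ ⊕ τ) ℂ)
    (h : ∀ z : σ → ℂ, z ≠ 0 → ∃ Δ : MvPolynomial σ ℂ, eval z Δ ≠ 0 ∧ renL σ τ Δ * a ∈ 𝔞) (j : σ) :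
    ∃ M : ℕ, (X (Sum.inl j) : MvPolynomial (σ ⊕ τ) ℂ) ^ M * a ∈ 𝔞 := by
  set I : Ideal (MvPolynomial σ ℂ) :=
    { carrier := {g | renL σ τ g * a ∈ 𝔞}
      zero_mem' := by
        show renL σ τ 0 * a ∈ 𝔞
        rw [map_zero, zero_mul]; exact 𝔞.zero_mem
      add_mem' := by
        intro x y hx hy
        show renL σ τ (x + y) * a ∈ 𝔞
        rw [map_add, add_mul]; exact 𝔞.add_mem hx hy
      smul_mem' := by
        intro c x hx
        show renL σ τ (c • x) * a ∈ 𝔞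
        rw [smul_eq_mul, map_mul, mul_assoc]; exact 𝔞.mul_mem_left _ hx } with hI
  have hmem : ∀ g, g ∈ I ↔ renL σ τ g * a ∈ 𝔞 := fun g => Iff.rfl
  have hg : (X j : MvPolynomial σ ℂ) ∈ I.radical := by
    rw [← vanishingIdeal_zeroLocus_eq_radical (K := ℂ), mem_vanishingIdeal_iff]
    intro z hz
    rw [mem_zeroLocus_iff] at hz
    by_contra hne
    have hz0 : z ≠ 0 := by
      rintro rfl
      apply hne
      rw [aeval_eq_eval, eval_X]
      rfl
    obtain ⟨Δ, h1, h2⟩ := h z hz0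
    have h3 := hz _ ((hmem Δ).mpr h2)
    rw [aeval_eq_eval] at h3
    exact h1 h3
  obtain ⟨M, hM⟩ := hg
  refine ⟨M, ?_⟩
  have h1 := (hmem _).mp hM
  rwa [map_pow, renL_X] at h1

end Null

section Koszul

variable {σ τ : Type*} [Fintype σ] [Fintype τ]

/-- The minor. -/
noncomputable def mDet (c : ℕ) (ψ : ℕ → τ → MvPolynomial σ ℂ) (T : Fin c → τ) : MvPolynomial σ ℂ :=
  (Matrix.of fun (i : Fin c) l => ψ i (T l)).det

/-- The substitution annihilating the first `q` linear forms. -/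
noncomputable def Xi [DecidableEq τ] (c q : ℕ) (ψ : ℕ → τ → MvPolynomial σ ℂ) (T : Fin c → τ) :
    MvPolynomial (σ ⊕ τ) ℂ →ₐ[ℂ] MvPolynomial (σ ⊕ τ) ℂ :=
  aeval (Sum.elim (fun i => X (Sum.inl i)) (fun b => renL σ τ (mDet c ψ T) * X (Sum.inr b) -
    ∑ l : Fin c, if T l = b then ∑ k : Fin c, if (k : ℕ) < q then
      renL σ τ ((Matrix.of fun (i : Fin c) l => ψ i (T l)).adjugate l k) * lin (ψ k) else 0
      else 0))

/-- The ideal of the first `q` linear forms. -/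
noncomputable def pI (ψ : ℕ → τ → MvPolynomial σ ℂ) (q : ℕ) : Ideal (MvPolynomial (σ ⊕ τ) ℂ) :=
  Ideal.span ((fun k => lin (ψ k)) '' Set.Iio q)

/-- The ideal of some variables of the first group. -/
noncomputable def zI (τ : Type*) (Z : Set σ) : Ideal (MvPolynomial (σ ⊕ τ) ℂ) :=
  Ideal.span ((fun i => (X i : MvPolynomial (σ ⊕ τ) ℂ)) '' (Sum.inl '' Z))

/-- Their sum. -/
noncomputable def aI (ψ : ℕ → τ → MvPolynomial σ ℂ) (Z : Set σ) (q : ℕ) :
    Ideal (MvPolynomial (σ ⊕ τ) ℂ) := zI τ Z ⊔ pI ψ q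

variable (ψ : ℕ → τ → MvPolynomial σ ℂ)

lemma aI_eq_span (Z : Set σ) (q : ℕ) : aI ψ Z q =
    Ideal.span (((fun i => (X i : MvPolynomial (σ ⊕ τ) ℂ)) '' (Sum.inl '' Z)) ∪
      ((fun k => lin (ψ k)) '' Set.Iio q)) := by
  rw [aI, zI, pI, ← Ideal.span_union]

lemma aI_gens (Z : Set σ) (q : ℕ) :
    ∀ g ∈ (((fun i => (X i : MvPolynomial (σ ⊕ τ) ℂ)) '' (Sum.inl '' Z)) ∪
      ((fun k => lin (ψ k)) '' Set.Iio q)), ∃ e, IsWeightedHomogeneous (Yw σ τ) g e := by
  rintro g (⟨_, ⟨i, _, rfl⟩, rfl⟩ | ⟨k, _, rfl⟩)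
  · exact ⟨0, isWH_X_inl i⟩
  · exact ⟨1, isWH_lin _⟩

lemma pI_mono {q q' : ℕ} (h : q ≤ q') : pI ψ q ≤ pI ψ q' :=
  Ideal.span_mono (Set.image_mono (fun _ hj => lt_of_lt_of_le (Set.mem_Iio.mp hj) h))

lemma lin_mem_pI {k q : ℕ} (h : k < q) : lin (ψ k) ∈ pI ψ q := Ideal.subset_span ⟨k, h, rfl⟩

lemma pI_succ (q : ℕ) : pI ψ (q + 1) = pI ψ q ⊔ Ideal.span {lin (ψ q)} := by
  apply le_antisymm
  · rw [pI, Ideal.span_le]
    rintro _ ⟨k, hk, rfl⟩
    rcases Nat.lt_succ_iff_lt_or_eq.mp hk with h | h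
    · exact Ideal.mem_sup_left (lin_mem_pI ψ h)
    · subst h
      exact Ideal.mem_sup_right (Ideal.mem_span_singleton_self _)
  · refine sup_le (pI_mono ψ (Nat.le_succ q)) ?_
    rw [Ideal.span_le, Set.singleton_subset_iff]
    exact lin_mem_pI ψ (Nat.lt_succ_self q)

lemma pI_le_posIdeal (q : ℕ) : pI ψ q ≤ posIdeal (Yw σ τ) := by
  rw [pI, Ideal.span_le]
  rintro _ ⟨k, _, rfl⟩
  rw [SetLike.mem_coe, mem_posIdeal]
  exact wc_of_ne (isWH_lin _) (by norm_num)

variable [DecidableEq τ] {c q : ℕ} (T : Fin c → τ)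

lemma Xi_renL (f : MvPolynomial σ ℂ) : Xi c q ψ T (renL σ τ f) = renL σ τ f := by
  rw [← AlgHom.comp_apply]
  congr 1
  apply MvPolynomial.algHom_ext
  intro i
  rw [AlgHom.comp_apply, renL_X]
  simp [Xi]

lemma Xi_X_inl (i : σ) : Xi c q ψ T (X (Sum.inl i)) = X (Sum.inl i) := by
  simp [Xi]

lemma Xi_lin (r : τ → MvPolynomial σ ℂ) : Xi c q ψ T (lin r) =
    renL σ τ (mDet c ψ T) * lin r - ∑ k : Fin c, if (k : ℕ) < q then
      renL σ τ (∑ l, r (T l) * (Matrix.of fun (i : Fin c) l => ψ i (T l)).adjugate l k) *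
        lin (ψ k) else 0 := by
  have h1 : Xi c q ψ T (lin r) = ∑ b, renL σ τ (r b) * (renL σ τ (mDet c ψ T) * X (Sum.inr b) -
    ∑ l : Fin c, if T l = b then ∑ k : Fin c, if (k : ℕ) < q then
      renL σ τ ((Matrix.of fun (i : Fin c) l => ψ i (T l)).adjugate l k) * lin (ψ k) else 0
      else 0) := by
    rw [lin, map_sum]
    refine Finset.sum_congr rfl (fun b _ => ?_)
    rw [map_mul, Xi_renL]
    congr 1
    simp [Xi]
  rw [h1]
  simp only [mul_sub, Finset.sum_sub_distrib]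
  congr 1
  · rw [lin, Finset.mul_sum]
    refine Finset.sum_congr rfl (fun b _ => ?_)
    ring
  · simp only [Finset.mul_sum]
    rw [Finset.sum_comm]
    have h2 : ∀ l : Fin c, (∑ b, renL σ τ (r b) * if T l = b then ∑ k : Fin c,
        if (k : ℕ) < q then renL σ τ ((Matrix.of fun (i : Fin c) l => ψ i (T l)).adjugate l k) *
          lin (ψ k) else 0 else 0) = ∑ k : Fin c, if (k : ℕ) < q then renL σ τ (r (T l)) *
            (renL σ τ ((Matrix.of fun (i : Fin c) l => ψ i (T l)).adjugate l k) * lin (ψ k))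
            else 0 := by
      intro l
      rw [Finset.sum_eq_single (T l)]
      · rw [if_pos rfl, Finset.mul_sum]
        refine Finset.sum_congr rfl (fun k _ => ?_)
        split_ifs
        · rfl
        · rw [mul_zero]
      · intro b _ hb
        rw [if_neg (Ne.symm hb), mul_zero]
      · intro h; exact absurd (Finset.mem_univ _) h
    rw [Finset.sum_congr rfl (fun l _ => h2 l), Finset.sum_comm]
    refine Finset.sum_congr rfl (fun k _ => ?_)
    split_ifs with hk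
    · rw [map_sum, Finset.sum_mul]
      refine Finset.sum_congr rfl (fun l _ => ?_)
      rw [map_mul, mul_assoc]
    · exact Finset.sum_const_zero

lemma Xi_psi (k : ℕ) (hk : k < c) : Xi c q ψ T (lin (ψ k)) =
    if k < q then 0 else renL σ τ (mDet c ψ T) * lin (ψ k) := by
  have h1 : ∀ k' : Fin c, ∑ l, ψ k (T l) *
      (Matrix.of fun (i : Fin c) l => ψ i (T l)).adjugate l k' =
      if (⟨k, hk⟩ : Fin c) = k' then mDet c ψ T else 0 := by
    intro k'
    have h2 := congrFun (congrFun (Matrix.mul_adjugate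
      (Matrix.of fun (i : Fin c) l => ψ i (T l))) ⟨k, hk⟩) k'
    rw [Matrix.mul_apply, Matrix.smul_apply, Matrix.one_apply, smul_eq_mul] at h2
    simp only [Matrix.of_apply] at h2
    rw [h2, mDet]
    split_ifs
    · rw [mul_one]
    · rw [mul_zero]
  rw [Xi_lin]
  simp only [h1]
  rw [Finset.sum_eq_single (⟨k, hk⟩ : Fin c)]
  · rw [if_pos rfl]
    by_cases h : k < q
    · rw [if_pos h, if_pos h, sub_self]
    · rw [if_neg h, if_neg h, sub_zero]
  · intro k' _ hk'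
    rw [if_neg (Ne.symm hk'), map_zero, zero_mul, ite_self]
  · intro h; exact absurd (Finset.mem_univ _) h

lemma Xi_sub_gam_mem (f : MvPolynomial (σ ⊕ τ) ℂ) :
    Xi c q ψ T f - gam (Yw σ τ) (renL σ τ (mDet c ψ T)) f ∈ pI ψ q := by
  rw [← Ideal.Quotient.eq]
  have h : (Ideal.Quotient.mk (pI ψ q)).comp
      (Xi c q ψ T : MvPolynomial (σ ⊕ τ) ℂ →+* MvPolynomial (σ ⊕ τ) ℂ) =
      (Ideal.Quotient.mk (pI ψ q)).comp (gam (Yw σ τ) (renL σ τ (mDet c ψ T))) := by
    apply MvPolynomial.ringHom_ext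
    · intro a
      rw [RingHom.comp_apply, RingHom.comp_apply, gam_C]
      congr 1
      have h3 : Xi c q ψ T (C a) = C a := by
        rw [← algebraMap_eq]
        exact (Xi c q ψ T).commutes _
      exact h3
    · intro i
      rw [RingHom.comp_apply, RingHom.comp_apply, gam_X, Ideal.Quotient.eq]
      rcases i with i | b
      · have h3 : (Xi c q ψ T : MvPolynomial (σ ⊕ τ) ℂ →+* MvPolynomial (σ ⊕ τ) ℂ)
            (X (Sum.inl i)) = X (Sum.inl i) := Xi_X_inl ψ T i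
        have h4 : Yw σ τ (Sum.inl i) = 0 := rfl
        rw [h3, h4, pow_zero, mul_one, sub_self]
        exact Ideal.zero_mem _
      · have h4 : Yw σ τ (Sum.inr b) = 1 := rfl
        rw [h4, pow_one, RingHom.coe_coe, Xi, aeval_X, Sum.elim_inr, mul_comm (X (Sum.inr b)),
          sub_sub_cancel_left]
        refine Ideal.neg_mem_iff _ |>.mpr (Ideal.sum_mem _ (fun l _ => ?_))
        split_ifs
        · refine Ideal.sum_mem _ (fun k _ => ?_)
          split_ifs with hk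
          · exact Ideal.mul_mem_left _ _ (lin_mem_pI ψ hk)
          · exact Ideal.zero_mem _
        · exact Ideal.zero_mem _
  exact RingHom.congr_fun h f

lemma Xi_pI (hq : q ≤ c) {f : MvPolynomial (σ ⊕ τ) ℂ} (hf : f ∈ pI ψ q) : Xi c q ψ T f = 0 := by
  have h1 : pI ψ q ≤ RingHom.ker (Xi c q ψ T) := by
    rw [pI, Ideal.span_le]
    rintro _ ⟨k, hk, rfl⟩
    rw [SetLike.mem_coe, RingHom.mem_ker, Xi_psi ψ T k (lt_of_lt_of_le hk hq),
      if_pos (Set.mem_Iio.mp hk)]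
  exact h1 hf

lemma Xi_aI (hq : q ≤ c) {Z : Set σ} {f : MvPolynomial (σ ⊕ τ) ℂ} (hf : f ∈ aI ψ Z q) :
    Xi c q ψ T f ∈ zI τ Z := by
  obtain ⟨a, ha, b, hb, rfl⟩ := Submodule.mem_sup.mp hf
  rw [map_add, Xi_pI ψ T hq hb, add_zero]
  have h1 : zI τ Z ≤ (zI τ Z).comap (Xi c q ψ T : MvPolynomial (σ ⊕ τ) ℂ →+* _) := by
    conv_lhs => rw [zI]
    rw [Ideal.span_le]
    rintro _ ⟨_, ⟨i, hi, rfl⟩, rfl⟩
    show Xi c q ψ T (X (Sum.inl i)) ∈ zI τ Z
    rw [Xi_X_inl]
    exact Ideal.subset_span ⟨_, ⟨i, hi, rfl⟩, rfl⟩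
  exact h1 ha

lemma eval_zero_of_mem_zI {Z : Set σ} {f : MvPolynomial (σ ⊕ τ) ℂ} (hf : f ∈ zI τ Z) (z : σ → ℂ)
    (hz : ∀ i ∈ Z, z i = 0) (w : τ → ℂ) : eval (Sum.elim z w) f = 0 := by
  have h1 : zI τ Z ≤ RingHom.ker (eval (Sum.elim z w)) := by
    rw [zI, Ideal.span_le]
    rintro _ ⟨_, ⟨i, hi, rfl⟩, rfl⟩
    rw [SetLike.mem_coe, RingHom.mem_ker, eval_X, Sum.elim_inl]
    exact hz i hi
  exact h1 hf

variable (hli : ∀ z : σ → ℂ, z ≠ 0 → LinearIndependent ℂ (fun i : Fin c => rowEval z (ψ i)))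

include hli

lemma kos_local {Z : Set σ} {j : σ}
    (hN : ∀ a, (X (Sum.inl j) : MvPolynomial (σ ⊕ τ) ℂ) * a ∈ aI ψ Z q → a ∈ aI ψ Z q)
    (a : MvPolynomial (σ ⊕ τ) ℂ)
    (ha : ∀ z : σ → ℂ, z ≠ 0 → (∀ i ∈ Z, z i = 0) → ∀ T : Fin c → τ, eval z (mDet c ψ T) ≠ 0 →
      Xi c q ψ T a ∈ zI τ Z) : a ∈ aI ψ Z q := by
  obtain ⟨M, hM⟩ := exists_X_pow_mul_mem (aI ψ Z q) a (by
    intro z hz
    by_cases hZ : ∀ i ∈ Z, z i = 0
    · obtain ⟨T, hT⟩ := exists_minor _ (hli z hz)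
      have hdet : eval z (mDet c ψ T) ≠ 0 := by
        rw [mDet, eval_det]; exact hT
      have h1 := ha z hz hZ T hdet
      have h2 : gam (Yw σ τ) (renL σ τ (mDet c ψ T)) a ∈ aI ψ Z q := by
        have h3 := Xi_sub_gam_mem ψ T (q := q) a
        have h4 : gam (Yw σ τ) (renL σ τ (mDet c ψ T)) a = Xi c q ψ T a -
          (Xi c q ψ T a - gam (Yw σ τ) (renL σ τ (mDet c ψ T)) a) := by ring
        rw [h4]
        exact Ideal.sub_mem _ (Ideal.mem_sup_left h1) (Ideal.mem_sup_right h3)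
      rw [aI_eq_span] at h2 ⊢
      obtain ⟨N, hN⟩ := pow_mul_mem_of_gam (aI_gens ψ Z q) (isWH_renL _) h2
      refine ⟨mDet c ψ T ^ N, ?_, ?_⟩
      · rw [map_pow]; exact pow_ne_zero _ hdet
      · rwa [map_pow]
    · push Not at hZ
      obtain ⟨i, hi, hzi⟩ := hZ
      refine ⟨X i, by rwa [eval_X], ?_⟩
      rw [renL_X]
      exact Ideal.mem_sup_left (Ideal.mul_mem_right _ _
        (Ideal.subset_span ⟨_, ⟨i, hi, rfl⟩, rfl⟩))) j
  clear ha
  induction M with
  | zero => simpa using hM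
  | succ M ih =>
    apply ih
    apply hN
    rwa [← mul_assoc, ← pow_succ']

lemma kos_K (hq : q < c) {Z : Set σ} {j : σ}
    (hN : ∀ a, (X (Sum.inl j) : MvPolynomial (σ ⊕ τ) ℂ) * a ∈ aI ψ Z q → a ∈ aI ψ Z q)
    (a : MvPolynomial (σ ⊕ τ) ℂ) (ha : lin (ψ q) * a ∈ aI ψ Z q) : a ∈ aI ψ Z q := by
  refine kos_local ψ hli hN a (fun z hz hZ T hdet => ?_)
  have h1 := Xi_aI ψ T hq.le ha
  rw [map_mul, Xi_psi ψ T q hq, if_neg (lt_irrefl q)] at h1
  have hp : (zI τ Z : Ideal (MvPolynomial (σ ⊕ τ) ℂ)).IsPrime := span_X_isPrime _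
  refine (hp.mem_or_mem h1).resolve_left (fun h2 => ?_)
  rcases hp.mem_or_mem h2 with h3 | h3
  · have h4 := eval_zero_of_mem_zI h3 z hZ 0
    rw [eval_renL] at h4
    exact hdet h4
  · have h5 := (hli z hz).ne_zero (⟨q, hq⟩ : Fin c)
    apply h5
    funext b
    have h4 := eval_zero_of_mem_zI h3 z hZ (Pi.single b 1)
    rw [eval_lin, Finset.sum_eq_single b] at h4
    · rw [Pi.single_eq_same, mul_one] at h4
      rw [rowEval_apply, h4]
      rfl
    · intro b' _ hb'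
      rw [Pi.single_eq_of_ne hb', mul_zero]
    · intro h; exact absurd (Finset.mem_univ _) h

/-- Regularity of the variables of the first group. -/
theorem kos_N (q : ℕ) : q ≤ c → ∀ Z : Finset σ, Z.card + q + 1 ≤ Fintype.card σ → ∀ j ∉ Z,
    ∀ a, (X (Sum.inl j) : MvPolynomial (σ ⊕ τ) ℂ) * a ∈ aI ψ (Z : Set σ) q →
      a ∈ aI ψ (Z : Set σ) q := by
  classical
  induction q with
  | zero =>
    intro _ Z _ j hj a ha
    have h0 : aI ψ (Z : Set σ) 0 = zI τ (Z : Set σ) := by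
      have h1 : pI ψ 0 = ⊥ := by
        have h2 : (Set.Iio 0 : Set ℕ) = ∅ := by ext x; simp
        rw [pI, h2, Set.image_empty, Ideal.span_empty]
      rw [aI, h1, sup_bot_eq]
    rw [h0] at ha ⊢
    refine ((span_X_isPrime _).mem_or_mem ha).resolve_left ?_
    apply X_notMem_span
    rintro ⟨i, hi, hij⟩
    rw [Sum.inl.injEq] at hij
    subst hij
    exact hj hi
  | succ q ih =>
    intro hq Z hZ j hj a ha
    have hq' : q ≤ c := (Nat.le_succ q).trans hq
    have h0 : aI ψ (Z : Set σ) (q + 1) = aI ψ (Z : Set σ) q ⊔ Ideal.span {lin (ψ q)} := by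
      rw [aI, aI, pI_succ, sup_assoc]
    rw [h0] at ha
    obtain ⟨b, hb, t, ht, hbt⟩ := Submodule.mem_sup.mp ha
    obtain ⟨g, rfl⟩ := Ideal.mem_span_singleton'.mp ht
    -- pass to the larger set of variables
    have hZj : aI ψ ((insert j Z : Finset σ) : Set σ) q =
        Ideal.span {(X (Sum.inl j) : MvPolynomial (σ ⊕ τ) ℂ)} ⊔ aI ψ (Z : Set σ) q := by
      rw [aI, aI, ← sup_assoc]
      congr 1
      rw [zI, zI, Finset.coe_insert, Set.image_insert_eq, Set.image_insert_eq, Ideal.span_insert]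
    have hcard : (insert j Z : Finset σ).card = Z.card + 1 := Finset.card_insert_of_notMem hj
    -- a further variable
    obtain ⟨j', hj'⟩ : ∃ j', j' ∉ (insert j Z : Finset σ) := by
      by_contra hcon
      push Not at hcon
      have h1 : (insert j Z : Finset σ) = Finset.univ := Finset.eq_univ_iff_forall.mpr hcon
      rw [h1, Finset.card_univ] at hcard
      omega
    have h2 : g ∈ aI ψ ((insert j Z : Finset σ) : Set σ) q := by
      refine kos_K ψ hli hq (j := j') (ih hq' _ (by omega) j' hj') g ?_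
      rw [hZj]
      have h3 : lin (ψ q) * g = X (Sum.inl j) * a - b := by rw [← hbt]; ring
      rw [h3]
      exact Ideal.sub_mem _ (Ideal.mem_sup_left (Ideal.mul_mem_right _ _
        (Ideal.mem_span_singleton_self _))) (Ideal.mem_sup_right hb)
    rw [hZj] at h2
    obtain ⟨t', ht', b', hb', hg⟩ := Submodule.mem_sup.mp h2
    obtain ⟨g', rfl⟩ := Ideal.mem_span_singleton'.mp ht'
    have h4 : a - lin (ψ q) * g' ∈ aI ψ (Z : Set σ) q := by
      apply ih hq' Z (by omega) j hj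
      have h5 : X (Sum.inl j) * (a - lin (ψ q) * g') = b + b' * lin (ψ q) := by
        rw [mul_sub, ← hbt, ← hg]; ring
      rw [h5]
      exact Ideal.add_mem _ hb (Ideal.mul_mem_right _ _ hb')
    rw [h0]
    have h6 : a = (a - lin (ψ q) * g') + lin (ψ q) * g' := by ring
    rw [h6]
    exact Ideal.add_mem _ (Ideal.mem_sup_left h4) (Ideal.mem_sup_right
      (Ideal.mul_mem_right _ _ (Ideal.mem_span_singleton_self _)))

lemma aI_empty (q : ℕ) : aI ψ (∅ : Set σ) q = pI ψ q := by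
  rw [aI, zI, Set.image_empty, Set.image_empty, Ideal.span_empty, bot_sup_eq]

lemma kos_reg_one (hq : q ≤ c) (hcard : q + 1 ≤ Fintype.card σ) (j : σ)
    (a : MvPolynomial (σ ⊕ τ) ℂ) (ha : X (Sum.inl j) * a ∈ pI ψ q) : a ∈ pI ψ q := by
  have h1 := kos_N ψ hli q hq (∅ : Finset σ) (by rw [Finset.card_empty]; omega) j
    (Finset.notMem_empty j) a
  rw [Finset.coe_empty, aI_empty ψ hli] at h1
  exact h1 ha

lemma kos_reg_two (hq : q ≤ c) (hcard : q + 2 ≤ Fintype.card σ) {i j : σ} (hij : j ≠ i)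
    (a : MvPolynomial (σ ⊕ τ) ℂ)
    (ha : ∃ m ∈ pI ψ q, ∃ b, (X (Sum.inl j) : MvPolynomial (σ ⊕ τ) ℂ) • a =
      m + (X (Sum.inl i) : MvPolynomial (σ ⊕ τ) ℂ) • b) :
    ∃ m ∈ pI ψ q, ∃ b, a = m + (X (Sum.inl i) : MvPolynomial (σ ⊕ τ) ℂ) • b := by
  classical
  have hZ : aI ψ (({i} : Finset σ) : Set σ) q = Ideal.span {(X (Sum.inl i) :
      MvPolynomial (σ ⊕ τ) ℂ)} ⊔ pI ψ q := by
    rw [aI, zI, Finset.coe_singleton, Set.image_singleton, Set.image_singleton]
  have h1 := kos_N ψ hli q hq ({i} : Finset σ) (by rw [Finset.card_singleton]; omega) j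
    (by simpa using hij) a
  rw [hZ] at h1
  obtain ⟨m, hm, b, hb⟩ := ha
  have h2 := h1 (by
    rw [← smul_eq_mul, hb]
    exact Ideal.add_mem _ (Ideal.mem_sup_right hm) (Ideal.mem_sup_left
      (Ideal.mul_mem_right _ _ (Ideal.mem_span_singleton_self _))))
  obtain ⟨t, ht, m', hm', htm⟩ := Submodule.mem_sup.mp h2
  obtain ⟨b', rfl⟩ := Ideal.mem_span_singleton'.mp ht
  exact ⟨m', hm', b', by rw [← htm, smul_eq_mul]; ring⟩

lemma lin_notMem_pI (hq : q < c) [Nonempty σ] : lin (ψ q) ∉ pI ψ q := by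
  intro hmem
  have hone : (fun _ => 1 : σ → ℂ) ≠ 0 := by
    intro h
    exact one_ne_zero (congrFun h (Classical.arbitrary σ))
  obtain ⟨T, hT⟩ := exists_minor _ (hli _ hone)
  have hdet : eval (fun _ => 1 : σ → ℂ) (mDet c ψ T) ≠ 0 := by
    rw [mDet, eval_det]; exact hT
  have h1 := Xi_pI ψ T hq.le hmem
  rw [Xi_psi ψ T q hq, if_neg (lt_irrefl q)] at h1
  rcases mul_eq_zero.mp h1 with h2 | h2
  · have h3 := congrArg (eval (Sum.elim (fun _ => 1) 0)) h2
    rw [eval_renL, map_zero] at h3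
    exact hdet h3
  · apply (hli _ hone).ne_zero (⟨q, hq⟩ : Fin c)
    funext b
    have h4 := congrArg (eval (Sum.elim (fun _ => 1) (Pi.single b 1))) h2
    rw [eval_lin, map_zero, Finset.sum_eq_single b] at h4
    · rw [Pi.single_eq_same, mul_one] at h4
      rw [rowEval_apply, h4]
      rfl
    · intro b' _ hb'
      rw [Pi.single_eq_of_ne hb', mul_zero]
    · intro h; exact absurd (Finset.mem_univ _) h

/-- The ideals are prime. -/
theorem pI_isPrime (hq : q ≤ c) (hcard : q + 1 ≤ Fintype.card σ) : (pI ψ q).IsPrime := by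
  have hne : Nonempty σ := Fintype.card_pos_iff.mp (by omega)
  have hone : (fun _ => 1 : σ → ℂ) ≠ 0 := by
    intro h
    exact one_ne_zero (congrFun h (Classical.arbitrary σ))
  obtain ⟨T, hT⟩ := exists_minor _ (hli _ hone)
  have hdet : eval (fun _ => 1 : σ → ℂ) (mDet c ψ T) ≠ 0 := by
    rw [mDet, eval_det]; exact hT
  have hker : pI ψ q = RingHom.ker (Xi c q ψ T) := by
    apply le_antisymm
    · intro f hf
      exact Xi_pI ψ T hq hf
    · intro g hg
      rw [RingHom.mem_ker] at hg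
      have h2 : gam (Yw σ τ) (renL σ τ (mDet c ψ T)) g ∈ pI ψ q := by
        have h3 := Xi_sub_gam_mem ψ T (q := q) g
        rw [hg, zero_sub] at h3
        exact (Ideal.neg_mem_iff _).mp h3
      obtain ⟨N, hN⟩ := pow_mul_mem_of_gam (v := Yw σ τ) (by
        rintro _ ⟨k, _, rfl⟩
        exact ⟨1, isWH_lin _⟩) (isWH_renL _) h2
      have hN' : renL σ τ (mDet c ψ T) ^ N * g ∈ pI ψ q := hN
      rw [← aI_empty ψ hli q]
      refine kos_local ψ hli (j := Classical.arbitrary σ) ?_ g ?_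
      · intro a ha
        rw [aI_empty ψ hli] at ha ⊢
        exact kos_reg_one ψ hli hq hcard _ a ha
      · intro z hz _ T' _
        have h4 := Xi_pI ψ T' hq hN'
        rw [map_mul, map_pow, Xi_renL] at h4
        have h5 : renL σ τ (mDet c ψ T) ^ N ≠ 0 := by
          apply pow_ne_zero
          intro h6
          have h3 := congrArg (eval (Sum.elim (fun _ => 1) 0)) h6
          rw [eval_renL, map_zero] at h3
          exact hdet h3
        rw [(mul_eq_zero.mp h4).resolve_left h5]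
        exact Ideal.zero_mem _
  rw [hker]
  exact RingHom.ker_isPrime _

end Koszul

end Pool.Agent.Hartshorne
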