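import Mathlib
import Pool.Agent.Hartshorne.Chain
import Pool.Agent.Hartshorne.Koszul

/-!
An ideal whose conormal module along a linear subspace has a homogeneous basis.
-/

namespace Pool.Agent.Hartshorne

open MvPolynomial

set_option linter.unusedSectionVars false

section Lift

variable {σ τ : Type*} [Fintype σ] [Fintype τ]

lemma low_wc {ρ : Type*} {v : ρ → ℕ} (w : ρ → ℕ) {k : ℕ} {g : MvPolynomial ρ ℂ} (h : Low v k g)
    (n : ℕ) : Low v k (weightedHomogeneousComponent w n g) := by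
  intro j hj
  rw [wc_comm, h j hj, map_zero]

lemma isWH_pow_zero {ρ : Type*} {v : ρ → ℕ} {x : MvPolynomial ρ ℂ}
    (hx : IsWeightedHomogeneous v x 0) (N : ℕ) : IsWeightedHomogeneous v (x ^ N) 0 := by
  have := hx.pow N
  rwa [smul_zero] at this

lemma wc_pow_mul {ρ : Type*} {v : ρ → ℕ} {x : MvPolynomial ρ ℂ}
    (hx : IsWeightedHomogeneous v x 0) (N k : ℕ) (g : MvPolynomial ρ ℂ) :
    weightedHomogeneousComponent v k (x ^ N * g) = x ^ N * weightedHomogeneousComponent v k g := by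
  have h := wc_mul_right (isWH_pow_zero hx N) g k
  rw [add_zero] at h
  rw [mul_comm, h, mul_comm]

lemma hc_pow_mul {ρ : Type*} (i : ρ) (N D : ℕ) (g : MvPolynomial ρ ℂ) :
    homogeneousComponent (N + D) (X i ^ N * g) = X i ^ N * homogeneousComponent D g := by
  have h1 : IsWeightedHomogeneous (1 : ρ → ℕ) ((X i : MvPolynomial ρ ℂ) ^ N) N := by
    have h2 := (isHomogeneous_X ℂ i).pow N
    rw [one_mul] at h2
    exact h2
  have h := wc_mul_right h1 g D
  rw [hc_eq, hc_eq, mul_comm, add_comm, h, mul_comm]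

/-- The second degree is at most the total degree. -/
lemma eq_zero_of_degrees {g : MvPolynomial (σ ⊕ τ) ℂ} {D k : ℕ} (hg : g.IsHomogeneous D)
    (hk : IsWeightedHomogeneous (Yw σ τ) g k) (hDk : D < k) : g = 0 := by
  by_contra hne
  obtain ⟨s, hs⟩ := exists_coeff_ne_zero hne
  have h1 := hg hs
  have h2 := hk hs
  rw [Finsupp.weight_apply, Finsupp.sum_fintype _ _ (by simp)] at h1 h2
  have h3 : ∑ i, s i • Yw σ τ i ≤ ∑ i, s i • (1 : σ ⊕ τ → ℕ) i := by
    refine Finset.sum_le_sum (fun i _ => ?_)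
    rw [smul_eq_mul, smul_eq_mul, Pi.one_apply]
    exact Nat.mul_le_mul_left _ (Yw_le i)
  omega

lemma low_zero_of_degrees {g : MvPolynomial (σ ⊕ τ) ℂ} {D k : ℕ} (hg : g.IsHomogeneous D)
    (hk : Low (Yw σ τ) k g) (hDk : D < k) : g = 0 := by
  obtain ⟨n, hn⟩ := exists_sum_wc (Yw σ τ) g
  rw [hn]
  refine Finset.sum_eq_zero (fun m _ => ?_)
  by_cases hm : m < k
  · exact hk m hm
  · exact eq_zero_of_degrees (isWH_wc hg m)
      (weightedHomogeneousComponent_isWeightedHomogeneous _ _) (by omega)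

variable {c : ℕ} {J : Ideal (MvPolynomial (σ ⊕ τ) ℂ)} {ψ : ℕ → τ → MvPolynomial σ ℂ}

lemma uniform_N (l : σ)
    (h : ∀ k < c, ∃ N, ∃ G ∈ J, weightedHomogeneousComponent (Yw σ τ) 1 G =
      X (Sum.inl l) ^ N * lin (ψ k)) :
    ∃ N₀, ∀ N, N₀ ≤ N → ∀ k < c, ∃ G ∈ J, weightedHomogeneousComponent (Yw σ τ) 1 G =
      X (Sum.inl l) ^ N * lin (ψ k) := by
  have h' : ∀ k : Fin c, ∃ N, ∃ G ∈ J, weightedHomogeneousComponent (Yw σ τ) 1 G =
      X (Sum.inl l) ^ N * lin (ψ k) := fun k => h k k.2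
  choose N hN using h'
  refine ⟨Finset.univ.sup N, fun n hn k hk => ?_⟩
  obtain ⟨G, hG, hG1⟩ := hN ⟨k, hk⟩
  have h1 : N ⟨k, hk⟩ ≤ n := (Finset.le_sup (Finset.mem_univ _)).trans hn
  refine ⟨X (Sum.inl l) ^ (n - N ⟨k, hk⟩) * G, J.mul_mem_left _ hG, ?_⟩
  rw [wc_pow_mul (isWH_X_inl l), hG1, ← mul_assoc, ← pow_add, Nat.sub_add_cancel h1]

/-- Elements of the ideal of the linear forms lift, up to a power of a variable. -/
lemma lift_pI (hJq : J ≤ posIdeal (Yw σ τ)) (l : σ) (N : ℕ)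
    (h : ∀ k < c, ∃ G ∈ J, weightedHomogeneousComponent (Yw σ τ) 1 G =
      X (Sum.inl l) ^ N * lin (ψ k)) {k : ℕ} {p : MvPolynomial (σ ⊕ τ) ℂ} (hp : p ∈ pI ψ c)
    (hpk : IsWeightedHomogeneous (Yw σ τ) p k) :
    ∃ b ∈ J, Low (Yw σ τ) k b ∧ weightedHomogeneousComponent (Yw σ τ) k b =
      X (Sum.inl l) ^ N * p := by
  have h' : ∀ k : Fin c, ∃ G ∈ J, weightedHomogeneousComponent (Yw σ τ) 1 G =
      X (Sum.inl l) ^ N * lin (ψ k) := fun k => h k k.2
  choose G hG hG1 using h'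
  set F : ℕ → MvPolynomial (σ ⊕ τ) ℂ := fun k => if h : k < c then G ⟨k, h⟩ else 0 with hF
  have hFk : ∀ k (hk : k < c), F k = G ⟨k, hk⟩ := fun k hk => by
    simp only [hF]; rw [dif_pos hk]
  have hmem : X (Sum.inl l) ^ N * p ∈
      Ideal.span ((fun j => weightedHomogeneousComponent (Yw σ τ) 1 (F j)) '' Set.Iio c) := by
    have h1 : ∀ q ∈ pI ψ c, X (Sum.inl l) ^ N * q ∈
      Ideal.span ((fun j => weightedHomogeneousComponent (Yw σ τ) 1 (F j)) '' Set.Iio c) := by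
      intro q hq
      rw [pI] at hq
      induction hq using Submodule.span_induction with
      | mem x hx =>
        obtain ⟨j, hj, rfl⟩ := hx
        refine Ideal.subset_span ⟨j, hj, ?_⟩
        simp only
        rw [hFk j hj, hG1]
      | zero => rw [mul_zero]; exact Ideal.zero_mem _
      | add x y _ _ hx hy => rw [mul_add]; exact Ideal.add_mem _ hx hy
      | smul a x _ hx =>
        rw [smul_eq_mul, mul_left_comm]; exact Ideal.mul_mem_left _ _ hx
    exact h1 p hp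
  have hpk' : IsWeightedHomogeneous (Yw σ τ) (X (Sum.inl l) ^ N * p) k := by
    have := (isWH_pow_zero (isWH_X_inl (τ := τ) l) N).mul hpk
    rwa [zero_add] at this
  obtain ⟨b, hb, hblow, hbk⟩ := exists_lift_of_mem_span (n := c) F (by
    intro i hi
    rw [hFk i hi]
    exact mem_posIdeal.mp (hJq (hG _))) le_rfl hpk' hmem
  refine ⟨b, ?_, hblow, hbk⟩
  refine (Ideal.span_le.mpr ?_) hb
  rintro _ ⟨j, hj, rfl⟩
  rw [SetLike.mem_coe, hFk j hj]
  exact hG _

/-- Leading forms of elements of `J`. -/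
theorem lead_mem_pI (hs : c + 1 ≤ Fintype.card σ) (hJ : J.IsPrime)
    (hJq : J ≤ posIdeal (Yw σ τ))
    (hdim : ((Fintype.card (σ ⊕ τ) : ℕ) : WithBot ℕ∞) ≤
      ringKrullDim (MvPolynomial (σ ⊕ τ) ℂ ⧸ J) + (c : WithBot ℕ∞))
    (hli : ∀ z : σ → ℂ, z ≠ 0 → LinearIndependent ℂ (fun i : Fin c => rowEval z (ψ i)))
    (l : σ) (N : ℕ)
    (h : ∀ k < c, ∃ G ∈ J, weightedHomogeneousComponent (Yw σ τ) 1 G =
      X (Sum.inl l) ^ N * lin (ψ k)) {g : MvPolynomial (σ ⊕ τ) ℂ} (hg : g ∈ J) {k : ℕ}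
    (hgk : Low (Yw σ τ) k g) : weightedHomogeneousComponent (Yw σ τ) k g ∈ pI ψ c := by
  classical
  have hne : Nonempty σ := ⟨l⟩
  have h' : ∀ k : Fin c, ∃ G ∈ J, weightedHomogeneousComponent (Yw σ τ) 1 G =
      X (Sum.inl l) ^ N * lin (ψ k) := fun k => h k k.2
  choose G hG hG1 using h'
  set F : ℕ → MvPolynomial (σ ⊕ τ) ℂ := fun k => if h : k < c then G ⟨k, h⟩ else 0 with hF
  have hFk : ∀ k (hk : k < c), F k = G ⟨k, hk⟩ := fun k hk => by
    simp only [hF]; rw [dif_pos hk]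
  have hprime : ∀ i ≤ c, (pI ψ i).IsPrime := fun i hi => pI_isPrime ψ hli hi (by omega)
  have hF0 : ∀ i < c, weightedHomogeneousComponent (Yw σ τ) 0 (F i) = 0 := by
    intro i hi
    rw [hFk i hi]
    exact mem_posIdeal.mp (hJq (hG _))
  have hF1 : ∀ i < c, weightedHomogeneousComponent (Yw σ τ) 1 (F i) =
      X (Sum.inl l) ^ N * lin (ψ i) := by
    intro i hi
    rw [hFk i hi, hG1]
  have hX : ∀ i ≤ c, (X (Sum.inl l) : MvPolynomial (σ ⊕ τ) ℂ) ^ N ∉ pI ψ i := by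
    intro i hi h0
    have h1 := (hprime i hi).mem_of_pow_mem _ h0
    have h2 := mem_posIdeal.mp (pI_le_posIdeal ψ i h1)
    rw [wc_self (isWH_X_inl l)] at h2
    exact X_ne_zero _ h2
  have hnot : ∀ i < c, weightedHomogeneousComponent (Yw σ τ) 1 (F i) ∉ pI ψ i := by
    intro i hi h0
    rw [hF1 i hi] at h0
    rcases (hprime i hi.le).mem_or_mem h0 with h1 | h1
    · exact hX i hi.le h1
    · exact lin_notMem_pI ψ hli hi h1
  have hst := lead_chain (v := Yw σ τ) Yw_le c F (pI ψ) hprime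
    (by
      intro i _ g hg hg0
      have h1 := mem_posIdeal.mp (pI_le_posIdeal ψ i hg)
      rwa [wc_self hg0] at h1)
    hF0 hnot
    (by
      intro i hi
      rw [hF1 i hi]
      exact Ideal.mul_mem_left _ _ (lin_mem_pI ψ (Nat.lt_succ_self i)))
    (fun i _ => pI_mono ψ (Nat.le_succ i))
    (by
      intro i hi g hg
      refine ⟨X (Sum.inl l) ^ N, pow_ne_zero _ (X_ne_zero _), isWH_pow_zero (isWH_X_inl l) N, ?_⟩
      rw [pI] at hg
      induction hg using Submodule.span_induction with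
      | mem x hx =>
        obtain ⟨j, hj, rfl⟩ := hx
        refine Ideal.subset_span ⟨j, hj, ?_⟩
        exact hF1 j (lt_of_lt_of_le hj hi)
      | zero => rw [mul_zero]; exact Ideal.zero_mem _
      | add x y _ _ hx hy => rw [mul_add]; exact Ideal.add_mem _ hx hy
      | smul a x _ hx =>
        rw [smul_eq_mul, mul_left_comm]; exact Ideal.mul_mem_left _ _ hx)
  obtain ⟨-, h2⟩ := chain_eq (v := Yw σ τ) Yw_le c F (pI ψ) hF0 hnot hst J hJ hJq
    (fun i hi => by rw [hFk i hi]; exact hG _)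
  have h3 := h2 hdim
  rw [← h3] at hg
  exact (hst c le_rfl).lead g hg k hgk

/-- Membership in `J` up to order `k`. -/
def JK (J : Ideal (MvPolynomial (σ ⊕ τ) ℂ)) (i j : σ) (k : ℕ) (g : MvPolynomial (σ ⊕ τ) ℂ) :
    Prop :=
  ∃ N a b, a ∈ J ∧ b ∈ J ∧ Low (Yw σ τ) k (X (Sum.inl i) ^ N * g - a) ∧
    Low (Yw σ τ) k (X (Sum.inl j) ^ N * g - b)

lemma JK_step (hs : c + 2 ≤ Fintype.card σ) (hJ : J.IsPrime)
    (hhom : ∀ f ∈ J, ∀ e, homogeneousComponent e f ∈ J)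
    (hJq : J ≤ posIdeal (Yw σ τ))
    (hdim : ((Fintype.card (σ ⊕ τ) : ℕ) : WithBot ℕ∞) ≤
      ringKrullDim (MvPolynomial (σ ⊕ τ) ℂ ⧸ J) + (c : WithBot ℕ∞))
    (hψh : ∀ k < c, ∃ e, HomRow e (ψ k))
    (hli : ∀ z : σ → ℂ, z ≠ 0 → LinearIndependent ℂ (fun i : Fin c => rowEval z (ψ i)))
    (h : ∀ k < c, ∀ l, ∃ N, ∃ G ∈ J, weightedHomogeneousComponent (Yw σ τ) 1 G =
      X (Sum.inl l) ^ N * lin (ψ k)) {i j : σ} (hij : j ≠ i) {k D : ℕ}
    {g : MvPolynomial (σ ⊕ τ) ℂ} (hgD : g.IsHomogeneous D) (hg : JK J i j k g) :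
    ∃ η, IsWeightedHomogeneous (Yw σ τ) η k ∧ η.IsHomogeneous D ∧ JK J i j (k + 1) (g - η) := by
  classical
  obtain ⟨N₁, hN₁⟩ := uniform_N i (fun k hk => h k hk i)
  obtain ⟨N₂, hN₂⟩ := uniform_N j (fun k hk => h k hk j)
  obtain ⟨N, a₀, b₀, ha₀, hb₀, hlowa, hlowb⟩ := hg
  set x : MvPolynomial (σ ⊕ τ) ℂ := X (Sum.inl i) with hx
  set y : MvPolynomial (σ ⊕ τ) ℂ := X (Sum.inl j) with hy
  have hx0 : IsWeightedHomogeneous (Yw σ τ) x 0 := isWH_X_inl i
  have hy0 : IsWeightedHomogeneous (Yw σ τ) y 0 := isWH_X_inl j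
  set a := homogeneousComponent (N + D) a₀ with ha
  set b := homogeneousComponent (N + D) b₀ with hb
  have haJ : a ∈ J := hhom _ ha₀ _
  have hbJ : b ∈ J := hhom _ hb₀ _
  have hxa : x ^ N * g - a = homogeneousComponent (N + D) (x ^ N * g - a₀) := by
    rw [map_sub, hx, hc_pow_mul, homogeneousComponent_eq_self hgD]
  have hyb : y ^ N * g - b = homogeneousComponent (N + D) (y ^ N * g - b₀) := by
    rw [map_sub, hy, hc_pow_mul, homogeneousComponent_eq_self hgD]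
  have hlowa' : Low (Yw σ τ) k (x ^ N * g - a) := by rw [hxa]; exact low_wc _ hlowa _
  have hlowb' : Low (Yw σ τ) k (y ^ N * g - b) := by rw [hyb]; exact low_wc _ hlowb _
  set r₁ := weightedHomogeneousComponent (Yw σ τ) k (x ^ N * g - a) with hr₁
  set r₂ := weightedHomogeneousComponent (Yw σ τ) k (y ^ N * g - b) with hr₂
  have hr₁k : IsWeightedHomogeneous (Yw σ τ) r₁ k :=
    weightedHomogeneousComponent_isWeightedHomogeneous _ _
  have hr₁D : r₁.IsHomogeneous (N + D) := by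
    rw [hr₁, hxa]
    exact isWH_wc (homogeneousComponent_isHomogeneous _ _) _
  have hM : y ^ N * r₁ - x ^ N * r₂ ∈ pI ψ c := by
    have h1 : y ^ N * r₁ - x ^ N * r₂ =
        weightedHomogeneousComponent (Yw σ τ) k (x ^ N * b - y ^ N * a) := by
      have h0 : y ^ N * (x ^ N * g - a) - x ^ N * (y ^ N * g - b) = x ^ N * b - y ^ N * a := by
        ring
      rw [hr₁, hr₂, ← wc_pow_mul hy0, ← wc_pow_mul hx0, ← map_sub, h0]
    rw [h1]
    refine lead_mem_pI (by omega) hJ hJq hdim hli i N₁ (hN₁ N₁ le_rfl)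
      (J.sub_mem (J.mul_mem_left _ hbJ) (J.mul_mem_left _ haJ)) ?_
    have h2 : x ^ N * b - y ^ N * a = y ^ N * (x ^ N * g - a) - x ^ N * (y ^ N * g - b) := by
      ring
    rw [h2]
    exact (hlowa'.mul_left _).sub (hlowb'.mul_left _)
  have hreg1 : ∀ f : MvPolynomial (σ ⊕ τ) ℂ, x • f ∈ pI ψ c → f ∈ pI ψ c := fun f hf =>
    kos_reg_one ψ hli le_rfl (by omega) i f hf
  have hreg2 : ∀ f : MvPolynomial (σ ⊕ τ) ℂ, (∃ m ∈ pI ψ c, ∃ b, y • f = m + x • b) →
      ∃ m ∈ pI ψ c, ∃ b, f = m + x • b := fun f hf =>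
    kos_reg_two ψ hli le_rfl (by omega) hij f hf
  obtain ⟨m₀, hm₀, η₀, hη₀⟩ := reg_pow (pI ψ c) x y hreg1 hreg2 N N r₁
    ⟨_, hM, r₂, by rw [smul_eq_mul, smul_eq_mul]; ring⟩
  rw [smul_eq_mul] at hη₀
  have hgens : ∀ g ∈ (fun k => lin (ψ k)) '' Set.Iio c,
      ∃ e, IsWeightedHomogeneous (Yw σ τ) g e := by
    rintro _ ⟨k, _, rfl⟩
    exact ⟨1, isWH_lin _⟩
  have hgens' : ∀ g ∈ (fun k => lin (ψ k)) '' Set.Iio c,
      ∃ e, IsWeightedHomogeneous (1 : σ ⊕ τ → ℕ) g e := by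
    rintro _ ⟨k, hk, rfl⟩
    obtain ⟨e, he⟩ := hψh k hk
    exact ⟨e + 1, isHomogeneous_lin he⟩
  set η := homogeneousComponent D (weightedHomogeneousComponent (Yw σ τ) k η₀) with hη
  have hηk : IsWeightedHomogeneous (Yw σ τ) η k := by
    rw [hη, hc_eq]
    exact isWH_wc (weightedHomogeneousComponent_isWeightedHomogeneous _ _) _
  have hηD : η.IsHomogeneous D := homogeneousComponent_isHomogeneous _ _
  have hp₁ : r₁ - x ^ N * η ∈ pI ψ c := by
    have h1 : r₁ = homogeneousComponent (N + D)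
        (weightedHomogeneousComponent (Yw σ τ) k m₀) + x ^ N * η := by
      rw [hη, hx, ← hc_pow_mul, ← hx, ← wc_pow_mul hx0, ← map_add, ← map_add, ← hη₀,
        wc_self hr₁k, homogeneousComponent_eq_self hr₁D]
    rw [h1, add_sub_cancel_right]
    exact wc_mem_span hgens' (wc_mem_span hgens hm₀ k) _
  have hp₂ : r₂ - y ^ N * η ∈ pI ψ c := by
    apply reg_pow_left (pI ψ c) x hreg1 N
    have h1 : x ^ N • (r₂ - y ^ N * η) =
        -(y ^ N * r₁ - x ^ N * r₂) + y ^ N * (r₁ - x ^ N * η) := by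
      rw [smul_eq_mul]; ring
    rw [h1]
    exact Ideal.add_mem _ (Ideal.neg_mem_iff _ |>.mpr hM) (Ideal.mul_mem_left _ _ hp₁)
  have hηx : ∀ {z : MvPolynomial (σ ⊕ τ) ℂ}, IsWeightedHomogeneous (Yw σ τ) z 0 →
      IsWeightedHomogeneous (Yw σ τ) (z ^ N * η) k := by
    intro z hz
    have := (isWH_pow_zero hz N).mul hηk
    rwa [zero_add] at this
  have hr₂k : IsWeightedHomogeneous (Yw σ τ) r₂ k :=
    weightedHomogeneousComponent_isWeightedHomogeneous _ _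
  obtain ⟨b₁, hb₁, hb₁low, hb₁k⟩ := lift_pI hJq i (N₁ + N₂) (hN₁ _ (Nat.le_add_right _ _)) hp₁
    (hr₁k.sub (hηx hx0))
  obtain ⟨b₂, hb₂, hb₂low, hb₂k⟩ := lift_pI hJq j (N₁ + N₂) (hN₂ _ (Nat.le_add_left _ _)) hp₂
    (hr₂k.sub (hηx hy0))
  refine ⟨η, hηk, hηD, N₁ + N₂ + N, x ^ (N₁ + N₂) * a + b₁, y ^ (N₁ + N₂) * b + b₂,
    J.add_mem (J.mul_mem_left _ haJ) hb₁, J.add_mem (J.mul_mem_left _ hbJ) hb₂, ?_, ?_⟩
  · have h1 : x ^ (N₁ + N₂ + N) * (g - η) - (x ^ (N₁ + N₂) * a + b₁) =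
        x ^ (N₁ + N₂) * ((x ^ N * g - a) - x ^ N * η) - b₁ := by
      rw [pow_add _ (N₁ + N₂) N]; ring
    rw [h1]
    apply low_succ
    · exact ((hlowa'.sub (low_of_isWeightedHomogeneous (hηx hx0))).mul_left _).sub hb₁low
    · rw [map_sub, wc_pow_mul hx0, map_sub, wc_self (hηx hx0), hb₁k, ← hr₁, sub_self]
  · have h1 : y ^ (N₁ + N₂ + N) * (g - η) - (y ^ (N₁ + N₂) * b + b₂) =
        y ^ (N₁ + N₂) * ((y ^ N * g - b) - y ^ N * η) - b₂ := by
      rw [pow_add _ (N₁ + N₂) N]; ring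
    rw [h1]
    apply low_succ
    · exact ((hlowb'.sub (low_of_isWeightedHomogeneous (hηx hy0))).mul_left _).sub hb₂low
    · rw [map_sub, wc_pow_mul hy0, map_sub, wc_self (hηx hy0), hb₂k, ← hr₂, sub_self]

/-- Each linear form is the linear part of an element of the ideal. -/
theorem exists_mem_of_lin (hs : c + 2 ≤ Fintype.card σ) (hJ : J.IsPrime)
    (hhom : ∀ f ∈ J, ∀ e, homogeneousComponent e f ∈ J)
    (hJq : J ≤ posIdeal (Yw σ τ))
    (hdim : ((Fintype.card (σ ⊕ τ) : ℕ) : WithBot ℕ∞) ≤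
      ringKrullDim (MvPolynomial (σ ⊕ τ) ℂ ⧸ J) + (c : WithBot ℕ∞))
    (hψh : ∀ k < c, ∃ e, HomRow e (ψ k))
    (hli : ∀ z : σ → ℂ, z ≠ 0 → LinearIndependent ℂ (fun i : Fin c => rowEval z (ψ i)))
    (h : ∀ k < c, ∀ l, ∃ N, ∃ G ∈ J, weightedHomogeneousComponent (Yw σ τ) 1 G =
      X (Sum.inl l) ^ N * lin (ψ k)) {k e : ℕ} (hk : k < c) (he : HomRow e (ψ k)) :
    ∃ F ∈ J, F.IsHomogeneous (e + 1) ∧ weightedHomogeneousComponent (Yw σ τ) 1 F =
      lin (ψ k) := by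
  classical
  obtain ⟨i, j, hij⟩ := Fintype.exists_pair_of_one_lt_card (α := σ) (by omega)
  obtain ⟨N₁, hN₁⟩ := uniform_N i (fun k hk => h k hk i)
  obtain ⟨N₂, hN₂⟩ := uniform_N j (fun k hk => h k hk j)
  have hiter : ∀ n, ∃ g : MvPolynomial (σ ⊕ τ) ℂ, g.IsHomogeneous (e + 1) ∧
      weightedHomogeneousComponent (Yw σ τ) 1 g = lin (ψ k) ∧ JK J i j (n + 2) g := by
    intro n
    induction n with
    | zero =>
      refine ⟨lin (ψ k), isHomogeneous_lin he, wc_self (isWH_lin _), ?_⟩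
      obtain ⟨G, hG, hG1⟩ := hN₁ (N₁ + N₂) (Nat.le_add_right _ _) k hk
      obtain ⟨H, hH, hH1⟩ := hN₂ (N₁ + N₂) (Nat.le_add_left _ _) k hk
      refine ⟨N₁ + N₂, G, H, hG, hH, ?_, ?_⟩
      · apply low_succ
        · apply low_succ (low_zero _)
          rw [map_sub, wc_pow_mul (isWH_X_inl i), wc_of_ne (isWH_lin _) zero_ne_one, mul_zero,
            mem_posIdeal.mp (hJq hG), sub_zero]
        · rw [map_sub, hG1, wc_pow_mul (isWH_X_inl i), wc_self (isWH_lin _), sub_self]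
      · apply low_succ
        · apply low_succ (low_zero _)
          rw [map_sub, wc_pow_mul (isWH_X_inl j), wc_of_ne (isWH_lin _) zero_ne_one, mul_zero,
            mem_posIdeal.mp (hJq hH), sub_zero]
        · rw [map_sub, hH1, wc_pow_mul (isWH_X_inl j), wc_self (isWH_lin _), sub_self]
    | succ n ih =>
      obtain ⟨g, hg, hg1, hgJ⟩ := ih
      obtain ⟨η, hη, hηD, hηJ⟩ := JK_step hs hJ hhom hJq hdim hψh hli h hij.symm hg hgJ
      refine ⟨g - η, hg.sub hηD, ?_, hηJ⟩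
      rw [map_sub, hg1, wc_of_ne hη (by omega), sub_zero]
  obtain ⟨g, hg, hg1, hgJ⟩ := hiter (e + 1)
  have hall : ∀ n, JK J i j (e + 1 + 2 + n) g := by
    intro n
    induction n with
    | zero => exact hgJ
    | succ n ih =>
      obtain ⟨η, hη, hηD, hηJ⟩ := JK_step hs hJ hhom hJq hdim hψh hli h hij.symm hg ih
      rw [eq_zero_of_degrees hηD hη (by omega), sub_zero] at hηJ
      exact hηJ
  refine ⟨g, ?_, hg, hg1⟩
  apply satIdeal_le hJ hJq le_rfl
  apply mem_satIdeal_of_forall Yw_le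
  intro n
  obtain ⟨N, a, -, ha, -, hlow, -⟩ := hall n
  refine ⟨X (Sum.inl i) ^ N, ?_, a, ha, hlow.mono (Nat.le_add_left _ _)⟩
  rw [wc_self (isWH_pow_zero (isWH_X_inl i) N)]
  exact pow_ne_zero _ (X_ne_zero _)

/-- **Theorem L**, core version. -/
theorem core_L (c : ℕ) (hs : c + 2 ≤ Fintype.card σ) (J : Ideal (MvPolynomial (σ ⊕ τ) ℂ))
    (hJ : J.IsPrime)
    (hhom : ∀ f ∈ J, ∀ e, homogeneousComponent e f ∈ J)
    (hJq : J ≤ posIdeal (Yw σ τ))
    (hdim : ((Fintype.card (σ ⊕ τ) : ℕ) : WithBot ℕ∞) ≤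
      ringKrullDim (MvPolynomial (σ ⊕ τ) ℂ ⧸ J) + (c : WithBot ℕ∞))
    (ψ : Fin c → τ → MvPolynomial σ ℂ) (f : Fin c → ℕ)
    (hψh : ∀ k, HomRow (f k) (ψ k))
    (hli : ∀ z : σ → ℂ, z ≠ 0 → LinearIndependent ℂ (fun i => rowEval z (ψ i)))
    (h : ∀ k l, ∃ N, ∃ G ∈ J, weightedHomogeneousComponent (Yw σ τ) 1 G =
      X (Sum.inl l) ^ N * lin (ψ k)) :
    ∃ F : Fin c → MvPolynomial (σ ⊕ τ) ℂ, (∀ k, (F k).IsHomogeneous (f k + 1)) ∧
      Ideal.span (Set.range F) = J := by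
  classical
  set ψ' : ℕ → τ → MvPolynomial σ ℂ := fun k => if h : k < c then ψ ⟨k, h⟩ else 0 with hψ'
  have hψk : ∀ k (hk : k < c), ψ' k = ψ ⟨k, hk⟩ := fun k hk => by
    simp only [hψ']; rw [dif_pos hk]
  have hψk' : ∀ k : Fin c, ψ' k = ψ k := fun k => hψk k k.2
  have hli' : ∀ z : σ → ℂ, z ≠ 0 → LinearIndependent ℂ (fun i : Fin c => rowEval z (ψ' i)) := by
    intro z hz
    simp only [hψk']
    exact hli z hz
  have hψh' : ∀ k < c, ∃ e, HomRow e (ψ' k) := fun k hk => ⟨f ⟨k, hk⟩, by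
    rw [hψk k hk]; exact hψh _⟩
  have h' : ∀ k < c, ∀ l, ∃ N, ∃ G ∈ J, weightedHomogeneousComponent (Yw σ τ) 1 G =
      X (Sum.inl l) ^ N * lin (ψ' k) := by
    intro k hk l
    rw [hψk k hk]
    exact h _ l
  have hF : ∀ k : Fin c, ∃ F ∈ J, F.IsHomogeneous (f k + 1) ∧
      weightedHomogeneousComponent (Yw σ τ) 1 F = lin (ψ k) := by
    intro k
    have h1 := exists_mem_of_lin hs hJ hhom hJq hdim hψh' hli' h' k.2 (e := f k)
      (by rw [hψk']; exact hψh k)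
    rwa [hψk'] at h1
  choose F hFJ hFh hF1 using hF
  refine ⟨F, hFh, ?_⟩
  apply le_antisymm
  · rw [Ideal.span_le]
    rintro _ ⟨k, rfl⟩
    exact hFJ k
  obtain ⟨i₀⟩ : Nonempty σ := Fintype.card_pos_iff.mp (by omega)
  obtain ⟨N₁, hN₁⟩ := uniform_N i₀ (fun k hk => h' k hk i₀)
  have hspanhom : ∀ g ∈ Ideal.span (Set.range F), ∀ e,
      homogeneousComponent e g ∈ Ideal.span (Set.range F) := by
    intro g hg e
    refine wc_mem_span (v := (1 : σ ⊕ τ → ℕ)) ?_ hg e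
    rintro _ ⟨k, rfl⟩
    exact ⟨_, hFh k⟩
  have hspanJ : Ideal.span (Set.range F) ≤ J := by
    rw [Ideal.span_le]
    rintro _ ⟨k, rfl⟩
    exact hFJ k
  set F' : ℕ → MvPolynomial (σ ⊕ τ) ℂ := fun k => if h : k < c then F ⟨k, h⟩ else 0 with hF'
  have hF'k : ∀ k (hk : k < c), F' k = F ⟨k, hk⟩ := fun k hk => by
    simp only [hF']; rw [dif_pos hk]
  have hkey : ∀ D n, ∀ g ∈ J, g.IsHomogeneous D → Low (Yw σ τ) (D + 1 - n) g →
      g ∈ Ideal.span (Set.range F) := by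
    intro D n
    induction n with
    | zero =>
      intro g _ hgD hlow
      rw [low_zero_of_degrees hgD hlow (by omega)]
      exact Ideal.zero_mem _
    | succ n ih =>
      intro g hgJ hgD hlow
      by_cases hn : D + 1 ≤ n
      · exact ih g hgJ hgD (hlow.mono (by omega))
      have hk1 : D + 1 - n = (D + 1 - (n + 1)) + 1 := by omega
      set k := D + 1 - (n + 1) with hk
      have h1 := lead_mem_pI (by omega) hJ hJq hdim hli' i₀ N₁ (hN₁ N₁ le_rfl) hgJ hlow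
      have h2 : pI ψ' c = Ideal.span
          ((fun j => weightedHomogeneousComponent (Yw σ τ) 1 (F' j)) '' Set.Iio c) := by
        rw [pI]
        congr 1
        apply Set.image_congr
        intro j hj
        have hj' : j < c := hj
        rw [hF'k j hj', hF1, hψk j hj']
      rw [h2] at h1
      obtain ⟨b, hb, hblow, hbk⟩ := exists_lift_of_mem_span (n := c) F' (by
        intro i hi
        rw [hF'k i hi]
        exact mem_posIdeal.mp (hJq (hFJ _))) le_rfl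
        (weightedHomogeneousComponent_isWeightedHomogeneous (w := Yw σ τ) k g) h1
      have hbF : b ∈ Ideal.span (Set.range F) := by
        refine (Ideal.span_le.mpr ?_) hb
        rintro _ ⟨j, hj, rfl⟩
        have hj' : j < c := hj
        rw [SetLike.mem_coe, hF'k j hj']
        exact Ideal.subset_span ⟨_, rfl⟩
      have hbF' := hspanhom b hbF D
      have h3 : g - homogeneousComponent D b ∈ Ideal.span (Set.range F) := by
        apply ih _ (J.sub_mem hgJ (hspanJ hbF')) (hgD.sub (homogeneousComponent_isHomogeneous _ _))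
        rw [hk1]
        apply low_succ
        · exact hlow.sub (low_wc _ hblow _)
        · rw [map_sub, hc_eq, wc_comm, hbk, ← hc_eq, sub_eq_zero]
          symm
          exact homogeneousComponent_eq_self (isWH_wc hgD k)
      have h4 := Ideal.add_mem _ h3 hbF'
      rwa [sub_add_cancel] at h4
  intro g hg
  rw [← sum_homogeneousComponent g]
  refine Ideal.sum_mem _ (fun D _ => ?_)
  refine hkey D (D + 1) _ (hhom g hg D) (homogeneousComponent_isHomogeneous _ _) ?_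
  rw [Nat.sub_self]
  exact low_zero _

end Lift

end Pool.Agent.Hartshorne
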