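import Mathlib
import Pool.Agent.Hartshorne.Chevalley
import Pool.Agent.Hartshorne.Elim

/-!
Smooth projective varieties stable under a finite reflection group.
-/

namespace Pool.Agent.Hartshorne

open MvPolynomial

set_option linter.unusedSectionVars false

section Invariants

variable {σ : Type*} [Fintype σ] [DecidableEq σ]

/-- Every polynomial is a root of a monic polynomial with invariant coefficients. -/
lemma exists_monic_invariant (G : Subgroup (GL σ ℂ)) [Finite G] (x : MvPolynomial σ ℂ) :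
    ∃ P : Polynomial (MvPolynomial σ ℂ), P.Monic ∧ P.eval x = 0 ∧
      ∀ k, ∀ g ∈ G, act (g : Matrix σ σ ℂ) (P.coeff k) = P.coeff k := by
  classical
  have : Fintype G := Fintype.ofFinite G
  refine ⟨∏ g : G, (Polynomial.X - Polynomial.C (act ((g : GL σ ℂ) : Matrix σ σ ℂ) x)), ?_, ?_, ?_⟩
  · exact Polynomial.monic_prod_of_monic _ _ (fun g _ => Polynomial.monic_X_sub_C _)
  · rw [Polynomial.eval_prod]
    refine Finset.prod_eq_zero (Finset.mem_univ (1 : G)) ?_
    simp [act_one]
  · intro k h hh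
    have hmap : (∏ g : G, (Polynomial.X - Polynomial.C
          (act ((g : GL σ ℂ) : Matrix σ σ ℂ) x))).map (act (h : Matrix σ σ ℂ)).toRingHom
        = ∏ g : G, (Polynomial.X - Polynomial.C (act ((g : GL σ ℂ) : Matrix σ σ ℂ) x)) := by
      rw [Polynomial.map_prod]
      have : ∀ g : G, (Polynomial.X - Polynomial.C
          (act ((g : GL σ ℂ) : Matrix σ σ ℂ) x)).map (act (h : Matrix σ σ ℂ)).toRingHom
          = Polynomial.X - Polynomial.C
            (act (((g * ⟨h, hh⟩ : G) : GL σ ℂ) : Matrix σ σ ℂ) x) := by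
        intro g
        rw [Polynomial.map_sub, Polynomial.map_X, Polynomial.map_C, Subgroup.coe_mul,
          Units.val_mul, act_mul]
        rfl
      simp_rw [this]
      exact Fintype.prod_equiv (Equiv.mulRight (⟨h, hh⟩ : G)) _ _ (fun g => rfl)
    have := congrArg (fun P => Polynomial.coeff P k) hmap
    simp only [Polynomial.coeff_map] at this
    exact this

/-- Homogeneous elements of a subalgebra generated by homogeneous elements are weighted
homogeneous polynomials in the generators. -/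
lemma exists_weighted_rep {τ : Type*} (f : τ → MvPolynomial σ ℂ) (d : τ → ℕ)
    (hf : ∀ i, (f i).IsHomogeneous (d i)) {h : MvPolynomial σ ℂ} {e : ℕ}
    (hh : h.IsHomogeneous e) (hmem : h ∈ Algebra.adjoin ℂ (Set.range f)) :
    ∃ P : MvPolynomial τ ℂ, IsWeightedHomogeneous d P e ∧ aeval f P = h := by
  rw [Algebra.adjoin_range_eq_range_aeval] at hmem
  obtain ⟨P, hP⟩ := hmem
  refine ⟨weightedHomogeneousComponent d e P, weightedHomogeneousComponent_isWeightedHomogeneous _ _,
    ?_⟩
  have hP' : (aeval f) P = h := hP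
  rw [aeval_weightedHomogeneousComponent f d hf, hP', homogeneousComponent_eq_self hh]

end Invariants

/-- The gradient of a polynomial at a point. -/
noncomputable def grad {σ : Type*} (p : σ → ℂ) : MvPolynomial σ ℂ →ₗ[ℂ] (σ → ℂ) :=
  LinearMap.pi (fun j => (aeval p).toLinearMap ∘ₗ (pderiv j).toLinearMap)

lemma grad_apply {σ : Type*} (p : σ → ℂ) (f : MvPolynomial σ ℂ) (j : σ) :
    grad p f j = eval p (pderiv j f) := by
  simp [grad, aeval_eq_eval]

lemma grad_mul {σ : Type*} (p : σ → ℂ) (f g : MvPolynomial σ ℂ) :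
    grad p (f * g) = eval p f • grad p g + eval p g • grad p f := by
  ext j
  simp only [grad_apply, pderiv_mul, map_add, map_mul, Pi.add_apply, Pi.smul_apply, smul_eq_mul]
  ring

/-- Evaluation of a polynomial not involving the variables in `Z` at a point with all other
coordinates zero. -/
lemma eval_eq_coeff_zero {τ : Type*} (Z : τ → Prop) (y : τ → ℂ) (hy : ∀ i, ¬ Z i → y i = 0)
    (Q : MvPolynomial τ ℂ) (hQ : ∀ s ∈ Q.support, ∀ i, Z i → s i = 0) :
    eval y Q = coeff 0 Q := by
  rw [eval_eq]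
  have hterm : ∀ s ∈ Q.support, s ≠ 0 → coeff s Q * ∏ i ∈ s.support, y i ^ s i = 0 := by
    intro s hs hs0
    obtain ⟨i, hi⟩ := Finsupp.support_nonempty_iff.mpr hs0
    have hne : ¬ Z i := fun hz => (Finsupp.mem_support_iff.mp hi) (hQ s hs i hz)
    rw [Finset.prod_eq_zero hi, mul_zero]
    rw [hy i hne]
    exact zero_pow (Finsupp.mem_support_iff.mp hi)
  by_cases h0 : (0 : τ →₀ ℕ) ∈ Q.support
  · rw [Finset.sum_eq_single 0 (fun s hs hs0 => hterm s hs hs0) (fun h => absurd h0 h)]
    simp
  · rw [notMem_support_iff.mp h0]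
    refine Finset.sum_eq_zero (fun s hs => hterm s hs ?_)
    rintro rfl; exact h0 hs

/-- **Main theorem.** -/
theorem reflection_case (N n D : ℕ)
    (G : Subgroup (GL (Fin (N + 1)) ℂ)) [Finite G]
    (hG : Subgroup.closure {g | g ∈ G ∧ IsReflection g} = G)
    (x : Fin (N + 1) → ℂ) (hx0 : x ≠ 0)
    (hx : ∀ h : MvPolynomial (Fin (N + 1)) ℂ, (∀ g ∈ G, act (g : Matrix _ _ ℂ) h = h) →
      ∀ e : ℕ, 0 < e → e < D → h.IsHomogeneous e → eval x h = 0)
    (I : Ideal (MvPolynomial (Fin (N + 1)) ℂ))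
    (hom : ∀ h ∈ I, ∀ e : ℕ, homogeneousComponent e h ∈ I)
    (hI : I.IsPrime)
    (hdim : ringKrullDim (MvPolynomial (Fin (N + 1)) ℂ ⧸ I) = ((n + 1 : ℕ) : WithBot ℕ∞))
    (hstab : ∀ g ∈ G, ∀ h ∈ I, act (g : Matrix _ _ ℂ) h ∈ I)
    (hmir : ∀ g ∈ G, IsReflection g →
      ∃ p : Fin (N + 1) → ℂ, (∀ h ∈ I, eval p h = 0) ∧ (g : Matrix _ _ ℂ).mulVec p ≠ p)
    (hcut : ∀ p : Fin (N + 1) → ℂ, p ≠ 0 →
      (∀ h ∈ I, h.totalDegree < D → eval p h = 0) →
      ∃ q : Fin (N - n) → MvPolynomial (Fin (N + 1)) ℂ,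
        (∀ k, q k ∈ I ∧ (q k).totalDegree < D) ∧
        LinearIndependent ℂ (fun k => fun j => eval p (pderiv j (q k)))) :
    ∃ h : Fin (N - n) → MvPolynomial (Fin (N + 1)) ℂ,
      (∀ k, ∃ e : ℕ, e < D ∧ (h k).IsHomogeneous e) ∧
      (∀ k, ∀ g ∈ G, act (g : Matrix _ _ ℂ) (h k) = h k) ∧
      Ideal.span (Set.range h) = I := by
  classical
  -- basic invariants
  obtain ⟨r, f, d, hr, hd, hfd, hfinv, hf⟩ := exists_basic_invariants G hG
  rw [Fintype.card_fin] at hr
  have hmemspan := mem_invSpan G hG I hI hstab hmir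
  -- the homogeneous invariants of small degree in `I`
  set 𝓗 : Set (MvPolynomial (Fin (N + 1)) ℂ) :=
    {h | h ∈ I ∧ (∀ g ∈ G, act (g : Matrix _ _ ℂ) h = h) ∧ ∃ e, h.IsHomogeneous e ∧ e < D}
    with h𝓗
  have hxH : ∀ h ∈ 𝓗, eval x h = 0 := by
    rintro h ⟨hhI, hinv, e, he, hlt⟩
    by_cases he0 : e = 0
    · subst he0
      have h0 : h = 0 := by
        have h1 : h.totalDegree = 0 := Nat.le_zero.mp he.totalDegree_le
        rw [totalDegree_eq_zero_iff_eq_C] at h1
        by_contra hne
        apply hI.ne_top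
        rw [Ideal.eq_top_iff_one]
        have hc : coeff 0 h ≠ 0 := by
          intro hc
          rw [hc, map_zero] at h1
          exact hne h1
        have := Ideal.mul_mem_left I (C (coeff 0 h)⁻¹) hhI
        rw [h1, coeff_C, if_pos rfl, ← C_mul, inv_mul_cancel₀ hc, C_1] at this
        exact this
      rw [h0, map_zero]
    · exact hx h hinv e (Nat.pos_of_ne_zero he0) hlt he
  -- elements of `invSpan`
  have hspan : ∀ k, k < D → ∀ h ∈ invSpan G I k,
      eval x h = 0 ∧ grad x h ∈ Submodule.span ℂ (grad x '' 𝓗) := by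
    intro k hk h hh
    unfold invSpan at hh
    induction hh using Submodule.span_induction with
    | mem h hh =>
      obtain ⟨hhI, hinv, hdeg⟩ := hh
      have hcomp : ∀ e ∈ Finset.range (h.totalDegree + 1), homogeneousComponent e h ∈ 𝓗 := by
        intro e he
        rw [Finset.mem_range] at he
        refine ⟨hom h hhI e, ?_, e, homogeneousComponent_isHomogeneous _ _, by omega⟩
        intro g hg
        rw [← act_homogeneousComponent, hinv g hg]
      rw [← sum_homogeneousComponent h, map_sum, map_sum]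
      refine ⟨Finset.sum_eq_zero (fun e he => hxH _ (hcomp e he)), ?_⟩
      exact Submodule.sum_mem _ (fun e he => Submodule.subset_span ⟨_, hcomp e he, rfl⟩)
    | zero => exact ⟨map_zero _, by rw [map_zero]; exact Submodule.zero_mem _⟩
    | add a b _ _ ha hb =>
      rw [map_add, map_add, ha.1, hb.1]
      exact ⟨add_zero _, Submodule.add_mem _ ha.2 hb.2⟩
    | smul a b _ hb =>
      rw [smul_eq_mul, map_mul, hb.1, grad_mul, hb.1, zero_smul, add_zero]
      exact ⟨mul_zero _, Submodule.smul_mem _ _ hb.2⟩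
  -- Jacobian criterion at the special point
  obtain ⟨q, hq, hqli⟩ := hcut x hx0 (fun h hh hdeg =>
    (hspan _ hdeg h (hmemspan _ h hh le_rfl)).1)
  have hqli' : LinearIndependent ℂ (fun k => grad x (q k)) := by
    have : (fun k => grad x (q k)) = (fun k => fun j => eval x (pderiv j (q k))) := by
      funext k j
      exact grad_apply x (q k) j
    rw [this]
    exact hqli
  -- choose invariants with independent gradients
  obtain ⟨b, hb, hbspan, hbli⟩ := exists_linearIndependent ℂ (grad x '' 𝓗)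
  have hqmem : ∀ k, grad x (q k) ∈ Submodule.span ℂ b := by
    intro k
    rw [hbspan]
    exact (hspan _ (hq k).2 _ (hmemspan _ _ (hq k).1 le_rfl)).2
  have hcard : N - n ≤ Nat.card b := by
    have hbfin : Finite b := hbli.finite
    have : Fintype b := Fintype.ofFinite b
    let B := Module.Basis.span hbli
    have h1 : Module.finrank ℂ (Submodule.span ℂ (Set.range (Subtype.val : b → _)))
        = Fintype.card b := Module.finrank_eq_card_basis B
    rw [Subtype.range_coe] at h1
    let q' : Fin (N - n) → Submodule.span ℂ b := fun k => ⟨grad x (q k), hqmem k⟩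
    have hq' : LinearIndependent ℂ q' := by
      apply LinearIndependent.of_comp (Submodule.span ℂ b).subtype
      exact hqli'
    have h2 := hq'.fintype_card_le_finrank
    rw [h1, Fintype.card_fin] at h2
    rwa [Nat.card_eq_fintype_card]
  have hbfin : Finite b := hbli.finite
  have : Fintype b := Fintype.ofFinite b
  rw [Nat.card_eq_fintype_card] at hcard
  obtain ⟨emb⟩ : Nonempty (Fin (N - n) ↪ b) :=
    Function.Embedding.nonempty_of_card_le (by simpa using hcard)
  have hch : ∀ k, ∃ h, h ∈ 𝓗 ∧ grad x h = (emb k : Fin (N + 1) → ℂ) := by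
    intro k
    obtain ⟨h, hh, hh2⟩ := hb (emb k).2
    exact ⟨h, hh, hh2⟩
  choose h hhH hhg using hch
  have hhli : LinearIndependent ℂ (fun k => grad x (h k)) := by
    simp_rw [hhg]
    exact hbli.comp emb emb.injective
  -- weighted homogeneous representations
  have hrep : ∀ k, ∃ (P : MvPolynomial (Fin r) ℂ) (e : ℕ), IsWeightedHomogeneous d P e ∧
      aeval f P = h k ∧ e < D := by
    intro k
    obtain ⟨_, hinv, e, he, hlt⟩ := hhH k
    obtain ⟨P, hP, hPh⟩ := exists_weighted_rep f d hfd he (hf _ hinv)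
    exact ⟨P, e, hP, hPh, hlt⟩
  choose P e hP hPh hlt using hrep
  have hPs : ∀ k, ∀ s ∈ (P k).support, ∀ i, D ≤ d i → s i = 0 := by
    intro k s hs i hi
    by_contra hne
    have hw := hP k (mem_support_iff.mp hs)
    have h1 : s i * d i ≤ Finsupp.weight d s := by
      rw [Finsupp.weight_apply, Finsupp.sum]
      exact Finset.single_le_sum (f := fun a => s a • d a) (fun _ _ => Nat.zero_le _)
        (Finsupp.mem_support_iff.mpr hne)
    have h2 : d i ≤ s i * d i := Nat.le_mul_of_pos_left _ (Nat.pos_of_ne_zero hne)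
    have := hlt k
    omega
  have hy : ∀ i, ¬ D ≤ d i → eval x (f i) = 0 := fun i hi =>
    hx (f i) (hfinv i) (d i) (hd i) (by omega) (hfd i)
  -- linear parts
  set A : Fin (N - n) → (Fin r → ℂ) := fun k => fun l => coeff (Finsupp.single l 1) (P k)
    with hA
  have hAli : LinearIndependent ℂ A := by
    let T : (Fin r → ℂ) →ₗ[ℂ] (Fin (N + 1) → ℂ) :=
      ∑ l, (LinearMap.proj l).smulRight (grad x (f l))
    apply LinearIndependent.of_comp T
    convert hhli using 1
    funext k
    show T (A k) = grad x (h k)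
    have hT : T (A k) = ∑ l, A k l • grad x (f l) := by
      simp [T, LinearMap.sum_apply]
    rw [hT]
    ext j
    rw [grad_apply, ← hPh k, pderiv_aeval, map_sum, Finset.sum_apply]
    refine Finset.sum_congr rfl (fun l _ => ?_)
    rw [Pi.smul_apply, grad_apply, smul_eq_mul, map_mul]
    congr 1
    have h2 : eval x (aeval f (pderiv l (P k))) = eval (fun i => eval x (f i)) (pderiv l (P k)) := by
      rw [← aeval_eq_eval, ← aeval_eq_eval, ← AlgHom.comp_apply, comp_aeval]
    rw [h2, eval_eq_coeff_zero (fun i => D ≤ d i) _ hy]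
    · rw [coeff_pderiv]
      simp [hA]
    · intro s hs i hi
      rw [mem_support_iff, coeff_pderiv] at hs
      have hs' : s + Finsupp.single l 1 ∈ (P k).support := by
        rw [mem_support_iff]
        exact left_ne_zero_of_mul hs
      have := hPs k _ hs' i hi
      rw [Finsupp.add_apply] at this
      omega
  -- complement
  have hrangeA : LinearIndepOn ℂ id (Set.range A) := hAli.linearIndepOn_id
  obtain ⟨b', hb't, hAb', hb'span, hb'li⟩ := exists_linearIndepOn_id_extension
    (t := Set.range A ∪ Set.range (fun j : Fin r => (Pi.single j 1 : Fin r → ℂ)))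
    hrangeA Set.subset_union_left
  set C' : Set (Fin r) := {j | (Pi.single j 1 : Fin r → ℂ) ∈ b' \ Set.range A} with hC'
  have hb'eq : b' ⊆ Set.range A ∪ (fun j => (Pi.single j 1 : Fin r → ℂ)) '' C' := by
    intro v hv
    by_cases hvA : v ∈ Set.range A
    · exact Or.inl hvA
    · right
      rcases hb't hv with h1 | ⟨j, rfl⟩
      · exact absurd h1 hvA
      · exact ⟨j, ⟨hv, hvA⟩, rfl⟩
  have hspanC : ∀ l : Fin r, (Pi.single l 1 : Fin r → ℂ) ∈ Submodule.span ℂ
      (Set.range A ∪ (fun j => (Pi.single j 1 : Fin r → ℂ)) '' C') := by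
    intro l
    exact Submodule.span_mono hb'eq (hb'span (Or.inr ⟨l, rfl⟩))
  have hcardC : Nat.card C' ≤ n + 1 := by
    have hb'fin : b'.Finite := by
      have := hb'li.linearIndependent.finite
      exact Set.toFinite b'
    have hinj : Function.Injective (fun j : Fin r => (Pi.single j 1 : Fin r → ℂ)) := by
      intro i j hij
      by_contra hne
      have := congrFun hij i
      simp [hne] at this
    have h1 : b'.ncard ≤ r := by
      have h2 := hb'li.linearIndependent
      have : Fintype b' := hb'fin.fintype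
      have h3 := h2.fintype_card_le_finrank
      rw [Module.finrank_fin_fun, ← Nat.card_eq_fintype_card] at h3
      exact h3
    have h4 : (Set.range A).ncard = N - n := by
      rw [← Set.image_univ, Set.ncard_image_of_injective _ hAli.injective, Set.ncard_univ]
      simp
    have h5 : ((fun j : Fin r => (Pi.single j 1 : Fin r → ℂ)) '' C').ncard
        = Nat.card C' := by
      rw [Set.ncard_image_of_injective _ hinj]
      rfl
    have h6 : (fun j : Fin r => (Pi.single j 1 : Fin r → ℂ)) '' C'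
        ⊆ b' \ Set.range A := by
      rintro v ⟨j, hj, rfl⟩
      exact hj
    have h7 := Set.ncard_le_ncard h6 (hb'fin.subset Set.sdiff_subset)
    have h8 : (b' \ Set.range A).ncard + (Set.range A).ncard = b'.ncard :=
      Set.ncard_sdiff_add_ncard_of_subset hAb' hb'fin
    omega
  -- the quotient by the chosen invariants
  set K : Ideal (MvPolynomial (Fin (N + 1)) ℂ) := Ideal.span (Set.range h) with hK
  have hKI : K ≤ I := by
    rw [hK, Ideal.span_le]
    rintro _ ⟨k, rfl⟩
    exact (hhH k).1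
  have hzero : ∀ k, aeval (fun l => Ideal.Quotient.mkₐ ℂ K (f l)) (P k) = 0 := by
    intro k
    have h1 : aeval (fun l => Ideal.Quotient.mkₐ ℂ K (f l)) (P k)
        = Ideal.Quotient.mkₐ ℂ K (aeval f (P k)) := by
      rw [← AlgHom.comp_apply, comp_aeval]
    rw [h1, hPh k, Ideal.Quotient.mkₐ_eq_mk, Ideal.Quotient.eq_zero_iff_mem]
    exact Ideal.subset_span ⟨k, rfl⟩
  have helim := elim_variables d hd (fun l => Ideal.Quotient.mkₐ ℂ K (f l)) P e hP hzero C' hspanC
  set ψK : MvPolynomial C' ℂ →ₐ[ℂ] (MvPolynomial (Fin (N + 1)) ℂ ⧸ K) :=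
    aeval (fun j : C' => Ideal.Quotient.mkₐ ℂ K (f j)) with hψK
  have hψKrange : ψK.range = Algebra.adjoin ℂ ((fun l => Ideal.Quotient.mkₐ ℂ K (f l)) '' C') := by
    rw [hψK, ← Algebra.adjoin_range_eq_range_aeval, Set.image_eq_range]
  have hadj : ∀ z ∈ Algebra.adjoin ℂ (Set.range f), Ideal.Quotient.mkₐ ℂ K z ∈ ψK.range := by
    intro z hz
    have h1 : Algebra.adjoin ℂ (Set.range f) ≤ ψK.range.comap (Ideal.Quotient.mkₐ ℂ K) := by
      rw [Algebra.adjoin_le_iff]
      rintro _ ⟨l, rfl⟩
      rw [SetLike.mem_coe, Subalgebra.mem_comap, hψKrange]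
      exact helim l
    exact h1 hz
  set φ : (MvPolynomial (Fin (N + 1)) ℂ ⧸ K) →ₐ[ℂ] (MvPolynomial (Fin (N + 1)) ℂ ⧸ I) :=
    Ideal.Quotient.factorₐ ℂ hKI with hφ
  have hφmk : ∀ z, φ (Ideal.Quotient.mkₐ ℂ K z) = Ideal.Quotient.mkₐ ℂ I z := fun z => rfl
  have hint : ∀ z : MvPolynomial (Fin (N + 1)) ℂ ⧸ I, IsIntegral (φ.comp ψK).range z := by
    intro z
    obtain ⟨z, rfl⟩ := Ideal.Quotient.mkₐ_surjective ℂ I z
    obtain ⟨Q, hQm, hQz, hQc⟩ := exists_monic_invariant G z
    have hlift : Q.map (Ideal.Quotient.mk I) ∈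
        Polynomial.lifts (algebraMap (φ.comp ψK).range (MvPolynomial (Fin (N + 1)) ℂ ⧸ I)) := by
      rw [Polynomial.lifts_iff_coeff_lifts]
      intro m
      rw [Polynomial.coeff_map]
      obtain ⟨t, ht⟩ := hadj _ (hf _ (hQc m))
      refine ⟨⟨Ideal.Quotient.mk I (Q.coeff m), t, ?_⟩, rfl⟩
      have ht' : ψK t = Ideal.Quotient.mkₐ ℂ K (Q.coeff m) := ht
      show φ (ψK t) = _
      rw [ht', hφmk]
      rfl
    obtain ⟨Q', hQ', _, hQ'm⟩ := Polynomial.lifts_and_natDegree_eq_and_monic hlift (hQm.map _)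
    refine ⟨Q', hQ'm, ?_⟩
    rw [Polynomial.eval₂_eq_eval_map, hQ', Polynomial.eval_map,
      Ideal.Quotient.mkₐ_eq_mk, Polynomial.eval₂_at_apply, hQz, map_zero]
  have hinj : Function.Injective (φ.comp ψK) := by
    apply injective_of_isIntegral _ hint
    rw [hdim]
    exact_mod_cast hcardC
  have hinvK : ∀ z ∈ I, (∀ g ∈ G, act (g : Matrix _ _ ℂ) z = z) → z ∈ K := by
    intro z hz hinv
    obtain ⟨t, ht⟩ := hadj z (hf z hinv)
    have ht' : ψK t = Ideal.Quotient.mkₐ ℂ K z := ht
    have h1 : (φ.comp ψK) t = 0 := by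
      rw [AlgHom.comp_apply, ht', hφmk, Ideal.Quotient.mkₐ_eq_mk,
        Ideal.Quotient.eq_zero_iff_mem]
      exact hz
    have h2 : t = 0 := hinj (by rw [h1, map_zero])
    rw [h2, map_zero, Ideal.Quotient.mkₐ_eq_mk] at ht'
    exact Ideal.Quotient.eq_zero_iff_mem.mp ht'.symm
  refine ⟨h, ?_, fun k => (hhH k).2.1, le_antisymm hKI ?_⟩
  · intro k
    obtain ⟨_, _, e, he, hlt⟩ := hhH k
    exact ⟨e, hlt, he⟩
  · intro z hz
    have h1 := hmemspan _ z hz le_rfl
    have h2 : invSpan G I z.totalDegree ≤ K := by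
      unfold invSpan
      rw [Ideal.span_le]
      intro y hy
      exact hinvK y hy.1 hy.2.1
    exact h2 h1

end Pool.Agent.Hartshorne
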