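import Mathlib
import Pool.Agent.Hartshorne.Refl
import Pool.Agent.Hartshorne.Lin

/-!
Codimension two: prime ideals `J` of `T[z]` cut out by polynomials of degree at most one in `z`.
-/

namespace Pool.Agent.Hartshorne

open MvPolynomial

/-- The polynomial `F.1 + z F.2`. -/
noncomputable def lin2 {T : Type*} [CommRing T] (F : T × T) : Polynomial T :=
  Polynomial.C F.1 + Polynomial.X * Polynomial.C F.2

lemma coeff_lin2_zero {T : Type*} [CommRing T] (F : T × T) : (lin2 F).coeff 0 = F.1 := by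
  simp [lin2]

lemma coeff_lin2_one {T : Type*} [CommRing T] (F : T × T) : (lin2 F).coeff 1 = F.2 := by
  simp [lin2, Polynomial.coeff_C]

/-- Homogenised evaluation at `z = - A / L`. -/
lemma sum_mem_comap {T : Type*} [CommRing T] (J : Ideal (Polynomial T)) (A L : T)
    (hAL : lin2 (A, L) ∈ J) {H : Polynomial T} (hH : H ∈ J) {k : ℕ} (hk : H.natDegree ≤ k) :
    (∑ i ∈ Finset.range (k + 1), H.coeff i * (-A) ^ i * L ^ (k - i)) ∈ J.comap Polynomial.C := by
  rw [Ideal.mem_comap, ← Ideal.Quotient.eq_zero_iff_mem]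
  set φ : T →+* (Polynomial T ⧸ J) := (Ideal.Quotient.mk J).comp Polynomial.C with hφ
  set ζ : Polynomial T ⧸ J := Ideal.Quotient.mk J Polynomial.X with hζ
  have h1 : φ L * ζ = - φ A := by
    have h2 : Ideal.Quotient.mk J (lin2 (A, L)) = 0 := by
      rw [Ideal.Quotient.eq_zero_iff_mem]; exact hAL
    simp only [lin2, map_add, map_mul] at h2
    rw [eq_neg_iff_add_eq_zero, ← h2, hφ, hζ]
    simp only [RingHom.comp_apply]
    ring
  have h3 : ∑ i ∈ Finset.range (k + 1), φ (H.coeff i) * ζ ^ i = 0 := by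
    have h4 : Ideal.Quotient.mk J H = 0 := by
      rw [Ideal.Quotient.eq_zero_iff_mem]; exact hH
    rw [Polynomial.as_sum_range_C_mul_X_pow' H (Nat.lt_succ_of_le hk), map_sum] at h4
    rw [← h4]
    refine Finset.sum_congr rfl (fun i _ => ?_)
    rw [map_mul, map_pow]
    rfl
  have h5 : Ideal.Quotient.mk J (Polynomial.C (∑ i ∈ Finset.range (k + 1),
      H.coeff i * (-A) ^ i * L ^ (k - i)))
      = φ L ^ k * ∑ i ∈ Finset.range (k + 1), φ (H.coeff i) * ζ ^ i := by
    have h6 : Ideal.Quotient.mk J (Polynomial.C (∑ i ∈ Finset.range (k + 1),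
      H.coeff i * (-A) ^ i * L ^ (k - i)))
      = φ (∑ i ∈ Finset.range (k + 1), H.coeff i * (-A) ^ i * L ^ (k - i)) := rfl
    rw [h6, map_sum, Finset.mul_sum]
    refine Finset.sum_congr rfl (fun i hi => ?_)
    rw [Finset.mem_range] at hi
    have h7 : φ L ^ k = φ L ^ (k - i) * φ L ^ i := by
      rw [← pow_add]; congr 1; omega
    rw [map_mul, map_mul, map_pow, map_pow, map_neg, h7, ← h1, mul_pow]
    ring
  rw [h5, h3, mul_zero]

lemma grad_zero_apply {τ : Type*} (L : MvPolynomial τ ℂ) (l : τ) :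
    grad 0 L l = coeff (Finsupp.single l 1) L := by
  rw [grad_apply, eval_zero_eq_coeff, coeff_pderiv]
  simp

/-- Two vectors on a line are dependent. -/
lemma not_li_of_smul {V : Type*} [AddCommGroup V] [Module ℂ V] {x y w : V}
    (hx : ∃ k : ℂ, x = k • w) (hy : ∃ k : ℂ, y = k • w) :
    ¬ LinearIndependent ℂ ![x, y] := by
  intro h
  obtain ⟨k, hk⟩ := hx
  obtain ⟨k', hk'⟩ := hy
  have h0 : x ≠ 0 := h.ne_zero 0
  rw [LinearIndependent.pair_iff] at h
  have h1 := h k' (-k) (by rw [hk, hk', smul_smul, smul_smul, ← add_smul]; ring_nf; simp)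
  have h2 : k = 0 := by simpa using h1.2
  apply h0
  rw [hk, h2, zero_smul]

/-- Evaluation of `F.1 + z F.2` at the point `(z, q)`. -/
noncomputable def leval {τ : Type*} (z : ℂ) (q : τ → ℂ)
    (F : MvPolynomial τ ℂ × MvPolynomial τ ℂ) : ℂ := eval q F.1 + z * eval q F.2

/-- Gradient of `F.1 + z F.2` at the point `(z, q)`. -/
noncomputable def lgrad {τ : Type*} (z : ℂ) (q : τ → ℂ)
    (F : MvPolynomial τ ℂ × MvPolynomial τ ℂ) : ℂ × (τ → ℂ) :=
  (eval q F.2, grad q F.1 + z • grad q F.2)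

/-- A singular `2 × 2` matrix maps to a line. -/
lemma exists_line {V : Type*} [AddCommGroup V] [Module ℂ V] (v₁ v₂ : V) {a b c d : ℂ}
    (h : a * d = b * c) : ∃ w : V, (∃ k : ℂ, a • v₁ + b • v₂ = k • w) ∧
      (∃ k : ℂ, c • v₁ + d • v₂ = k • w) := by
  by_cases ha : a = 0
  · by_cases hb : b = 0
    · refine ⟨c • v₁ + d • v₂, ⟨0, by simp [ha, hb]⟩, ⟨1, by simp⟩⟩
    · refine ⟨a • v₁ + b • v₂, ⟨1, by simp⟩, ⟨d / b, ?_⟩⟩
      have hc : c = 0 := by
        rw [ha, zero_mul] at h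
        exact (mul_eq_zero.mp h.symm).resolve_left hb
      rw [ha, hc]
      simp only [zero_smul, zero_add, smul_smul]
      rw [div_mul_cancel₀ _ hb]
  · refine ⟨a • v₁ + b • v₂, ⟨1, by simp⟩, ⟨c / a, ?_⟩⟩
    rw [smul_add, smul_smul, smul_smul, div_mul_cancel₀ _ ha]
    congr 2
    field_simp
    linear_combination h

lemma exists_common_zero_list {ι : Type*} [Fintype ι] (l : List (MvPolynomial ι ℂ))
    (h0 : ∀ f ∈ l, eval 0 f = 0) (hlt : l.length < Fintype.card ι) :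
    ∃ q : ι → ℂ, q ≠ 0 ∧ ∀ f ∈ l, eval q f = 0 := by
  obtain ⟨q, hq, h⟩ := exists_common_zero (fun k : Fin l.length => l.get k)
    (fun k => h0 _ (List.get_mem l k)) (by rwa [Fintype.card_fin])
  refine ⟨q, hq, ?_⟩
  intro f hf
  obtain ⟨k, rfl⟩ := List.get_of_mem hf
  exact h k

/-- Evaluation and gradient of a combination at a zero. -/
lemma lgrad_comb {τ : Type*} (z : ℂ) (q : τ → ℂ) (α β c A₁ A₂ L₁ L₂ G₀ : MvPolynomial τ ℂ)
    (q₁ : eval q L₁ = 0) (q₂ : eval q L₂ = 0) (qA₁ : eval q A₁ = 0) (qA₂ : eval q A₂ = 0)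
    (qG : eval q G₀ = 0) (gG : grad q G₀ = 0) :
    leval z q (α * A₁ + β * A₂ + c * G₀, α * L₁ + β * L₂) = 0 ∧
      lgrad z q (α * A₁ + β * A₂ + c * G₀, α * L₁ + β * L₂)
        = eval q α • ((0, grad q A₁ + z • grad q L₁) : ℂ × (τ → ℂ))
          + eval q β • ((0, grad q A₂ + z • grad q L₂) : ℂ × (τ → ℂ)) := by
  constructor
  · rw [leval]
    simp only [map_add, map_mul, q₁, q₂, qA₁, qA₂, qG, mul_zero, add_zero]
  · rw [lgrad]
    refine Prod.ext ?_ ?_
    · simp only [map_add, map_mul, q₁, q₂, mul_zero, add_zero, Prod.fst_add, Prod.smul_fst,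
        smul_zero]
    · simp only [map_add, grad_mul, q₁, q₂, qA₁, qA₂, qG, gG, zero_smul, smul_zero, add_zero,
        Prod.snd_add, Prod.smul_snd]
      module

/-- The case of the main theorem where `J` has no elements of order one at the origin. -/
theorem core_case {τ : Type*} [Fintype τ] [DecidableEq τ] (v : τ → ℕ) (hv : ∀ i, 0 < v i)
    (hcard : 6 ≤ Fintype.card τ) (w : ℕ)
    (J : Ideal (Polynomial (MvPolynomial τ ℂ))) (hJ : J.IsPrime)
    (hdim : ((Fintype.card τ : ℕ) : WithBot ℕ∞) ≤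
      ringKrullDim (Polynomial (MvPolynomial τ ℂ) ⧸ J) + 1)
    (hc0 : ∀ F ∈ J, coeff 0 (F.coeff 0) = 0)
    (hc1 : ∀ F ∈ J, coeff 0 (F.coeff 1) = 0)
    (hc2 : ∀ F ∈ J, ∀ a, coeff (Finsupp.single a 1) (F.coeff 0) = 0)
    (𝓗 : Set (MvPolynomial τ ℂ × MvPolynomial τ ℂ))
    (hHJ : ∀ F ∈ 𝓗, lin2 F ∈ J)
    (hHh : ∀ F ∈ 𝓗, F.2 ≠ 0 →
      ∃ e, IsWeightedHomogeneous v F.2 e ∧ IsWeightedHomogeneous v F.1 (e + w))
    (hjac : ∀ (z : ℂ) (q : τ → ℂ), (z ≠ 0 ∨ q ≠ 0) → (∀ F ∈ 𝓗, leval z q F = 0) →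
      ∃ F ∈ 𝓗, ∃ F' ∈ 𝓗, LinearIndependent ℂ ![lgrad z q F, lgrad z q F']) :
    ∃ F ∈ 𝓗, ∃ F' ∈ 𝓗, J = Ideal.span {lin2 F, lin2 F'} := by
  classical
  -- the special point
  have hA0 : ∀ F ∈ 𝓗, coeff 0 F.1 = 0 := fun F hF => by
    have := hc0 _ (hHJ F hF); rwa [coeff_lin2_zero] at this
  have hL0 : ∀ F ∈ 𝓗, coeff 0 F.2 = 0 := fun F hF => by
    have := hc1 _ (hHJ F hF); rwa [coeff_lin2_one] at this
  have hA1 : ∀ F ∈ 𝓗, ∀ a, coeff (Finsupp.single a 1) F.1 = 0 := fun F hF a => by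
    have := hc2 _ (hHJ F hF) a; rwa [coeff_lin2_zero] at this
  obtain ⟨F₁, hF₁, F₂, hF₂, hli⟩ := hjac 1 0 (Or.inl one_ne_zero) (by
    intro F hF
    rw [leval, eval_zero_eq_coeff, eval_zero_eq_coeff, hA0 F hF, hL0 F hF, mul_zero, add_zero])
  refine ⟨F₁, hF₁, F₂, hF₂, ?_⟩
  have hlg : ∀ F ∈ 𝓗, lgrad 1 0 F = (0, grad 0 F.2) := by
    intro F hF
    have h1 : grad 0 F.1 = 0 := by
      funext a
      rw [grad_zero_apply, hA1 F hF a]; rfl
    rw [lgrad, eval_zero_eq_coeff, hL0 F hF, h1, zero_add, one_smul]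
  rw [hlg F₁ hF₁, hlg F₂ hF₂] at hli
  obtain ⟨A₁, L₁⟩ := F₁
  obtain ⟨A₂, L₂⟩ := F₂
  simp only at hli
  have hliL : LinearIndependent ℂ ![grad 0 L₁, grad 0 L₂] := by
    rw [LinearIndependent.pair_iff] at hli ⊢
    intro a b hab
    apply hli a b
    rw [Prod.smul_mk, Prod.smul_mk, Prod.mk_add_mk, hab]
    simp
  have hL₁ne : L₁ ≠ 0 := by
    rintro rfl
    exact hliL.ne_zero 0 (by simp)
  have hL₂ne : L₂ ≠ 0 := by
    rintro rfl
    exact hliL.ne_zero 1 (by simp)
  obtain ⟨e₁, hL₁h, hA₁h⟩ := hHh _ hF₁ hL₁ne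
  obtain ⟨e₂, hL₂h, hA₂h⟩ := hHh _ hF₂ hL₂ne
  simp only at hL₁h hA₁h hL₂h hA₂h
  have hvan : ∀ F ∈ 𝓗, eval 0 F.2 = 0 := fun F hF => by rw [eval_zero_eq_coeff, hL0 F hF]
  have hvL₁ : eval 0 L₁ = 0 := hvan _ hF₁
  have hvL₂ : eval 0 L₂ = 0 := hvan _ hF₂
  -- primality
  have hpY : (Ideal.span {L₁, L₂}).IsPrime := by
    have := isPrime_span_of_linear v hv ![L₁, L₂] ![e₁, e₂]
      (by intro k; fin_cases k <;> simpa)
      (by
        convert hliL using 1
        funext k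
        fin_cases k <;> (funext l; simp [grad_zero_apply]))
    rwa [Matrix.range_cons, Matrix.range_cons, Matrix.range_empty, Set.union_empty,
      Set.singleton_union] at this
  have hp₁ : Prime L₁ := by
    rw [← Ideal.span_singleton_prime hL₁ne]
    have := isPrime_span_of_linear v hv ![L₁] ![e₁]
      (by intro k; fin_cases k; simpa)
      (by
        rw [linearIndependent_unique_iff]
        have h0 := hliL.ne_zero 0
        intro h
        apply h0
        funext l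
        have := congrFun h l
        simpa [grad_zero_apply] using this)
    rwa [Matrix.range_cons, Matrix.range_empty, Set.union_empty] at this
  have hndvd : ¬ L₁ ∣ L₂ := by
    rintro ⟨c, hc⟩
    have h1 : grad 0 L₂ = eval 0 c • grad 0 L₁ := by
      rw [hc, grad_mul, hvL₁]
      simp
    exact not_li_of_smul (w := grad 0 L₁) ⟨1, by simp⟩ ⟨_, h1⟩ hliL
  have hP1 : ∀ a b, L₁ * a = L₂ * b → ∃ s, b = L₁ * s ∧ a = L₂ * s := by
    intro a b hab
    have h1 : L₁ ∣ L₂ * b := ⟨a, hab.symm⟩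
    obtain ⟨s, hs⟩ := (hp₁.dvd_or_dvd h1).resolve_left hndvd
    refine ⟨s, hs, ?_⟩
    apply mul_left_cancel₀ hL₁ne
    rw [hab, hs]
    ring
  have hL₁Y : L₁ ∈ Ideal.span {L₁, L₂} := Ideal.subset_span (by simp)
  have hL₂Y : L₂ ∈ Ideal.span {L₁, L₂} := Ideal.subset_span (by simp)
  -- elements not in `J`
  have hzs : ∀ s : MvPolynomial τ ℂ, Polynomial.X + Polynomial.C s ∉ J := by
    intro s hs
    have := hc1 _ hs
    rw [Polynomial.coeff_add, Polynomial.coeff_X_one, Polynomial.coeff_C] at this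
    simp at this
  have hL₁J : Polynomial.C L₁ ∉ J := by
    intro h
    apply hliL.ne_zero 0
    funext a
    have := hc2 _ h a
    simpa [grad_zero_apply] using this
  -- the element `E`
  have hJ₁ := hHJ _ hF₁
  have hJ₂ := hHJ _ hF₂
  set E : MvPolynomial τ ℂ := L₁ * A₂ - L₂ * A₁ with hE
  have hCE : Polynomial.C E = Polynomial.C L₁ * lin2 (A₂, L₂) - Polynomial.C L₂ * lin2 (A₁, L₁) := by
    simp only [hE, lin2, map_sub, map_mul]
    ring
  have hEJ : Polynomial.C E ∈ J := by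
    rw [hCE]
    exact Ideal.sub_mem _ (Ideal.mul_mem_left _ _ hJ₂) (Ideal.mul_mem_left _ _ hJ₁)
  have hE0 : E ≠ 0 := by
    intro h
    obtain ⟨s, hs, _⟩ := hP1 A₂ A₁ (sub_eq_zero.mp h)
    have h1 : lin2 (A₁, L₁) = Polynomial.C L₁ * (Polynomial.X + Polynomial.C s) := by
      simp only [lin2, hs, map_mul]
      ring
    rw [h1] at hJ₁
    rcases hJ.mem_or_mem hJ₁ with h2 | h2
    · exact hL₁J h2
    · exact hzs s h2
  -- the contraction of `J` is principal
  set P := J.comap (Polynomial.C : MvPolynomial τ ℂ →+* Polynomial (MvPolynomial τ ℂ)) with hPdef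
  have hPprime : P.IsPrime := Ideal.comap_isPrime _ _
  have hPne : P ≠ ⊥ := by
    intro h
    apply hE0
    have : E ∈ P := hEJ
    rwa [h, Ideal.mem_bot] at this
  obtain ⟨G₀, hG₀P, hG₀⟩ := hPprime.exists_mem_prime_of_ne_bot hPne
  have hPspan : P = Ideal.span {G₀} := by
    by_contra hne
    have hGprime : (Ideal.span {G₀}).IsPrime := (Ideal.span_singleton_prime hG₀.ne_zero).mpr hG₀
    have hlt1 : Ideal.span {G₀} < P := by
      refine lt_of_le_of_ne ?_ (Ne.symm hne)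
      rw [Ideal.span_le, Set.singleton_subset_iff]
      exact hG₀P
    obtain ⟨x, hxP, hxG⟩ := Set.exists_of_ssubset hlt1
    set Q₁ := (Ideal.span {G₀}).map (Polynomial.C : MvPolynomial τ ℂ →+* _) with hQ₁
    set Q₂ := P.map (Polynomial.C : MvPolynomial τ ℂ →+* _) with hQ₂
    have hQ₁p : Q₁.IsPrime := Ideal.isPrime_map_C_of_isPrime
    have hQ₂p : Q₂.IsPrime := Ideal.isPrime_map_C_of_isPrime
    have hb1 : (⊥ : Ideal (Polynomial (MvPolynomial τ ℂ))) < Q₁ := by
      rw [bot_lt_iff_ne_bot]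
      intro h
      have h1 : Polynomial.C G₀ ∈ Q₁ := Ideal.mem_map_of_mem _ (Ideal.mem_span_singleton_self _)
      rw [h, Ideal.mem_bot, Polynomial.C_eq_zero] at h1
      exact hG₀.ne_zero h1
    have h12 : Q₁ < Q₂ := by
      refine lt_of_le_of_ne (Ideal.map_mono hlt1.le) ?_
      intro h
      have h1 : Polynomial.C x ∈ Q₂ := Ideal.mem_map_of_mem _ hxP
      rw [← h, hQ₁, Ideal.mem_map_C_iff] at h1
      have := h1 0
      rw [Polynomial.coeff_C_zero] at this
      exact hxG this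
    have h2J : Q₂ < J := by
      refine lt_of_le_of_ne Ideal.map_comap_le ?_
      intro h
      have h1 := hJ₁
      rw [← h, hQ₂, Ideal.mem_map_C_iff] at h1
      have := h1 1
      rw [coeff_lin2_one] at this
      exact hL₁J this
    have hd1 := ringKrullDim_quotient_succ_le_of_lt hb1
    have hd2 := ringKrullDim_quotient_succ_le_of_lt h12
    have hd3 := ringKrullDim_quotient_succ_le_of_lt h2J
    have hd0 : ringKrullDim (Polynomial (MvPolynomial τ ℂ) ⧸
        (⊥ : Ideal (Polynomial (MvPolynomial τ ℂ)))) =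
        ((Fintype.card τ + 1 : ℕ) : WithBot ℕ∞) := by
      rw [ringKrullDim_eq_of_ringEquiv (RingEquiv.quotientBot _),
        Polynomial.ringKrullDim_of_isNoetherianRing, MvPolynomial.ringKrullDim_of_isNoetherianRing,
        ringKrullDim_eq_zero_of_field, zero_add, Nat.card_eq_fintype_card]
      push_cast
      rfl
    rw [hd0] at hd1
    have h3 : ringKrullDim (Polynomial (MvPolynomial τ ℂ) ⧸ J) + 1 + 1 + 1 ≤
        ((Fintype.card τ + 1 : ℕ) : WithBot ℕ∞) :=
      (add_le_add_left ((add_le_add_left hd3 1).trans hd2) 1).trans hd1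
    refine dim_contra (a := ringKrullDim (Polynomial (MvPolynomial τ ℂ) ⧸ J) + 1)
      (n := Fintype.card τ + 1) h3 ?_
    push_cast
    exact add_le_add_left hdim 1
  have hmemP : ∀ x, Polynomial.C x ∈ J → ∃ c, x = G₀ * c := by
    intro x hx
    have h1 : x ∈ P := hx
    rw [hPspan, Ideal.mem_span_singleton] at h1
    exact h1
  have hG₀J : Polynomial.C G₀ ∈ J := hG₀P
  obtain ⟨e, he⟩ := hmemP E hEJ
  have heY : e ∉ Ideal.span {L₁, L₂} := by
    intro h
    rw [Ideal.mem_span_pair] at h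
    obtain ⟨a, b, hab⟩ := h
    obtain ⟨s, hs, _⟩ := hP1 (A₂ - a * G₀) (A₁ + b * G₀) (by
      have h1 : L₁ * A₂ - L₂ * A₁ = G₀ * (a * L₁ + b * L₂) := by rw [hab]; exact he
      linear_combination h1)
    have h1 : Polynomial.C L₁ * (Polynomial.X + Polynomial.C s)
        = lin2 (A₁, L₁) + Polynomial.C b * Polynomial.C G₀ := by
      have h2 : Polynomial.C A₁ + Polynomial.C b * Polynomial.C G₀
          = Polynomial.C L₁ * Polynomial.C s := by
        rw [← map_mul, ← map_mul, ← map_add, hs]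
      simp only [lin2]
      linear_combination -h2
    have h2 : Polynomial.C L₁ * (Polynomial.X + Polynomial.C s) ∈ J := by
      rw [h1]
      exact Ideal.add_mem _ hJ₁ (Ideal.mul_mem_left _ _ hG₀J)
    rcases hJ.mem_or_mem h2 with h3 | h3
    · exact hL₁J h3
    · exact hzs s h3
  have hEY : E ∈ Ideal.span {L₁, L₂} :=
    Ideal.sub_mem _ (Ideal.mul_mem_right _ _ hL₁Y) (Ideal.mul_mem_right _ _ hL₂Y)
  have hG₀Y : G₀ ∈ Ideal.span {L₁, L₂} := by
    rw [he] at hEY
    exact (hpY.mem_or_mem hEY).resolve_right heY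
  obtain ⟨g₁, g₂, hg⟩ := Ideal.mem_span_pair.mp hG₀Y
  obtain ⟨s, hs₁, hs₂⟩ := hP1 (A₂ - e * g₁) (A₁ + e * g₂) (by
      have h1 : L₁ * A₂ - L₂ * A₁ = (g₁ * L₁ + g₂ * L₂) * e := by rw [hg]; exact he
      linear_combination h1)
  -- structure of the elements of degree one in `z`
  have hstr : ∀ F : MvPolynomial τ ℂ × MvPolynomial τ ℂ, lin2 F ∈ J → ∃ α β c,
      F.2 = α * L₁ + β * L₂ ∧ F.1 = α * A₁ + β * A₂ + c * G₀ := by
    rintro ⟨A, L⟩ hF
    have h1 : Polynomial.C (L₁ * A - L * A₁) ∈ J := by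
      have : Polynomial.C (L₁ * A - L * A₁)
          = Polynomial.C L₁ * lin2 (A, L) - Polynomial.C L * lin2 (A₁, L₁) := by
        simp only [lin2, map_sub, map_mul]; ring
      rw [this]
      exact Ideal.sub_mem _ (Ideal.mul_mem_left _ _ hF) (Ideal.mul_mem_left _ _ hJ₁)
    have h2 : Polynomial.C (L₂ * A - L * A₂) ∈ J := by
      have : Polynomial.C (L₂ * A - L * A₂)
          = Polynomial.C L₂ * lin2 (A, L) - Polynomial.C L * lin2 (A₂, L₂) := by
        simp only [lin2, map_sub, map_mul]; ring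
      rw [this]
      exact Ideal.sub_mem _ (Ideal.mul_mem_left _ _ hF) (Ideal.mul_mem_left _ _ hJ₂)
    obtain ⟨h, hh⟩ := hmemP _ h1
    obtain ⟨h', hh'⟩ := hmemP _ h2
    have h3 : L * e = L₂ * h - L₁ * h' := by
      apply mul_left_cancel₀ hG₀.ne_zero
      have h4 : L * (L₁ * A₂ - L₂ * A₁) = L * (G₀ * e) := by rw [← he]
      linear_combination -h4 + L₂ * hh - L₁ * hh'
    have h4 : L * e ∈ Ideal.span {L₁, L₂} := by
      rw [h3]
      exact Ideal.sub_mem _ (Ideal.mul_mem_right _ _ hL₂Y) (Ideal.mul_mem_right _ _ hL₁Y)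
    have h5 := (hpY.mem_or_mem h4).resolve_right heY
    obtain ⟨α, β, hαβ⟩ := Ideal.mem_span_pair.mp h5
    have h6 : Polynomial.C (A - α * A₁ - β * A₂) ∈ J := by
      have : Polynomial.C (A - α * A₁ - β * A₂) = lin2 (A, L)
          - Polynomial.C α * lin2 (A₁, L₁) - Polynomial.C β * lin2 (A₂, L₂) := by
        rw [← hαβ]
        simp only [lin2, map_sub, map_mul, map_add]; ring
      rw [this]
      exact Ideal.sub_mem _ (Ideal.sub_mem _ hF (Ideal.mul_mem_left _ _ hJ₁))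
        (Ideal.mul_mem_left _ _ hJ₂)
    obtain ⟨c, hc⟩ := hmemP _ h6
    exact ⟨α, β, c, hαβ.symm, by linear_combination hc⟩
  -- gradients
  have hgradG : ∀ q, eval q L₁ = 0 → eval q L₂ = 0 →
      grad q G₀ = eval q g₁ • grad q L₁ + eval q g₂ • grad q L₂ := by
    intro q h1 h2
    rw [← hg, map_add, grad_mul, grad_mul, h1, h2, zero_smul, zero_smul, add_zero, add_zero]
  have hA₁' : A₁ = L₁ * s - e * g₂ := by linear_combination hs₁
  have hA₂' : A₂ = L₂ * s + e * g₁ := by linear_combination hs₂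
  have hg0 : eval 0 g₁ = 0 ∧ eval 0 g₂ = 0 := by
    have h1 : grad 0 G₀ = 0 := by
      funext a
      rw [grad_zero_apply]
      have := hc2 _ hG₀J a
      simpa using this
    have h2 := hgradG 0 hvL₁ hvL₂
    rw [h1] at h2
    rw [LinearIndependent.pair_iff] at hliL
    exact hliL _ _ h2.symm
  -- `e` does not vanish at the origin
  have he0 : eval 0 e ≠ 0 := by
    intro he0
    obtain ⟨q, hq, hqz⟩ := exists_common_zero_list [e, g₁, g₂, L₁, L₂]
      (by
        intro f hf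
        simp only [List.mem_cons, List.not_mem_nil, or_false] at hf
        rcases hf with rfl | rfl | rfl | rfl | rfl
        · exact he0
        · exact hg0.1
        · exact hg0.2
        · exact hvL₁
        · exact hvL₂) (by simp only [List.length_cons, List.length_nil]; omega)
    have q0 : eval q e = 0 := hqz e (by simp)
    have q1 : eval q g₁ = 0 := hqz g₁ (by simp)
    have q2 : eval q g₂ = 0 := hqz g₂ (by simp)
    have q3 : eval q L₁ = 0 := hqz L₁ (by simp)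
    have q4 : eval q L₂ = 0 := hqz L₂ (by simp)
    have qA₁ : eval q A₁ = 0 := by rw [hA₁']; simp [q0, q3]
    have qA₂ : eval q A₂ = 0 := by rw [hA₂']; simp [q0, q4]
    have qG : eval q G₀ = 0 := by rw [← hg]; simp [q3, q4]
    have gG : grad q G₀ = 0 := by rw [hgradG q q3 q4, q1, q2]; simp
    have gA₁ : grad q A₁ = eval q s • grad q L₁ := by
      rw [hA₁', map_sub, grad_mul, grad_mul, q0, q2, q3]; simp
    have gA₂ : grad q A₂ = eval q s • grad q L₂ := by
      rw [hA₂', map_add, grad_mul, grad_mul, q0, q1, q4]; simp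
    have hlg0 : ∀ F ∈ 𝓗, leval (-eval q s) q F = 0 ∧ lgrad (-eval q s) q F = 0 := by
      intro F hF
      obtain ⟨α, β, c, h1, h2⟩ := hstr F (hHJ F hF)
      have h3 := lgrad_comb (-eval q s) q α β c A₁ A₂ L₁ L₂ G₀ q3 q4 qA₁ qA₂ qG gG
      rw [← h1, ← h2] at h3
      refine ⟨h3.1, h3.2.trans ?_⟩
      rw [gA₁, gA₂, ← add_smul, ← add_smul, add_neg_cancel, zero_smul, zero_smul, Prod.mk_zero_zero,
        smul_zero, smul_zero, add_zero]
    obtain ⟨F, hF, F', hF', hli'⟩ := hjac (-eval q s) q (Or.inr hq) (fun F hF => (hlg0 F hF).1)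
    exact hli'.ne_zero 0 (hlg0 F hF).2
  -- `e` is a constant
  obtain ⟨ce, hce⟩ : ∃ c, e = C c := by
    have hEh : IsWeightedHomogeneous v E (e₁ + e₂ + w) := by
      have h1 := hL₁h.mul hA₂h
      have h2 := hL₂h.mul hA₁h
      have h3 : e₁ + (e₂ + w) = e₁ + e₂ + w := by ring
      have h4 : e₂ + (e₁ + w) = e₁ + e₂ + w := by ring
      rw [h3] at h1
      rw [h4] at h2
      have h5 := (weightedHomogeneousSubmodule ℂ v (e₁ + e₂ + w)).sub_mem h1 h2
      exact h5
    have h1 : e * G₀ = E := by rw [he]; ring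
    obtain ⟨a, ha⟩ := isWeightedHomogeneous_of_mul v (f := e) (g := G₀) (e := e₁ + e₂ + w)
      (by rw [h1]; exact hE0) (by rw [h1]; exact hEh)
    have h2 : coeff 0 e ≠ 0 := by rwa [← eval_zero_eq_coeff]
    have h3 := ha h2
    rw [map_zero] at h3
    rw [← h3] at ha
    refine ⟨coeff 0 e, ?_⟩
    have h4 := weightedHomogeneousComponent_zero (φ := e) (w := v) (fun i => (hv i).ne')
    rw [← h4]
    exact (weightedHomogeneousComponent_eq_self ha).symm
  have hcne : ce ≠ 0 := by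
    intro h
    apply he0
    rw [hce, h]
    simp
  set K : Ideal (Polynomial (MvPolynomial τ ℂ)) := Ideal.span {lin2 (A₁, L₁), lin2 (A₂, L₂)}
    with hK
  have hK₁ : lin2 (A₁, L₁) ∈ K := Ideal.subset_span (by simp)
  have hK₂ : lin2 (A₂, L₂) ∈ K := Ideal.subset_span (by simp)
  have hKJ : K ≤ J := by
    rw [hK, Ideal.span_le]
    rintro _ (rfl | rfl)
    · exact hJ₁
    · exact hJ₂
  have hG₀K : Polynomial.C G₀ ∈ K := by
    have h1 : Polynomial.C G₀ = Polynomial.C (C ce⁻¹) *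
        (Polynomial.C L₁ * lin2 (A₂, L₂) - Polynomial.C L₂ * lin2 (A₁, L₁)) := by
      rw [← hCE, he, hce, ← map_mul]
      congr 1
      have h2 : (C ce⁻¹ : MvPolynomial τ ℂ) * C ce = 1 := by
        rw [← C_mul, inv_mul_cancel₀ hcne, C_1]
      linear_combination (-G₀) * h2
    rw [h1]
    exact Ideal.mul_mem_left _ _ (Ideal.sub_mem _ (Ideal.mul_mem_left _ _ hK₂)
      (Ideal.mul_mem_left _ _ hK₁))
  -- `g₁`, `g₂` are not both in the prime ideal `(L₁, L₂)`
  have hgY : ¬ (g₁ ∈ Ideal.span {L₁, L₂} ∧ g₂ ∈ Ideal.span {L₁, L₂}) := by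
    rintro ⟨h1, h2⟩
    obtain ⟨a₁, b₁, hg₁⟩ := Ideal.mem_span_pair.mp h1
    obtain ⟨a₂, b₂, hg₂⟩ := Ideal.mem_span_pair.mp h2
    obtain ⟨q, hq, hqz⟩ := exists_common_zero_list [L₁, L₂]
      (by
        intro f hf
        simp only [List.mem_cons, List.not_mem_nil, or_false] at hf
        rcases hf with rfl | rfl
        · exact hvL₁
        · exact hvL₂) (by simp only [List.length_cons, List.length_nil]; omega)
    have q3 : eval q L₁ = 0 := hqz L₁ (by simp)
    have q4 : eval q L₂ = 0 := hqz L₂ (by simp)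
    have q1 : eval q g₁ = 0 := by rw [← hg₁]; simp [q3, q4]
    have q2 : eval q g₂ = 0 := by rw [← hg₂]; simp [q3, q4]
    have gG : grad q G₀ = 0 := by rw [hgradG q q3 q4, q1, q2]; simp
    have qG : eval q G₀ = 0 := by rw [← hg]; simp [q3, q4]
    have qA₁ : eval q A₁ = 0 := by rw [hA₁']; simp [q2, q3]
    have qA₂ : eval q A₂ = 0 := by rw [hA₂']; simp [q1, q4]
    have hA₁'' : A₁ = (s - e * a₂) * L₁ + (-(e * b₂)) * L₂ := by
      rw [hA₁', ← hg₂]; ring
    have hA₂'' : A₂ = (e * a₁) * L₁ + (s + e * b₁) * L₂ := by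
      rw [hA₂', ← hg₁]; ring
    set φ₁₁ := eval q (s - e * a₂) with hφ₁₁
    set φ₁₂ := eval q (-(e * b₂)) with hφ₁₂
    set φ₂₁ := eval q (e * a₁) with hφ₂₁
    set φ₂₂ := eval q (s + e * b₁) with hφ₂₂
    have gA₁ : grad q A₁ = φ₁₁ • grad q L₁ + φ₁₂ • grad q L₂ := by
      rw [hA₁'', map_add, grad_mul q _ L₁, grad_mul q _ L₂, q3, q4, zero_smul, zero_smul, add_zero,
        add_zero]
    have gA₂ : grad q A₂ = φ₂₁ • grad q L₁ + φ₂₂ • grad q L₂ := by
      rw [hA₂'', map_add, grad_mul q _ L₁, grad_mul q _ L₂, q3, q4, zero_smul, zero_smul, add_zero,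
        add_zero]
    obtain ⟨δ, hδ⟩ := IsAlgClosed.exists_eq_mul_self ((φ₁₁ - φ₂₂) ^ 2 + 4 * (φ₁₂ * φ₂₁))
    set z : ℂ := (-(φ₁₁ + φ₂₂) + δ) / 2 with hz
    have hdet : (z + φ₁₁) * (z + φ₂₂) = φ₁₂ * φ₂₁ := by
      rw [hz]
      linear_combination (-1/4) * hδ
    obtain ⟨u, ⟨k₁, hk₁⟩, ⟨k₂, hk₂⟩⟩ := exists_line (grad q L₁) (grad q L₂) hdet
    have hlg0 : ∀ F ∈ 𝓗, leval z q F = 0 ∧ ∃ k : ℂ, lgrad z q F = k • ((0, u) : ℂ × (τ → ℂ)) := by
      intro F hF
      obtain ⟨α, β, c, h1, h2⟩ := hstr F (hHJ F hF)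
      have h3 := lgrad_comb z q α β c A₁ A₂ L₁ L₂ G₀ q3 q4 qA₁ qA₂ qG gG
      rw [← h1, ← h2] at h3
      refine ⟨h3.1, eval q α * k₁ + eval q β * k₂, h3.2.trans ?_⟩
      have h4 : grad q A₁ + z • grad q L₁ = k₁ • u := by
        rw [gA₁, ← hk₁, add_smul]; abel
      have h5 : grad q A₂ + z • grad q L₂ = k₂ • u := by
        rw [gA₂, ← hk₂, add_smul]; abel
      rw [h4, h5, Prod.smul_mk, Prod.smul_mk, Prod.smul_mk, Prod.mk_add_mk, smul_zero, smul_zero,
        smul_zero, add_zero, add_smul, mul_smul, mul_smul]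
    obtain ⟨F, hF, F', hF', hli'⟩ := hjac z q (Or.inr hq) (fun F hF => (hlg0 F hF).1)
    exact not_li_of_smul (hlg0 F hF).2 (hlg0 F' hF').2 hli'
  -- leading coefficients
  have hPY : P ≤ Ideal.span {L₁, L₂} := by
    rw [hPspan, Ideal.span_le, Set.singleton_subset_iff]
    exact hG₀Y
  have hlead : ∀ A L : MvPolynomial τ ℂ, lin2 (A, L) ∈ J → L ∈ Ideal.span {L₁, L₂} →
      A ∉ Ideal.span {L₁, L₂} → ∀ H ∈ J, ∀ k, H.natDegree ≤ k →
      H.coeff k ∈ Ideal.span {L₁, L₂} := by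
    intro A L hAL hL hA H hH k hk
    have h1 := hPY (sum_mem_comap J A L hAL hH hk)
    rw [Finset.sum_range_succ, Nat.sub_self, pow_zero, mul_one] at h1
    have h2 : ∑ i ∈ Finset.range k, H.coeff i * (-A) ^ i * L ^ (k - i)
        ∈ Ideal.span {L₁, L₂} := by
      refine Ideal.sum_mem _ (fun i hi => ?_)
      rw [Finset.mem_range] at hi
      exact Ideal.mul_mem_left _ _ (Ideal.pow_mem_of_mem _ hL _ (by omega))
    have h3 := (Submodule.add_mem_iff_right _ h2).mp h1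
    rcases hpY.mem_or_mem h3 with h4 | h4
    · exact h4
    · exfalso
      have h5 := hpY.mem_of_pow_mem _ h4
      rw [Ideal.neg_mem_iff] at h5
      exact hA h5
  have hlead' : ∀ H ∈ J, ∀ k, H.natDegree ≤ k → H.coeff k ∈ Ideal.span {L₁, L₂} := by
    by_cases hg₂Y : g₂ ∈ Ideal.span {L₁, L₂}
    · have hg₁Y : g₁ ∉ Ideal.span {L₁, L₂} := fun h => hgY ⟨h, hg₂Y⟩
      refine hlead A₂ L₂ hJ₂ hL₂Y ?_
      intro h
      rw [hA₂'] at h
      have h1 := (Submodule.add_mem_iff_right _ (Ideal.mul_mem_right s _ hL₂Y)).mp h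
      rcases hpY.mem_or_mem h1 with h2 | h2
      · exact heY h2
      · exact hg₁Y h2
    · refine hlead A₁ L₁ hJ₁ hL₁Y ?_
      intro h
      rw [hA₁', sub_eq_add_neg] at h
      have h1 := (Submodule.add_mem_iff_right _ (Ideal.mul_mem_right s _ hL₁Y)).mp h
      rw [Ideal.neg_mem_iff] at h1
      rcases hpY.mem_or_mem h1 with h2 | h2
      · exact heY h2
      · exact hg₂Y h2
  -- conclusion
  have hmain : ∀ k : ℕ, ∀ H ∈ J, H.natDegree ≤ k → H ∈ K := by
    intro k
    induction k with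
    | zero =>
      intro H hH hk
      have h1 : H = Polynomial.C (H.coeff 0) :=
        Polynomial.eq_C_of_natDegree_le_zero hk
      rw [h1] at hH ⊢
      obtain ⟨c, hc⟩ := hmemP _ hH
      rw [hc, map_mul]
      exact Ideal.mul_mem_right _ _ hG₀K
    | succ k ih =>
      intro H hH hk
      obtain ⟨α, β, hαβ⟩ := Ideal.mem_span_pair.mp (hlead' H hH (k + 1) hk)
      set M : Polynomial (MvPolynomial τ ℂ) :=
        (Polynomial.C α * lin2 (A₁, L₁) + Polynomial.C β * lin2 (A₂, L₂)) * Polynomial.X ^ k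
        with hM
      have hMK : M ∈ K := Ideal.mul_mem_right _ _
        (Ideal.add_mem _ (Ideal.mul_mem_left _ _ hK₁) (Ideal.mul_mem_left _ _ hK₂))
      have hM' : M = Polynomial.C (α * A₁ + β * A₂) * Polynomial.X ^ k
          + Polynomial.C (H.coeff (k + 1)) * Polynomial.X ^ (k + 1) := by
        rw [hM, ← hαβ]
        simp only [lin2, map_add, map_mul]
        ring
      have h1 : (H - M).natDegree ≤ k := by
        rw [Polynomial.natDegree_le_iff_coeff_eq_zero]
        intro i hi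
        rw [Polynomial.coeff_sub, hM', Polynomial.coeff_add, Polynomial.coeff_C_mul_X_pow,
          Polynomial.coeff_C_mul_X_pow, if_neg (by omega), zero_add]
        by_cases hik : i = k + 1
        · rw [if_pos hik, hik, sub_self]
        · rw [if_neg hik, sub_zero]
          exact Polynomial.coeff_eq_zero_of_natDegree_lt (by omega)
      have h2 := ih (H - M) (Ideal.sub_mem _ hH (hKJ hMK)) h1
      have h3 := Ideal.add_mem _ h2 hMK
      simpa using h3
  exact le_antisymm (fun H hH => hmain _ H hH le_rfl) hKJ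

end Pool.Agent.Hartshorne
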