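import Mathlib
import Pool.Agent.Hartshorne.Lift
import Pool.Agent.Hartshorne.Point

/-!
The conormal module along a linear subspace.
-/

namespace Pool.Agent.Hartshorne

open MvPolynomial

set_option linter.unusedSectionVars false

lemma dim_le {a : WithBot ℕ∞} {n c N : ℕ} (h1 : a + (n : WithBot ℕ∞) ≤ (N : WithBot ℕ∞))
    (h2 : (N : WithBot ℕ∞) ≤ a + (c : WithBot ℕ∞)) : n ≤ c := by
  induction a using WithBot.recBotCoe with
  | bot =>
    rw [WithBot.bot_add, le_bot_iff] at h2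
    exact absurd h2 (WithBot.natCast_ne_bot _)
  | coe x =>
    induction x using ENat.recTopCoe with
    | top =>
      have h4 : ((⊤ : ℕ∞) : WithBot ℕ∞) + (n : WithBot ℕ∞) = ((⊤ : ℕ∞) : WithBot ℕ∞) := rfl
      rw [h4] at h1
      have h5 : (⊤ : ℕ∞) ≤ (N : ℕ∞) := by exact_mod_cast h1
      exact absurd h5 (by simp)
    | coe m =>
      have h3 : m + n ≤ N := by exact_mod_cast h1
      have h4 : N ≤ m + c := by exact_mod_cast h2
      omega

/-- Independent elements in an image. -/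
lemma exists_li_image {α V : Type*} [AddCommGroup V] [Module ℂ V] [Module.Finite ℂ V]
    (S : Set α) (φ : α → V) {c : ℕ}
    (h : Module.finrank ℂ (Submodule.span ℂ (φ '' S)) = c) :
    ∃ g : Fin c → α, (∀ i, g i ∈ S) ∧ LinearIndependent ℂ (fun i => φ (g i)) := by
  subst h
  obtain ⟨f, hf, -, hli⟩ := Submodule.exists_fun_fin_finrank_span_eq ℂ (φ '' S)
  choose g hg hgf using hf
  refine ⟨g, hg, ?_⟩
  have h1 : (fun i => φ (g i)) = f := funext hgf
  rw [h1]
  exact hli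

section Comm

variable {κ κ' : Type*}

lemma hc_map (T : MvPolynomial κ ℂ →ₗ[ℂ] MvPolynomial κ' ℂ) (e e' : ℕ)
    (hT : ∀ n f, f.IsHomogeneous n → homogeneousComponent e (T f) = if n = e' then T f else 0)
    (f : MvPolynomial κ ℂ) : homogeneousComponent e (T f) = T (homogeneousComponent e' f) := by
  conv_lhs => rw [← sum_homogeneousComponent f]
  rw [map_sum, map_sum, Finset.sum_congr rfl
    (fun n _ => hT n _ (homogeneousComponent_isHomogeneous n f)), Finset.sum_ite_eq']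
  split_ifs with h
  · rfl
  · rw [homogeneousComponent_eq_zero, map_zero]
    rw [Finset.mem_range] at h
    omega

lemma hc_algHom (T : MvPolynomial κ ℂ →ₐ[ℂ] MvPolynomial κ' ℂ)
    (hT : ∀ n f, f.IsHomogeneous n → (T f).IsHomogeneous n) (e : ℕ) (f : MvPolynomial κ ℂ) :
    homogeneousComponent e (T f) = T (homogeneousComponent e f) := by
  refine hc_map T.toLinearMap e e (fun n f hf => ?_) f
  have h1 := homogeneousComponent_of_mem (m := e) (hT n f hf)
  rw [AlgHom.toLinearMap_apply, h1]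
  by_cases h : e = n
  · rw [if_pos h, if_pos h.symm]
  · rw [if_neg h, if_neg (Ne.symm h)]

lemma hc_pderiv (j : κ) (e : ℕ) (f : MvPolynomial κ ℂ) :
    homogeneousComponent e (pderiv j f) = pderiv j (homogeneousComponent (e + 1) f) := by
  refine hc_map (pderiv j).toLinearMap e (e + 1) (fun n f hf => ?_) f
  have h0 : ((pderiv j).toLinearMap : MvPolynomial κ ℂ →ₗ[ℂ] MvPolynomial κ ℂ) f
      = pderiv j f := rfl
  rw [h0]
  rcases n with _ | n
  · have h1 : f = C (coeff 0 f) := totalDegree_eq_zero_iff_eq_C.mp (Nat.le_zero.mp hf.totalDegree_le)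
    rw [if_neg (by omega), h1, pderiv_C, map_zero]
  · have h1 := homogeneousComponent_of_mem (m := e) (hf.pderiv (i := j))
    rw [h1, Nat.add_sub_cancel]
    by_cases h : e = n
    · rw [if_pos h, if_pos (by omega)]
    · rw [if_neg h, if_neg (by omega)]

end Comm

section Conormal

variable {σ τ : Type*} [Fintype σ] [Fintype τ]

lemma isHomogeneous_projZ (n : ℕ) (f : MvPolynomial (σ ⊕ τ) ℂ) (hf : f.IsHomogeneous n) :
    (projZ σ τ f).IsHomogeneous n := by
  have h1 := hf.aeval (Sum.elim X (fun _ => 0) : σ ⊕ τ → MvPolynomial σ ℂ) (n := 1) (by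
      rintro (i | b)
      · exact isHomogeneous_X _ _
      · exact isHomogeneous_zero _ _ _)
  rwa [one_mul] at h1

lemma rowComp_rowOf (e : ℕ) (G : MvPolynomial (σ ⊕ τ) ℂ) :
    rowComp e (rowOf G) = rowOf (homogeneousComponent (e + 1) G) := by
  funext b
  have h0 : rowComp e (rowOf G) b = homogeneousComponent e (rowOf G b) := rfl
  rw [h0, rowOf_apply, rowOf_apply, hc_algHom _ isHomogeneous_projZ, hc_pderiv]

lemma homRow_rowOf {G : MvPolynomial (σ ⊕ τ) ℂ} {e : ℕ} (hG : G.IsHomogeneous (e + 1)) :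
    HomRow e (rowOf G) := by
  intro b
  rw [rowOf_apply]
  exact isHomogeneous_projZ _ _ (hG.pderiv (i := Sum.inr b))

variable {J : Ideal (MvPolynomial (σ ⊕ τ) ℂ)}

/-- The module of rows of the gradients. -/
noncomputable def rowMod (hJq : J ≤ posIdeal (Yw σ τ)) :
    Submodule (MvPolynomial σ ℂ) (τ → MvPolynomial σ ℂ) where
  carrier := {r | ∃ G ∈ J, rowOf G = r}
  zero_mem' := ⟨0, J.zero_mem, by
    funext b
    rw [rowOf_apply, map_zero, map_zero]; rfl⟩
  add_mem' := by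
    rintro _ _ ⟨G, hG, rfl⟩ ⟨H, hH, rfl⟩
    exact ⟨G + H, J.add_mem hG hH, rowOf_add _ _⟩
  smul_mem' := by
    rintro a _ ⟨G, hG, rfl⟩
    refine ⟨renL σ τ a * G, J.mul_mem_left _ hG, ?_⟩
    rw [rowOf_mul_of_mem (hJq hG), projZ_renL]

lemma mem_rowMod (hJq : J ≤ posIdeal (Yw σ τ)) {r : τ → MvPolynomial σ ℂ} :
    r ∈ rowMod hJq ↔ ∃ G ∈ J, rowOf G = r := Iff.rfl

/-- The conormal spaces. -/
noncomputable def rowE (J : Ideal (MvPolynomial (σ ⊕ τ) ℂ)) (z : σ → ℂ) : Submodule ℂ (τ → ℂ) :=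
  Submodule.span ℂ ((fun G => rowEval z (rowOf G)) '' (J : Set (MvPolynomial (σ ⊕ τ) ℂ)))

lemma rowEval_mem_rowE {G : MvPolynomial (σ ⊕ τ) ℂ} (hG : G ∈ J) (z : σ → ℂ) :
    rowEval z (rowOf G) ∈ rowE J z := Submodule.subset_span ⟨G, hG, rfl⟩

lemma eval_zero_of_le (hJq : J ≤ posIdeal (Yw σ τ)) {G : MvPolynomial (σ ⊕ τ) ℂ} (hG : G ∈ J)
    (z : σ → ℂ) : eval (Sum.elim z 0) G = 0 := by
  rw [← eval_projZ, (mem_posIdeal_iff G).mp (hJq hG), map_zero]

/-- At most `c` independent conormal vectors. -/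
lemma card_le_of_li (hJ : J.IsPrime) (hJq : J ≤ posIdeal (Yw σ τ)) {c : ℕ}
    (hdim : ((Fintype.card (σ ⊕ τ) : ℕ) : WithBot ℕ∞) ≤
      ringKrullDim (MvPolynomial (σ ⊕ τ) ℂ ⧸ J) + (c : WithBot ℕ∞)) (z : σ → ℂ) {n : ℕ}
    (G : Fin n → MvPolynomial (σ ⊕ τ) ℂ) (hG : ∀ k, G k ∈ J)
    (hli : LinearIndependent ℂ (fun k => rowEval z (rowOf (G k)))) : n ≤ c := by
  have hli' : LinearIndependent ℂ (fun k => grad (Sum.elim z 0) (G k)) := by
    apply LinearIndependent.of_comp (LinearMap.funLeft ℂ ℂ (Sum.inr : τ → σ ⊕ τ))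
    convert hli using 1
    funext k b
    rw [rowEval_rowOf]
    rfl
  have h1 := (point_case J hJ (Sum.elim z 0) (fun h hh => eval_zero_of_le hJq hh z) n G hG
    hli').1
  exact dim_le h1 hdim

/-- The conormal module is a bundle. -/
theorem isBundle_rowMod (hJ : J.IsPrime) (hhom : ∀ f ∈ J, ∀ e, homogeneousComponent e f ∈ J)
    (hJq : J ≤ posIdeal (Yw σ τ)) {c : ℕ}
    (hdim : ((Fintype.card (σ ⊕ τ) : ℕ) : WithBot ℕ∞) ≤
      ringKrullDim (MvPolynomial (σ ⊕ τ) ℂ ⧸ J) + (c : WithBot ℕ∞))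
    (hsm : ∀ z : σ → ℂ, z ≠ 0 → c ≤ Module.finrank ℂ (rowE J z)) :
    IsBundle c (rowMod hJq) (rowE J) := by
  have hgraded : ∀ P ∈ rowMod hJq, ∀ e, rowComp e P ∈ rowMod hJq := by
    rintro _ ⟨G, hG, rfl⟩ e
    exact ⟨_, hhom G hG (e + 1), (rowComp_rowOf e G).symm⟩
  have hE : ∀ z : σ → ℂ, rowE J z = Submodule.span ℂ ((fun r => rowEval z r) ''
      {r | r ∈ rowMod hJq ∧ ∃ e, HomRow e r}) := by
    intro z
    apply le_antisymm
    · rw [rowE, Submodule.span_le]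
      rintro _ ⟨G, hG, rfl⟩
      simp only [SetLike.mem_coe]
      obtain ⟨n, hn⟩ := exists_eq_sum_rowComp (rowOf G)
      rw [hn, rowEval_sum]
      refine Submodule.sum_mem _ (fun e _ => Submodule.subset_span ⟨_, ⟨?_, e, ?_⟩, rfl⟩)
      · exact hgraded _ ⟨G, hG, rfl⟩ e
      · exact homRow_rowComp _ _
    · rw [Submodule.span_le]
      rintro _ ⟨_, ⟨⟨G, hG, rfl⟩, -⟩, rfl⟩
      exact rowEval_mem_rowE hG z
  have hfin : ∀ z : σ → ℂ, z ≠ 0 → Module.finrank ℂ (rowE J z) = c := by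
    intro z hz
    apply le_antisymm _ (hsm z hz)
    obtain ⟨G, hG, hli⟩ := exists_li_image (J : Set (MvPolynomial (σ ⊕ τ) ℂ))
      (fun G => rowEval z (rowOf G)) rfl
    exact card_le_of_li hJ hJq hdim z G hG hli
  refine ⟨?_, ?_, hfin, hgraded⟩
  · rintro z _ _ ⟨G, hG, rfl⟩
    exact rowEval_mem_rowE hG z
  · intro z hz
    have h1 := hfin z hz
    rw [hE z] at h1
    obtain ⟨P, hP, hli⟩ := exists_li_image _ _ h1
    exact ⟨P, fun i => (hP i).1, fun i => (hP i).2, hli⟩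

/-- Theorem L in terms of sections of the conormal module. -/
theorem core_L2 (c : ℕ) (hs : c + 2 ≤ Fintype.card σ)
    (hJ : J.IsPrime)
    (hhom : ∀ f ∈ J, ∀ e, homogeneousComponent e f ∈ J)
    (hJq : J ≤ posIdeal (Yw σ τ))
    (hdim : ((Fintype.card (σ ⊕ τ) : ℕ) : WithBot ℕ∞) ≤
      ringKrullDim (MvPolynomial (σ ⊕ τ) ℂ ⧸ J) + (c : WithBot ℕ∞))
    (ψ : Fin c → τ → MvPolynomial σ ℂ) (f : Fin c → ℕ)
    (hψh : ∀ k, HomRow (f k) (ψ k)) (hψE : ∀ k, InE (rowE J) (ψ k))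
    (hli : ∀ z : σ → ℂ, z ≠ 0 → LinearIndependent ℂ (fun i => rowEval z (ψ i))) :
    ∃ F : Fin c → MvPolynomial (σ ⊕ τ) ℂ, (∀ k, (F k).IsHomogeneous (f k + 1)) ∧
      Ideal.span (Set.range F) = J := by
  classical
  have hb : IsBundle c (rowMod hJq) (rowE J) := by
    refine isBundle_rowMod hJ hhom hJq hdim (fun z hz => ?_)
    have h1 : Submodule.span ℂ (Set.range fun i => rowEval z (ψ i)) ≤ rowE J z := by
      rw [Submodule.span_le]
      rintro _ ⟨i, rfl⟩
      exact hψE i z hz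
    have h2 := Submodule.finrank_mono h1
    rwa [finrank_span_eq_card (hli z hz), Fintype.card_fin] at h2
  refine core_L c hs J hJ hhom hJq hdim ψ f hψh hli (fun k l => ?_)
  obtain ⟨K, G, hG, hGr⟩ := hb.exists_pow (g := X l) (by simp) (hψE k)
  refine ⟨K, G, hG, ?_⟩
  rw [wc_one_eq, hGr, lin_smul, map_pow, renL_X]

end Conormal

end Pool.Agent.Hartshorne
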