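import Mathlib
import Pool.Agent.Hartshorne.Conormal

/-!
Linear changes of coordinates, and the theorem on linear subspaces with split conormal bundle.
-/

namespace Pool.Agent.Hartshorne

open MvPolynomial

set_option linter.unusedSectionVars false

section Sub

variable {κ ρ π : Type*} [Fintype κ] [DecidableEq κ] [Fintype ρ] [DecidableEq ρ]

/-- Linear substitution. -/
noncomputable def lsub (Φ : (κ → ℂ) →ₗ[ℂ] (ρ → ℂ)) : MvPolynomial ρ ℂ →ₐ[ℂ] MvPolynomial κ ℂ :=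
  aeval (fun i => ∑ j, C (Φ (Pi.single j 1) i) * X j)

lemma lsub_X (Φ : (κ → ℂ) →ₗ[ℂ] (ρ → ℂ)) (i : ρ) :
    lsub Φ (X i) = ∑ j, C (Φ (Pi.single j 1) i) * X j := by simp [lsub]

lemma eval_lsub (Φ : (κ → ℂ) →ₗ[ℂ] (ρ → ℂ)) (w : κ → ℂ) (f : MvPolynomial ρ ℂ) :
    eval w (lsub Φ f) = eval (Φ w) f := by
  have h2 : (eval w).comp (lsub Φ : MvPolynomial ρ ℂ →+* MvPolynomial κ ℂ) = eval (Φ w) := by
    apply MvPolynomial.ringHom_ext
    · intro a; simp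
    · intro i
      rw [RingHom.comp_apply, RingHom.coe_coe, lsub_X, map_sum, eval_X]
      have h3 : Φ w = ∑ j, w j • Φ (Pi.single j 1) := by
        conv_lhs => rw [pi_eq_sum_univ' w, map_sum]
        refine Finset.sum_congr rfl (fun j _ => ?_)
        rw [map_smul]
      rw [h3, Finset.sum_apply]
      refine Finset.sum_congr rfl (fun j _ => ?_)
      rw [map_mul, eval_C, eval_X, Pi.smul_apply, smul_eq_mul, mul_comm]
  exact RingHom.congr_fun h2 f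

lemma isHomogeneous_lsub (Φ : (κ → ℂ) →ₗ[ℂ] (ρ → ℂ)) (n : ℕ) (f : MvPolynomial ρ ℂ)
    (hf : f.IsHomogeneous n) : (lsub Φ f).IsHomogeneous n := by
  have h1 := hf.aeval (fun i => ∑ j, C (Φ (Pi.single j 1) i) * X j :
      ρ → MvPolynomial κ ℂ) (n := 1)
    (fun i => IsHomogeneous.sum _ _ _ (fun j _ => isHomogeneous_C_mul_X _ _))
  rwa [one_mul] at h1

lemma lsub_symm_lsub (Φ : (κ → ℂ) ≃ₗ[ℂ] (ρ → ℂ)) (f : MvPolynomial ρ ℂ) :
    lsub (Φ.symm : (ρ → ℂ) →ₗ[ℂ] (κ → ℂ)) (lsub (Φ : (κ → ℂ) →ₗ[ℂ] (ρ → ℂ)) f) = f := by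
  apply MvPolynomial.funext
  intro w
  rw [eval_lsub, eval_lsub]
  simp

lemma lsub_lsub_symm (Φ : (κ → ℂ) ≃ₗ[ℂ] (ρ → ℂ)) (f : MvPolynomial κ ℂ) :
    lsub (Φ : (κ → ℂ) →ₗ[ℂ] (ρ → ℂ)) (lsub (Φ.symm : (ρ → ℂ) →ₗ[ℂ] (κ → ℂ)) f) = f := by
  apply MvPolynomial.funext
  intro w
  rw [eval_lsub, eval_lsub]
  simp

lemma pderiv_lsub (Φ : (κ → ℂ) →ₗ[ℂ] (ρ → ℂ)) (j : κ) (f : MvPolynomial ρ ℂ) :
    pderiv j (lsub Φ f) = ∑ i, C (Φ (Pi.single j 1) i) * lsub Φ (pderiv i f) := by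
  rw [lsub, pderiv_aeval]
  refine Finset.sum_congr rfl (fun i _ => ?_)
  rw [mul_comm]
  congr 1
  rw [map_sum, Finset.sum_eq_single j]
  · rw [pderiv_C_mul, pderiv_X_self, mul_one]
  · intro l _ hl
    rw [pderiv_C_mul, pderiv_X_of_ne hl, mul_zero]
  · intro h; exact absurd (Finset.mem_univ _) h

/-- The change of coordinates as an equivalence. -/
noncomputable def lequiv (Φ : (κ → ℂ) ≃ₗ[ℂ] (ρ → ℂ)) : MvPolynomial ρ ℂ ≃ₐ[ℂ] MvPolynomial κ ℂ :=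
  AlgEquiv.ofAlgHom (lsub (Φ : (κ → ℂ) →ₗ[ℂ] (ρ → ℂ)))
    (lsub (Φ.symm : (ρ → ℂ) →ₗ[ℂ] (κ → ℂ)))
    (AlgHom.ext fun f => lsub_lsub_symm Φ f) (AlgHom.ext fun f => lsub_symm_lsub Φ f)

/-- The transported ideal. -/
noncomputable def tI (Φ : (κ → ℂ) ≃ₗ[ℂ] (ρ → ℂ)) (I : Ideal (MvPolynomial ρ ℂ)) :
    Ideal (MvPolynomial κ ℂ) := I.comap (lsub (Φ.symm : (ρ → ℂ) →ₗ[ℂ] (κ → ℂ)))

variable (Φ : (κ → ℂ) ≃ₗ[ℂ] (ρ → ℂ)) (I : Ideal (MvPolynomial ρ ℂ))

lemma mem_tI (f : MvPolynomial κ ℂ) :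
    f ∈ tI Φ I ↔ lsub (Φ.symm : (ρ → ℂ) →ₗ[ℂ] (κ → ℂ)) f ∈ I := Iff.rfl

lemma lsub_mem_tI {f : MvPolynomial ρ ℂ} (hf : f ∈ I) :
    lsub (Φ : (κ → ℂ) →ₗ[ℂ] (ρ → ℂ)) f ∈ tI Φ I := by
  rw [mem_tI, lsub_symm_lsub]; exact hf

lemma tI_isPrime (hI : I.IsPrime) : (tI Φ I).IsPrime := Ideal.comap_isPrime _ _

lemma tI_hom (hhom : ∀ f ∈ I, ∀ e, homogeneousComponent e f ∈ I) :
    ∀ f ∈ tI Φ I, ∀ e, homogeneousComponent e f ∈ tI Φ I := by
  intro f hf e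
  rw [mem_tI, ← hc_algHom _ (isHomogeneous_lsub _)]
  exact hhom _ hf e

lemma tI_dim : ringKrullDim (MvPolynomial κ ℂ ⧸ tI Φ I) =
    ringKrullDim (MvPolynomial ρ ℂ ⧸ I) := by
  apply ringKrullDim_eq_of_ringEquiv
  refine Ideal.quotientEquiv (tI Φ I) I (lequiv Φ).symm.toRingEquiv ?_
  apply le_antisymm
  · intro f hf
    have h1 := Ideal.mem_map_of_mem (RingEquiv.toRingHom (lequiv Φ).symm.toRingEquiv)
      (lsub_mem_tI Φ I hf)
    have h2 : (RingEquiv.toRingHom (lequiv Φ).symm.toRingEquiv)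
        (lsub (Φ : (κ → ℂ) →ₗ[ℂ] (ρ → ℂ)) f) = f := lsub_symm_lsub Φ f
    rw [h2] at h1
    exact h1
  · rw [Ideal.map_le_iff_le_comap]
    intro f hf
    exact hf

lemma tI_span {c : ℕ} {F : Fin c → MvPolynomial κ ℂ} (hF : Ideal.span (Set.range F) = tI Φ I) :
    Ideal.span (Set.range fun k => lsub (Φ.symm : (ρ → ℂ) →ₗ[ℂ] (κ → ℂ)) (F k)) = I := by
  apply le_antisymm
  · rw [Ideal.span_le]
    rintro _ ⟨k, rfl⟩
    have h1 : F k ∈ tI Φ I := by rw [← hF]; exact Ideal.subset_span ⟨k, rfl⟩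
    exact h1
  · intro f hf
    have h1 := lsub_mem_tI Φ I hf
    rw [← hF] at h1
    have h2 := Ideal.mem_map_of_mem (lsub (Φ.symm : (ρ → ℂ) →ₗ[ℂ] (κ → ℂ))) h1
    rw [lsub_symm_lsub, Ideal.map_span, ← Set.range_comp] at h2
    exact h2

end Sub

/-- Extension of an injective linear map to an isomorphism. -/
lemma exists_extend {ρ : Type*} [Fintype ρ] {s : ℕ} (ι : (Fin s → ℂ) →ₗ[ℂ] (ρ → ℂ))
    (hι : Function.Injective ι) :
    ∃ (m : ℕ) (Φ : (Fin s ⊕ Fin m → ℂ) ≃ₗ[ℂ] (ρ → ℂ)), ∀ z, Φ (Sum.elim z 0) = ι z := by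
  obtain ⟨L', hL'⟩ := Submodule.exists_isCompl (LinearMap.range ι)
  refine ⟨Module.finrank ℂ L', (LinearEquiv.sumArrowLequivProdArrow _ _ ℂ ℂ) ≪≫ₗ
    (LinearEquiv.prodCongr (LinearEquiv.ofInjective ι hι)
      (Module.finBasis ℂ L').equivFun.symm) ≪≫ₗ
    (Submodule.prodEquivOfIsCompl _ _ hL'), fun z => ?_⟩
  simp only [LinearEquiv.trans_apply]
  have h1 : (LinearEquiv.sumArrowLequivProdArrow (Fin s) (Fin (Module.finrank ℂ L')) ℂ ℂ)
      (Sum.elim z 0) = (z, 0) := rfl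
  rw [h1, LinearEquiv.prodCongr_apply, Submodule.coe_prodEquivOfIsCompl']
  simp only [map_zero, ZeroMemClass.coe_zero, add_zero]
  rfl

section Lspace

variable {σ τ ρ : Type*} [Fintype σ] [Fintype τ] [DecidableEq σ] [DecidableEq τ] [Fintype ρ]
  [DecidableEq ρ]

lemma projZ_pderiv_inl (a : σ) (G : MvPolynomial (σ ⊕ τ) ℂ) :
    projZ σ τ (pderiv (Sum.inl a) G) = pderiv a (projZ σ τ G) := by
  induction G using MvPolynomial.induction_on with
  | C a =>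
    have h1 : ∀ b : ℂ, projZ σ τ (C b) = C b := by
      intro b
      rw [← algebraMap_eq, ← algebraMap_eq]
      exact (projZ σ τ).commutes _
    rw [pderiv_C, h1, pderiv_C, map_zero]
  | add f g hf hg => rw [map_add, map_add, hf, hg, map_add, map_add]
  | mul_X f i hf =>
    have key : projZ σ τ (pderiv (Sum.inl a) (X i : MvPolynomial (σ ⊕ τ) ℂ)) =
        pderiv a (projZ σ τ (X i)) := by
      rcases i with i | b
      · rw [projZ_X_inl]
        by_cases h : i = a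
        · subst h; rw [pderiv_X_self, pderiv_X_self, map_one]
        · rw [pderiv_X_of_ne (by simpa using h), pderiv_X_of_ne h, map_zero]
      · rw [projZ_X_inr, pderiv_X_of_ne (by simp), map_zero, map_zero]
    rw [pderiv_mul, map_add, map_mul, map_mul, hf, key, map_mul, pderiv_mul]

variable (Φ : (σ ⊕ τ → ℂ) ≃ₗ[ℂ] (ρ → ℂ)) (I : Ideal (MvPolynomial ρ ℂ))

/-- Contraction with the columns of the second group. -/
noncomputable def contr : (ρ → ℂ) →ₗ[ℂ] (τ → ℂ) where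
  toFun := fun w b => ∑ i, Φ (Pi.single (Sum.inr b) 1) i * w i
  map_add' := by
    intro x y; funext b
    simp [mul_add, Finset.sum_add_distrib]
  map_smul' := by
    intro t x; funext b
    simp only [Pi.smul_apply, smul_eq_mul, RingHom.id_apply, Finset.mul_sum]
    exact Finset.sum_congr rfl (fun i _ => by ring)

lemma contr_apply (w : ρ → ℂ) (b : τ) :
    contr Φ w b = ∑ i, Φ (Pi.single (Sum.inr b) 1) i * w i := rfl

/-- The gradient span at a point. -/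
noncomputable def gradSpan (p : ρ → ℂ) : Submodule ℂ (ρ → ℂ) :=
  Submodule.span ℂ {w | ∃ h ∈ I, w = fun b => eval p (pderiv b h)}

lemma sum_grad (z : σ → ℂ) (j : σ ⊕ τ) (h : MvPolynomial ρ ℂ) :
    ∑ i, Φ (Pi.single j 1) i * eval (Φ (Sum.elim z 0)) (pderiv i h) =
      eval (Sum.elim z 0) (pderiv j (lsub (Φ : (σ ⊕ τ → ℂ) →ₗ[ℂ] (ρ → ℂ)) h)) := by
  rw [pderiv_lsub, map_sum]
  refine Finset.sum_congr rfl (fun i _ => ?_)
  rw [map_mul, eval_C, eval_lsub]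
  rfl

lemma contr_grad (z : σ → ℂ) (h : MvPolynomial ρ ℂ) :
    contr Φ (fun b => eval (Φ (Sum.elim z 0)) (pderiv b h)) =
      rowEval z (rowOf (lsub (Φ : (σ ⊕ τ → ℂ) →ₗ[ℂ] (ρ → ℂ)) h)) := by
  funext b
  rw [contr_apply, rowEval_rowOf, ← sum_grad]

lemma contr_mem {z : σ → ℂ} {w : ρ → ℂ} (hw : w ∈ gradSpan I (Φ (Sum.elim z 0))) :
    contr Φ w ∈ rowE (tI Φ I) z := by
  have h1 : gradSpan I (Φ (Sum.elim z 0)) ≤ (rowE (tI Φ I) z).comap (contr Φ) := by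
    rw [gradSpan, Submodule.span_le]
    rintro _ ⟨h, hh, rfl⟩
    show contr Φ _ ∈ rowE (tI Φ I) z
    rw [contr_grad]
    exact rowEval_mem_rowE (lsub_mem_tI Φ I hh) z
  exact h1 hw

lemma contr_injOn (hL : ∀ (z : σ → ℂ), ∀ h ∈ I, eval (Φ (Sum.elim z 0)) h = 0) (z : σ → ℂ)
    {w : ρ → ℂ} (hw : w ∈ gradSpan I (Φ (Sum.elim z 0))) (h0 : contr Φ w = 0) : w = 0 := by
  have h1 : ∀ a : σ, ∑ i, Φ (Pi.single (Sum.inl a) 1) i * w i = 0 := by
    intro a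
    have h2 : gradSpan I (Φ (Sum.elim z 0)) ≤
        LinearMap.ker (∑ i, Φ (Pi.single (Sum.inl a) 1) i • LinearMap.proj (R := ℂ)
          (φ := fun _ : ρ => ℂ) i) := by
      rw [gradSpan, Submodule.span_le]
      rintro _ ⟨h, hh, rfl⟩
      rw [SetLike.mem_coe, LinearMap.mem_ker, LinearMap.sum_apply]
      simp only [LinearMap.smul_apply, LinearMap.proj_apply, smul_eq_mul]
      rw [sum_grad, ← eval_projZ, projZ_pderiv_inl]
      have h3 : projZ σ τ (lsub (Φ : (σ ⊕ τ → ℂ) →ₗ[ℂ] (ρ → ℂ)) h) = 0 := by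
        apply MvPolynomial.funext
        intro y
        rw [eval_projZ, eval_lsub, map_zero]
        exact hL y h hh
      rw [h3, map_zero, map_zero]
    have h3 := h2 hw
    rw [LinearMap.mem_ker, LinearMap.sum_apply] at h3
    simpa only [LinearMap.smul_apply, LinearMap.proj_apply, smul_eq_mul] using h3
  have h2 : ∀ j : σ ⊕ τ, ∑ i, Φ (Pi.single j 1) i * w i = 0 := by
    rintro (a | b)
    · exact h1 a
    · exact congrFun h0 b
  -- the vectors `Φ e_j` span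
  have h3 : ∀ u : ρ → ℂ, ∑ i, u i * w i = 0 := by
    intro u
    obtain ⟨x, rfl⟩ := Φ.surjective u
    have h4 : Φ x = ∑ j, x j • Φ (Pi.single j 1) := by
      conv_lhs => rw [pi_eq_sum_univ' x, map_sum]
      refine Finset.sum_congr rfl (fun j _ => ?_)
      rw [map_smul]
    rw [h4]
    simp only [Finset.sum_apply, Pi.smul_apply, smul_eq_mul, Finset.sum_mul]
    rw [Finset.sum_comm]
    refine Finset.sum_eq_zero (fun j _ => ?_)
    have h5 := h2 j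
    rw [Finset.sum_congr rfl (fun i _ => mul_assoc (x j) _ _), ← Finset.mul_sum, h5, mul_zero]
  funext i
  have h4 := h3 (Pi.single i 1)
  rw [Finset.sum_eq_single i] at h4
  · rwa [Pi.single_eq_same, one_mul] at h4
  · intro j _ hj
    rw [Pi.single_eq_of_ne hj, zero_mul]
  · intro h; exact absurd (Finset.mem_univ _) h

lemma contr_li (hL : ∀ (z : σ → ℂ), ∀ h ∈ I, eval (Φ (Sum.elim z 0)) h = 0) (z : σ → ℂ)
    {ι : Type*} (w : ι → (ρ → ℂ)) (hw : ∀ k, w k ∈ gradSpan I (Φ (Sum.elim z 0)))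
    (hli : LinearIndependent ℂ w) : LinearIndependent ℂ (fun k => contr Φ (w k)) := by
  refine hli.map_injOn (contr Φ) ?_
  have h1 : Submodule.span ℂ (Set.range w) ≤ gradSpan I (Φ (Sum.elim z 0)) := by
    rw [Submodule.span_le]
    rintro _ ⟨k, rfl⟩
    exact hw k
  intro x hx y hy hxy
  have h2 : x - y = 0 := by
    apply contr_injOn Φ I hL z (Submodule.sub_mem _ (h1 hx) (h1 hy))
    rw [map_sub, hxy, sub_self]
  exact sub_eq_zero.mp h2

lemma tI_le (hL : ∀ (z : σ → ℂ), ∀ h ∈ I, eval (Φ (Sum.elim z 0)) h = 0) :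
    tI Φ I ≤ posIdeal (Yw σ τ) := by
  intro f hf
  rw [mem_posIdeal_iff]
  apply MvPolynomial.funext
  intro z
  rw [eval_projZ, map_zero]
  have h1 := hL z _ hf
  rw [eval_lsub] at h1
  simpa using h1

end Lspace

/-- **Theorem L.** -/
theorem theorem_L (N c s : ℕ) (hs : c + 2 ≤ s) (ι : (Fin s → ℂ) →ₗ[ℂ] (Fin (N + 1) → ℂ))
    (hι : Function.Injective ι) (I : Ideal (MvPolynomial (Fin (N + 1)) ℂ)) (hI : I.IsPrime)
    (hhom : ∀ f ∈ I, ∀ e, homogeneousComponent e f ∈ I)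
    (hdim : ((N + 1 : ℕ) : WithBot ℕ∞) ≤
      ringKrullDim (MvPolynomial (Fin (N + 1)) ℂ ⧸ I) + (c : WithBot ℕ∞))
    (hL : ∀ z, ∀ h ∈ I, eval (ι z) h = 0)
    (ψ : Fin c → Fin (N + 1) → MvPolynomial (Fin s) ℂ) (f : Fin c → ℕ)
    (hψ : ∀ k b, (ψ k b).IsHomogeneous (f k))
    (hli : ∀ z ≠ 0, LinearIndependent ℂ (fun k => fun b => eval z (ψ k b)))
    (hE : ∀ z ≠ 0, ∀ k, (fun b => eval z (ψ k b)) ∈
      Submodule.span ℂ {w | ∃ h ∈ I, w = fun b => eval (ι z) (pderiv b h)}) :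
    ∃ F : Fin c → MvPolynomial (Fin (N + 1)) ℂ, (∀ k, (F k).IsHomogeneous (f k + 1)) ∧
      Ideal.span (Set.range F) = I := by
  classical
  obtain ⟨m, Φ, hΦ⟩ := exists_extend ι hι
  have hL' : ∀ (z : Fin s → ℂ), ∀ h ∈ I, eval (Φ (Sum.elim z 0)) h = 0 := by
    intro z h hh
    rw [hΦ]; exact hL z h hh
  have hcard : Fintype.card (Fin s ⊕ Fin m) = N + 1 := by
    have h1 := Φ.finrank_eq
    rwa [Module.finrank_fintype_fun_eq_card, Module.finrank_fintype_fun_eq_card,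
      Fintype.card_fin] at h1
  set ψ' : Fin c → Fin m → MvPolynomial (Fin s) ℂ :=
    fun k b => ∑ i, C (Φ (Pi.single (Sum.inr b) 1) i) * ψ k i with hψ'
  have hψ'eval : ∀ z k, rowEval z (ψ' k) = contr Φ (fun b => eval z (ψ k b)) := by
    intro z k
    funext b
    rw [rowEval_apply, hψ', contr_apply, map_sum]
    refine Finset.sum_congr rfl (fun i _ => ?_)
    rw [map_mul, eval_C]
  have hE' : ∀ z ≠ 0, ∀ k, (fun b => eval z (ψ k b)) ∈ gradSpan I (Φ (Sum.elim z 0)) := by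
    intro z hz k
    rw [gradSpan, hΦ]
    exact hE z hz k
  obtain ⟨F, hF, hFs⟩ := core_L2 (J := tI Φ I) c (by rw [Fintype.card_fin]; exact hs)
    (tI_isPrime Φ I hI) (tI_hom Φ I hhom) (tI_le Φ I hL') (by
      rw [tI_dim, hcard]; exact hdim) ψ' f (by
      intro k b
      refine IsHomogeneous.sum _ _ _ (fun i _ => ?_)
      have h1 := (isHomogeneous_C (Fin s) (Φ (Pi.single (Sum.inr b) 1) i)).mul (hψ k i)
      rwa [zero_add] at h1) (by
      intro k z hz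
      rw [hψ'eval]
      exact contr_mem Φ I (hE' z hz k)) (by
      intro z hz
      simp only [hψ'eval]
      exact contr_li Φ I hL' z _ (hE' z hz) (hli z hz))
  exact ⟨_, fun k => isHomogeneous_lsub _ _ _ (hF k), tI_span Φ I hFs⟩

end Pool.Agent.Hartshorne
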