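import Mathlib
import Pool.Agent.Hartshorne.Transport

/-!
Selection of a vector along which given forms do not vary on a given linear space.
-/

namespace Pool.Agent.Hartshorne

open MvPolynomial

set_option linter.unusedSectionVars false

section Select

lemma card_monomials (k D : ℕ) : ((Finset.range D).biUnion
    (fun e => (Finset.univ : Finset (Fin k)).finsuppAntidiag e)).card ≤ (k + D - 1).choose k := by
  refine Finset.card_biUnion_le.trans ?_
  rcases D with _ | D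
  · simp
  · simp only [Finset.card_finsuppAntidiag_nat_eq_multichoose, Finset.card_univ, Fintype.card_fin]
    rw [Nat.sum_range_multichoose]
    apply le_of_eq
    congr 1
    omega

/-- Left part of an exponent. -/
noncomputable def lPart {k M : ℕ} (m : (Fin k ⊕ Fin M) →₀ ℕ) : Fin k →₀ ℕ :=
  m.comapDomain Sum.inl Sum.inl_injective.injOn

/-- Right part of an exponent. -/
noncomputable def rPart {k M : ℕ} (m : (Fin k ⊕ Fin M) →₀ ℕ) : Fin M →₀ ℕ :=
  m.comapDomain Sum.inr Sum.inr_injective.injOn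

lemma eval_split {k M : ℕ} (G : MvPolynomial (Fin k ⊕ Fin M) ℂ) (z : Fin k → ℂ) (t : Fin M → ℂ) :
    eval (Sum.elim z t) G = ∑ m ∈ G.support, coeff m G * (∏ i, z i ^ lPart m i) *
      ∏ j, t j ^ rPart m j := by
  rw [eval_eq']
  refine Finset.sum_congr rfl (fun m _ => ?_)
  rw [Fintype.prod_sum_type, mul_assoc]
  rfl

lemma select_aux {ι : Type*} [Fintype ι] {k M : ℕ} (G : ι → MvPolynomial (Fin k ⊕ Fin M) ℂ)
    (D : ι → ℕ) (hG : ∀ l, (G l).IsHomogeneous (D l))
    (hcount : ∑ l, (k + D l - 1).choose k < M) :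
    ∃ t : Fin M → ℂ, t ≠ 0 ∧ ∀ l z, eval (Sum.elim z t) (G l) = eval (Sum.elim z 0) (G l) := by
  classical
  set S : ι → Finset (Fin k →₀ ℕ) := fun l => (Finset.range (D l)).biUnion
    (fun e => (Finset.univ : Finset (Fin k)).finsuppAntidiag e) with hS
  set P : ι → Finset ((Fin k ⊕ Fin M) →₀ ℕ) := fun l =>
    (G l).support.filter (fun m => rPart m ≠ 0) with hP
  set h : (l : ι) → (Fin k →₀ ℕ) → MvPolynomial (Fin M) ℂ := fun l α =>
    ∑ m ∈ (P l).filter (fun m => lPart m = α), monomial (rPart m) (coeff m (G l)) with hh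
  have hmaps : ∀ l, ∀ m ∈ P l, lPart m ∈ S l := by
    intro l m hm
    rw [hP, Finset.mem_filter] at hm
    have h1 := hG l (mem_support_iff.mp hm.1)
    rw [Finsupp.weight_apply, Finsupp.sum_fintype _ _ (by simp), Fintype.sum_sum_type] at h1
    simp only [Pi.one_apply, smul_eq_mul, mul_one] at h1
    obtain ⟨j, hj⟩ := Finsupp.ne_iff.mp hm.2
    have h2 : m (Sum.inr j) ≤ ∑ j, m (Sum.inr j) :=
      Finset.single_le_sum (f := fun j => m (Sum.inr j)) (fun _ _ => Nat.zero_le _)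
        (Finset.mem_univ j)
    have h3 : m (Sum.inr j) ≠ 0 := hj
    simp only [hS, Finset.mem_biUnion, Finset.mem_range, Finset.mem_finsuppAntidiag]
    refine ⟨∑ i, m (Sum.inl i), by omega, rfl, Finset.subset_univ _⟩
  obtain ⟨t, ht, ht0⟩ := exists_common_zero (ι := Fin M) (κ := Σ l : ι, {α // α ∈ S l})
    (fun κ => h κ.1 κ.2) (by
      rintro ⟨l, α, hα⟩
      simp only [hh]
      rw [map_sum]
      refine Finset.sum_eq_zero (fun m hm => ?_)
      rw [Finset.mem_filter, hP, Finset.mem_filter] at hm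
      rw [eval_monomial]
      obtain ⟨j, hj⟩ := Finsupp.ne_iff.mp hm.1.2
      rw [Finsupp.prod_fintype _ _ (by simp)]
      have h3 : ∏ i, (0 : Fin M → ℂ) i ^ rPart m i = 0 :=
        Finset.prod_eq_zero (Finset.mem_univ j) (by rw [Pi.zero_apply]; exact zero_pow hj)
      rw [h3, mul_zero]) (by
      rw [Fintype.card_sigma, Fintype.card_fin]
      refine lt_of_le_of_lt (Finset.sum_le_sum (fun l _ => ?_)) hcount
      rw [Fintype.card_coe]
      exact card_monomials k (D l))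
  refine ⟨t, ht, fun l z => ?_⟩
  rw [eval_split, eval_split, ← sub_eq_zero, ← Finset.sum_sub_distrib]
  have h1 : ∀ m ∈ (G l).support, coeff m (G l) * (∏ i, z i ^ lPart m i) * ∏ j, t j ^ rPart m j -
      coeff m (G l) * (∏ i, z i ^ lPart m i) * ∏ j, (0 : Fin M → ℂ) j ^ rPart m j =
      if rPart m ≠ 0 then coeff m (G l) * (∏ i, z i ^ lPart m i) * ∏ j, t j ^ rPart m j
        else 0 := by
    intro m _
    by_cases hm : rPart m = 0
    · rw [if_neg (by simpa using hm), hm]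
      simp
    · rw [if_pos hm]
      obtain ⟨j, hj⟩ := Finsupp.ne_iff.mp hm
      have h3 : ∏ i, (0 : Fin M → ℂ) i ^ rPart m i = 0 :=
        Finset.prod_eq_zero (Finset.mem_univ j) (by rw [Pi.zero_apply]; exact zero_pow hj)
      rw [h3, mul_zero, sub_zero]
  rw [Finset.sum_congr rfl h1, ← Finset.sum_filter]
  have h2 : (G l).support.filter (fun m => rPart m ≠ 0) = P l := rfl
  rw [h2, ← Finset.sum_fiberwise_of_maps_to (hmaps l)]
  refine Finset.sum_eq_zero (fun α hα => ?_)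
  have h3 := ht0 ⟨l, α, hα⟩
  simp only [hh] at h3
  rw [map_sum] at h3
  have h4 : ∀ m ∈ (P l).filter (fun m => lPart m = α),
      coeff m (G l) * (∏ i, z i ^ lPart m i) * ∏ j, t j ^ rPart m j =
      (∏ i, z i ^ α i) * eval t (monomial (rPart m) (coeff m (G l))) := by
    intro m hm
    rw [(Finset.mem_filter.mp hm).2, eval_monomial, Finsupp.prod_fintype _ _ (by simp)]
    ring
  rw [Finset.sum_congr rfl h4, ← Finset.mul_sum, h3, mul_zero]

variable {ρ : Type*} [Fintype ρ] [DecidableEq ρ]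

/-- Linear combinations of a family. -/
noncomputable def comb {k : ℕ} (e : Fin k → (ρ → ℂ)) : (Fin k → ℂ) →ₗ[ℂ] (ρ → ℂ) :=
  Fintype.linearCombination ℂ e

lemma comb_apply {k : ℕ} (e : Fin k → (ρ → ℂ)) (z : Fin k → ℂ) : comb e z = ∑ i, z i • e i := by
  rw [comb, Fintype.linearCombination_apply]

lemma comb_mem_span {k : ℕ} (e : Fin k → (ρ → ℂ)) (z : Fin k → ℂ) :
    comb e z ∈ Submodule.span ℂ (Set.range e) := by
  rw [comb_apply]
  exact Submodule.sum_mem _ (fun i _ => Submodule.smul_mem _ _ (Submodule.subset_span ⟨i, rfl⟩))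

lemma comb_mem {k : ℕ} {e : Fin k → (ρ → ℂ)} {Λ : Submodule ℂ (ρ → ℂ)} (he : ∀ i, e i ∈ Λ)
    (z : Fin k → ℂ) : comb e z ∈ Λ := by
  rw [comb_apply]
  exact Submodule.sum_mem _ (fun i _ => Submodule.smul_mem _ _ (he i))

lemma comb_snoc {k : ℕ} (e : Fin k → (ρ → ℂ)) (w : ρ → ℂ) (z : Fin (k + 1) → ℂ) :
    comb (Fin.snoc e w : Fin (k + 1) → (ρ → ℂ)) z =
      comb e (fun i => z (Fin.castSucc i)) + z (Fin.last k) • w := by
  rw [comb_apply, comb_apply, Fin.sum_univ_castSucc]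
  simp

/-- Selection of a vector. -/
theorem select (Λ : Submodule ℂ (ρ → ℂ)) {k : ℕ} (e : Fin k → (ρ → ℂ)) (he : ∀ i, e i ∈ Λ)
    (hli : LinearIndependent ℂ e) {ι : Type*} [Fintype ι] (g : ι → MvPolynomial ρ ℂ)
    (D : ι → ℕ) (hg : ∀ l, (g l).IsHomogeneous (D l))
    (hcount : ∑ l, (k + D l - 1).choose k + k < Module.finrank ℂ Λ) :
    ∃ w ∈ Λ, LinearIndependent ℂ (Fin.snoc e w : Fin (k + 1) → (ρ → ℂ)) ∧
      ∀ l z, eval (comb e z + w) (g l) = eval (comb e z) (g l) := by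
  classical
  set L₀ : Submodule ℂ Λ := (Submodule.span ℂ (Set.range e)).comap Λ.subtype with hL₀
  obtain ⟨C', hC'⟩ := Submodule.exists_isCompl L₀
  have hle : Submodule.span ℂ (Set.range e) ≤ Λ := by
    rw [Submodule.span_le]
    rintro _ ⟨i, rfl⟩
    exact he i
  have hfin0 : Module.finrank ℂ L₀ = k := by
    have h1 : Module.finrank ℂ L₀ = Module.finrank ℂ (Submodule.span ℂ (Set.range e)) :=
      (Submodule.comapSubtypeEquivOfLe hle).finrank_eq
    rw [h1, finrank_span_eq_card hli, Fintype.card_fin]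
  have hfin : k + Module.finrank ℂ C' = Module.finrank ℂ Λ := by
    rw [← hfin0]
    exact Submodule.finrank_add_eq_of_isCompl hC'
  have hfree : Module.Free ℂ C' := Module.Free.of_divisionRing ℂ C'
  set M := Module.finrank ℂ C' with hM
  set f : (Fin M → ℂ) →ₗ[ℂ] (ρ → ℂ) := Λ.subtype ∘ₗ C'.subtype ∘ₗ
    ((Module.finBasis ℂ C').equivFun.symm : (Fin M → ℂ) →ₗ[ℂ] C') with hf
  have hfΛ : ∀ t, f t ∈ Λ := fun t => Subtype.coe_prop _
  have hfnot : ∀ t, t ≠ 0 → f t ∉ Submodule.span ℂ (Set.range e) := by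
    intro t ht hmem
    set y : C' := (Module.finBasis ℂ C').equivFun.symm t with hy
    have h1 : (y : Λ) ∈ L₀ := hmem
    have h2 : (y : Λ) ∈ L₀ ⊓ C' := ⟨h1, y.2⟩
    rw [hC'.inf_eq_bot, Submodule.mem_bot] at h2
    have h3 : y = 0 := Subtype.ext h2
    rw [hy, LinearEquiv.map_eq_zero_iff] at h3
    exact ht h3
  set Ψ : (Fin k ⊕ Fin M → ℂ) →ₗ[ℂ] (ρ → ℂ) :=
    (comb e) ∘ₗ (LinearMap.funLeft ℂ ℂ Sum.inl) + f ∘ₗ (LinearMap.funLeft ℂ ℂ Sum.inr) with hΨ
  have hΨe : ∀ z t, Ψ (Sum.elim z t) = comb e z + f t := fun z t => rfl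
  obtain ⟨t, ht, hteq⟩ := select_aux (fun l => lsub Ψ (g l)) D
    (fun l => isHomogeneous_lsub _ _ _ (hg l)) (M := M) (by omega)
  refine ⟨f t, hfΛ t, linearIndependent_finSnoc.mpr ⟨hli, hfnot t ht⟩, fun l z => ?_⟩
  have h1 := hteq l z
  rw [eval_lsub, eval_lsub, hΨe, hΨe, map_zero, add_zero] at h1
  exact h1

end Select

end Pool.Agent.Hartshorne
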