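import Mathlib
import Pool.Agent.Hartshorne.Select

/-!
Complete intersections from forms of small degree: construction of a linear subspace along which
the conormal bundle splits.
-/

namespace Pool.Agent.Hartshorne

open MvPolynomial

set_option linter.unusedSectionVars false

section Prep

variable {ρ : Type*} [Fintype ρ] [DecidableEq ρ]

lemma eval_snoc {k : ℕ} (e : Fin k → (ρ → ℂ)) (w : ρ → ℂ) {g : MvPolynomial ρ ℂ} {D : ℕ}
    (hg : g.IsHomogeneous D) (h : ∀ z, eval (comb e z + w) g = eval (comb e z) g)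
    (z : Fin (k + 1) → ℂ) : eval (comb (Fin.snoc e w : Fin (k + 1) → (ρ → ℂ)) z) g =
      eval (comb e (fun i => z (Fin.castSucc i))) g := by
  rw [comb_snoc]
  by_cases ht : z (Fin.last k) = 0
  · rw [ht, zero_smul, add_zero]
  · set t := z (Fin.last k) with htt
    set z' : Fin k → ℂ := fun i => z (Fin.castSucc i) with hz'
    have h1 : comb e z' + t • w = t • (comb e (t⁻¹ • z') + w) := by
      rw [smul_add, map_smul, smul_smul, mul_inv_cancel₀ ht, one_smul]
    have h2 : comb e z' = t • (comb e (t⁻¹ • z')) := by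
      rw [map_smul, smul_smul, mul_inv_cancel₀ ht, one_smul]
    rw [h1, eval_smul_of_isHomogeneous hg, h]
    conv_rhs => rw [h2, eval_smul_of_isHomogeneous hg]

lemma comb_injective {k : ℕ} {e : Fin k → (ρ → ℂ)} (he : LinearIndependent ℂ e) :
    Function.Injective (comb e) := he.fintypeLinearCombination_injective

lemma comb_ne_zero {k : ℕ} {e : Fin k → (ρ → ℂ)} (he : LinearIndependent ℂ e) {z : Fin k → ℂ}
    (hz : z ≠ 0) : comb e z ≠ 0 := by
  intro h
  exact hz (comb_injective he (by rw [h, map_zero]))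

/-- The ideal vanishes on a linear space where independent equations vanish. -/
lemma vanish_on {c : ℕ} (I : Ideal (MvPolynomial ρ ℂ)) (hI : I.IsPrime)
    (hdim : ((Fintype.card ρ : ℕ) : WithBot ℕ∞) ≤
      ringKrullDim (MvPolynomial ρ ℂ ⧸ I) + (c : WithBot ℕ∞)) {k : ℕ} (e : Fin k → (ρ → ℂ))
    (z₀ : Fin k → ℂ) (hp₀ : ∀ h ∈ I, eval (comb e z₀) h = 0)
    (F : Fin c → MvPolynomial ρ ℂ) (hF : ∀ i, F i ∈ I)
    (hli : LinearIndependent ℂ (fun i => grad (comb e z₀) (F i)))
    (hv : ∀ i z, eval (comb e z) (F i) = 0) : ∀ z, ∀ h ∈ I, eval (comb e z) h = 0 := by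
  intro z h hh
  obtain ⟨u, hu, huh⟩ := (point_case I hI (comb e z₀) hp₀ c F hF hli).2 hdim h hh
  have h1 : Ideal.span (Set.range F) ≤ RingHom.ker (lsub (comb e)) := by
    rw [Ideal.span_le]
    rintro _ ⟨i, rfl⟩
    rw [SetLike.mem_coe, RingHom.mem_ker]
    apply MvPolynomial.funext
    intro y
    rw [eval_lsub, hv, map_zero]
  have h2 : lsub (comb e) (u * h) = 0 := h1 huh
  rw [map_mul] at h2
  have h3 : lsub (comb e) u ≠ 0 := by
    intro h4
    apply hu
    rw [← eval_lsub, h4, map_zero]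
  have h4 := (mul_eq_zero.mp h2).resolve_left h3
  rw [← eval_lsub, h4, map_zero]

/-- The forms of degree `d` in an ideal. -/
noncomputable def Vd (I : Ideal (MvPolynomial ρ ℂ)) (d : ℕ) : Submodule ℂ (MvPolynomial ρ ℂ) :=
  (I.restrictScalars ℂ) ⊓ homogeneousSubmodule ρ ℂ d

lemma Vd_mem {I : Ideal (MvPolynomial ρ ℂ)} {d : ℕ} (g : Vd I d) : (g : MvPolynomial ρ ℂ) ∈ I :=
  g.2.1

lemma Vd_hom {I : Ideal (MvPolynomial ρ ℂ)} {d : ℕ} (g : Vd I d) :
    (g : MvPolynomial ρ ℂ).IsHomogeneous d := g.2.2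

lemma grad_X_pow_mul (i : ρ) (n : ℕ) {q : MvPolynomial ρ ℂ} {p : ρ → ℂ} (hq : eval p q = 0) :
    grad p (X i ^ n * q) = p i ^ n • grad p q := by
  funext j
  rw [grad_apply, pderiv_mul, map_add, map_mul, map_mul, hq, mul_zero, zero_add, map_pow, eval_X,
    Pi.smul_apply, smul_eq_mul, grad_apply]

/-- Equations of degree at most `d` may be replaced by equations of degree `d`. -/
lemma exists_Vd {c d : ℕ} {I : Ideal (MvPolynomial ρ ℂ)} {p : ρ → ℂ} (hp : p ≠ 0)
    (hpI : ∀ h ∈ I, eval p h = 0) (q : Fin c → MvPolynomial ρ ℂ)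
    (hq : ∀ k, q k ∈ I ∧ ∃ e ≤ d, (q k).IsHomogeneous e)
    (hli : LinearIndependent ℂ (fun k => grad p (q k))) :
    ∃ w : Fin c → Vd I d, LinearIndependent ℂ (fun k => grad p (w k : MvPolynomial ρ ℂ)) := by
  obtain ⟨i, hi⟩ := Function.ne_iff.mp hp
  choose hqI e he hqe using hq
  refine ⟨fun k => ⟨X i ^ (d - e k) * q k, I.mul_mem_left _ (hqI k), ?_⟩, ?_⟩
  · have h1 := ((isHomogeneous_X ℂ i).pow (d - e k)).mul (hqe k)
    rw [one_mul, Nat.sub_add_cancel (he k)] at h1
    exact h1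
  · have h2 : (fun k => grad p (X i ^ (d - e k) * q k)) =
        (fun k => (Units.mk0 (p i ^ (d - e k)) (pow_ne_zero _ hi)) • grad p (q k)) := by
      funext k
      rw [grad_X_pow_mul i _ (hpI _ (hqI k))]
      rfl
    simp only
    rw [h2]
    exact hli.units_smul _

/-- Independent elements in an image. -/
lemma exists_li_of_le {α V : Type*} [AddCommGroup V] [Module ℂ V] [Module.Finite ℂ V]
    (S : Set α) (φ : α → V) {c : ℕ}
    (h : c ≤ Module.finrank ℂ (Submodule.span ℂ (φ '' S))) :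
    ∃ g : Fin c → α, (∀ i, g i ∈ S) ∧ LinearIndependent ℂ (fun i => φ (g i)) := by
  obtain ⟨g, hg, hli⟩ := exists_li_image S φ rfl
  exact ⟨fun i => g (Fin.castLE h i), fun i => hg _,
    hli.comp (Fin.castLE h) (Fin.castLE_injective h)⟩

lemma finrank_span_transpose {κ τ : Type*} [Fintype κ] [Fintype τ] (w : κ → (τ → ℂ)) :
    Module.finrank ℂ (Submodule.span ℂ (Set.range w)) =
      Module.finrank ℂ (Submodule.span ℂ (Set.range fun b => fun i => w i b)) := by
  classical
  have h1 := Matrix.rank_eq_finrank_span_row (Matrix.of w)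
  have h2 := Matrix.rank_eq_finrank_span_cols (Matrix.of w)
  rw [h1] at h2
  exact h2

end Prep

end Pool.Agent.Hartshorne
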