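import Mathlib
import Pool.Agent.Hartshorne.Assemble

/-!
The bundle of gradients along a linear family of points.
-/

namespace Pool.Agent.Hartshorne

open MvPolynomial

section Grad

variable {ρ : Type*} [Fintype ρ] [DecidableEq ρ] {k : ℕ}

/-- The gradient of a form along a linear family of points. -/
noncomputable def gRow (e : Fin k → (ρ → ℂ)) (h : MvPolynomial ρ ℂ) :
    ρ → MvPolynomial (Fin k) ℂ := fun b => lsub (comb e) (pderiv b h)

lemma rowEval_gRow (e : Fin k → (ρ → ℂ)) (h : MvPolynomial ρ ℂ) (z : Fin k → ℂ) :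
    rowEval z (gRow e h) = grad (comb e z) h := by
  funext b
  rw [rowEval_apply, gRow, eval_lsub, grad_apply]

lemma homRow_gRow (e : Fin k → (ρ → ℂ)) {h : MvPolynomial ρ ℂ} {d : ℕ}
    (hh : h.IsHomogeneous d) : HomRow (d - 1) (gRow e h) :=
  fun b => isHomogeneous_lsub _ _ _ hh.pderiv

/-- The module generated by gradients of forms of degree `d` of the ideal. -/
noncomputable def gMod (I : Ideal (MvPolynomial ρ ℂ)) (d : ℕ) (e : Fin k → (ρ → ℂ)) :
    Submodule (MvPolynomial (Fin k) ℂ) (ρ → MvPolynomial (Fin k) ℂ) :=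
  Submodule.span _ {r | ∃ h ∈ I, h.IsHomogeneous d ∧ r = gRow e h}

/-- Points at which forms of degree `d` cut out the ideal smoothly in codimension `c`. -/
def GoodPt (I : Ideal (MvPolynomial ρ ℂ)) (c d : ℕ) (p : ρ → ℂ) : Prop :=
  (∃ w : Fin c → MvPolynomial ρ ℂ, (∀ i, w i ∈ I ∧ (w i).IsHomogeneous d) ∧
    LinearIndependent ℂ (fun k => grad p (w k))) ∧
  Module.finrank ℂ (gradSpan I p) = c

lemma gRow_mem_gMod {I : Ideal (MvPolynomial ρ ℂ)} {d : ℕ} (e : Fin k → (ρ → ℂ))
    {h : MvPolynomial ρ ℂ} (hh : h ∈ I) (hd : h.IsHomogeneous d) : gRow e h ∈ gMod I d e :=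
  Submodule.subset_span ⟨h, hh, hd, rfl⟩

omit [Fintype ρ] [DecidableEq ρ] in
lemma grad_eq_fun (p : ρ → ℂ) (h : MvPolynomial ρ ℂ) :
    grad p h = fun b => eval p (pderiv b h) := by
  funext b
  rw [grad_apply]

omit [Fintype ρ] [DecidableEq ρ] in
lemma grad_mem_gradSpan {I : Ideal (MvPolynomial ρ ℂ)} {h : MvPolynomial ρ ℂ} (hh : h ∈ I)
    (p : ρ → ℂ) : grad p h ∈ gradSpan I p := by
  apply Submodule.subset_span
  refine ⟨h, hh, ?_⟩
  rw [grad_eq_fun]

theorem isBundle_g {c d : ℕ} {I : Ideal (MvPolynomial ρ ℂ)} (e : Fin k → (ρ → ℂ))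
    (hg : ∀ z ≠ 0, GoodPt I c d (comb e z)) :
    IsBundle c (gMod I d e) (fun z => gradSpan I (comb e z)) where
  mem := by
    intro z hz P hP
    induction hP using Submodule.span_induction with
    | mem r hr =>
      obtain ⟨h, hh, hd, rfl⟩ := hr
      rw [rowEval_gRow]
      exact grad_mem_gradSpan hh _
    | zero => rw [rowEval_zero]; exact Submodule.zero_mem _
    | add x y hx hy hx' hy' => rw [rowEval_add]; exact Submodule.add_mem _ hx' hy'
    | smul a x hx hx' => rw [rowEval_smul]; exact Submodule.smul_mem _ _ hx'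
  exists_li := by
    intro z hz
    obtain ⟨⟨w, hw, hli⟩, -⟩ := hg z hz
    refine ⟨fun i => gRow e (w i), fun i => gRow_mem_gMod e (hw i).1 (hw i).2,
      fun i => ⟨_, homRow_gRow e (hw i).2⟩, ?_⟩
    simp only [rowEval_gRow]
    exact hli
  finrank := fun z hz => (hg z hz).2
  graded := by
    intro P hP
    induction hP using Submodule.span_induction with
    | mem r hr =>
      intro n
      obtain ⟨h, hh, hd, rfl⟩ := hr
      by_cases hn : n = d - 1
      · rw [hn, rowComp_of_homRow (homRow_gRow e hd)]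
        exact gRow_mem_gMod e hh hd
      · have h1 : rowComp n (gRow e h) = 0 := by
          funext b
          have h2 := homRow_gRow e hd b
          have h3 := wc_of_ne (v := (1 : Fin k → ℕ)) h2 hn
          exact h3
        rw [h1]
        exact Submodule.zero_mem _
    | zero =>
      intro n
      have h1 : rowComp n (0 : ρ → MvPolynomial (Fin k) ℂ) = 0 := by
        funext b; exact map_zero _
      rw [h1]
      exact Submodule.zero_mem _
    | add x y hx hy hx' hy' =>
      intro n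
      rw [rowComp_add]
      exact Submodule.add_mem _ (hx' n) (hy' n)
    | smul a x hx hx' =>
      intro n
      have h1 : a • x = ∑ j ∈ Finset.range (a.totalDegree + 1),
          homogeneousComponent j a • x := by
        rw [← Finset.sum_smul, sum_homogeneousComponent]
      rw [h1, rowComp_sum]
      refine Submodule.sum_mem _ (fun j _ => ?_)
      rw [rowComp_smul (homogeneousComponent_isHomogeneous j a)]
      split_ifs
      · exact Submodule.smul_mem _ _ (hx' _)
      · exact Submodule.zero_mem _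

/-- The number of independent gradients is bounded by the codimension. -/
lemma finrank_gradSpan_le' {c : ℕ} {I : Ideal (MvPolynomial ρ ℂ)} (hI : I.IsPrime)
    (hdim : ((Fintype.card ρ : ℕ) : WithBot ℕ∞) ≤
      ringKrullDim (MvPolynomial ρ ℂ ⧸ I) + (c : WithBot ℕ∞)) {p : ρ → ℂ}
    (hp : ∀ h ∈ I, eval p h = 0) : Module.finrank ℂ (gradSpan I p) ≤ c := by
  have h1 : gradSpan I p = Submodule.span ℂ ((fun h => grad p h) '' (I : Set (MvPolynomial ρ ℂ))) := by
    rw [gradSpan]
    congr 1
    ext w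
    constructor
    · rintro ⟨h, hh, rfl⟩
      refine ⟨h, hh, ?_⟩
      simp only [grad_eq_fun]
    · rintro ⟨h, hh, rfl⟩
      refine ⟨h, hh, ?_⟩
      simp only [grad_eq_fun]
  obtain ⟨R, hR⟩ : ∃ R, Module.finrank ℂ (gradSpan I p) = R := ⟨_, rfl⟩
  rw [hR]
  rw [h1] at hR
  obtain ⟨g, hg, hli⟩ := exists_li_image (I : Set (MvPolynomial ρ ℂ)) (fun h => grad p h) hR
  have h2 : LinearIndependent ℂ (fun k => grad p (g k)) := hli
  have h3 := (point_case I hI p hp R g hg h2).1
  exact dim_le h3 hdim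

theorem goodPt_of_cut {c d : ℕ} {I : Ideal (MvPolynomial ρ ℂ)} (hI : I.IsPrime)
    (hdim : ((Fintype.card ρ : ℕ) : WithBot ℕ∞) ≤
      ringKrullDim (MvPolynomial ρ ℂ ⧸ I) + (c : WithBot ℕ∞)) {p : ρ → ℂ} (hp0 : p ≠ 0)
    (hp : ∀ h ∈ I, eval p h = 0) (q : Fin c → MvPolynomial ρ ℂ)
    (hq : ∀ k, q k ∈ I ∧ ∃ e ≤ d, (q k).IsHomogeneous e)
    (hli : LinearIndependent ℂ (fun k => fun j => eval p (pderiv j (q k)))) :
    GoodPt I c d p := by
  have h0 : LinearIndependent ℂ (fun k => grad p (q k)) := by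
    have h1 : (fun k => grad p (q k)) = (fun k => fun j => eval p (pderiv j (q k))) := by
      funext k j
      exact grad_apply p (q k) j
    rw [h1]; exact hli
  obtain ⟨w, hw⟩ := exists_Vd hp0 hp q hq h0
  refine ⟨⟨fun i => (w i : MvPolynomial ρ ℂ), fun i => ⟨Vd_mem _, Vd_hom _⟩, hw⟩, ?_⟩
  apply le_antisymm (finrank_gradSpan_le' hI hdim hp)
  have h2 := finrank_span_eq_card hw
  rw [Fintype.card_fin] at h2
  rw [← h2]
  apply Submodule.finrank_mono
  rw [Submodule.span_le]
  rintro _ ⟨i, rfl⟩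
  exact grad_mem_gradSpan (Vd_mem _) p

end Grad

end Pool.Agent.Hartshorne
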