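import Mathlib
import Pool.Agent.Hartshorne.Transport

/-!
A projective variety meets every linear space of complementary dimension.
-/

namespace Pool.Agent.Hartshorne

open MvPolynomial

set_option linter.unusedSectionVars false

lemma ringKrullDim_le_of_integral {R S : Type*} [CommRing R] [CommRing S] [Algebra R S]
    [Algebra.IsIntegral R S] : ringKrullDim S ≤ ringKrullDim R := by
  refine Order.krullDim_le_of_strictMono (PrimeSpectrum.comap (algebraMap R S)) ?_
  intro p q hpq
  exact Ideal.IsIntegral.comap_lt_comap hpq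

section Exist

variable {ρ : Type*} [Fintype ρ] [DecidableEq ρ]

/-- Finiteness over the algebra of linear forms without common zero. -/
theorem dim_le_of_no_zero {r : ℕ} (lam : (ρ → ℂ) →ₗ[ℂ] (Fin r → ℂ)) (I : Ideal (MvPolynomial ρ ℂ))
    (hhom : ∀ f ∈ I, ∀ e, homogeneousComponent e f ∈ I)
    (hcon : ∀ p : ρ → ℂ, lam p = 0 → (∀ h ∈ I, eval p h = 0) → p = 0) :
    ringKrullDim (MvPolynomial ρ ℂ ⧸ I) ≤ (r : WithBot ℕ∞) := by
  classical
  set φ : MvPolynomial (Fin r) ℂ →+* MvPolynomial ρ ℂ ⧸ I :=
    (Ideal.Quotient.mk I).comp (lsub lam : MvPolynomial (Fin r) ℂ →+* MvPolynomial ρ ℂ) with hφ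
  algebraize [φ]
  let hmod : Module (MvPolynomial (Fin r) ℂ) (MvPolynomial ρ ℂ ⧸ I) := Algebra.toModule
  have hsm : ∀ (a : MvPolynomial (Fin r) ℂ) (f : MvPolynomial ρ ℂ),
      a • (Ideal.Quotient.mk I f) = Ideal.Quotient.mk I (lsub lam a * f) := by
    intro a f
    rw [Algebra.smul_def, map_mul]
    rfl
  set K : Ideal (MvPolynomial ρ ℂ) :=
    I ⊔ Ideal.span (Set.range fun i => lsub lam (X i)) with hK
  set m : Ideal (MvPolynomial ρ ℂ) := posIdeal (fun _ : ρ => 1) with hm
  have hmK : m ≤ K.radical := by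
    intro f hf
    rw [← vanishingIdeal_zeroLocus_eq_radical (K := ℂ), mem_vanishingIdeal_iff]
    intro p hp
    rw [mem_zeroLocus_iff] at hp
    have h1 : p = 0 := by
      apply hcon
      · funext i
        have h2 := hp (lsub lam (X i)) (Ideal.mem_sup_right (Ideal.subset_span ⟨i, rfl⟩))
        rw [aeval_eq_eval, eval_lsub, eval_X] at h2
        exact h2
      · intro h hh
        have h2 := hp h (Ideal.mem_sup_left hh)
        rwa [aeval_eq_eval] at h2
    have h3 := mem_posIdeal.mp hf
    rw [weightedHomogeneousComponent_zero (φ := f) (w := fun _ : ρ => 1)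
      (fun _ => one_ne_zero)] at h3
    rw [h1, aeval_eq_eval, eval_zero_eq_coeff]
    exact C_injective _ _ (by rw [h3, C_0])
  obtain ⟨D₀, hD₀⟩ := Ideal.exists_pow_le_of_le_radical_of_fg hmK (IsNoetherian.noetherian m)
  set M : Submodule (MvPolynomial (Fin r) ℂ) (MvPolynomial ρ ℂ ⧸ I) :=
    Submodule.span (MvPolynomial (Fin r) ℂ) ((fun s : ρ →₀ ℕ =>
      Ideal.Quotient.mk I (monomial s 1)) '' {s | s.degree < D₀}) with hM
  have key : ∀ n, ∀ f : MvPolynomial ρ ℂ, f.IsHomogeneous n → Ideal.Quotient.mk I f ∈ M := by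
    intro n
    induction n using Nat.strong_induction_on with
    | _ n ih =>
      intro f hf
      by_cases hn : n < D₀
      · rw [f.as_sum, map_sum]
        refine Submodule.sum_mem _ (fun s hs => ?_)
        have h1 : monomial s (coeff s f) = lsub lam (C (coeff s f)) * monomial s 1 := by
          have h2 : lsub lam (C (coeff s f)) = C (coeff s f) := by
            rw [← algebraMap_eq, ← algebraMap_eq]
            exact (lsub lam).commutes _
          rw [h2, C_mul_monomial, mul_one]
        rw [h1, ← hsm]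
        refine Submodule.smul_mem _ _ (Submodule.subset_span ⟨s, ?_, rfl⟩)
        have h3 := hf (mem_support_iff.mp hs)
        show s.degree < D₀
        rw [Finsupp.degree_eq_weight_one]
        exact lt_of_eq_of_lt h3 hn
      · push Not at hn
        have hlow : Low (fun _ : ρ => 1) D₀ f := by
          intro j hj
          have h1 : IsWeightedHomogeneous (fun _ : ρ => 1) f n := hf
          exact wc_of_ne h1 (by omega)
        have h1 := hD₀ (mem_pow_of_low (fun _ => le_rfl) hlow)
        obtain ⟨a, ha, b, hb, hab⟩ := Submodule.mem_sup.mp h1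
        obtain ⟨t, ht⟩ := (Submodule.mem_span_range_iff_exists_fun _).mp hb
        by_cases hn0 : n = 0
        · -- degree zero: `f` is a constant in `K`
          subst hn0
          have hD : D₀ = 0 := by omega
          -- then `1 ∈ K`
          have h2 : f = C (coeff 0 f) :=
            totalDegree_eq_zero_iff_eq_C.mp (Nat.le_zero.mp hf.totalDegree_le)
          have h3 : homogeneousComponent 0 b = 0 := by
            rw [← ht, map_sum]
            refine Finset.sum_eq_zero (fun i _ => ?_)
            rw [smul_eq_mul, homogeneousComponent_mul_right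
              (isHomogeneous_lsub lam 1 _ (isHomogeneous_X _ i)), if_neg (by omega)]
          have h4 : f = homogeneousComponent 0 a := by
            rw [← homogeneousComponent_eq_self hf, ← hab, map_add, h3, add_zero]
          rw [h4, Ideal.Quotient.eq_zero_iff_mem.mpr (hhom a ha 0)]
          exact M.zero_mem
        · obtain ⟨n', rfl⟩ := Nat.exists_eq_succ_of_ne_zero hn0
          have h4 : f = homogeneousComponent (n' + 1) a +
              ∑ i, lsub lam (X i) * homogeneousComponent n' (t i) := by
            rw [← homogeneousComponent_eq_self hf, ← hab, map_add, ← ht, map_sum]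
            congr 1
            refine Finset.sum_congr rfl (fun i _ => ?_)
            rw [smul_eq_mul, homogeneousComponent_mul_right
              (isHomogeneous_lsub lam 1 _ (isHomogeneous_X _ i)), if_pos (by omega),
              Nat.succ_sub_one, mul_comm]
          rw [h4, map_add, Ideal.Quotient.eq_zero_iff_mem.mpr (hhom a ha _), zero_add, map_sum]
          refine Submodule.sum_mem _ (fun i _ => ?_)
          rw [← hsm]
          exact Submodule.smul_mem _ _ (ih n' (Nat.lt_succ_self _) _
            (homogeneousComponent_isHomogeneous _ _))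
  have htop : M = ⊤ := by
    rw [eq_top_iff]
    intro y _
    obtain ⟨f, rfl⟩ := Ideal.Quotient.mk_surjective y
    rw [← sum_homogeneousComponent f, map_sum]
    exact Submodule.sum_mem _ (fun n _ => key n _ (homogeneousComponent_isHomogeneous _ _))
  have hfin : Module.Finite (MvPolynomial (Fin r) ℂ) (MvPolynomial ρ ℂ ⧸ I) := by
    refine ⟨?_⟩
    rw [← htop, hM]
    refine Submodule.fg_span ?_
    refine Set.Finite.image _ ?_
    have h1 : {s : ρ →₀ ℕ | s.degree < D₀} ⊆ ⋃ n ∈ Finset.range D₀,
        ((Finset.univ : Finset ρ).finsuppAntidiag n : Set (ρ →₀ ℕ)) := by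
      intro s hs
      simp only [Set.mem_iUnion]
      refine ⟨s.degree, Finset.mem_range.mpr hs, ?_⟩
      rw [Finset.mem_coe, Finset.mem_finsuppAntidiag]
      exact ⟨(Finsupp.degree_eq_sum s).symm, Finset.subset_univ _⟩
    refine Set.Finite.subset ?_ h1
    exact Set.Finite.biUnion (Finset.finite_toSet _) (fun n _ => Finset.finite_toSet _)
  have hint : Algebra.IsIntegral (MvPolynomial (Fin r) ℂ) (MvPolynomial ρ ℂ ⧸ I) :=
    Algebra.IsIntegral.of_finite _ _
  refine (ringKrullDim_le_of_integral (R := MvPolynomial (Fin r) ℂ)).trans ?_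
  rw [MvPolynomial.ringKrullDim_of_isNoetherianRing, ringKrullDim_eq_zero_of_field, zero_add,
    Nat.card_eq_fintype_card, Fintype.card_fin]

/-- A variety of codimension `c` meets every linear space of vector dimension `> c`. -/
theorem exists_zero (Λ : Submodule ℂ (ρ → ℂ)) (I : Ideal (MvPolynomial ρ ℂ))
    (hhom : ∀ f ∈ I, ∀ e, homogeneousComponent e f ∈ I) {c : ℕ}
    (hdim : ((Fintype.card ρ : ℕ) : WithBot ℕ∞) ≤
      ringKrullDim (MvPolynomial ρ ℂ ⧸ I) + (c : WithBot ℕ∞))
    (hΛ : c < Module.finrank ℂ Λ) : ∃ p ∈ Λ, p ≠ 0 ∧ ∀ h ∈ I, eval p h = 0 := by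
  classical
  by_contra hcon
  push Not at hcon
  set r := Module.finrank ℂ ((ρ → ℂ) ⧸ Λ) with hr
  set lam : (ρ → ℂ) →ₗ[ℂ] (Fin r → ℂ) :=
    ((Module.finBasis ℂ ((ρ → ℂ) ⧸ Λ)).equivFun : ((ρ → ℂ) ⧸ Λ) →ₗ[ℂ] (Fin r → ℂ)) ∘ₗ Λ.mkQ
    with hlam
  have h0 : ∀ p, lam p = 0 → p ∈ Λ := by
    intro p hp
    have h1 : (Module.finBasis ℂ ((ρ → ℂ) ⧸ Λ)).equivFun (Λ.mkQ p) = 0 := hp
    rw [LinearEquiv.map_eq_zero_iff] at h1
    rwa [Submodule.mkQ_apply, Submodule.Quotient.mk_eq_zero] at h1
  have h1 := dim_le_of_no_zero lam I hhom (by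
    intro p hp hpI
    by_contra hne
    obtain ⟨h, hh, hne'⟩ := hcon p (h0 p hp) hne
    exact hne' (hpI h hh))
  have h2 : r + Module.finrank ℂ Λ = Fintype.card ρ := by
    rw [hr, Submodule.finrank_quotient_add_finrank, Module.finrank_fintype_fun_eq_card]
  have h3 : ((Fintype.card ρ : ℕ) : WithBot ℕ∞) ≤ ((r + c : ℕ) : WithBot ℕ∞) := by
    refine hdim.trans ?_
    rw [Nat.cast_add]
    exact add_le_add_left h1 _
  have h4 : Fintype.card ρ ≤ r + c := by exact_mod_cast h3
  omega

end Exist

end Pool.Agent.Hartshorne
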