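import Mathlib
import Pool.Agent.Hartshorne.Exist

/-!
Two cones whose dimensions add up to more than the dimension of the ambient space meet outside
the origin.
-/

namespace Pool.Agent.Hartshorne

open MvPolynomial

set_option linter.unusedSectionVars false

lemma le_ringKrullDim_of_integral {R S : Type*} [CommRing R] [CommRing S] [Algebra R S]
    [Algebra.IsIntegral R S] (hinj : Function.Injective (algebraMap R S)) :
    ringKrullDim R ≤ ringKrullDim S := by
  refine iSup_le (fun l => ?_)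
  obtain ⟨Q, -, hQ, hQl⟩ := Ideal.exists_ideal_over_prime_of_isIntegral
    (R := R) (S := S) (l.head).asIdeal ⊥ (by
      rw [← RingHom.ker_eq_comap_bot, (RingHom.injective_iff_ker_eq_bot _).mp hinj]
      exact bot_le)
  have hlo : Q.LiesOver (RelSeries.head l).asIdeal := ⟨hQl.symm⟩
  obtain ⟨L, hL, -, -⟩ := Ideal.exists_ltSeries_of_hasGoingUp l Q
  rw [← hL]
  exact le_iSup (fun l : LTSeries (PrimeSpectrum S) => ((l.length : ℕ∞) : WithBot ℕ∞)) L

section Prod

variable {σ : Type*} [Fintype σ] [DecidableEq σ]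

/-- The ideal of a product of varieties. -/
noncomputable def prodI (P Q : Ideal (MvPolynomial σ ℂ)) : Ideal (MvPolynomial (σ ⊕ σ) ℂ) :=
  P.map (rename Sum.inl : MvPolynomial σ ℂ →ₐ[ℂ] MvPolynomial (σ ⊕ σ) ℂ) ⊔
    Q.map (rename Sum.inr : MvPolynomial σ ℂ →ₐ[ℂ] MvPolynomial (σ ⊕ σ) ℂ)

lemma eval_prodI {P Q : Ideal (MvPolynomial σ ℂ)} {z w : σ → ℂ} (hz : ∀ f ∈ P, eval z f = 0)
    (hw : ∀ f ∈ Q, eval w f = 0) {F : MvPolynomial (σ ⊕ σ) ℂ} (hF : F ∈ prodI P Q) :
    eval (Sum.elim z w) F = 0 := by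
  have h1 : prodI P Q ≤ RingHom.ker (eval (Sum.elim z w)) := by
    rw [prodI, sup_le_iff, Ideal.map_le_iff_le_comap, Ideal.map_le_iff_le_comap]
    constructor
    · intro f hf
      show eval (Sum.elim z w) (rename Sum.inl f) = 0
      rw [eval_rename]
      exact hz f hf
    · intro f hf
      show eval (Sum.elim z w) (rename Sum.inr f) = 0
      rw [eval_rename]
      exact hw f hf
  exact h1 hF

lemma mem_of_eval_zero {P : Ideal (MvPolynomial σ ℂ)} (hP : P.IsPrime) {f : MvPolynomial σ ℂ}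
    (h : ∀ z, (∀ g ∈ P, eval z g = 0) → eval z f = 0) : f ∈ P := by
  rw [← hP.radical, ← vanishingIdeal_zeroLocus_eq_radical (K := ℂ), mem_vanishingIdeal_iff]
  intro z hz
  rw [mem_zeroLocus_iff] at hz
  rw [aeval_eq_eval]
  refine h z (fun g hg => ?_)
  have := hz g hg
  rwa [aeval_eq_eval] at this

/-- Partial evaluation of the second group of variables. -/
lemma eval_partial_right {s t : Type*} (v : t → ℂ) (F : MvPolynomial (s ⊕ t) ℂ) (u : s → ℂ) :
    eval u (aeval (Sum.elim X (fun j => C (v j)) : s ⊕ t → MvPolynomial s ℂ) F) =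
      eval (Sum.elim u v) F := by
  have h2 : (eval u).comp ((aeval (Sum.elim X (fun j => C (v j)) : s ⊕ t → MvPolynomial s ℂ) :
      MvPolynomial (s ⊕ t) ℂ →ₐ[ℂ] MvPolynomial s ℂ) :
      MvPolynomial (s ⊕ t) ℂ →+* MvPolynomial s ℂ) = eval (Sum.elim u v) := by
    apply MvPolynomial.ringHom_ext
    · intro a; simp
    · rintro (i | j)
      · simp
      · simp
  exact RingHom.congr_fun h2 F

lemma eval_partial_left {s t : Type*} (u : s → ℂ) (F : MvPolynomial (s ⊕ t) ℂ) (v : t → ℂ) :
    eval v (aeval (Sum.elim (fun j => C (u j)) X : s ⊕ t → MvPolynomial t ℂ) F) =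
      eval (Sum.elim u v) F := by
  have h2 : (eval v).comp ((aeval (Sum.elim (fun j => C (u j)) X : s ⊕ t → MvPolynomial t ℂ) :
      MvPolynomial (s ⊕ t) ℂ →ₐ[ℂ] MvPolynomial t ℂ) :
      MvPolynomial (s ⊕ t) ℂ →+* MvPolynomial t ℂ) = eval (Sum.elim u v) := by
    apply MvPolynomial.ringHom_ext
    · intro a; simp
    · rintro (i | j)
      · simp
      · simp
  exact RingHom.congr_fun h2 F

/-- Dimension of a product. -/
theorem le_dim_prodI {P Q : Ideal (MvPolynomial σ ℂ)} (hP : P.IsPrime) (hQ : Q.IsPrime) {n m : ℕ}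
    (hn : (n : WithBot ℕ∞) ≤ ringKrullDim (MvPolynomial σ ℂ ⧸ P))
    (hm : (m : WithBot ℕ∞) ≤ ringKrullDim (MvPolynomial σ ℂ ⧸ Q)) :
    ((n + m : ℕ) : WithBot ℕ∞) ≤ ringKrullDim (MvPolynomial (σ ⊕ σ) ℂ ⧸ prodI P Q) := by
  classical
  have hPn : Nontrivial (MvPolynomial σ ℂ ⧸ P) := Ideal.Quotient.nontrivial_iff.mpr hP.ne_top
  have hQn : Nontrivial (MvPolynomial σ ℂ ⧸ Q) := Ideal.Quotient.nontrivial_iff.mpr hQ.ne_top
  obtain ⟨s, g, hg, hgi⟩ := exists_integral_inj_algHom_of_fg ℂ (MvPolynomial σ ℂ ⧸ P)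
  obtain ⟨t, h, hh, hhi⟩ := exists_integral_inj_algHom_of_fg ℂ (MvPolynomial σ ℂ ⧸ Q)
  have hns : n ≤ s := by
    algebraize [g.toRingHom]
    have h1 := hn.trans (ringKrullDim_le_of_integral (R := MvPolynomial (Fin s) ℂ))
    rw [MvPolynomial.ringKrullDim_of_isNoetherianRing, ringKrullDim_eq_zero_of_field, zero_add,
      Nat.card_eq_fintype_card, Fintype.card_fin] at h1
    exact_mod_cast h1
  have hmt : m ≤ t := by
    algebraize [h.toRingHom]
    have h1 := hm.trans (ringKrullDim_le_of_integral (R := MvPolynomial (Fin t) ℂ))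
    rw [MvPolynomial.ringKrullDim_of_isNoetherianRing, ringKrullDim_eq_zero_of_field, zero_add,
      Nat.card_eq_fintype_card, Fintype.card_fin] at h1
    exact_mod_cast h1
  have ha : ∀ i, ∃ a : MvPolynomial σ ℂ, Ideal.Quotient.mk P a = g (X i) := fun i =>
    Ideal.Quotient.mk_surjective _
  have hb : ∀ i, ∃ a : MvPolynomial σ ℂ, Ideal.Quotient.mk Q a = h (X i) := fun i =>
    Ideal.Quotient.mk_surjective _
  choose a ha using ha
  choose b hb using hb
  have hga : ∀ F : MvPolynomial (Fin s) ℂ, g F = Ideal.Quotient.mk P (aeval a F) := by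
    intro F
    have h1 : g = (Ideal.Quotient.mkₐ ℂ P).comp (aeval a) := by
      apply MvPolynomial.algHom_ext
      intro i
      rw [AlgHom.comp_apply, aeval_X]
      exact (ha i).symm
    rw [h1]
    rfl
  have hhb : ∀ F : MvPolynomial (Fin t) ℂ, h F = Ideal.Quotient.mk Q (aeval b F) := by
    intro F
    have h1 : h = (Ideal.Quotient.mkₐ ℂ Q).comp (aeval b) := by
      apply MvPolynomial.algHom_ext
      intro i
      rw [AlgHom.comp_apply, aeval_X]
      exact (hb i).symm
    rw [h1]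
    rfl
  set Θ : MvPolynomial (Fin s ⊕ Fin t) ℂ →ₐ[ℂ] MvPolynomial (σ ⊕ σ) ℂ :=
    aeval (Sum.elim (fun i => rename Sum.inl (a i)) (fun j => rename Sum.inr (b j))) with hΘ
  set Φ : MvPolynomial (Fin s ⊕ Fin t) ℂ →ₐ[ℂ] MvPolynomial (σ ⊕ σ) ℂ ⧸ prodI P Q :=
    (Ideal.Quotient.mkₐ ℂ (prodI P Q)).comp Θ with hΦ
  have hΘe : ∀ F (z w : σ → ℂ), eval (Sum.elim z w) (Θ F) =
      eval (Sum.elim (fun i => eval z (a i)) (fun j => eval w (b j))) F := by
    intro F z w
    have h2 : (eval (Sum.elim z w)).comp (Θ : MvPolynomial (Fin s ⊕ Fin t) ℂ →+* _) =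
        eval (Sum.elim (fun i => eval z (a i)) (fun j => eval w (b j))) := by
      apply MvPolynomial.ringHom_ext
      · intro c; simp
      · rintro (i | j)
        · simp [hΘ, eval_rename, Function.comp_def]
        · simp [hΘ, eval_rename, Function.comp_def]
    exact RingHom.congr_fun h2 F
  have hinj : Function.Injective Φ := by
    rw [injective_iff_map_eq_zero]
    intro F hF
    have hF' : Θ F ∈ prodI P Q := Ideal.Quotient.eq_zero_iff_mem.mp hF
    have h1 : ∀ w, (∀ f ∈ Q, eval w f = 0) → ∀ u : Fin s → ℂ,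
        eval (Sum.elim u (fun j => eval w (b j))) F = 0 := by
      intro w hw
      set G : MvPolynomial (Fin s) ℂ :=
        aeval (Sum.elim X (fun j => C (eval w (b j))) : Fin s ⊕ Fin t → MvPolynomial (Fin s) ℂ) F
        with hG
      have h2 : aeval a G ∈ P := by
        refine mem_of_eval_zero hP (fun z hz => ?_)
        have h3 := eval_prodI hz hw hF'
        rw [hΘe] at h3
        have h4 : eval z (aeval a G) = eval (fun i => eval z (a i)) G := by
          have h5 : (eval z).comp ((aeval a : MvPolynomial (Fin s) ℂ →ₐ[ℂ] MvPolynomial σ ℂ) :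
            MvPolynomial (Fin s) ℂ →+* MvPolynomial σ ℂ) = eval (fun i => eval z (a i)) := by
            apply MvPolynomial.ringHom_ext
            · intro c; simp
            · intro i; simp
          exact RingHom.congr_fun h5 G
        rw [h4, hG, eval_partial_right]
        exact h3
      have h3 : G = 0 := by
        apply hg
        rw [hga, map_zero]
        exact Ideal.Quotient.eq_zero_iff_mem.mpr h2
      intro u
      have h4 := eval_partial_right (fun j => eval w (b j)) F u
      rw [← hG, h3, map_zero] at h4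
      exact h4.symm
    have h2 : ∀ (u : Fin s → ℂ) (v : Fin t → ℂ), eval (Sum.elim u v) F = 0 := by
      intro u
      set G : MvPolynomial (Fin t) ℂ :=
        aeval (Sum.elim (fun j => C (u j)) X : Fin s ⊕ Fin t → MvPolynomial (Fin t) ℂ) F with hG
      have h3 : aeval b G ∈ Q := by
        refine mem_of_eval_zero hQ (fun w hw => ?_)
        have h4 : eval w (aeval b G) = eval (fun i => eval w (b i)) G := by
          have h5 : (eval w).comp ((aeval b : MvPolynomial (Fin t) ℂ →ₐ[ℂ] MvPolynomial σ ℂ) :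
            MvPolynomial (Fin t) ℂ →+* MvPolynomial σ ℂ) = eval (fun i => eval w (b i)) := by
            apply MvPolynomial.ringHom_ext
            · intro c; simp
            · intro i; simp
          exact RingHom.congr_fun h5 G
        rw [h4, hG, eval_partial_left]
        exact h1 w hw u
      have h4 : G = 0 := by
        apply hh
        rw [hhb, map_zero]
        exact Ideal.Quotient.eq_zero_iff_mem.mpr h3
      intro v
      have h5 := eval_partial_left u F v
      rw [← hG, h4, map_zero] at h5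
      exact h5.symm
    apply MvPolynomial.funext
    intro y
    have h3 := h2 (fun i => y (Sum.inl i)) (fun j => y (Sum.inr j))
    rw [map_zero, ← h3]
    congr 1
    congr 1
    funext i
    rcases i with i | j <;> rfl
  have hint : ∀ f : MvPolynomial (σ ⊕ σ) ℂ,
      Φ.toRingHom.IsIntegralElem (Ideal.Quotient.mk (prodI P Q) f) := by
    -- the two factor maps
    have hcl : P ≤ (prodI P Q).comap (rename Sum.inl : MvPolynomial σ ℂ →ₐ[ℂ]
        MvPolynomial (σ ⊕ σ) ℂ).toRingHom := Ideal.map_le_iff_le_comap.mp le_sup_left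
    have hcr : Q ≤ (prodI P Q).comap (rename Sum.inr : MvPolynomial σ ℂ →ₐ[ℂ]
        MvPolynomial (σ ⊕ σ) ℂ).toRingHom := Ideal.map_le_iff_le_comap.mp le_sup_right
    obtain ⟨jl, hjl⟩ : ∃ jl : MvPolynomial σ ℂ ⧸ P →+* MvPolynomial (σ ⊕ σ) ℂ ⧸ prodI P Q,
        ∀ f, jl (Ideal.Quotient.mk P f) = Ideal.Quotient.mk _ (rename Sum.inl f) :=
      ⟨Ideal.quotientMap (prodI P Q) _ hcl, fun f => Ideal.quotientMap_mk⟩
    obtain ⟨jr, hjr⟩ : ∃ jr : MvPolynomial σ ℂ ⧸ Q →+* MvPolynomial (σ ⊕ σ) ℂ ⧸ prodI P Q,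
        ∀ f, jr (Ideal.Quotient.mk Q f) = Ideal.Quotient.mk _ (rename Sum.inr f) :=
      ⟨Ideal.quotientMap (prodI P Q) _ hcr, fun f => Ideal.quotientMap_mk⟩
    have hl : jl.comp g.toRingHom = Φ.toRingHom.comp (rename Sum.inl :
        MvPolynomial (Fin s) ℂ →ₐ[ℂ] MvPolynomial (Fin s ⊕ Fin t) ℂ).toRingHom := by
      apply MvPolynomial.ringHom_ext
      · intro c
        have h1 : g (C c) = Ideal.Quotient.mk P (C c) := by rw [hga, algHom_C]; rfl
        have h2 : Θ (C c) = C c := by rw [algHom_C]; rfl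
        show jl (g (C c)) = Ideal.Quotient.mk _ (Θ (rename Sum.inl (C c)))
        rw [h1, rename_C, h2, hjl, rename_C]
      · intro i
        show jl (g (X i)) = Ideal.Quotient.mk _ (Θ (rename Sum.inl (X i)))
        rw [← ha, rename_X, hΘ, aeval_X, Sum.elim_inl, hjl]
    have hr : jr.comp h.toRingHom = Φ.toRingHom.comp (rename Sum.inr :
        MvPolynomial (Fin t) ℂ →ₐ[ℂ] MvPolynomial (Fin s ⊕ Fin t) ℂ).toRingHom := by
      apply MvPolynomial.ringHom_ext
      · intro c
        have h1 : h (C c) = Ideal.Quotient.mk Q (C c) := by rw [hhb, algHom_C]; rfl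
        have h2 : Θ (C c) = C c := by rw [algHom_C]; rfl
        show jr (h (C c)) = Ideal.Quotient.mk _ (Θ (rename Sum.inr (C c)))
        rw [h1, rename_C, h2, hjr, rename_C]
      · intro i
        show jr (h (X i)) = Ideal.Quotient.mk _ (Θ (rename Sum.inr (X i)))
        rw [← hb, rename_X, hΘ, aeval_X, Sum.elim_inr, hjr]
    have hmap : ∀ {A B C D : Type _} [CommRing A] [CommRing B] [CommRing C] [CommRing D]
        (α : A →+* B) (β : B →+* D) (γ : A →+* C) (δ : C →+* D) (_ : β.comp α = δ.comp γ) (x : B),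
        α.IsIntegralElem x → δ.IsIntegralElem (β x) := by
      intro A B C D _ _ _ _ α β γ δ hcomm x ⟨p, hp, hpx⟩
      refine ⟨p.map γ, hp.map γ, ?_⟩
      rw [Polynomial.eval₂_map, ← hcomm, ← Polynomial.hom_eval₂, hpx, map_zero]
    intro f
    induction f using MvPolynomial.induction_on with
    | C c =>
      have h1 : Ideal.Quotient.mk (prodI P Q) (C c) = Φ (C c) := by
        show _ = Ideal.Quotient.mk _ (Θ (C c))
        congr 1
        rw [algHom_C]; rfl
      rw [h1]
      exact RingHom.isIntegralElem_map (Φ.toRingHom) (x := C c)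
    | add f₁ f₂ h₁ h₂ =>
      rw [map_add]
      exact RingHom.IsIntegralElem.add _ h₁ h₂
    | mul_X f₁ i h₁ =>
      rw [map_mul]
      refine RingHom.IsIntegralElem.mul _ h₁ ?_
      rcases i with i | i
      · have h2 : Ideal.Quotient.mk (prodI P Q) (X (Sum.inl i)) =
          jl (Ideal.Quotient.mk P (X i)) := by
          rw [hjl, rename_X]
        rw [h2]
        exact hmap _ _ _ _ hl _ (hgi _)
      · have h2 : Ideal.Quotient.mk (prodI P Q) (X (Sum.inr i)) =
          jr (Ideal.Quotient.mk Q (X i)) := by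
          rw [hjr, rename_X]
        rw [h2]
        exact hmap _ _ _ _ hr _ (hhi _)
  have hfinal : ringKrullDim (MvPolynomial (Fin s ⊕ Fin t) ℂ) ≤
      ringKrullDim (MvPolynomial (σ ⊕ σ) ℂ ⧸ prodI P Q) := by
    have hI : Φ.toRingHom.IsIntegral := by
      intro y
      obtain ⟨f, rfl⟩ := Ideal.Quotient.mk_surjective y
      exact hint f
    algebraize [Φ.toRingHom]
    exact le_ringKrullDim_of_integral (R := MvPolynomial (Fin s ⊕ Fin t) ℂ) hinj
  refine le_trans ?_ hfinal
  rw [MvPolynomial.ringKrullDim_of_isNoetherianRing, ringKrullDim_eq_zero_of_field, zero_add,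
    Nat.card_eq_fintype_card, Fintype.card_sum, Fintype.card_fin, Fintype.card_fin]
  exact_mod_cast Nat.add_le_add hns hmt

lemma prodI_hom {P Q : Ideal (MvPolynomial σ ℂ)}
    (hP : ∀ f ∈ P, ∀ e, homogeneousComponent e f ∈ P)
    (hQ : ∀ f ∈ Q, ∀ e, homogeneousComponent e f ∈ Q) :
    ∀ F ∈ prodI P Q, ∀ e, homogeneousComponent e F ∈ prodI P Q := by
  classical
  set S : Set (MvPolynomial (σ ⊕ σ) ℂ) :=
    {F | F ∈ prodI P Q ∧ ∃ e, IsWeightedHomogeneous (1 : σ ⊕ σ → ℕ) F e} with hS
  have h1 : prodI P Q = Ideal.span S := by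
    apply le_antisymm
    · rw [prodI, sup_le_iff, Ideal.map_le_iff_le_comap, Ideal.map_le_iff_le_comap]
      constructor
      · intro f hf
        show rename Sum.inl f ∈ Ideal.span S
        rw [← sum_homogeneousComponent f, map_sum]
        refine Ideal.sum_mem _ (fun e _ => Ideal.subset_span ⟨?_, e, ?_⟩)
        · exact Ideal.mem_sup_left (Ideal.mem_map_of_mem _ (hP f hf e))
        · exact (homogeneousComponent_isHomogeneous e f).rename_isHomogeneous
      · intro f hf
        show rename Sum.inr f ∈ Ideal.span S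
        rw [← sum_homogeneousComponent f, map_sum]
        refine Ideal.sum_mem _ (fun e _ => Ideal.subset_span ⟨?_, e, ?_⟩)
        · exact Ideal.mem_sup_right (Ideal.mem_map_of_mem _ (hQ f hf e))
        · exact (homogeneousComponent_isHomogeneous e f).rename_isHomogeneous
    · rw [Ideal.span_le]
      rintro F ⟨hF, -⟩
      exact hF
  intro F hF e
  rw [h1] at hF ⊢
  exact wc_mem_span (v := (1 : σ ⊕ σ → ℕ)) (fun g hg => hg.2) hF e

/-- **Projective dimension theorem.** -/
theorem cap {P Q : Ideal (MvPolynomial σ ℂ)} (hP : P.IsPrime) (hQ : Q.IsPrime)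
    (hPh : ∀ f ∈ P, ∀ e, homogeneousComponent e f ∈ P)
    (hQh : ∀ f ∈ Q, ∀ e, homogeneousComponent e f ∈ Q) {n m : ℕ}
    (hn : (n : WithBot ℕ∞) ≤ ringKrullDim (MvPolynomial σ ℂ ⧸ P))
    (hm : (m : WithBot ℕ∞) ≤ ringKrullDim (MvPolynomial σ ℂ ⧸ Q))
    (hnm : Fintype.card σ < n + m) :
    ∃ v : σ → ℂ, v ≠ 0 ∧ (∀ f ∈ P, eval v f = 0) ∧ ∀ f ∈ Q, eval v f = 0 := by
  classical
  by_contra hcon
  push Not at hcon
  set e := Fintype.equivFin σ with he
  set lam : (σ ⊕ σ → ℂ) →ₗ[ℂ] (Fin (Fintype.card σ) → ℂ) :=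
    LinearMap.pi (fun i => (LinearMap.proj (R := ℂ) (φ := fun _ : σ ⊕ σ => ℂ)
      (Sum.inl (e.symm i)) : (σ ⊕ σ → ℂ) →ₗ[ℂ] ℂ) -
      LinearMap.proj (R := ℂ) (φ := fun _ : σ ⊕ σ => ℂ) (Sum.inr (e.symm i))) with hlam
  have h1 := dim_le_of_no_zero lam (prodI P Q) (prodI_hom hPh hQh) (by
    intro p hp hpI
    have h2 : ∀ i, p (Sum.inl i) = p (Sum.inr i) := by
      intro i
      have h3 := congrFun hp (e i)
      have h4 : lam p (e i) = p (Sum.inl (e.symm (e i))) - p (Sum.inr (e.symm (e i))) := rfl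
      rw [h4, Equiv.symm_apply_apply, Pi.zero_apply] at h3
      exact sub_eq_zero.mp h3
    set v : σ → ℂ := fun i => p (Sum.inl i) with hv
    have hpv : p = Sum.elim v v := by
      funext i
      rcases i with i | i
      · rfl
      · exact (h2 i).symm
    have h3 : v = 0 := by
      by_contra hne
      obtain ⟨f, hf, hfv⟩ := hcon v hne (fun f hf => by
        have h4 := hpI _ (Ideal.mem_sup_left (Ideal.mem_map_of_mem
          (rename Sum.inl : MvPolynomial σ ℂ →ₐ[ℂ] MvPolynomial (σ ⊕ σ) ℂ) hf))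
        rw [hpv] at h4
        have h5 : eval (Sum.elim v v) (rename Sum.inl f) = 0 := h4
        rwa [eval_rename] at h5)
      have h4 := hpI _ (Ideal.mem_sup_right (Ideal.mem_map_of_mem
          (rename Sum.inr : MvPolynomial σ ℂ →ₐ[ℂ] MvPolynomial (σ ⊕ σ) ℂ) hf))
      rw [hpv] at h4
      have h5 : eval (Sum.elim v v) (rename Sum.inr f) = 0 := h4
      rw [eval_rename] at h5
      exact hfv h5
    rw [hpv, h3]
    funext i
    rcases i with i | i <;> rfl)
  have h2 := (le_dim_prodI hP hQ hn hm).trans h1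
  have h3 : n + m ≤ Fintype.card σ := by exact_mod_cast h2
  omega

end Prod

end Pool.Agent.Hartshorne
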