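import Mathlib
import Pool.Agent.Hartshorne.Cap

/-!
Closed cones which are locally cut out by few equations meet.
-/

namespace Pool.Agent.Hartshorne

open MvPolynomial

set_option linter.unusedSectionVars false

section Core

variable {σ : Type*}

/-- The homogeneous core. -/
noncomputable def hcore (P : Ideal (MvPolynomial σ ℂ)) : Ideal (MvPolynomial σ ℂ) :=
  (P.map (Polynomial.C : MvPolynomial σ ℂ →+* Polynomial (MvPolynomial σ ℂ))).comap
    (coact (1 : σ → ℕ))

lemma mem_hcore (P : Ideal (MvPolynomial σ ℂ)) (f : MvPolynomial σ ℂ) :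
    f ∈ hcore P ↔ ∀ e, homogeneousComponent e f ∈ P := by
  rw [hcore, Ideal.mem_comap, Ideal.mem_map_C_iff]
  refine forall_congr' (fun e => ?_)
  rw [coeff_coact]
  rfl

lemma hcore_isPrime {P : Ideal (MvPolynomial σ ℂ)} (hP : P.IsPrime) : (hcore P).IsPrime := by
  have h1 : (P.map (Polynomial.C : MvPolynomial σ ℂ →+* Polynomial (MvPolynomial σ ℂ))).IsPrime :=
    Ideal.isPrime_map_C_of_isPrime
  exact Ideal.comap_isPrime _ _

lemma hcore_le (P : Ideal (MvPolynomial σ ℂ)) : hcore P ≤ P := by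
  intro f hf
  rw [mem_hcore] at hf
  rw [← sum_homogeneousComponent f]
  exact Ideal.sum_mem _ (fun e _ => hf e)

lemma hcore_hom (P : Ideal (MvPolynomial σ ℂ)) :
    ∀ f ∈ hcore P, ∀ e, homogeneousComponent e f ∈ hcore P := by
  intro f hf e
  rw [mem_hcore] at hf ⊢
  intro e'
  rw [homogeneousComponent_of_mem (homogeneousComponent_isHomogeneous e f)]
  split_ifs
  · exact hf e
  · exact Ideal.zero_mem _

lemma mem_hcore_of_homog {P : Ideal (MvPolynomial σ ℂ)} {f : MvPolynomial σ ℂ} {d : ℕ}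
    (hf : f.IsHomogeneous d) (h : f ∈ P) : f ∈ hcore P := by
  rw [mem_hcore]
  intro e
  rw [homogeneousComponent_of_mem hf]
  split_ifs
  · exact h
  · exact Ideal.zero_mem _

/-- A polynomial vanishing on a punctured line through the origin. -/
lemma eval_hc_of_line {F : MvPolynomial σ ℂ} {q : σ → ℂ} (h : ∀ t : ℂ, t ≠ 0 → eval (t • q) F = 0)
    (e : ℕ) : eval q (homogeneousComponent e F) = 0 := by
  classical
  set N := F.totalDegree + 1 with hN
  set p : Polynomial ℂ := ∑ e ∈ Finset.range N,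
    Polynomial.C (eval q (homogeneousComponent e F)) * Polynomial.X ^ e with hp
  have hpe : ∀ t, p.eval t = eval (t • q) F := by
    intro t
    conv_rhs => rw [← sum_homogeneousComponent F]
    rw [hp, Polynomial.eval_finsetSum, map_sum]
    refine Finset.sum_congr rfl (fun e _ => ?_)
    rw [Polynomial.eval_mul, Polynomial.eval_C, Polynomial.eval_pow, Polynomial.eval_X,
      eval_smul_of_isHomogeneous (homogeneousComponent_isHomogeneous e F), mul_comm]
  have hp0 : p = 0 := by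
    by_contra hne
    have h1 : ∀ t : ℂ, t ≠ 0 → t ∈ p.roots := by
      intro t ht
      rw [Polynomial.mem_roots hne, Polynomial.IsRoot.def, hpe, h t ht]
    have h2 : Set.Infinite {t : ℂ | t ≠ 0} := by
      have h3 : {t : ℂ | t ≠ 0} = ({0} : Set ℂ)ᶜ := rfl
      rw [h3]
      exact (Set.finite_singleton (0 : ℂ)).infinite_compl
    apply h2
    refine Set.Finite.subset (Multiset.finite_toSet p.roots) (fun t ht => h1 t ht)
  by_cases he : e < N
  · have h1 : p.coeff e = eval q (homogeneousComponent e F) := by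
      rw [hp, Polynomial.finsetSum_coeff]
      simp only [Polynomial.coeff_C_mul_X_pow]
      rw [Finset.sum_eq_single e]
      · rw [if_pos rfl]
      · intro b _ hb
        rw [if_neg (Ne.symm hb)]
      · intro hne; exact absurd (Finset.mem_range.mpr he) hne
    rw [← h1, hp0, Polynomial.coeff_zero]
  · rw [homogeneousComponent_eq_zero, map_zero]
    omega

end Core

section PrimeAt

variable {σ : Type*} [Fintype σ]

/-- The zero locus of `k` equations has dimension at least `n - k` at each of its points. -/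
lemma exists_prime_origin {κ : Type*} [Fintype κ] (g : κ → MvPolynomial σ ℂ)
    (hg : ∀ i, eval 0 (g i) = 0) :
    ∃ P : Ideal (MvPolynomial σ ℂ), P.IsPrime ∧ (∀ i, g i ∈ P) ∧ (∀ f ∈ P, eval 0 f = 0) ∧
      ((Fintype.card σ : ℕ) : WithBot ℕ∞) ≤
        ringKrullDim (MvPolynomial σ ℂ ⧸ P) + ((Fintype.card κ : ℕ) : WithBot ℕ∞) := by
  classical
  set m : Ideal (MvPolynomial σ ℂ) := vanishingIdeal ℂ {(0 : σ → ℂ)} with hm
  have hmem : ∀ f, f ∈ m ↔ eval 0 f = 0 := by
    intro f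
    rw [hm, mem_vanishingIdeal_singleton_iff, aeval_eq_eval]
  have hmp : m.IsPrime := by
    have h1 : m = RingHom.ker (eval (0 : σ → ℂ)) := by
      ext f
      rw [hmem, RingHom.mem_ker]
    rw [h1]
    exact RingHom.ker_isPrime _
  set I : Ideal (MvPolynomial σ ℂ) := Ideal.span (Set.range g) with hI
  have hIm : I ≤ m := by
    rw [hI, Ideal.span_le]
    rintro _ ⟨i, rfl⟩
    exact (hmem _).mpr (hg i)
  have h1 := Ideal.height_le_height_add_spanFinrank_of_le hIm
  have hPp : (m.map (Ideal.Quotient.mk I)).IsPrime := Ideal.isPrime_map_quotientMk_of_isPrime hIm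
  set P' := m.map (Ideal.Quotient.mk I) with hP'
  obtain ⟨l, hlast, hlen⟩ := Ideal.exists_ltSeries_length_eq_height P'
  have hfr : I.spanFinrank ≤ Fintype.card κ := by
    have h2 := Submodule.spanFinrank_span_le_encard (R := MvPolynomial σ ℂ) (Set.range g)
    have h3 : (Set.range g).encard ≤ ((Fintype.card κ : ℕ) : ℕ∞) := by
      rw [← Set.image_univ]
      refine (Set.encard_image_le _ _).trans ?_
      rw [Set.encard_univ, ENat.card_eq_coe_fintype_card]
    exact_mod_cast h2.trans h3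
  set Q := (RelSeries.head l).asIdeal with hQ
  have hQp : Q.IsPrime := (RelSeries.head l).isPrime
  refine ⟨Q.comap (Ideal.Quotient.mk I), Ideal.comap_isPrime _ _, ?_, ?_, ?_⟩
  · intro i
    rw [Ideal.mem_comap]
    have h2 : Ideal.Quotient.mk I (g i) = 0 :=
      Ideal.Quotient.eq_zero_iff_mem.mpr (Ideal.subset_span ⟨i, rfl⟩)
    rw [h2]
    exact Q.zero_mem
  · intro f hf
    rw [Ideal.mem_comap] at hf
    have h2 : Q ≤ P' := by
      have h3 := LTSeries.head_le_last l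
      rw [hlast] at h3
      exact h3
    have h3 := h2 hf
    have h4 : f ∈ P'.comap (Ideal.Quotient.mk I) := h3
    rw [hP', Ideal.comap_map_of_surjective _ Ideal.Quotient.mk_surjective] at h4
    have h5 : (Ideal.comap (Ideal.Quotient.mk I) ⊥) ≤ m := by
      intro x hx
      apply hIm
      rw [Ideal.mem_comap, Ideal.mem_bot] at hx
      exact Ideal.Quotient.eq_zero_iff_mem.mp hx
    exact (hmem f).mp ((sup_le le_rfl h5) h4)
  · have h2 : ((l.length : ℕ) : WithBot ℕ∞) ≤ ringKrullDim ((MvPolynomial σ ℂ ⧸ I) ⧸ Q) := by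
      rw [ringKrullDim_quotient]
      have h3 : ∀ i, l i ∈ PrimeSpectrum.zeroLocus (Q : Set (MvPolynomial σ ℂ ⧸ I)) := by
        intro i
        rw [PrimeSpectrum.mem_zeroLocus]
        exact LTSeries.head_le l i
      let l' : LTSeries (PrimeSpectrum.zeroLocus (Q : Set (MvPolynomial σ ℂ ⧸ I))) :=
        { length := l.length
          toFun := fun i => ⟨l i, h3 i⟩
          step := fun i => l.step i }
      exact le_iSup (fun l : LTSeries (PrimeSpectrum.zeroLocus
        (Q : Set (MvPolynomial σ ℂ ⧸ I))) => ((l.length : ℕ∞) : WithBot ℕ∞)) l'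
    have h3 : ringKrullDim ((MvPolynomial σ ℂ ⧸ I) ⧸ Q) ≤
        ringKrullDim (MvPolynomial σ ℂ ⧸ Q.comap (Ideal.Quotient.mk I)) := by
      refine ringKrullDim_le_of_surjective
        (Ideal.quotientMap Q (Ideal.Quotient.mk I) le_rfl) ?_
      exact Ideal.quotientMap_surjective Ideal.Quotient.mk_surjective
    have h4 := (card_le_height_origin (ι := σ)).trans h1
    rw [← hlen] at h4
    have h5 : Fintype.card σ ≤ l.length + Fintype.card κ := by
      have h6 : Fintype.card σ ≤ l.length + I.spanFinrank := by exact_mod_cast h4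
      omega
    have h6 : ((Fintype.card σ : ℕ) : WithBot ℕ∞) ≤
        ((l.length + Fintype.card κ : ℕ) : WithBot ℕ∞) := by exact_mod_cast h5
    refine h6.trans ?_
    rw [Nat.cast_add]
    exact add_le_add_left (h2.trans h3) _

lemma exists_prime_at {κ : Type*} [Fintype κ] (g : κ → MvPolynomial σ ℂ) (v : σ → ℂ)
    (hg : ∀ i, eval v (g i) = 0) :
    ∃ P : Ideal (MvPolynomial σ ℂ), P.IsPrime ∧ (∀ i, g i ∈ P) ∧ (∀ f ∈ P, eval v f = 0) ∧
      ((Fintype.card σ : ℕ) : WithBot ℕ∞) ≤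
        ringKrullDim (MvPolynomial σ ℂ ⧸ P) + ((Fintype.card κ : ℕ) : WithBot ℕ∞) := by
  obtain ⟨P, hP, hgP, hPv, hdim⟩ := exists_prime_origin (fun i => trans v (g i)) (by
    intro i
    rw [eval_trans, zero_add]
    exact hg i)
  refine ⟨P.comap (trans v).toRingHom, Ideal.comap_isPrime _ _, hgP, ?_, ?_⟩
  · intro f hf
    have h1 := hPv _ (show trans v f ∈ P from hf)
    rwa [eval_trans, zero_add] at h1
  · refine hdim.trans (add_le_add_left ?_ _)
    refine ringKrullDim_le_of_surjective (Ideal.quotientMap P (trans v).toRingHom le_rfl) ?_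
    apply Ideal.quotientMap_surjective
    intro f
    refine ⟨trans (-v) f, ?_⟩
    show trans v (trans (-v) f) = f
    rw [trans_trans, add_neg_cancel, trans_zero]

end PrimeAt

section Loci

variable {σ : Type*} [Fintype σ]

/-- A closed subcone of `Y`, locally cut out in `Y` by `m` equations. -/
structure IsLocus (Y : Set (σ → ℂ)) (m : ℕ) (Z : Set (σ → ℂ)) : Prop where
  sub : ∀ v ∈ Z, v ≠ 0 ∧ v ∈ Y
  smul : ∀ v ∈ Z, ∀ t : ℂ, t ≠ 0 → t • v ∈ Z
  eqs : ∀ v₀ ∈ Z, ∃ (Δ : MvPolynomial σ ℂ) (g : Fin m → MvPolynomial σ ℂ), eval v₀ Δ ≠ 0 ∧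
    (∀ j, eval v₀ (g j) = 0) ∧
    ∀ v ∈ Y, v ≠ 0 → eval v Δ ≠ 0 → (∀ j, eval v (g j) = 0) → v ∈ Z
  closed : ∀ v ∈ Y, v ≠ 0 → v ∉ Z →
    ∃ F : MvPolynomial σ ℂ, eval v F ≠ 0 ∧ ∀ v' ∈ Z, eval v' F = 0

lemma IsLocus.exists_prime {κ : Type*} [Fintype κ] {y : κ → MvPolynomial σ ℂ}
    (hy : ∀ i, ∃ e, (y i).IsHomogeneous e) {m : ℕ} {Z : Set (σ → ℂ)}
    (hZ : IsLocus {v | ∀ i, eval v (y i) = 0} m Z) {v₀ : σ → ℂ} (hv₀ : v₀ ∈ Z) :
    ∃ P : Ideal (MvPolynomial σ ℂ), P.IsPrime ∧ (∀ f ∈ P, ∀ e, homogeneousComponent e f ∈ P) ∧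
      ((Fintype.card σ : ℕ) : WithBot ℕ∞) ≤
        ringKrullDim (MvPolynomial σ ℂ ⧸ P) + ((Fintype.card κ + m : ℕ) : WithBot ℕ∞) ∧
      ∀ v ≠ 0, (∀ f ∈ P, eval v f = 0) → v ∈ Z := by
  classical
  obtain ⟨Δ, g, hΔ, hg, hΔg⟩ := hZ.eqs v₀ hv₀
  obtain ⟨hv₀0, hv₀Y⟩ := hZ.sub v₀ hv₀
  obtain ⟨Q, hQ, hGQ, hQv, hdim⟩ := exists_prime_at (Sum.elim y g) v₀ (by
    rintro (i | j)
    · exact hv₀Y i
    · exact hg j)
  rw [Fintype.card_sum, Fintype.card_fin] at hdim
  obtain ⟨i₀, hi₀⟩ := Function.ne_iff.mp hv₀0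
  refine ⟨hcore Q, hcore_isPrime hQ, hcore_hom Q, ?_, ?_⟩
  · refine hdim.trans (add_le_add_left ?_ _)
    exact ringKrullDim_le_of_surjective (Ideal.Quotient.factor (hcore_le Q))
      (Ideal.Quotient.factor_surjective (hcore_le Q))
  · intro v hv hvP
    have hvY : v ∈ {v | ∀ i, eval v (y i) = 0} := by
      intro i
      obtain ⟨e, he⟩ := hy i
      exact hvP _ (mem_hcore_of_homog he (hGQ (Sum.inl i)))
    by_contra hvZ
    obtain ⟨F, hF, hFZ⟩ := hZ.closed v hvY hv hvZ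
    apply hF
    apply hvP
    rw [mem_hcore]
    intro e
    have h1 : Δ * X i₀ * homogeneousComponent e F ∈ Q := by
      refine mem_of_eval_zero hQ (fun q hq => ?_)
      rw [map_mul, map_mul, eval_X]
      by_cases hΔq : eval q Δ = 0
      · rw [hΔq, zero_mul, zero_mul]
      by_cases hqi : q i₀ = 0
      · rw [hqi, mul_zero, zero_mul]
      have hq0 : q ≠ 0 := by
        rintro rfl
        exact hqi rfl
      have hqZ : q ∈ Z := hΔg q (fun i => hq _ (hGQ (Sum.inl i))) hq0 hΔq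
        (fun j => hq _ (hGQ (Sum.inr j)))
      rw [eval_hc_of_line (fun t ht => hFZ _ (hZ.smul q hqZ t ht)) e, mul_zero]
    rcases hQ.mem_or_mem h1 with h2 | h2
    · rcases hQ.mem_or_mem h2 with h3 | h3
      · exact absurd (hQv _ h3) hΔ
      · have h4 := hQv _ h3
        rw [eval_X] at h4
        exact absurd h4 hi₀
    · exact h2

/-- **Loci of small codimension meet.** -/
theorem IsLocus.meet [DecidableEq σ] {κ : Type*} [Fintype κ] {y : κ → MvPolynomial σ ℂ}
    (hy : ∀ i, ∃ e, (y i).IsHomogeneous e) {m₁ m₂ : ℕ} {Z₁ Z₂ : Set (σ → ℂ)}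
    (hZ₁ : IsLocus {v | ∀ i, eval v (y i) = 0} m₁ Z₁)
    (hZ₂ : IsLocus {v | ∀ i, eval v (y i) = 0} m₂ Z₂)
    (hcard : 2 * Fintype.card κ + m₁ + m₂ < Fintype.card σ) (h₁ : Z₁.Nonempty)
    (h₂ : Z₂.Nonempty) : (Z₁ ∩ Z₂).Nonempty := by
  obtain ⟨v₁, hv₁⟩ := h₁
  obtain ⟨v₂, hv₂⟩ := h₂
  obtain ⟨P₁, hP₁, hP₁h, hP₁d, hP₁Z⟩ := hZ₁.exists_prime hy hv₁
  obtain ⟨P₂, hP₂, hP₂h, hP₂d, hP₂Z⟩ := hZ₂.exists_prime hy hv₂
  have key : ∀ {a : WithBot ℕ∞} {N k : ℕ}, (N : WithBot ℕ∞) ≤ a + (k : WithBot ℕ∞) →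
      ((N - k : ℕ) : WithBot ℕ∞) ≤ a := by
    intro a N k h
    induction a using WithBot.recBotCoe with
    | bot =>
      rw [WithBot.bot_add, le_bot_iff] at h
      exact absurd h (WithBot.natCast_ne_bot _)
    | coe x =>
      induction x using ENat.recTopCoe with
      | top => exact le_top
      | coe m =>
        have h3 : N ≤ m + k := by exact_mod_cast h
        have h4 : N - k ≤ m := by omega
        have h5 : ((N - k : ℕ) : ℕ∞) ≤ (m : ℕ∞) := Nat.cast_le.mpr h4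
        exact WithBot.coe_le_coe.mpr h5
  obtain ⟨v, hv, hvP₁, hvP₂⟩ := cap hP₁ hP₂ hP₁h hP₂h (key hP₁d) (key hP₂d) (by omega)
  exact ⟨v, hP₁Z v hv hvP₁, hP₂Z v hv hvP₂⟩

end Loci

end Pool.Agent.Hartshorne
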