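import Mathlib
import Pool.Agent.Hartshorne.Locus
import Pool.Agent.Hartshorne.Select

/-!
Pencils of lines through a point.
-/

namespace Pool.Agent.Hartshorne

open MvPolynomial

section Aff

variable {ρ : Type*} [Fintype ρ] [DecidableEq ρ] {n : ℕ} (x : ρ → ℂ) (u : Fin n → (ρ → ℂ))

/-- Affine substitution. -/
noncomputable def aff : MvPolynomial ρ ℂ →ₐ[ℂ] MvPolynomial (Fin n) ℂ :=
  aeval (fun b => C (x b) + ∑ i, C (u i b) * X i)

lemma eval_aff (v : Fin n → ℂ) (f : MvPolynomial ρ ℂ) :
    eval v (aff x u f) = eval (x + comb u v) f := by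
  have h1 : (eval v).comp (aff x u : MvPolynomial ρ ℂ →+* MvPolynomial (Fin n) ℂ) =
      eval (x + comb u v) := by
    apply MvPolynomial.ringHom_ext
    · intro a
      have : aff x u (C a) = C a := (aff x u).commutes a
      simp [this]
    · intro b
      simp only [RingHom.comp_apply, RingHom.coe_coe, aff, aeval_X, map_add, eval_C, map_sum,
        map_mul, eval_X, Pi.add_apply, comb_apply, Finset.sum_apply, Pi.smul_apply, smul_eq_mul]
      congr 1
      exact Finset.sum_congr rfl (fun i _ => mul_comm _ _)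
  exact DFunLike.congr_fun h1 f

lemma totalDegree_aff_X (b : ρ) : (aff x u (X b)).totalDegree ≤ 1 := by
  have h0 : aff x u (X b) = C (x b) + ∑ i, C (u i b) * X i := by simp [aff]
  rw [h0]
  refine (totalDegree_add _ _).trans (max_le ?_ ?_)
  · rw [totalDegree_C]; exact Nat.zero_le _
  · refine totalDegree_finsetSum_le (fun i _ => ?_)
    refine (totalDegree_mul _ _).trans ?_
    rw [totalDegree_C, totalDegree_X]

lemma totalDegree_aff_le (f : MvPolynomial ρ ℂ) : (aff x u f).totalDegree ≤ f.totalDegree := by
  conv_lhs => rw [f.as_sum, map_sum]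
  refine totalDegree_finsetSum_le (fun m hm => ?_)
  have h1 : aff x u (monomial m (coeff m f)) =
      C (coeff m f) * ∏ b ∈ m.support, (aff x u (X b)) ^ m b := by
    rw [monomial_eq, map_mul, Finsupp.prod, map_prod]
    congr 1
    · exact (aff x u).commutes _
    · exact Finset.prod_congr rfl (fun b _ => map_pow _ _ _)
  rw [h1]
  refine (totalDegree_mul _ _).trans ?_
  rw [totalDegree_C, zero_add]
  refine (totalDegree_finsetProd _ _).trans ?_
  have h2 : ∑ b ∈ m.support, ((aff x u (X b)) ^ m b).totalDegree ≤ ∑ b ∈ m.support, m b := by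
    refine Finset.sum_le_sum (fun b _ => ?_)
    refine (totalDegree_pow _ _).trans ?_
    exact (Nat.mul_le_mul_left _ (totalDegree_aff_X x u b)).trans (by rw [mul_one])
  exact h2.trans (le_totalDegree hm)

/-- The coefficient forms of a polynomial along the lines of a pencil. -/
noncomputable def cf (j : ℕ) (f : MvPolynomial ρ ℂ) : MvPolynomial (Fin n) ℂ :=
  homogeneousComponent j (aff x u f)

lemma cf_isHomogeneous (j : ℕ) (f : MvPolynomial ρ ℂ) : (cf x u j f).IsHomogeneous j :=
  homogeneousComponent_isHomogeneous _ _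

/-- The line through two points. -/
def ln (x w : ρ → ℂ) : Fin 2 → (ρ → ℂ) := ![x, w]

lemma comb_ln (x w : ρ → ℂ) (z : Fin 2 → ℂ) : comb (ln x w) z = z 0 • x + z 1 • w := by
  rw [comb_apply, Fin.sum_univ_two]
  rfl

lemma eval_line {f : MvPolynomial ρ ℂ} {m : ℕ} (hf : f.IsHomogeneous m) (v : Fin n → ℂ)
    (z : Fin 2 → ℂ) : eval (comb (ln x (comb u v)) z) f =
      ∑ j ∈ Finset.range (m + 1), z 0 ^ (m - j) * z 1 ^ j * eval v (cf x u j f) := by
  have h1 : lsub (comb (ln x (comb u v))) f -
      ∑ j ∈ Finset.range (m + 1), X 0 ^ (m - j) * X 1 ^ j * C (eval v (cf x u j f)) = 0 := by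
    apply eq_zero_of_eval (X_ne_zero (0 : Fin 2) : (X 0 : MvPolynomial (Fin 2) ℂ) ≠ 0)
    intro w hw
    rw [eval_X] at hw
    rw [map_sub, eval_lsub, map_sum, comb_ln]
    have h2 : w 0 • x + w 1 • comb u v = w 0 • (x + comb u ((w 1 / w 0) • v)) := by
      rw [smul_add, map_smul, smul_smul, mul_div_cancel₀ _ hw]
    rw [h2, eval_smul_of_isHomogeneous hf, ← eval_aff]
    have h3 : eval ((w 1 / w 0) • v) (aff x u f) =
        ∑ j ∈ Finset.range (m + 1), (w 1 / w 0) ^ j * eval v (cf x u j f) := by
      conv_lhs => rw [← sum_homogeneousComponent (aff x u f), map_sum]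
      have h4 : ∀ j, eval ((w 1 / w 0) • v) (homogeneousComponent j (aff x u f)) =
          (w 1 / w 0) ^ j * eval v (cf x u j f) := fun j =>
        eval_smul_of_isHomogeneous (homogeneousComponent_isHomogeneous _ _) _ _
      rw [Finset.sum_congr rfl (fun j _ => h4 j)]
      apply Finset.sum_subset
      · intro j hj
        rw [Finset.mem_range] at hj ⊢
        have h5 := totalDegree_aff_le x u f
        have h6 := hf.totalDegree_le
        omega
      · intro j _ hj
        rw [Finset.mem_range, not_lt] at hj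
        rw [cf, homogeneousComponent_eq_zero _ _ (by omega), map_zero, mul_zero]
    rw [h3, Finset.mul_sum, sub_eq_zero]
    refine Finset.sum_congr rfl (fun j hj => ?_)
    rw [Finset.mem_range] at hj
    simp only [map_mul, map_pow, eval_X, eval_C]
    rw [← mul_assoc]
    congr 1
    rw [div_pow, ← mul_div_assoc, div_eq_iff (pow_ne_zero _ hw)]
    rw [show w 0 ^ (m - j) * w 1 ^ j * w 0 ^ j = (w 0 ^ (m - j) * w 0 ^ j) * w 1 ^ j by ring,
      ← pow_add, Nat.sub_add_cancel (by omega)]
  have h2 := congrArg (eval z) h1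
  rw [map_sub, eval_lsub, map_sum, map_zero, sub_eq_zero] at h2
  rw [h2]
  refine Finset.sum_congr rfl (fun j _ => ?_)
  simp only [map_mul, map_pow, eval_X, eval_C]

/-- A form vanishes on a line of the pencil iff its coefficient forms vanish. -/
lemma pencil_iff {f : MvPolynomial ρ ℂ} {d : ℕ} (hf : f.IsHomogeneous d) (hx : eval x f = 0)
    (v : Fin n → ℂ) : (∀ j : Fin d, eval v (cf x u ((j : ℕ) + 1) f) = 0) ↔
      ∀ z, eval (comb (ln x (comb u v)) z) f = 0 := by
  constructor
  · intro h z
    rw [eval_line x u hf]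
    refine Finset.sum_eq_zero (fun j hj => ?_)
    rw [Finset.mem_range] at hj
    rcases Nat.eq_zero_or_pos j with rfl | hj0
    · have h1 : eval v (cf x u 0 f) = 0 := by
        have h2 := eval_line x u hf v ![1, 0]
        rw [comb_ln] at h2
        simp only [Matrix.cons_val_zero, Matrix.cons_val_one, one_smul, zero_smul, add_zero, hx,
          one_pow, one_mul] at h2
        rw [Finset.sum_eq_single 0] at h2
        · simpa using h2.symm
        · intro b _ hb
          rw [zero_pow hb, zero_mul]
        · intro h3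
          simp at h3
      rw [h1, mul_zero]
    · have h1 := h ⟨j - 1, by omega⟩
      simp only [Nat.sub_add_cancel hj0] at h1
      rw [h1, mul_zero]
  · intro h j
    apply eval_hc_of_line
    intro t _
    rw [eval_aff, map_smul]
    have h1 := h ![1, t]
    rw [comb_ln] at h1
    simpa using h1

end Aff

end Pool.Agent.Hartshorne
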