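import Mathlib
import Pool.Agent.Hartshorne.Reg

/-!
Extension of splittings from a hyperplane (Horrocks).
-/

namespace Pool.Agent.Hartshorne

open MvPolynomial

set_option linter.unusedSectionVars false

section Restrict

variable {k : ℕ}

/-- Set the last variable to zero. -/
noncomputable def resP (k : ℕ) : MvPolynomial (Fin (k + 1)) ℂ →ₐ[ℂ] MvPolynomial (Fin k) ℂ :=
  aeval (Fin.snoc (fun i => X i) 0 : Fin (k + 1) → MvPolynomial (Fin k) ℂ)

lemma resP_rename (f : MvPolynomial (Fin k) ℂ) : resP k (rename Fin.castSucc f) = f := by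
  rw [resP, aeval_rename]
  have h1 : ((Fin.snoc (fun i => X i) 0 : Fin (k + 1) → MvPolynomial (Fin k) ℂ) ∘ Fin.castSucc)
      = X := by
    funext i; simp
  rw [h1, aeval_X_left_apply]

lemma resP_X_last : resP k (X (Fin.last k)) = 0 := by simp [resP]

lemma resP_X_castSucc (i : Fin k) : resP k (X (Fin.castSucc i)) = X i := by simp [resP]

lemma eval_resP (z : Fin k → ℂ) (f : MvPolynomial (Fin (k + 1)) ℂ) :
    eval z (resP k f) = eval (Fin.snoc z 0 : Fin (k + 1) → ℂ) f := by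
  have h2 : (eval z).comp (resP k : MvPolynomial (Fin (k + 1)) ℂ →+* MvPolynomial (Fin k) ℂ) =
      eval (Fin.snoc z 0 : Fin (k + 1) → ℂ) := by
    apply MvPolynomial.ringHom_ext
    · intro a; simp
    · intro i
      refine Fin.lastCases ?_ (fun j => ?_) i
      · simp [resP]
      · simp [resP]
  exact RingHom.congr_fun h2 f

lemma exists_resP (f : MvPolynomial (Fin (k + 1)) ℂ) :
    ∃ g, f = rename Fin.castSucc (resP k f) + X (Fin.last k) * g := by
  induction f using MvPolynomial.induction_on with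
  | C a =>
    refine ⟨0, ?_⟩
    simp [resP]
  | add f g hf hg =>
    obtain ⟨f', hf'⟩ := hf
    obtain ⟨g', hg'⟩ := hg
    refine ⟨f' + g', ?_⟩
    rw [map_add, map_add]
    linear_combination hf' + hg'
  | mul_X f i hf =>
    obtain ⟨f', hf'⟩ := hf
    refine Fin.lastCases ?_ (fun j => ?_) i
    · refine ⟨f, ?_⟩
      rw [map_mul, resP_X_last, mul_zero, map_zero, zero_add, mul_comm]
    · refine ⟨f' * X (Fin.castSucc j), ?_⟩
      rw [map_mul, resP_X_castSucc, map_mul, rename_X]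
      linear_combination (X (Fin.castSucc j)) * hf'

lemma isHomogeneous_resP {f : MvPolynomial (Fin (k + 1)) ℂ} {e : ℕ} (hf : f.IsHomogeneous e) :
    (resP k f).IsHomogeneous e := by
  have h1 := hf.aeval (Fin.snoc (fun i => X i) 0 : Fin (k + 1) → MvPolynomial (Fin k) ℂ)
    (n := 1) (by
      intro i
      refine Fin.lastCases ?_ (fun j => ?_) i
      · simpa using isHomogeneous_zero _ _ _
      · simpa using isHomogeneous_X _ _)
  rwa [one_mul] at h1

variable {τ : Type*}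

/-- Restriction of rows. -/
noncomputable def resR (k : ℕ) (r : τ → MvPolynomial (Fin (k + 1)) ℂ) :
    τ → MvPolynomial (Fin k) ℂ := fun b => resP k (r b)

/-- Extension of rows. -/
noncomputable def extR (k : ℕ) (r : τ → MvPolynomial (Fin k) ℂ) :
    τ → MvPolynomial (Fin (k + 1)) ℂ := fun b => rename Fin.castSucc (r b)

lemma resR_apply (r : τ → MvPolynomial (Fin (k + 1)) ℂ) (b : τ) :
    resR k r b = resP k (r b) := by rw [resR]

lemma extR_apply (r : τ → MvPolynomial (Fin k) ℂ) (b : τ) :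
    extR k r b = rename Fin.castSucc (r b) := by rw [extR]

lemma resR_extR (r : τ → MvPolynomial (Fin k) ℂ) : resR k (extR k r) = r := by
  funext b
  rw [resR_apply, extR_apply, resP_rename]

lemma resR_add (r s : τ → MvPolynomial (Fin (k + 1)) ℂ) :
    resR k (r + s) = resR k r + resR k s := by
  funext b
  rw [resR_apply, Pi.add_apply, map_add, Pi.add_apply, resR_apply, resR_apply]

lemma resR_sub (r s : τ → MvPolynomial (Fin (k + 1)) ℂ) :
    resR k (r - s) = resR k r - resR k s := by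
  funext b
  rw [resR_apply, Pi.sub_apply, map_sub, Pi.sub_apply, resR_apply, resR_apply]

lemma resR_smul (g : MvPolynomial (Fin (k + 1)) ℂ) (r : τ → MvPolynomial (Fin (k + 1)) ℂ) :
    resR k (g • r) = resP k g • resR k r := by
  funext b
  rw [resR_apply, Pi.smul_apply, smul_eq_mul, map_mul, Pi.smul_apply, smul_eq_mul, resR_apply]

lemma rowEval_resR (z : Fin k → ℂ) (r : τ → MvPolynomial (Fin (k + 1)) ℂ) :
    rowEval z (resR k r) = rowEval (Fin.snoc z 0 : Fin (k + 1) → ℂ) r := by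
  funext b
  rw [rowEval_apply, resR_apply, eval_resP, rowEval_apply]

lemma homRow_resR {r : τ → MvPolynomial (Fin (k + 1)) ℂ} {e : ℕ} (hr : HomRow e r) :
    HomRow e (resR k r) := by
  intro b
  rw [resR_apply]
  exact isHomogeneous_resP (hr b)

lemma homRow_extR {r : τ → MvPolynomial (Fin k) ℂ} {e : ℕ} (hr : HomRow e r) :
    HomRow e (extR k r) := by
  intro b
  rw [extR_apply]
  exact (hr b).rename_isHomogeneous

lemma exists_resR_eq_zero {r : τ → MvPolynomial (Fin (k + 1)) ℂ} (h : resR k r = 0) :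
    ∃ s, r = (X (Fin.last k) : MvPolynomial (Fin (k + 1)) ℂ) • s := by
  have h1 : ∀ b, ∃ g, r b = X (Fin.last k) * g := by
    intro b
    obtain ⟨g, hg⟩ := exists_resP (r b)
    have h2 : resP k (r b) = 0 := by
      rw [← resR_apply, h, Pi.zero_apply]
    rw [h2, map_zero, zero_add] at hg
    exact ⟨g, hg⟩
  choose s hs using h1
  exact ⟨s, funext hs⟩

end Restrict

section Graded

variable {σ τ : Type*} [Fintype σ] [Fintype τ] {c : ℕ}
  {Γ : Submodule (MvPolynomial σ ℂ) (τ → MvPolynomial σ ℂ)}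
  {E : (σ → ℂ) → Submodule ℂ (τ → ℂ)}

/-- Sections are graded. -/
lemma IsBundle.inE_rowComp (hb : IsBundle c Γ E) {r : τ → MvPolynomial σ ℂ} (hr : InE E r)
    (e : ℕ) : InE E (rowComp e r) := by
  intro z hz
  obtain ⟨i, hi⟩ := Function.ne_iff.mp hz
  obtain ⟨K, hK⟩ := hb.exists_pow (g := X i) (by simp) hr
  have h1 := hb.graded _ hK (e + K)
  have h2 : ((X i : MvPolynomial σ ℂ) ^ K).IsHomogeneous K := by
    simpa using (isHomogeneous_X ℂ i).pow K
  rw [rowComp_smul h2, if_pos (Nat.le_add_left _ _), Nat.add_sub_cancel] at h1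
  have h3 := hb.mem z hz _ h1
  rw [rowEval_smul, map_pow, eval_X] at h3
  exact (Submodule.smul_mem_iff _ (pow_ne_zero K hi)).mp h3

lemma IsBundle.mem_span_of_inE (hb : IsBundle c Γ E) {ψ : Fin c → τ → MvPolynomial σ ℂ}
    {f : Fin c → ℕ} (hψ : SplitBasis c E ψ f) {r : τ → MvPolynomial σ ℂ} (hr : InE E r) :
    r ∈ Submodule.span (MvPolynomial σ ℂ) (Set.range ψ) := by
  obtain ⟨n, hn⟩ := exists_eq_sum_rowComp r
  rw [hn]
  exact Submodule.sum_mem _ (fun e _ => hψ.2.2.2 e _ (homRow_rowComp r e) (hb.inE_rowComp hr e))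

lemma SplitBasis.inE_of_mem {ψ : Fin c → τ → MvPolynomial σ ℂ}
    {f : Fin c → ℕ} (hψ : SplitBasis c E ψ f) {r : τ → MvPolynomial σ ℂ}
    (hr : r ∈ Submodule.span (MvPolynomial σ ℂ) (Set.range ψ)) : InE E r := by
  obtain ⟨a, ha⟩ := (Submodule.mem_span_range_iff_exists_fun _).mp hr
  rw [← ha]
  exact InE.sum _ _ (fun i _ => (hψ.2.1 i).smul _)

lemma le_totalDegree_of_pow_dvd {t : MvPolynomial σ ℂ} (ht : 0 < t.totalDegree) (n : ℕ) :
    ∀ f : MvPolynomial σ ℂ, f ≠ 0 → t ^ n ∣ f → n ≤ f.totalDegree := by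
  have ht0 : t ≠ 0 := by
    rintro rfl
    simp at ht
  induction n with
  | zero => intro f _ _; exact Nat.zero_le _
  | succ n ih =>
    rintro f hf ⟨q, hq⟩
    have hq0 : q ≠ 0 := by
      rintro rfl
      rw [mul_zero] at hq
      exact hf hq
    have h1 : f = t * (t ^ n * q) := by rw [hq]; ring
    have h2 : t ^ n * q ≠ 0 := mul_ne_zero (pow_ne_zero n ht0) hq0
    rw [h1, totalDegree_mul_of_isDomain ht0 h2]
    have h3 := ih _ h2 (dvd_mul_right _ _)
    omega

/-- The linear map whose kernel is the module of sections. -/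
noncomputable def minorMap (P : Fin c → τ → MvPolynomial σ ℂ) (T : Fin c → τ)
    (r : τ → MvPolynomial σ ℂ) : τ → MvPolynomial σ ℂ :=
  (Matrix.of fun i l => P i (T l)).det • r -
    ∑ i, (Matrix.cramer (Matrix.of fun i l => P i (T l)).transpose (fun l => r (T l))) i • P i

lemma minorMap_sub (P : Fin c → τ → MvPolynomial σ ℂ) (T : Fin c → τ)
    (r s : τ → MvPolynomial σ ℂ) : minorMap P T (r - s) = minorMap P T r - minorMap P T s := by
  have h1 : (fun l => (r - s) (T l)) = (fun l => r (T l)) - (fun l => s (T l)) := rfl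
  simp only [minorMap]
  rw [h1, map_sub]
  simp only [Pi.sub_apply, sub_smul, Finset.sum_sub_distrib, smul_sub]
  abel

lemma minorMap_smul (P : Fin c → τ → MvPolynomial σ ℂ) (T : Fin c → τ)
    (g : MvPolynomial σ ℂ) (r : τ → MvPolynomial σ ℂ) :
    minorMap P T (g • r) = g • minorMap P T r := by
  have h1 : (fun l => (g • r) (T l)) = g • (fun l => r (T l)) := rfl
  simp only [minorMap]
  rw [h1, map_smul, smul_sub, Finset.smul_sum, smul_comm]
  simp only [Pi.smul_apply, smul_assoc]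

lemma IsBundle.inE_of_forall_pow (hb : IsBundle c Γ E) {x t : MvPolynomial σ ℂ}
    (htp : Prime t) (htx : ¬ t ∣ x) (htd : 0 < t.totalDegree)
    {r : τ → MvPolynomial σ ℂ} {z₀ : σ → ℂ} (hz₀ : z₀ ≠ 0)
    (h : ∀ n, ∃ N : ℕ, ∃ A, InE E (x ^ N • r - t ^ n • A)) : InE E r := by
  classical
  obtain ⟨P, hP, -, hli⟩ := hb.exists_li z₀ hz₀
  obtain ⟨T, hT⟩ := exists_minor _ hli
  obtain ⟨i₀, hi₀⟩ := Function.ne_iff.mp hz₀
  have hdet : eval z₀ (Matrix.of fun i l => P i (T l)).det ≠ 0 := by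
    rw [eval_det]; exact hT
  have hD0 : (Matrix.of fun i l => P i (T l)).det ≠ 0 := by
    intro h0
    rw [h0, map_zero] at hdet
    exact hdet rfl
  have hzero : ∀ s, InE E s → minorMap P T s = 0 := by
    intro s hs
    rw [minorMap, sub_eq_zero]
    refine cramer_comb' P T s (X i₀) (X_ne_zero _) hD0 (fun z hz hli' => ?_)
    rw [eval_X] at hz
    have h1 : z ≠ 0 := by rintro rfl; exact hz rfl
    rw [hb.span_eq h1 P (fun i => hb.inE (hP i)) hli']
    exact hs z h1
  have hr0 : minorMap P T r = 0 := by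
    funext b
    by_contra hne
    rw [Pi.zero_apply] at hne
    set n := (minorMap P T r b).totalDegree + 1 with hn
    obtain ⟨N, A, hNA⟩ := h n
    have h1 := hzero _ hNA
    rw [minorMap_sub, minorMap_smul, minorMap_smul, sub_eq_zero] at h1
    have h2 := congrFun h1 b
    rw [Pi.smul_apply, Pi.smul_apply, smul_eq_mul, smul_eq_mul] at h2
    have h3 : t ^ n ∣ minorMap P T r b := by
      refine htp.pow_dvd_of_dvd_mul_left n (a := x ^ N) ?_ ?_
      · intro h4
        exact htx (htp.dvd_of_dvd_pow h4)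
      · rw [h2]; exact dvd_mul_right _ _
    have h5 := le_totalDegree_of_pow_dvd htd n _ hne h3
    omega
  have h7 : InE E ((Matrix.of fun i l => P i (T l)).det • r) := by
    rw [minorMap, sub_eq_zero] at hr0
    rw [hr0]
    exact InE.sum _ _ (fun i _ => (hb.inE (hP i)).smul _)
  exact hb.of_smul hD0 h7

end Graded

lemma homRow_zero_eq_zero {k : ℕ} {τ : Type*} {D : τ → MvPolynomial (Fin (k + 1)) ℂ}
    (hD : HomRow 0 D) (h : resR k D = 0) : D = 0 := by
  funext b
  have h7 := totalDegree_eq_zero_iff_eq_C.mp (Nat.le_zero.mp (hD b).totalDegree_le)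
  have h8 := congrFun h b
  rw [resR_apply, h7, Pi.zero_apply] at h8
  have h9 : resP k (C (coeff 0 (D b))) = C (coeff 0 (D b)) := by
    rw [← algebraMap_eq, ← algebraMap_eq]
    exact (resP k).commutes _
  rw [h9] at h8
  have h10 : coeff 0 (D b) = 0 := C_injective _ _ (by rw [h8, C_0])
  rw [h7, h10, C_0]
  rfl

section Horrocks

variable {k : ℕ} {τ : Type*} [Fintype τ] {c : ℕ}
  {Γ : Submodule (MvPolynomial (Fin (k + 1)) ℂ) (τ → MvPolynomial (Fin (k + 1)) ℂ)}
  {E : (Fin (k + 1) → ℂ) → Submodule ℂ (τ → ℂ)}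
  {Γ' : Submodule (MvPolynomial (Fin k) ℂ) (τ → MvPolynomial (Fin k) ℂ)}
  {E' : (Fin k → ℂ) → Submodule ℂ (τ → ℂ)}

/-- `r` is a section modulo `t ^ n` where `X i ≠ 0`. -/
def SecMod (E : (Fin (k + 1) → ℂ) → Submodule ℂ (τ → ℂ)) (i : Fin k) (N n : ℕ)
    (r A : τ → MvPolynomial (Fin (k + 1)) ℂ) : Prop :=
  InE E ((X (Fin.castSucc i) : MvPolynomial (Fin (k + 1)) ℂ) ^ N • r -
    (X (Fin.last k) : MvPolynomial (Fin (k + 1)) ℂ) ^ n • A)

lemma SecMod.homog (hb : IsBundle c Γ E) {i : Fin k} {N n f : ℕ}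
    {r A : τ → MvPolynomial (Fin (k + 1)) ℂ} (hr : HomRow f r) (h : SecMod E i N n r A) :
    ∃ A', SecMod E i N n r A' ∧ (n ≤ N + f → HomRow (N + f - n) A') ∧ (N + f < n → A' = 0) := by
  have h1 := hb.inE_rowComp h (N + f)
  have h2 : ((X (Fin.castSucc i) : MvPolynomial (Fin (k + 1)) ℂ) ^ N).IsHomogeneous N := by
    simpa using (isHomogeneous_X ℂ (Fin.castSucc i)).pow N
  have h3 : ((X (Fin.last k) : MvPolynomial (Fin (k + 1)) ℂ) ^ n).IsHomogeneous n := by
    simpa using (isHomogeneous_X ℂ (Fin.last k)).pow n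
  rw [rowComp_sub, rowComp_of_homRow (HomRow.smul h2 hr), rowComp_smul h3] at h1
  by_cases hn : n ≤ N + f
  · rw [if_pos hn] at h1
    exact ⟨rowComp (N + f - n) A, h1, fun _ => homRow_rowComp _ _, fun h => absurd h (by omega)⟩
  · rw [if_neg hn] at h1
    refine ⟨0, ?_, fun h => absurd h hn, fun _ => rfl⟩
    rw [SecMod, smul_zero]
    exact h1

lemma SecMod.next (hb : IsBundle c Γ E) (hb' : IsBundle c Γ' E')
    (hΓ : ∀ P ∈ Γ', ∃ Q ∈ Γ, resR k Q = P) {i : Fin k} {N n : ℕ}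
    {r A : τ → MvPolynomial (Fin (k + 1)) ℂ} (h : SecMod E i N n r A)
    (η : τ → MvPolynomial (Fin k) ℂ)
    (hη : InE E' (resR k A - (X i : MvPolynomial (Fin k) ℂ) ^ N • η)) :
    ∃ K₀, ∀ K, K₀ ≤ K → ∃ C₀, SecMod E i (N + K) (n + 1)
      (r - (X (Fin.last k) : MvPolynomial (Fin (k + 1)) ℂ) ^ n • extR k η) C₀ := by
  obtain ⟨K₀, hK₀⟩ := hb'.exists_pow (g := X i) (by simp) hη
  refine ⟨K₀, fun K hK => ?_⟩
  have hK' : (X i : MvPolynomial (Fin k) ℂ) ^ K •
      (resR k A - (X i : MvPolynomial (Fin k) ℂ) ^ N • η) ∈ Γ' := by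
    obtain ⟨m, rfl⟩ := Nat.exists_eq_add_of_le' hK
    rw [pow_add, mul_smul]
    exact Submodule.smul_mem _ _ hK₀
  obtain ⟨Q, hQ, hQres⟩ := hΓ _ hK'
  set x : MvPolynomial (Fin (k + 1)) ℂ := X (Fin.castSucc i) with hx
  set t : MvPolynomial (Fin (k + 1)) ℂ := X (Fin.last k) with ht
  have hresx : ∀ m, resP k (x ^ m) = (X i : MvPolynomial (Fin k) ℂ) ^ m := by
    intro m
    rw [map_pow, hx, resP_X_castSucc]
  have h1 : resR k (x ^ K • (A - x ^ N • extR k η) - Q) = 0 := by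
    rw [resR_sub, hQres, resR_smul, resR_sub, resR_smul, resR_extR, hresx, hresx, sub_self]
  obtain ⟨C₀, hC₀⟩ := exists_resR_eq_zero h1
  refine ⟨C₀, ?_⟩
  have h2 : x ^ (N + K) • (r - t ^ n • extR k η) - t ^ (n + 1) • C₀ =
      x ^ K • (x ^ N • r - t ^ n • A) + t ^ n • Q := by
    have h3 : t ^ (n + 1) • C₀ = t ^ n • (x ^ K • (A - x ^ N • extR k η) - Q) := by
      rw [hC₀, pow_succ, mul_smul]
    rw [h3]
    simp only [smul_sub, ← mul_smul, pow_add]
    rw [mul_comm (t ^ n) (x ^ K * x ^ N)]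
    have h5 : x ^ K * x ^ N = x ^ N * x ^ K := by ring
    have h6 : x ^ K * t ^ n = t ^ n * x ^ K := by ring
    rw [h5, h6]
    abel
  rw [SecMod, ← hx, ← ht, h2]
  exact (InE.smul _ h).add ((hb.inE hQ).smul _)

lemma SecMod.step (hk : 3 ≤ k) (hb : IsBundle c Γ E) (hb' : IsBundle c Γ' E')
    (hE : ∀ z ≠ 0, E' z = E (Fin.snoc z 0 : Fin (k + 1) → ℂ))
    (hΓ : ∀ P ∈ Γ', ∃ Q ∈ Γ, resR k Q = P) {ψ : Fin c → τ → MvPolynomial (Fin k) ℂ}
    {g : Fin c → ℕ} (hψ : SplitBasis c E' ψ g) {i j : Fin k} (hij : i ≠ j) {n f : ℕ}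
    {r : τ → MvPolynomial (Fin (k + 1)) ℂ} (hr : HomRow f r)
    (h : ∃ N A B, SecMod E i N n r A ∧ SecMod E j N n r B) :
    ∃ η : τ → MvPolynomial (Fin k) ℂ, HomRow f
      (r - (X (Fin.last k) : MvPolynomial (Fin (k + 1)) ℂ) ^ n • extR k η) ∧
      (∃ N A B, SecMod E i N (n + 1)
        (r - (X (Fin.last k) : MvPolynomial (Fin (k + 1)) ℂ) ^ n • extR k η) A ∧
        SecMod E j N (n + 1)
        (r - (X (Fin.last k) : MvPolynomial (Fin (k + 1)) ℂ) ^ n • extR k η) B) ∧
      (f < n → η = 0) := by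
  obtain ⟨N, A₀, B₀, hA₀, hB₀⟩ := h
  obtain ⟨A, hA, hAh, hA0⟩ := hA₀.homog hb hr
  obtain ⟨B, hB, hBh, hB0⟩ := hB₀.homog hb hr
  set x : MvPolynomial (Fin (k + 1)) ℂ := X (Fin.castSucc i) with hx
  set y : MvPolynomial (Fin (k + 1)) ℂ := X (Fin.castSucc j) with hy
  set t : MvPolynomial (Fin (k + 1)) ℂ := X (Fin.last k) with ht
  set x' : MvPolynomial (Fin k) ℂ := X i with hx'
  set y' : MvPolynomial (Fin k) ℂ := X j with hy'
  set M := Submodule.span (MvPolynomial (Fin k) ℂ) (Set.range ψ) with hM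
  -- a third index
  obtain ⟨l, hli, hlj⟩ : ∃ l : Fin k, l ≠ i ∧ l ≠ j := by
    have h1 : ({i, j} : Finset (Fin k)).card < (Finset.univ : Finset (Fin k)).card := by
      rw [Finset.card_univ, Fintype.card_fin]
      exact lt_of_le_of_lt Finset.card_le_two (by omega)
    obtain ⟨l, -, hl⟩ := Finset.exists_mem_notMem_of_card_lt_card h1
    rw [Finset.mem_insert, Finset.mem_singleton, not_or] at hl
    exact ⟨l, hl.1, hl.2⟩
  have hres : ∀ s, InE E s → InE E' (resR k s) := by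
    intro s hs z hz
    rw [rowEval_resR, hE z hz]
    apply hs
    intro h0
    apply hz
    funext m
    have h1 := congrFun h0 (Fin.castSucc m)
    rwa [Fin.snoc_castSucc] at h1
  have hkey : InE E (x ^ N • B - y ^ N • A) := by
    apply hb.of_smul (pow_ne_zero n (X_ne_zero (Fin.last k)))
    have h1 : (X (Fin.last k) : MvPolynomial (Fin (k + 1)) ℂ) ^ n • (x ^ N • B - y ^ N • A) =
        y ^ N • (x ^ N • r - t ^ n • A) - x ^ N • (y ^ N • r - t ^ n • B) := by
      simp only [smul_sub, ← mul_smul, ← ht]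
      rw [mul_comm (y ^ N) (x ^ N), mul_comm (t ^ n) (x ^ N), mul_comm (t ^ n) (y ^ N)]
      abel
    rw [h1]
    exact (InE.smul _ hA).sub (InE.smul _ hB)
  have hresx : resP k (x ^ N) = x' ^ N := by rw [map_pow, hx, resP_X_castSucc]
  have hresy : resP k (y ^ N) = y' ^ N := by rw [map_pow, hy, resP_X_castSucc]
  have hkey' : x' ^ N • resR k B - y' ^ N • resR k A ∈ M := by
    have h1 := hb'.mem_span_of_inE hψ (hres _ hkey)
    rwa [resR_sub, resR_smul, resR_smul, hresx, hresy] at h1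
  have hreg1 : ∀ a : τ → MvPolynomial (Fin k) ℂ, x' • a ∈ M → a ∈ M := fun a ha =>
    row_reg_one ψ hψ.2.2.1 hij.symm a ha
  have hreg2 : ∀ a : τ → MvPolynomial (Fin k) ℂ, (∃ m ∈ M, ∃ b, y' • a = m + x' • b) →
      ∃ m ∈ M, ∃ b, a = m + x' • b := fun a ha =>
    row_reg_two ψ hψ.2.2.1 hij hli hlj a ha
  obtain ⟨m₀, hm₀, η₀, hη₀⟩ := reg_pow M x' y' hreg1 hreg2 N N (resR k A)
    ⟨_, M.neg_mem hkey', resR k B, by abel⟩
  set η : τ → MvPolynomial (Fin k) ℂ := if n ≤ f then rowComp (f - n) η₀ else 0 with hη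
  have hx'h : (x' ^ N).IsHomogeneous N := by
    simpa using (isHomogeneous_X ℂ i).pow N
  have hp : resR k A - x' ^ N • η ∈ M := by
    by_cases hn1 : n ≤ N + f
    · have h1 := rowComp_of_homRow (homRow_resR (hAh hn1))
      rw [← h1, hη₀, rowComp_add, rowComp_smul hx'h]
      by_cases hn2 : n ≤ f
      · rw [if_pos (by omega), hη, if_pos hn2]
        have h2 : N + f - n - N = f - n := by omega
        rw [h2, add_sub_cancel_right]
        exact rowComp_mem_span ψ g hψ.1 hm₀ _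
      · by_cases hN : N ≤ N + f - n
        · exfalso; omega
        · rw [if_neg hN, hη, if_neg hn2, smul_zero, sub_zero, add_zero]
          exact rowComp_mem_span ψ g hψ.1 hm₀ _
    · rw [hA0 (by omega), hη, if_neg (by omega), smul_zero, sub_zero]
      have h1 : resR k (0 : τ → MvPolynomial (Fin (k + 1)) ℂ) = 0 := by
        funext b
        rw [resR_apply, Pi.zero_apply, map_zero, Pi.zero_apply]
      rw [h1]
      exact M.zero_mem
  have hq : resR k B - y' ^ N • η ∈ M := by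
    apply reg_pow_left M x' hreg1 N
    have h1 : x' ^ N • (resR k B - y' ^ N • η) =
        (x' ^ N • resR k B - y' ^ N • resR k A) + y' ^ N • (resR k A - x' ^ N • η) := by
      simp only [smul_sub, ← mul_smul]
      rw [mul_comm (y' ^ N) (x' ^ N)]
      abel
    rw [h1]
    exact M.add_mem hkey' (M.smul_mem _ hp)
  obtain ⟨K₀, hK₀⟩ := hA.next hb hb' hΓ η (hψ.inE_of_mem hp)
  obtain ⟨K₁, hK₁⟩ := hB.next hb hb' hΓ η (hψ.inE_of_mem hq)
  obtain ⟨C₀, hC₀⟩ := hK₀ (K₀ + K₁) (Nat.le_add_right _ _)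
  obtain ⟨C₁, hC₁⟩ := hK₁ (K₀ + K₁) (Nat.le_add_left _ _)
  refine ⟨η, ?_, ⟨N + (K₀ + K₁), C₀, C₁, hC₀, hC₁⟩, ?_⟩
  · refine hr.sub ?_
    by_cases hn2 : n ≤ f
    · have h1 : (t ^ n).IsHomogeneous n := by
        simpa using (isHomogeneous_X ℂ (Fin.last k)).pow n
      have h2 : HomRow (f - n) η := by
        rw [hη, if_pos hn2]; exact homRow_rowComp _ _
      have h3 := HomRow.smul h1 (homRow_extR h2)
      rwa [Nat.add_sub_cancel' hn2] at h3
    · have h1 : extR k (0 : τ → MvPolynomial (Fin k) ℂ) = 0 := by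
        funext b
        rw [extR_apply, Pi.zero_apply, map_zero, Pi.zero_apply]
      rw [hη, if_neg hn2, h1, smul_zero]
      exact homRow_zero _
  · intro hn
    rw [hη, if_neg (by omega)]

/-- Lifting of sections. -/
lemma exists_section_lift (hk : 3 ≤ k) (hb : IsBundle c Γ E) (hb' : IsBundle c Γ' E')
    (hE : ∀ z ≠ 0, E' z = E (Fin.snoc z 0 : Fin (k + 1) → ℂ))
    (hΓ : ∀ P ∈ Γ', ∃ Q ∈ Γ, resR k Q = P) {ψ : Fin c → τ → MvPolynomial (Fin k) ℂ}
    {g : Fin c → ℕ} (hψ : SplitBasis c E' ψ g) {f : ℕ} {s : τ → MvPolynomial (Fin k) ℂ}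
    (hs : HomRow f s) (hsE : InE E' s) : ∃ r, HomRow f r ∧ InE E r ∧ resR k r = s := by
  have hij : (⟨0, by omega⟩ : Fin k) ≠ ⟨1, by omega⟩ := by
    intro h
    have := congrArg Fin.val h
    simp at this
  set i : Fin k := ⟨0, by omega⟩ with hi
  set j : Fin k := ⟨1, by omega⟩ with hj
  have hext0 : extR k (0 : τ → MvPolynomial (Fin k) ℂ) = 0 := by
    funext b
    rw [extR_apply, Pi.zero_apply, map_zero, Pi.zero_apply]
  have hbase : ∀ l : Fin k, ∃ K₀, ∀ K, K₀ ≤ K → ∃ A, SecMod E l K 1 (extR k s) A := by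
    intro l
    obtain ⟨K₀, hK₀⟩ := hb'.exists_pow (g := X l) (by simp) hsE
    refine ⟨K₀, fun K hK => ?_⟩
    have hK' : (X l : MvPolynomial (Fin k) ℂ) ^ K • s ∈ Γ' := by
      obtain ⟨m, rfl⟩ := Nat.exists_eq_add_of_le' hK
      rw [pow_add, mul_smul]
      exact Submodule.smul_mem _ _ hK₀
    obtain ⟨Q, hQ, hQres⟩ := hΓ _ hK'
    have h1 : resR k ((X (Fin.castSucc l) : MvPolynomial (Fin (k + 1)) ℂ) ^ K • extR k s - Q)
        = 0 := by
      rw [resR_sub, hQres, resR_smul, resR_extR, map_pow, resP_X_castSucc, sub_self]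
    obtain ⟨A, hA⟩ := exists_resR_eq_zero h1
    refine ⟨A, ?_⟩
    rw [SecMod, pow_one, ← hA, sub_sub_cancel]
    exact hb.inE hQ
  have hiter : ∀ n, ∃ r, HomRow f r ∧ resR k r = s ∧
      ∃ N A B, SecMod E i N (n + 1) r A ∧ SecMod E j N (n + 1) r B := by
    intro n
    induction n with
    | zero =>
      obtain ⟨K₀, hK₀⟩ := hbase i
      obtain ⟨K₁, hK₁⟩ := hbase j
      obtain ⟨A, hA⟩ := hK₀ (K₀ + K₁) (Nat.le_add_right _ _)
      obtain ⟨B, hB⟩ := hK₁ (K₀ + K₁) (Nat.le_add_left _ _)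
      exact ⟨extR k s, homRow_extR hs, resR_extR s, K₀ + K₁, A, B, hA, hB⟩
    | succ n ih =>
      obtain ⟨r, hr, hrs, hQ⟩ := ih
      obtain ⟨η, h1, h2, -⟩ := SecMod.step hk hb hb' hE hΓ hψ hij hr hQ
      refine ⟨_, h1, ?_, h2⟩
      rw [resR_sub, resR_smul, map_pow, resP_X_last, zero_pow (Nat.succ_ne_zero n), zero_smul,
        sub_zero, hrs]
  obtain ⟨r, hr, hrs, hQ⟩ := hiter f
  have hall : ∀ n, ∃ N A B, SecMod E i N (f + 1 + n) r A ∧ SecMod E j N (f + 1 + n) r B := by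
    intro n
    induction n with
    | zero => exact hQ
    | succ n ih =>
      obtain ⟨η, -, h2, h3⟩ := SecMod.step hk hb hb' hE hΓ hψ hij hr ih
      rw [h3 (by omega), hext0, smul_zero, sub_zero] at h2
      exact h2
  refine ⟨r, hr, ?_, hrs⟩
  have hz : (fun _ => 1 : Fin (k + 1) → ℂ) ≠ 0 := by
    intro h
    exact one_ne_zero (congrFun h 0)
  refine hb.inE_of_forall_pow (x := X (Fin.castSucc i)) (t := X (Fin.last k)) (prime_X' _) ?_ ?_
    hz ?_
  · intro h
    have h1 := not_X_dvd_X_pow (i := Fin.last k) (j := Fin.castSucc i)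
      (Fin.castSucc_lt_last i).ne' 1
    rw [pow_one] at h1
    exact h1 h
  · rw [totalDegree_X]; exact Nat.one_pos
  · intro n
    obtain ⟨N, A, -, hA, -⟩ := hall n
    refine ⟨N, (X (Fin.last k) : MvPolynomial (Fin (k + 1)) ℂ) ^ (f + 1) • A, ?_⟩
    rw [← mul_smul, ← pow_add, add_comm n (f + 1)]
    exact hA

/-- **Extension of splittings.** -/
theorem horrocks_step (hk : 3 ≤ k) (hb : IsBundle c Γ E) (hb' : IsBundle c Γ' E')
    (hE : ∀ z ≠ 0, E' z = E (Fin.snoc z 0 : Fin (k + 1) → ℂ))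
    (hΓ : ∀ P ∈ Γ', ∃ Q ∈ Γ, resR k Q = P) (hsplit : ∃ ψ g, SplitBasis c E' ψ g) :
    ∃ ψ g, SplitBasis c E ψ g := by
  obtain ⟨ψ, g, hψ⟩ := hsplit
  have hlift := fun i => exists_section_lift hk hb hb' hE hΓ hψ (hψ.1 i) (hψ.2.1 i)
  choose Ψ hΨh hΨE hΨres using hlift
  refine ⟨Ψ, g, hb.splitBasis_of_gen Ψ g hΨh hΨE ?_⟩
  have hres : ∀ s, InE E s → InE E' (resR k s) := by
    intro s hs z hz
    rw [rowEval_resR, hE z hz]
    apply hs
    intro h0
    apply hz
    funext m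
    have h1 := congrFun h0 (Fin.castSucc m)
    rwa [Fin.snoc_castSucc] at h1
  intro e
  induction e with
  | zero =>
    intro r hr hrE
    have h1 := hb'.mem_span_of_inE hψ (hres _ hrE)
    obtain ⟨a, ha, ha0, hsum⟩ := exists_homog_coeffs (homRow_resR hr) ψ g hψ.1 h1
    have h2 : HomRow 0 (∑ i, rename Fin.castSucc (a i) • Ψ i) :=
      homRow_comb Ψ g hΨh _ (fun j => (ha j).rename_isHomogeneous)
        (fun j hj => by rw [ha0 j hj, map_zero])
    have h3 : r - ∑ i, rename Fin.castSucc (a i) • Ψ i = 0 := by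
      apply homRow_zero_eq_zero (hr.sub h2)
      rw [resR_sub, ← hsum, sub_eq_zero]
      funext b
      rw [resR_apply, Finset.sum_apply, Finset.sum_apply, map_sum]
      refine Finset.sum_congr rfl (fun i _ => ?_)
      rw [Pi.smul_apply, Pi.smul_apply, smul_eq_mul, smul_eq_mul, map_mul, resP_rename,
        ← resR_apply, hΨres i]
    rw [sub_eq_zero.mp h3]
    exact Submodule.sum_mem _ (fun i _ => Submodule.smul_mem _ _
      (Submodule.subset_span ⟨i, rfl⟩))
  | succ e ih =>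
    intro r hr hrE
    have h1 := hb'.mem_span_of_inE hψ (hres _ hrE)
    obtain ⟨a, ha, ha0, hsum⟩ := exists_homog_coeffs (homRow_resR hr) ψ g hψ.1 h1
    have h2 : HomRow (e + 1) (∑ i, rename Fin.castSucc (a i) • Ψ i) :=
      homRow_comb Ψ g hΨh _ (fun j => (ha j).rename_isHomogeneous)
        (fun j hj => by rw [ha0 j hj, map_zero])
    have h3 : resR k (r - ∑ i, rename Fin.castSucc (a i) • Ψ i) = 0 := by
      rw [resR_sub, ← hsum, sub_eq_zero]
      funext b
      rw [resR_apply, Finset.sum_apply, Finset.sum_apply, map_sum]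
      refine Finset.sum_congr rfl (fun i _ => ?_)
      rw [Pi.smul_apply, Pi.smul_apply, smul_eq_mul, smul_eq_mul, map_mul, resP_rename,
        ← resR_apply, hΨres i]
    obtain ⟨s, hs⟩ := exists_resR_eq_zero h3
    have h4 : HomRow (e + 1) ((X (Fin.last k) : MvPolynomial (Fin (k + 1)) ℂ) • s) := by
      rw [← hs]; exact hr.sub h2
    have h5 : HomRow e s := by
      apply homRow_of_X_pow_smul (Fin.last k) 1
      rw [pow_one, add_comm 1 e]
      exact h4
    have h6 : InE E s := by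
      apply hb.of_smul (X_ne_zero (Fin.last k))
      rw [← hs]
      exact hrE.sub (InE.sum _ _ (fun i _ => (hΨE i).smul _))
    have h7 := ih s h5 h6
    have h8 : r = (X (Fin.last k) : MvPolynomial (Fin (k + 1)) ℂ) • s +
        ∑ i, rename Fin.castSucc (a i) • Ψ i := by
      rw [← hs]; abel
    rw [h8]
    exact Submodule.add_mem _ (Submodule.smul_mem _ _ h7) (Submodule.sum_mem _ (fun i _ =>
      Submodule.smul_mem _ _ (Submodule.subset_span ⟨i, rfl⟩)))

end Horrocks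

end Pool.Agent.Hartshorne
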