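import Mathlib
import Pool.Agent.Hartshorne.Horrocks
import Pool.Agent.Hartshorne.Locus

/-!
Families of vector spaces of constant dimension which depend algebraically on a point of a cone.
-/

namespace Pool.Agent.Hartshorne

open MvPolynomial

set_option linter.unusedSectionVars false

section Frame

variable {σ β γ : Type*} [Fintype β] [Fintype γ]

/-- The solution space of linear equations with polynomial coefficients. -/
def solS {E : Type*} (A : E → β → MvPolynomial σ ℂ) (v : σ → ℂ) : Submodule ℂ (β → ℂ) where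
  carrier := {k | ∀ i, rowEval v (A i) ⬝ᵥ k = 0}
  zero_mem' := fun i => dotProduct_zero _
  add_mem' := by
    intro x y hx hy i
    rw [dotProduct_add, hx i, hy i, add_zero]
  smul_mem' := by
    intro t x hx i
    rw [dotProduct_smul, hx i, smul_zero]

lemma mem_solS {E : Type*} (A : E → β → MvPolynomial σ ℂ) (v : σ → ℂ) (k : β → ℂ) :
    k ∈ solS A v ↔ ∀ i, rowEval v (A i) ⬝ᵥ k = 0 := Iff.rfl

/-- Every vector in a space of the family extends to a polynomial section near its point. -/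
def FrameProp (S : Set (σ → ℂ)) (H : (σ → ℂ) → Submodule ℂ (γ → ℂ)) : Prop :=
  ∀ v₀ ∈ S, ∀ h ∈ H v₀, ∃ (Δ : MvPolynomial σ ℂ) (k : γ → MvPolynomial σ ℂ), eval v₀ Δ ≠ 0 ∧
    rowEval v₀ k = eval v₀ Δ • h ∧ ∀ v ∈ S, eval v Δ ≠ 0 → rowEval v k ∈ H v

lemma finrank_sol_of_li {R : ℕ} (w : Fin R → (β → ℂ)) (hw : LinearIndependent ℂ w)
    (N : Submodule ℂ (β → ℂ)) (hN : ∀ k, k ∈ N ↔ ∀ l, w l ⬝ᵥ k = 0) :
    Module.finrank ℂ N + R = Fintype.card β := by
  classical
  have h1 : N = LinearMap.ker (Matrix.of w).mulVecLin := by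
    ext k
    rw [hN, LinearMap.mem_ker, Matrix.mulVecLin_apply]
    constructor
    · intro h
      funext l
      exact h l
    · intro h l
      exact congrFun h l
  have h2 := LinearMap.finrank_range_add_finrank_ker (Matrix.of w).mulVecLin
  have h3 : Module.finrank ℂ (LinearMap.range (Matrix.of w).mulVecLin) = R := by
    have h4 : (Matrix.of w).rank = Fintype.card (Fin R) :=
      LinearIndependent.rank_matrix (M := Matrix.of w) hw
    rw [Fintype.card_fin] at h4
    exact h4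
  rw [h3, Module.finrank_fintype_fun_eq_card, ← h1] at h2
  omega

/-- Solution spaces of constant dimension have polynomial sections. -/
theorem frame_of_eqs {E : Type*} (S : Set (σ → ℂ)) (A : E → β → MvPolynomial σ ℂ) (κ : ℕ)
    (hκ : ∀ v ∈ S, Module.finrank ℂ (solS A v) = κ) : FrameProp S (solS A) := by
  classical
  intro v₀ hv₀ k hk
  obtain ⟨R, hR⟩ : ∃ R, Module.finrank ℂ
    (Submodule.span ℂ ((fun i => rowEval v₀ (A i)) '' Set.univ)) = R := ⟨_, rfl⟩
  obtain ⟨g, -, hli⟩ := exists_li_image (Set.univ : Set E) (fun i => rowEval v₀ (A i)) hR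
  have hsp : Submodule.span ℂ (Set.range fun l => rowEval v₀ (A (g l))) =
      Submodule.span ℂ ((fun i => rowEval v₀ (A i)) '' Set.univ) := by
    apply Submodule.eq_of_le_of_finrank_eq
    · rw [Submodule.span_le]
      rintro _ ⟨l, rfl⟩
      exact Submodule.subset_span ⟨g l, Set.mem_univ _, rfl⟩
    · rw [finrank_span_eq_card hli, Fintype.card_fin, hR]
  have hsol₀ : ∀ k, k ∈ solS A v₀ ↔ ∀ l, rowEval v₀ (A (g l)) ⬝ᵥ k = 0 := by
    intro k
    constructor
    · intro h l; exact h (g l)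
    · intro h i
      have h1 : rowEval v₀ (A i) ∈ Submodule.span ℂ (Set.range fun l => rowEval v₀ (A (g l))) := by
        rw [hsp]
        exact Submodule.subset_span ⟨i, Set.mem_univ _, rfl⟩
      obtain ⟨c, hc⟩ := (Submodule.mem_span_range_iff_exists_fun _).mp h1
      rw [← hc, sum_dotProduct]
      refine Finset.sum_eq_zero (fun l _ => ?_)
      rw [smul_dotProduct, h l, smul_zero]
  have hdim₀ := finrank_sol_of_li _ hli (solS A v₀) hsol₀
  rw [hκ v₀ hv₀] at hdim₀
  obtain ⟨T, hT⟩ := exists_minor _ hli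
  set M : Matrix (Fin R) (Fin R) (MvPolynomial σ ℂ) := Matrix.of fun i l => A (g i) (T l) with hM
  have hdet : eval v₀ M.det ≠ 0 := by
    rw [eval_det]; exact hT
  set res : Fin R → MvPolynomial σ ℂ := fun i => ∑ b, A (g i) b * C (k b) with hres
  have hres_eval : ∀ v i, eval v (res i) = rowEval v (A (g i)) ⬝ᵥ k := by
    intro v i
    rw [hres, map_sum]
    refine Finset.sum_congr rfl (fun b _ => ?_)
    rw [map_mul, eval_C]
    rfl
  set y : Fin R → MvPolynomial σ ℂ := M.cramer res with hy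
  set k' : β → MvPolynomial σ ℂ := fun b => M.det * C (k b) - ∑ l, if T l = b then y l else 0
    with hk'
  have hA : ∀ i, ∑ b, A (g i) b * k' b = 0 := by
    intro i
    have h1 : ∑ b, A (g i) b * k' b = M.det * res i - ∑ l, M i l * y l := by
      simp only [hk', mul_sub, Finset.sum_sub_distrib]
      congr 1
      · rw [hres, Finset.mul_sum]
        exact Finset.sum_congr rfl (fun b _ => by ring)
      · simp only [Finset.mul_sum, mul_ite, mul_zero]
        rw [Finset.sum_comm]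
        refine Finset.sum_congr rfl (fun l _ => ?_)
        rw [Finset.sum_ite_eq, if_pos (Finset.mem_univ _)]
        rfl
    rw [h1, sub_eq_zero]
    have h2 := congrFun (Matrix.mulVec_cramer M res) i
    rw [Pi.smul_apply, smul_eq_mul] at h2
    rw [← h2]
    rfl
  refine ⟨M.det, k', hdet, ?_, ?_⟩
  · have hy0 : ∀ l, eval v₀ (y l) = 0 := by
      intro l
      rw [hy, Matrix.cramer_eq_adjugate_mulVec, Matrix.mulVec, dotProduct, map_sum]
      refine Finset.sum_eq_zero (fun i _ => ?_)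
      rw [map_mul, hres_eval, (hsol₀ k).mp hk i, mul_zero]
    funext b
    rw [rowEval_apply, hk', map_sub, map_mul, eval_C, map_sum, Pi.smul_apply, smul_eq_mul]
    rw [Finset.sum_eq_zero, sub_zero]
    intro l _
    split_ifs
    · exact hy0 l
    · exact map_zero _
  · intro v hv hΔ
    have hliv : LinearIndependent ℂ (fun l => rowEval v (A (g l))) :=
      rowEval_li_of_det v (fun l => A (g l)) T hΔ
    -- the solution space of the chosen equations
    set N : Submodule ℂ (β → ℂ) := solS (fun l => A (g l)) v with hN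
    have h1 := finrank_sol_of_li _ hliv N (fun k => Iff.rfl)
    have h2 : solS A v = N := by
      apply Submodule.eq_of_le_of_finrank_eq
      · intro x hx l
        exact hx (g l)
      · rw [hκ v hv]; omega
    rw [h2]
    intro l
    have h3 := congrArg (eval v) (hA l)
    rw [map_sum, map_zero] at h3
    rw [← h3]
    refine Finset.sum_congr rfl (fun b _ => ?_)
    rw [map_mul]
    rfl

/-- Selection of coordinates. -/
lemma FrameProp.comap_coord {S : Set (σ → ℂ)} {H : (σ → ℂ) → Submodule ℂ (β → ℂ)}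
    (h : FrameProp S H) (ι : γ → β) :
    FrameProp S (fun v => (H v).map (LinearMap.funLeft ℂ ℂ ι)) := by
  rintro v₀ hv₀ _ ⟨x, hx, rfl⟩
  obtain ⟨Δ, k, hΔ, hk, hkS⟩ := h v₀ hv₀ x hx
  refine ⟨Δ, fun b => k (ι b), hΔ, ?_, ?_⟩
  · funext b
    have h1 := congrFun hk (ι b)
    rw [rowEval_apply] at h1 ⊢
    rw [h1]
    rfl
  · intro v hv hΔv
    exact ⟨rowEval v k, hkS v hv hΔv, rfl⟩

/-- Local bases. -/
theorem FrameProp.exists_basis {S : Set (σ → ℂ)} {H : (σ → ℂ) → Submodule ℂ (γ → ℂ)}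
    (h : FrameProp S H) {g : ℕ} (hg : ∀ v ∈ S, Module.finrank ℂ (H v) = g) {v₀ : σ → ℂ}
    (hv₀ : v₀ ∈ S) : ∃ (Δ : MvPolynomial σ ℂ) (k : Fin g → γ → MvPolynomial σ ℂ)
      (T : Fin g → γ), eval v₀ Δ ≠ 0 ∧
      ∀ v ∈ S, eval v Δ ≠ 0 → (∀ l, rowEval v (k l) ∈ H v) ∧
        eval v (Matrix.of fun i l => k i (T l)).det ≠ 0 := by
  classical
  set b := Module.finBasisOfFinrankEq ℂ (H v₀) (hg v₀ hv₀) with hb
  have h1 : ∀ l, ∃ (Δ : MvPolynomial σ ℂ) (k : γ → MvPolynomial σ ℂ), eval v₀ Δ ≠ 0 ∧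
    rowEval v₀ k = eval v₀ Δ • (b l : γ → ℂ) ∧ ∀ v ∈ S, eval v Δ ≠ 0 → rowEval v k ∈ H v :=
    fun l => h v₀ hv₀ (b l : γ → ℂ) (b l).2
  choose Δ k hΔ hk hkS using h1
  have hbli : LinearIndependent ℂ (fun l => (b l : γ → ℂ)) := by
    have h2 := b.linearIndependent.map' (H v₀).subtype (Submodule.ker_subtype _)
    exact h2
  have hli : LinearIndependent ℂ (fun l => rowEval v₀ (k l)) := by
    have h2 : (fun l => rowEval v₀ (k l)) = fun l => (Units.mk0 _ (hΔ l)) • (b l : γ → ℂ) := by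
      funext l
      rw [hk l]
      rfl
    rw [h2]
    exact hbli.units_smul _
  obtain ⟨T, hT⟩ := exists_minor _ hli
  refine ⟨(∏ l, Δ l) * (Matrix.of fun i l => k i (T l)).det, k, T, ?_, ?_⟩
  · rw [map_mul, map_prod, eval_det]
    exact mul_ne_zero (Finset.prod_ne_zero_iff.mpr (fun l _ => hΔ l)) hT
  · intro v hv hne
    rw [map_mul, map_prod] at hne
    have h2 := left_ne_zero_of_mul hne
    rw [Finset.prod_ne_zero_iff] at h2
    exact ⟨fun l => hkS l v hv (h2 l (Finset.mem_univ _)), right_ne_zero_of_mul hne⟩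

/-- Cramer's rule at a point. -/
lemma minorMap_eval_of_mem {g : ℕ} (k : Fin g → γ → MvPolynomial σ ℂ) (T : Fin g → γ)
    (a : γ → MvPolynomial σ ℂ) (v : σ → ℂ)
    (h : rowEval v a ∈ Submodule.span ℂ (Set.range fun l => rowEval v (k l))) :
    rowEval v (minorMap k T a) = 0 := by
  classical
  obtain ⟨c, hc⟩ := (Submodule.mem_span_range_iff_exists_fun _).mp h
  have hcb : ∀ b, eval v (a b) = ∑ i, c i * eval v (k i b) := by
    intro b
    have h1 := congrFun hc b
    rw [Finset.sum_apply] at h1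
    rw [← rowEval_apply v a b, ← h1]
    rfl
  set M : Matrix (Fin g) (Fin g) (MvPolynomial σ ℂ) := Matrix.of fun i l => k i (T l) with hM
  have hcr : ∀ i, eval v (Matrix.cramer M.transpose (fun l => a (T l)) i) = eval v M.det * c i := by
    intro i
    rw [Matrix.cramer_eq_adjugate_mulVec, Matrix.mulVec, dotProduct, map_sum]
    simp only [map_mul]
    have h1 : ∀ l, eval v (a (T l)) = ∑ j, c j * eval v (M j l) := fun l => hcb (T l)
    simp only [h1, Finset.mul_sum]
    rw [Finset.sum_comm]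
    have h2 : ∀ j, ∑ l, eval v (M.transpose.adjugate i l) * (c j * eval v (M j l)) =
        c j * eval v ((M.transpose.adjugate * M.transpose) i j) := by
      intro j
      rw [Matrix.mul_apply, map_sum, Finset.mul_sum]
      refine Finset.sum_congr rfl (fun l _ => ?_)
      rw [map_mul, Matrix.transpose_apply]
      ring
    rw [Finset.sum_congr rfl (fun j _ => h2 j), Matrix.adjugate_mul, Matrix.det_transpose]
    simp only [Matrix.smul_apply, Matrix.one_apply, smul_eq_mul, mul_ite, mul_one, mul_zero]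
    rw [Finset.sum_eq_single i]
    · rw [if_pos rfl, mul_comm]
    · intro j _ hj
      rw [if_neg (Ne.symm hj), map_zero, mul_zero]
    · intro hne; exact absurd (Finset.mem_univ _) hne
  funext b
  rw [rowEval_apply, minorMap, Pi.sub_apply, map_sub, Pi.smul_apply, smul_eq_mul, map_mul,
    Finset.sum_apply, map_sum, hcb b, Finset.mul_sum, Pi.zero_apply, sub_eq_zero]
  refine Finset.sum_congr rfl (fun i _ => ?_)
  rw [Pi.smul_apply, smul_eq_mul, map_mul, hcr i]
  ring

lemma mem_span_of_minorMap {g : ℕ} (k : Fin g → γ → MvPolynomial σ ℂ) (T : Fin g → γ)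
    (a : γ → MvPolynomial σ ℂ) (v : σ → ℂ)
    (hdet : eval v (Matrix.of fun i l => k i (T l)).det ≠ 0)
    (h : rowEval v (minorMap k T a) = 0) :
    rowEval v a ∈ Submodule.span ℂ (Set.range fun l => rowEval v (k l)) := by
  rw [minorMap, rowEval_sub, rowEval_smul, rowEval_sum, sub_eq_zero] at h
  have h1 : eval v (Matrix.of fun i l => k i (T l)).det • rowEval v a ∈
      Submodule.span ℂ (Set.range fun l => rowEval v (k l)) := by
    rw [h]
    refine Submodule.sum_mem _ (fun i _ => ?_)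
    rw [rowEval_smul]
    exact Submodule.smul_mem _ _ (Submodule.subset_span ⟨i, rfl⟩)
  exact (Submodule.smul_mem_iff _ hdet).mp h1

lemma minorMap_T {g : ℕ} (k : Fin g → γ → MvPolynomial σ ℂ) (T : Fin g → γ)
    (a : γ → MvPolynomial σ ℂ) (l : Fin g) : minorMap k T a (T l) = 0 := by
  classical
  have h1 := congrFun (Matrix.mulVec_cramer (Matrix.of fun i l => k i (T l)).transpose
    (fun l => a (T l))) l
  rw [Matrix.det_transpose, Pi.smul_apply, smul_eq_mul] at h1
  rw [minorMap, Pi.sub_apply, Pi.smul_apply, smul_eq_mul, ← h1, Finset.sum_apply, sub_eq_zero,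
    Matrix.mulVec, dotProduct]
  refine Finset.sum_congr rfl (fun i _ => ?_)
  rw [Pi.smul_apply, smul_eq_mul, Matrix.transpose_apply, Matrix.of_apply, mul_comm]

variable [Fintype σ]

/-- The locus where a vector belongs to the space of the family. -/
theorem isLocus_mem {Y : Set (σ → ℂ)} {H : (σ → ℂ) → Submodule ℂ (γ → ℂ)} {g : ℕ}
    (hF : FrameProp {v | v ∈ Y ∧ v ≠ 0} H)
    (hg : ∀ v ∈ {v | v ∈ Y ∧ v ≠ 0}, Module.finrank ℂ (H v) = g)
    (a : γ → MvPolynomial σ ℂ)
    (hsm : ∀ v ∈ Y, v ≠ 0 → rowEval v a ∈ H v → ∀ t : ℂ, t ≠ 0 →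
      t • v ∈ Y ∧ rowEval (t • v) a ∈ H (t • v)) :
    IsLocus Y (Fintype.card γ - g) {v | (v ∈ Y ∧ v ≠ 0) ∧ rowEval v a ∈ H v} := by
  classical
  have hspan : ∀ {v : σ → ℂ} (k : Fin g → γ → MvPolynomial σ ℂ) (T : Fin g → γ),
      v ∈ {v | v ∈ Y ∧ v ≠ 0} → (∀ l, rowEval v (k l) ∈ H v) →
      eval v (Matrix.of fun i l => k i (T l)).det ≠ 0 →
      Submodule.span ℂ (Set.range fun l => rowEval v (k l)) = H v := by
    intro v k T hv hmem hdet
    exact span_eq_of_li (hg v hv) _ (rowEval_li_of_det v k T hdet) hmem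
  refine ⟨fun v hv => ⟨hv.1.2, hv.1.1⟩, ?_, ?_, ?_⟩
  · rintro v ⟨⟨hvY, hv⟩, hva⟩ t ht
    obtain ⟨h1, h2⟩ := hsm v hvY hv hva t ht
    exact ⟨⟨h1, smul_ne_zero ht hv⟩, h2⟩
  · rintro v₀ ⟨hv₀, hva⟩
    obtain ⟨Δ, k, T, hΔ, hk⟩ := hF.exists_basis hg hv₀
    have hTinj : Function.Injective T := by
      intro i j hij
      by_contra hne
      apply (hk v₀ hv₀ hΔ).2
      rw [Matrix.det_zero_of_column_eq hne (fun r => by
        rw [Matrix.of_apply, Matrix.of_apply, hij]), map_zero]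
    have hcard : Fintype.card {b : γ // b ∉ Set.range T} = Fintype.card γ - g := by
      have h1 := Fintype.card_subtype_compl (fun b => b ∈ Set.range T)
      have h2 : Fintype.card {b // b ∈ Set.range T} = g := by
        have h3 := Set.card_range_of_injective hTinj
        rw [Fintype.card_fin] at h3
        convert h3 using 1
      rw [h2] at h1
      convert h1 using 1
    set e := Fintype.equivFinOfCardEq hcard with he
    refine ⟨Δ, fun j => minorMap k T a (e.symm j : γ), hΔ, ?_, ?_⟩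
    · intro j
      have h1 := minorMap_eval_of_mem k T a v₀ (by
        rw [hspan k T hv₀ (hk v₀ hv₀ hΔ).1 (hk v₀ hv₀ hΔ).2]; exact hva)
      exact congrFun h1 _
    · intro v hvY hv hΔv hj
      refine ⟨⟨hvY, hv⟩, ?_⟩
      have hkv := hk v ⟨hvY, hv⟩ hΔv
      rw [← hspan k T ⟨hvY, hv⟩ hkv.1 hkv.2]
      apply mem_span_of_minorMap k T a v hkv.2
      funext b
      by_cases hb : b ∈ Set.range T
      · obtain ⟨l, rfl⟩ := hb
        rw [rowEval_apply, minorMap_T, map_zero]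
        rfl
      · have h1 := hj (e ⟨b, hb⟩)
        simp only [Equiv.symm_apply_apply] at h1
        exact h1
  · intro v hvY hv hvZ
    obtain ⟨Δ, k, T, hΔ, hk⟩ := hF.exists_basis hg (v₀ := v) ⟨hvY, hv⟩
    have hkv := hk v ⟨hvY, hv⟩ hΔ
    have h1 : rowEval v (minorMap k T a) ≠ 0 := by
      intro h0
      apply hvZ
      refine ⟨⟨hvY, hv⟩, ?_⟩
      rw [← hspan k T ⟨hvY, hv⟩ hkv.1 hkv.2]
      exact mem_span_of_minorMap k T a v hkv.2 h0
    obtain ⟨b, hb⟩ := Function.ne_iff.mp h1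
    refine ⟨Δ * minorMap k T a b, ?_, ?_⟩
    · rw [map_mul]
      exact mul_ne_zero hΔ hb
    · rintro v' ⟨hv', hva'⟩
      rw [map_mul]
      by_cases hΔ' : eval v' Δ = 0
      · rw [hΔ', zero_mul]
      · have hkv' := hk v' hv' hΔ'
        have h2 := minorMap_eval_of_mem k T a v' (by
          rw [hspan k T hv' hkv'.1 hkv'.2]; exact hva')
        have h3 := congrFun h2 b
        rw [rowEval_apply, Pi.zero_apply] at h3
        rw [h3, mul_zero]

/-- The locus where the spaces of the family lie in a hyperplane. -/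
theorem isLocus_le {Y : Set (σ → ℂ)} {H : (σ → ℂ) → Submodule ℂ (γ → ℂ)} {g : ℕ}
    (hF : FrameProp {v | v ∈ Y ∧ v ≠ 0} H)
    (hg : ∀ v ∈ {v | v ∈ Y ∧ v ≠ 0}, Module.finrank ℂ (H v) = g)
    (a : γ → MvPolynomial σ ℂ)
    (hsm : ∀ v ∈ Y, v ≠ 0 → (∀ h ∈ H v, rowEval v a ⬝ᵥ h = 0) → ∀ t : ℂ, t ≠ 0 →
      t • v ∈ Y ∧ ∀ h ∈ H (t • v), rowEval (t • v) a ⬝ᵥ h = 0) :
    IsLocus Y g {v | (v ∈ Y ∧ v ≠ 0) ∧ ∀ h ∈ H v, rowEval v a ⬝ᵥ h = 0} := by
  classical
  refine ⟨fun v hv => ⟨hv.1.2, hv.1.1⟩, ?_, ?_, ?_⟩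
  · rintro v ⟨⟨hvY, hv⟩, hva⟩ t ht
    obtain ⟨h1, h2⟩ := hsm v hvY hv hva t ht
    exact ⟨⟨h1, smul_ne_zero ht hv⟩, h2⟩
  · rintro v₀ ⟨hv₀, hva⟩
    obtain ⟨Δ, k, T, hΔ, hk⟩ := hF.exists_basis hg hv₀
    have hdot : ∀ v l, eval v (∑ b, a b * k l b) = rowEval v a ⬝ᵥ rowEval v (k l) := by
      intro v l
      rw [map_sum]
      refine Finset.sum_congr rfl (fun b _ => ?_)
      rw [map_mul]
      rfl
    refine ⟨Δ, fun l => ∑ b, a b * k l b, hΔ, ?_, ?_⟩
    · intro l
      rw [hdot]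
      exact hva _ ((hk v₀ hv₀ hΔ).1 l)
    · intro v hvY hv hΔv hj
      refine ⟨⟨hvY, hv⟩, ?_⟩
      have hkv := hk v ⟨hvY, hv⟩ hΔv
      have hsp := span_eq_of_li (hg v ⟨hvY, hv⟩) _ (rowEval_li_of_det v k T hkv.2) hkv.1
      intro h hh
      rw [← hsp] at hh
      obtain ⟨c, hc⟩ := (Submodule.mem_span_range_iff_exists_fun _).mp hh
      rw [← hc, dotProduct_sum]
      refine Finset.sum_eq_zero (fun l _ => ?_)
      rw [dotProduct_smul, ← hdot, hj l, smul_zero]
  · intro v hvY hv hvZ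
    have h1 : ∃ h ∈ H v, rowEval v a ⬝ᵥ h ≠ 0 := by
      by_contra hcon
      push Not at hcon
      exact hvZ ⟨⟨hvY, hv⟩, hcon⟩
    obtain ⟨h, hh, hne⟩ := h1
    obtain ⟨Δ, k, hΔ, hk, hkS⟩ := hF v ⟨hvY, hv⟩ h hh
    have hdot : ∀ v, eval v (∑ b, a b * k b) = rowEval v a ⬝ᵥ rowEval v k := by
      intro v
      rw [map_sum]
      refine Finset.sum_congr rfl (fun b _ => ?_)
      rw [map_mul]
      rfl
    refine ⟨Δ * ∑ b, a b * k b, ?_, ?_⟩
    · rw [map_mul, hdot, hk, dotProduct_smul, smul_eq_mul]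
      exact mul_ne_zero hΔ (mul_ne_zero hΔ hne)
    · rintro v' ⟨hv', hva'⟩
      rw [map_mul]
      by_cases hΔ' : eval v' Δ = 0
      · rw [hΔ', zero_mul]
      · rw [hdot, hva' _ (hkS v' hv' hΔ'), mul_zero]

/-- **Constancy.** A vector of top weight which lies in one space of the family lies in all of
them. -/
theorem constancy [DecidableEq σ] {κ : Type*} [Fintype κ] {y : κ → MvPolynomial σ ℂ}
    (hy : ∀ i, ∃ e, (y i).IsHomogeneous e) {H : (σ → ℂ) → Submodule ℂ (γ → ℂ)} {g : ℕ}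
    (hF : FrameProp {v | v ∈ {v | ∀ i, eval v (y i) = 0} ∧ v ≠ 0} H)
    (hg : ∀ v ∈ {v | v ∈ {v | ∀ i, eval v (y i) = 0} ∧ v ≠ 0}, Module.finrank ℂ (H v) = g)
    (wt : γ → ℕ) (M : ℕ) (hwt : ∀ b, wt b ≤ M)
    (hsc : ∀ v, (∀ i, eval v (y i) = 0) → v ≠ 0 → ∀ t : ℂ, t ≠ 0 → ∀ h ∈ H v,
      (fun b => t ^ wt b * h b) ∈ H (t • v))
    (hcard : 2 * Fintype.card κ + Fintype.card γ < Fintype.card σ)
    (α : γ → ℂ) (hα : ∀ b, α b ≠ 0 → wt b = M) {v₁ v₂ : σ → ℂ}
    (hv₁ : ∀ i, eval v₁ (y i) = 0) (hv₁0 : v₁ ≠ 0)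
    (hv₂ : ∀ i, eval v₂ (y i) = 0) (hv₂0 : v₂ ≠ 0)
    (h₁ : α ∈ H v₁) : α ∈ H v₂ := by
  classical
  by_contra hα₂
  have hYt : ∀ v, (∀ i, eval v (y i) = 0) → ∀ t : ℂ, ∀ i, eval (t • v) (y i) = 0 := by
    intro v hv t i
    obtain ⟨e, he⟩ := hy i
    rw [eval_smul_of_isHomogeneous he, hv i, mul_zero]
  -- a functional
  obtain ⟨f, hf, hfH⟩ := Submodule.exists_le_ker_of_notMem hα₂
  set a₀ : γ → ℂ := fun b => f (Pi.single b 1) with ha₀
  have hfa : ∀ h : γ → ℂ, f h = a₀ ⬝ᵥ h := by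
    intro h
    conv_lhs => rw [pi_eq_sum_univ' h, map_sum]
    refine Finset.sum_congr rfl (fun b _ => ?_)
    rw [map_smul, smul_eq_mul, mul_comm]
  obtain ⟨l, hl, hl2⟩ := exists_unit_form hv₂0
  set a : γ → MvPolynomial σ ℂ := fun b => C (a₀ b) * l ^ (M - wt b) with ha
  have hlt : ∀ (v : σ → ℂ) (t : ℂ), eval (t • v) l = t * eval v l := by
    intro v t
    rw [eval_smul_of_isHomogeneous hl, pow_one]
  have hae : ∀ v b, rowEval v a b = a₀ b * eval v l ^ (M - wt b) := by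
    intro v b
    rw [rowEval_apply, ha, map_mul, eval_C, map_pow]
  -- the second locus
  have hZ₂ := isLocus_le (Y := {v | ∀ i, eval v (y i) = 0}) hF hg a (by
    intro v hvY hv hva t ht
    refine ⟨hYt v hvY t, fun h hh => ?_⟩
    have h1 := hsc (t • v) (hYt v hvY t) (smul_ne_zero ht hv) t⁻¹ (inv_ne_zero ht) h hh
    rw [smul_smul, inv_mul_cancel₀ ht, one_smul] at h1
    have h2 := hva _ h1
    have h3 : rowEval (t • v) a ⬝ᵥ h = t ^ M * (rowEval v a ⬝ᵥ fun b => t⁻¹ ^ wt b * h b) := by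
      simp only [dotProduct, Finset.mul_sum]
      refine Finset.sum_congr rfl (fun b _ => ?_)
      rw [hae, hae, hlt, mul_pow]
      have h4 : t ^ M = t ^ (M - wt b) * t ^ wt b := by
        rw [← pow_add, Nat.sub_add_cancel (hwt b)]
      rw [h4, inv_pow]
      field_simp
    rw [h3, h2, mul_zero])
  -- the first locus
  have hC : ∀ v, rowEval v (fun b => (C (α b) : MvPolynomial σ ℂ)) = α := by
    intro v; funext b; rw [rowEval_apply, eval_C]
  have hZ₁ := isLocus_mem (Y := {v | ∀ i, eval v (y i) = 0}) hF hg (fun b => C (α b)) (by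
    intro v hvY hv hva t ht
    refine ⟨hYt v hvY t, ?_⟩
    rw [hC] at hva ⊢
    have h1 := hsc v hvY hv t ht α hva
    have h2 : (fun b => t ^ wt b * α b) = t ^ M • α := by
      funext b
      rw [Pi.smul_apply, smul_eq_mul]
      by_cases hb : α b = 0
      · rw [hb, mul_zero, mul_zero]
      · rw [hα b hb]
    rw [h2] at h1
    exact (Submodule.smul_mem_iff _ (pow_ne_zero M ht)).mp h1)
  have hgγ : g ≤ Fintype.card γ := by
    rw [← hg v₁ ⟨hv₁, hv₁0⟩, ← Module.finrank_fintype_fun_eq_card (R := ℂ)]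
    exact Submodule.finrank_le _
  obtain ⟨v, hvZ₁, hvZ₂⟩ := hZ₁.meet hy hZ₂ (by omega)
    ⟨v₁, ⟨hv₁, hv₁0⟩, by rw [hC]; exact h₁⟩
    ⟨v₂, ⟨hv₂, hv₂0⟩, fun h hh => by
      have h1 : rowEval v₂ a = a₀ := by
        funext b
        rw [hae, hl2, one_pow, mul_one]
      rw [h1, ← hfa]
      exact hfH hh⟩
  have h1 : rowEval v a ⬝ᵥ α = 0 := by
    apply hvZ₂.2
    have h2 := hvZ₁.2
    rwa [hC] at h2
  have h2 : rowEval v a ⬝ᵥ α = a₀ ⬝ᵥ α := by
    refine Finset.sum_congr rfl (fun b _ => ?_)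
    by_cases hb : α b = 0
    · rw [hb, mul_zero, mul_zero]
    · rw [hae, hα b hb, Nat.sub_self, pow_zero, mul_one]
  rw [h2, ← hfa] at h1
  exact hf h1

end Frame

end Pool.Agent.Hartshorne
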