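import Mathlib
import Pool.Agent.Hartshorne.Arr
import Pool.Agent.Hartshorne.Frame

/-!
Semicontinuity of dimensions and the numerical minor map.
-/

namespace Pool.Agent.Hartshorne

open MvPolynomial

set_option linter.unusedSectionVars false

section MM

variable {τ : Type*} [Fintype τ] {c : ℕ}

/-- The numerical minor map. -/
noncomputable def mm (P : Fin c → τ → ℂ) (T : Fin c → τ) : (τ → ℂ) →ₗ[ℂ] (τ → ℂ) where
  toFun := fun r => (Matrix.of fun i l => P i (T l)).det • r -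
    ∑ i, (Matrix.cramer (Matrix.of fun i l => P i (T l)).transpose (fun l => r (T l))) i • P i
  map_add' := by
    intro r s
    have h1 : (fun l => (r + s) (T l)) = (fun l => r (T l)) + fun l => s (T l) := rfl
    rw [h1, map_add, smul_add]
    simp only [Pi.add_apply, add_smul, Finset.sum_add_distrib]
    abel
  map_smul' := by
    intro t r
    have h1 : (fun l => (t • r) (T l)) = t • (fun l => r (T l)) := rfl
    rw [h1, map_smul, smul_comm, RingHom.id_apply, smul_sub, Finset.smul_sum]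
    congr 1
    refine Finset.sum_congr rfl (fun i _ => ?_)
    rw [Pi.smul_apply, smul_assoc]

lemma mm_apply (P : Fin c → τ → ℂ) (T : Fin c → τ) (r : τ → ℂ) :
    mm P T r = (Matrix.of fun i l => P i (T l)).det • r -
    ∑ i, (Matrix.cramer (Matrix.of fun i l => P i (T l)).transpose (fun l => r (T l))) i • P i :=
  rfl

lemma mm_of_comb (w : Fin c → τ → ℂ) (B : Matrix (Fin c) (Fin c) ℂ) (a : Fin c → ℂ)
    (T : Fin c → τ) : mm (fun i => ∑ k, B i k • w k) T (∑ k, a k • w k) = 0 := by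
  rw [mm_apply, sub_eq_zero]
  set W : Matrix (Fin c) (Fin c) ℂ := Matrix.of fun k l => w k (T l) with hW
  have h1 : (Matrix.of fun i l => (∑ k, B i k • w k) (T l)) = B * W := by
    ext i l
    rw [Matrix.mul_apply, Matrix.of_apply, Finset.sum_apply]
    rfl
  have h2 : (fun l => (∑ k, a k • w k) (T l)) = W.transpose.mulVec a := by
    funext l
    rw [Finset.sum_apply, Matrix.mulVec, dotProduct]
    refine Finset.sum_congr rfl (fun k _ => ?_)
    rw [Pi.smul_apply, smul_eq_mul, mul_comm]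
    rfl
  have h3 : Matrix.cramer (B * W).transpose (W.transpose.mulVec a) =
      W.det • (B.transpose.adjugate.mulVec a) := by
    rw [Matrix.cramer_eq_adjugate_mulVec, Matrix.transpose_mul, Matrix.adjugate_mul_distrib,
      ← Matrix.mulVec_mulVec, Matrix.mulVec_mulVec _ W.transpose.adjugate, Matrix.adjugate_mul,
      Matrix.det_transpose, Matrix.smul_mulVec, Matrix.one_mulVec, Matrix.mulVec_smul]
  rw [h1, h2, h3]
  have h4 : ∑ i, (W.det • B.transpose.adjugate.mulVec a) i • ∑ k, B i k • w k =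
      ∑ k, (B.transpose.mulVec (W.det • B.transpose.adjugate.mulVec a)) k • w k := by
    simp only [Finset.smul_sum]
    rw [Finset.sum_comm]
    refine Finset.sum_congr rfl (fun k _ => ?_)
    rw [Matrix.mulVec, dotProduct, Finset.sum_smul]
    refine Finset.sum_congr rfl (fun i _ => ?_)
    rw [smul_smul, mul_comm]
    rfl
  rw [h4, Matrix.mulVec_smul, Matrix.mulVec_mulVec, Matrix.mul_adjugate, Matrix.det_transpose,
    Matrix.smul_mulVec, Matrix.one_mulVec, Matrix.det_mul, Finset.smul_sum]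
  refine Finset.sum_congr rfl (fun k _ => ?_)
  rw [Pi.smul_apply, Pi.smul_apply, smul_smul, smul_eq_mul, smul_eq_mul]
  congr 1
  ring

/-- The minor map kills a vector lying in a space of dimension `c` with the rows. -/
lemma mm_of_mem {W : Submodule ℂ (τ → ℂ)} (hW : Module.finrank ℂ W = c) (P : Fin c → τ → ℂ)
    (hP : ∀ i, P i ∈ W) (T : Fin c → τ) {r : τ → ℂ} (hr : r ∈ W) : mm P T r = 0 := by
  let b := Module.finBasisOfFinrankEq ℂ W hW
  have h1 : ∀ p ∈ W, ∃ a : Fin c → ℂ, p = ∑ k, a k • (b k : τ → ℂ) := by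
    intro p hp
    refine ⟨fun k => b.repr ⟨p, hp⟩ k, ?_⟩
    have h2 := b.sum_repr ⟨p, hp⟩
    have h3 := congrArg (fun q : W => (q : τ → ℂ)) h2
    simp only [Submodule.coe_sum, Submodule.coe_smul] at h3
    exact h3.symm
  choose B hB using fun i => h1 (P i) (hP i)
  obtain ⟨a, ha⟩ := h1 r hr
  have h4 : P = fun i => ∑ k, B i k • (b k : τ → ℂ) := funext hB
  rw [h4, ha]
  exact mm_of_comb _ _ _ _

/-- Converse. -/
lemma mem_of_mm {P : Fin c → τ → ℂ} {T : Fin c → τ}
    (hdet : (Matrix.of fun i l => P i (T l)).det ≠ 0) {r : τ → ℂ} (h : mm P T r = 0) :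
    r ∈ Submodule.span ℂ (Set.range P) := by
  rw [mm_apply, sub_eq_zero] at h
  have h1 : r = (Matrix.of fun i l => P i (T l)).det⁻¹ • ∑ i, (Matrix.cramer
      (Matrix.of fun i l => P i (T l)).transpose (fun l => r (T l))) i • P i := by
    rw [← h, smul_smul, inv_mul_cancel₀ hdet, one_smul]
  rw [h1]
  refine Submodule.smul_mem _ _ (Submodule.sum_mem _ (fun i _ => Submodule.smul_mem _ _ ?_))
  exact Submodule.subset_span ⟨i, rfl⟩

/-- Comparison with the polynomial minor map. -/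
lemma rowEval_minorMap {σ : Type*} (P : Fin c → τ → MvPolynomial σ ℂ) (T : Fin c → τ)
    (r : τ → MvPolynomial σ ℂ) (v : σ → ℂ) :
    rowEval v (minorMap P T r) = mm (fun i => rowEval v (P i)) T (rowEval v r) := by
  rw [minorMap, mm_apply, rowEval_sub, rowEval_smul, rowEval_sum, eval_det]
  congr 1
  refine Finset.sum_congr rfl (fun i _ => ?_)
  rw [rowEval_smul]
  congr 1
  rw [Matrix.cramer_apply, Matrix.cramer_apply, eval_det]
  congr 1
  ext a b
  rw [Matrix.of_apply]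
  by_cases hb : b = i
  · subst hb
    rw [Matrix.updateCol_self, Matrix.updateCol_self]
    rfl
  · rw [Matrix.updateCol_ne hb, Matrix.updateCol_ne hb]
    rfl

end MM

section Usc

variable {σ β : Type*} [Fintype β]

/-- Upper semicontinuity of the dimension of solution spaces. -/
theorem solS_usc {E : Type*} (A : E → β → MvPolynomial σ ℂ) (v₀ : σ → ℂ) :
    ∃ Δ : MvPolynomial σ ℂ, eval v₀ Δ ≠ 0 ∧ ∀ v, eval v Δ ≠ 0 →
      Module.finrank ℂ (solS A v) ≤ Module.finrank ℂ (solS A v₀) := by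
  classical
  obtain ⟨R, hR⟩ : ∃ R, Module.finrank ℂ
    (Submodule.span ℂ ((fun i => rowEval v₀ (A i)) '' Set.univ)) = R := ⟨_, rfl⟩
  obtain ⟨g, -, hli⟩ := exists_li_image (Set.univ : Set E) (fun i => rowEval v₀ (A i)) hR
  have hsp : Submodule.span ℂ (Set.range fun l => rowEval v₀ (A (g l))) =
      Submodule.span ℂ ((fun i => rowEval v₀ (A i)) '' Set.univ) := by
    apply Submodule.eq_of_le_of_finrank_eq
    · rw [Submodule.span_le]
      rintro _ ⟨l, rfl⟩
      exact Submodule.subset_span ⟨g l, Set.mem_univ _, rfl⟩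
    · rw [finrank_span_eq_card hli, Fintype.card_fin, hR]
  have hsol₀ : ∀ k, k ∈ solS A v₀ ↔ ∀ l, rowEval v₀ (A (g l)) ⬝ᵥ k = 0 := by
    intro k
    constructor
    · intro h l; exact h (g l)
    · intro h i
      have h1 : rowEval v₀ (A i) ∈ Submodule.span ℂ (Set.range fun l => rowEval v₀ (A (g l))) := by
        rw [hsp]
        exact Submodule.subset_span ⟨i, Set.mem_univ _, rfl⟩
      obtain ⟨c, hc⟩ := (Submodule.mem_span_range_iff_exists_fun _).mp h1
      rw [← hc, sum_dotProduct]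
      refine Finset.sum_eq_zero (fun l _ => ?_)
      rw [smul_dotProduct, h l, smul_zero]
  have hdim₀ := finrank_sol_of_li _ hli (solS A v₀) hsol₀
  obtain ⟨T, hT⟩ := exists_minor _ hli
  refine ⟨(Matrix.of fun i l => A (g i) (T l)).det, by rw [eval_det]; exact hT, ?_⟩
  intro v hv
  have hliv : LinearIndependent ℂ (fun l => rowEval v (A (g l))) :=
    rowEval_li_of_det v (fun l => A (g l)) T hv
  have h1 := finrank_sol_of_li _ hliv (solS (fun l => A (g l)) v) (fun k => Iff.rfl)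
  have h2 : solS A v ≤ solS (fun l => A (g l)) v := fun x hx l => hx (g l)
  have h3 := Submodule.finrank_mono h2
  omega

/-- A locally constant function on a cone defined by few equations is constant. -/
theorem const_of_locally [Fintype σ] [DecidableEq σ] {κ : Type*} [Fintype κ]
    {y : κ → MvPolynomial σ ℂ} (hy : ∀ i, ∃ e, (y i).IsHomogeneous e) {α : Type*}
    (φ : (σ → ℂ) → α)
    (hloc : ∀ v₀, (∀ i, eval v₀ (y i) = 0) → v₀ ≠ 0 → ∃ Δ : MvPolynomial σ ℂ, eval v₀ Δ ≠ 0 ∧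
      ∀ v, (∀ i, eval v (y i) = 0) → v ≠ 0 → eval v Δ ≠ 0 → φ v = φ v₀)
    (hsc : ∀ v, (∀ i, eval v (y i) = 0) → v ≠ 0 → ∀ t : ℂ, t ≠ 0 → φ (t • v) = φ v)
    (hcard : 2 * Fintype.card κ < Fintype.card σ) {v₁ v₂ : σ → ℂ}
    (hv₁ : ∀ i, eval v₁ (y i) = 0) (hv₁0 : v₁ ≠ 0)
    (hv₂ : ∀ i, eval v₂ (y i) = 0) (hv₂0 : v₂ ≠ 0) : φ v₁ = φ v₂ := by
  by_contra hne
  have key : ∀ S : Set α, IsLocus {v | ∀ i, eval v (y i) = 0} 0
      {v | ((∀ i, eval v (y i) = 0) ∧ v ≠ 0) ∧ φ v ∈ S} := by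
    intro S
    refine ⟨?_, ?_, ?_, ?_⟩
    · rintro v ⟨⟨h1, h2⟩, -⟩
      exact ⟨h2, h1⟩
    · rintro v ⟨⟨h1, h2⟩, h3⟩ t ht
      refine ⟨⟨fun i => ?_, smul_ne_zero ht h2⟩, ?_⟩
      · obtain ⟨e, he⟩ := hy i
        rw [eval_smul_of_isHomogeneous he, h1 i, mul_zero]
      · rw [hsc v h1 h2 t ht]; exact h3
    · rintro v₀ ⟨⟨h1, h2⟩, h3⟩
      obtain ⟨Δ, hΔ, hc⟩ := hloc v₀ h1 h2
      refine ⟨Δ, fun j => j.elim0, hΔ, fun j => j.elim0, ?_⟩
      intro v hv hv0 hvΔ _
      exact ⟨⟨hv, hv0⟩, by rw [hc v hv hv0 hvΔ]; exact h3⟩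
    · intro v hv hv0 hvS
      obtain ⟨Δ, hΔ, hc⟩ := hloc v hv hv0
      refine ⟨Δ, hΔ, ?_⟩
      rintro v' ⟨⟨h1, h2⟩, h3⟩
      by_contra h4
      rw [hc v' h1 h2 h4] at h3
      exact hvS ⟨⟨hv, hv0⟩, h3⟩
  obtain ⟨v, h1, h2⟩ := (key {φ v₁}).meet hy (key {a | a ≠ φ v₁}) (by omega)
    ⟨v₁, ⟨hv₁, hv₁0⟩, rfl⟩ ⟨v₂, ⟨hv₂, hv₂0⟩, fun h => hne h.symm⟩
  exact h2.2 h1.2

end Usc

section ArrInj

variable {τ : Type*} [Fintype τ]


lemma coeff_arr (n : ℕ) (q : Fin n × τ → ℂ) (b : τ) (j : Fin n) :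
    coeff (Finsupp.single 0 (n - 1 - (j : ℕ)) + Finsupp.single 1 (j : ℕ)) (arr n q b) =
      q (j, b) := by
  rw [arr_apply, coeff_sum, Finset.sum_eq_single j]
  · rw [coeff_C_mul, X_pow_eq_monomial, X_pow_eq_monomial, monomial_mul, coeff_monomial,
      if_pos rfl, mul_one, mul_one]
  · intro i _ hij
    rw [coeff_C_mul, X_pow_eq_monomial, X_pow_eq_monomial, monomial_mul, coeff_monomial, if_neg,
      mul_zero]
    intro h
    have h1 := DFunLike.congr_fun h 1
    simp only [Finsupp.add_apply, Finsupp.single_apply, Fin.isValue, zero_ne_one, if_false,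
      zero_add, if_true] at h1
    exact hij (Fin.ext h1)
  · intro h
    exact absurd (Finset.mem_univ _) h


lemma arr_injective (n : ℕ) {q q' : Fin n × τ → ℂ} (h : arr n q = arr n q') : q = q' := by
  funext p
  obtain ⟨j, b⟩ := p
  rw [← coeff_arr n q b j, h, coeff_arr]

end ArrInj

end Pool.Agent.Hartshorne
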