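import Mathlib
import Pool.Agent.Hartshorne.Grad
import Pool.Agent.Hartshorne.Pencil
import Pool.Agent.Hartshorne.Semi

/-!
The family of section spaces of the gradient bundles along the lines of a pencil.
-/

namespace Pool.Agent.Hartshorne

open MvPolynomial

set_option linter.unusedSectionVars false

section Fam

variable {ρ : Type*} [Fintype ρ] [DecidableEq ρ] {c d n' : ℕ} (I : Ideal (MvPolynomial ρ ℂ))
  (x : ρ → ℂ) (u : Fin n' → (ρ → ℂ))

/-- The line of the pencil. -/
noncomputable def pl (v : Fin n' → ℂ) : Fin 2 → (ρ → ℂ) := ln x (comb u v)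

lemma comb_pl (v : Fin n' → ℂ) (z : Fin 2 → ℂ) :
    comb (pl x u v) z = z 0 • x + z 1 • comb u v := comb_ln _ _ _

/-- The gradient bundle along a line of the pencil. -/
noncomputable def El (v : Fin n' → ℂ) : (Fin 2 → ℂ) → Submodule ℂ (ρ → ℂ) :=
  fun z => gradSpan I (comb (pl x u v) z)

/-- The line consists of good points. -/
def GoodLine (c d : ℕ) (v : Fin n' → ℂ) : Prop := ∀ z ≠ 0, GoodPt I c d (comb (pl x u v) z)

lemma isBundle_El {v : Fin n' → ℂ} (hv : GoodLine I x u c d v) :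
    IsBundle c (gMod I d (pl x u v)) (El I x u v) := isBundle_g (pl x u v) hv

/-- The equations of the section spaces. -/
noncomputable def famA (c d n : ℕ) :
    (Fin c → {h : MvPolynomial ρ ℂ // h ∈ I ∧ h.IsHomogeneous d}) × (Fin c → ρ) ×
      {z : Fin 2 → ℂ // z ≠ 0} × ρ → (Fin n × ρ → MvPolynomial (Fin n') ℂ) :=
  fun e p => C ((e.2.2.1 : Fin 2 → ℂ) 0 ^ (n - 1 - (p.1 : ℕ)) *
      (e.2.2.1 : Fin 2 → ℂ) 1 ^ (p.1 : ℕ)) *
    minorMap (fun i b => aff ((e.2.2.1 : Fin 2 → ℂ) 0 • x) ((e.2.2.1 : Fin 2 → ℂ) 1 • u)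
      (pderiv b (e.1 i : MvPolynomial ρ ℂ))) e.2.1 (Pi.single p.2 1) e.2.2.2

lemma famA_dot (n : ℕ) (w : Fin c → {h : MvPolynomial ρ ℂ // h ∈ I ∧ h.IsHomogeneous d})
    (T : Fin c → ρ) (z : {z : Fin 2 → ℂ // z ≠ 0}) (b : ρ) (v : Fin n' → ℂ)
    (q : Fin n × ρ → ℂ) :
    rowEval v (famA I x u c d n (w, T, z, b)) ⬝ᵥ q =
      mm (fun i => grad (comb (pl x u v) z) (w i : MvPolynomial ρ ℂ)) T
        (rowEval (z : Fin 2 → ℂ) (arr n q)) b := by
  have h1 : ∀ p : Fin n × ρ, rowEval v (famA I x u c d n (w, T, z, b)) p =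
      ((z : Fin 2 → ℂ) 0 ^ (n - 1 - (p.1 : ℕ)) * (z : Fin 2 → ℂ) 1 ^ (p.1 : ℕ)) *
      mm (fun i => grad (comb (pl x u v) z) (w i : MvPolynomial ρ ℂ)) T (Pi.single p.2 1) b := by
    intro p
    rw [rowEval_apply, famA, map_mul, eval_C]
    congr 1
    rw [← rowEval_apply, rowEval_minorMap]
    have h2 : (fun i => rowEval v fun b => aff ((z : Fin 2 → ℂ) 0 • x) ((z : Fin 2 → ℂ) 1 • u)
        (pderiv b (w i : MvPolynomial ρ ℂ))) =
        fun i => grad (comb (pl x u v) z) (w i : MvPolynomial ρ ℂ) := by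
      funext i b'
      rw [rowEval_apply, eval_aff, grad_apply, comb_pl]
      congr 2
      rw [comb_apply, comb_apply, Finset.smul_sum]
      congr 1
      refine Finset.sum_congr rfl (fun i _ => ?_)
      rw [Pi.smul_apply, smul_comm]
    have h3 : rowEval v (Pi.single p.2 1 : ρ → MvPolynomial (Fin n') ℂ) = Pi.single p.2 1 := by
      funext b'
      rw [rowEval_apply]
      by_cases hb : b' = p.2
      · subst hb; simp
      · simp [hb]
    rw [h2, h3]
  have h4 : rowEval (z : Fin 2 → ℂ) (arr n q) = ∑ p : Fin n × ρ,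
      (((z : Fin 2 → ℂ) 0 ^ (n - 1 - (p.1 : ℕ)) * (z : Fin 2 → ℂ) 1 ^ (p.1 : ℕ)) * q p) •
        (Pi.single p.2 1 : ρ → ℂ) := by
    rw [rowEval_arr]
    funext b'
    rw [Finset.sum_apply, Fintype.sum_prod_type]
    refine Finset.sum_congr rfl (fun j _ => ?_)
    rw [Finset.sum_eq_single b']
    · simp
    · intro b'' _ hb
      simp [Pi.single_apply, hb.symm]
    · intro h
      exact absurd (Finset.mem_univ _) h
  rw [h4, map_sum, Finset.sum_apply, dotProduct]
  refine Finset.sum_congr rfl (fun p _ => ?_)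
  rw [h1, map_smul, Pi.smul_apply, smul_eq_mul]
  ring

/-- The section spaces are solution spaces. -/
theorem solS_famA (n : ℕ) {v : Fin n' → ℂ} (hv : GoodLine I x u c d v) :
    solS (famA I x u c d n) v = KM (El I x u v) n := by
  ext q
  rw [mem_solS, mem_KM]
  constructor
  · intro h z hz
    obtain ⟨⟨w, hw, hli⟩, -⟩ := hv z hz
    obtain ⟨T, hT⟩ := exists_minor _ hli
    have h1 : mm (fun i => grad (comb (pl x u v) z) (w i)) T (rowEval z (arr n q)) = 0 := by
      funext b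
      have h2 := famA_dot I x u n (fun i => ⟨w i, hw i⟩) T ⟨z, hz⟩ b v q
      rw [h] at h2
      exact h2.symm
    have h3 := mem_of_mm hT h1
    refine (Submodule.span_le.mpr ?_) h3
    rintro _ ⟨i, rfl⟩
    exact grad_mem_gradSpan (hw i).1 _
  · rintro h ⟨w, T, z, b⟩
    rw [famA_dot]
    rw [mm_of_mem (hv z z.2).2 _ (fun i => grad_mem_gradSpan (w i).2.1 _) T (h z z.2)]
    rfl

/-- Scaling of the parameter of a line. -/
lemma El_smul (v : Fin n' → ℂ) (t : ℂ) (z : Fin 2 → ℂ) :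
    El I x u (t • v) z = El I x u v ![z 0, t * z 1] := by
  rw [El, El, comb_pl, comb_pl]
  congr 2
  rw [map_smul, smul_smul]
  simp [mul_comm]

lemma GoodLine.smul {v : Fin n' → ℂ} (hv : GoodLine I x u c d v) {t : ℂ} (ht : t ≠ 0) :
    GoodLine I x u c d (t • v) := by
  intro z hz
  have h1 : (![z 0, t * z 1] : Fin 2 → ℂ) ≠ 0 := by
    intro h
    apply hz
    have h2 := congrFun h 0
    have h3 := congrFun h 1
    simp only [Matrix.cons_val_zero, Matrix.cons_val_one, Pi.zero_apply] at h2 h3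
    funext i
    rcases fin2_cases i with rfl | rfl
    · exact h2
    · exact (mul_eq_zero.mp h3).resolve_left ht
  have h2 := hv _ h1
  rw [comb_pl] at h2
  rw [comb_pl, map_smul, smul_smul, mul_comm]
  simpa using h2

lemma KM_smul (n : ℕ) {v : Fin n' → ℂ} {t : ℂ} (ht : t ≠ 0) {q : Fin n × ρ → ℂ}
    (hq : q ∈ KM (El I x u v) n) :
    (fun p : Fin n × ρ => t ^ (p.1 : ℕ) * q p) ∈ KM (El I x u (t • v)) n := by
  rw [mem_KM]
  intro z hz
  have h1 : (![z 0, t * z 1] : Fin 2 → ℂ) ≠ 0 := by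
    intro h
    apply hz
    have h2 := congrFun h 0
    have h3 := congrFun h 1
    simp only [Matrix.cons_val_zero, Matrix.cons_val_one, Pi.zero_apply] at h2 h3
    funext i
    rcases fin2_cases i with rfl | rfl
    · exact h2
    · exact (mul_eq_zero.mp h3).resolve_left ht
  have h2 := mem_KM.mp hq _ h1
  rw [El_smul]
  convert h2 using 1
  rw [rowEval_arr, rowEval_arr]
  funext b
  refine Finset.sum_congr rfl (fun j _ => ?_)
  simp only [Matrix.cons_val_zero, Matrix.cons_val_one, mul_pow]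
  ring

/-- Monomial multiples of gradients along the lines of the pencil. -/
noncomputable def mq (n b : ℕ) (h : MvPolynomial ρ ℂ) : Fin n × ρ → MvPolynomial (Fin n') ℂ :=
  fun p => if b ≤ (p.1 : ℕ) then cf x u ((p.1 : ℕ) - b) (pderiv p.2 h) else 0

lemma arr_mq {h : MvPolynomial ρ ℂ} (hh : h.IsHomogeneous d) (hd : 0 < d) (a b : ℕ) {n : ℕ}
    (hn : n = a + b + d) (v : Fin n' → ℂ) :
    arr n (rowEval v (mq x u n b h)) =
      (X 0 ^ a * X 1 ^ b : MvPolynomial (Fin 2) ℂ) • gRow (pl x u v) h := by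
  funext b'
  apply MvPolynomial.funext
  intro z
  have h1 : eval z (arr n (rowEval v (mq x u n b h)) b') =
      ∑ j : Fin n, z 0 ^ (n - 1 - (j : ℕ)) * z 1 ^ (j : ℕ) *
        (if b ≤ (j : ℕ) then eval v (cf x u ((j : ℕ) - b) (pderiv b' h)) else 0) := by
    have h2 := congrFun (rowEval_arr n (rowEval v (mq x u n b h)) z) b'
    rw [rowEval_apply] at h2
    rw [h2]
    refine Finset.sum_congr rfl (fun j _ => ?_)
    rw [rowEval_apply, mq]
    split_ifs
    · rfl
    · rw [map_zero]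
  rw [h1, Pi.smul_apply, smul_eq_mul, map_mul, map_mul, map_pow, map_pow, eval_X, eval_X, gRow,
    eval_lsub]
  have h3 : (pderiv b' h).IsHomogeneous (d - 1) := hh.pderiv
  rw [pl, eval_line x u h3, Nat.sub_add_cancel hd]
  have h4 : ∀ i, d ≤ i → eval v (cf x u i (pderiv b' h)) = 0 := by
    intro i hi
    have h5 := totalDegree_aff_le x u (pderiv b' h)
    have h6 := h3.totalDegree_le
    rw [cf, homogeneousComponent_eq_zero _ _ (by omega), map_zero]
  rw [← Finset.sum_range (fun j => z 0 ^ (n - 1 - j) * z 1 ^ j *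
    (if b ≤ j then eval v (cf x u (j - b) (pderiv b' h)) else 0))]
  rw [show n = b + (d + a) by omega, Finset.sum_range_add, Finset.sum_range_add]
  rw [Finset.sum_eq_zero (s := Finset.range b), zero_add]
  · rw [Finset.sum_eq_zero (s := Finset.range a), add_zero, Finset.mul_sum]
    · refine Finset.sum_congr rfl (fun i hi => ?_)
      rw [Finset.mem_range] at hi
      rw [if_pos (Nat.le_add_right _ _), Nat.add_sub_cancel_left,
        show b + (d + a) - 1 - (b + i) = a + (d - 1 - i) by omega, pow_add, pow_add]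
      ring
    · intro i _
      rw [if_pos (Nat.le_add_right _ _), Nat.add_sub_cancel_left, h4 _ (Nat.le_add_right _ _),
        mul_zero]
  · intro i hi
    rw [Finset.mem_range] at hi
    rw [if_neg (by omega), mul_zero]

/-- The linear map `arr`. -/
noncomputable def arrL (τ : Type*) [Fintype τ] (n : ℕ) :
    (Fin n × τ → ℂ) →ₗ[ℂ] (τ → MvPolynomial (Fin 2) ℂ) where
  toFun := arr n
  map_add' := arr_add n
  map_smul' := by
    intro t q
    rw [arr_smul]
    funext b
    rw [Pi.smul_apply, smul_eq_mul, RingHom.id_apply, Pi.smul_apply, smul_eq_C_mul]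

lemma arrL_apply {τ : Type*} [Fintype τ] (n : ℕ) (q : Fin n × τ → ℂ) : arrL τ n q = arr n q := rfl

lemma mq_mem_KM {h : MvPolynomial ρ ℂ} (hI : h ∈ I) (hh : h.IsHomogeneous d) (hd : 0 < d)
    {n b : ℕ} (hn : b + d ≤ n) {v : Fin n' → ℂ} (hv : GoodLine I x u c d v) :
    rowEval v (mq x u n b h) ∈ KM (El I x u v) n := by
  rw [mem_KM, arr_mq x u hh hd (n - b - d) b (by omega) v]
  exact ((isBundle_El I x u hv).inE (gRow_mem_gMod _ hI hh)).smul _

end Fam

end Pool.Agent.Hartshorne
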