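import Mathlib
import Pool.Agent.Hartshorne.Fam

/-!
Lower semicontinuity of the spaces of sections of large degree, and constancy of degrees.
-/

namespace Pool.Agent.Hartshorne

open MvPolynomial

set_option linter.unusedSectionVars false

section Lsc

variable {ρ : Type*} [Fintype ρ] [DecidableEq ρ] {c d n' : ℕ} (I : Ideal (MvPolynomial ρ ℂ))
  (x : ρ → ℂ) (u : Fin n' → (ρ → ℂ))

/-- In large degrees all sections come from gradients. -/
theorem KM_le_span (hd : 0 < d) {v₀ : Fin n' → ℂ} (hv₀ : GoodLine I x u c d v₀) :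
    ∃ N, ∀ n, N ≤ n → KM (El I x u v₀) n ≤ Submodule.span ℂ
      ((fun e : ℕ × MvPolynomial ρ ℂ => rowEval v₀ (mq x u n e.1 e.2)) ''
        {e | e.1 + d ≤ n ∧ e.2 ∈ I ∧ e.2.IsHomogeneous d}) := by
  have hb := isBundle_El I x u hv₀
  obtain ⟨ψ, f, hψ⟩ := line_split hb
  -- a uniform exponent
  have hK : ∃ K, ∀ k, (X 0 : MvPolynomial (Fin 2) ℂ) ^ K • ψ k ∈ gMod I d (pl x u v₀) ∧
      (X 1 : MvPolynomial (Fin 2) ℂ) ^ K • ψ k ∈ gMod I d (pl x u v₀) := by
    have h1 : ∀ k, ∃ K, (X 0 : MvPolynomial (Fin 2) ℂ) ^ K • ψ k ∈ gMod I d (pl x u v₀) :=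
      fun k => hb.exists_pow (by simp) (hψ.2.1 k)
    have h2 : ∀ k, ∃ K, (X 1 : MvPolynomial (Fin 2) ℂ) ^ K • ψ k ∈ gMod I d (pl x u v₀) :=
      fun k => hb.exists_pow (by simp) (hψ.2.1 k)
    choose K₁ hK₁ using h1
    choose K₂ hK₂ using h2
    refine ⟨∑ k, (K₁ k + K₂ k), fun k => ?_⟩
    have h3 : K₁ k + K₂ k ≤ ∑ k, (K₁ k + K₂ k) :=
      Finset.single_le_sum (f := fun k => K₁ k + K₂ k) (fun _ _ => Nat.zero_le _)
        (Finset.mem_univ k)
    constructor
    · obtain ⟨m, hm⟩ := Nat.exists_eq_add_of_le ((Nat.le_add_right _ _).trans h3)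
      rw [hm, pow_add, mul_comm, mul_smul]
      exact Submodule.smul_mem _ _ (hK₁ k)
    · obtain ⟨m, hm⟩ := Nat.exists_eq_add_of_le ((Nat.le_add_left _ _).trans h3)
      rw [hm, pow_add, mul_comm, mul_smul]
      exact Submodule.smul_mem _ _ (hK₂ k)
  obtain ⟨K, hK⟩ := hK
  refine ⟨1 + d + 2 * K + ∑ k, f k, fun n hn q hq => ?_⟩
  have hfk : ∀ k, f k ≤ ∑ k, f k := fun k =>
    Finset.single_le_sum (f := f) (fun _ _ => Nat.zero_le _) (Finset.mem_univ k)
  -- the section is generated by gradients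
  have hmem : arr n q ∈ gMod I d (pl x u v₀) := by
    have h1 := hψ.2.2.2 (n - 1) _ (homRow_arr n q) hq
    obtain ⟨a, ha, -, hsum⟩ := exists_homog_coeffs (homRow_arr n q) ψ f hψ.1 h1
    rw [← hsum]
    refine Submodule.sum_mem _ (fun k _ => ?_)
    rw [binary_form (ha k), Finset.sum_smul]
    refine Submodule.sum_mem _ (fun j _ => ?_)
    rw [mul_smul]
    refine Submodule.smul_mem _ _ ?_
    have h2 := hfk k
    have h3 := j.2
    rcases Nat.lt_or_ge (j : ℕ) K with hj | hj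
    · obtain ⟨m, hm⟩ := Nat.exists_eq_add_of_le
        (show K ≤ n - 1 - f k + 1 - 1 - (j : ℕ) by omega)
      rw [hm, pow_add, mul_comm, mul_comm (X 0 ^ K), ← mul_assoc, mul_smul]
      exact Submodule.smul_mem _ _ (hK k).1
    · obtain ⟨m, hm⟩ := Nat.exists_eq_add_of_le hj
      rw [hm, pow_add, mul_comm (X 1 ^ K), ← mul_assoc, mul_smul]
      exact Submodule.smul_mem _ _ (hK k).2
  obtain ⟨s, b, g, hbg⟩ := Submodule.mem_span_set'.mp hmem
  have hg : ∀ i, ∃ h ∈ I, h.IsHomogeneous d ∧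
      ((g i : ρ → MvPolynomial (Fin 2) ℂ)) = gRow (pl x u v₀) h := fun i => (g i).2
  choose h hhI hhd hhg using hg
  have hmem2 : arr n q ∈ Submodule.span (MvPolynomial (Fin 2) ℂ)
      (Set.range fun i => gRow (pl x u v₀) (h i)) := by
    rw [← hbg]
    refine Submodule.sum_mem _ (fun i _ => Submodule.smul_mem _ _ ?_)
    rw [hhg i]
    exact Submodule.subset_span ⟨i, rfl⟩
  obtain ⟨a, ha, -, hsum⟩ := exists_homog_coeffs (homRow_arr n q)
    (fun i => gRow (pl x u v₀) (h i)) (fun _ => d - 1) (fun i => homRow_gRow _ (hhd i)) hmem2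
  have hq' : q = ∑ i, ∑ j : Fin (n - 1 - (d - 1) + 1),
      coeff (Finsupp.single 0 (n - 1 - (d - 1) - (j : ℕ)) + Finsupp.single 1 (j : ℕ)) (a i) •
        rowEval v₀ (mq x u n j (h i)) := by
    apply arr_injective n
    rw [← hsum, ← arrL_apply, map_sum]
    refine Finset.sum_congr rfl (fun i _ => ?_)
    rw [map_sum]
    conv_lhs => rw [binary_form (ha i), Finset.sum_smul]
    refine Finset.sum_congr rfl (fun j _ => ?_)
    have hj := j.2
    rw [map_smul, arrL_apply, arr_mq x u (hhd i) hd (n - 1 - (d - 1) - (j : ℕ)) j (by omega) v₀,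
      mul_smul, Nat.add_sub_cancel]
    funext b'
    simp only [Pi.smul_apply, smul_eq_mul]
    rw [smul_eq_C_mul]
  rw [hq']
  refine Submodule.sum_mem _ (fun i _ => Submodule.sum_mem _ (fun j _ =>
    Submodule.smul_mem _ _ (Submodule.subset_span ?_)))
  have hj := j.2
  exact ⟨((j : ℕ), h i), ⟨by show (j : ℕ) + d ≤ n; omega, hhI i, hhd i⟩, rfl⟩

/-- Lower semicontinuity of the spaces of sections of large degree. -/
theorem KM_lsc (hd : 0 < d) {v₀ : Fin n' → ℂ} (hv₀ : GoodLine I x u c d v₀) :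
    ∃ N, ∀ n, N ≤ n → ∃ Δ : MvPolynomial (Fin n') ℂ, eval v₀ Δ ≠ 0 ∧
      ∀ v, GoodLine I x u c d v → eval v Δ ≠ 0 →
        Module.finrank ℂ (KM (El I x u v₀) n) ≤ Module.finrank ℂ (KM (El I x u v) n) := by
  classical
  obtain ⟨N, hN⟩ := KM_le_span I x u hd hv₀
  refine ⟨N, fun n hn => ?_⟩
  obtain ⟨g, hg⟩ : ∃ g, Module.finrank ℂ (KM (El I x u v₀) n) = g := ⟨_, rfl⟩
  have hle : g ≤ Module.finrank ℂ (Submodule.span ℂ
      ((fun e : ℕ × MvPolynomial ρ ℂ => rowEval v₀ (mq x u n e.1 e.2)) ''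
        {e | e.1 + d ≤ n ∧ e.2 ∈ I ∧ e.2.IsHomogeneous d})) := by
    rw [← hg]
    exact Submodule.finrank_mono (hN n hn)
  obtain ⟨e, he, hli⟩ := exists_li_of_le _ _ hle
  obtain ⟨T, hT⟩ := exists_minor _ hli
  refine ⟨(Matrix.of fun i l => mq x u n (e i).1 (e i).2 (T l)).det, ?_, ?_⟩
  · rw [eval_det]; exact hT
  · intro v hv hΔ
    have hliv : LinearIndependent ℂ (fun i => rowEval v (mq x u n (e i).1 (e i).2)) :=
      rowEval_li_of_det v (fun i => mq x u n (e i).1 (e i).2) T hΔ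
    have h2 := finrank_span_eq_card hliv
    rw [Fintype.card_fin] at h2
    rw [hg, ← h2]
    apply Submodule.finrank_mono
    rw [Submodule.span_le]
    rintro _ ⟨i, rfl⟩
    exact mq_mem_KM I x u (he i).2.1 (he i).2.2 hd (he i).1 hv

end Lsc

end Pool.Agent.Hartshorne
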