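import Mathlib
import Pool.Agent.Hartshorne.Lsc

/-!
Constancy of the filtration of the gradient space at the vertex of a pencil of lines.
-/

namespace Pool.Agent.Hartshorne

open MvPolynomial

set_option linter.unusedSectionVars false

section General

lemma finrank_le_of_map {V W : Type*} [AddCommGroup V] [Module ℂ V] [AddCommGroup W] [Module ℂ W]
    [Module.Finite ℂ W] (f : V →ₗ[ℂ] W) {p : Submodule ℂ V} {q : Submodule ℂ W}
    (hpq : ∀ x ∈ p, f x ∈ q) (hinj : ∀ x ∈ p, f x = 0 → x = 0) :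
    Module.finrank ℂ p ≤ Module.finrank ℂ q := by
  apply LinearMap.finrank_le_finrank_of_injective (f := f.restrict hpq)
  rw [← LinearMap.ker_eq_bot, LinearMap.ker_eq_bot']
  intro y hy
  have h1 : f y = 0 := congrArg Subtype.val hy
  exact Subtype.ext (hinj y y.2 h1)

variable {τ : Type*} [Fintype τ] {c : ℕ}
variable {Γ : Submodule (MvPolynomial (Fin 2) ℂ) (τ → MvPolynomial (Fin 2) ℂ)}
  {E : (Fin 2 → ℂ) → Submodule ℂ (τ → ℂ)}

theorem finrank_KM (hb : IsBundle c Γ E) (T : Fin c → τ)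
    (hT : ∀ w ∈ E (pt 0), (∀ l, w (T l) = 0) → w = 0) (n : ℕ) :
    Module.finrank ℂ (KM E n) = ∑ j ∈ Finset.range n, Module.finrank ℂ (Wsp E j) := by
  rw [← Finset.sum_range_reflect, ← finrank_Hm T hb hT n le_rfl]
  apply le_antisymm
  · apply finrank_le_of_map (LinearMap.funLeft ℂ ℂ
      (fun p : Fin n × Fin c => (Fin.castLE (le_refl n) p.1, T p.2)))
    · intro q hq
      exact ⟨q, hq, rfl⟩
    · intro q hq h0
      funext p
      obtain ⟨j, b⟩ := p
      exact KM_vanish T hb hT (le_refl n) hq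
        (fun j l _ => congrFun h0 (j, l)) j b j.2
  · exact Submodule.finrank_map_le _ _

end General

section Const

variable {ρ : Type*} [Fintype ρ] [DecidableEq ρ] {c d D n' : ℕ} (I : Ideal (MvPolynomial ρ ℂ))
  (x : ρ → ℂ) (u : Fin n' → (ρ → ℂ))

lemma El_pt_zero (v : Fin n' → ℂ) : El I x u v (pt 0) = gradSpan I x := by
  rw [El, comb_pl]
  simp [pt]

/-- The equations of the cone of lines. -/
noncomputable def yEq (F : Fin c → MvPolynomial ρ ℂ) (d : ℕ) :
    Fin c × Fin d → MvPolynomial (Fin n') ℂ := fun p => cf x u ((p.2 : ℕ) + 1) (F p.1)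

lemma yEq_hom (F : Fin c → MvPolynomial ρ ℂ) (p : Fin c × Fin d) :
    ∃ e, (yEq x u F d p).IsHomogeneous e := ⟨_, cf_isHomogeneous x u _ _⟩

/-- A vertex with a frame. -/
structure Vertex (c d : ℕ) (F : Fin c → MvPolynomial ρ ℂ) : Prop where
  hd : 0 < d
  hF : ∀ i, F i ∈ I ∧ (F i).IsHomogeneous d
  hli : LinearIndependent ℂ (fun i => grad x (F i))
  fr : Module.finrank ℂ (gradSpan I x) = c

/-- Data of a pencil. -/
structure Pencil (c d D : ℕ) (F : Fin c → MvPolynomial ρ ℂ) {κ : Type*}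
    (y : κ → MvPolynomial (Fin n') ℂ) : Prop where
  vertex : Vertex I x c d F
  hD : 0 < D
  hy : ∀ p, ∃ e, (y p).IsHomogeneous e
  good : ∀ v, v ≠ 0 → (∀ p, eval v (y p) = 0) → GoodLine I x u c D v

variable {I x u} {F : Fin c → MvPolynomial ρ ℂ} {κ : Type*} {y : κ → MvPolynomial (Fin n') ℂ}

lemma Vertex.span_eq (hP : Vertex I x c d F) :
    Submodule.span ℂ (Set.range fun i => grad x (F i)) = gradSpan I x :=
  span_eq_of_li hP.fr _ hP.hli (fun i => grad_mem_gradSpan (hP.hF i).1 x)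

/-- Suitable coordinates at the vertex. -/
lemma Vertex.exists_T (hP : Vertex I x c d F) :
    ∃ T : Fin c → ρ, ∀ w ∈ gradSpan I x, (∀ l, w (T l) = 0) → w = 0 := by
  obtain ⟨T, hT⟩ := exists_minor _ hP.hli
  refine ⟨T, fun w hw h0 => ?_⟩
  rw [← hP.span_eq] at hw
  obtain ⟨a, ha⟩ := (Submodule.mem_span_range_iff_exists_fun _).mp hw
  have h1 : Matrix.vecMul a (Matrix.of fun i l => grad x (F i) (T l)) = 0 := by
    funext l
    have h2 := h0 l
    rw [← ha, Finset.sum_apply] at h2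
    exact h2
  have h3 := Matrix.eq_zero_of_vecMul_eq_zero hT h1
  rw [← ha, h3]
  simp

lemma Vertex.Wsp_top (hP : Vertex I x c d F) (u : Fin n' → (ρ → ℂ)) (v : Fin n' → ℂ)
    {e : ℕ} (he : d - 1 ≤ e) : Wsp (El I x u v) e = gradSpan I x := by
  apply le_antisymm
  · rw [← El_pt_zero I x u v]
    exact Wsp_le _ _
  · rw [← hP.span_eq, Submodule.span_le]
    rintro _ ⟨i, rfl⟩
    refine ⟨(X 0 ^ (e - (d - 1)) : MvPolynomial (Fin 2) ℂ) • gRow (pl x u v) (F i), ?_, ?_, ?_⟩
    · have h1 := HomRow.smul ((isHomogeneous_X ℂ (0 : Fin 2)).pow (e - (d - 1)))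
        (homRow_gRow (pl x u v) (hP.hF i).2)
      rw [one_mul, Nat.sub_add_cancel he] at h1
      exact h1
    · have h2 : InE (El I x u v) (gRow (pl x u v) (F i)) := by
        intro z _
        rw [rowEval_gRow]
        exact grad_mem_gradSpan (hP.hF i).1 _
      exact h2.smul _
    · rw [rowEval_smul, rowEval_gRow, comb_pl]
      simp [pt]

lemma Vertex.finrank_KM_add (hP : Vertex I x c d F) {v : Fin n' → ℂ}
    (hv : GoodLine I x u c D v) (m : ℕ) :
    Module.finrank ℂ (KM (El I x u v) (d - 1 + m)) =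
      Module.finrank ℂ (KM (El I x u v) (d - 1)) + m * c := by
  obtain ⟨T, hT⟩ := hP.exists_T
  have hT' : ∀ w ∈ El I x u v (pt 0), (∀ l, w (T l) = 0) → w = 0 := by
    rw [El_pt_zero]; exact hT
  rw [finrank_KM (isBundle_El I x u hv) T hT', finrank_KM (isBundle_El I x u hv) T hT',
    Finset.sum_range_add]
  congr 1
  rw [Finset.sum_congr rfl (fun j _ => by
    rw [hP.Wsp_top u v (Nat.le_add_right (d - 1) j), hP.fr])]
  simp

/-- Scaling as a linear map. -/
noncomputable def scaleL (n : ℕ) (τ : Type*) (t : ℂ) : (Fin n × τ → ℂ) →ₗ[ℂ] (Fin n × τ → ℂ) where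
  toFun := fun q p => t ^ (p.1 : ℕ) * q p
  map_add' := by
    intro q q'; funext p
    simp [mul_add]
  map_smul' := by
    intro s q; funext p
    simp only [Pi.smul_apply, smul_eq_mul, RingHom.id_apply]
    ring

lemma finrank_KM_smul_le (n : ℕ) {v : Fin n' → ℂ} {t : ℂ} (ht : t ≠ 0) :
    Module.finrank ℂ (KM (El I x u v) n) ≤ Module.finrank ℂ (KM (El I x u (t • v)) n) := by
  apply finrank_le_of_map (scaleL n ρ t)
  · intro q hq
    exact KM_smul I x u n ht hq
  · intro q _ h0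
    funext p
    have h1 := congrFun h0 p
    exact (mul_eq_zero.mp h1).resolve_left (pow_ne_zero _ ht)

/-- The dimension of the section spaces is constant. -/
theorem Pencil.finrank_KM_const [Fintype κ] (hP : Pencil I x u c d D F y)
    (hcard : 2 * Fintype.card κ < n')
    {v₁ v₂ : Fin n' → ℂ} (hv₁ : ∀ p, eval v₁ (y p) = 0) (hv₁0 : v₁ ≠ 0)
    (hv₂ : ∀ p, eval v₂ (y p) = 0) (hv₂0 : v₂ ≠ 0) :
    Module.finrank ℂ (KM (El I x u v₁) (d - 1)) =
      Module.finrank ℂ (KM (El I x u v₂) (d - 1)) := by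
  refine const_of_locally hP.hy (fun v => Module.finrank ℂ (KM (El I x u v) (d - 1)))
    ?_ ?_ (by simpa using hcard) hv₁ hv₁0 hv₂ hv₂0
  · intro v₀ hv₀ hv₀0
    have hg₀ := hP.good v₀ hv₀0 hv₀
    obtain ⟨N, hN⟩ := KM_lsc I x u hP.hD hg₀
    obtain ⟨Δ₁, hΔ₁, h₁⟩ := hN (d - 1 + N) (Nat.le_add_left _ _)
    obtain ⟨Δ₂, hΔ₂, h₂⟩ := solS_usc (famA I x u c D (d - 1 + N)) v₀
    refine ⟨Δ₁ * Δ₂, by rw [map_mul]; exact mul_ne_zero hΔ₁ hΔ₂, ?_⟩
    intro v hv hv0 hΔ
    rw [map_mul] at hΔ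
    have hg := hP.good v hv0 hv
    have h3 := h₁ v hg (left_ne_zero_of_mul hΔ)
    have h4 := h₂ v (right_ne_zero_of_mul hΔ)
    rw [solS_famA I x u _ hg, solS_famA I x u _ hg₀] at h4
    have h5 := hP.vertex.finrank_KM_add hg N
    have h6 := hP.vertex.finrank_KM_add hg₀ N
    show Module.finrank ℂ (KM (El I x u v) (d - 1)) = Module.finrank ℂ (KM (El I x u v₀) (d - 1))
    omega
  · intro v hv hv0 t ht
    apply le_antisymm
    · have h1 := finrank_KM_smul_le (I := I) (x := x) (u := u) (d - 1) (v := t • v)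
        (inv_ne_zero ht)
      rwa [smul_smul, inv_mul_cancel₀ ht, one_smul] at h1
    · exact finrank_KM_smul_le (d - 1) ht

/-- The filtration of the gradient space at the vertex is constant. -/
theorem Pencil.Wsp_const [Fintype κ] (hP : Pencil I x u c d D F y)
    (hcard : 2 * Fintype.card κ + c * (d - 1) < n')
    {v₁ v₂ : Fin n' → ℂ} (hv₁ : ∀ p, eval v₁ (y p) = 0) (hv₁0 : v₁ ≠ 0)
    (hv₂ : ∀ p, eval v₂ (y p) = 0) (hv₂0 : v₂ ≠ 0) (e : ℕ) :
    Wsp (El I x u v₁) e = Wsp (El I x u v₂) e := by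
  obtain ⟨T, hT⟩ := hP.vertex.exists_T
  have hT' : ∀ v, ∀ w ∈ El I x u v (pt 0), (∀ l, w (T l) = 0) → w = 0 := by
    intro v
    rw [El_pt_zero]; exact hT
  induction e using Nat.strong_induction_on generalizing v₁ v₂ with
  | _ e ih =>
  rcases Nat.lt_or_ge e (d - 1) with hlt | hge
  swap
  · rw [hP.vertex.Wsp_top u v₁ hge, hP.vertex.Wsp_top u v₂ hge]
  have key : ∀ {v₁ v₂ : Fin n' → ℂ} (hv₁ : ∀ p, eval v₁ (y p) = 0) (hv₁0 : v₁ ≠ 0)
      (hv₂ : ∀ p, eval v₂ (y p) = 0) (hv₂0 : v₂ ≠ 0),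
      Wsp (El I x u v₁) e ≤ Wsp (El I x u v₂) e := by
    intro v₁ v₂ hv₁ hv₁0 hv₂ hv₂0 w hw
    have hb₁ := isBundle_El I x u (hP.good _ hv₁0 hv₁)
    have hb₂ := isBundle_El I x u (hP.good _ hv₂0 hv₂)
    have hm : d - 1 - e ≤ d - 1 := Nat.sub_le _ _
    have hF : FrameProp {v | v ∈ {v | ∀ i, eval v (y i) = 0} ∧ v ≠ 0}
        (fun v => Hm (El I x u v) T (d - 1) (d - 1 - e) hm) := by
      have h1 := frame_of_eqs {v | v ∈ {v | ∀ i, eval v (y i) = 0} ∧ v ≠ 0}
        (famA I x u c D (d - 1)) (Module.finrank ℂ (KM (El I x u v₁) (d - 1))) (by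
          rintro v ⟨hv, hv0⟩
          rw [solS_famA I x u _ (hP.good v hv0 hv)]
          exact hP.finrank_KM_const (by omega) hv hv0 hv₁ hv₁0)
      have h2 := h1.comap_coord (fun p : Fin (d - 1 - e) × Fin c => (Fin.castLE hm p.1, T p.2))
      intro v₀ hv₀ h hh
      obtain ⟨Δ, k, hΔ, hk, hkS⟩ := h2 v₀ hv₀ h (by
        beta_reduce
        rw [solS_famA I x u _ (hP.good v₀ hv₀.2 hv₀.1)]
        exact hh)
      refine ⟨Δ, k, hΔ, hk, ?_⟩
      intro v hv hvΔ
      have h3 := hkS v hv hvΔ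
      beta_reduce at h3
      rw [solS_famA I x u _ (hP.good v hv.2 hv.1)] at h3
      exact h3
    have hsum : ∀ v, (∀ i, eval v (y i) = 0) → v ≠ 0 →
        Module.finrank ℂ (Hm (El I x u v) T (d - 1) (d - 1 - e) hm) +
          ∑ j ∈ Finset.range e, Module.finrank ℂ (Wsp (El I x u v) j) =
        Module.finrank ℂ (KM (El I x u v) (d - 1)) := by
      intro v hv hv0
      have hb := isBundle_El I x u (hP.good _ hv0 hv)
      rw [finrank_KM hb T (hT' v), finrank_Hm T hb (hT' v)]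
      have h1 : ∑ j ∈ Finset.range (d - 1), Module.finrank ℂ (Wsp (El I x u v) j) =
          ∑ j ∈ Finset.range (e + (d - 1 - e)), Module.finrank ℂ (Wsp (El I x u v) j) := by
        rw [show e + (d - 1 - e) = d - 1 by omega]
      rw [h1, Finset.sum_range_add, add_comm]
      congr 1
      rw [← Finset.sum_range_reflect]
      refine Finset.sum_congr rfl (fun j hj => ?_)
      rw [Finset.mem_range] at hj
      rw [show d - 1 - 1 - (d - 1 - e - 1 - j) = e + j by omega]
    have hg : ∀ v ∈ {v | v ∈ {v | ∀ i, eval v (y i) = 0} ∧ v ≠ 0},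
        Module.finrank ℂ (Hm (El I x u v) T (d - 1) (d - 1 - e) hm) =
        Module.finrank ℂ (Hm (El I x u v₁) T (d - 1) (d - 1 - e) hm) := by
      rintro v ⟨hv, hv0⟩
      have h1 := hsum v hv hv0
      have h2 := hsum v₁ hv₁ hv₁0
      have h3 := hP.finrank_KM_const (by omega) hv hv0 hv₁ hv₁0
      have h4 : ∑ j ∈ Finset.range e, Module.finrank ℂ (Wsp (El I x u v) j) =
          ∑ j ∈ Finset.range e, Module.finrank ℂ (Wsp (El I x u v₁) j) := by
        refine Finset.sum_congr rfl (fun j hj => ?_)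
        rw [ih j (Finset.mem_range.mp hj) hv hv0 hv₁ hv₁0]
      omega
    set α : Fin (d - 1 - e) × Fin c → ℂ := fun p =>
      if (p.1 : ℕ) = d - 1 - e - 1 then w (T p.2) else 0 with hα
    have hα₁ : α ∈ Hm (El I x u v₁) T (d - 1) (d - 1 - e) hm := by
      have h1 : d - 1 - e - 1 < d - 1 := by omega
      obtain ⟨q, hq, hq0, hqw⟩ := KM_of_Wsp (E := El I x u v₁) (n := d - 1)
        (m := d - 1 - e - 1) h1 (w := w)
        (by rw [show d - 1 - 1 - (d - 1 - e - 1) = e by omega]; exact hw)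
      refine ⟨q, hq, ?_⟩
      funext p
      obtain ⟨j, l⟩ := p
      show q (Fin.castLE hm j, T l) = α (j, l)
      rw [hα]
      simp only
      split_ifs with hj
      · rw [← hqw]
        congr 2
        exact Fin.ext hj
      · apply hq0
        have := j.2
        show (j : ℕ) < d - 1 - e - 1
        omega
    have hα₂ : α ∈ Hm (El I x u v₂) T (d - 1) (d - 1 - e) hm := by
      refine constancy hP.hy hF hg (fun p => (p.1 : ℕ)) (d - 1 - e - 1) ?_ ?_ ?_ α ?_
        hv₁ hv₁0 hv₂ hv₂0 hα₁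
      · intro p
        have := p.1.2
        show (p.1 : ℕ) ≤ d - 1 - e - 1
        omega
      · rintro v hv hv0 t ht _ ⟨q, hq, rfl⟩
        exact ⟨_, KM_smul I x u (d - 1) ht hq, rfl⟩
      · simp only [Fintype.card_prod, Fintype.card_fin]
        have h1 : (d - 1 - e) * c ≤ c * (d - 1) := by
          rw [mul_comm]
          exact Nat.mul_le_mul_left _ hm
        omega
      · intro p hp
        by_contra h1
        apply hp
        rw [hα]
        exact if_neg h1
    obtain ⟨q, hq, hqα⟩ := hα₂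
    have hval : ∀ (j : Fin (d - 1 - e)) (l : Fin c), q (Fin.castLE hm j, T l) = α (j, l) :=
      fun j l => congrFun hqα (j, l)
    have h1 : d - 1 - e - 1 < d - 1 := by omega
    have hq0 : ∀ (j : Fin (d - 1)) b, (j : ℕ) < d - 1 - e - 1 → q (j, b) = 0 := by
      apply KM_vanish T hb₂ (hT' v₂) (le_of_lt h1) hq
      intro j l hj
      have h2 := hval ⟨j, by omega⟩ l
      rw [hα] at h2
      simp only at h2
      rw [if_neg (by omega)] at h2
      rw [← h2]
      rfl
    have h3 := KM_lead hb₂ h1 hq hq0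
    rw [show d - 1 - 1 - (d - 1 - e - 1) = e by omega] at h3
    have h4 : (fun b => q (⟨d - 1 - e - 1, h1⟩, b)) - w = 0 := by
      apply hT
      · apply Submodule.sub_mem
        · rw [← El_pt_zero I x u v₂]
          exact Wsp_le _ _ h3
        · rw [← El_pt_zero I x u v₁]
          exact Wsp_le _ _ hw
      · intro l
        have h5 := hval ⟨d - 1 - e - 1, by omega⟩ l
        rw [hα] at h5
        simp only [if_true] at h5
        rw [Pi.sub_apply, sub_eq_zero, ← h5]
        rfl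
    rw [← sub_eq_zero.mp h4]
    exact h3
  exact le_antisymm (key hv₁ hv₁0 hv₂ hv₂0) (key hv₂ hv₂0 hv₁ hv₁0)

end Const

end Pool.Agent.Hartshorne
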