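import Mathlib
import Pool.Agent.Hartshorne.Locus

/-!
An algebraic Hartogs lemma and a criterion for homogeneity.
-/

namespace Pool.Agent.Hartshorne

open MvPolynomial

set_option linter.unusedSectionVars false

section Hartogs

variable {σ : Type*} [Fintype σ]

lemma exists_inv_of_no_zero {Q : MvPolynomial σ ℂ} (h : ∀ z, eval z Q ≠ 0) :
    ∃ a, a * Q = 1 := by
  have h1 : (1 : MvPolynomial σ ℂ) ∈ (Ideal.span {Q}).radical := by
    rw [← vanishingIdeal_zeroLocus_eq_radical (K := ℂ), mem_vanishingIdeal_iff]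
    intro z hz
    rw [mem_zeroLocus_iff] at hz
    exfalso
    have h2 := hz Q (Ideal.mem_span_singleton_self Q)
    rw [aeval_eq_eval] at h2
    exact h z h2
  rw [Ideal.mem_radical_iff] at h1
  obtain ⟨n, hn⟩ := h1
  rw [one_pow, Ideal.mem_span_singleton'] at hn
  exact hn

/-- A function on the complement of the origin which is locally a quotient of polynomials is a
polynomial. -/
theorem hartogs (hσ : 1 < Fintype.card σ) (φ : (σ → ℂ) → ℂ)
    (h : ∀ v₀ ≠ 0, ∃ P Q : MvPolynomial σ ℂ, eval v₀ Q ≠ 0 ∧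
      ∀ v ≠ 0, eval v Q ≠ 0 → φ v * eval v Q = eval v P) :
    ∃ f : MvPolynomial σ ℂ, ∀ v ≠ 0, φ v = eval v f := by
  classical
  have : Nonempty σ := Fintype.card_pos_iff.mp (by omega)
  obtain ⟨i⟩ := (inferInstance : Nonempty σ)
  have hv₀ : (Pi.single i 1 : σ → ℂ) ≠ 0 := by
    intro h0
    have h1 := congrFun h0 i
    simp at h1
  obtain ⟨P, Q, hQ, hPQ⟩ := h _ hv₀
  have hQ0 : Q ≠ 0 := by
    rintro rfl
    exact hQ (map_zero _)
  obtain ⟨Q', P', a, hrel, hQa, hPa⟩ := UniqueFactorizationMonoid.exists_reduced_factors Q hQ0 P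
  have ha0 : a ≠ 0 := by
    rintro rfl
    rw [zero_mul] at hQa
    exact hQ0 hQa.symm
  have key : ∀ P₁ Q₁ : MvPolynomial σ ℂ, Q₁ ≠ 0 →
      (∀ v ≠ 0, eval v Q₁ ≠ 0 → φ v * eval v Q₁ = eval v P₁) → P' * Q₁ = P₁ * Q' := by
    intro P₁ Q₁ hQ₁0 h₁
    have h2 : P * Q₁ - P₁ * Q = 0 := by
      apply eq_zero_of_eval (mul_ne_zero (mul_ne_zero hQ0 hQ₁0)
        (X_ne_zero i : (X i : MvPolynomial σ ℂ) ≠ 0))
      intro z hz
      rw [map_mul, map_mul, eval_X] at hz
      have hz0 : z ≠ 0 := by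
        rintro rfl
        exact (right_ne_zero_of_mul hz) rfl
      have hzQ := left_ne_zero_of_mul (left_ne_zero_of_mul hz)
      have hzQ₁ := right_ne_zero_of_mul (left_ne_zero_of_mul hz)
      rw [map_sub, map_mul, map_mul, ← hPQ z hz0 hzQ, ← h₁ z hz0 hzQ₁]
      ring
    have h3 : a * (P' * Q₁ - P₁ * Q') = 0 := by
      rw [← hQa, ← hPa] at h2
      rw [← h2]; ring
    exact sub_eq_zero.mp ((mul_eq_zero.mp h3).resolve_left ha0)
  -- the reduced denominator has no zeros off the origin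
  have hnz : ∀ v ≠ 0, eval v Q' ≠ 0 := by
    intro v hv hvQ
    obtain ⟨P₁, Q₁, hQ₁, h₁⟩ := h v hv
    have hQ₁0 : Q₁ ≠ 0 := by
      rintro rfl
      exact hQ₁ (map_zero _)
    have h2 := key P₁ Q₁ hQ₁0 h₁
    have h3 : Q' ∣ P' * Q₁ := ⟨P₁, by rw [h2, mul_comm]⟩
    obtain ⟨b, hb⟩ := hrel.dvd_of_dvd_mul_left h3
    apply hQ₁
    rw [hb, map_mul, hvQ, zero_mul]
  have hnz0 : ∀ v, eval v Q' ≠ 0 := by
    intro v
    by_cases hv : v = 0
    · subst hv
      intro h0
      obtain ⟨q, hq, hq0⟩ := exists_common_zero (fun _ : Unit => Q') (fun _ => h0) (by simpa using hσ)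
      exact hnz q hq (hq0 ())
    · exact hnz v hv
  obtain ⟨b, hb⟩ := exists_inv_of_no_zero hnz0
  refine ⟨P' * b, fun v hv => ?_⟩
  obtain ⟨P₁, Q₁, hQ₁, h₁⟩ := h v hv
  have hQ₁0 : Q₁ ≠ 0 := by
    rintro rfl
    exact hQ₁ (map_zero _)
  have h2 := congrArg (eval v) (key P₁ Q₁ hQ₁0 h₁)
  have h3 := congrArg (eval v) hb
  rw [map_mul, map_mul] at h2
  rw [map_mul, map_one] at h3
  have h4 := h₁ v hv hQ₁
  apply mul_right_cancel₀ hQ₁
  rw [h4, map_mul]
  have h5 : eval v P₁ = eval v P₁ * (eval v b * eval v Q') := by rw [h3, mul_one]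
  rw [h5]
  linear_combination -(eval v b) * h2

/-- A criterion for homogeneity. -/
lemma isHomogeneous_of_scaling {f : MvPolynomial σ ℂ} {m : ℕ}
    (h : ∀ v ≠ 0, ∀ t : ℂ, t ≠ 0 → eval (t • v) f = t ^ m * eval v f) (i : σ) :
    f.IsHomogeneous m := by
  classical
  have key : ∀ j, j ≠ m → homogeneousComponent j f = 0 := by
    intro j hj
    apply eq_zero_of_eval (X_ne_zero i : (X i : MvPolynomial σ ℂ) ≠ 0)
    intro v hv
    rw [eval_X] at hv
    have hv0 : v ≠ 0 := by
      rintro rfl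
      exact hv rfl
    obtain ⟨η, hη, hη1⟩ := exists_unit_form hv0
    have h1 := eval_hc_of_line (F := f - C (eval v f) * η ^ m) (q := v) (fun t ht => by
      have h2 := hη.pow m
      rw [one_mul] at h2
      rw [map_sub, map_mul, eval_C, h v hv0 t ht, eval_smul_of_isHomogeneous h2, map_pow, hη1]
      ring) j
    have h2 : homogeneousComponent j (C (eval v f) * η ^ m) = 0 := by
      have h3 := (isHomogeneous_C σ (eval v f)).mul (hη.pow m)
      rw [zero_add, one_mul] at h3
      exact wc_of_ne (v := (1 : σ → ℕ)) h3 hj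
    rw [map_sub, h2, sub_zero] at h1
    exact h1
  have h2 : f = homogeneousComponent m f := by
    conv_lhs => rw [← sum_homogeneousComponent f]
    by_cases hm : m ∈ Finset.range (f.totalDegree + 1)
    · rw [Finset.sum_eq_single m]
      · intro j _ hj
        exact key j hj
      · intro h3
        exact absurd hm h3
    · rw [Finset.sum_eq_zero]
      · rw [Finset.mem_range] at hm
        rw [homogeneousComponent_eq_zero _ _ (by omega)]
      · intro j hj
        apply key
        rintro rfl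
        exact hm hj
  rw [h2]
  exact homogeneousComponent_isHomogeneous _ _

end Hartogs

end Pool.Agent.Hartshorne
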