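import Mathlib
import Pool.Agent.Hartshorne.Const
import Pool.Agent.Hartshorne.Hartogs

/-!
Extension of sections along lines through a point to a linear space.
-/

namespace Pool.Agent.Hartshorne

open MvPolynomial

set_option linter.unusedSectionVars false

section FamB

variable {σ τ : Type*} [Fintype τ] [DecidableEq τ]

/-- Homogenized equations: arrays with prescribed initial rows. -/
noncomputable def famB {E : Type*} {n : ℕ} (A : E → (Fin n × τ) → MvPolynomial σ ℂ) (m : ℕ)
    (r : ℕ → τ → MvPolynomial σ ℂ) :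
    (E ⊕ (Fin m × τ)) → Option (Fin n × τ) → MvPolynomial σ ℂ
  | Sum.inl _, none => 0
  | Sum.inl i, some p => A i p
  | Sum.inr p, none => - r p.1 p.2
  | Sum.inr p, some p' => if (p'.1 : ℕ) = p.1 ∧ p'.2 = p.2 then 1 else 0

lemma mem_solS_famB {E : Type*} {n : ℕ} (A : E → (Fin n × τ) → MvPolynomial σ ℂ) {m : ℕ}
    (hm : m ≤ n) (r : ℕ → τ → MvPolynomial σ ℂ) (v : σ → ℂ) (κ : Option (Fin n × τ) → ℂ) :
    κ ∈ solS (famB A m r) v ↔ (fun p => κ (some p)) ∈ solS A v ∧
      ∀ (j : Fin n) b, (j : ℕ) < m → κ (some (j, b)) = κ none * eval v (r j b) := by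
  constructor
  · intro h
    refine ⟨fun i => ?_, fun j b hj => ?_⟩
    · have h1 := h (Sum.inl i)
      rw [dotProduct, Fintype.sum_option] at h1
      simp only [rowEval_apply, famB, map_zero, zero_mul, zero_add] at h1
      exact h1
    · have h1 := h (Sum.inr (⟨j, hj⟩, b))
      rw [dotProduct, Fintype.sum_option] at h1
      simp only [rowEval_apply, famB, map_neg] at h1
      rw [Finset.sum_eq_single (j, b)] at h1
      · simp only [and_self, if_true, map_one, one_mul] at h1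
        linear_combination h1
      · rintro ⟨j', b'⟩ _ hne
        rw [if_neg, map_zero, zero_mul]
        rintro ⟨h2, h3⟩
        apply hne
        simp only at h2 h3
        rw [h3, Fin.ext h2]
      · intro h2
        exact absurd (Finset.mem_univ _) h2
  · rintro ⟨h1, h2⟩ i
    rw [dotProduct, Fintype.sum_option]
    rcases i with i | ⟨j, b⟩
    · simp only [rowEval_apply, famB, map_zero, zero_mul, zero_add]
      exact h1 i
    · simp only [rowEval_apply, famB, map_neg]
      have hj := j.2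
      rw [Finset.sum_eq_single (⟨(j : ℕ), by omega⟩, b)]
      · simp only [and_self, if_true, map_one, one_mul]
        rw [h2 _ _ hj]
        ring
      · rintro ⟨j', b'⟩ _ hne
        rw [if_neg, map_zero, zero_mul]
        rintro ⟨h2, h3⟩
        apply hne
        simp only at h2 h3
        rw [h3]
        congr 1
        exact Fin.ext h2
      · intro h2
        exact absurd (Finset.mem_univ _) h2

end FamB

section Shift

variable {τ : Type*} [Fintype τ] {c : ℕ}

/-- Shift of indices. -/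
def shiftIx {n m : ℕ} (p : Fin (n - m) × τ) : Fin n × τ :=
  (⟨(p.1 : ℕ) + m, by have := p.1.2; omega⟩, p.2)

lemma exists_shiftIx {n m : ℕ} (j : Fin n) (b : τ) (hj : m ≤ (j : ℕ)) :
    ∃ p : Fin (n - m) × τ, shiftIx p = (j, b) := by
  refine ⟨(⟨(j : ℕ) - m, by have := j.2; omega⟩, b), ?_⟩
  rw [shiftIx]
  congr 1
  apply Fin.ext
  show (j : ℕ) - m + m = j
  omega

/-- Shift of arrays. -/
noncomputable def shiftL (τ : Type*) (n m : ℕ) :
    (Fin (n - m) × τ → ℂ) →ₗ[ℂ] (Fin n × τ → ℂ) where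
  toFun := fun q' p => if h : (p.1 : ℕ) < m then 0 else
    q' (⟨(p.1 : ℕ) - m, by have := p.1.2; omega⟩, p.2)
  map_add' := by
    intro a b
    funext p
    simp only [Pi.add_apply]
    split_ifs
    · simp
    · rfl
  map_smul' := by
    intro t a
    funext p
    simp only [Pi.smul_apply, RingHom.id_apply]
    split_ifs
    · simp
    · rfl

lemma shiftL_low {n m : ℕ} (q' : Fin (n - m) × τ → ℂ) (j : Fin n) (b : τ) (hj : (j : ℕ) < m) :
    shiftL τ n m q' (j, b) = 0 := by
  show (if h : (j : ℕ) < m then 0 else q' (⟨(j : ℕ) - m, by have := j.2; omega⟩, b)) = 0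
  rw [dif_pos hj]

lemma shiftL_shiftIx {n m : ℕ} (q' : Fin (n - m) × τ → ℂ) (p : Fin (n - m) × τ) :
    shiftL τ n m q' (shiftIx p) = q' p := by
  show (if h : (p.1 : ℕ) + m < m then 0 else
    q' (⟨(p.1 : ℕ) + m - m, by have := p.1.2; omega⟩, p.2)) = q' p
  rw [dif_neg (by omega)]
  congr 1
  apply Prod.ext
  · apply Fin.ext
    show (p.1 : ℕ) + m - m = p.1
    omega
  · rfl

variable {Γ : Submodule (MvPolynomial (Fin 2) ℂ) (τ → MvPolynomial (Fin 2) ℂ)}
  {E : (Fin 2 → ℂ) → Submodule ℂ (τ → ℂ)}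

lemma KM_unshift (hb : IsBundle c Γ E) {n m : ℕ} (hm : m < n) {q : Fin n × τ → ℂ}
    (hq : q ∈ KM E n) (h0 : ∀ (j : Fin n) b, (j : ℕ) < m → q (j, b) = 0) :
    (fun p : Fin (n - m) × τ => q (shiftIx p)) ∈ KM E (n - m) := by
  have h1 := arr_shift n m hm q (fun p : Fin (n - m) × τ => q (shiftIx p)) h0
    (fun j b => rfl)
  rw [mem_KM, h1] at hq
  exact hb.of_smul (pow_ne_zero m (X_ne_zero 1)) hq

lemma KM_shift {n m : ℕ} (hm : m < n) {q' : Fin (n - m) × τ → ℂ} (hq' : q' ∈ KM E (n - m)) :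
    shiftL τ n m q' ∈ KM E n := by
  rw [mem_KM, arr_shift n m hm _ q' (shiftL_low q') (fun j b => shiftL_shiftIx q' (j, b))]
  exact InE.smul _ (mem_KM.mp hq')

end Shift

section Extend

variable {ρ : Type*} [Fintype ρ] [DecidableEq ρ] {c d D k : ℕ} {I : Ideal (MvPolynomial ρ ℂ)}
  {x : ρ → ℂ} {u : Fin k → (ρ → ℂ)} {F : Fin c → MvPolynomial ρ ℂ}

/-- Uniform data on a linear space through a point. -/
structure Uniform (I : Ideal (MvPolynomial ρ ℂ)) (x : ρ → ℂ) (u : Fin k → (ρ → ℂ)) (c d D : ℕ)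
    (F : Fin c → MvPolynomial ρ ℂ) (W : ℕ → Submodule ℂ (ρ → ℂ)) : Prop where
  hk : 1 < k
  vertex : Vertex I x c d F
  line : ∀ v ≠ 0, GoodLine I x u c D v
  wsp : ∀ v ≠ 0, ∀ e, Wsp (El I x u v) e = W e

variable {W : ℕ → Submodule ℂ (ρ → ℂ)}

lemma Uniform.finrank_KM (hU : Uniform I x u c d D F W) (n : ℕ) {v : Fin k → ℂ} (hv : v ≠ 0) :
    Module.finrank ℂ (KM (El I x u v) n) = ∑ j ∈ Finset.range n, Module.finrank ℂ (W j) := by
  obtain ⟨T, hT⟩ := hU.vertex.exists_T
  have hT' : ∀ w ∈ El I x u v (pt 0), (∀ l, w (T l) = 0) → w = 0 := by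
    rw [El_pt_zero]; exact hT
  rw [Pool.Agent.Hartshorne.finrank_KM (isBundle_El I x u (hU.line v hv)) T hT' n]
  exact Finset.sum_congr rfl (fun j _ => by rw [hU.wsp v hv])

/-- The dimension of the homogenized spaces. -/
lemma Uniform.finrank_famB (hU : Uniform I x u c d D F W) {n m : ℕ} (hm : m < n)
    (r : ℕ → ρ → MvPolynomial (Fin k) ℂ) {v : Fin k → ℂ} (hv : v ≠ 0)
    (hex : ∃ q ∈ KM (El I x u v) n, ∀ (j : Fin n) b, (j : ℕ) < m → q (j, b) = eval v (r j b)) :
    Module.finrank ℂ (solS (famB (famA I x u c D n) m r) v) =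
      1 + ∑ j ∈ Finset.range (n - m), Module.finrank ℂ (W j) := by
  have hb := isBundle_El I x u (hU.line v hv)
  obtain ⟨S, hS⟩ : ∃ S, solS (famB (famA I x u c D n) m r) v = S := ⟨_, rfl⟩
  have hmem : ∀ κ, κ ∈ S ↔ (fun p => κ (some p)) ∈ KM (El I x u v) n ∧
      ∀ (j : Fin n) b, (j : ℕ) < m → κ (some (j, b)) = κ none * eval v (r j b) := by
    intro κ
    rw [← hS, mem_solS_famB _ hm.le, solS_famA I x u _ (hU.line v hv)]
  rw [hS]
  obtain ⟨q₀, hq₀, hq₀r⟩ := hex
  set φ : S →ₗ[ℂ] ℂ := (LinearMap.proj none : (Option (Fin n × ρ) → ℂ) →ₗ[ℂ] ℂ) ∘ₗ S.subtype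
    with hφ
  have hrange : LinearMap.range φ = ⊤ := by
    rw [LinearMap.range_eq_top]
    intro t
    refine ⟨⟨fun o => match o with
      | none => t
      | some p => t * q₀ p, ?_⟩, rfl⟩
    rw [hmem]
    constructor
    · show (fun p => t * q₀ p) ∈ KM (El I x u v) n
      exact Submodule.smul_mem _ t hq₀
    · intro j b hj
      show t * q₀ (j, b) = t * _
      rw [hq₀r j b hj]
  have h1 := LinearMap.finrank_range_add_finrank_ker φ
  rw [hrange, finrank_top, Module.finrank_self] at h1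
  rw [← h1]
  congr 1
  rw [← hU.finrank_KM (n - m) hv]
  apply le_antisymm
  · obtain ⟨L1, hL1⟩ : ∃ L1 : S →ₗ[ℂ] (Fin (n - m) × ρ → ℂ),
        ∀ κ p, L1 κ p = (κ : Option (Fin n × ρ) → ℂ) (some (shiftIx p)) :=
      ⟨(LinearMap.funLeft ℂ ℂ (fun p : Fin (n - m) × ρ =>
        (some (shiftIx p : Fin n × ρ) : Option (Fin n × ρ)))) ∘ₗ S.subtype, fun _ _ => rfl⟩
    apply finrank_le_of_map L1
    · rintro ⟨κ, hκ⟩ hκ0
      have hκ0' : κ none = 0 := hκ0
      obtain ⟨h2, h3⟩ := (hmem κ).mp hκ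
      have h4 := KM_unshift hb hm h2 (fun j b hj => by
        show κ (some (j, b)) = 0
        rw [h3 j b hj, hκ0', zero_mul])
      have h5 : L1 ⟨κ, hκ⟩ = fun p => κ (some (shiftIx p)) := funext (hL1 ⟨κ, hκ⟩)
      rw [h5]
      exact h4
    · rintro ⟨κ, hκ⟩ hκ0 hz
      have hκ0' : κ none = 0 := hκ0
      obtain ⟨h2, h3⟩ := (hmem κ).mp hκ
      have hz' : ∀ p : Fin (n - m) × ρ, κ (some (shiftIx p)) = 0 := by
        intro p
        have h6 := hL1 ⟨κ, hκ⟩ p
        rw [hz] at h6
        exact h6.symm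
      have hz2 : κ = 0 := by
        funext o
        rcases o with _ | ⟨j, b⟩
        · exact hκ0'
        · by_cases hj : (j : ℕ) < m
          · rw [h3 j b hj, hκ0', zero_mul]; rfl
          · obtain ⟨p, hp⟩ := exists_shiftIx (m := m) j b (by omega)
            rw [← hp, hz' p]; rfl
      exact Subtype.ext hz2
  · obtain ⟨L2, hL2n, hL2s⟩ : ∃ L2 : (Fin (n - m) × ρ → ℂ) →ₗ[ℂ] (Option (Fin n × ρ) → ℂ),
        (∀ q', L2 q' none = 0) ∧ ∀ q' p, L2 q' (some p) = shiftL ρ n m q' p := by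
      refine ⟨{ toFun := fun q' o => o.elim 0 (shiftL ρ n m q')
                map_add' := ?_
                map_smul' := ?_ }, fun q' => rfl, fun q' p => rfl⟩
      · intro a b
        funext o
        rcases o with _ | p
        · simp
        · simp [map_add]
      · intro t a
        funext o
        rcases o with _ | p
        · simp
        · simp [map_smul]
    have h2 : Module.finrank ℂ (KM (El I x u v) (n - m)) ≤
        Module.finrank ℂ ((LinearMap.ker φ).map S.subtype) := by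
      apply finrank_le_of_map L2
      · intro q' hq'
        have h3 : L2 q' ∈ S := by
          rw [hmem]
          constructor
          · have h4 : (fun p => L2 q' (some p)) = shiftL ρ n m q' := funext (hL2s q')
            rw [h4]
            exact KM_shift hm hq'
          · intro j b hj
            rw [hL2s, hL2n, shiftL_low q' j b hj, zero_mul]
        exact ⟨⟨L2 q', h3⟩, hL2n q', rfl⟩
      · intro q' _ h0
        funext p
        have h3 := congrFun h0 (some (shiftIx p))
        rw [hL2s, shiftL_shiftIx] at h3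
        exact h3
    exact h2.trans (Submodule.finrank_map_le _ _)

/-- A projection with given kernel. -/
lemma exists_proj {V : Type*} [AddCommGroup V] [Module ℂ V] (W : Submodule ℂ V) :
    ∃ π : V →ₗ[ℂ] V, (∀ w ∈ W, π w = 0) ∧ ∀ w, π w - w ∈ W := by
  obtain ⟨g, hg⟩ := LinearMap.exists_leftInverse_of_injective W.subtype
    (LinearMap.ker_eq_bot.mpr Subtype.val_injective)
  refine ⟨LinearMap.id - W.subtype ∘ₗ g, ?_, ?_⟩
  · intro w hw
    have h1 := DFunLike.congr_fun hg ⟨w, hw⟩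
    have h2 : g w = ⟨w, hw⟩ := h1
    show w - (g w : V) = 0
    rw [h2, sub_self]
  · intro w
    show w - (g w : V) - w ∈ W
    have h1 : w - (g w : V) - w = -(g w : V) := by abel
    rw [h1]
    exact Submodule.neg_mem _ (g w).2

/-- The spaces of sections form a family with local polynomial sections. -/
lemma Uniform.famB_frame (hU : Uniform I x u c d D F W) {n m : ℕ} (hm : m < n)
    (r : ℕ → ρ → MvPolynomial (Fin k) ℂ)
    (hex : ∀ v : Fin k → ℂ, v ≠ 0 → ∃ q ∈ KM (El I x u v) n, ∀ (j : Fin n) b, (j : ℕ) < m →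
      q (j, b) = eval v (r j b)) :
    FrameProp {v | v ≠ 0} (solS (famB (famA I x u c D n) m r)) :=
  frame_of_eqs _ _ (1 + ∑ j ∈ Finset.range (n - m), Module.finrank ℂ (W j))
    (fun v hv => hU.finrank_famB hm r hv (hex v hv))

/-- One step of the extension. -/
theorem Uniform.extend_step (hU : Uniform I x u c d D F W) {n m : ℕ} (hm : m < n) (hm0 : 0 < m)
    (r : ℕ → ρ → MvPolynomial (Fin k) ℂ) (hr : ∀ j, HomRow j (r j))
    (hex : ∀ v : Fin k → ℂ, v ≠ 0 → ∃ q ∈ KM (El I x u v) n, ∀ (j : Fin n) b, (j : ℕ) < m →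
      q (j, b) = eval v (r j b)) :
    ∃ r' : ℕ → ρ → MvPolynomial (Fin k) ℂ, (∀ j, HomRow j (r' j)) ∧ r' 0 = r 0 ∧
      ∀ v : Fin k → ℂ, v ≠ 0 → ∃ q ∈ KM (El I x u v) n, ∀ (j : Fin n) b, (j : ℕ) < m + 1 →
        q (j, b) = eval v (r' j b) := by
  have hframe := hU.famB_frame hm r hex
  obtain ⟨π, hπ0, hπ1⟩ := exists_proj (W (n - 1 - m))
  -- the class of the next coefficient is well defined
  have hwd : ∀ v : Fin k → ℂ, v ≠ 0 → ∀ q ∈ KM (El I x u v) n, ∀ q' ∈ KM (El I x u v) n,
      (∀ (j : Fin n) b, (j : ℕ) < m → q (j, b) = q' (j, b)) →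
      π (fun b => q (⟨m, hm⟩, b)) = π (fun b => q' (⟨m, hm⟩, b)) := by
    intro v hv q hq q' hq' hqq'
    have h1 := KM_lead (isBundle_El I x u (hU.line v hv)) hm (Submodule.sub_mem _ hq hq')
      (fun j b hj => by rw [Pi.sub_apply, hqq' j b hj, sub_self])
    rw [hU.wsp v hv] at h1
    have h2 := hπ0 _ h1
    have h3 : (fun b => (q - q') (⟨m, hm⟩, b)) =
        (fun b => q (⟨m, hm⟩, b)) - fun b => q' (⟨m, hm⟩, b) := rfl
    rw [h3, map_sub, sub_eq_zero] at h2
    exact h2
  choose! Q hQ hQr using hex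
  set Φ : (Fin k → ℂ) → (ρ → ℂ) := fun v => π (fun b => Q v (⟨m, hm⟩, b)) with hΦ
  have hloc : ∀ b, ∀ v₀ : Fin k → ℂ, v₀ ≠ 0 → ∃ P R : MvPolynomial (Fin k) ℂ, eval v₀ R ≠ 0 ∧
      ∀ v ≠ 0, eval v R ≠ 0 → Φ v b * eval v R = eval v P := by
    intro b v₀ hv₀
    have hh : (fun o : Option (Fin n × ρ) => o.elim 1 (Q v₀)) ∈
        solS (famB (famA I x u c D n) m r) v₀ := by
      rw [mem_solS_famB _ hm.le, solS_famA I x u _ (hU.line v₀ hv₀)]
      refine ⟨hQ v₀ hv₀, fun j b hj => ?_⟩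
      show Q v₀ (j, b) = 1 * _
      rw [hQr v₀ hv₀ j b hj, one_mul]
    obtain ⟨Δ, κ, hΔ, hκ₀, hκ⟩ := hframe v₀ hv₀ _ hh
    refine ⟨Δ * ∑ b', C (π (Pi.single b' 1) b) * κ (some (⟨m, hm⟩, b')), Δ * κ none, ?_, ?_⟩
    · have h1 := congrFun hκ₀ none
      rw [rowEval_apply] at h1
      have h2 : (eval v₀ Δ • (fun o : Option (Fin n × ρ) => o.elim 1 (Q v₀))) none =
        eval v₀ Δ * 1 := rfl
      rw [h2, mul_one] at h1
      rw [map_mul, h1]
      exact mul_ne_zero hΔ hΔ
    · intro v hv hR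
      rw [map_mul] at hR
      have hΔv := left_ne_zero_of_mul hR
      have hκv := right_ne_zero_of_mul hR
      have h1 := hκ v hv hΔv
      rw [mem_solS_famB _ hm.le, solS_famA I x u _ (hU.line v hv)] at h1
      obtain ⟨h2, h3⟩ := h1
      have h4 := Submodule.smul_mem _ (eval v (κ none))⁻¹ h2
      have h5 := hwd v hv _ (hQ v hv) _ h4 (by
        intro j b hj
        rw [hQr v hv j b hj, Pi.smul_apply, smul_eq_mul, h3 j b hj, rowEval_apply, ← mul_assoc,
          inv_mul_cancel₀ hκv, one_mul])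
      have h6 : Φ v = (eval v (κ none))⁻¹ • π (fun b' => eval v (κ (some (⟨m, hm⟩, b')))) := by
        rw [← map_smul]
        exact h5
      rw [h6, map_mul, map_mul, map_sum, Pi.smul_apply, smul_eq_mul,
        LinearMap.pi_apply_eq_sum_univ π, Finset.sum_apply]
      have h7 : ∀ b' : ρ, (fun j : ρ => if b' = j then (1 : ℂ) else 0) = Pi.single b' 1 := by
        intro b'
        funext j
        rw [Pi.single_apply]
        simp only [eq_comm]
      simp only [h7, map_mul, eval_C, Pi.smul_apply, smul_eq_mul]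
      rw [show (∑ b', eval v (κ (some (⟨m, hm⟩, b'))) * π (Pi.single b' 1) b) =
        ∑ b', π (Pi.single b' 1) b * eval v (κ (some (⟨m, hm⟩, b'))) from
        Finset.sum_congr rfl (fun _ _ => mul_comm _ _)]
      field_simp
  have hk : 1 < Fintype.card (Fin k) := by rw [Fintype.card_fin]; exact hU.hk
  choose f hf using fun b => hartogs hk (fun v => Φ v b) (hloc b)
  have hfhom : ∀ b, (f b).IsHomogeneous m := by
    intro b
    refine isHomogeneous_of_scaling ?_ ⟨0, by have := hU.hk; omega⟩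
    intro v hv t ht
    rw [← hf b _ (smul_ne_zero ht hv), ← hf b v hv]
    have h1 := hwd (t • v) (smul_ne_zero ht hv) _ (hQ _ (smul_ne_zero ht hv)) _
      (KM_smul I x u n ht (hQ v hv)) (by
        intro j b hj
        rw [hQr _ (smul_ne_zero ht hv) j b hj]
        simp only
        rw [hQr v hv j b hj, eval_smul_of_isHomogeneous (hr j b)])
    have h2 : Φ (t • v) = t ^ m • Φ v := by
      rw [hΦ]
      simp only
      rw [h1, ← map_smul]
      rfl
    show Φ (t • v) b = t ^ m * Φ v b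
    rw [h2, Pi.smul_apply, smul_eq_mul]
  refine ⟨Function.update r m (fun b => f b), ?_, ?_, ?_⟩
  · intro j
    by_cases hj : j = m
    · subst hj
      rw [Function.update_self]
      exact hfhom
    · rw [Function.update_of_ne hj]
      exact hr j
  · rw [Function.update_of_ne hm0.ne]
  · intro v hv
    have h1 : Φ v - (fun b => Q v (⟨m, hm⟩, b)) ∈ Wsp (El I x u v) (n - 1 - m) := by
      rw [hU.wsp v hv]
      exact hπ1 _
    obtain ⟨q', hq', hq'0, hq'm⟩ := KM_of_Wsp hm h1
    refine ⟨Q v + q', Submodule.add_mem _ (hQ v hv) hq', ?_⟩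
    intro j b hj
    by_cases hjm : (j : ℕ) < m
    · rw [Function.update_of_ne hjm.ne, Pi.add_apply, hq'0 j b hjm, add_zero, hQr v hv j b hjm]
    · have hjm' : j = ⟨m, hm⟩ := Fin.ext (by show (j : ℕ) = m; omega)
      subst hjm'
      rw [Pi.add_apply, hq'm b, Pi.sub_apply]
      simp only [Function.update_self]
      rw [← hf b v hv]
      ring

/-- Extension of a vector of the filtration. -/
theorem Uniform.exists_ext (hU : Uniform I x u c d D F W) {e : ℕ} {w : ρ → ℂ} (hw : w ∈ W e) :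
    ∃ r : ℕ → ρ → MvPolynomial (Fin k) ℂ, (∀ j, HomRow j (r j)) ∧ (∀ b, r 0 b = C (w b)) ∧
      ∀ v : Fin k → ℂ, v ≠ 0 → (fun p : Fin (e + 1) × ρ => eval v (r p.1 p.2)) ∈
        KM (El I x u v) (e + 1) := by
  have key : ∀ m, 0 < m → m ≤ e + 1 → ∃ r : ℕ → ρ → MvPolynomial (Fin k) ℂ,
      (∀ j, HomRow j (r j)) ∧ (∀ b, r 0 b = C (w b)) ∧
      ∀ v : Fin k → ℂ, v ≠ 0 → ∃ q ∈ KM (El I x u v) (e + 1), ∀ (j : Fin (e + 1)) b,
        (j : ℕ) < m → q (j, b) = eval v (r j b) := by
    intro m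
    induction m with
    | zero => intro h; omega
    | succ m ih =>
      intro _ hm
      rcases Nat.eq_zero_or_pos m with rfl | hm0
      · refine ⟨fun j b => if j = 0 then C (w b) else 0, ?_, fun b => if_pos rfl, ?_⟩
        · intro j b
          simp only
          split_ifs with hj
          · rw [hj]; exact isHomogeneous_C _ _
          · exact isHomogeneous_zero _ _ _
        · intro v hv
          have h1 : w ∈ Wsp (El I x u v) (e + 1 - 1 - 0) := by
            rw [hU.wsp v hv]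
            exact hw
          obtain ⟨q, hq, -, hq0⟩ := KM_of_Wsp (n := e + 1) (m := 0) (by omega) h1
          refine ⟨q, hq, ?_⟩
          intro j b hj
          have hj0 : j = 0 := Fin.ext (by show (j : ℕ) = 0; omega)
          have h2 : q (j, b) = w b := by
            rw [hj0]
            exact hq0 b
          rw [h2, hj0]
          simp
      · obtain ⟨r, hr, hr0, hex⟩ := ih hm0 (by omega)
        obtain ⟨r', hr', hr'0, hex'⟩ := hU.extend_step (by omega) hm0 r hr hex
        exact ⟨r', hr', fun b => by rw [hr'0, hr0 b], hex'⟩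
  obtain ⟨r, hr, hr0, hex⟩ := key (e + 1) (by omega) le_rfl
  refine ⟨r, hr, hr0, ?_⟩
  intro v hv
  obtain ⟨q, hq, hqr⟩ := hex v hv
  have h1 : (fun p : Fin (e + 1) × ρ => eval v (r p.1 p.2)) = q := by
    funext p
    exact (hqr p.1 p.2 p.1.2).symm
  rw [h1]
  exact hq

end Extend

end Pool.Agent.Hartshorne
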