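import Mathlib
import Pool.Agent.Hartshorne.Extend

/-!
Splitting of the gradient bundle on a linear space through a point.
-/

namespace Pool.Agent.Hartshorne

open MvPolynomial

set_option linter.unusedSectionVars false

section OneLine

variable {τ : Type*} [Fintype τ] {c : ℕ}
variable {Γ : Submodule (MvPolynomial (Fin 2) ℂ) (τ → MvPolynomial (Fin 2) ℂ)}
  {E : (Fin 2 → ℂ) → Submodule ℂ (τ → ℂ)}

lemma isHomogeneous_zero_eq {σ : Type*} {f : MvPolynomial σ ℂ} (hf : f.IsHomogeneous 0)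
    (z z' : σ → ℂ) : eval z f = eval z' f := by
  have h1 : f.totalDegree = 0 := Nat.le_zero.mp hf.totalDegree_le
  rw [totalDegree_eq_zero_iff_eq_C] at h1
  rw [h1, eval_C, eval_C]

/-- Sections of the right degrees whose values at one point are adapted to the filtration are
independent everywhere. -/
theorem li_of_adapted (hb : IsBundle c Γ E) (w : Fin c → (τ → ℂ)) (f : Fin c → ℕ)
    (hw : LinearIndependent ℂ w)
    (hW : ∀ e, ∀ y ∈ Wsp E e, ∃ a : Fin c → ℂ, (∀ i, e < f i → a i = 0) ∧ y = ∑ i, a i • w i)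
    (ρ : Fin c → τ → MvPolynomial (Fin 2) ℂ) (hρh : ∀ i, HomRow (f i) (ρ i))
    (hρE : ∀ i, InE E (ρ i)) (hρw : ∀ i, rowEval (pt 0) (ρ i) = w i) (z : Fin 2 → ℂ)
    (hz : z ≠ 0) : LinearIndependent ℂ (fun i => rowEval z (ρ i)) := by
  classical
  rw [Fintype.linearIndependent_iff]
  intro a ha
  by_contra hne
  push Not at hne
  obtain ⟨i₀, hi₀⟩ := hne
  -- the maximal degree occurring
  obtain ⟨i₁, hi₁, hmax⟩ := Finset.exists_max_image (Finset.univ.filter (fun i => a i ≠ 0)) f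
    ⟨i₀, Finset.mem_filter.mpr ⟨Finset.mem_univ _, hi₀⟩⟩
  rw [Finset.mem_filter] at hi₁
  have hmax' : ∀ i, f i₁ < f i → a i = 0 := by
    intro i hi
    by_contra h
    have := hmax i (Finset.mem_filter.mpr ⟨Finset.mem_univ _, h⟩)
    omega
  obtain ⟨e, he⟩ : ∃ e, f i₁ = e := ⟨_, rfl⟩
  rw [he] at hmax'
  obtain ⟨η, hη, hη1⟩ := exists_unit_form hz
  set R : τ → MvPolynomial (Fin 2) ℂ := ∑ i, (C (a i) * η ^ (e - f i)) • ρ i with hR
  have hRh : HomRow e R := by
    apply HomRow.sum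
    intro i _
    by_cases hi : e < f i
    · rw [hmax' i hi, C_0, zero_mul, zero_smul]
      exact homRow_zero e
    · have h1 := HomRow.smul ((isHomogeneous_C (Fin 2) (a i)).mul (hη.pow (e - f i))) (hρh i)
      rw [zero_add, one_mul, Nat.sub_add_cancel (not_lt.mp hi)] at h1
      exact h1
  have hRE : InE E R := InE.sum _ _ (fun i _ => (hρE i).smul _)
  have hRz : rowEval z R = 0 := by
    rw [hR, rowEval_sum, ← ha]
    refine Finset.sum_congr rfl (fun i _ => ?_)
    rw [rowEval_smul, map_mul, eval_C, map_pow, hη1, one_pow, mul_one]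
  have hRp : rowEval (pt 0) R = ∑ i, (a i * eval (pt 0) η ^ (e - f i)) • w i := by
    rw [hR, rowEval_sum]
    refine Finset.sum_congr rfl (fun i _ => ?_)
    rw [rowEval_smul, map_mul, eval_C, map_pow, hρw]
  -- the value at the base point lies in a smaller step of the filtration
  have hsmall : ∃ b : Fin c → ℂ, (∀ i, e ≤ f i → b i = 0) ∧
      rowEval (pt 0) R = ∑ i, b i • w i := by
    rcases Nat.eq_zero_or_pos e with he0 | he0
    · refine ⟨0, fun i _ => rfl, ?_⟩
      rw [he0] at hRh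
      have h1 : rowEval (pt 0) R = rowEval z R := by
        funext b
        exact isHomogeneous_zero_eq (hRh b) _ _
      rw [h1, hRz]
      simp
    · obtain ⟨e', rfl⟩ : ∃ e', e = e' + 1 := ⟨e - 1, by omega⟩
      obtain ⟨s, hs, hRs⟩ := exists_div_linForm hz hRh hRz
      have hsE : InE E s := by
        rw [hRs] at hRE
        exact hb.of_smul (linForm_ne_zero hz) hRE
      obtain ⟨b, hb0, hbw⟩ := hW e' (rowEval (pt 0) s) ⟨s, hs, hsE, rfl⟩
      refine ⟨fun i => eval (pt 0) (linForm z) * b i, fun i hi => ?_, ?_⟩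
      · show eval (pt 0) (linForm z) * b i = 0
        rw [hb0 i (by omega), mul_zero]
      · rw [hRs, rowEval_smul, hbw, Finset.smul_sum]
        exact Finset.sum_congr rfl (fun i _ => by rw [smul_smul])
  obtain ⟨b, hb0, hbw⟩ := hsmall
  have h1 : ∑ i, (a i * eval (pt 0) η ^ (e - f i) - b i) • w i = 0 := by
    have h2 : ∑ i, (a i * eval (pt 0) η ^ (e - f i) - b i) • w i =
        (∑ i, (a i * eval (pt 0) η ^ (e - f i)) • w i) - ∑ i, b i • w i := by
      rw [← Finset.sum_sub_distrib]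
      exact Finset.sum_congr rfl (fun i _ => by rw [sub_smul])
    rw [h2, ← hRp, hbw, sub_self]
  have h3 := (Fintype.linearIndependent_iff.mp hw) _ h1 i₁
  rw [hb0 i₁ he.ge, he, Nat.sub_self, pow_zero, mul_one, sub_zero] at h3
  exact hi₁.2 h3

end OneLine

section Split

variable {ρ : Type*} [Fintype ρ] [DecidableEq ρ] {c d D k : ℕ} {I : Ideal (MvPolynomial ρ ℂ)}
  {x : ρ → ℂ} {u : Fin k → (ρ → ℂ)} {F : Fin c → MvPolynomial ρ ℂ}
  {W : ℕ → Submodule ℂ (ρ → ℂ)}

/-- A basis adapted to the filtration. -/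
def Adapted (W : ℕ → Submodule ℂ (ρ → ℂ)) (w : Fin c → (ρ → ℂ)) (f : Fin c → ℕ) : Prop :=
  LinearIndependent ℂ w ∧ (∀ i, w i ∈ W (f i)) ∧
    ∀ e, ∀ y ∈ W e, ∃ a : Fin c → ℂ, (∀ i, e < f i → a i = 0) ∧ y = ∑ i, a i • w i

/-- A splitting along one line provides an adapted basis. -/
lemma exists_adapted {τ : Type*} [Fintype τ]
    {Γ : Submodule (MvPolynomial (Fin 2) ℂ) (τ → MvPolynomial (Fin 2) ℂ)}
    {E : (Fin 2 → ℂ) → Submodule ℂ (τ → ℂ)} (hb : IsBundle c Γ E) :
    ∃ (w : Fin c → (τ → ℂ)) (f : Fin c → ℕ), LinearIndependent ℂ w ∧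
      (∀ i, w i ∈ Wsp E (f i)) ∧
      ∀ e, ∀ y ∈ Wsp E e, ∃ a : Fin c → ℂ, (∀ i, e < f i → a i = 0) ∧ y = ∑ i, a i • w i := by
  obtain ⟨ψ, f, hψ⟩ := line_split hb
  refine ⟨fun i => rowEval (pt 0) (ψ i), f, hψ.2.2.1 _ pt_zero_ne,
    fun i => ⟨ψ i, hψ.1 i, hψ.2.1 i, rfl⟩, ?_⟩
  rintro e _ ⟨r, hr, hrE, rfl⟩
  obtain ⟨a, ha, ha0, hsum⟩ := exists_homog_coeffs hr ψ f hψ.1 (hψ.2.2.2 e r hr hrE)
  refine ⟨fun i => eval (pt 0) (a i), fun i hi => by show eval (pt 0) (a i) = 0; rw [ha0 i hi, map_zero], ?_⟩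
  rw [← hsum, rowEval_sum]
  exact Finset.sum_congr rfl (fun i _ => rowEval_smul _ _ _)

/-- The rows on the linear space. -/
noncomputable def bigRow (f : ℕ) (r : ℕ → ρ → MvPolynomial (Fin k) ℂ) :
    ρ → MvPolynomial (Fin (k + 1)) ℂ :=
  fun b => ∑ j ∈ Finset.range (f + 1), X 0 ^ (f - j) * rename Fin.succ (r j b)

lemma homRow_bigRow (f : ℕ) {r : ℕ → ρ → MvPolynomial (Fin k) ℂ} (hr : ∀ j, HomRow j (r j)) :
    HomRow f (bigRow f r) := by
  intro b
  refine IsHomogeneous.sum _ _ _ (fun j hj => ?_)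
  rw [Finset.mem_range] at hj
  have h1 := ((isHomogeneous_X ℂ (0 : Fin (k + 1))).pow (f - j)).mul
    ((hr j b).rename_isHomogeneous (f := Fin.succ))
  rw [one_mul, Nat.sub_add_cancel (by omega)] at h1
  exact h1

lemma rowEval_bigRow (f : ℕ) (r : ℕ → ρ → MvPolynomial (Fin k) ℂ) (s : ℂ) (v : Fin k → ℂ)
    (b : ρ) : rowEval (Fin.cons s v : Fin (k + 1) → ℂ) (bigRow f r) b =
      ∑ j ∈ Finset.range (f + 1), s ^ (f - j) * eval v (r j b) := by
  rw [rowEval_apply, bigRow, map_sum]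
  refine Finset.sum_congr rfl (fun j _ => ?_)
  rw [map_mul, map_pow, eval_X, eval_rename, Fin.cons_zero]
  rfl

lemma rowEval_arr_eq (f : ℕ) (r : ℕ → ρ → MvPolynomial (Fin k) ℂ) (v : Fin k → ℂ)
    (z : Fin 2 → ℂ) (b : ρ) :
    rowEval z (arr (f + 1) (fun p : Fin (f + 1) × ρ => eval v (r p.1 p.2))) b =
      ∑ j ∈ Finset.range (f + 1), z 0 ^ (f - j) * z 1 ^ j * eval v (r j b) := by
  rw [rowEval_arr, ← Fin.sum_univ_eq_sum_range (fun j => z 0 ^ (f - j) * z 1 ^ j *
    eval v (r j b))]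
  rfl

lemma comb_cons (x : ρ → ℂ) (u : Fin k → (ρ → ℂ)) (s : ℂ) (v : Fin k → ℂ) :
    comb (Fin.cons x u : Fin (k + 1) → (ρ → ℂ)) (Fin.cons s v) = s • x + comb u v := by
  rw [comb_apply, comb_apply, Fin.sum_univ_succ]
  simp

/-- Reduction of a point of the linear space to a point of a line. -/
lemma exists_line_point (hk : 0 < k) {z : Fin (k + 1) → ℂ} (hz : z ≠ 0)
    (x : ρ → ℂ) (u : Fin k → (ρ → ℂ)) :
    ∃ v : Fin k → ℂ, v ≠ 0 ∧ ∃ z' : Fin 2 → ℂ, z' ≠ 0 ∧
      comb (Fin.cons x u : Fin (k + 1) → (ρ → ℂ)) z = comb (pl x u v) z' ∧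
      ∀ (f : ℕ) (r : ℕ → ρ → MvPolynomial (Fin k) ℂ), (∀ j, HomRow j (r j)) →
        rowEval z (bigRow f r) =
          rowEval z' (arr (f + 1) (fun p : Fin (f + 1) × ρ => eval v (r p.1 p.2))) := by
  obtain ⟨s, v, rfl⟩ : ∃ s v, z = Fin.cons s v := ⟨z 0, Fin.tail z, (Fin.cons_self_tail z).symm⟩
  by_cases hv : v = 0
  · subst hv
    have hs : s ≠ 0 := by
      rintro rfl
      apply hz
      funext i
      refine Fin.cases ?_ (fun i => ?_) i <;> simp
    refine ⟨Pi.single ⟨0, hk⟩ 1, ?_, ![s, 0], ?_, ?_, ?_⟩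
    · intro h
      have h1 := congrFun h ⟨0, hk⟩
      simp at h1
    · intro h
      exact hs (congrFun h 0)
    · rw [comb_cons, comb_pl]
      simp
    · intro f r hr
      funext b
      rw [rowEval_bigRow, rowEval_arr_eq]
      refine Finset.sum_congr rfl (fun j _ => ?_)
      rcases Nat.eq_zero_or_pos j with rfl | hj
      · simp only [Matrix.cons_val_zero, Matrix.cons_val_one, pow_zero, mul_one]
        congr 1
        exact isHomogeneous_zero_eq (hr 0 b) _ _
      · simp only [Matrix.cons_val_zero, Matrix.cons_val_one]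
        have h1 : eval (0 : Fin k → ℂ) (r j b) = 0 := by
          have h2 := eval_smul_of_isHomogeneous (hr j b) 0 (0 : Fin k → ℂ)
          rw [smul_zero, zero_pow hj.ne', zero_mul] at h2
          exact h2
        rw [h1, zero_pow hj.ne']
        ring
  · refine ⟨v, hv, ![s, 1], ?_, ?_, ?_⟩
    · intro h
      exact one_ne_zero (congrFun h 1)
    · rw [comb_cons, comb_pl]
      simp
    · intro f r hr
      funext b
      rw [rowEval_bigRow, rowEval_arr_eq]
      refine Finset.sum_congr rfl (fun j _ => ?_)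
      simp

/-- Splitting of the gradient bundle on a linear space through a point. -/
theorem Uniform.split (hU : Uniform I x u c d D F W) {w : Fin c → (ρ → ℂ)} {f : Fin c → ℕ}
    (hw : Adapted W w f) :
    ∃ Ψ : Fin c → ρ → MvPolynomial (Fin (k + 1)) ℂ, (∀ i, HomRow (f i) (Ψ i)) ∧
      (∀ z ≠ 0, ∀ i, rowEval z (Ψ i) ∈
        gradSpan I (comb (Fin.cons x u : Fin (k + 1) → (ρ → ℂ)) z)) ∧
      ∀ z ≠ 0, LinearIndependent ℂ (fun i => rowEval z (Ψ i)) := by
  choose r hr hr0 hrE using fun i => hU.exists_ext (hw.2.1 i)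
  have hk : 0 < k := by have := hU.hk; omega
  refine ⟨fun i => bigRow (f i) (r i), fun i => homRow_bigRow _ (hr i), ?_, ?_⟩
  · intro z hz i
    obtain ⟨v, hv, z', hz', hc, hrow⟩ := exists_line_point hk hz x u
    rw [hrow _ _ (hr i), hc]
    exact hrE i v hv z' hz'
  · intro z hz
    obtain ⟨v, hv, z', hz', hc, hrow⟩ := exists_line_point hk hz x u
    have h1 : (fun i => rowEval z (bigRow (f i) (r i))) = fun i =>
        rowEval z' (arr (f i + 1) (fun p : Fin (f i + 1) × ρ => eval v (r i p.1 p.2))) :=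
      funext fun i => hrow _ _ (hr i)
    rw [h1]
    refine li_of_adapted (isBundle_El I x u (hU.line v hv)) w f hw.1 ?_ _
      (fun i => homRow_arr (f i + 1) _) (fun i => hrE i v hv) ?_ z' hz'
    · intro e y hy
      rw [hU.wsp v hv] at hy
      exact hw.2.2 e y hy
    · intro i
      rw [rowEval_arr_pt _ (Nat.succ_pos _)]
      funext b
      show eval v (r i 0 b) = w i b
      rw [hr0 i b, eval_C]

end Split

end Pool.Agent.Hartshorne
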