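import Mathlib
import Pool.Agent.Hartshorne.SplitL

/-!
The constant filtration at a point, and uniform splitting on linear spaces through the point.
-/

namespace Pool.Agent.Hartshorne

open MvPolynomial

set_option linter.unusedSectionVars false

section WspComp

variable {τ : Type*} [Fintype τ]

lemma Wsp_comp_le (E : (Fin 2 → ℂ) → Submodule ℂ (τ → ℂ)) (Θ : (Fin 2 → ℂ) ≃ₗ[ℂ] (Fin 2 → ℂ))
    (hΘ : Θ (pt 0) = pt 0) (e : ℕ) : Wsp (fun z => E (Θ z)) e ≤ Wsp E e := by
  rintro _ ⟨r, hr, hrE, rfl⟩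
  have hrow : ∀ z, rowEval z (fun b => lsub (Θ.symm : (Fin 2 → ℂ) →ₗ[ℂ] (Fin 2 → ℂ)) (r b)) =
      rowEval (Θ.symm z) r := by
    intro z
    funext b
    rw [rowEval_apply, eval_lsub]
    rfl
  refine ⟨fun b => lsub (Θ.symm : (Fin 2 → ℂ) →ₗ[ℂ] (Fin 2 → ℂ)) (r b),
    fun b => isHomogeneous_lsub _ _ _ (hr b), ?_, ?_⟩
  · intro z hz
    rw [hrow]
    have h1 : Θ.symm z ≠ 0 := by
      intro h
      exact hz ((LinearEquiv.map_eq_zero_iff _).mp h)
    have h2 : rowEval (Θ.symm z) r ∈ E (Θ (Θ.symm z)) := hrE _ h1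
    rwa [LinearEquiv.apply_symm_apply] at h2
  · rw [hrow]
    congr 1
    rw [LinearEquiv.symm_apply_eq, hΘ]

lemma Wsp_comp (E : (Fin 2 → ℂ) → Submodule ℂ (τ → ℂ)) (Θ : (Fin 2 → ℂ) ≃ₗ[ℂ] (Fin 2 → ℂ))
    (hΘ : Θ (pt 0) = pt 0) (e : ℕ) : Wsp (fun z => E (Θ z)) e = Wsp E e := by
  apply le_antisymm (Wsp_comp_le E Θ hΘ e)
  have h1 := Wsp_comp_le (fun z => E (Θ z)) Θ.symm (by rw [LinearEquiv.symm_apply_eq, hΘ]) e
  simp only [LinearEquiv.apply_symm_apply] at h1
  exact h1

/-- The shear. -/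
noncomputable def shear (a : ℂ) : (Fin 2 → ℂ) ≃ₗ[ℂ] (Fin 2 → ℂ) :=
  LinearEquiv.ofLinearMap
    { toFun := fun z => ![z 0 + a * z 1, z 1]
      map_add' := by
        intro x y; funext i
        rcases fin2_cases i with rfl | rfl
        · simp; ring
        · simp
      map_smul' := by
        intro t x; funext i
        rcases fin2_cases i with rfl | rfl
        · simp; ring
        · simp }
    { toFun := fun z => ![z 0 - a * z 1, z 1]
      map_add' := by
        intro x y; funext i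
        rcases fin2_cases i with rfl | rfl
        · simp; ring
        · simp
      map_smul' := by
        intro t x; funext i
        rcases fin2_cases i with rfl | rfl
        · simp; ring
        · simp }
    (by
      apply LinearMap.ext
      intro z; funext i
      rcases fin2_cases i with rfl | rfl
      · simp
      · simp)
    (by
      apply LinearMap.ext
      intro z; funext i
      rcases fin2_cases i with rfl | rfl
      · simp
      · simp)

lemma shear_apply (a : ℂ) (z : Fin 2 → ℂ) : shear a z = ![z 0 + a * z 1, z 1] := rfl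

lemma shear_pt (a : ℂ) : shear a (pt 0) = pt 0 := by
  rw [shear_apply]
  funext i
  rcases fin2_cases i with rfl | rfl <;> simp [pt]

end WspComp

section Basis

lemma extend_li {V : Type*} [AddCommGroup V] [Module ℂ V] [Module.Finite ℂ V] {k : ℕ}
    (v : Fin k → V) (hv : LinearIndependent ℂ v) (m : ℕ) (hm : k + m ≤ Module.finrank ℂ V) :
    ∃ v' : Fin (k + m) → V, LinearIndependent ℂ v' ∧
      ∀ i : Fin k, v' (Fin.castAdd m i) = v i := by
  induction m with
  | zero => exact ⟨v, hv, fun _ => rfl⟩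
  | succ m ih =>
    obtain ⟨v', hv', hv'v⟩ := ih (by omega)
    obtain ⟨x, hx⟩ := exists_linearIndependent_snoc_of_lt_finrank hv' (by omega)
    refine ⟨Fin.snoc v' x, hx, fun i => ?_⟩
    rw [← hv'v i]
    have h1 : (Fin.castAdd (m + 1) i : Fin (k + (m + 1))) = Fin.castSucc (Fin.castAdd m i) := rfl
    rw [h1]
    exact Fin.snoc_castSucc (α := fun _ => V) x v' _

variable {ρ : Type*} [Fintype ρ] [DecidableEq ρ]

lemma exists_basis_cons (Λ : Submodule ℂ (ρ → ℂ)) {x : ρ → ℂ} (hx : x ∈ Λ) (hx0 : x ≠ 0)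
    {n : ℕ} (hn : n + 1 = Module.finrank ℂ Λ) :
    ∃ u : Fin n → (ρ → ℂ), (∀ i, u i ∈ Λ) ∧
      LinearIndependent ℂ (Fin.cons x u : Fin (n + 1) → (ρ → ℂ)) ∧
      ∀ w ∈ Λ, ∃ (a : ℂ) (v : Fin n → ℂ), w = a • x + comb u v := by
  have hx0' : (⟨x, hx⟩ : Λ) ≠ 0 := by
    intro h
    exact hx0 (congrArg Subtype.val h)
  have hli : LinearIndependent ℂ (fun _ : Fin 1 => (⟨x, hx⟩ : Λ)) := by
    rw [Fintype.linearIndependent_iff]
    intro g hg i
    rw [Fin.sum_univ_one, smul_eq_zero] at hg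
    rw [Subsingleton.elim i 0]
    exact hg.resolve_right hx0'
  obtain ⟨v', hv', hv'x⟩ := extend_li _ hli n (by omega)
  have hli2 : LinearIndependent ℂ (fun i => (v' i : ρ → ℂ)) :=
    hv'.map' Λ.subtype (LinearMap.ker_eq_bot.mpr Subtype.val_injective)
  set v'' : Fin (n + 1) → (ρ → ℂ) := fun i => v' (Fin.cast (by omega) i) with hv''
  have hli3 : LinearIndependent ℂ v'' :=
    hli2.comp (Fin.cast (show n + 1 = 1 + n by omega)) (Fin.cast_injective _)
  have h0 : v'' 0 = x := by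
    have h1 := hv'x 0
    rw [hv'']
    simp only
    have h2 : (Fin.cast (show n + 1 = 1 + n by omega) 0 : Fin (1 + n)) = Fin.castAdd n 0 := by
      apply Fin.ext; rfl
    rw [h2, h1]
  have hcons : (Fin.cons x (Fin.tail v'') : Fin (n + 1) → (ρ → ℂ)) = v'' := by
    rw [← h0]
    exact Fin.cons_self_tail v''
  refine ⟨Fin.tail v'', fun i => (v' _).2, by rw [hcons]; exact hli3, ?_⟩
  intro w hw
  have hspan : Submodule.span ℂ (Set.range v'') = Λ := by
    apply Submodule.eq_of_le_of_finrank_eq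
    · rw [Submodule.span_le]
      rintro _ ⟨i, rfl⟩
      exact (v' _).2
    · rw [finrank_span_eq_card hli3, Fintype.card_fin, hn]
  rw [← hspan] at hw
  obtain ⟨a, ha⟩ := (Submodule.mem_span_range_iff_exists_fun _).mp hw
  refine ⟨a 0, Fin.tail a, ?_⟩
  rw [← ha, Fin.sum_univ_succ, h0, comb_apply]
  rfl

end Basis

section Filtration

variable {ρ : Type*} [Fintype ρ] [DecidableEq ρ] {c d D : ℕ} {I : Ideal (MvPolynomial ρ ℂ)}
  {Λ : Submodule ℂ (ρ → ℂ)}

/-- The general setting. -/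
structure Setup (I : Ideal (MvPolynomial ρ ℂ)) (c D : ℕ) (Λ : Submodule ℂ (ρ → ℂ)) : Prop where
  hD : 0 < D
  hI : I.IsPrime
  hhom : ∀ f ∈ I, ∀ e, homogeneousComponent e f ∈ I
  hdim : ((Fintype.card ρ : ℕ) : WithBot ℕ∞) ≤
      ringKrullDim (MvPolynomial ρ ℂ ⧸ I) + (c : WithBot ℕ∞)
  good : ∀ p ∈ Λ, p ≠ 0 → (∀ h ∈ I, eval p h = 0) → GoodPt I c D p

/-- A base point with a frame. -/
structure Base (I : Ideal (MvPolynomial ρ ℂ)) (c d : ℕ) (Λ : Submodule ℂ (ρ → ℂ)) (x : ρ → ℂ)
    (F : Fin c → MvPolynomial ρ ℂ) : Prop where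
  hd : 0 < d
  hxΛ : x ∈ Λ
  hx0 : x ≠ 0
  hxI : ∀ h ∈ I, eval x h = 0
  hF : ∀ i, F i ∈ I ∧ (F i).IsHomogeneous d
  hli : LinearIndependent ℂ (fun i => grad x (F i))

variable {x : ρ → ℂ} {F : Fin c → MvPolynomial ρ ℂ}

lemma comb_ln_one (x w : ρ → ℂ) : comb (ln x w) (pt 0) = x := by
  rw [comb_ln]
  simp [pt]

lemma Base.line_van (hS : Setup I c D Λ) (hB : Base I c d Λ x F) {w : ρ → ℂ}
    (hF : ∀ i z, eval (comb (ln x w) z) (F i) = 0) :
    ∀ z, ∀ h ∈ I, eval (comb (ln x w) z) h = 0 :=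
  vanish_on I hS.hI hS.hdim (ln x w) (pt 0) (by rw [comb_ln_one]; exact hB.hxI) F
    (fun i => (hB.hF i).1) (by rw [comb_ln_one]; exact hB.hli) hF

lemma Base.fr (hS : Setup I c D Λ) (hB : Base I c d Λ x F) :
    Module.finrank ℂ (gradSpan I x) = c := (hS.good x hB.hxΛ hB.hx0 hB.hxI).2

lemma Base.vertex (hS : Setup I c D Λ) (hB : Base I c d Λ x F) : Vertex I x c d F :=
  ⟨hB.hd, hB.hF, hB.hli, hB.fr hS⟩

lemma ne_zero_of_li_cons {k : ℕ} {u : Fin k → (ρ → ℂ)}
    (hli : LinearIndependent ℂ (Fin.cons x u : Fin (k + 1) → (ρ → ℂ))) {v : Fin k → ℂ}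
    (hv : v ≠ 0) {z : Fin 2 → ℂ} (hz : z ≠ 0) : comb (pl x u v) z ≠ 0 := by
  have h1 : comb (pl x u v) z =
      comb (Fin.cons x u : Fin (k + 1) → (ρ → ℂ)) (Fin.cons (z 0) (z 1 • v)) := by
    rw [comb_cons, comb_pl, map_smul]
  rw [h1]
  apply comb_ne_zero hli
  intro h
  have h2 : z 0 = 0 := by
    have := congrFun h 0
    simpa using this
  have h3 : z 1 • v = 0 := by
    funext i
    have := congrFun h i.succ
    simpa using this
  rcases smul_eq_zero.mp h3 with h4 | h4
  · apply hz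
    funext i
    rcases fin2_cases i with rfl | rfl
    · exact h2
    · exact h4
  · exact hv h4

/-- The pencil at the base point. -/
theorem Base.pencil (hS : Setup I c D Λ) (hB : Base I c d Λ x F) {n : ℕ} (u : Fin n → (ρ → ℂ))
    (hu : ∀ i, u i ∈ Λ) (hli : LinearIndependent ℂ (Fin.cons x u : Fin (n + 1) → (ρ → ℂ))) :
    Pencil I x u c d D F (yEq x u F d) where
  vertex := hB.vertex hS
  hD := hS.hD
  hy := yEq_hom x u F
  good := by
    intro v hv0 hv z hz
    have hFl : ∀ i z, eval (comb (ln x (comb u v)) z) (F i) = 0 := by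
      intro i
      exact (pencil_iff x u (hB.hF i).2 (hB.hxI _ (hB.hF i).1) v).mp (fun j => hv (i, j))
    have hvan := hB.line_van hS hFl
    apply hS.good
    · rw [comb_pl]
      exact Λ.add_mem (Λ.smul_mem _ hB.hxΛ) (Λ.smul_mem _ (comb_mem hu v))
    · exact ne_zero_of_li_cons hli hv0 hz
    · exact hvan z

/-- The filtration of the gradient space at the base point is the same for all lines. -/
theorem Base.filtration (hS : Setup I c D Λ) (hB : Base I c d Λ x F)
    (hcard : 2 * (c * d) + c * (d - 1) + 1 < Module.finrank ℂ Λ) :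
    ∃ W : ℕ → Submodule ℂ (ρ → ℂ), ∀ w ∈ Λ, LinearIndependent ℂ (ln x w) →
      (∀ i z, eval (comb (ln x w) z) (F i) = 0) →
      ∀ e, Wsp (fun z => gradSpan I (comb (ln x w) z)) e = W e := by
  obtain ⟨n, hn⟩ : ∃ n, n + 1 = Module.finrank ℂ Λ := ⟨Module.finrank ℂ Λ - 1, by omega⟩
  obtain ⟨u, hu, hli, hdec⟩ := exists_basis_cons Λ hB.hxΛ hB.hx0 hn
  have hP := hB.pencil hS u hu hli
  -- reduction to the lines of the pencil
  have hred : ∀ w ∈ Λ, LinearIndependent ℂ (ln x w) →
      (∀ i z, eval (comb (ln x w) z) (F i) = 0) → ∃ v : Fin n → ℂ, v ≠ 0 ∧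
        (∀ p, eval v (yEq x u F d p) = 0) ∧
        ∀ e, Wsp (fun z => gradSpan I (comb (ln x w) z)) e = Wsp (El I x u v) e := by
    intro w hw hwli hwF
    obtain ⟨a, v, rfl⟩ := hdec w hw
    have hcomb : ∀ z, comb (ln x (a • x + comb u v)) z = comb (pl x u v) (shear a z) := by
      intro z
      rw [comb_ln, comb_pl, shear_apply]
      simp only [Matrix.cons_val_zero, Matrix.cons_val_one, smul_add, smul_smul, add_smul]
      rw [mul_comm (z 1) a, add_assoc]
    refine ⟨v, ?_, ?_, ?_⟩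
    · rintro rfl
      have h1 := Fintype.linearIndependent_iff.mp hwli ![-a, 1] (by
        rw [Fin.sum_univ_two]
        simp [ln]) 1
      simp at h1
    · intro p
      have h1 := (pencil_iff x u (hB.hF p.1).2 (hB.hxI _ (hB.hF p.1).1) v).mpr (by
        intro z
        have h2 := hwF p.1 ((shear a).symm z)
        rw [hcomb, LinearEquiv.apply_symm_apply] at h2
        exact h2)
      exact h1 p.2
    · intro e
      have h1 := Wsp_comp (El I x u v) (shear a) (shear_pt a) e
      rw [← h1]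
      congr 1
      funext z
      rw [hcomb]
      rfl
  by_cases hex : ∃ v : Fin n → ℂ, v ≠ 0 ∧ ∀ p, eval v (yEq x u F d p) = 0
  · obtain ⟨v₀, hv₀, hv₀y⟩ := hex
    refine ⟨fun e => Wsp (El I x u v₀) e, ?_⟩
    intro w hw hwli hwF e
    obtain ⟨v, hv, hvy, hWv⟩ := hred w hw hwli hwF
    rw [hWv e]
    exact hP.Wsp_const (by rw [Fintype.card_prod, Fintype.card_fin, Fintype.card_fin]; omega)
      hvy hv hv₀y hv₀ e
  · refine ⟨fun _ => ⊥, ?_⟩
    intro w hw hwli hwF e
    obtain ⟨v, hv, hvy, -⟩ := hred w hw hwli hwF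
    exact absurd ⟨v, hv, hvy⟩ hex

/-- **Uniform splitting on linear spaces through the base point.** -/
theorem Base.exists_split (hS : Setup I c D Λ) (hB : Base I c d Λ x F)
    (hcard : 2 * (c * d) + c * (d - 1) + 1 < Module.finrank ℂ Λ) :
    ∃ f : Fin c → ℕ, ∀ (k : ℕ) (e : Fin k → (ρ → ℂ)), 1 < k → (∀ i, e i ∈ Λ) →
      LinearIndependent ℂ (Fin.cons x e : Fin (k + 1) → (ρ → ℂ)) →
      (∀ i z, eval (comb (Fin.cons x e : Fin (k + 1) → (ρ → ℂ)) z) (F i) = 0) →
      (∀ i, f i < d) ∧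
      ∃ Ψ : Fin c → ρ → MvPolynomial (Fin (k + 1)) ℂ, (∀ i, HomRow (f i) (Ψ i)) ∧
        (∀ z ≠ 0, ∀ i, rowEval z (Ψ i) ∈
          gradSpan I (comb (Fin.cons x e : Fin (k + 1) → (ρ → ℂ)) z)) ∧
        ∀ z ≠ 0, LinearIndependent ℂ (fun i => rowEval z (Ψ i)) := by
  obtain ⟨W, hW⟩ := hB.filtration hS hcard
  by_cases hex : ∃ (w : Fin c → (ρ → ℂ)) (f : Fin c → ℕ), Adapted W w f ∧ ∀ i, f i < d
  · obtain ⟨w, f, hwf, hfd⟩ := hex
    refine ⟨f, ?_⟩
    intro k e hk he hli hF
    refine ⟨hfd, ?_⟩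
    have hP := hB.pencil hS e he hli
    have hFl : ∀ v : Fin k → ℂ, ∀ i z, eval (comb (ln x (comb e v)) z) (F i) = 0 := by
      intro v i z
      have h1 := hF i (Fin.cons (z 0) (z 1 • v))
      rw [comb_cons, map_smul] at h1
      rw [comb_ln]
      exact h1
    have hU : Uniform I x e c d D F W := by
      refine ⟨hk, hP.vertex, ?_, ?_⟩
      · intro v hv
        apply hP.good v hv
        intro p
        exact (pencil_iff x e (hB.hF p.1).2 (hB.hxI _ (hB.hF p.1).1) v).mpr (hFl v p.1) p.2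
      · intro v hv e'
        refine hW (comb e v) (comb_mem he v) ?_ (hFl v) e'
        rw [Fintype.linearIndependent_iff]
        intro g hg i
        rw [Fin.sum_univ_two] at hg
        by_contra hgi
        have h1 : g ≠ 0 := by
          rintro rfl
          exact hgi rfl
        apply ne_zero_of_li_cons hli hv h1
        rw [comb_pl]
        exact hg
    exact hU.split hwf
  · refine ⟨fun _ => 0, ?_⟩
    intro k e hk he hli hF
    exfalso
    apply hex
    -- a line
    have hP := hB.pencil hS e he hli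
    set v : Fin k → ℂ := Pi.single ⟨0, by omega⟩ 1 with hv
    have hv0 : v ≠ 0 := by
      intro h
      have h1 := congrFun h ⟨0, by omega⟩
      simp [hv] at h1
    have hFl : ∀ i z, eval (comb (ln x (comb e v)) z) (F i) = 0 := by
      intro i z
      have h1 := hF i (Fin.cons (z 0) (z 1 • v))
      rw [comb_cons, map_smul] at h1
      rw [comb_ln]
      exact h1
    have hgl : GoodLine I x e c D v := by
      apply hP.good v hv0
      intro p
      exact (pencil_iff x e (hB.hF p.1).2 (hB.hxI _ (hB.hF p.1).1) v).mpr (hFl p.1) p.2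
    have hWv : ∀ e', Wsp (El I x e v) e' = W e' := by
      intro e'
      refine hW (comb e v) (comb_mem he v) ?_ hFl e'
      rw [Fintype.linearIndependent_iff]
      intro g hg i
      rw [Fin.sum_univ_two] at hg
      by_contra hgi
      have h1 : g ≠ 0 := by
        rintro rfl
        exact hgi rfl
      apply ne_zero_of_li_cons hli hv0 h1
      rw [comb_pl]
      exact hg
    obtain ⟨w, f, hwli, hwW, hwspan⟩ := exists_adapted (isBundle_El I x e hgl)
    refine ⟨w, f, ⟨hwli, fun i => by rw [← hWv]; exact hwW i, fun e' y hy =>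
      hwspan e' y (by rw [hWv]; exact hy)⟩, ?_⟩
    intro i
    by_contra hfi
    have h1 : w i ∈ Wsp (El I x e v) (d - 1) := by
      rw [hP.vertex.Wsp_top e v le_rfl, ← El_pt_zero I x e v]
      exact Wsp_le _ _ (hwW i)
    obtain ⟨a, ha0, haw⟩ := hwspan _ _ h1
    have h2 := Fintype.linearIndependent_iff.mp hwli (fun j => a j - (Pi.single i 1 : Fin c → ℂ) j)
      (by
        simp only [sub_smul, Finset.sum_sub_distrib]
        rw [← haw, Finset.sum_eq_single i]
        · simp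
        · intro j _ hj
          rw [Pi.single_eq_of_ne hj, zero_smul]
        · intro h; exact absurd (Finset.mem_univ _) h) i
    rw [ha0 i (by have := hB.hd; omega), Pi.single_eq_same] at h2
    norm_num at h2

end Filtration

end Pool.Agent.Hartshorne
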