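import Mathlib
import Pool.Agent.Hartshorne.Chevalley

/-!
Regular sequences of forms in a polynomial ring, by hand.
-/

namespace Pool.Agent.Hartshorne

open MvPolynomial

set_option linter.unusedSectionVars false

section HI

variable {σ : Type*} [Fintype σ] [DecidableEq σ]

/-- Homogeneous ideals. -/
def HI (J : Ideal (MvPolynomial σ ℂ)) : Prop := ∀ f ∈ J, ∀ e, homogeneousComponent e f ∈ J

lemma HI.span {S : Set (MvPolynomial σ ℂ)} (hS : ∀ s ∈ S, ∃ e, s.IsHomogeneous e) :
    HI (Ideal.span S) := by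
  intro f hf
  refine Submodule.span_induction (p := fun f _ => ∀ e, homogeneousComponent e f ∈ Ideal.span S)
    ?_ ?_ ?_ ?_ hf
  · intro s hs e
    obtain ⟨e', he'⟩ := hS s hs
    rw [homogeneousComponent_of_mem he']
    split_ifs
    · exact Ideal.subset_span hs
    · exact Ideal.zero_mem _
  · intro e
    rw [map_zero]
    exact Ideal.zero_mem _
  · intro x y _ _ hx hy e
    rw [map_add]
    exact Ideal.add_mem _ (hx e) (hy e)
  · intro a x _ hx e
    rw [smul_eq_mul, ← sum_homogeneousComponent x, Finset.mul_sum, map_sum]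
    refine Ideal.sum_mem _ (fun j _ => ?_)
    rw [homogeneousComponent_mul_right (homogeneousComponent_isHomogeneous j x)]
    split_ifs
    · exact Ideal.mul_mem_left _ _ (hx j)
    · exact Ideal.zero_mem _

lemma HI.sup_span {J : Ideal (MvPolynomial σ ℂ)} (hJ : HI J) {g : MvPolynomial σ ℂ} {e : ℕ}
    (hg : g.IsHomogeneous e) {h : MvPolynomial σ ℂ} {D : ℕ} (hh : h.IsHomogeneous D)
    (hmem : h ∈ J ⊔ Ideal.span {g}) :
    ∃ a : MvPolynomial σ ℂ, a.IsHomogeneous (D - e) ∧ (D < e → a = 0) ∧ h - a * g ∈ J := by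
  obtain ⟨j, hj, b, hb, hjb⟩ := Submodule.mem_sup.mp hmem
  obtain ⟨a₀, rfl⟩ := Ideal.mem_span_singleton'.mp hb
  have h1 : h = homogeneousComponent D j +
      if e ≤ D then homogeneousComponent (D - e) a₀ * g else 0 := by
    rw [← homogeneousComponent_mul_right hg, ← map_add, hjb, homogeneousComponent_eq_self hh]
  by_cases he : e ≤ D
  · rw [if_pos he] at h1
    refine ⟨homogeneousComponent (D - e) a₀, homogeneousComponent_isHomogeneous _ _,
      fun h => absurd he (by omega), ?_⟩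
    have h2 : h - homogeneousComponent (D - e) a₀ * g = homogeneousComponent D j := by
      rw [sub_eq_iff_eq_add]
      exact h1
    rw [h2]
    exact hJ j hj D
  · rw [if_neg he, add_zero] at h1
    refine ⟨0, isHomogeneous_zero _ _ _, fun _ => rfl, ?_⟩
    rw [zero_mul, sub_zero, h1]
    exact hJ j hj D

/-- Nonzerodivisors modulo an ideal, tested on forms. -/
def NZ (J : Ideal (MvPolynomial σ ℂ)) (g : MvPolynomial σ ℂ) : Prop :=
  ∀ D, ∀ h : MvPolynomial σ ℂ, h.IsHomogeneous D → g * h ∈ J → h ∈ J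

lemma NZ.pow {J : Ideal (MvPolynomial σ ℂ)} {g : MvPolynomial σ ℂ} {e : ℕ}
    (hg : g.IsHomogeneous e) (hN : NZ J g) (K : ℕ) : NZ J (g ^ K) := by
  induction K with
  | zero =>
    intro D h _ hh
    rwa [pow_zero, one_mul] at hh
  | succ K ih =>
    intro D h hh hmem
    rw [pow_succ', mul_assoc] at hmem
    exact ih D h hh (hN _ _ ((hg.pow K).mul hh) hmem)

lemma NZ.descend {J : Ideal (MvPolynomial σ ℂ)} (hJ : HI J) {g x : MvPolynomial σ ℂ} {e : ℕ}
    (hg : g.IsHomogeneous e) (hx : x.IsHomogeneous 1) (hNx : NZ J x)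
    (hK : NZ (J ⊔ Ideal.span {x}) g) : NZ J g := by
  intro D
  induction D with
  | zero =>
    intro h hh hmem
    obtain ⟨a, -, ha0, ha⟩ := hJ.sup_span hx hh (hK 0 h hh (Ideal.mem_sup_left hmem))
    rw [ha0 (by omega), zero_mul, sub_zero] at ha
    exact ha
  | succ D ih =>
    intro h hh hmem
    obtain ⟨a, hahom, -, ha⟩ := hJ.sup_span hx hh (hK _ h hh (Ideal.mem_sup_left hmem))
    rw [Nat.add_sub_cancel] at hahom
    have h1 : x * (g * a) ∈ J := by
      have h2 : x * (g * a) = g * h - g * (h - a * x) := by ring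
      rw [h2]
      exact Ideal.sub_mem _ hmem (Ideal.mul_mem_left _ _ ha)
    have h2 : a ∈ J := ih a hahom (hNx _ _ (hg.mul hahom) h1)
    have h3 : h = (h - a * x) + a * x := by ring
    rw [h3]
    exact Ideal.add_mem _ ha (Ideal.mul_mem_right _ _ h2)

lemma NZ.swap {J : Ideal (MvPolynomial σ ℂ)} (hJ : HI J) {g x : MvPolynomial σ ℂ} {e : ℕ}
    (hg : g.IsHomogeneous e) (hx : x.IsHomogeneous 1) (hNx : NZ J x)
    (hK : NZ (J ⊔ Ideal.span {x}) g) : NZ (J ⊔ Ideal.span {g}) x := by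
  intro D h hh hmem
  obtain ⟨a, hahom, ha0, ha⟩ := hJ.sup_span hg (hx.mul hh) hmem
  have h1 : g * a ∈ J ⊔ Ideal.span {x} := by
    have h2 : g * a = -(x * h - a * g) + h * x := by ring
    rw [h2]
    exact Ideal.add_mem _ (Ideal.mem_sup_left (neg_mem ha))
      (Ideal.mem_sup_right (Ideal.mul_mem_left _ _ (Ideal.mem_span_singleton_self x)))
  obtain ⟨a', ha'hom, ha'0, ha'⟩ := hJ.sup_span hx hahom (hK _ _ hahom h1)
  have h2 : x * (h - a' * g) ∈ J := by
    have h3 : x * (h - a' * g) = (x * h - a * g) + (a - a' * x) * g := by ring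
    rw [h3]
    exact Ideal.add_mem _ ha (Ideal.mul_mem_right _ _ ha')
  have h3 : (h - a' * g).IsHomogeneous D := by
    by_cases hDe : e ≤ D
    · refine hh.sub ?_
      have h4 := ha'hom.mul hg
      have h5 : 1 + D - e - 1 + e = D := by omega
      rwa [h5] at h4
    · rw [ha'0 (by omega), zero_mul, sub_zero]
      exact hh
  have h4 := hNx _ _ h3 h2
  have h5 : h = (h - a' * g) + a' * g := by ring
  rw [h5]
  exact Ideal.add_mem _ (Ideal.mem_sup_left h4)
    (Ideal.mem_sup_right (Ideal.mul_mem_left _ _ (Ideal.mem_span_singleton_self g)))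

lemma NZ.of_pow {J : Ideal (MvPolynomial σ ℂ)} {g x : MvPolynomial σ ℂ}
    (hx : x.IsHomogeneous 1) (hNx : NZ J x) {K : ℕ} (hK : x ^ K ∈ J ⊔ Ideal.span {g}) :
    NZ J g := by
  intro D h hh hmem
  obtain ⟨j, hj, b, hb, hjb⟩ := Submodule.mem_sup.mp hK
  obtain ⟨a, rfl⟩ := Ideal.mem_span_singleton'.mp hb
  refine hNx.pow hx K D h hh ?_
  rw [← hjb, add_mul, mul_assoc]
  exact Ideal.add_mem _ (Ideal.mul_mem_right _ _ hj) (Ideal.mul_mem_left _ _ hmem)

lemma exists_pow_mem (J : Ideal (MvPolynomial σ ℂ))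
    (h : ∀ z : σ → ℂ, (∀ f ∈ J, eval z f = 0) → z = 0) (j : σ) : ∃ K, X j ^ K ∈ J := by
  have h1 : X j ∈ J.radical := by
    rw [← vanishingIdeal_zeroLocus_eq_radical (K := ℂ), mem_vanishingIdeal_iff]
    intro z hz
    rw [mem_zeroLocus_iff] at hz
    rw [aeval_eq_eval, eval_X, h z (fun f hf => by
      have := hz f hf
      rwa [aeval_eq_eval] at this)]
    rfl
  exact h1

end HI

section Flag

variable {n : ℕ}

/-- The ideal generated by the last variables and the first forms. -/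
noncomputable def Jt (G : ℕ → MvPolynomial (Fin n) ℂ) (t q : ℕ) : Ideal (MvPolynomial (Fin n) ℂ) :=
  Ideal.span (X '' {j : Fin n | t ≤ j} ∪ G '' Set.Iio q)

variable {G : ℕ → MvPolynomial (Fin n) ℂ}

lemma Jt_X (t q : ℕ) (ht : t < n) :
    Jt G t q = Jt G (t + 1) q ⊔ Ideal.span {X (⟨t, ht⟩ : Fin n)} := by
  rw [Jt, Jt, ← Ideal.span_union]
  congr 1
  have h1 : {j : Fin n | t ≤ j} = {j : Fin n | t + 1 ≤ j} ∪ {⟨t, ht⟩} := by
    ext j
    simp only [Set.mem_ofPred_eq, Set.mem_union, Set.mem_singleton_iff, Fin.ext_iff]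
    omega
  rw [h1, Set.image_union, Set.image_singleton]
  ext x
  simp only [Set.mem_union]
  tauto

lemma Jt_G (t q : ℕ) : Jt G t (q + 1) = Jt G t q ⊔ Ideal.span {G q} := by
  rw [Jt, Jt, ← Ideal.span_union]
  congr 1
  have h1 : Set.Iio (q + 1) = Set.Iio q ∪ {q} := by
    ext j
    simp only [Set.mem_Iio, Set.mem_union, Set.mem_singleton_iff]
    omega
  rw [h1, Set.image_union, Set.image_singleton, Set.union_assoc]

lemma Jt_HI {e : ℕ → ℕ} (hG : ∀ i, (G i).IsHomogeneous (e i)) (t q : ℕ) : HI (Jt G t q) := by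
  apply HI.span
  rintro s (⟨j, -, rfl⟩ | ⟨i, -, rfl⟩)
  · exact ⟨1, isHomogeneous_X _ _⟩
  · exact ⟨e i, hG i⟩

lemma N_zero (t : ℕ) (ht : t < n) : NZ (Jt G (t + 1) 0) (X (⟨t, ht⟩ : Fin n)) := by
  have h0 : Jt G (t + 1) 0 = Ideal.span (X '' {j : Fin n | t + 1 ≤ j}) := by
    rw [Jt]
    have : Set.Iio 0 = (∅ : Set ℕ) := by
      ext j; simp
    rw [this, Set.image_empty, Set.union_empty]
  intro D h _ hmem
  rw [h0, mem_ideal_span_X_image] at hmem ⊢
  intro m hm
  obtain ⟨i, hi, hmi⟩ := hmem (Finsupp.single ⟨t, ht⟩ 1 + m) (by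
    rw [mem_support_iff, coeff_X_mul]
    exact mem_support_iff.mp hm)
  refine ⟨i, hi, ?_⟩
  have hne : (⟨t, ht⟩ : Fin n) ≠ i := by
    intro h
    have h1 : t + 1 ≤ (i : ℕ) := hi
    rw [← h] at h1
    simp at h1
  rwa [Finsupp.add_apply, Finsupp.single_eq_of_ne (by exact fun h => hne h.symm), zero_add] at hmi

theorem nz_main {e : ℕ → ℕ} (hG : ∀ i, (G i).IsHomogeneous (e i)) {c : ℕ} (hcn : c < n)
    (hV : ∀ q, q ≤ c → ∀ z : Fin n → ℂ, (∀ j : Fin n, q ≤ j → z j = 0) →
      (∀ i < q, eval z (G i) = 0) → z = 0) :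
    ∀ q, q ≤ c → ∀ t (ht : t < n), q ≤ t → NZ (Jt G (t + 1) q) (X (⟨t, ht⟩ : Fin n)) := by
  intro q
  induction q with
  | zero => intro _ t ht _; exact N_zero t ht
  | succ q ih =>
    intro hq
    have hN := ih (by omega)
    have hK : ∀ t, q + 1 ≤ t → t ≤ n → NZ (Jt G t q) (G q) := by
      intro t hqt
      induction t, hqt using Nat.le_induction with
      | base =>
        intro hqn
        have h1 := hN q (by omega) le_rfl
        obtain ⟨K, hK⟩ := exists_pow_mem (Jt G (q + 1) (q + 1)) (by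
          intro z hz
          refine hV (q + 1) hq z ?_ ?_
          · intro j hj
            have h2 := hz (X j) (Ideal.subset_span (Or.inl ⟨j, hj, rfl⟩))
            rwa [eval_X] at h2
          · intro i hi
            exact hz (G i) (Ideal.subset_span (Or.inr ⟨i, hi, rfl⟩))) ⟨q, by omega⟩
        rw [Jt_G] at hK
        exact NZ.of_pow (isHomogeneous_X _ _) h1 hK
      | succ t hqt iht =>
        intro htn
        have h1 := iht (by omega)
        rw [Jt_X t q (by omega)] at h1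
        exact NZ.descend (Jt_HI hG _ _) (hG q) (isHomogeneous_X _ _) (hN t (by omega) (by omega)) h1
    intro t ht hqt
    have h1 := hK t hqt ht.le
    rw [Jt_X t q ht] at h1
    rw [Jt_G]
    exact NZ.swap (Jt_HI hG _ _) (hG q) (isHomogeneous_X _ _) (hN t ht (by omega)) h1

theorem S_main {e : ℕ → ℕ} (hG : ∀ i, (G i).IsHomogeneous (e i)) {c : ℕ} (hcn : c < n)
    (hV : ∀ q, q ≤ c → ∀ z : Fin n → ℂ, (∀ j : Fin n, q ≤ j → z j = 0) →
      (∀ i < q, eval z (G i) = 0) → z = 0)
    (b : Ideal (MvPolynomial (Fin n) ℂ)) (hb : HI b)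
    (hVb : ∀ z : Fin n → ℂ, (∀ j : Fin n, c + 1 ≤ j → z j = 0) → (∀ h ∈ b, eval z h = 0) → z = 0)
    (t : ℕ) (hct : c + 1 ≤ t) (htn : t ≤ n) :
    ∀ D, ∀ h : MvPolynomial (Fin n) ℂ, h.IsHomogeneous D →
      (∀ a ∈ b, ∀ e, a.IsHomogeneous e → a * h ∈ Jt G t c) → h ∈ Jt G t c := by
  have hN := nz_main hG hcn hV c le_rfl
  induction t, hct using Nat.le_induction with
  | base =>
    intro D h hh hmem
    obtain ⟨K, hK⟩ := exists_pow_mem (b ⊔ Jt G (c + 1) c) (by
      intro z hz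
      refine hVb z ?_ (fun h hh => hz h (Ideal.mem_sup_left hh))
      intro j hj
      have h2 := hz (X j) (Ideal.mem_sup_right (Ideal.subset_span (Or.inl ⟨j, hj, rfl⟩)))
      rwa [eval_X] at h2) ⟨c, hcn⟩
    obtain ⟨a, ha, j, hj, haj⟩ := Submodule.mem_sup.mp hK
    have h1 : (X (⟨c, hcn⟩ : Fin n) ^ K : MvPolynomial (Fin n) ℂ) =
        homogeneousComponent K a + homogeneousComponent K j := by
      rw [← map_add, haj]
      have h2 : ((X (⟨c, hcn⟩ : Fin n) : MvPolynomial (Fin n) ℂ) ^ K).IsHomogeneous K := by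
        have := (isHomogeneous_X ℂ (⟨c, hcn⟩ : Fin n)).pow K
        rwa [one_mul] at this
      rw [homogeneousComponent_eq_self h2]
    refine (hN c hcn le_rfl).pow (isHomogeneous_X _ _) K D h hh ?_
    rw [h1, add_mul]
    exact Ideal.add_mem _ (hmem _ (hb a ha K) K (homogeneousComponent_isHomogeneous _ _))
      (Ideal.mul_mem_right _ _ (Jt_HI hG _ _ j hj K))
  | succ t hct iht =>
    have ih2 := iht (by omega)
    have hx : (X (⟨t, by omega⟩ : Fin n) : MvPolynomial (Fin n) ℂ).IsHomogeneous 1 :=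
      isHomogeneous_X _ _
    have hNt := hN t (by omega) (by omega)
    have hJ := Jt_HI hG (t + 1) c
    rw [Jt_X t c (by omega)] at ih2
    intro D
    induction D with
    | zero =>
      intro h hh hmem
      obtain ⟨a, -, ha0, ha⟩ := hJ.sup_span hx hh
        (ih2 0 h hh (fun a ha e he => Ideal.mem_sup_left (hmem a ha e he)))
      rw [ha0 (by omega), zero_mul, sub_zero] at ha
      exact ha
    | succ D ihD =>
      intro h hh hmem
      obtain ⟨a, hahom, -, ha⟩ := hJ.sup_span hx hh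
        (ih2 _ h hh (fun a ha e he => Ideal.mem_sup_left (hmem a ha e he)))
      rw [Nat.add_sub_cancel] at hahom
      have h2 : a ∈ Jt G (t + 1) c := by
        refine ihD a hahom (fun u hu e he => ?_)
        refine hNt _ _ (he.mul hahom) ?_
        have h3 : X (⟨t, by omega⟩ : Fin n) * (u * a) =
            u * h - u * (h - a * X (⟨t, by omega⟩ : Fin n)) := by ring
        rw [h3]
        exact Ideal.sub_mem _ (hmem u hu e he) (Ideal.mul_mem_left _ _ ha)
      have h3 : h = (h - a * X (⟨t, by omega⟩ : Fin n)) + a * X (⟨t, by omega⟩ : Fin n) := by ring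
      rw [h3]
      exact Ideal.add_mem _ ha (Ideal.mul_mem_right _ _ h2)

/-- The annihilator of `I` modulo `K`. -/
noncomputable def colonI (K I : Ideal (MvPolynomial (Fin n) ℂ)) : Ideal (MvPolynomial (Fin n) ℂ) where
  carrier := {b | ∀ h ∈ I, b * h ∈ K}
  add_mem' := by
    intro a b ha hb h hh
    rw [add_mul]
    exact K.add_mem (ha h hh) (hb h hh)
  zero_mem' := by
    intro h _
    rw [zero_mul]
    exact K.zero_mem
  smul_mem' := by
    intro r a ha h hh
    rw [smul_eq_mul, mul_assoc]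
    exact K.mul_mem_left _ (ha h hh)

lemma colonI_HI {K I : Ideal (MvPolynomial (Fin n) ℂ)} (hK : HI K) (hI : HI I) :
    HI (colonI K I) := by
  intro b hb e h hh
  rw [← sum_homogeneousComponent h, Finset.mul_sum]
  refine Ideal.sum_mem _ (fun j _ => ?_)
  have h1 := hK _ (hb _ (hI h hh j)) (e + j)
  rw [homogeneousComponent_mul_right (homogeneousComponent_isHomogeneous j h),
    if_pos (by omega), Nat.add_sub_cancel] at h1
  exact h1

/-- **Unmixedness.** -/
theorem le_span_of_flag {c : ℕ} (hcn : c < n) (G : Fin c → MvPolynomial (Fin n) ℂ) (e : Fin c → ℕ)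
    (hG : ∀ i, (G i).IsHomogeneous (e i)) (I : Ideal (MvPolynomial (Fin n) ℂ)) (hI : HI I)
    (hV : ∀ q, q ≤ c → ∀ z : Fin n → ℂ, (∀ j : Fin n, q ≤ j → z j = 0) →
      (∀ i : Fin c, (i : ℕ) < q → eval z (G i) = 0) → z = 0)
    (hVb : ∀ z : Fin n → ℂ, (∀ j : Fin n, c + 1 ≤ j → z j = 0) →
      (∀ b, (∀ h ∈ I, b * h ∈ Ideal.span (Set.range G)) → eval z b = 0) → z = 0) :
    I ≤ Ideal.span (Set.range G) := by
  set G' : ℕ → MvPolynomial (Fin n) ℂ := fun i => if h : i < c then G ⟨i, h⟩ else 0 with hG'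
  set e' : ℕ → ℕ := fun i => if h : i < c then e ⟨i, h⟩ else 0 with he'
  have hG'h : ∀ i, (G' i).IsHomogeneous (e' i) := by
    intro i
    simp only [hG', he']
    split_ifs with h
    · exact hG _
    · exact isHomogeneous_zero _ _ _
  have hG'i : ∀ i : Fin c, G' i = G i := by
    intro i
    simp only [hG', i.2, dif_pos]
  have hspan : Jt G' n c = Ideal.span (Set.range G) := by
    rw [Jt]
    congr 1
    ext f
    constructor
    · rintro (⟨j, hj, rfl⟩ | ⟨i, hi, rfl⟩)
      · exact absurd j.2 (by have : n ≤ (j : ℕ) := hj; omega)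
      · exact ⟨⟨i, hi⟩, (hG'i ⟨i, hi⟩).symm⟩
    · rintro ⟨i, rfl⟩
      exact Or.inr ⟨i, i.2, hG'i i⟩
  intro h hh
  rw [← sum_homogeneousComponent h]
  refine Ideal.sum_mem _ (fun D _ => ?_)
  rw [← hspan]
  refine S_main hG'h hcn ?_ (colonI (Ideal.span (Set.range G)) I)
    (colonI_HI (HI.span (by rintro _ ⟨i, rfl⟩; exact ⟨e i, hG i⟩)) hI) ?_ n hcn le_rfl D _
    (homogeneousComponent_isHomogeneous _ _) ?_
  · intro q hq z hz hz2
    refine hV q hq z hz (fun i hi => ?_)
    rw [← hG'i]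
    exact hz2 _ hi
  · intro z hz hz2
    exact hVb z hz (fun b hb => hz2 b hb)
  · intro a ha e _
    rw [hspan]
    exact ha _ (hI h hh D)

end Flag

end Pool.Agent.Hartshorne
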