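import Mathlib
import Pool.Agent.Hartshorne.Fam
import Pool.Agent.Hartshorne.Hartogs
import Pool.Agent.Hartshorne.RegSeq

/-!
Local equations of the cone of lines.
-/

namespace Pool.Agent.Hartshorne

open MvPolynomial

set_option linter.unusedSectionVars false

section UnitMul

variable {σ : Type*} [Fintype σ] [DecidableEq σ]

/-- Division by a polynomial with nonzero constant term. -/
lemma HI.of_unit_mul {J : Ideal (MvPolynomial σ ℂ)} (hJ : HI J) {U H : MvPolynomial σ ℂ}
    (hU : eval 0 U ≠ 0) (h : U * H ∈ J) : H ∈ J := by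
  have key : ∀ k, homogeneousComponent k H ∈ J := by
    intro k
    induction k using Nat.strong_induction_on with
    | _ k ih =>
      by_cases hk : k ∈ Finset.range (H.totalDegree + 1)
      · have h1 := hJ _ h k
        have h2 : homogeneousComponent k (U * H) = ∑ j ∈ Finset.range (H.totalDegree + 1),
            (if j ≤ k then homogeneousComponent (k - j) U * homogeneousComponent j H else 0) := by
          conv_lhs => rw [← sum_homogeneousComponent H, Finset.mul_sum, map_sum]
          refine Finset.sum_congr rfl (fun j _ => ?_)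
          rw [homogeneousComponent_mul_right (homogeneousComponent_isHomogeneous j H)]
        rw [h2, ← Finset.add_sum_erase _ _ hk, if_pos le_rfl, Nat.sub_self] at h1
        have h3 : ∑ j ∈ (Finset.range (H.totalDegree + 1)).erase k,
            (if j ≤ k then homogeneousComponent (k - j) U * homogeneousComponent j H else 0) ∈
              J := by
          refine Ideal.sum_mem _ (fun j hj => ?_)
          split_ifs with hjk
          · exact Ideal.mul_mem_left _ _ (ih j (lt_of_le_of_ne hjk (Finset.ne_of_mem_erase hj)))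
          · exact Ideal.zero_mem _
        have h4 := Ideal.sub_mem _ h1 h3
        rw [add_sub_cancel_right, homogeneousComponent_zero, ← eval_zero_eq_coeff] at h4
        have h5 := J.mul_mem_left (C (eval 0 U)⁻¹) h4
        rwa [← mul_assoc, ← C_mul, inv_mul_cancel₀ hU, C_1, one_mul] at h5
      · rw [Finset.mem_range, not_lt] at hk
        rw [homogeneousComponent_eq_zero _ _ (by omega)]
        exact J.zero_mem
  rw [← sum_homogeneousComponent H]
  exact Ideal.sum_mem _ (fun k _ => key k)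

end UnitMul

section Affz

variable {ρ : Type*} [Fintype ρ] [DecidableEq ρ] {n : ℕ} (x : ρ → ℂ) (u : Fin n → (ρ → ℂ))

/-- Substitution of `z₀ x + z₁ u(v)`. -/
noncomputable def affz (z : Fin 2 → ℂ) : MvPolynomial ρ ℂ →ₐ[ℂ] MvPolynomial (Fin n) ℂ :=
  aff (z 0 • x) (fun i => z 1 • u i)

lemma eval_affz (z : Fin 2 → ℂ) (v : Fin n → ℂ) (h : MvPolynomial ρ ℂ) :
    eval v (affz x u z h) = eval (comb (pl x u v) z) h := by
  rw [affz, eval_aff, comb_pl]
  have h1 : comb (fun i => z 1 • u i) v = z 1 • comb u v := by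
    rw [comb_apply, comb_apply, Finset.smul_sum]
    refine Finset.sum_congr rfl (fun i _ => ?_)
    rw [smul_comm]
  rw [h1]

lemma affz_eq {h : MvPolynomial ρ ℂ} {e : ℕ} (hh : h.IsHomogeneous e) (z : Fin 2 → ℂ) :
    affz x u z h = ∑ j ∈ Finset.range (e + 1), C (z 0 ^ (e - j) * z 1 ^ j) * cf x u j h := by
  apply MvPolynomial.funext
  intro v
  have h1 := eval_line x u hh v z
  rw [eval_affz, pl, h1, map_sum]
  refine Finset.sum_congr rfl (fun j _ => ?_)
  rw [map_mul, eval_C]

/-- The ideal of all coefficient forms. -/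
noncomputable def allF {c : ℕ} (F : Fin c → MvPolynomial ρ ℂ) : Ideal (MvPolynomial (Fin n) ℂ) :=
  Ideal.span (Set.range fun p : Fin c × ℕ => cf x u p.2 (F p.1))

lemma cf_mem_allF {c : ℕ} (F : Fin c → MvPolynomial ρ ℂ) (i : Fin c) (j : ℕ) :
    cf x u j (F i) ∈ allF x u F := Ideal.subset_span ⟨(i, j), rfl⟩

lemma allF_HI {c : ℕ} (F : Fin c → MvPolynomial ρ ℂ) : HI (allF x u F) := by
  apply HI.span
  rintro _ ⟨p, rfl⟩
  exact ⟨_, cf_isHomogeneous x u _ _⟩

lemma aff_mem_allF {c : ℕ} (F : Fin c → MvPolynomial ρ ℂ) {h : MvPolynomial ρ ℂ}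
    (hgen : ∃ q, eval x q ≠ 0 ∧ q * h ∈ Ideal.span (Set.range F)) :
    aff x u h ∈ allF x u F := by
  obtain ⟨q, hq, hmem⟩ := hgen
  obtain ⟨t, ht⟩ := (Submodule.mem_span_range_iff_exists_fun _).mp hmem
  apply (allF_HI x u F).of_unit_mul (U := aff x u q)
  · rw [eval_aff, map_zero, add_zero]
    exact hq
  · rw [← map_mul, ← ht, map_sum]
    refine Ideal.sum_mem _ (fun i _ => ?_)
    rw [smul_eq_mul, map_mul]
    refine Ideal.mul_mem_left _ _ ?_
    rw [← sum_homogeneousComponent (aff x u (F i))]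
    exact Ideal.sum_mem _ (fun j _ => cf_mem_allF x u F i j)

lemma affz_mem_allF {c : ℕ} (F : Fin c → MvPolynomial ρ ℂ) {I : Ideal (MvPolynomial ρ ℂ)}
    (hhom : HI I)
    (hgen : ∀ h ∈ I, ∃ q, eval x q ≠ 0 ∧ q * h ∈ Ideal.span (Set.range F))
    {h : MvPolynomial ρ ℂ} (hh : h ∈ I) (z : Fin 2 → ℂ) : affz x u z h ∈ allF x u F := by
  rw [← sum_homogeneousComponent h, map_sum]
  refine Ideal.sum_mem _ (fun e _ => ?_)
  rw [affz_eq x u (homogeneousComponent_isHomogeneous e h)]
  refine Ideal.sum_mem _ (fun j _ => Ideal.mul_mem_left _ _ ?_)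
  exact allF_HI x u F _ (aff_mem_allF x u F (hgen _ (hhom h hh e))) j

/-- The value of a functional, as a binary form. -/
noncomputable def lamP (lam : MvPolynomial (Fin n) ℂ →ₗ[ℂ] ℂ) (e : ℕ) (h : MvPolynomial ρ ℂ) :
    MvPolynomial (Fin 2) ℂ :=
  ∑ j ∈ Finset.range (e + 1), C (lam (cf x u j h)) * (X 0 ^ (e - j) * X 1 ^ j)

lemma eval_lamP (lam : MvPolynomial (Fin n) ℂ →ₗ[ℂ] ℂ) {e : ℕ} {h : MvPolynomial ρ ℂ}
    (hh : h.IsHomogeneous e) (z : Fin 2 → ℂ) :
    eval z (lamP x u lam e h) = lam (affz x u z h) := by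
  rw [affz_eq x u hh, map_sum, lamP, map_sum]
  refine Finset.sum_congr rfl (fun j _ => ?_)
  have h1 : lam (C (z 0 ^ (e - j) * z 1 ^ j) * cf x u j h) =
      (z 0 ^ (e - j) * z 1 ^ j) * lam (cf x u j h) := by
    rw [← smul_eq_C_mul, map_smul, smul_eq_mul]
  rw [h1, map_mul, eval_C, map_mul, map_pow, map_pow, eval_X, eval_X]
  ring

end Affz

section Dehom

/-- Dehomogenization. -/
noncomputable def deh : MvPolynomial (Fin 2) ℂ →ₐ[ℂ] Polynomial ℂ :=
  aeval (![1, Polynomial.X] : Fin 2 → Polynomial ℂ)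

lemma eval_deh (t : ℂ) (g : MvPolynomial (Fin 2) ℂ) : (deh g).eval t = eval (pt t) g := by
  have h1 : (Polynomial.evalRingHom t).comp (deh : MvPolynomial (Fin 2) ℂ →+* Polynomial ℂ) =
      eval (pt t) := by
    apply MvPolynomial.ringHom_ext
    · intro a
      have : (deh : MvPolynomial (Fin 2) ℂ →ₐ[ℂ] Polynomial ℂ) (C a) = Polynomial.C a := by
        simp [deh]
      simp [this]
    · intro i
      rcases fin2_cases i with rfl | rfl
      · simp [deh, pt]
      · simp [deh, pt]
  exact DFunLike.congr_fun h1 g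

lemma deh_C_mul (a : ℂ) (k j : ℕ) :
    deh (C a * (X 0 ^ k * X 1 ^ j)) = Polynomial.C a * Polynomial.X ^ j := by
  simp [deh]

lemma natDegree_deh {g : MvPolynomial (Fin 2) ℂ} {N : ℕ} (hg : g.IsHomogeneous N) :
    (deh g).natDegree ≤ N := by
  rw [binary_form hg, map_sum]
  refine Polynomial.natDegree_sum_le_of_forall_le _ _ (fun j _ => ?_)
  rw [deh_C_mul]
  refine (Polynomial.natDegree_C_mul_X_pow_le _ _).trans ?_
  have := j.2
  omega

/-- The order argument. -/
lemma order_arg {c : ℕ} (f : Fin c → ℕ) (a : Fin c → Fin c → Polynomial ℂ)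
    (ha : ∀ i i', (a i i').coeff 0 = if i = i' then 1 else 0) (δ : Fin c → Polynomial ℂ)
    (hδ : ∀ i, (δ i).natDegree ≤ f i + 1)
    (hP : ∀ i, ∀ k ≤ f i + 1, (∑ i', a i i' * δ i').coeff k = 0) : ∀ i, δ i = 0 := by
  classical
  by_contra hcon
  push Not at hcon
  have hex : ∃ k, ∃ i, (δ i).coeff k ≠ 0 := by
    obtain ⟨i, hi⟩ := hcon
    refine ⟨(δ i).natDegree, i, ?_⟩
    rw [Polynomial.coeff_natDegree, Polynomial.leadingCoeff_ne_zero]
    exact hi
  set r := Nat.find hex with hr
  obtain ⟨i, hi⟩ := Nat.find_spec hex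
  have hmin : ∀ k < r, ∀ i, (δ i).coeff k = 0 := by
    intro k hk i
    by_contra hne
    exact Nat.find_min hex hk ⟨i, hne⟩
  have hrle : r ≤ f i + 1 := by
    refine le_trans ?_ (hδ i)
    exact Polynomial.le_natDegree_of_ne_zero hi
  have h1 := hP i r hrle
  rw [Polynomial.finsetSum_coeff] at h1
  have h2 : ∀ i', (a i i' * δ i').coeff r = (if i = i' then 1 else 0) * (δ i').coeff r := by
    intro i'
    rw [Polynomial.coeff_mul, Finset.sum_eq_single (0, r)]
    · rw [ha]
    · rintro ⟨p, q⟩ hpq hne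
      rw [Finset.HasAntidiagonal.mem_antidiagonal] at hpq
      have hq : q < r := by
        rcases Nat.eq_zero_or_pos p with h0 | h0
        · exfalso
          apply hne
          simp only at hpq
          rw [h0, zero_add] at hpq
          rw [h0, hpq]
        · simp only at hpq
          omega
      rw [hmin q hq, mul_zero]
    · intro h
      exact absurd (Finset.HasAntidiagonal.mem_antidiagonal.mpr (zero_add r)) h
  rw [Finset.sum_congr rfl (fun i' _ => h2 i')] at h1
  rw [Finset.sum_eq_single i] at h1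
  · rw [if_pos rfl, one_mul] at h1
    exact hi h1
  · intro i' _ hi'
    rw [if_neg (fun h => hi' h.symm), zero_mul]
  · intro h; exact absurd (Finset.mem_univ _) h

end Dehom

section Loc

variable {ρ : Type*} [Fintype ρ] [DecidableEq ρ] {c d D n : ℕ}

/-- Data for local equations of the cone of lines at a given line. -/
structure LocData (I : Ideal (MvPolynomial ρ ℂ)) (x : ρ → ℂ) (u : Fin n → (ρ → ℂ)) (c d D : ℕ)
    (F : Fin c → MvPolynomial ρ ℂ) (f : Fin c → ℕ) (v₁ : Fin n → ℂ)
    (ψ : Fin c → ρ → MvPolynomial (Fin 2) ℂ) (a : Fin c → Fin c → MvPolynomial (Fin 2) ℂ) :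
    Prop where
  hI : I.IsPrime
  hhom : HI I
  hdim : ((Fintype.card ρ : ℕ) : WithBot ℕ∞) ≤
      ringKrullDim (MvPolynomial ρ ℂ ⧸ I) + (c : WithBot ℕ∞)
  hD : 0 < D
  hx : ∀ h ∈ I, eval x h = 0
  hF : ∀ i, F i ∈ I ∧ (F i).IsHomogeneous d
  hli : LinearIndependent ℂ (fun i => grad x (F i))
  van : ∀ z, ∀ h ∈ I, eval (comb (pl x u v₁) z) h = 0
  good : GoodLine I x u c D v₁
  hψ : ∀ i, HomRow (f i) (ψ i)
  hψE : ∀ z ≠ 0, ∀ i, rowEval z (ψ i) ∈ gradSpan I (comb (pl x u v₁) z)
  ha : ∀ z i, grad (comb (pl x u v₁) z) (F i) = ∑ i', eval z (a i i') • rowEval z (ψ i')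
  ha1 : ∀ i i', eval (pt 0) (a i i') = if i = i' then 1 else 0

variable {I : Ideal (MvPolynomial ρ ℂ)} {x : ρ → ℂ} {u : Fin n → (ρ → ℂ)}
  {F : Fin c → MvPolynomial ρ ℂ} {f : Fin c → ℕ} {v₁ : Fin n → ℂ}
  {ψ : Fin c → ρ → MvPolynomial (Fin 2) ℂ} {a : Fin c → Fin c → MvPolynomial (Fin 2) ℂ}

lemma exists_grad_eq {D' : ℕ} {p : ρ → ℂ} (hg : GoodPt I c D' p) {w : ρ → ℂ}
    (hw : w ∈ gradSpan I p) : ∃ h ∈ I, h.IsHomogeneous D' ∧ grad p h = w := by
  obtain ⟨⟨g, hg1, hg2⟩, hfr⟩ := hg
  have h1 : Submodule.span ℂ (Set.range fun k => grad p (g k)) = gradSpan I p := by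
    apply Submodule.eq_of_le_of_finrank_eq
    · rw [Submodule.span_le]
      rintro _ ⟨i, rfl⟩
      exact grad_mem_gradSpan (hg1 i).1 p
    · rw [finrank_span_eq_card hg2, Fintype.card_fin, hfr]
  rw [← h1] at hw
  obtain ⟨t, ht⟩ := (Submodule.mem_span_range_iff_exists_fun _).mp hw
  refine ⟨∑ k, t k • g k, ?_, ?_, ?_⟩
  · refine Ideal.sum_mem _ (fun k _ => ?_)
    rw [smul_eq_C_mul]
    exact Ideal.mul_mem_left _ _ (hg1 k).1
  · refine IsHomogeneous.sum _ _ _ (fun k _ => ?_)
    rw [smul_eq_C_mul]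
    have h2 := (isHomogeneous_C ρ (t k)).mul (hg1 k).2
    rwa [zero_add] at h2
  · rw [map_sum, ← ht]
    exact Finset.sum_congr rfl (fun k _ => map_smul _ _ _)

theorem LocData.lam_zero (h : LocData I x u c d D F f v₁ ψ a)
    (lam : MvPolynomial (Fin n) ℂ →ₗ[ℂ] ℂ)
    (hlam1 : ∀ g b, eval v₁ g = 0 → b ∈ allF x u F → lam (g * b) = 0)
    (hlam2 : ∀ i, ∀ j ≤ f i, lam (cf x u (j + 1) (F i)) = 0) (i : Fin c) (j : ℕ) :
    lam (cf x u j (F i)) = 0 := by
  have hgen : ∀ g ∈ I, ∃ q, eval x q ≠ 0 ∧ q * g ∈ Ideal.span (Set.range F) := fun g hg =>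
    (point_case I h.hI x h.hx c F (fun i => (h.hF i).1) h.hli).2 h.hdim g hg
  have hmem : ∀ g ∈ I, ∀ z, affz x u z g ∈ allF x u F := fun g hg z =>
    affz_mem_allF x u F h.hhom hgen hg z
  -- multiplicativity
  have hmul : ∀ z g b, b ∈ I → lam (affz x u z (g * b)) =
      eval (comb (pl x u v₁) z) g * lam (affz x u z b) := by
    intro z g b hb
    have h1 : affz x u z (g * b) = (affz x u z g - C (eval (comb (pl x u v₁) z) g)) *
        affz x u z b + (eval (comb (pl x u v₁) z) g) • affz x u z b := by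
      rw [map_mul, smul_eq_C_mul]
      ring
    rw [h1, map_add, map_smul, smul_eq_mul, hlam1 _ _ _ (hmem b hb z), zero_add]
    rw [map_sub, eval_affz, eval_C, sub_self]
  -- gradients
  have hzero : ∀ z, z ≠ 0 → ∀ g ∈ I, grad (comb (pl x u v₁) z) g = 0 →
      lam (affz x u z g) = 0 := by
    intro z hz g hg hg0
    obtain ⟨⟨w, hw, hwli⟩, -⟩ := h.good z hz
    obtain ⟨q, hq, hqm⟩ := (point_case I h.hI (comb (pl x u v₁) z) (h.van z) c w
      (fun k => (hw k).1) hwli).2 h.hdim g hg
    obtain ⟨t, ht⟩ := (Submodule.mem_span_range_iff_exists_fun _).mp hqm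
    have h1 : ∑ k, eval (comb (pl x u v₁) z) (t k) • grad (comb (pl x u v₁) z) (w k) = 0 := by
      have h2 := congrArg (grad (comb (pl x u v₁) z)) ht
      rw [map_sum, grad_mul, hg0, smul_zero, zero_add, h.van z g hg, zero_smul] at h2
      rw [← h2]
      refine Finset.sum_congr rfl (fun k _ => ?_)
      rw [smul_eq_mul, grad_mul, h.van z (w k) (hw k).1, zero_smul, add_zero]
    have h2 := Fintype.linearIndependent_iff.mp hwli _ h1
    have h3 : eval (comb (pl x u v₁) z) q * lam (affz x u z g) = 0 := by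
      rw [← hmul z q g hg, ← ht, map_sum, map_sum]
      refine Finset.sum_eq_zero (fun k _ => ?_)
      rw [smul_eq_mul, hmul z _ _ (hw k).1, h2 k, zero_mul]
    exact (mul_eq_zero.mp h3).resolve_left hq
  -- the sections
  have hex : ∀ z, z ≠ 0 → ∀ i, ∃ g ∈ I, g.IsHomogeneous D ∧
      grad (comb (pl x u v₁) z) g = rowEval z (ψ i) := fun z hz i =>
    exists_grad_eq (h.good z hz) (h.hψE z hz i)
  classical
  set H : (Fin 2 → ℂ) → Fin c → MvPolynomial ρ ℂ := fun z i =>
    if hz : z ≠ 0 then (hex z hz i).choose else 0 with hH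
  have hHI : ∀ z i, H z i ∈ I := by
    intro z i
    simp only [hH]
    split_ifs with hz
    · exact (hex z hz i).choose_spec.1
    · exact I.zero_mem
  have hHD : ∀ z i, (H z i).IsHomogeneous D := by
    intro z i
    simp only [hH]
    split_ifs with hz
    · exact (hex z hz i).choose_spec.2.1
    · exact isHomogeneous_zero _ _ _
  have hHg : ∀ z, z ≠ 0 → ∀ i, grad (comb (pl x u v₁) z) (H z i) = rowEval z (ψ i) := by
    intro z hz i
    simp only [hH]
    rw [dif_pos hz]
    exact (hex z hz i).choose_spec.2.2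
  have hsub : ∀ g : MvPolynomial ρ ℂ, g ∈ I → ∀ t : ℂ, t • g ∈ I := by
    intro g hg t
    rw [smul_eq_C_mul]
    exact Ideal.mul_mem_left _ _ hg
  -- Hartogs
  have hhart : ∀ i, ∃ δ : MvPolynomial (Fin 2) ℂ, ∀ z, z ≠ 0 →
      lam (affz x u z (H z i)) = eval z δ := by
    intro i
    refine hartogs (by simp) _ ?_
    intro z₀ hz₀
    obtain ⟨⟨w, hw, hwli⟩, -⟩ := h.good z₀ hz₀
    obtain ⟨T, hT⟩ := exists_minor _ hwli
    set P : Fin c → ρ → MvPolynomial (Fin 2) ℂ := fun k => gRow (pl x u v₁) (w k) with hP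
    refine ⟨∑ k, (Matrix.cramer (Matrix.of fun i l => P i (T l)).transpose
      (fun l => ψ i (T l))) k * lamP x u lam D (w k), (Matrix.of fun i l => P i (T l)).det,
      ?_, ?_⟩
    · rw [eval_det]
      have h1 : (Matrix.of fun i l => eval z₀ (Matrix.of (fun i l => P i (T l)) i l)) =
          Matrix.of fun i l => grad (comb (pl x u v₁) z₀) (w i) (T l) := by
        ext i l
        rw [Matrix.of_apply, Matrix.of_apply, Matrix.of_apply, ← rowEval_gRow]
        rfl
      rw [h1]
      exact hT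
    · intro z hz _
      have h1 : mm (fun k => rowEval z (P k)) T (rowEval z (ψ i)) = 0 := by
        refine mm_of_mem (h.good z hz).2 _ (fun k => ?_) T (h.hψE z hz i)
        rw [hP]
        simp only [rowEval_gRow]
        exact grad_mem_gradSpan (hw k).1 _
      rw [← rowEval_minorMap, minorMap, rowEval_sub, rowEval_smul, rowEval_sum] at h1
      simp only [rowEval_smul] at h1
      have h2 : grad (comb (pl x u v₁) z) (eval z (Matrix.of fun i l => P i (T l)).det • H z i -
          ∑ k, eval z ((Matrix.cramer (Matrix.of fun i l => P i (T l)).transpose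
      (fun l => ψ i (T l))) k) • w k) = 0 := by
        rw [map_sub, map_smul, hHg z hz, map_sum, ← h1]
        congr 1
        refine Finset.sum_congr rfl (fun k _ => ?_)
        rw [map_smul, hP]
        simp only [rowEval_gRow]
      have h3 := hzero z hz _ (I.sub_mem (hsub _ (hHI z i) _)
        (Ideal.sum_mem _ (fun k _ => hsub _ (hw k).1 _))) h2
      rw [map_sub, map_smul, map_sum, map_sub, map_smul, map_sum, sub_eq_zero, smul_eq_mul] at h3
      rw [mul_comm, h3, map_sum]
      refine Finset.sum_congr rfl (fun k _ => ?_)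
      rw [map_smul, map_smul, smul_eq_mul, map_mul, eval_lamP x u lam (hw k).2]
  choose δ hδ using hhart
  -- homogeneity
  have hδh : ∀ i, (δ i).IsHomogeneous (f i + 1) := by
    intro i
    refine isHomogeneous_of_scaling (fun z hz t ht => ?_) 0
    have htz : t • z ≠ 0 := smul_ne_zero ht hz
    rw [← hδ i _ htz, ← hδ i z hz]
    have hcomb : comb (pl x u v₁) (t • z) = t • comb (pl x u v₁) z := map_smul _ _ _
    have h1 : grad (comb (pl x u v₁) (t • z)) (t ^ (D - 1) • H (t • z) i - t ^ f i • H z i) =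
        0 := by
      rw [map_sub, (grad (comb (pl x u v₁) (t • z))).map_smul,
        (grad (comb (pl x u v₁) (t • z))).map_smul, hHg _ htz]
      have h2 : grad (comb (pl x u v₁) (t • z)) (H z i) = t ^ (D - 1) • rowEval z (ψ i) := by
        rw [← hHg z hz i, hcomb]
        funext b
        rw [grad_apply, Pi.smul_apply, grad_apply, smul_eq_mul,
          eval_smul_of_isHomogeneous (hHD z i).pderiv]
      have h3 : rowEval (t • z) (ψ i) = t ^ f i • rowEval z (ψ i) := by
        funext b
        rw [rowEval_apply, Pi.smul_apply, rowEval_apply, smul_eq_mul,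
          eval_smul_of_isHomogeneous (h.hψ i b)]
      rw [h2, h3, smul_smul, smul_smul, mul_comm, sub_self]
    have h2 := hzero _ htz _ (I.sub_mem (hsub _ (hHI _ i) _) (hsub _ (hHI z i) _)) h1
    rw [map_sub, map_smul, map_smul, map_sub, map_smul, map_smul, smul_eq_mul, smul_eq_mul,
      sub_eq_zero] at h2
    have h3 : lam (affz x u (t • z) (H z i)) = t ^ D * lam (affz x u z (H z i)) := by
      have h4 : affz x u (t • z) (H z i) = t ^ D • affz x u z (H z i) := by
        apply MvPolynomial.funext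
        intro v
        rw [smul_eq_C_mul, map_mul, eval_C, eval_affz, eval_affz, map_smul,
          eval_smul_of_isHomogeneous (hHD z i)]
      rw [h4, map_smul, smul_eq_mul]
    rw [h3] at h2
    have hDpos := h.hD
    have h5 : t ^ (D - 1) * lam (affz x u (t • z) (H (t • z) i)) =
        t ^ (D - 1) * (t ^ (f i + 1) * lam (affz x u z (H z i))) := by
      rw [h2]
      have h6 : t ^ D = t ^ (D - 1) * t := by
        rw [← pow_succ, Nat.sub_add_cancel hDpos]
      rw [h6]
      ring
    exact mul_left_cancel₀ (pow_ne_zero _ ht) h5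
  -- the relation
  have hrel : ∀ i, lamP x u lam d (F i) = ∑ i', a i i' * δ i' := by
    intro i
    rw [← sub_eq_zero]
    apply eq_zero_of_eval (X_ne_zero (0 : Fin 2) : (X 0 : MvPolynomial (Fin 2) ℂ) ≠ 0)
    intro z hz
    have hz0 : z ≠ 0 := by
      rintro rfl
      rw [eval_X] at hz
      exact hz rfl
    rw [map_sub, eval_lamP x u lam (h.hF i).2, map_sum, sub_eq_zero]
    have h1 : grad (comb (pl x u v₁) z) (F i - ∑ i', eval z (a i i') • H z i') = 0 := by
      rw [map_sub, map_sum, h.ha, sub_eq_zero]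
      refine Finset.sum_congr rfl (fun i' _ => ?_)
      rw [map_smul, hHg z hz0]
    have h2 := hzero z hz0 _ (I.sub_mem (h.hF i).1
      (Ideal.sum_mem _ (fun i' _ => hsub _ (hHI z i') _))) h1
    rw [map_sub, map_sum, map_sub, map_sum, sub_eq_zero] at h2
    rw [h2]
    refine Finset.sum_congr rfl (fun i' _ => ?_)
    rw [map_smul, map_smul, smul_eq_mul, map_mul, hδ i' z hz0]
  -- coefficients
  have hcoeff : ∀ i k, (deh (lamP x u lam d (F i))).coeff k = lam (cf x u k (F i)) := by
    intro i k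
    rw [lamP, map_sum, Polynomial.finsetSum_coeff]
    simp only [deh_C_mul, Polynomial.coeff_C_mul_X_pow]
    rw [Finset.sum_ite_eq (Finset.range (d + 1)) k]
    split_ifs with hk
    · rfl
    · rw [Finset.mem_range, not_lt] at hk
      have h1 : cf x u k (F i) = 0 := by
        rw [cf]
        apply homogeneousComponent_eq_zero
        have h2 := totalDegree_aff_le x u (F i)
        have h3 := (h.hF i).2.totalDegree_le
        omega
      rw [h1, map_zero]
  have hδ0 : ∀ i, deh (δ i) = 0 := by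
    refine order_arg f (fun i i' => deh (a i i')) ?_ (fun i => deh (δ i))
      (fun i => natDegree_deh (hδh i)) ?_
    · intro i i'
      rw [Polynomial.coeff_zero_eq_eval_zero, eval_deh, h.ha1]
    · intro i k hk
      have h1 : ∑ i', deh (a i i') * deh (δ i') = deh (lamP x u lam d (F i)) := by
        rw [hrel, map_sum]
        exact Finset.sum_congr rfl (fun i' _ => (map_mul _ _ _).symm)
      rw [h1, hcoeff]
      rcases Nat.eq_zero_or_pos k with rfl | hk0
      · have h2 : cf x u 0 (F i) = 0 := by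
          rw [cf, homogeneousComponent_zero, ← eval_zero_eq_coeff, eval_aff, map_zero, add_zero,
            h.hx _ (h.hF i).1, C_0]
        rw [h2, map_zero]
      · have h2 := hlam2 i (k - 1) (by omega)
        rwa [Nat.sub_add_cancel hk0] at h2
  rw [← hcoeff i j, hrel, map_sum]
  rw [Finset.sum_eq_zero (fun i' _ => by rw [map_mul, hδ0, mul_zero]), Polynomial.coeff_zero]

/-- The adapted coefficient forms. -/
noncomputable def yF (x : ρ → ℂ) (u : Fin n → (ρ → ℂ)) (F : Fin c → MvPolynomial ρ ℂ)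
    (f : Fin c → ℕ) : (Σ i : Fin c, Fin (f i + 1)) → MvPolynomial (Fin n) ℂ :=
  fun p => cf x u ((p.2 : ℕ) + 1) (F p.1)

lemma yF_mem_allF (p : Σ i : Fin c, Fin (f i + 1)) : yF x u F f p ∈ allF x u F :=
  cf_mem_allF x u F p.1 _

/-- **Local equations of the cone of lines.** -/
theorem LocData.loc_eq (h : LocData I x u c d D F f v₁ ψ a) :
    ∃ q, eval v₁ q ≠ 0 ∧ ∀ i j, q * cf x u j (F i) ∈ Ideal.span (Set.range (yF x u F f)) := by
  set N : Ideal (MvPolynomial (Fin n) ℂ) := Ideal.span (Set.range (yF x u F f)) with hN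
  set m : Ideal (MvPolynomial (Fin n) ℂ) := RingHom.ker (eval v₁) with hm
  have hle : allF x u F ≤ N ⊔ m • allF x u F := by
    intro b hb
    by_contra hbn
    obtain ⟨lam, hlamb, hlam⟩ := Submodule.exists_le_ker_of_notMem
      (p := (N ⊔ m • allF x u F).restrictScalars ℂ) (v := b) hbn
    have h1 : ∀ g b, eval v₁ g = 0 → b ∈ allF x u F → lam (g * b) = 0 := by
      intro g b hg hb
      exact hlam (Submodule.mem_sup_right (Submodule.smul_mem_smul hg hb))
    have h2 := h.lam_zero lam h1 (by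
      intro i j hj
      exact hlam (Submodule.mem_sup_left (Ideal.subset_span ⟨⟨i, ⟨j, by omega⟩⟩, rfl⟩)))
    apply hlamb
    have h3 : ∀ b ∈ allF x u F, lam b = 0 := by
      intro b hb
      refine Submodule.span_induction (p := fun b _ => lam b = 0) ?_ ?_ ?_ ?_ hb
      · rintro _ ⟨p, rfl⟩
        exact h2 p.1 p.2
      · exact map_zero _
      · intro b b' _ _ hb hb'
        rw [map_add, hb, hb', add_zero]
      · intro g b hb hb0
        have h4 : g • b = (g - C (eval v₁ g)) * b + (eval v₁ g) • b := by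
          rw [smul_eq_mul, smul_eq_C_mul]; ring
        rw [h4, map_add, h1 _ _ (by rw [map_sub, eval_C, sub_self]) hb, map_smul, hb0, smul_zero,
          add_zero]
    exact h3 b hb
  obtain ⟨r, hr, hr2⟩ := Submodule.exists_sub_one_mem_and_smul_le_of_fg_of_le_sup
    (IsNoetherian.noetherian (allF x u F)) le_rfl hle
  refine ⟨r, ?_, fun i j => ?_⟩
  · have h1 : eval v₁ (r - 1) = 0 := hr
    rw [map_sub, map_one, sub_eq_zero] at h1
    rw [h1]
    exact one_ne_zero
  · exact hr2 (Submodule.smul_mem_pointwise_smul _ r _ (cf_mem_allF x u F i j))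

end Loc

end Pool.Agent.Hartshorne
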