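import Mathlib
import Pool.Agent.Hartshorne.Dep
import Pool.Agent.Hartshorne.Filt
import Pool.Agent.Hartshorne.LocEq

/-!
The cone of lines through a general point is a smooth complete intersection.
-/

namespace Pool.Agent.Hartshorne

open MvPolynomial

set_option linter.unusedSectionVars false

section SplitLi

variable {τ : Type*} [Fintype τ] {c : ℕ}
  {Γ : Submodule (MvPolynomial (Fin 2) ℂ) (τ → MvPolynomial (Fin 2) ℂ)}
  {E : (Fin 2 → ℂ) → Submodule ℂ (τ → ℂ)}

/-- Everywhere independent sections generate. -/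
lemma mem_span_of_li (hb : IsBundle c Γ E) {f : Fin c → ℕ}
    (ψ : Fin c → τ → MvPolynomial (Fin 2) ℂ) (hh : ∀ i, HomRow (f i) (ψ i))
    (hE : ∀ i, InE E (ψ i)) (hli : ∀ z ≠ 0, LinearIndependent ℂ (fun i => rowEval z (ψ i)))
    {r : τ → MvPolynomial (Fin 2) ℂ} (hr : InE E r) :
    r ∈ Submodule.span (MvPolynomial (Fin 2) ℂ) (Set.range ψ) := by
  have hb' : IsBundle c (Submodule.span (MvPolynomial (Fin 2) ℂ) (Set.range ψ)) E := by
    refine ⟨?_, ?_, hb.finrank, ?_⟩
    · intro z hz P hP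
      obtain ⟨a, rfl⟩ := (Submodule.mem_span_range_iff_exists_fun _).mp hP
      rw [rowEval_sum]
      refine Submodule.sum_mem _ (fun i _ => ?_)
      rw [rowEval_smul]
      exact Submodule.smul_mem _ _ (hE i z hz)
    · intro z hz
      exact ⟨ψ, fun i => Submodule.subset_span ⟨i, rfl⟩, fun i => ⟨f i, hh i⟩, hli z hz⟩
    · intro P hP e
      exact rowComp_mem_span ψ f hh hP e
  obtain ⟨K, hK⟩ := hb'.exists_pow (g := X 0) (by simp) hr
  obtain ⟨K', hK'⟩ := hb'.exists_pow (g := X 1) (by simp) hr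
  refine mem_span_of_two ψ (i := 0) (j := 1) (by simp) ?_ r hK hK'
  intro z hz
  apply hli
  rintro rfl
  rw [eval_X] at hz
  exact hz rfl

end SplitLi

section Level

/-- Independence from a triangular system. -/
lemma li_of_level {κ V : Type*} [Fintype κ] [AddCommGroup V] [Module ℂ V] (lev : κ → ℕ)
    (θ : κ → V) (hθ : LinearIndependent ℂ θ) (M : κ → κ → ℂ) (hM1 : ∀ p, M p p ≠ 0)
    (hM2 : ∀ p q, q ≠ p → lev p ≤ lev q → M p q = 0) (B : κ → V)
    (hB : ∀ p, B p = ∑ q, M p q • θ q) : LinearIndependent ℂ B := by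
  classical
  rw [Fintype.linearIndependent_iff]
  intro μ hμ
  by_contra hne
  push Not at hne
  obtain ⟨p₀, hp₀⟩ := hne
  obtain ⟨p, hp, hmax⟩ := Finset.exists_max_image (Finset.univ.filter (fun p => μ p ≠ 0)) lev
    ⟨p₀, Finset.mem_filter.mpr ⟨Finset.mem_univ _, hp₀⟩⟩
  rw [Finset.mem_filter] at hp
  have h1 : ∑ q, (∑ p, μ p * M p q) • θ q = 0 := by
    rw [← hμ]
    simp only [hB, Finset.sum_smul, Finset.smul_sum, smul_smul]
    rw [Finset.sum_comm]
  have h2 := Fintype.linearIndependent_iff.mp hθ _ h1 p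
  rw [Finset.sum_eq_single p] at h2
  · exact (mul_ne_zero hp.2 (hM1 p)) h2
  · intro q _ hq
    by_cases hq0 : μ q = 0
    · rw [hq0, zero_mul]
    · rw [hM2 q p hq.symm (hmax q (Finset.mem_filter.mpr ⟨Finset.mem_univ _, hq0⟩)), mul_zero]
  · intro h; exact absurd (Finset.mem_univ _) h

end Level

section GradCf

variable {ρ : Type*} [Fintype ρ] [DecidableEq ρ] {n : ℕ} (x : ρ → ℂ) (u : Fin n → (ρ → ℂ))

lemma pderiv_aff (k : Fin n) (f : MvPolynomial ρ ℂ) :
    pderiv k (aff x u f) = ∑ b, C (u k b) * aff x u (pderiv b f) := by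
  have h1 := pderiv_aeval (fun b => C (x b) + ∑ i, C (u i b) * X i) f k
  rw [aff]
  rw [h1]
  refine Finset.sum_congr rfl (fun b _ => ?_)
  have h2 : pderiv k (C (x b) + ∑ i, C (u i b) * X i : MvPolynomial (Fin n) ℂ) = C (u k b) := by
    rw [map_add, pderiv_C, zero_add, map_sum, Finset.sum_eq_single k]
    · rw [pderiv_C_mul, pderiv_X_self, mul_one]
    · intro i _ hi
      rw [pderiv_C_mul, pderiv_X_of_ne hi, mul_zero]
    · intro h; exact absurd (Finset.mem_univ _) h
  rw [h2, mul_comm]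

/-- The gradient of a coefficient form. -/
lemma grad_cf (v : Fin n → ℂ) (j : ℕ) (f : MvPolynomial ρ ℂ) (k : Fin n) :
    grad v (cf x u (j + 1) f) k = ∑ b, u k b * eval v (cf x u j (pderiv b f)) := by
  rw [grad_apply, cf, ← hc_pderiv, pderiv_aff, map_sum, map_sum]
  refine Finset.sum_congr rfl (fun b _ => ?_)
  rw [← smul_eq_C_mul, map_smul, smul_eval, cf]

end GradCf

section Cone

variable {ρ : Type*} [Fintype ρ] [DecidableEq ρ] {c d D n : ℕ}

/-- A general point together with adapted equations. -/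
structure ConeS (I : Ideal (MvPolynomial ρ ℂ)) (x : ρ → ℂ) (u : Fin n → (ρ → ℂ)) (c d D : ℕ)
    (F : Fin c → MvPolynomial ρ ℂ) (f : Fin c → ℕ) : Prop where
  hI : I.IsPrime
  hhom : HI I
  hdim : ((Fintype.card ρ : ℕ) : WithBot ℕ∞) ≤
      ringKrullDim (MvPolynomial ρ ℂ ⧸ I) + (c : WithBot ℕ∞)
  hD : 0 < D
  hd : 0 < d
  hx : ∀ h ∈ I, eval x h = 0
  hF : ∀ i, F i ∈ I ∧ (F i).IsHomogeneous d
  hli : LinearIndependent ℂ (fun i => grad x (F i))
  good : ∀ p ≠ 0, (∀ h ∈ I, eval p h = 0) → GoodPt I c D p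
  hbas : LinearIndependent ℂ (Fin.cons x u : Fin (n + 1) → (ρ → ℂ))
  hn : n + 1 = Fintype.card ρ
  ad1 : ∀ v ≠ 0, (∀ i z, eval (comb (pl x u v) z) (F i) = 0) →
    ∀ i, grad x (F i) ∈ Wsp (El I x u v) (f i)
  ad2 : ∀ v ≠ 0, (∀ i z, eval (comb (pl x u v) z) (F i) = 0) →
    ∀ e, ∀ y ∈ Wsp (El I x u v) e,
      ∃ a : Fin c → ℂ, (∀ i, e < f i → a i = 0) ∧ y = ∑ i, a i • grad x (F i)
  free : ∀ v, (∀ i z, eval (comb (pl x u v) z) (F i) = 0) →
    ∀ a : ρ → ℂ, (∀ i, grad x (F i) ⬝ᵥ a = 0) → ∃ b : ρ → ℂ, ∀ h ∈ I, ∀ z : Fin 2 → ℂ,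
      grad (comb (pl x u v) z) h ⬝ᵥ (z 0 • a + z 1 • b) = 0

variable {I : Ideal (MvPolynomial ρ ℂ)} {x : ρ → ℂ} {u : Fin n → (ρ → ℂ)}
  {F : Fin c → MvPolynomial ρ ℂ} {f : Fin c → ℕ}

lemma ConeS.van (h : ConeS I x u c d D F f) {v : Fin n → ℂ}
    (hv : ∀ i z, eval (comb (pl x u v) z) (F i) = 0) :
    ∀ z, ∀ g ∈ I, eval (comb (pl x u v) z) g = 0 :=
  vanish_on I h.hI h.hdim (pl x u v) (pt 0) (by rw [pl, comb_ln_one]; exact h.hx) F
    (fun i => (h.hF i).1) (by rw [pl, comb_ln_one]; exact h.hli) hv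

lemma ConeS.goodLine (h : ConeS I x u c d D F f) {v : Fin n → ℂ} (hv0 : v ≠ 0)
    (hv : ∀ i z, eval (comb (pl x u v) z) (F i) = 0) : GoodLine I x u c D v := by
  intro z hz
  exact h.good _ (ne_zero_of_li_cons h.hbas hv0 hz) (h.van hv z)

theorem ConeS.exists_data (h : ConeS I x u c d D F f) {v : Fin n → ℂ} (hv0 : v ≠ 0)
    (hv : ∀ i z, eval (comb (pl x u v) z) (F i) = 0) :
    ∃ ψ a, LocData I x u c d D F f v ψ a ∧
      ∀ z ≠ 0, LinearIndependent ℂ (fun i => rowEval z (ψ i)) := by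
  classical
  have hgl := h.goodLine hv0 hv
  have hb := isBundle_El I x u hgl
  choose ψ hψ1 hψ2 hψ3 using fun i => mem_Wsp.mp (h.ad1 v hv0 hv i)
  have hψli := li_of_adapted hb (fun i => grad x (F i)) f h.hli (h.ad2 v hv0 hv) ψ hψ1 hψ2 hψ3
  have hgen : ∀ i, ∃ a : Fin c → MvPolynomial (Fin 2) ℂ,
      ∑ i', a i' • ψ i' = gRow (pl x u v) (F i) := by
    intro i
    refine (Submodule.mem_span_range_iff_exists_fun _).mp (mem_span_of_li hb ψ hψ1 hψ2
      (fun z hz => hψli z hz) ?_)
    intro z hz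
    rw [rowEval_gRow]
    exact grad_mem_gradSpan (h.hF i).1 _
  choose a ha using hgen
  have ha' : ∀ z i, grad (comb (pl x u v) z) (F i) = ∑ i', eval z (a i i') • rowEval z (ψ i') := by
    intro z i
    rw [← rowEval_gRow, ← ha i, rowEval_sum]
    exact Finset.sum_congr rfl (fun i' _ => rowEval_smul _ _ _)
  refine ⟨ψ, a, ⟨h.hI, h.hhom, h.hdim, h.hD, h.hx, h.hF, h.hli, h.van hv, hgl, hψ1,
    fun z hz i => hψ2 i z hz, ha', ?_⟩, fun z hz => hψli z hz⟩
  intro i i'
  have h1 := ha' (pt 0) i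
  rw [pl, comb_ln_one] at h1
  simp only [hψ3] at h1
  have h2 : ∑ i', (eval (pt 0) (a i i') - if i = i' then 1 else 0) • grad x (F i') = 0 := by
    simp only [sub_smul, Finset.sum_sub_distrib, ite_smul, one_smul, zero_smul]
    rw [Finset.sum_ite_eq, if_pos (Finset.mem_univ _), ← h1, sub_self]
  exact sub_eq_zero.mp (Fintype.linearIndependent_iff.mp h.hli _ h2 i')

/-- Contraction with the complementary directions. -/
noncomputable def ust (u : Fin n → (ρ → ℂ)) : (ρ → ℂ) →ₗ[ℂ] (Fin n → ℂ) where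
  toFun := fun w k => ∑ b, u k b * w b
  map_add' := by
    intro w w'; funext k
    simp [mul_add, Finset.sum_add_distrib]
  map_smul' := by
    intro t w; funext k
    simp only [Pi.smul_apply, smul_eq_mul, RingHom.id_apply, Finset.mul_sum]
    exact Finset.sum_congr rfl (fun b _ => by ring)

lemma ust_apply (u : Fin n → (ρ → ℂ)) (w : ρ → ℂ) (k : Fin n) :
    ust u w k = ∑ b, u k b * w b := rfl

/-- The tangent space of a cone contains the lines. -/
lemma grad_dot_line {w : ρ → ℂ} {g : MvPolynomial ρ ℂ}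
    (hg : ∀ z, eval (comb (ln x w) z) g = 0) (z : Fin 2 → ℂ) :
    grad (comb (ln x w) z) g ⬝ᵥ x = 0 := by
  have h1 : lsub (comb (ln x w)) g = 0 := by
    apply MvPolynomial.funext
    intro z
    rw [eval_lsub, hg, map_zero]
  have h2 := pderiv_lsub (comb (ln x w)) 0 g
  rw [h1, map_zero] at h2
  have h3 := congrArg (eval z) h2
  rw [map_zero, map_sum] at h3
  rw [h3, dotProduct]
  refine Finset.sum_congr rfl (fun b _ => ?_)
  rw [map_mul, eval_C, eval_lsub, grad_apply, mul_comm]
  congr 1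
  rw [comb_ln]
  simp

lemma eq_zero_of_dot (hbas : LinearIndependent ℂ (Fin.cons x u : Fin (n + 1) → (ρ → ℂ)))
    (hn : n + 1 = Fintype.card ρ) {Λ : ρ → ℂ} (hx : Λ ⬝ᵥ x = 0) (hu : ust u Λ = 0) : Λ = 0 := by
  have h1 : Submodule.span ℂ (Set.range (Fin.cons x u : Fin (n + 1) → (ρ → ℂ))) = ⊤ := by
    apply LinearIndependent.span_eq_top_of_card_eq_finrank hbas
    rw [Fintype.card_fin, Module.finrank_fintype_fun_eq_card, hn]
  have h2 : ∀ w : ρ → ℂ, Λ ⬝ᵥ w = 0 := by
    intro w
    have hw : w ∈ Submodule.span ℂ (Set.range (Fin.cons x u : Fin (n + 1) → (ρ → ℂ))) := by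
      rw [h1]; trivial
    refine Submodule.span_induction (p := fun w _ => Λ ⬝ᵥ w = 0) ?_ ?_ ?_ ?_ hw
    · rintro _ ⟨i, rfl⟩
      refine Fin.cases ?_ (fun k => ?_) i
      · rw [Fin.cons_zero]; exact hx
      · rw [Fin.cons_succ]
        have h3 := congrFun hu k
        rw [ust_apply, Pi.zero_apply] at h3
        rw [dotProduct, ← h3]
        exact Finset.sum_congr rfl (fun b _ => mul_comm _ _)
    · exact dotProduct_zero _
    · intro a b _ _ ha hb
      rw [dotProduct_add, ha, hb, add_zero]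
    · intro t a _ ha
      rw [dotProduct_smul, ha, smul_zero]
  funext b
  have h3 := h2 (Pi.single b 1)
  rwa [dotProduct_single, mul_one] at h3

/-- Coefficients of a splitting along a line of the cone. -/
theorem ConeS.exists_theta (h : ConeS I x u c d D F f) {v : Fin n → ℂ} (hv0 : v ≠ 0)
    (hv : ∀ i z, eval (comb (pl x u v) z) (F i) = 0)
    {ψ : Fin c → ρ → MvPolynomial (Fin 2) ℂ} {a : Fin c → Fin c → MvPolynomial (Fin 2) ℂ}
    (hψ : LocData I x u c d D F f v ψ a)
    (hψli : ∀ z ≠ 0, LinearIndependent ℂ (fun i => rowEval z (ψ i))) :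
    ∃ θ : (Σ i : Fin c, Fin (f i + 1)) → (Fin n → ℂ), LinearIndependent ℂ θ ∧
      (∀ z i, ust u (rowEval z (ψ i)) =
        ∑ l : Fin (f i + 1), (z 0 ^ (f i - (l : ℕ)) * z 1 ^ (l : ℕ)) • θ ⟨i, l⟩) ∧
      ∀ i j, grad v (cf x u (j + 1) (F i)) = ∑ q : (Σ i : Fin c, Fin (f i + 1)),
        (if (q.2 : ℕ) ≤ j then (deh (a i q.1)).coeff (j - (q.2 : ℕ)) else 0) • θ q := by
  classical
  have hex : ∀ i, ∃ q : Fin (f i + 1) × ρ → ℂ, arr (f i + 1) q = ψ i := fun i =>
    exists_arr (Nat.succ_pos _) (by rw [Nat.add_sub_cancel]; exact hψ.hψ i)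
  choose q hq using hex
  have hrow : ∀ z i b, rowEval z (ψ i) b = ∑ l : Fin (f i + 1),
      z 0 ^ (f i - (l : ℕ)) * z 1 ^ (l : ℕ) * q i (l, b) := by
    intro z i b
    rw [← hq i, rowEval_arr]
    refine Finset.sum_congr rfl (fun l _ => ?_)
    rw [Nat.add_sub_cancel]
  set θ : (Σ i : Fin c, Fin (f i + 1)) → (Fin n → ℂ) := fun p => ust u (fun b => q p.1 (p.2, b))
    with hθ
  have hust : ∀ z i, ust u (rowEval z (ψ i)) =
        ∑ l : Fin (f i + 1), (z 0 ^ (f i - (l : ℕ)) * z 1 ^ (l : ℕ)) • θ ⟨i, l⟩ := by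
    intro z i
    have h1 : rowEval z (ψ i) = ∑ l : Fin (f i + 1), (z 0 ^ (f i - (l : ℕ)) * z 1 ^ (l : ℕ)) •
        (fun b => q i (l, b)) := by
      funext b
      rw [hrow, Finset.sum_apply]
      rfl
    rw [h1, map_sum]
    exact Finset.sum_congr rfl (fun l _ => map_smul _ _ _)
  refine ⟨θ, ?_, hust, ?_⟩
  · -- independence
    have hqx : ∀ i (l : Fin (f i + 1)), (fun b => q i (l, b)) ⬝ᵥ x = 0 := by
      intro i
      have h1 := poly_coeff_zero (fun l : Fin (f i + 1) => (fun b => q i (l, b)) ⬝ᵥ x) (by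
        intro t
        have hpt : (pt t : Fin 2 → ℂ) ≠ 0 := by
          intro h1
          exact one_ne_zero (congrFun h1 0)
        have h2 : rowEval (pt t) (ψ i) ⬝ᵥ x = 0 := by
          obtain ⟨g, hg, -, hgr⟩ := exists_grad_eq (hψ.good _ hpt) (hψ.hψE _ hpt i)
          rw [← hgr]
          exact grad_dot_line (fun z => hψ.van z g hg) _
        rw [← h2, dotProduct]
        simp only [hrow, dotProduct, Finset.mul_sum, Finset.sum_mul]
        rw [Finset.sum_comm]
        refine Finset.sum_congr rfl (fun b _ => Finset.sum_congr rfl (fun l _ => ?_))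
        simp [pt]
        ring)
      intro l
      exact congrFun h1 l
    rw [Fintype.linearIndependent_iff]
    intro μ hμ
    have hlam := coeff_li f q (by
      intro z hz
      simp only [hq]
      exact hψli z hz) (by
      intro a' ha'
      obtain ⟨b, hb⟩ := h.free v hv a' (by
        intro i
        have h1 := hψ.ha (pt 0) i
        rw [pl, comb_ln_one] at h1
        rw [h1]
        simp only [hψ.ha1, ite_smul, one_smul, zero_smul]
        rw [Finset.sum_ite_eq, if_pos (Finset.mem_univ _), ← hq i]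
        exact ha' i)
      refine ⟨b, fun z i => ?_⟩
      by_cases hz : z = 0
      · rw [hz]
        simp
      · rw [hq i]
        obtain ⟨g, hg, -, hgr⟩ := exists_grad_eq (hψ.good z hz) (hψ.hψE z hz i)
        rw [← hgr]
        exact hb g hg z) (fun i l => μ ⟨i, l⟩) (by
      have h1 : (fun b => ∑ i, ∑ j : Fin (f i + 1), μ ⟨i, j⟩ * q i (j, b)) = 0 := by
        apply eq_zero_of_dot h.hbas h.hn
        · rw [dotProduct]
          simp only [Finset.sum_mul]
          rw [Finset.sum_comm]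
          refine Finset.sum_eq_zero (fun i _ => ?_)
          rw [Finset.sum_comm]
          refine Finset.sum_eq_zero (fun l _ => ?_)
          have h2 := hqx i l
          rw [dotProduct] at h2
          simp only [mul_assoc]
          rw [← Finset.mul_sum, h2, mul_zero]
        · have h2 : (fun b => ∑ i, ∑ j : Fin (f i + 1), μ ⟨i, j⟩ * q i (j, b)) =
              ∑ p : (Σ i : Fin c, Fin (f i + 1)), μ p • (fun b => q p.1 (p.2, b)) := by
            funext b
            rw [Finset.sum_apply, Fintype.sum_sigma]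
            rfl
          rw [h2, map_sum, ← hμ]
          exact Finset.sum_congr rfl (fun p _ => map_smul _ _ _)
      intro b
      exact congrFun h1 b)
    rintro ⟨i, l⟩
    exact congrFun (congrFun hlam i) l
  · -- the relation
    intro i j
    funext k
    have hpoly : ∑ j ∈ Finset.range d, Polynomial.C (grad v (cf x u (j + 1) (F i)) k) *
        Polynomial.X ^ j = ∑ p : (Σ i : Fin c, Fin (f i + 1)),
          deh (a i p.1) * (Polynomial.C (θ p k) * Polynomial.X ^ (p.2 : ℕ)) := by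
      apply Polynomial.funext
      intro t
      have h1 : ust u (grad (comb (pl x u v) (pt t)) (F i)) k =
          ∑ j ∈ Finset.range d, t ^ j * grad v (cf x u (j + 1) (F i)) k := by
        rw [ust_apply]
        have h2 : ∀ b, grad (comb (pl x u v) (pt t)) (F i) b = ∑ j ∈ Finset.range d,
            t ^ j * eval v (cf x u j (pderiv b (F i))) := by
          intro b
          rw [grad_apply, pl, eval_line x u ((h.hF i).2.pderiv), Nat.sub_add_cancel h.hd]
          refine Finset.sum_congr rfl (fun j _ => ?_)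
          simp [pt]
        simp only [h2, grad_cf, Finset.mul_sum]
        rw [Finset.sum_comm]
        refine Finset.sum_congr rfl (fun j _ => Finset.sum_congr rfl (fun b _ => by ring))
      have h3 : ust u (grad (comb (pl x u v) (pt t)) (F i)) k =
          ∑ i', eval (pt t) (a i i') * ∑ l : Fin (f i' + 1), t ^ (l : ℕ) * θ ⟨i', l⟩ k := by
        rw [hψ.ha, map_sum, Finset.sum_apply]
        refine Finset.sum_congr rfl (fun i' _ => ?_)
        rw [map_smul, Pi.smul_apply, smul_eq_mul, hust, Finset.sum_apply]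
        congr 1
        refine Finset.sum_congr rfl (fun l _ => ?_)
        rw [Pi.smul_apply, smul_eq_mul]
        simp [pt]
      rw [Polynomial.eval_finsetSum, Polynomial.eval_finsetSum, Fintype.sum_sigma]
      have h4 : ∑ j ∈ Finset.range d, Polynomial.eval t (Polynomial.C
          (grad v (cf x u (j + 1) (F i)) k) * Polynomial.X ^ j) =
          ∑ j ∈ Finset.range d, t ^ j * grad v (cf x u (j + 1) (F i)) k := by
        refine Finset.sum_congr rfl (fun j _ => ?_)
        rw [Polynomial.eval_mul, Polynomial.eval_C, Polynomial.eval_pow, Polynomial.eval_X,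
          mul_comm]
      rw [h4, ← h1, h3]
      refine Finset.sum_congr rfl (fun i' _ => ?_)
      rw [Finset.mul_sum]
      refine Finset.sum_congr rfl (fun l _ => ?_)
      rw [Polynomial.eval_mul, Polynomial.eval_mul, Polynomial.eval_C, Polynomial.eval_pow,
        Polynomial.eval_X, eval_deh]
      ring
    have h5 := congrArg (fun P => Polynomial.coeff P j) hpoly
    simp only [Polynomial.finsetSum_coeff, Polynomial.coeff_C_mul_X_pow] at h5
    rw [Finset.sum_ite_eq (Finset.range d) j] at h5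
    rw [Finset.sum_apply]
    have h6 : grad v (cf x u (j + 1) (F i)) k =
        if j ∈ Finset.range d then grad v (cf x u (j + 1) (F i)) k else 0 := by
      split_ifs with hj
      · rfl
      · rw [Finset.mem_range, not_lt] at hj
        have h7 : cf x u (j + 1) (F i) = 0 := by
          rw [cf]
          apply homogeneousComponent_eq_zero
          have h2 := totalDegree_aff_le x u (F i)
          have h3 := (h.hF i).2.totalDegree_le
          omega
        rw [h7, map_zero]
        rfl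
    rw [h6, h5]
    refine Finset.sum_congr rfl (fun p _ => ?_)
    rw [← mul_assoc, mul_comm (deh (a i p.1)), mul_assoc, Polynomial.coeff_C_mul,
      Polynomial.coeff_mul_X_pow', Pi.smul_apply, smul_eq_mul]
    split_ifs
    · ring
    · ring

/-- The gradients of the adapted coefficient forms, possibly with the last ones replaced by
the conormal vectors of the variety, are independent along the cone of lines. -/
theorem ConeS.li_cone (h : ConeS I x u c d D F f) {v : Fin n → ℂ} (hv0 : v ≠ 0)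
    (hv : ∀ i z, eval (comb (pl x u v) z) (F i) = 0) :
    LinearIndependent ℂ (fun p => grad v (yF x u F f p)) ∧
    ∀ z : Fin 2 → ℂ, z 1 ≠ 0 → ∃ w : Fin c → (ρ → ℂ),
      (∀ i, w i ∈ gradSpan I (comb (pl x u v) z)) ∧
      LinearIndependent ℂ (fun p : (Σ i : Fin c, Fin (f i + 1)) =>
        if (p.2 : ℕ) = f p.1 then ust u (w p.1) else grad v (yF x u F f p)) := by
  classical
  obtain ⟨ψ, a, hψ, hψli⟩ := h.exists_data hv0 hv
  obtain ⟨θ, hθ, hθψ, hθF⟩ := h.exists_theta hv0 hv hψ hψli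
  have hA : ∀ i i', (deh (a i i')).coeff 0 = if i = i' then 1 else 0 := by
    intro i i'
    rw [Polynomial.coeff_zero_eq_eval_zero, eval_deh, hψ.ha1]
  set M : (Σ i : Fin c, Fin (f i + 1)) → (Σ i : Fin c, Fin (f i + 1)) → ℂ := fun p q =>
    if (q.2 : ℕ) ≤ (p.2 : ℕ) then (deh (a p.1 q.1)).coeff ((p.2 : ℕ) - (q.2 : ℕ)) else 0 with hM
  have hM1 : ∀ p, M p p = 1 := by
    intro p
    simp only [hM]
    rw [if_pos le_rfl, Nat.sub_self, hA, if_pos rfl]
  have hsig : ∀ p q : (Σ i : Fin c, Fin (f i + 1)), p.1 = q.1 → (p.2 : ℕ) = (q.2 : ℕ) →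
      p = q := by
    rintro ⟨i, j⟩ ⟨i', j'⟩ h1 h2
    simp only at h1 h2
    subst h1
    have h3 : j = j' := Fin.ext h2
    rw [h3]
  have hM2 : ∀ p q, q ≠ p → (p.2 : ℕ) ≤ (q.2 : ℕ) → M p q = 0 := by
    intro p q hqp hle
    simp only [hM]
    split_ifs with h1
    · have h2 : (p.2 : ℕ) = (q.2 : ℕ) := le_antisymm hle h1
      rw [h2, Nat.sub_self, hA, if_neg]
      intro h3
      exact hqp (hsig p q h3 h2).symm
    · rfl
  have hy : ∀ p, grad v (yF x u F f p) = ∑ q, M p q • θ q := by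
    intro p
    rw [yF, hθF]
  refine ⟨li_of_level (fun p => (p.2 : ℕ)) θ hθ M (fun p => by rw [hM1]; exact one_ne_zero) hM2
    _ hy, ?_⟩
  intro z hz
  have hz0 : z ≠ 0 := by
    rintro rfl
    exact hz rfl
  refine ⟨fun i => rowEval z (ψ i), fun i => hψ.hψE z hz0 i, ?_⟩
  refine li_of_level (fun p => (p.2 : ℕ)) θ hθ (fun p q => if (p.2 : ℕ) = f p.1 then
    (if q.1 = p.1 then z 0 ^ (f p.1 - (q.2 : ℕ)) * z 1 ^ (q.2 : ℕ) else 0) else M p q) ?_ ?_ _ ?_
  · intro p
    by_cases h1 : (p.2 : ℕ) = f p.1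
    · rw [if_pos h1, if_pos rfl, h1, Nat.sub_self, pow_zero, one_mul]
      exact pow_ne_zero _ hz
    · rw [if_neg h1, hM1]; exact one_ne_zero
  · intro p q hqp hle
    split_ifs with h1 h2
    · exfalso
      apply hqp
      apply hsig q p h2
      have h3 := q.2.2
      have h4 : f q.1 = f p.1 := by rw [h2]
      omega
    · rfl
    · exact hM2 p q hqp hle
  · intro p
    split_ifs with h1
    · rw [hθψ, Fintype.sum_sigma, Finset.sum_eq_single p.1]
      · refine Finset.sum_congr rfl (fun l _ => ?_)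
        rw [if_pos rfl]
      · intro i _ hi
        refine Finset.sum_eq_zero (fun l _ => ?_)
        rw [if_neg hi, zero_smul]
      · intro h; exact absurd (Finset.mem_univ _) h
    · exact hy p

/-- The lines through the point, in terms of coefficient forms. -/
lemma ConeS.cone_iff (h : ConeS I x u c d D F f) (v : Fin n → ℂ) :
    (∀ i z, eval (comb (pl x u v) z) (F i) = 0) ↔ ∀ i j, eval v (cf x u j (F i)) = 0 := by
  constructor
  · intro hv i j
    rcases Nat.eq_zero_or_pos j with rfl | hj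
    · rw [cf, homogeneousComponent_zero, ← eval_zero_eq_coeff, eval_aff, map_zero, add_zero,
        h.hx _ (h.hF i).1, C_0, map_zero]
    · by_cases hjd : j ≤ d
      · have h1 := (pencil_iff x u (h.hF i).2 (h.hx _ (h.hF i).1) v).mpr (hv i)
          ⟨j - 1, by omega⟩
        simp only [Nat.sub_add_cancel hj] at h1
        exact h1
      · have h7 : cf x u j (F i) = 0 := by
          rw [cf]
          apply homogeneousComponent_eq_zero
          have h2 := totalDegree_aff_le x u (F i)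
          have h3 := (h.hF i).2.totalDegree_le
          omega
        rw [h7, map_zero]
  · intro hv i
    exact (pencil_iff x u (h.hF i).2 (h.hx _ (h.hF i).1) v).mp (fun j => hv i _)

/-- **The adapted coefficient forms cut out the cone of lines.** -/
theorem ConeS.cone_of_y (h : ConeS I x u c d D F f)
    (hcard : 2 * ∑ i, (f i + 1) < n)
    (hne : ∃ v₀ : Fin n → ℂ, v₀ ≠ 0 ∧ ∀ i z, eval (comb (pl x u v₀) z) (F i) = 0)
    {v : Fin n → ℂ} (hv0 : v ≠ 0) (hv : ∀ p, eval v (yF x u F f p) = 0) :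
    ∀ i z, eval (comb (pl x u v) z) (F i) = 0 := by
  classical
  rw [h.cone_iff]
  obtain ⟨v₀, hv₀, hv₀c⟩ := hne
  have hv₀all := (h.cone_iff v₀).mp hv₀c
  have hsm : ∀ v : Fin n → ℂ, ∀ t : ℂ, t ≠ 0 →
      ((∀ i j, eval (t • v) (cf x u j (F i)) = 0) ↔ ∀ i j, eval v (cf x u j (F i)) = 0) := by
    intro v t ht
    have h1 : ∀ i j, eval (t • v) (cf x u j (F i)) = t ^ j * eval v (cf x u j (F i)) :=
      fun i j => eval_smul_of_isHomogeneous (cf_isHomogeneous x u _ _) t v
    simp only [h1, mul_eq_zero, pow_eq_zero_iff', ht, false_and, false_or]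
  have key := const_of_locally (y := yF x u F f)
    (fun p => ⟨_, cf_isHomogeneous x u _ _⟩)
    (fun v => (∀ i j, eval v (cf x u j (F i)) = 0)) (by
      intro w hw hw0
      by_cases hwc : ∀ i j, eval w (cf x u j (F i)) = 0
      · obtain ⟨ψ, a, hψ, -⟩ := h.exists_data hw0 ((h.cone_iff w).mpr hwc)
        obtain ⟨q, hq, hqm⟩ := hψ.loc_eq
        refine ⟨q, hq, ?_⟩
        intro w' hw' _ hqw'
        rw [eq_iff_iff]
        refine ⟨fun _ => hwc, fun _ => ?_⟩
        intro i j
        have h1 : eval w' (q * cf x u j (F i)) = 0 := by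
          have h2 : Ideal.span (Set.range (yF x u F f)) ≤ RingHom.ker (eval w') := by
            rw [Ideal.span_le]
            rintro _ ⟨p, rfl⟩
            exact hw' p
          exact h2 (hqm i j)
        rw [map_mul] at h1
        exact (mul_eq_zero.mp h1).resolve_left hqw'
      · push Not at hwc
        obtain ⟨i, j, hij⟩ := hwc
        refine ⟨cf x u j (F i), hij, ?_⟩
        intro w' _ _ hw'
        rw [eq_iff_iff]
        exact ⟨fun h1 => absurd (h1 i j) hw', fun h1 => absurd (h1 i j) hij⟩) (by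
      intro v _ _ t ht
      rw [eq_iff_iff]
      exact hsm v t ht) (by
      rw [Fintype.card_sigma, Fintype.card_fin]
      simp only [Fintype.card_fin]
      exact hcard) hv hv0 (fun p => hv₀all _ _) hv₀
  exact key.mpr hv₀all

end Cone

end Pool.Agent.Hartshorne
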