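import Mathlib
import Pool.Agent.Hartshorne.Rows

/-!
A bundle on the projective plane which is pulled back from a line away from a point splits.
-/

namespace Pool.Agent.Hartshorne

open MvPolynomial

set_option linter.unusedSectionVars false

section Plane

variable {τ κ κ' : Type*} [Fintype τ] [Fintype κ] [Fintype κ']

/-- Constant columns. -/
noncomputable def colMap {σ : Type*} (u : κ' → τ → ℂ) (r : τ → MvPolynomial σ ℂ) :
    κ' → MvPolynomial σ ℂ := fun a => ∑ b, C (u a b) * r b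

/-- Constant columns on vectors. -/
noncomputable def colVec (u : κ' → τ → ℂ) : (τ → ℂ) →ₗ[ℂ] (κ' → ℂ) where
  toFun := fun w a => ∑ b, u a b * w b
  map_add' := by
    intro x y; funext a
    simp [mul_add, Finset.sum_add_distrib]
  map_smul' := by
    intro t x; funext a
    simp only [Pi.smul_apply, smul_eq_mul, RingHom.id_apply, Finset.mul_sum]
    exact Finset.sum_congr rfl (fun b _ => by ring)

lemma rowEval_colMap {σ : Type*} (u : κ' → τ → ℂ) (r : τ → MvPolynomial σ ℂ) (z : σ → ℂ) :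
    rowEval z (colMap u r) = colVec u (rowEval z r) := by
  funext a
  rw [rowEval_apply, colMap, map_sum]
  refine Finset.sum_congr rfl (fun b _ => ?_)
  rw [map_mul, eval_C, rowEval_apply]

lemma colMap_sub {σ : Type*} (u : κ' → τ → ℂ) (r s : τ → MvPolynomial σ ℂ) :
    colMap u (r - s) = colMap u r - colMap u s := by
  funext a
  simp [colMap, mul_sub, Finset.sum_sub_distrib]

lemma colMap_smul {σ : Type*} (u : κ' → τ → ℂ) (g : MvPolynomial σ ℂ)
    (r : τ → MvPolynomial σ ℂ) : colMap u (g • r) = g • colMap u r := by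
  funext a
  simp only [colMap, Pi.smul_apply, smul_eq_mul, Finset.mul_sum]
  exact Finset.sum_congr rfl (fun b _ => by ring)

lemma colMap_sum {σ ι : Type*} (u : κ' → τ → ℂ) (s : Finset ι)
    (r : ι → τ → MvPolynomial σ ℂ) : colMap u (∑ i ∈ s, r i) = ∑ i ∈ s, colMap u (r i) := by
  funext a
  simp only [colMap, Finset.sum_apply, Finset.mul_sum]
  exact Finset.sum_comm

/-- **Splitting on the plane.** -/
theorem plane_split {c : ℕ}
    {Γ : Submodule (MvPolynomial (Fin 3) ℂ) (τ → MvPolynomial (Fin 3) ℂ)}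
    {E : (Fin 3 → ℂ) → Submodule ℂ (τ → ℂ)} (hb : IsBundle c Γ E)
    (F : κ → τ → MvPolynomial (Fin 3) ℂ) (hF : ∀ i, F i ∈ Γ) (d : ℕ) (hFd : ∀ i, HomRow d (F i))
    (u : κ' → τ → ℂ) (θ : κ → κ' → MvPolynomial (Fin 2) ℂ)
    (hθ : ∀ i, colMap u (F i) = fun a => rename Fin.castSucc (θ i a))
    (hrank : ∀ z ≠ 0, c ≤ Module.finrank ℂ
      (Submodule.span ℂ (Set.range fun i => rowEval z (θ i)))) :
    ∃ ψ f, SplitBasis c E ψ f := by
  classical
  set ren : (κ' → MvPolynomial (Fin 2) ℂ) → (κ' → MvPolynomial (Fin 3) ℂ) :=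
    fun r a => rename Fin.castSucc (r a) with hren
  have hren_eval : ∀ (r : κ' → MvPolynomial (Fin 2) ℂ) (z : Fin 3 → ℂ),
      rowEval z (ren r) = rowEval (z ∘ Fin.castSucc) r := by
    intro r z
    funext a
    rw [rowEval_apply, rowEval_apply, hren]
    simp only
    rw [eval_rename]
  have hren_smul : ∀ (g : MvPolynomial (Fin 2) ℂ) (r : κ' → MvPolynomial (Fin 2) ℂ),
      ren (g • r) = rename Fin.castSucc g • ren r := by
    intro g r
    funext a
    simp [hren]
  have hren_sum : ∀ {ι : Type _} (s : Finset ι) (r : ι → κ' → MvPolynomial (Fin 2) ℂ),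
      ren (∑ i ∈ s, r i) = ∑ i ∈ s, ren (r i) := by
    intro ι s r
    funext a
    simp [hren, Finset.sum_apply]
  have hθd : ∀ i, HomRow d (θ i) := by
    intro i a
    have h1 := congrFun (hθ i) a
    rw [← IsHomogeneous.rename_isHomogeneous_iff (Fin.castSucc_injective 2), ← h1]
    refine IsHomogeneous.sum _ _ _ (fun b _ => ?_)
    have h2 := (isHomogeneous_C (Fin 3) (u a b)).mul (hFd i b)
    rwa [zero_add] at h2
  set E₂ : (Fin 2 → ℂ) → Submodule ℂ (κ' → ℂ) := fun z =>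
    Submodule.span ℂ (Set.range fun i => rowEval z (θ i)) with hE₂
  -- points
  have hpi : ∀ z : Fin 3 → ℂ, z ∘ Fin.castSucc ≠ 0 → z ≠ 0 := by
    rintro z h rfl
    exact h (by funext i; simp)
  have hE₂le : ∀ z : Fin 3 → ℂ, z ∘ Fin.castSucc ≠ 0 →
      E₂ (z ∘ Fin.castSucc) ≤ (E z).map (colVec u) := by
    intro z hz
    rw [hE₂]
    simp only
    rw [Submodule.span_le]
    rintro _ ⟨i, rfl⟩
    refine ⟨rowEval z (F i), hb.mem z (hpi z hz) _ (hF i), ?_⟩
    simp only
    rw [← rowEval_colMap, hθ i]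
    exact hren_eval (θ i) z
  have hfinmap : ∀ z : Fin 3 → ℂ, z ≠ 0 →
      Module.finrank ℂ ((E z).map (colVec u)) ≤ c := by
    intro z hz
    refine (Submodule.finrank_map_le _ _).trans ?_
    rw [hb.finrank z hz]
  have hext : ∀ z : Fin 2 → ℂ, ∃ z' : Fin 3 → ℂ, z' ∘ Fin.castSucc = z := by
    intro z
    exact ⟨Fin.snoc z 0, by funext i; simp⟩
  have hfin₂ : ∀ z ≠ 0, Module.finrank ℂ (E₂ z) = c := by
    intro z hz
    apply le_antisymm _ (hrank z hz)
    obtain ⟨z', rfl⟩ := hext z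
    exact (Submodule.finrank_mono (hE₂le z' hz)).trans (hfinmap z' (hpi z' hz))
  have hE₂eq : ∀ z : Fin 3 → ℂ, z ∘ Fin.castSucc ≠ 0 →
      E₂ (z ∘ Fin.castSucc) = (E z).map (colVec u) := by
    intro z hz
    apply Submodule.eq_of_le_of_finrank_le (hE₂le z hz)
    rw [hfin₂ _ hz]
    exact hfinmap z (hpi z hz)
  -- the column map is injective on sections
  have hcolinj : ∀ z : Fin 3 → ℂ, z ∘ Fin.castSucc ≠ 0 → ∀ w ∈ E z, colVec u w = 0 → w = 0 := by
    intro z hz w hw h0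
    have h1 := LinearMap.finrank_range_add_finrank_ker ((colVec u).domRestrict (E z))
    have h2 : LinearMap.range ((colVec u).domRestrict (E z)) = (E z).map (colVec u) := by
      rw [LinearMap.range_domRestrict]
    rw [h2, ← hE₂eq z hz, hfin₂ _ hz, hb.finrank z (hpi z hz)] at h1
    have h3 : LinearMap.ker ((colVec u).domRestrict (E z)) = ⊥ := by
      apply Submodule.finrank_eq_zero.mp
      omega
    have h4 : (⟨w, hw⟩ : E z) ∈ LinearMap.ker ((colVec u).domRestrict (E z)) := by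
      rw [LinearMap.mem_ker]
      exact h0
    rw [h3, Submodule.mem_bot] at h4
    exact congrArg Subtype.val h4
  have hz01 : ∀ z : Fin 3 → ℂ, eval z (X (Fin.castSucc 0) : MvPolynomial (Fin 3) ℂ) ≠ 0 →
      z ∘ Fin.castSucc ≠ 0 := by
    intro z hz h0
    apply hz
    rw [eval_X]
    exact congrFun h0 0
  have hz01' : ∀ z : Fin 3 → ℂ, eval z (X (Fin.castSucc 1) : MvPolynomial (Fin 3) ℂ) ≠ 0 →
      z ∘ Fin.castSucc ≠ 0 := by
    intro z hz h0
    apply hz
    rw [eval_X]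
    exact congrFun h0 1
  have hcolrow : ∀ r : τ → MvPolynomial (Fin 3) ℂ, InE E r → colMap u r = 0 → r = 0 := by
    intro r hr h0
    funext b
    apply eq_zero_of_eval (X_ne_zero (Fin.castSucc 0 : Fin 3))
    intro z hz
    have h1 := congrArg (rowEval z) h0
    rw [rowEval_colMap, rowEval_zero] at h1
    exact congrFun (hcolinj z (hz01 z hz) _ (hr z (hpi z (hz01 z hz))) h1) b
  -- the bundle on the line
  set Γ₂ : Submodule (MvPolynomial (Fin 2) ℂ) (κ' → MvPolynomial (Fin 2) ℂ) :=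
    Submodule.span _ (Set.range θ) with hΓ₂
  have hb₂ : IsBundle c Γ₂ E₂ := by
    refine ⟨?_, ?_, hfin₂, fun P hP e => rowComp_mem_span θ (fun _ => d) hθd hP e⟩
    · intro z _ P hP
      obtain ⟨a, ha⟩ := (Submodule.mem_span_range_iff_exists_fun _).mp hP
      rw [← ha, rowEval_sum]
      refine Submodule.sum_mem _ (fun j _ => ?_)
      rw [rowEval_smul]
      exact Submodule.smul_mem _ _ (Submodule.subset_span ⟨j, rfl⟩)
    · intro z hz
      obtain ⟨g, hg⟩ := exists_subfamily (fun i => rowEval z (θ i)) (hfin₂ z hz)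
      exact ⟨fun i => θ (g i), fun i => Submodule.subset_span ⟨g i, rfl⟩,
        fun i => ⟨d, hθd _⟩, hg⟩
  obtain ⟨ψ₂, f₂, hψhom, hψin, hψli, hψgen⟩ := line_split hb₂
  -- lifting
  have hcomb : ∀ (b : κ → MvPolynomial (Fin 2) ℂ),
      colMap u (∑ i, rename Fin.castSucc (b i) • F i) = ren (∑ i, b i • θ i) := by
    intro b
    rw [colMap_sum, hren_sum]
    refine Finset.sum_congr rfl (fun i _ => ?_)
    rw [colMap_smul, hren_smul, hθ i]
  have hlift : ∀ i, ∃ Ψ : τ → MvPolynomial (Fin 3) ℂ, HomRow (f₂ i) Ψ ∧ InE E Ψ ∧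
      colMap u Ψ = ren (ψ₂ i) := by
    intro i
    obtain ⟨K, hK⟩ := hb₂.exists_pow (g := X 0) (by simp) (hψin i)
    obtain ⟨K', hK'⟩ := hb₂.exists_pow (g := X 1) (by simp) (hψin i)
    obtain ⟨a, ha1, ha2, ha⟩ := exists_homog_coeffs
      (HomRow.smul (by simpa using (isHomogeneous_X ℂ (0 : Fin 2)).pow K) (hψhom i)) θ
      (fun _ => d) hθd hK
    obtain ⟨a', ha'⟩ := (Submodule.mem_span_range_iff_exists_fun _).mp hK'
    set A := ∑ i, rename Fin.castSucc (a i) • F i with hA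
    set B := ∑ i, rename Fin.castSucc (a' i) • F i with hB
    have hAh : HomRow (K + f₂ i) A := by
      refine homRow_comb F (fun _ => d) hFd _ (fun j => ?_) (fun j hj => ?_)
      · exact (ha1 j).rename_isHomogeneous
      · rw [ha2 j hj, map_zero]
    have hAin : InE E A := InE.sum _ _ (fun j _ => (hb.inE (hF j)).smul _)
    have hBin : InE E B := InE.sum _ _ (fun j _ => (hb.inE (hF j)).smul _)
    have hcolA : colMap u A =
        (X (Fin.castSucc 0) : MvPolynomial (Fin 3) ℂ) ^ K • ren (ψ₂ i) := by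
      rw [hA, hcomb, ha, hren_smul, map_pow, rename_X]
    have hcolB : colMap u B =
        (X (Fin.castSucc 1) : MvPolynomial (Fin 3) ℂ) ^ K' • ren (ψ₂ i) := by
      rw [hB, hcomb, ha', hren_smul, map_pow, rename_X]
    have hAB : (X (Fin.castSucc 1) : MvPolynomial (Fin 3) ℂ) ^ K' • A =
        (X (Fin.castSucc 0) : MvPolynomial (Fin 3) ℂ) ^ K • B := by
      rw [← sub_eq_zero]
      apply hcolrow _ ((hAin.smul _).sub (hBin.smul _))
      rw [colMap_sub, colMap_smul, colMap_smul, hcolA, hcolB, ← mul_smul, ← mul_smul, mul_comm,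
        sub_self]
    obtain ⟨Ψ, hΨ⟩ := exists_row_div (i := (Fin.castSucc 0 : Fin 3)) (j := Fin.castSucc 1)
      (by decide) hAB
    refine ⟨Ψ, ?_, ?_, ?_⟩
    · rw [hΨ] at hAh
      exact homRow_of_X_pow_smul _ _ hAh
    · rw [hΨ] at hAin
      exact hb.of_smul (pow_ne_zero _ (X_ne_zero _)) hAin
    · apply smul_row_cancel (pow_ne_zero K (X_ne_zero (Fin.castSucc 0 : Fin 3)))
      rw [← colMap_smul, ← hΨ, hcolA]
  choose Ψ hΨh hΨin hΨcol using hlift
  refine ⟨Ψ, f₂, hb.splitBasis_of_gen Ψ f₂ hΨh hΨin ?_⟩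
  intro e r _ hr
  -- membership of the columns
  have hli3 : ∀ z : Fin 3 → ℂ, z ∘ Fin.castSucc ≠ 0 →
      LinearIndependent ℂ (fun i => rowEval z (ren (ψ₂ i))) := by
    intro z hz
    have h1 := hψli _ hz
    simp only [hren_eval]
    exact h1
  have hspan3 : ∀ z : Fin 3 → ℂ, z ∘ Fin.castSucc ≠ 0 →
      ∀ P ∈ Submodule.span (MvPolynomial (Fin 3) ℂ) (Set.range fun i => ren (ψ₂ i)),
      rowEval z P ∈ E₂ (z ∘ Fin.castSucc) := by
    intro z hz P hP
    obtain ⟨a, ha⟩ := (Submodule.mem_span_range_iff_exists_fun _).mp hP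
    rw [← ha, rowEval_sum]
    refine Submodule.sum_mem _ (fun j _ => ?_)
    rw [rowEval_smul, hren_eval]
    exact Submodule.smul_mem _ _ (hψin j _ hz)
  have hcolmem : ∀ z : Fin 3 → ℂ, z ∘ Fin.castSucc ≠ 0 →
      rowEval z (colMap u r) ∈ E₂ (z ∘ Fin.castSucc) := by
    intro z hz
    rw [hE₂eq z hz, rowEval_colMap]
    exact ⟨_, hr z (hpi z hz), rfl⟩
  have hpow : ∀ j : Fin 2, ∃ K : ℕ, (X (Fin.castSucc j) : MvPolynomial (Fin 3) ℂ) ^ K •
      colMap u r ∈ Submodule.span (MvPolynomial (Fin 3) ℂ) (Set.range fun i => ren (ψ₂ i)) := by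
    intro j
    have hj : ∀ z : Fin 3 → ℂ, eval z (X (Fin.castSucc j) : MvPolynomial (Fin 3) ℂ) ≠ 0 →
        z ∘ Fin.castSucc ≠ 0 := by
      intro z hz h0
      apply hz
      rw [eval_X]
      exact congrFun h0 j
    apply exists_pow_smul_mem c
    · intro z hz
      exact ⟨fun i => ren (ψ₂ i), fun i => Submodule.subset_span ⟨i, rfl⟩, hli3 z (hj z hz)⟩
    · intro z hz P hP hliP
      rw [span_eq_of_li (hfin₂ _ (hj z hz)) _ hliP
        (fun i => hspan3 z (hj z hz) (P i) (hP i))]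
      exact hcolmem z (hj z hz)
  obtain ⟨K, hK⟩ := hpow 0
  obtain ⟨K', hK'⟩ := hpow 1
  have hmem := mem_span_of_two (fun i => ren (ψ₂ i)) (i := (Fin.castSucc 0 : Fin 3))
    (j := Fin.castSucc 1) (by decide) (fun z hz => hli3 z (hz01 z hz)) _ hK hK'
  obtain ⟨a, ha⟩ := (Submodule.mem_span_range_iff_exists_fun _).mp hmem
  have hfinal : r - ∑ i, a i • Ψ i = 0 := by
    apply hcolrow _ (hr.sub (InE.sum _ _ (fun i _ => (hΨin i).smul _)))
    rw [colMap_sub, colMap_sum, ← ha, sub_eq_zero]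
    refine Finset.sum_congr rfl (fun i _ => ?_)
    rw [colMap_smul, hΨcol i]
  rw [sub_eq_zero.mp hfinal]
  exact Submodule.sum_mem _ (fun i _ => Submodule.smul_mem _ _ (Submodule.subset_span ⟨i, rfl⟩))

end Plane

end Pool.Agent.Hartshorne
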