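import Mathlib
import Pool.Agent.Hartshorne.Horrocks
import Pool.Agent.Hartshorne.Transport

/-!
From a plane to a linear space: bundles whose restriction to a plane splits.
-/

namespace Pool.Agent.Hartshorne

open MvPolynomial

set_option linter.unusedSectionVars false

section Restr

variable {k : ℕ} {τ : Type*} [Fintype τ] {c : ℕ}

/-- The restricted module. -/
noncomputable def resMod
    (Γ : Submodule (MvPolynomial (Fin (k + 1)) ℂ) (τ → MvPolynomial (Fin (k + 1)) ℂ)) :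
    Submodule (MvPolynomial (Fin k) ℂ) (τ → MvPolynomial (Fin k) ℂ) where
  carrier := {r | ∃ P ∈ Γ, resR k P = r}
  zero_mem' := ⟨0, Γ.zero_mem, by
    funext b; rw [resR_apply, Pi.zero_apply, map_zero, Pi.zero_apply]⟩
  add_mem' := by
    rintro _ _ ⟨P, hP, rfl⟩ ⟨Q, hQ, rfl⟩
    exact ⟨P + Q, Γ.add_mem hP hQ, resR_add _ _⟩
  smul_mem' := by
    rintro a _ ⟨P, hP, rfl⟩
    exact ⟨rename Fin.castSucc a • P, Γ.smul_mem _ hP, by rw [resR_smul, resP_rename]⟩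

variable {Γ : Submodule (MvPolynomial (Fin (k + 1)) ℂ) (τ → MvPolynomial (Fin (k + 1)) ℂ)}
  {E : (Fin (k + 1) → ℂ) → Submodule ℂ (τ → ℂ)}

lemma snoc_ne_zero {z : Fin k → ℂ} (hz : z ≠ 0) : (Fin.snoc z 0 : Fin (k + 1) → ℂ) ≠ 0 := by
  intro h
  apply hz
  funext m
  have h1 := congrFun h (Fin.castSucc m)
  rwa [Fin.snoc_castSucc] at h1

/-- Restriction of bundles to a hyperplane. -/
theorem IsBundle.restrict (hb : IsBundle c Γ E) :
    IsBundle c (resMod Γ) (fun z => E (Fin.snoc z 0 : Fin (k + 1) → ℂ)) := by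
  refine ⟨?_, ?_, ?_, ?_⟩
  · rintro z hz _ ⟨P, hP, rfl⟩
    rw [rowEval_resR]
    exact hb.mem _ (snoc_ne_zero hz) P hP
  · intro z hz
    obtain ⟨P, hP, hPh, hli⟩ := hb.exists_li _ (snoc_ne_zero hz)
    refine ⟨fun i => resR k (P i), fun i => ⟨P i, hP i, rfl⟩, fun i => ?_, ?_⟩
    · obtain ⟨e, he⟩ := hPh i
      exact ⟨e, homRow_resR he⟩
    · simp only [rowEval_resR]
      exact hli
  · intro z hz
    exact hb.finrank _ (snoc_ne_zero hz)
  · rintro _ ⟨P, hP, rfl⟩ e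
    refine ⟨rowComp e P, hb.graded P hP e, ?_⟩
    funext b
    have h0 : rowComp e (resR k P) b = homogeneousComponent e (resP k (P b)) := rfl
    rw [h0, resR_apply, hc_algHom (resP k) (fun n f hf => isHomogeneous_resP hf)]
    rfl

end Restr

section Tower

variable {τ : Type*} [Fintype τ] {c : ℕ}

/-- Extension of points by zero. -/
noncomputable def ext3 : (m : ℕ) → (Fin 3 → ℂ) → (Fin (3 + m) → ℂ)
  | 0, z => z
  | m + 1, z => (Fin.snoc (ext3 m z) 0 : Fin (3 + m + 1) → ℂ)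

/-- Restriction of rows to the plane. -/
noncomputable def res3 : (m : ℕ) → (τ → MvPolynomial (Fin (3 + m)) ℂ) →
    (τ → MvPolynomial (Fin 3) ℂ)
  | 0, r => r
  | m + 1, r => res3 m (resR (3 + m) r)

lemma rowEval_res3 (m : ℕ) (z : Fin 3 → ℂ) (r : τ → MvPolynomial (Fin (3 + m)) ℂ) :
    rowEval z (res3 m r) = rowEval (ext3 m z) r := by
  induction m with
  | zero => rfl
  | succ m ih =>
    have h1 : res3 (m + 1) r = res3 m (resR (3 + m) r) := rfl
    rw [h1, ih, rowEval_resR]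
    rfl

lemma homRow_res3 (m : ℕ) {e : ℕ} {r : τ → MvPolynomial (Fin (3 + m)) ℂ} (hr : HomRow e r) :
    HomRow e (res3 m r) := by
  induction m with
  | zero => exact hr
  | succ m ih => exact ih (homRow_resR hr)

lemma ext3_ne_zero (m : ℕ) {z : Fin 3 → ℂ} (hz : z ≠ 0) : ext3 m z ≠ 0 := by
  induction m with
  | zero => exact hz
  | succ m ih => exact snoc_ne_zero ih

theorem exists_restrict3 (m : ℕ) :
    ∀ (Γ : Submodule (MvPolynomial (Fin (3 + m)) ℂ) (τ → MvPolynomial (Fin (3 + m)) ℂ))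
    (E : (Fin (3 + m) → ℂ) → Submodule ℂ (τ → ℂ)), IsBundle c Γ E →
    ∃ Γ₃ : Submodule (MvPolynomial (Fin 3) ℂ) (τ → MvPolynomial (Fin 3) ℂ),
      IsBundle c Γ₃ (fun z => E (ext3 m z)) ∧ ∀ P ∈ Γ, res3 m P ∈ Γ₃ := by
  induction m with
  | zero => intro Γ E hb; exact ⟨Γ, hb, fun P hP => hP⟩
  | succ m ih =>
    intro Γ E hb
    obtain ⟨Γ₃, h1, h2⟩ := ih _ _ hb.restrict
    exact ⟨Γ₃, h1, fun P hP => h2 _ ⟨P, hP, rfl⟩⟩

/-- A bundle on a linear space which splits on a plane splits. -/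
theorem tower (m : ℕ) :
    ∀ (Γ : Submodule (MvPolynomial (Fin (3 + m)) ℂ) (τ → MvPolynomial (Fin (3 + m)) ℂ))
    (E : (Fin (3 + m) → ℂ) → Submodule ℂ (τ → ℂ)), IsBundle c Γ E →
    (∃ ψ f, SplitBasis c (fun z => E (ext3 m z)) ψ f) → ∃ ψ f, SplitBasis c E ψ f := by
  induction m with
  | zero => intro Γ E hb h; exact h
  | succ m ih =>
    intro Γ E hb h
    have h1 := ih _ _ hb.restrict h
    exact horrocks_step (k := 3 + m) (by omega) hb hb.restrict (fun z _ => rfl)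
      (fun P hP => hP) h1

/-- Independent homogeneous sections form a basis. -/
theorem IsBundle.splitBasis_of_li {σ : Type*} [Fintype σ]
    {Γ : Submodule (MvPolynomial σ ℂ) (τ → MvPolynomial σ ℂ)}
    {E : (σ → ℂ) → Submodule ℂ (τ → ℂ)} (hb : IsBundle c Γ E) {i j : σ} (hij : i ≠ j)
    (ψ : Fin c → τ → MvPolynomial σ ℂ) (f : Fin c → ℕ) (hhom : ∀ i, HomRow (f i) (ψ i))
    (hin : ∀ i, InE E (ψ i))
    (hli : ∀ z ≠ 0, LinearIndependent ℂ (fun i => rowEval z (ψ i))) : SplitBasis c E ψ f := by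
  refine ⟨hhom, hin, hli, fun e r hr hrE => ?_⟩
  have hb' : IsBundle c (Submodule.span (MvPolynomial σ ℂ) (Set.range ψ)) E := by
    refine ⟨?_, ?_, hb.finrank, ?_⟩
    · intro z hz P hP
      obtain ⟨a, rfl⟩ := (Submodule.mem_span_range_iff_exists_fun _).mp hP
      rw [rowEval_sum]
      refine Submodule.sum_mem _ (fun i _ => ?_)
      rw [rowEval_smul]
      exact Submodule.smul_mem _ _ (hin i z hz)
    · intro z hz
      exact ⟨ψ, fun i => Submodule.subset_span ⟨i, rfl⟩, fun i => ⟨f i, hhom i⟩, hli z hz⟩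
    · intro P hP e
      exact rowComp_mem_span ψ f hhom hP e
  obtain ⟨K, hK⟩ := hb'.exists_pow (g := X i) (by simp) hrE
  obtain ⟨K', hK'⟩ := hb'.exists_pow (g := X j) (by simp) hrE
  refine mem_span_of_two ψ hij (fun z hz => hli z ?_) r hK hK'
  rintro rfl
  rw [eval_X] at hz
  exact hz rfl

end Tower

section Assemble

variable {ρ : Type*} [Fintype ρ] [DecidableEq ρ] {c m n : ℕ}
  (Φ : (Fin (3 + m) ⊕ Fin n → ℂ) ≃ₗ[ℂ] (ρ → ℂ)) (I : Ideal (MvPolynomial ρ ℂ))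

lemma finrank_gradSpan_le
    (hL : ∀ (z : Fin (3 + m) → ℂ), ∀ h ∈ I, eval (Φ (Sum.elim z 0)) h = 0)
    (z : Fin (3 + m) → ℂ) :
    Module.finrank ℂ (gradSpan I (Φ (Sum.elim z 0))) ≤ Module.finrank ℂ (rowE (tI Φ I) z) := by
  set f : gradSpan I (Φ (Sum.elim z 0)) →ₗ[ℂ] rowE (tI Φ I) z :=
    ((contr Φ).domRestrict _).codRestrict _ (fun w => contr_mem Φ I w.2) with hf
  refine LinearMap.finrank_le_finrank_of_injective (f := f) ?_
  rw [injective_iff_map_eq_zero]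
  intro w hw
  have h1 : contr Φ (w : ρ → ℂ) = 0 := congrArg Subtype.val hw
  exact Subtype.ext (contr_injOn Φ I hL z w.2 h1)

lemma isBundle_tI (hI : I.IsPrime) (hhom : ∀ f ∈ I, ∀ e, homogeneousComponent e f ∈ I)
    (hdim : ((Fintype.card ρ : ℕ) : WithBot ℕ∞) ≤
      ringKrullDim (MvPolynomial ρ ℂ ⧸ I) + (c : WithBot ℕ∞))
    (hL : ∀ (z : Fin (3 + m) → ℂ), ∀ h ∈ I, eval (Φ (Sum.elim z 0)) h = 0)
    (hsm : ∀ z : Fin (3 + m) → ℂ, z ≠ 0 →
      c ≤ Module.finrank ℂ (gradSpan I (Φ (Sum.elim z 0)))) :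
    IsBundle c (rowMod (tI_le Φ I hL)) (rowE (tI Φ I)) := by
  refine isBundle_rowMod (tI_isPrime Φ I hI) (tI_hom Φ I hhom) (tI_le Φ I hL) ?_
    (fun z hz => (hsm z hz).trans (finrank_gradSpan_le Φ I hL z))
  have hcard : Fintype.card (Fin (3 + m) ⊕ Fin n) = Fintype.card ρ := by
    have h1 := Φ.finrank_eq
    rwa [Module.finrank_fintype_fun_eq_card, Module.finrank_fintype_fun_eq_card] at h1
  rw [tI_dim, hcard]
  exact hdim

theorem assemble (hm : c + 2 ≤ 3 + m) (hI : I.IsPrime)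
    (hhom : ∀ f ∈ I, ∀ e, homogeneousComponent e f ∈ I)
    (hdim : ((Fintype.card ρ : ℕ) : WithBot ℕ∞) ≤
      ringKrullDim (MvPolynomial ρ ℂ ⧸ I) + (c : WithBot ℕ∞))
    (hL : ∀ (z : Fin (3 + m) → ℂ), ∀ h ∈ I, eval (Φ (Sum.elim z 0)) h = 0)
    (hsm : ∀ z : Fin (3 + m) → ℂ, z ≠ 0 →
      c ≤ Module.finrank ℂ (gradSpan I (Φ (Sum.elim z 0))))
    (hsplit : ∃ ψ f, SplitBasis c (fun z => rowE (tI Φ I) (ext3 m z)) ψ f) :
    ∃ F : Fin c → MvPolynomial ρ ℂ, (∀ k, ∃ e, (F k).IsHomogeneous e) ∧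
      Ideal.span (Set.range F) = I := by
  have hcard : Fintype.card (Fin (3 + m) ⊕ Fin n) = Fintype.card ρ := by
    have h1 := Φ.finrank_eq
    rwa [Module.finrank_fintype_fun_eq_card, Module.finrank_fintype_fun_eq_card] at h1
  have hb := isBundle_tI Φ I hI hhom hdim hL hsm
  obtain ⟨ψ, f, hψh, hψE, hli, -⟩ := tower m _ _ hb hsplit
  obtain ⟨F, hF, hFs⟩ := core_L2 (J := tI Φ I) c (by rw [Fintype.card_fin]; exact hm)
    (tI_isPrime Φ I hI) (tI_hom Φ I hhom) (tI_le Φ I hL) (by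
      rw [tI_dim, hcard]; exact hdim) ψ f hψh hψE hli
  exact ⟨_, fun k => ⟨_, isHomogeneous_lsub _ _ _ (hF k)⟩, tI_span Φ I hFs⟩

end Assemble

end Pool.Agent.Hartshorne
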