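import Mathlib
import Pool.Agent.Hartshorne.Assemble
import Pool.Agent.Hartshorne.Exist
import Pool.Agent.Hartshorne.GenPos
import Pool.Agent.Hartshorne.Plane
import Pool.Agent.Hartshorne.Tower

/-!
Complete intersections from forms of small degree.
-/

namespace Pool.Agent.Hartshorne

open MvPolynomial

set_option linter.unusedSectionVars false

section H

variable {ρ : Type*} [Fintype ρ] [DecidableEq ρ]

/-- Directional derivative. -/
noncomputable def ddir (u : ρ → ℂ) (g : MvPolynomial ρ ℂ) : MvPolynomial ρ ℂ :=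
  ∑ b, C (u b) * pderiv b g

lemma eval_ddir (u : ρ → ℂ) (g : MvPolynomial ρ ℂ) (p : ρ → ℂ) :
    eval p (ddir u g) = ∑ b, u b * eval p (pderiv b g) := by
  rw [ddir, map_sum]
  refine Finset.sum_congr rfl (fun b _ => ?_)
  rw [map_mul, eval_C]

lemma ddir_isHomogeneous (u : ρ → ℂ) {g : MvPolynomial ρ ℂ} {d : ℕ} (hg : g.IsHomogeneous d) :
    (ddir u g).IsHomogeneous (d - 1) := by
  refine IsHomogeneous.sum _ _ _ (fun b _ => ?_)
  have h1 := (isHomogeneous_C ρ (u b)).mul (hg.pderiv (i := b))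
  rwa [zero_add] at h1

/-- Gradients restricted to a line. -/
noncomputable def Trow (I : Ideal (MvPolynomial ρ ℂ)) (d : ℕ) (e : Fin 2 → (ρ → ℂ)) :
    Vd I d →ₗ[ℂ] (ρ → MvPolynomial (Fin 2) ℂ) :=
  LinearMap.pi (fun b => (lsub (comb e)).toLinearMap ∘ₗ (pderiv b).toLinearMap ∘ₗ
    (Vd I d).subtype)

lemma Trow_apply (I : Ideal (MvPolynomial ρ ℂ)) (d : ℕ) (e : Fin 2 → (ρ → ℂ)) (g : Vd I d)
    (b : ρ) : Trow I d e g b = lsub (comb e) (pderiv b (g : MvPolynomial ρ ℂ)) := rfl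

/-- Columns. -/
noncomputable def Tcol {κ : Type*} (r : κ → ρ → MvPolynomial (Fin 2) ℂ) :
    (ρ → ℂ) →ₗ[ℂ] (κ → MvPolynomial (Fin 2) ℂ) where
  toFun := fun u i => ∑ b, C (u b) * r i b
  map_add' := by
    intro x y; funext i
    simp only [Pi.add_apply, map_add, add_mul, Finset.sum_add_distrib]
  map_smul' := by
    intro t x; funext i
    simp only [Pi.smul_apply, smul_eq_mul, map_mul, RingHom.id_apply, Finset.smul_sum]
    refine Finset.sum_congr rfl (fun b _ => ?_)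
    rw [mul_assoc, smul_eq_C_mul]

lemma Tcol_apply {κ : Type*} (r : κ → ρ → MvPolynomial (Fin 2) ℂ) (u : ρ → ℂ) (i : κ) :
    Tcol r u i = ∑ b, C (u b) * r i b := rfl

/-- Data on the line: `c + 1` forms and `c + 1` directions. -/
theorem exists_line_data {c d : ℕ} (I : Ideal (MvPolynomial ρ ℂ)) (e : Fin 2 → (ρ → ℂ))
    (hV : ∀ z : Fin 2 → ℂ, z ≠ 0 → ∃ w : Fin c → Vd I d,
      LinearIndependent ℂ (fun k => grad (comb e z) (w k : MvPolynomial ρ ℂ))) :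
    ∃ (F : Fin (c + 1) → Vd I d) (u : Fin (c + 1) → (ρ → ℂ)), ∀ z : Fin 2 → ℂ, z ≠ 0 →
      c ≤ Module.finrank ℂ (Submodule.span ℂ (Set.range fun i => rowEval z
        (fun a => lsub (comb e) (ddir (u a) (F i : MvPolynomial ρ ℂ))))) := by
  classical
  have hrow : ∀ z (g : Vd I d), rowEval z (Trow I d e g) =
      grad (comb e z) (g : MvPolynomial ρ ℂ) := by
    intro z g
    funext b
    rw [rowEval_apply, Trow_apply, eval_lsub, grad_apply]
  obtain ⟨F, hF⟩ := gen_pos (T := Trow I d e) (e := d - 1) (c := c) (by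
    intro g b
    rw [Trow_apply]
    exact isHomogeneous_lsub _ _ _ ((Vd_hom g).pderiv)) (by
    intro z hz
    obtain ⟨w, hw⟩ := hV z hz
    refine ⟨w, ?_⟩
    simp only [hrow]
    exact hw)
  set r : Fin (c + 1) → ρ → MvPolynomial (Fin 2) ℂ := fun i => Trow I d e (F i) with hr
  obtain ⟨u, hu⟩ := gen_pos (T := Tcol r) (e := d - 1) (c := c) (by
    intro u i
    rw [Tcol_apply]
    refine IsHomogeneous.sum _ _ _ (fun b _ => ?_)
    have h1 := (isHomogeneous_C (Fin 2) (u b)).mul (isHomogeneous_lsub (comb e) _ _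
      ((Vd_hom (F i)).pderiv (i := b)))
    rwa [zero_add] at h1) (by
    intro z hz
    have h1 := hF z hz
    rw [valSpan, finrank_span_transpose, ← Set.image_univ] at h1
    obtain ⟨b, -, hb⟩ := exists_li_of_le _ _ h1
    refine ⟨fun k => Pi.single (b k) 1, ?_⟩
    have hfun : (fun k => rowEval z (Tcol r (Pi.single (b k) 1))) =
        (fun k i => rowEval z (Trow I d e (F i)) (b k)) := by
      funext k i
      rw [rowEval_apply, Tcol_apply, map_sum, Finset.sum_eq_single (b k)]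
      · rw [Pi.single_eq_same, C_1, one_mul]
        rfl
      · intro b' _ hb'
        rw [Pi.single_eq_of_ne hb', C_0, zero_mul, map_zero]
      · intro h; exact absurd (Finset.mem_univ _) h
    simp only
    rw [hfun]
    exact hb)
  refine ⟨F, u, fun z hz => ?_⟩
  have h1 := hu z hz
  rw [valSpan, finrank_span_transpose] at h1
  have hfun : (fun i => rowEval z
      (fun a => lsub (comb e) (ddir (u a) (F i : MvPolynomial ρ ℂ)))) =
      (fun i a => rowEval z (Tcol r (u a)) i) := by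
    funext i a
    rw [rowEval_apply, rowEval_apply, Tcol_apply, ddir, map_sum]
    congr 1
    refine Finset.sum_congr rfl (fun b _ => ?_)
    rw [map_mul]
    have h2 : lsub (comb e) (C (u a b)) = C (u a b) := by
      rw [← algebraMap_eq, ← algebraMap_eq]
      exact (lsub (comb e)).commutes _
    rw [h2]
    rfl
  rw [hfun]
  exact h1

/-- Directional derivatives in adapted coordinates. -/
lemma dir_eq {m n : ℕ} (Φ : (Fin (3 + m) ⊕ Fin n → ℂ) ≃ₗ[ℂ] (ρ → ℂ))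
    (I : Ideal (MvPolynomial ρ ℂ))
    (hL : ∀ (z : Fin (3 + m) → ℂ), ∀ h ∈ I, eval (Φ (Sum.elim z 0)) h = 0)
    (u : ρ → ℂ) {g : MvPolynomial ρ ℂ} (hg : g ∈ I) (y : Fin (3 + m) → ℂ) :
    eval (Φ (Sum.elim y 0)) (ddir u g) = ∑ b, Φ.symm u (Sum.inr b) *
      rowEval y (rowOf (lsub (Φ : (Fin (3 + m) ⊕ Fin n → ℂ) →ₗ[ℂ] (ρ → ℂ)) g)) b := by
  have hu : u = ∑ j, Φ.symm u j • Φ (Pi.single j 1) := by
    conv_lhs => rw [← Φ.apply_symm_apply u, pi_eq_sum_univ' (Φ.symm u), map_sum]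
    refine Finset.sum_congr rfl (fun j _ => ?_)
    rw [map_smul]
  have h1 : eval (Φ (Sum.elim y 0)) (ddir u g) = ∑ j, Φ.symm u j *
      eval (Sum.elim y 0) (pderiv j (lsub (Φ : (Fin (3 + m) ⊕ Fin n → ℂ) →ₗ[ℂ] (ρ → ℂ)) g)) := by
    rw [eval_ddir]
    conv_lhs => rw [hu]
    simp only [Finset.sum_apply, Pi.smul_apply, smul_eq_mul, Finset.sum_mul]
    rw [Finset.sum_comm]
    refine Finset.sum_congr rfl (fun j _ => ?_)
    rw [← sum_grad, Finset.mul_sum]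
    refine Finset.sum_congr rfl (fun i _ => ?_)
    rw [mul_assoc]
  rw [h1, Fintype.sum_sum_type]
  have h2 : ∀ a : Fin (3 + m), Φ.symm u (Sum.inl a) * eval (Sum.elim y 0)
      (pderiv (Sum.inl a) (lsub (Φ : (Fin (3 + m) ⊕ Fin n → ℂ) →ₗ[ℂ] (ρ → ℂ)) g)) = 0 := by
    intro a
    have h3 := (mem_posIdeal_iff _).mp (tI_le Φ I hL (lsub_mem_tI Φ I hg))
    rw [← eval_projZ, projZ_pderiv_inl, h3, map_zero, map_zero, mul_zero]
  rw [Finset.sum_eq_zero (fun a _ => h2 a), zero_add]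
  refine Finset.sum_congr rfl (fun b _ => ?_)
  rw [rowEval_rowOf]

lemma choose_bound {k c d : ℕ} (hd : 1 ≤ d) (hk : k ≤ c + 1) :
    (k + d - 1).choose k ≤ (c + d).choose (c + 1) := by
  obtain ⟨d', rfl⟩ := Nat.exists_eq_add_of_le' hd
  have h1 : k + (d' + 1) - 1 = k + d' := by omega
  have h2 : c + (d' + 1) = (c + 1) + d' := by omega
  rw [h1, h2, Nat.choose_symm_add, Nat.choose_symm_add]
  exact Nat.choose_le_choose _ (by omega)

/-- Enlarging a linear space on which `c` forms vanish. -/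
lemma extend_one {c d : ℕ} (hd : 1 ≤ d) (Λ : Submodule ℂ (ρ → ℂ))
    (hΛ : c * (c + d).choose (c + 1) + c + 2 ≤ Module.finrank ℂ Λ) {k : ℕ} (hk : k ≤ c + 1)
    (e : Fin k → (ρ → ℂ)) (he : ∀ i, e i ∈ Λ) (hli : LinearIndependent ℂ e)
    (F : Fin c → MvPolynomial ρ ℂ) (hF : ∀ i, (F i).IsHomogeneous d)
    (hFe : ∀ i z, eval (comb e z) (F i) = 0) :
    ∃ w ∈ Λ, LinearIndependent ℂ (Fin.snoc e w : Fin (k + 1) → (ρ → ℂ)) ∧
      ∀ i z, eval (comb (Fin.snoc e w : Fin (k + 1) → (ρ → ℂ)) z) (F i) = 0 := by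
  obtain ⟨w, hw, hwli, hwe⟩ := select Λ e he hli F (fun _ => d) hF (by
    rw [Finset.sum_const, Finset.card_univ, Fintype.card_fin, smul_eq_mul]
    have h1 := Nat.mul_le_mul_left c (choose_bound (c := c) hd hk)
    omega)
  exact ⟨w, hw, hwli, fun i z => by rw [eval_snoc e w (hF i) (hwe i), hFe]⟩

lemma snoc_mem {k : ℕ} {Λ : Submodule ℂ (ρ → ℂ)} {e : Fin k → (ρ → ℂ)} (he : ∀ i, e i ∈ Λ)
    {w : ρ → ℂ} (hw : w ∈ Λ) : ∀ i, (Fin.snoc e w : Fin (k + 1) → (ρ → ℂ)) i ∈ Λ := by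
  intro i
  refine Fin.lastCases ?_ (fun j => ?_) i
  · rw [Fin.snoc_last]; exact hw
  · rw [Fin.snoc_castSucc]; exact he j

/-- **Theorem H**, core version. -/
theorem core_H (c d : ℕ) (hc : 0 < c) (Λ : Submodule ℂ (ρ → ℂ))
    (hΛ1 : c * (c + d).choose (c + 1) + c + 2 ≤ Module.finrank ℂ Λ)
    (hΛ2 : c * (d + 1).choose 2 + (c + 1) ^ 2 * d.choose 2 + 3 ≤ Module.finrank ℂ Λ)
    (I : Ideal (MvPolynomial ρ ℂ)) (hI : I.IsPrime)
    (hhom : ∀ f ∈ I, ∀ e, homogeneousComponent e f ∈ I)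
    (hdim : ((Fintype.card ρ : ℕ) : WithBot ℕ∞) ≤
      ringKrullDim (MvPolynomial ρ ℂ ⧸ I) + (c : WithBot ℕ∞))
    (hcut : ∀ p ∈ Λ, p ≠ 0 → (∀ h ∈ I, eval p h = 0) →
      ∃ q : Fin c → MvPolynomial ρ ℂ, (∀ k, q k ∈ I ∧ ∃ e ≤ d, (q k).IsHomogeneous e) ∧
        LinearIndependent ℂ (fun k => fun j => eval p (pderiv j (q k)))) :
    ∃ F : Fin c → MvPolynomial ρ ℂ, (∀ k, ∃ e, (F k).IsHomogeneous e) ∧
      Ideal.span (Set.range F) = I := by
  classical
  have hV : ∀ p ∈ Λ, p ≠ 0 → (∀ h ∈ I, eval p h = 0) → ∃ w : Fin c → Vd I d,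
      LinearIndependent ℂ (fun k => grad p (w k : MvPolynomial ρ ℂ)) := by
    intro p hpΛ hp hpI
    obtain ⟨q, hq, hli⟩ := hcut p hpΛ hp hpI
    exact exists_Vd hp hpI q hq hli
  obtain ⟨p₀, hp₀Λ, hp₀, hp₀I⟩ := exists_zero Λ I hhom hdim (by omega)
  obtain ⟨F, hF⟩ := hV p₀ hp₀Λ hp₀ hp₀I
  have hFh : ∀ i, (F i : MvPolynomial ρ ℂ).IsHomogeneous d := fun i => Vd_hom (F i)
  have hFI : ∀ i, (F i : MvPolynomial ρ ℂ) ∈ I := fun i => Vd_mem (F i)
  -- the degree is positive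
  have hd : 1 ≤ d := by
    by_contra hd
    have hd0 : d = 0 := by omega
    subst hd0
    apply hF.ne_zero ⟨0, hc⟩
    have h1 := totalDegree_eq_zero_iff_eq_C.mp (Nat.le_zero.mp (hFh ⟨0, hc⟩).totalDegree_le)
    funext j
    rw [grad_apply, h1, pderiv_C, map_zero]
    rfl
  -- the point
  set e₁ : Fin 1 → (ρ → ℂ) := fun _ => p₀ with he₁
  have he₁li : LinearIndependent ℂ e₁ := linearIndependent_unique_iff.mpr hp₀
  have he₁F : ∀ i z, eval (comb e₁ z) (F i : MvPolynomial ρ ℂ) = 0 := by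
    intro i z
    have h1 : comb e₁ z = z 0 • p₀ := by
      rw [comb_apply, Fin.sum_univ_one]
    rw [h1, eval_smul_of_isHomogeneous (hFh i), hp₀I _ (hFI i), mul_zero]
  -- the line
  obtain ⟨v₀, hv₀Λ, he₂li, he₂F⟩ := extend_one hd Λ hΛ1 (by omega) e₁ (fun _ => hp₀Λ) he₁li
    (fun i => (F i : MvPolynomial ρ ℂ)) hFh he₁F
  set e₂ : Fin 2 → (ρ → ℂ) := (Fin.snoc e₁ v₀ : Fin (1 + 1) → (ρ → ℂ)) with he₂
  have he₂Λ : ∀ i, e₂ i ∈ Λ := snoc_mem (fun _ => hp₀Λ) hv₀Λ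
  have he₂p : comb e₂ (Pi.single 0 1) = p₀ := by
    rw [he₂, comb_snoc, comb_apply, Fin.sum_univ_one]
    have h1 : (Fin.castSucc (0 : Fin 1)) = (0 : Fin 2) := rfl
    have h2 : (Fin.last 1) = (1 : Fin 2) := rfl
    rw [h1, h2]
    simp [he₁]
  have hvan₂ : ∀ z, ∀ h ∈ I, eval (comb e₂ z) h = 0 :=
    vanish_on I hI hdim e₂ (Pi.single 0 1) (by rw [he₂p]; exact hp₀I)
      (fun i => (F i : MvPolynomial ρ ℂ)) hFI (by rw [he₂p]; exact hF) he₂F
  obtain ⟨F', u, hrank⟩ := exists_line_data (c := c) (d := d) I e₂ (fun z hz =>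
    hV _ (comb_mem he₂Λ z) (comb_ne_zero he₂li hz) (hvan₂ z))
  -- the plane
  set g : (Fin c ⊕ (Fin (c + 1) × Fin (c + 1))) → MvPolynomial ρ ℂ :=
    Sum.elim (fun i => (F i : MvPolynomial ρ ℂ))
      (fun x => ddir (u x.2) (F' x.1 : MvPolynomial ρ ℂ)) with hg
  obtain ⟨w₁, hw₁Λ, he₃li, he₃g⟩ := select Λ e₂ he₂Λ he₂li g
    (Sum.elim (fun _ => d) (fun _ => d - 1)) (by
      rintro (i | x)
      · exact hFh i
      · exact ddir_isHomogeneous _ (Vd_hom _)) (by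
      rw [Fintype.sum_sum_type]
      simp only [Sum.elim_inl, Sum.elim_inr]
      rw [Finset.sum_const, Finset.sum_const, Finset.card_univ, Finset.card_univ,
        Fintype.card_prod, Fintype.card_fin, Fintype.card_fin, smul_eq_mul, smul_eq_mul]
      have h1 : 2 + d - 1 = d + 1 := by omega
      have h2 : 2 + (d - 1) - 1 = d := by omega
      have h3 : (c + 1) * (c + 1) = (c + 1) ^ 2 := by ring
      rw [h1, h2, h3]
      omega)
  set e₃ : Fin 3 → (ρ → ℂ) := (Fin.snoc e₂ w₁ : Fin (2 + 1) → (ρ → ℂ)) with he₃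
  have he₃Λ : ∀ i, e₃ i ∈ Λ := snoc_mem he₂Λ hw₁Λ
  have he₃F : ∀ i z, eval (comb e₃ z) (F i : MvPolynomial ρ ℂ) = 0 := by
    intro i z
    rw [he₃, eval_snoc e₂ w₁ (hFh i) (he₃g (Sum.inl i)), he₂F]
  have he₃D : ∀ i a z, eval (comb e₃ z) (ddir (u a) (F' i : MvPolynomial ρ ℂ)) =
      eval (comb e₂ (fun l => z (Fin.castSucc l))) (ddir (u a) (F' i : MvPolynomial ρ ℂ)) := by
    intro i a z
    rw [he₃, eval_snoc e₂ w₁ (ddir_isHomogeneous _ (Vd_hom _)) (he₃g (Sum.inr (i, a)))]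
  have he₃p : ∃ z, comb e₃ z = p₀ := by
    refine ⟨(Fin.snoc (Pi.single 0 1 : Fin 2 → ℂ) 0 : Fin (2 + 1) → ℂ), ?_⟩
    rw [he₃, comb_snoc, Fin.snoc_last, zero_smul, add_zero]
    simp only [Fin.snoc_castSucc]
    exact he₂p
  -- the linear space
  have hiter : ∀ m, 3 + m ≤ c + 2 → ∃ e : Fin (3 + m) → (ρ → ℂ), (∀ i, e i ∈ Λ) ∧
      LinearIndependent ℂ e ∧ (∀ z, comb e (ext3 m z) = comb e₃ z) ∧
      ∀ i z, eval (comb e z) (F i : MvPolynomial ρ ℂ) = 0 := by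
    intro m
    induction m with
    | zero => intro _; exact ⟨e₃, he₃Λ, he₃li, fun _ => rfl, he₃F⟩
    | succ m ih =>
      intro hm
      obtain ⟨e, heΛ, heli, he3, heF⟩ := ih (by omega)
      obtain ⟨w, hw, hwli, hwF⟩ := extend_one hd Λ hΛ1 (by omega) e heΛ heli
        (fun i => (F i : MvPolynomial ρ ℂ)) hFh heF
      refine ⟨(Fin.snoc e w : Fin (3 + m + 1) → (ρ → ℂ)), snoc_mem heΛ hw, hwli,
        fun z => ?_, hwF⟩
      have h1 : ext3 (m + 1) z = (Fin.snoc (ext3 m z) 0 : Fin (3 + m + 1) → ℂ) := rfl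
      rw [h1]
      refine (comb_snoc e w _).trans ?_
      rw [Fin.snoc_last, zero_smul, add_zero]
      simp only [Fin.snoc_castSucc]
      exact he3 z
  obtain ⟨c', rfl⟩ := Nat.exists_eq_succ_of_ne_zero hc.ne'
  obtain ⟨e, heΛ, heli, he3, heF⟩ := hiter c' (by omega)
  obtain ⟨z₃, hz₃⟩ := he₃p
  have hpe : comb e (ext3 c' z₃) = p₀ := by rw [he3, hz₃]
  have hvan : ∀ z, ∀ h ∈ I, eval (comb e z) h = 0 :=
    vanish_on I hI hdim e (ext3 c' z₃) (by rw [hpe]; exact hp₀I)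
      (fun i => (F i : MvPolynomial ρ ℂ)) hFI (by rw [hpe]; exact hF) heF
  obtain ⟨n, Φ, hΦ⟩ := exists_extend (comb e) (comb_injective heli)
  have hL : ∀ (z : Fin (3 + c') → ℂ), ∀ h ∈ I, eval (Φ (Sum.elim z 0)) h = 0 := by
    intro z h hh
    rw [hΦ]; exact hvan z h hh
  have hsm : ∀ z : Fin (3 + c') → ℂ, z ≠ 0 →
      c' + 1 ≤ Module.finrank ℂ (gradSpan I (Φ (Sum.elim z 0))) := by
    intro z hz
    rw [hΦ]
    obtain ⟨q, hq, hli⟩ := hcut (comb e z) (comb_mem heΛ z) (comb_ne_zero heli hz) (hvan z)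
    have h1 : Submodule.span ℂ (Set.range fun k => fun j => eval (comb e z) (pderiv j (q k))) ≤
        gradSpan I (comb e z) := by
      rw [Submodule.span_le]
      rintro _ ⟨k, rfl⟩
      exact Submodule.subset_span ⟨q k, (hq k).1, rfl⟩
    have h2 := Submodule.finrank_mono h1
    rwa [finrank_span_eq_card hli, Fintype.card_fin] at h2
  refine assemble Φ I (by omega) hI hhom hdim hL hsm ?_
  have hb := isBundle_tI Φ I hI hhom hdim hL hsm
  obtain ⟨Γ₃, hb₃, hΓ₃⟩ := exists_restrict3 c' _ _ hb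
  refine plane_split hb₃ (fun i => res3 c' (rowOf (lsub
      (Φ : (Fin (3 + c') ⊕ Fin n → ℂ) →ₗ[ℂ] (ρ → ℂ)) (F' i : MvPolynomial ρ ℂ)))) ?_ (d - 1) ?_
    (fun a b => Φ.symm (u a) (Sum.inr b))
    (fun i a => lsub (comb e₂) (ddir (u a) (F' i : MvPolynomial ρ ℂ))) ?_ hrank
  · intro i
    exact hΓ₃ _ ⟨_, lsub_mem_tI Φ I (Vd_mem (F' i)), rfl⟩
  · intro i
    apply homRow_res3
    apply homRow_rowOf
    rw [Nat.sub_add_cancel hd]
    exact isHomogeneous_lsub _ _ _ (Vd_hom (F' i))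
  · intro i
    funext a
    apply MvPolynomial.funext
    intro z
    rw [← rowEval_apply z (colMap _ _) a, rowEval_colMap, rowEval_res3, eval_rename, eval_lsub]
    have h1 : eval (comb e₂ (z ∘ Fin.castSucc)) (ddir (u a) (F' i : MvPolynomial ρ ℂ)) =
        eval (Φ (Sum.elim (ext3 c' z) 0)) (ddir (u a) (F' i : MvPolynomial ρ ℂ)) := by
      rw [hΦ, he3, he₃D]
      rfl
    rw [h1, dir_eq Φ I hL (u a) (Vd_mem (F' i))]
    rfl

end H

end Pool.Agent.Hartshorne
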