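import Mathlib
import Pool.Agent.Hartshorne.Point

/-!
Leading forms at a point.
-/

namespace Pool.Agent.Hartshorne

open MvPolynomial

set_option linter.unusedSectionVars false

/-- Leading forms at a point of elements of a prime ideal which is smooth there. -/
theorem point_lead {ρ : Type*} [Fintype ρ] (J : Ideal (MvPolynomial ρ ℂ))
    (hJ : J.IsPrime) (p : ρ → ℂ) (hp : ∀ h ∈ J, eval p h = 0) (n : ℕ)
    (F : Fin n → MvPolynomial ρ ℂ) (hF : ∀ k, F k ∈ J)
    (hli : LinearIndependent ℂ (fun k => grad p (F k)))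
    (hdim : ((Fintype.card ρ : ℕ) : WithBot ℕ∞) ≤
        ringKrullDim (MvPolynomial ρ ℂ ⧸ J) + (n : WithBot ℕ∞)) {g : MvPolynomial ρ ℂ}
    (hg : g ∈ J) {k : ℕ} (hk : Low (fun _ : ρ => 1) k (trans p g)) :
    weightedHomogeneousComponent (fun _ : ρ => 1) k (trans p g) ∈
      Ideal.span (Set.range fun i => weightedHomogeneousComponent (fun _ : ρ => 1) 1
        (trans p (F i))) := by
  classical
  have hTT' : ∀ f, trans p (trans (-p) f) = f := by
    intro f; rw [trans_trans, add_neg_cancel, trans_zero]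
  have hT'T : ∀ f, trans (-p) (trans p f) = f := by
    intro f; rw [trans_trans, neg_add_cancel, trans_zero]
  set J' := J.comap (trans (-p)).toRingHom with hJ'
  have hmem : ∀ f, f ∈ J' ↔ trans (-p) f ∈ J := fun f => Iff.rfl
  have hJ'p : J'.IsPrime := Ideal.comap_isPrime _ _
  set F' : ℕ → MvPolynomial ρ ℂ := fun i => if h : i < n then trans p (F ⟨i, h⟩) else 0 with hF'
  have hF'i : ∀ i (h : i < n), F' i = trans p (F ⟨i, h⟩) := by
    intro i h; simp only [hF']; rw [dif_pos h]
  set v : ρ → ℕ := fun _ => 1 with hv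
  have hwc0 : ∀ f : MvPolynomial ρ ℂ, weightedHomogeneousComponent v 0 f = C (eval 0 f) := by
    intro f
    rw [weightedHomogeneousComponent_zero (φ := f) (w := v) (fun _ => one_ne_zero),
      eval_zero_eq_coeff]
  have hJq : J' ≤ posIdeal v := by
    intro f hf
    rw [mem_posIdeal, hwc0]
    have h1 := hp _ ((hmem f).mp hf)
    rw [eval_trans, add_neg_cancel] at h1
    rw [h1, C_0]
  have hF'J : ∀ i < n, F' i ∈ J' := by
    intro i hi
    rw [hF'i i hi, hmem, hT'T]
    exact hF _
  have hF0 : ∀ i < n, weightedHomogeneousComponent v 0 (F' i) = 0 := by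
    intro i hi
    exact mem_posIdeal.mp (hJq (hF'J i hi))
  set ℓ : ℕ → MvPolynomial ρ ℂ := fun j => weightedHomogeneousComponent v 1 (F' j) with hℓ
  have hcoef : ∀ f : MvPolynomial ρ ℂ, ∀ l, coeff (Finsupp.single l 1)
      (weightedHomogeneousComponent v 1 f) = grad 0 f l := by
    intro f l
    rw [coeff_weightedHomogeneousComponent, if_pos, grad_zero_apply]
    rw [Finsupp.weight_single, one_smul]
  have hgradℓ : ∀ i (h : i < n), (fun l => coeff (Finsupp.single l 1) (ℓ i)) =
      grad p (F ⟨i, h⟩) := by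
    intro i h
    funext l
    rw [hℓ]
    simp only
    rw [hcoef, hF'i i h, grad_trans]
  set L : ℕ → Ideal (MvPolynomial ρ ℂ) := fun i => Ideal.span (ℓ '' Set.Iio i) with hL
  have hℓH : ∀ j, IsWeightedHomogeneous v (ℓ j) 1 := fun j =>
    weightedHomogeneousComponent_isWeightedHomogeneous _ _
  have hLpos : ∀ i, L i ≤ posIdeal v := by
    intro i
    rw [hL]
    simp only
    rw [Ideal.span_le]
    rintro _ ⟨j, _, rfl⟩
    rw [SetLike.mem_coe, mem_posIdeal]
    exact wc_of_ne (hℓH j) (by norm_num)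
  have hprime : ∀ i ≤ n, (L i).IsPrime := by
    intro i hi
    have h1 : L i = Ideal.span (Set.range (fun k : Fin i => ℓ k)) := by
      rw [hL]
      simp only
      congr 1
      ext x
      constructor
      · rintro ⟨j, hj, rfl⟩
        exact ⟨⟨j, hj⟩, rfl⟩
      · rintro ⟨⟨j, hj⟩, rfl⟩
        exact ⟨j, hj, rfl⟩
    rw [h1]
    refine isPrime_span_of_linear v (fun _ => Nat.one_pos) _ (fun _ => 1) (fun k => hℓH k) ?_
    have h2 := hli.comp (Fin.castLE hi) (Fin.castLE_injective hi)
    convert h2 using 1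
    funext k
    exact hgradℓ k (lt_of_lt_of_le k.2 hi)
  have hnot : ∀ i < n, weightedHomogeneousComponent v 1 (F' i) ∉ L i := by
    intro i hi hmemL
    have hfin : (Set.Iio i) = ((Finset.range i : Finset ℕ) : Set ℕ) := by
      ext x; simp
    have hmemL' : ℓ i ∈ Ideal.span (ℓ '' Set.Iio i) := hmemL
    rw [hfin] at hmemL'
    obtain ⟨a, ha⟩ := (Submodule.mem_span_image_finset_iff_exists_fun' _).mp hmemL'
    simp only [smul_eq_mul] at ha
    have h1 : ∀ l, grad p (F ⟨i, hi⟩) l = ∑ j ∈ Finset.range i, eval 0 (a j) *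
        coeff (Finsupp.single l 1) (ℓ j) := by
      intro l
      rw [← hgradℓ i hi]
      simp only
      rw [← wc_self (hℓH i), ← ha, map_sum, coeff_sum]
      refine Finset.sum_congr rfl (fun j _ => ?_)
      have h2 := wc_mul_right (hℓH j) (a j) 0
      rw [zero_add] at h2
      rw [h2, hwc0, coeff_C_mul]
    have h2 := hli.notMem_span_image (s := {k | (k : ℕ) < i}) (x := (⟨i, hi⟩ : Fin n))
      (by simp)
    apply h2
    have h3 : grad p (F ⟨i, hi⟩) = ∑ j ∈ Finset.range i, eval 0 (a j) •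
        (fun l => coeff (Finsupp.single l 1) (ℓ j)) := by
      funext l
      rw [h1, Finset.sum_apply]
      rfl
    rw [h3]
    refine Submodule.sum_mem _ (fun j hj => Submodule.smul_mem _ _ ?_)
    have hj' : j < n := (Finset.mem_range.mp hj).trans hi
    rw [hgradℓ j hj']
    exact Submodule.subset_span ⟨⟨j, hj'⟩, Finset.mem_range.mp hj, rfl⟩
  have hst := lead_chain (v := v) (fun _ => le_rfl) n F' L hprime
    (by
      intro i _ g hg hg0
      have h1 := mem_posIdeal.mp (hLpos i hg)
      rwa [wc_self hg0] at h1)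
    hF0 hnot
    (fun i _ => Ideal.subset_span ⟨i, Nat.lt_succ_self i, rfl⟩)
    (fun i _ => Ideal.span_mono (Set.image_mono (fun j hj =>
      lt_trans (Set.mem_Iio.mp hj) (Nat.lt_succ_self i))))
    (fun i _ g hg => ⟨1, one_ne_zero, isWeightedHomogeneous_one ℂ v, by rwa [one_mul]⟩)
  have hdimeq : ringKrullDim (MvPolynomial ρ ℂ ⧸ J') = ringKrullDim (MvPolynomial ρ ℂ ⧸ J) := by
    apply le_antisymm
    · have hle : J ≤ J'.comap (trans p).toRingHom := by
        intro f hf
        show trans (-p) (trans p f) ∈ J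
        rwa [hT'T]
      refine ringKrullDim_le_of_surjective (Ideal.quotientMap J' (trans p).toRingHom hle) ?_
      intro y
      obtain ⟨y, rfl⟩ := Ideal.Quotient.mk_surjective y
      refine ⟨Ideal.Quotient.mk J (trans (-p) y), ?_⟩
      rw [Ideal.quotientMap_mk]
      congr 1
      exact hTT' y
    · refine ringKrullDim_le_of_surjective
        (Ideal.quotientMap J (trans (-p)).toRingHom (le_refl J')) ?_
      intro y
      obtain ⟨y, rfl⟩ := Ideal.Quotient.mk_surjective y
      refine ⟨Ideal.Quotient.mk J' (trans p y), ?_⟩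
      rw [Ideal.quotientMap_mk]
      congr 1
      exact hT'T y
  obtain ⟨-, h2⟩ := chain_eq (v := v) (fun _ => le_rfl) n F' L hF0 hnot hst J' hJ'p hJq hF'J
  rw [hdimeq] at h2
  have h4 := h2 hdim
  have h5 : trans p g ∈ J' := by
    rw [hmem, hT'T]; exact hg
  rw [← h4] at h5
  have h6 := (hst n le_rfl).lead _ h5 k hk
  refine (Ideal.span_le.mpr ?_) h6
  rintro _ ⟨j, hj, rfl⟩
  have hj' : j < n := hj
  rw [SetLike.mem_coe, hℓ]
  simp only
  rw [hF'i j hj']
  exact Ideal.subset_span ⟨⟨j, hj'⟩, rfl⟩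

end Pool.Agent.Hartshorne
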