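import Mathlib
import Pool.Agent.Hartshorne.PointLead
import Pool.Agent.Hartshorne.SplitL

/-!
Order of vanishing modulo an ideal at a point.
-/

namespace Pool.Agent.Hartshorne

open MvPolynomial

set_option linter.unusedSectionVars false

section Ord

variable {ρ : Type*}

/-- Membership in the ideal up to order `M` at a point. -/
def OrdPt (J : Ideal (MvPolynomial ρ ℂ)) (M : ℕ) (p : ρ → ℂ) (g : MvPolynomial ρ ℂ) : Prop :=
  ∃ u a, eval p u ≠ 0 ∧ a ∈ J ∧ Low (1 : ρ → ℕ) M (trans p (u * g - a))

variable {J : Ideal (MvPolynomial ρ ℂ)} {M : ℕ} {p : ρ → ℂ}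

lemma OrdPt.of_mem {g : MvPolynomial ρ ℂ} (hg : g ∈ J) : OrdPt J M p g :=
  ⟨1, g, by simp, hg, by rw [one_mul, sub_self, map_zero]; exact low_of_zero _⟩

lemma OrdPt.zero : OrdPt J M p 0 := OrdPt.of_mem J.zero_mem

lemma OrdPt.add {g h : MvPolynomial ρ ℂ} (hg : OrdPt J M p g) (hh : OrdPt J M p h) :
    OrdPt J M p (g + h) := by
  obtain ⟨u, a, hu, ha, hlow⟩ := hg
  obtain ⟨u', a', hu', ha', hlow'⟩ := hh
  refine ⟨u * u', u' * a + u * a', by rw [map_mul]; exact mul_ne_zero hu hu',
    J.add_mem (J.mul_mem_left _ ha) (J.mul_mem_left _ ha'), ?_⟩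
  have h1 : trans p (u * u' * (g + h) - (u' * a + u * a')) =
      trans p u' * trans p (u * g - a) + trans p u * trans p (u' * h - a') := by
    rw [← map_mul, ← map_mul, ← map_add]
    congr 1
    ring
  rw [h1]
  exact (hlow.mul_left _).add (hlow'.mul_left _)

lemma OrdPt.mul_left {g : MvPolynomial ρ ℂ} (hg : OrdPt J M p g) (f : MvPolynomial ρ ℂ) :
    OrdPt J M p (f * g) := by
  obtain ⟨u, a, hu, ha, hlow⟩ := hg
  refine ⟨u, f * a, hu, J.mul_mem_left _ ha, ?_⟩
  have h1 : trans p (u * (f * g) - f * a) = trans p f * trans p (u * g - a) := by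
    rw [← map_mul]
    congr 1
    ring
  rw [h1]
  exact hlow.mul_left _

lemma OrdPt.sub {g h : MvPolynomial ρ ℂ} (hg : OrdPt J M p g) (hh : OrdPt J M p h) :
    OrdPt J M p (g - h) := by
  have h1 : g - h = g + (-1) * h := by ring
  rw [h1]
  exact hg.add (hh.mul_left _)

lemma OrdPt.of_span {S : Set (MvPolynomial ρ ℂ)} (hS : ∀ g ∈ S, OrdPt J M p g)
    {f : MvPolynomial ρ ℂ} (hf : f ∈ Ideal.span S) : OrdPt J M p f := by
  induction hf using Submodule.span_induction with
  | mem x hx => exact hS x hx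
  | zero => exact OrdPt.zero
  | add x y _ _ hx hy => exact hx.add hy
  | smul a x _ hx => exact hx.mul_left a

variable [Fintype ρ]

lemma eval_hc_one (f : MvPolynomial ρ ℂ) (y : ρ → ℂ) :
    eval y (homogeneousComponent 1 f) = ∑ i, grad 0 f i * y i := by
  classical
  have h1 : (homogeneousComponent 1 f).IsHomogeneous 1 := homogeneousComponent_isHomogeneous _ _
  have h2 := h1.sum_X_mul_pderiv
  rw [one_smul] at h2
  conv_lhs => rw [← h2, map_sum]
  refine Finset.sum_congr rfl (fun i _ => ?_)
  rw [map_mul, eval_X, mul_comm, grad_apply]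
  congr 1
  have h3 : (pderiv i (homogeneousComponent 1 f)).IsHomogeneous 0 := h1.pderiv
  rw [isHomogeneous_zero_eq h3 y 0, ← hc_pderiv]
  have h4 : pderiv i f = ∑ e ∈ Finset.range ((pderiv i f).totalDegree + 1),
      homogeneousComponent e (pderiv i f) := (sum_homogeneousComponent _).symm
  conv_rhs => rw [h4, map_sum]
  rw [Finset.sum_eq_single 0]
  · intro e _ he
    have h5 := eval_smul_of_isHomogeneous (homogeneousComponent_isHomogeneous e (pderiv i f)) 0
      (0 : ρ → ℂ)
    rw [smul_zero, zero_pow he, zero_mul] at h5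
    exact h5
  · intro h5
    simp at h5

/-- Leading forms of elements which belong to the ideal up to high order. -/
theorem ord_lead {c : ℕ} (hJ : J.IsPrime) (hp : ∀ h ∈ J, eval p h = 0)
    (hdim : ((Fintype.card ρ : ℕ) : WithBot ℕ∞) ≤
        ringKrullDim (MvPolynomial ρ ℂ ⧸ J) + (c : WithBot ℕ∞))
    (F : Fin c → MvPolynomial ρ ℂ) (hF : ∀ k, F k ∈ J)
    (hli : LinearIndependent ℂ (fun k => grad p (F k))) {g : MvPolynomial ρ ℂ}
    (hg : OrdPt J M p g) {n : ℕ} (hn : n < M) (hlow : Low (1 : ρ → ℕ) n (trans p g)) (y : ρ → ℂ)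
    (hy : ∀ h ∈ J, ∑ i, grad p h i * y i = 0) :
    eval y (homogeneousComponent n (trans p g)) = 0 := by
  obtain ⟨u, a, hu, ha, hlow'⟩ := hg
  have h0 : trans p a = trans p u * trans p g - trans p (u * g - a) := by
    rw [map_sub, map_mul]; ring
  have hlowa : Low (1 : ρ → ℕ) n (trans p a) := by
    rw [h0]
    exact (hlow.mul_left _).sub (hlow'.mono hn.le)
  have h1 := point_lead J hJ p hp c F hF hli hdim ha hlowa
  have h2 : homogeneousComponent n (trans p a) =
      homogeneousComponent 0 (trans p u) * homogeneousComponent n (trans p g) := by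
    rw [h0, map_sub]
    have h3 := hlow' n hn
    have h4 : homogeneousComponent n (trans p (u * g - a)) = 0 := h3
    rw [h4, sub_zero]
    exact wc_zero_mul hlow
  have h3 : eval y (homogeneousComponent 0 (trans p u)) = eval p u := by
    rw [homogeneousComponent_zero, eval_C, ← eval_zero_eq_coeff, eval_trans, zero_add]
  have h4 : eval y (homogeneousComponent n (trans p a)) = 0 := by
    have h5 : Ideal.span (Set.range fun i => weightedHomogeneousComponent (fun _ : ρ => 1) 1
        (trans p (F i))) ≤ RingHom.ker (eval y) := by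
      rw [Ideal.span_le]
      rintro _ ⟨i, rfl⟩
      rw [SetLike.mem_coe, RingHom.mem_ker]
      have h6 := eval_hc_one (trans p (F i)) y
      have h7 : ∑ j, grad 0 (trans p (F i)) j * y j = 0 := by
        rw [grad_trans]
        exact hy _ (hF i)
      rw [h7] at h6
      exact h6
    exact h5 h1
  rw [h2, map_mul, h3] at h4
  exact (mul_eq_zero.mp h4).resolve_left hu

end Ord

end Pool.Agent.Hartshorne
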