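import Mathlib
import Pool.Agent.Hartshorne.Filt
import Pool.Agent.Hartshorne.Ord

/-!
Selection of vectors with additional conditions, and restriction to lines.
-/

namespace Pool.Agent.Hartshorne

open MvPolynomial

set_option linter.unusedSectionVars false

section Select2

lemma select_aux2 {ι ι' : Type*} [Fintype ι] [Fintype ι'] {k M : ℕ}
    (G : ι → MvPolynomial (Fin k ⊕ Fin M) ℂ) (D : ι → ℕ) (hG : ∀ l, (G l).IsHomogeneous (D l))
    (q : ι' → MvPolynomial (Fin M) ℂ) (hq : ∀ j, eval 0 (q j) = 0)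
    (hcount : ∑ l, (k + D l - 1).choose k + Fintype.card ι' < M) :
    ∃ t : Fin M → ℂ, t ≠ 0 ∧ (∀ l z, eval (Sum.elim z t) (G l) = eval (Sum.elim z 0) (G l)) ∧
      ∀ j, eval t (q j) = 0 := by
  classical
  set S : ι → Finset (Fin k →₀ ℕ) := fun l => (Finset.range (D l)).biUnion
    (fun e => (Finset.univ : Finset (Fin k)).finsuppAntidiag e) with hS
  set P : ι → Finset ((Fin k ⊕ Fin M) →₀ ℕ) := fun l =>
    (G l).support.filter (fun m => rPart m ≠ 0) with hP
  set h : (l : ι) → (Fin k →₀ ℕ) → MvPolynomial (Fin M) ℂ := fun l α =>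
    ∑ m ∈ (P l).filter (fun m => lPart m = α), monomial (rPart m) (coeff m (G l)) with hh
  have hmaps : ∀ l, ∀ m ∈ P l, lPart m ∈ S l := by
    intro l m hm
    rw [hP, Finset.mem_filter] at hm
    have h1 := hG l (mem_support_iff.mp hm.1)
    rw [Finsupp.weight_apply, Finsupp.sum_fintype _ _ (by simp), Fintype.sum_sum_type] at h1
    simp only [Pi.one_apply, smul_eq_mul, mul_one] at h1
    obtain ⟨j, hj⟩ := Finsupp.ne_iff.mp hm.2
    have h2 : m (Sum.inr j) ≤ ∑ j, m (Sum.inr j) :=
      Finset.single_le_sum (f := fun j => m (Sum.inr j)) (fun _ _ => Nat.zero_le _)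
        (Finset.mem_univ j)
    have h3 : m (Sum.inr j) ≠ 0 := hj
    simp only [hS, Finset.mem_biUnion, Finset.mem_range, Finset.mem_finsuppAntidiag]
    refine ⟨∑ i, m (Sum.inl i), by omega, rfl, Finset.subset_univ _⟩
  obtain ⟨t, ht, ht0'⟩ := exists_common_zero (ι := Fin M) (κ := (Σ l : ι, {α // α ∈ S l}) ⊕ ι')
    (Sum.elim (fun κ => h κ.1 κ.2) q) (by
      rintro (⟨l, α, hα⟩ | j)
      swap
      · exact hq j
      simp only [Sum.elim_inl, hh]
      rw [map_sum]
      refine Finset.sum_eq_zero (fun m hm => ?_)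
      rw [Finset.mem_filter, hP, Finset.mem_filter] at hm
      rw [eval_monomial]
      obtain ⟨j, hj⟩ := Finsupp.ne_iff.mp hm.1.2
      rw [Finsupp.prod_fintype _ _ (by simp)]
      have h3 : ∏ i, (0 : Fin M → ℂ) i ^ rPart m i = 0 :=
        Finset.prod_eq_zero (Finset.mem_univ j) (by rw [Pi.zero_apply]; exact zero_pow hj)
      rw [h3, mul_zero]) (by
      rw [Fintype.card_sum, Fintype.card_sigma, Fintype.card_fin]
      refine lt_of_le_of_lt (Nat.add_le_add_right (Finset.sum_le_sum (fun l _ => ?_)) _) hcount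
      rw [Fintype.card_coe]
      exact card_monomials k (D l))
  have ht0 : ∀ κ : (Σ l : ι, {α // α ∈ S l}), eval t (h κ.1 κ.2) = 0 := fun κ => ht0' (Sum.inl κ)
  refine ⟨t, ht, fun l z => ?_, fun j => ht0' (Sum.inr j)⟩
  rw [eval_split, eval_split, ← sub_eq_zero, ← Finset.sum_sub_distrib]
  have h1 : ∀ m ∈ (G l).support, coeff m (G l) * (∏ i, z i ^ lPart m i) * ∏ j, t j ^ rPart m j -
      coeff m (G l) * (∏ i, z i ^ lPart m i) * ∏ j, (0 : Fin M → ℂ) j ^ rPart m j =
      if rPart m ≠ 0 then coeff m (G l) * (∏ i, z i ^ lPart m i) * ∏ j, t j ^ rPart m j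
        else 0 := by
    intro m _
    by_cases hm : rPart m = 0
    · rw [if_neg (by simpa using hm), hm]
      simp
    · rw [if_pos hm]
      obtain ⟨j, hj⟩ := Finsupp.ne_iff.mp hm
      have h3 : ∏ i, (0 : Fin M → ℂ) i ^ rPart m i = 0 :=
        Finset.prod_eq_zero (Finset.mem_univ j) (by rw [Pi.zero_apply]; exact zero_pow hj)
      rw [h3, mul_zero, sub_zero]
  rw [Finset.sum_congr rfl h1, ← Finset.sum_filter]
  have h2 : (G l).support.filter (fun m => rPart m ≠ 0) = P l := rfl
  rw [h2, ← Finset.sum_fiberwise_of_maps_to (hmaps l)]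
  refine Finset.sum_eq_zero (fun α hα => ?_)
  have h3 := ht0 ⟨l, α, hα⟩
  simp only [hh] at h3
  rw [map_sum] at h3
  have h4 : ∀ m ∈ (P l).filter (fun m => lPart m = α),
      coeff m (G l) * (∏ i, z i ^ lPart m i) * ∏ j, t j ^ rPart m j =
      (∏ i, z i ^ α i) * eval t (monomial (rPart m) (coeff m (G l))) := by
    intro m hm
    rw [(Finset.mem_filter.mp hm).2, eval_monomial, Finsupp.prod_fintype _ _ (by simp)]
    ring
  rw [Finset.sum_congr rfl h4, ← Finset.mul_sum, h3, mul_zero]

variable {ρ : Type*} [Fintype ρ] [DecidableEq ρ]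

/-- Selection of a vector satisfying further equations. -/
theorem select2 (Λ : Submodule ℂ (ρ → ℂ)) {k : ℕ} (e : Fin k → (ρ → ℂ)) (he : ∀ i, e i ∈ Λ)
    (hli : LinearIndependent ℂ e) {ι ι' : Type*} [Fintype ι] [Fintype ι']
    (g : ι → MvPolynomial ρ ℂ) (D : ι → ℕ) (hg : ∀ l, (g l).IsHomogeneous (D l))
    (q : ι' → MvPolynomial ρ ℂ) (hq : ∀ j, eval 0 (q j) = 0)
    (hcount : ∑ l, (k + D l - 1).choose k + Fintype.card ι' + k < Module.finrank ℂ Λ) :
    ∃ w ∈ Λ, LinearIndependent ℂ (Fin.snoc e w : Fin (k + 1) → (ρ → ℂ)) ∧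
      (∀ l z, eval (comb e z + w) (g l) = eval (comb e z) (g l)) ∧
      ∀ j, eval w (q j) = 0 := by
  classical
  set L₀ : Submodule ℂ Λ := (Submodule.span ℂ (Set.range e)).comap Λ.subtype with hL₀
  obtain ⟨C', hC'⟩ := Submodule.exists_isCompl L₀
  have hle : Submodule.span ℂ (Set.range e) ≤ Λ := by
    rw [Submodule.span_le]
    rintro _ ⟨i, rfl⟩
    exact he i
  have hfin0 : Module.finrank ℂ L₀ = k := by
    have h1 : Module.finrank ℂ L₀ = Module.finrank ℂ (Submodule.span ℂ (Set.range e)) :=
      (Submodule.comapSubtypeEquivOfLe hle).finrank_eq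
    rw [h1, finrank_span_eq_card hli, Fintype.card_fin]
  have hfin : k + Module.finrank ℂ C' = Module.finrank ℂ Λ := by
    rw [← hfin0]
    exact Submodule.finrank_add_eq_of_isCompl hC'
  have hfree : Module.Free ℂ C' := Module.Free.of_divisionRing ℂ C'
  set M := Module.finrank ℂ C' with hM
  set f : (Fin M → ℂ) →ₗ[ℂ] (ρ → ℂ) := Λ.subtype ∘ₗ C'.subtype ∘ₗ
    ((Module.finBasis ℂ C').equivFun.symm : (Fin M → ℂ) →ₗ[ℂ] C') with hf
  have hfΛ : ∀ t, f t ∈ Λ := fun t => Subtype.coe_prop _
  have hfnot : ∀ t, t ≠ 0 → f t ∉ Submodule.span ℂ (Set.range e) := by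
    intro t ht hmem
    set y : C' := (Module.finBasis ℂ C').equivFun.symm t with hy
    have h1 : (y : Λ) ∈ L₀ := hmem
    have h2 : (y : Λ) ∈ L₀ ⊓ C' := ⟨h1, y.2⟩
    rw [hC'.inf_eq_bot, Submodule.mem_bot] at h2
    have h3 : y = 0 := Subtype.ext h2
    rw [hy, LinearEquiv.map_eq_zero_iff] at h3
    exact ht h3
  set Ψ : (Fin k ⊕ Fin M → ℂ) →ₗ[ℂ] (ρ → ℂ) :=
    (comb e) ∘ₗ (LinearMap.funLeft ℂ ℂ Sum.inl) + f ∘ₗ (LinearMap.funLeft ℂ ℂ Sum.inr) with hΨ
  have hΨe : ∀ z t, Ψ (Sum.elim z t) = comb e z + f t := fun z t => rfl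
  obtain ⟨t, ht, hteq, htq⟩ := select_aux2 (fun l => lsub Ψ (g l)) D
    (fun l => isHomogeneous_lsub _ _ _ (hg l)) (fun j => lsub f (q j))
    (fun j => by rw [eval_lsub, map_zero]; exact hq j) (M := M) (by omega)
  refine ⟨f t, hfΛ t, linearIndependent_finSnoc.mpr ⟨hli, hfnot t ht⟩, fun l z => ?_,
    fun j => by have h2 := htq j; rwa [eval_lsub] at h2⟩
  have h1 := hteq l z
  rw [eval_lsub, eval_lsub, hΨe, hΨe, map_zero, add_zero] at h1
  exact h1


lemma totalDegree_aeval_le {ρ κ : Type*} (φ : ρ → MvPolynomial κ ℂ)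
    (hφ : ∀ i, (φ i).totalDegree ≤ 1) (f : MvPolynomial ρ ℂ) :
    (aeval φ f).totalDegree ≤ f.totalDegree := by
  conv_lhs => rw [f.as_sum, map_sum]
  refine totalDegree_finsetSum_le (fun m hm => ?_)
  rw [aeval_monomial, Finsupp.prod]
  refine (totalDegree_mul _ _).trans ?_
  have h1 : (algebraMap ℂ (MvPolynomial κ ℂ) (coeff m f)).totalDegree = 0 := totalDegree_C _
  rw [h1, zero_add]
  refine (totalDegree_finsetProd _ _).trans ?_
  have h2 : ∑ b ∈ m.support, ((φ b) ^ m b).totalDegree ≤ ∑ b ∈ m.support, m b := by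
    refine Finset.sum_le_sum (fun b _ => ?_)
    refine (totalDegree_pow _ _).trans ?_
    exact (Nat.mul_le_mul_left _ (hφ b)).trans (by rw [mul_one])
  exact h2.trans (le_totalDegree hm)

lemma totalDegree_trans_le {ρ : Type*} (p : ρ → ℂ) (f : MvPolynomial ρ ℂ) :
    (trans p f).totalDegree ≤ f.totalDegree := by
  apply totalDegree_aeval_le
  intro i
  refine (totalDegree_add _ _).trans (max_le ?_ ?_)
  · rw [totalDegree_X]
  · rw [totalDegree_C]; exact Nat.zero_le _

/-- A form vanishing at `p` vanishes on the line joining `p` to `w` if its Taylor forms at `p`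
vanish at `w`. -/
lemma line_of_taylor {f : MvPolynomial ρ ℂ} {d : ℕ} (hf : f.IsHomogeneous d) {p w : ρ → ℂ}
    (hp : eval p f = 0)
    (h : ∀ j : Fin d, eval w (homogeneousComponent ((j : ℕ) + 1) (trans p f)) = 0)
    (z : Fin 2 → ℂ) : eval (comb (ln p w) z) f = 0 := by
  have key : ∀ t : ℂ, eval (p + t • w) f = 0 := by
    intro t
    have h1 : eval (p + t • w) f = eval (t • w) (trans p f) := by
      rw [eval_trans, add_comm]
    rw [h1, ← sum_homogeneousComponent (trans p f), map_sum]
    refine Finset.sum_eq_zero (fun e _ => ?_)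
    rw [eval_smul_of_isHomogeneous (homogeneousComponent_isHomogeneous e _)]
    rcases Nat.eq_zero_or_pos e with rfl | he
    · rw [homogeneousComponent_zero, eval_C, ← eval_zero_eq_coeff, eval_trans, zero_add, hp,
        mul_zero]
    · by_cases hed : e ≤ d
      · have h2 := h ⟨e - 1, by omega⟩
        simp only [Nat.sub_add_cancel he] at h2
        rw [h2, mul_zero]
      · have h3 := totalDegree_trans_le p f
        have h4 := hf.totalDegree_le
        rw [homogeneousComponent_eq_zero _ _ (by omega), map_zero, mul_zero]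
  have h2 : lsub (comb (ln p w)) f = 0 := by
    apply eq_zero_of_eval (X_ne_zero (0 : Fin 2) : (X 0 : MvPolynomial (Fin 2) ℂ) ≠ 0)
    intro y hy
    rw [eval_X] at hy
    rw [eval_lsub, comb_ln]
    have h3 : y 0 • p + y 1 • w = y 0 • (p + (y 1 / y 0) • w) := by
      rw [smul_add, smul_smul, mul_div_cancel₀ _ hy]
    rw [h3, eval_smul_of_isHomogeneous hf, key, mul_zero]
  rw [← eval_lsub, h2, map_zero]

/-- A form of degree less than `M` which lies in the ideal up to order `M` at a point of a line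
contained in the zero set vanishes on the line. -/
theorem vanish_of_ordPt {I : Ideal (MvPolynomial ρ ℂ)} {M D : ℕ} {p w : ρ → ℂ}
    {g : MvPolynomial ρ ℂ} (hg : g.IsHomogeneous D) (hD : D < M) (hgo : OrdPt I M w g)
    (hline : ∀ z, ∀ h ∈ I, eval (comb (ln p w) z) h = 0) : eval p g = 0 := by
  obtain ⟨u, a, hu, ha, hlow⟩ := hgo
  -- restriction to the line
  set φ : MvPolynomial ρ ℂ →ₐ[ℂ] Polynomial ℂ :=
    aeval (fun i => Polynomial.C (w i) + Polynomial.C (p i) * Polynomial.X) with hφ
  have hφeval : ∀ (t : ℂ) f, Polynomial.eval t (φ f) = eval (w + t • p) f := by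
    intro t f
    have h1 : (Polynomial.evalRingHom t).comp (φ : MvPolynomial ρ ℂ →+* Polynomial ℂ) =
        eval (w + t • p) := by
      apply MvPolynomial.ringHom_ext
      · intro b
        have h2 : φ (C b) = Polynomial.C b := φ.commutes b
        simp [h2]
      · intro i
        simp only [RingHom.comp_apply, RingHom.coe_coe, hφ, aeval_X, Polynomial.coe_evalRingHom,
          Polynomial.eval_add, Polynomial.eval_C, Polynomial.eval_mul, Polynomial.eval_X, eval_X,
          Pi.add_apply, Pi.smul_apply, smul_eq_mul]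
        ring
    exact RingHom.congr_fun h1 f
  have ha0 : φ a = 0 := by
    apply Polynomial.funext
    intro t
    rw [hφeval, Polynomial.eval_zero]
    have h1 := hline ![t, 1] a ha
    rw [comb_ln] at h1
    simp only [Matrix.cons_val_zero, Matrix.cons_val_one, one_smul] at h1
    rwa [add_comm] at h1
  have hdvd : (Polynomial.X : Polynomial ℂ) ^ M ∣ φ (u * g - a) := by
    set ψ : MvPolynomial ρ ℂ →ₐ[ℂ] Polynomial ℂ :=
      aeval (fun i => Polynomial.C (p i) * Polynomial.X) with hψ
    have h1 : φ (u * g - a) = ψ (trans w (u * g - a)) := by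
      rw [hφ, hψ, trans, ← AlgHom.comp_apply, comp_aeval]
      congr 2
      funext i
      rw [map_add, aeval_X]
      have h2 : (aeval (fun i => Polynomial.C (p i) * Polynomial.X) : MvPolynomial ρ ℂ →ₐ[ℂ]
          Polynomial ℂ) (C (w i)) = Polynomial.C (w i) := by
        rw [← algebraMap_eq]
        exact AlgHom.commutes _ _
      rw [h2, add_comm]
    rw [h1, ← sum_homogeneousComponent (trans w (u * g - a)), map_sum]
    refine Finset.dvd_sum (fun e _ => ?_)
    by_cases he : e < M
    · have h2 : homogeneousComponent e (trans w (u * g - a)) = 0 := hlow e he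
      rw [h2, map_zero]
      exact dvd_zero _
    · have h3 : ψ (homogeneousComponent e (trans w (u * g - a))) =
          Polynomial.C (eval p (homogeneousComponent e (trans w (u * g - a)))) *
            Polynomial.X ^ e := by
        apply Polynomial.funext
        intro t
        have h4 : ∀ f : MvPolynomial ρ ℂ, Polynomial.eval t (ψ f) = eval (t • p) f := by
          intro f
          have h5 : (Polynomial.evalRingHom t).comp (ψ : MvPolynomial ρ ℂ →+* Polynomial ℂ) =
              eval (t • p) := by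
            apply MvPolynomial.ringHom_ext
            · intro b
              have h2 : ψ (C b) = Polynomial.C b := ψ.commutes b
              simp [h2]
            · intro i
              simp only [RingHom.comp_apply, RingHom.coe_coe, hψ, aeval_X,
                Polynomial.coe_evalRingHom, Polynomial.eval_C, Polynomial.eval_mul,
                Polynomial.eval_X, eval_X, Pi.smul_apply, smul_eq_mul]
              ring
          exact RingHom.congr_fun h5 f
        rw [h4, eval_smul_of_isHomogeneous (homogeneousComponent_isHomogeneous e _),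
          Polynomial.eval_mul, Polynomial.eval_C, Polynomial.eval_pow, Polynomial.eval_X,
          mul_comm]
      rw [h3]
      exact Dvd.dvd.mul_left (pow_dvd_pow _ (not_lt.mp he)) _
  rw [map_sub, map_mul, ha0, sub_zero] at hdvd
  have hcop : IsCoprime ((Polynomial.X : Polynomial ℂ) ^ M) (φ u) := by
    apply IsCoprime.pow_left
    rw [(Polynomial.prime_X.irreducible).coprime_iff_not_dvd, Polynomial.X_dvd_iff,
      Polynomial.coeff_zero_eq_eval_zero, hφeval, zero_smul, add_zero]
    exact hu
  have hdvd2 := hcop.dvd_of_dvd_mul_left hdvd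
  have hdeg : (φ g).natDegree ≤ D := by
    rw [hφ, g.as_sum, map_sum]
    refine Polynomial.natDegree_sum_le_of_forall_le _ _ (fun m hm => ?_)
    rw [aeval_monomial]
    refine Polynomial.natDegree_mul_le.trans ?_
    have h1 : (algebraMap ℂ (Polynomial ℂ) (coeff m g)).natDegree = 0 :=
      Polynomial.natDegree_C _
    rw [h1, zero_add, Finsupp.prod]
    refine (Polynomial.natDegree_prod_le _ _).trans ?_
    have h2 : ∑ i ∈ m.support, ((Polynomial.C (w i) + Polynomial.C (p i) * Polynomial.X) ^
        m i).natDegree ≤ ∑ i ∈ m.support, m i := by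
      refine Finset.sum_le_sum (fun i _ => ?_)
      refine Polynomial.natDegree_pow_le.trans ?_
      have h3 : (Polynomial.C (w i) + Polynomial.C (p i) * Polynomial.X).natDegree ≤ 1 := by
        refine (Polynomial.natDegree_add_le _ _).trans (max_le ?_ ?_)
        · rw [Polynomial.natDegree_C]; exact Nat.zero_le _
        · exact (Polynomial.natDegree_C_mul_le _ _).trans Polynomial.natDegree_X_le
      exact (Nat.mul_le_mul_left _ h3).trans (by rw [mul_one])
    refine h2.trans ?_
    have h4 := hg (mem_support_iff.mp hm)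
    rw [Finsupp.weight_apply, Finsupp.sum] at h4
    simp only [Pi.one_apply, smul_eq_mul, mul_one] at h4
    exact h4.le
  have hzero : φ g = 0 := by
    by_contra hne
    have h1 := Polynomial.natDegree_le_of_dvd hdvd2 hne
    rw [Polynomial.natDegree_X_pow] at h1
    omega
  -- evaluation at the other point
  have h2 : lsub (comb (ln p w)) g = 0 := by
    apply eq_zero_of_eval (X_ne_zero (1 : Fin 2) : (X 1 : MvPolynomial (Fin 2) ℂ) ≠ 0)
    intro y hy
    rw [eval_X] at hy
    rw [eval_lsub, comb_ln]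
    have h3 : y 0 • p + y 1 • w = y 1 • (w + (y 0 / y 1) • p) := by
      rw [smul_add, smul_smul, mul_div_cancel₀ _ hy, add_comm]
    rw [h3, eval_smul_of_isHomogeneous hg, ← hφeval, hzero, Polynomial.eval_zero, mul_zero]
  have h3 := congrArg (eval (pt 0)) h2
  rw [eval_lsub, comb_ln_one, map_zero] at h3
  exact h3

end Select2

end Pool.Agent.Hartshorne
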