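import Mathlib
import Pool.Agent.Hartshorne.Lift

/-!
Regularity of variables modulo ideals generated by linear forms, in bounded degree.
-/

namespace Pool.Agent.Hartshorne

open MvPolynomial

set_option linter.unusedSectionVars false

/-- Graded version of the power lemma for regular sequences. -/
lemma reg_pow_gr {R : Type*} [CommRing R] (S : AddSubgroup R) (M : Ideal R) (x y : R)
    (hxS : ∀ a ∈ S, x * a ∈ S) (hyS : ∀ a ∈ S, y * a ∈ S)
    (ha : ∀ a ∈ S, x * a ∈ M → a ∈ M)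
    (hb : ∀ a ∈ S, (∃ m ∈ M, m ∈ S ∧ ∃ b ∈ S, y * a = m + x * b) →
      ∃ m ∈ M, m ∈ S ∧ ∃ b ∈ S, a = m + x * b) (n : ℕ) :
    ∀ (N : ℕ), ∀ a ∈ S, (∃ m ∈ M, m ∈ S ∧ ∃ b ∈ S, y ^ N * a = m + x ^ n * b) →
      ∃ m ∈ M, m ∈ S ∧ ∃ b ∈ S, a = m + x ^ n * b := by
  have hxpow : ∀ n, ∀ a ∈ S, x ^ n * a ∈ S := by
    intro n
    induction n with
    | zero => intro a h; simpa using h
    | succ n ih => intro a h; rw [pow_succ', mul_assoc]; exact hxS _ (ih a h)
  have hypow : ∀ n, ∀ a ∈ S, y ^ n * a ∈ S := by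
    intro n
    induction n with
    | zero => intro a h; simpa using h
    | succ n ih => intro a h; rw [pow_succ', mul_assoc]; exact hyS _ (ih a h)
  have h1 : ∀ (n : ℕ), ∀ a ∈ S, (∃ m ∈ M, m ∈ S ∧ ∃ b ∈ S, y * a = m + x ^ n * b) →
      ∃ m ∈ M, m ∈ S ∧ ∃ b ∈ S, a = m + x ^ n * b := by
    intro n
    induction n with
    | zero => intro a haS _; exact ⟨0, M.zero_mem, S.zero_mem, a, haS, by simp⟩
    | succ n ih =>
      rintro a haS ⟨m, hm, hmS, b, hbS, hab⟩
      obtain ⟨m', hm', hmS', a', haS', rfl⟩ := hb a haS ⟨m, hm, hmS, x ^ n * b, hxpow n b hbS, by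
        rw [hab, pow_succ']; ring⟩
      have h2 : y * a' - x ^ n * b ∈ M := by
        apply ha _ (S.sub_mem (hyS _ haS') (hxpow n b hbS))
        have h3 : x * (y * a' - x ^ n * b) = m - y * m' := by
          rw [pow_succ'] at hab
          linear_combination hab
        rw [h3]
        exact M.sub_mem hm (M.mul_mem_left _ hm')
      obtain ⟨m'', hm'', hmS'', b'', hbS'', hb''⟩ := ih a' haS'
        ⟨_, h2, S.sub_mem (hyS _ haS') (hxpow n b hbS), b, hbS, by ring⟩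
      refine ⟨m' + x * m'', M.add_mem hm' (M.mul_mem_left _ hm''),
        S.add_mem hmS' (hxS _ hmS''), b'', hbS'', ?_⟩
      rw [hb'', pow_succ']
      ring
  intro N
  induction N with
  | zero => rintro a haS ⟨m, hm, hmS, b, hbS, h⟩; exact ⟨m, hm, hmS, b, hbS, by simpa using h⟩
  | succ N ih =>
    rintro a haS ⟨m, hm, hmS, b, hbS, h⟩
    apply ih a haS
    apply h1 n _ (hypow N a haS)
    exact ⟨m, hm, hmS, b, hbS, by rw [← mul_assoc, ← pow_succ', h]⟩

section GKoszul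

variable {σ τ : Type*} [Fintype σ] [Fintype τ] [DecidableEq τ] {c q : ℕ}
  (ψ : ℕ → τ → MvPolynomial σ ℂ)
  (hli : ∀ z : σ → ℂ, z ≠ 0 → LinearIndependent ℂ (fun i : Fin c => rowEval z (ψ i)))

lemma isWH_X_inl_mul {n : ℕ} (j : σ) {a : MvPolynomial (σ ⊕ τ) ℂ}
    (ha : IsWeightedHomogeneous (Yw σ τ) a n) :
    IsWeightedHomogeneous (Yw σ τ) (X (Sum.inl j) * a) n := by
  have h1 := (isWH_X_inl (τ := τ) j).mul ha
  rwa [zero_add] at h1

/-- Local membership, before using regularity. -/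
lemma gkos_pow {Z : Set σ} (a : MvPolynomial (σ ⊕ τ) ℂ)
    (hli : ∀ z : σ → ℂ, z ≠ 0 → LinearIndependent ℂ (fun i : Fin c => rowEval z (ψ i)))
    (ha : ∀ z : σ → ℂ, z ≠ 0 → (∀ i ∈ Z, z i = 0) → ∀ T : Fin c → τ, eval z (mDet c ψ T) ≠ 0 →
      Xi c q ψ T a ∈ zI τ Z) (j : σ) :
    ∃ M : ℕ, (X (Sum.inl j) : MvPolynomial (σ ⊕ τ) ℂ) ^ M * a ∈ aI ψ Z q :=
  exists_X_pow_mul_mem (aI ψ Z q) a (by
    intro z hz
    by_cases hZ : ∀ i ∈ Z, z i = 0
    · obtain ⟨T, hT⟩ := exists_minor _ (hli z hz)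
      have hdet : eval z (mDet c ψ T) ≠ 0 := by
        rw [mDet, eval_det]; exact hT
      have h1 := ha z hz hZ T hdet
      have h2 : gam (Yw σ τ) (renL σ τ (mDet c ψ T)) a ∈ aI ψ Z q := by
        have h3 := Xi_sub_gam_mem ψ T (q := q) a
        have h4 : gam (Yw σ τ) (renL σ τ (mDet c ψ T)) a = Xi c q ψ T a -
          (Xi c q ψ T a - gam (Yw σ τ) (renL σ τ (mDet c ψ T)) a) := by ring
        rw [h4]
        exact Ideal.sub_mem _ (Ideal.mem_sup_left h1) (Ideal.mem_sup_right h3)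
      rw [aI_eq_span] at h2 ⊢
      obtain ⟨N, hN⟩ := pow_mul_mem_of_gam (aI_gens ψ Z q) (isWH_renL _) h2
      refine ⟨mDet c ψ T ^ N, ?_, ?_⟩
      · rw [map_pow]; exact pow_ne_zero _ hdet
      · rwa [map_pow]
    · push Not at hZ
      obtain ⟨i, hi, hzi⟩ := hZ
      refine ⟨X i, by rwa [eval_X], ?_⟩
      rw [renL_X]
      exact Ideal.mem_sup_left (Ideal.mul_mem_right _ _
        (Ideal.subset_span ⟨_, ⟨i, hi, rfl⟩, rfl⟩))) j

include hli

lemma gkos_local {Z : Set σ} {j : σ} {n : ℕ}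
    (hN : ∀ a, IsWeightedHomogeneous (Yw σ τ) a n →
      (X (Sum.inl j) : MvPolynomial (σ ⊕ τ) ℂ) * a ∈ aI ψ Z q → a ∈ aI ψ Z q)
    (a : MvPolynomial (σ ⊕ τ) ℂ) (han : IsWeightedHomogeneous (Yw σ τ) a n)
    (ha : ∀ z : σ → ℂ, z ≠ 0 → (∀ i ∈ Z, z i = 0) → ∀ T : Fin c → τ, eval z (mDet c ψ T) ≠ 0 →
      Xi c q ψ T a ∈ zI τ Z) : a ∈ aI ψ Z q := by
  obtain ⟨M, hM⟩ := gkos_pow ψ a hli ha j
  clear ha
  induction M with
  | zero => simpa using hM
  | succ M ih =>
    apply ih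
    apply hN
    · have h1 := (isWH_pow_zero (isWH_X_inl (τ := τ) j) M).mul han
      rwa [zero_add] at h1
    · rwa [← mul_assoc, ← pow_succ']

lemma gkos_K (hq : q < c) {Z : Set σ} {j : σ} {n : ℕ}
    (hN : ∀ a, IsWeightedHomogeneous (Yw σ τ) a n →
      (X (Sum.inl j) : MvPolynomial (σ ⊕ τ) ℂ) * a ∈ aI ψ Z q → a ∈ aI ψ Z q)
    (a : MvPolynomial (σ ⊕ τ) ℂ) (han : IsWeightedHomogeneous (Yw σ τ) a n)
    (ha : lin (ψ q) * a ∈ aI ψ Z q) : a ∈ aI ψ Z q := by
  refine gkos_local ψ hli hN a han (fun z hz hZ T hdet => ?_)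
  have h1 := Xi_aI ψ T hq.le ha
  rw [map_mul, Xi_psi ψ T q hq, if_neg (lt_irrefl q)] at h1
  have hp : (zI τ Z : Ideal (MvPolynomial (σ ⊕ τ) ℂ)).IsPrime := span_X_isPrime _
  refine (hp.mem_or_mem h1).resolve_left (fun h2 => ?_)
  rcases hp.mem_or_mem h2 with h3 | h3
  · have h4 := eval_zero_of_mem_zI h3 z hZ 0
    rw [eval_renL] at h4
    exact hdet h4
  · have h5 := (hli z hz).ne_zero (⟨q, hq⟩ : Fin c)
    apply h5
    funext b
    have h4 := eval_zero_of_mem_zI h3 z hZ (Pi.single b 1)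
    rw [eval_lin, Finset.sum_eq_single b] at h4
    · rw [Pi.single_eq_same, mul_one] at h4
      rw [rowEval_apply, h4]
      rfl
    · intro b' _ hb'
      rw [Pi.single_eq_of_ne hb', mul_zero]
    · intro h; exact absurd (Finset.mem_univ _) h

/-- Regularity of the variables of the first group, in bounded degree. -/
theorem gkos_N (q : ℕ) : q ≤ c → ∀ (n : ℕ) (Z : Finset σ),
    Z.card + min q n + 1 ≤ Fintype.card σ → ∀ j ∉ Z,
    ∀ a, IsWeightedHomogeneous (Yw σ τ) a n →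
      (X (Sum.inl j) : MvPolynomial (σ ⊕ τ) ℂ) * a ∈ aI ψ (Z : Set σ) q →
      a ∈ aI ψ (Z : Set σ) q := by
  classical
  induction q with
  | zero =>
    intro _ n Z _ j hj a _ ha
    have h0 : aI ψ (Z : Set σ) 0 = zI τ (Z : Set σ) := by
      have h1 : pI ψ 0 = ⊥ := by
        have h2 : (Set.Iio 0 : Set ℕ) = ∅ := by ext x; simp
        rw [pI, h2, Set.image_empty, Ideal.span_empty]
      rw [aI, h1, sup_bot_eq]
    rw [h0] at ha ⊢
    refine ((span_X_isPrime _).mem_or_mem ha).resolve_left ?_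
    apply X_notMem_span
    rintro ⟨i, hi, hij⟩
    rw [Sum.inl.injEq] at hij
    subst hij
    exact hj hi
  | succ q ih =>
    intro hq n Z hZ j hj a han ha
    have hq' : q ≤ c := (Nat.le_succ q).trans hq
    have h0 : aI ψ (Z : Set σ) (q + 1) = aI ψ (Z : Set σ) q ⊔ Ideal.span {lin (ψ q)} := by
      rw [aI, aI, pI_succ, sup_assoc]
    rw [h0] at ha
    obtain ⟨b₀, hb₀, t, ht, hbt₀⟩ := Submodule.mem_sup.mp ha
    obtain ⟨g₀, rfl⟩ := Ideal.mem_span_singleton'.mp ht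
    have haX : IsWeightedHomogeneous (Yw σ τ) (X (Sum.inl j) * a) n := isWH_X_inl_mul j han
    have hb₀n : weightedHomogeneousComponent (Yw σ τ) n b₀ ∈ aI ψ (Z : Set σ) q := by
      rw [aI_eq_span] at hb₀ ⊢
      exact wc_mem_span (aI_gens ψ _ q) hb₀ n
    rcases Nat.eq_zero_or_pos n with hn0 | hn0
    · -- degree zero
      subst hn0
      have h1 : X (Sum.inl j) * a = weightedHomogeneousComponent (Yw σ τ) 0 b₀ := by
        rw [← wc_self haX, ← hbt₀, map_add, wc_mul_zero, wc_of_ne (isWH_lin _) zero_ne_one,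
          mul_zero, add_zero]
      rw [h0]
      refine Ideal.mem_sup_left (ih hq' 0 Z ?_ j hj a han (by rw [h1]; exact hb₀n))
      simp only [Nat.min_zero] at hZ ⊢
      exact hZ
    obtain ⟨m, rfl⟩ : ∃ m, n = m + 1 := ⟨n - 1, by omega⟩
    -- homogeneous representatives
    obtain ⟨b, hb, g, hgm, hbt⟩ : ∃ b ∈ aI ψ (Z : Set σ) q, ∃ g,
        IsWeightedHomogeneous (Yw σ τ) g m ∧ b + g * lin (ψ q) = X (Sum.inl j) * a := by
      refine ⟨_, hb₀n, weightedHomogeneousComponent (Yw σ τ) m g₀,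
        weightedHomogeneousComponent_isWeightedHomogeneous _ _, ?_⟩
      rw [← wc_mul_right (isWH_lin _) g₀ m, ← map_add, hbt₀, wc_self haX]
    -- pass to the larger set of variables
    have hZj : aI ψ ((insert j Z : Finset σ) : Set σ) q =
        Ideal.span {(X (Sum.inl j) : MvPolynomial (σ ⊕ τ) ℂ)} ⊔ aI ψ (Z : Set σ) q := by
      rw [aI, aI, ← sup_assoc]
      congr 1
      rw [zI, zI, Finset.coe_insert, Set.image_insert_eq, Set.image_insert_eq, Ideal.span_insert]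
    have hcard : (insert j Z : Finset σ).card = Z.card + 1 := Finset.card_insert_of_notMem hj
    have hmin : min (q + 1) (m + 1) = min q m + 1 := by omega
    rw [hmin] at hZ
    -- a further variable
    obtain ⟨j', hj'⟩ : ∃ j', j' ∉ (insert j Z : Finset σ) := by
      by_contra hcon
      push Not at hcon
      have h1 : (insert j Z : Finset σ) = Finset.univ := Finset.eq_univ_iff_forall.mpr hcon
      rw [h1, Finset.card_univ] at hcard
      omega
    have h2 : g ∈ aI ψ ((insert j Z : Finset σ) : Set σ) q := by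
      refine gkos_K ψ hli hq (j := j') (ih hq' m _ (by omega) j' hj') g hgm ?_
      rw [hZj]
      have h3 : lin (ψ q) * g = X (Sum.inl j) * a - b := by rw [← hbt]; ring
      rw [h3]
      exact Ideal.sub_mem _ (Ideal.mem_sup_left (Ideal.mul_mem_right _ _
        (Ideal.mem_span_singleton_self _))) (Ideal.mem_sup_right hb)
    rw [hZj] at h2
    obtain ⟨t', ht', b'₀, hb'₀, hg₀⟩ := Submodule.mem_sup.mp h2
    obtain ⟨g'₀, rfl⟩ := Ideal.mem_span_singleton'.mp ht'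
    obtain ⟨b', hb', g', hg'm, hg⟩ : ∃ b' ∈ aI ψ (Z : Set σ) q, ∃ g',
        IsWeightedHomogeneous (Yw σ τ) g' m ∧ g' * X (Sum.inl j) + b' = g := by
      refine ⟨weightedHomogeneousComponent (Yw σ τ) m b'₀, ?_,
        weightedHomogeneousComponent (Yw σ τ) m g'₀,
        weightedHomogeneousComponent_isWeightedHomogeneous _ _, ?_⟩
      · rw [aI_eq_span] at hb'₀ ⊢
        exact wc_mem_span (aI_gens ψ _ q) hb'₀ m
      · have h3 := wc_mul_right (isWH_X_inl (τ := τ) j) g'₀ m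
        rw [add_zero] at h3
        rw [← h3, ← map_add, hg₀, wc_self hgm]
    have hlg : IsWeightedHomogeneous (Yw σ τ) (lin (ψ q) * g') (m + 1) := by
      have h3 := (isWH_lin (ψ q)).mul hg'm
      rwa [add_comm] at h3
    have h4 : a - lin (ψ q) * g' ∈ aI ψ (Z : Set σ) q := by
      apply ih hq' (m + 1) Z (by omega) j hj _ (han.sub hlg)
      have h5 : X (Sum.inl j) * (a - lin (ψ q) * g') = b + b' * lin (ψ q) := by
        rw [mul_sub, ← hbt, ← hg]; ring
      rw [h5]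
      exact Ideal.add_mem _ hb (Ideal.mul_mem_right _ _ hb')
    rw [h0]
    have h6 : a = (a - lin (ψ q) * g') + lin (ψ q) * g' := by ring
    rw [h6]
    exact Ideal.add_mem _ (Ideal.mem_sup_left h4) (Ideal.mem_sup_right
      (Ideal.mul_mem_right _ _ (Ideal.mem_span_singleton_self _)))

lemma gkos_reg_one {n : ℕ} (hcard : min c n + 1 ≤ Fintype.card σ) (j : σ)
    (a : MvPolynomial (σ ⊕ τ) ℂ) (han : IsWeightedHomogeneous (Yw σ τ) a n)
    (ha : X (Sum.inl j) * a ∈ pI ψ c) : a ∈ pI ψ c := by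
  have h1 := gkos_N ψ hli c le_rfl n (∅ : Finset σ) (by rw [Finset.card_empty]; omega) j
    (Finset.notMem_empty j) a han
  rw [Finset.coe_empty, aI_empty ψ hli] at h1
  exact h1 ha

lemma gkos_reg_pow {n : ℕ} (hcard : min c n + 1 ≤ Fintype.card σ) (j : σ) (M : ℕ)
    (a : MvPolynomial (σ ⊕ τ) ℂ) (han : IsWeightedHomogeneous (Yw σ τ) a n)
    (ha : X (Sum.inl j) ^ M * a ∈ pI ψ c) : a ∈ pI ψ c := by
  induction M with
  | zero => simpa using ha
  | succ M ih =>
    apply ih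
    apply gkos_reg_one ψ hli hcard j
    · have h1 := (isWH_pow_zero (isWH_X_inl (τ := τ) j) M).mul han
      rwa [zero_add] at h1
    · rwa [← mul_assoc, ← pow_succ']

lemma gkos_reg_two {n : ℕ} (hcard : min c n + 2 ≤ Fintype.card σ) {i j : σ} (hij : j ≠ i)
    (a : MvPolynomial (σ ⊕ τ) ℂ) (han : IsWeightedHomogeneous (Yw σ τ) a n)
    (ha : ∃ m ∈ pI ψ c, ∃ b, (X (Sum.inl j) : MvPolynomial (σ ⊕ τ) ℂ) * a =
      m + (X (Sum.inl i) : MvPolynomial (σ ⊕ τ) ℂ) * b) :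
    ∃ m ∈ pI ψ c, IsWeightedHomogeneous (Yw σ τ) m n ∧ ∃ b, IsWeightedHomogeneous (Yw σ τ) b n ∧
      a = m + (X (Sum.inl i) : MvPolynomial (σ ⊕ τ) ℂ) * b := by
  classical
  have hZ : aI ψ (({i} : Finset σ) : Set σ) c = Ideal.span {(X (Sum.inl i) :
      MvPolynomial (σ ⊕ τ) ℂ)} ⊔ pI ψ c := by
    rw [aI, zI, Finset.coe_singleton, Set.image_singleton, Set.image_singleton]
  have h1 := gkos_N ψ hli c le_rfl n ({i} : Finset σ) (by rw [Finset.card_singleton]; omega) j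
    (by simpa using hij) a han
  rw [hZ] at h1
  obtain ⟨m, hm, b, hb⟩ := ha
  have h2 := h1 (by
    rw [hb]
    exact Ideal.add_mem _ (Ideal.mem_sup_right hm) (Ideal.mem_sup_left
      (Ideal.mul_mem_right _ _ (Ideal.mem_span_singleton_self _))))
  obtain ⟨t, ht, m', hm', htm⟩ := Submodule.mem_sup.mp h2
  obtain ⟨b', rfl⟩ := Ideal.mem_span_singleton'.mp ht
  have hgens : ∀ g ∈ (fun k => lin (ψ k)) '' Set.Iio c,
      ∃ e, IsWeightedHomogeneous (Yw σ τ) g e := by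
    rintro _ ⟨k, _, rfl⟩
    exact ⟨1, isWH_lin _⟩
  refine ⟨weightedHomogeneousComponent (Yw σ τ) n m', wc_mem_span hgens hm' n,
    weightedHomogeneousComponent_isWeightedHomogeneous _ _,
    weightedHomogeneousComponent (Yw σ τ) n b',
    weightedHomogeneousComponent_isWeightedHomogeneous _ _, ?_⟩
  have h3 := wc_mul_right (isWH_X_inl (τ := τ) i) b' n
  rw [add_zero] at h3
  rw [mul_comm, ← h3, ← map_add, add_comm m', htm, wc_self han]

end GKoszul

end Pool.Agent.Hartshorne
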