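import Mathlib
import Pool.Agent.Hartshorne.Koszul2
import Pool.Agent.Hartshorne.Ord

/-!
Homogeneous polynomials of small degree which belong to the ideal up to high order along a linear
space.
-/

namespace Pool.Agent.Hartshorne

open MvPolynomial

set_option linter.unusedSectionVars false

section WH

lemma isWH_aeval {ρ κ : Type*} {v : ρ → ℕ} {w : κ → ℕ} (φ : ρ → MvPolynomial κ ℂ)
    (hφ : ∀ i, IsWeightedHomogeneous w (φ i) (v i)) {f : MvPolynomial ρ ℂ} {m : ℕ}
    (hf : IsWeightedHomogeneous v f m) : IsWeightedHomogeneous w (aeval φ f) m := by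
  classical
  rw [f.as_sum, map_sum, ← mem_weightedHomogeneousSubmodule]
  refine Submodule.sum_mem _ (fun s hs => ?_)
  rw [mem_weightedHomogeneousSubmodule, aeval_monomial]
  have h1 : Finsupp.weight v s = m := hf (mem_support_iff.mp hs)
  have h2 : IsWeightedHomogeneous w (s.prod fun i k => φ i ^ k) (∑ i ∈ s.support, s i • v i) := by
    rw [Finsupp.prod]
    exact IsWeightedHomogeneous.prod _ _ _ (fun i _ => (hφ i).pow (s i))
  have h3 : ∑ i ∈ s.support, s i • v i = m := by
    rw [← h1, Finsupp.weight_apply, Finsupp.sum]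
  rw [h3] at h2
  have h4 := (isWeightedHomogeneous_C w (coeff s f)).mul h2
  rw [zero_add] at h4
  exact h4

lemma eval_weight_scale {ρ : Type*} {v : ρ → ℕ} {f : MvPolynomial ρ ℂ} {m : ℕ}
    (hf : IsWeightedHomogeneous v f m) (t : ℂ) (x : ρ → ℂ) :
    eval (fun i => t ^ v i * x i) f = t ^ m * eval x f := by
  have h1 : ((Polynomial.evalRingHom t).comp (Polynomial.mapRingHom (eval x))).comp
      (coact v : MvPolynomial ρ ℂ →+* Polynomial (MvPolynomial ρ ℂ)) =
      eval (fun i => t ^ v i * x i) := by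
    apply MvPolynomial.ringHom_ext
    · intro a
      have h3 : coact v (C a) = Polynomial.C (C a) := by
        rw [← algebraMap_eq]
        exact (coact v).commutes _
      simp only [RingHom.comp_apply, RingHom.coe_coe, h3]
      simp
    · intro i
      simp only [RingHom.comp_apply, RingHom.coe_coe, coact, aeval_X]
      rw [Polynomial.coe_mapRingHom, Polynomial.map_mul, Polynomial.map_C, Polynomial.map_pow,
        Polynomial.map_X, Polynomial.coe_evalRingHom, Polynomial.eval_mul, Polynomial.eval_C,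
        Polynomial.eval_pow, Polynomial.eval_X, eval_X, eval_X, mul_comm]
  have h2 := RingHom.congr_fun h1 f
  rw [← h2]
  simp only [RingHom.comp_apply, RingHom.coe_coe]
  rw [coact_of_isWeightedHomogeneous v hf, Polynomial.coe_mapRingHom, Polynomial.map_mul,
    Polynomial.map_C, Polynomial.map_pow, Polynomial.map_X, Polynomial.coe_evalRingHom,
    Polynomial.eval_mul, Polynomial.eval_C, Polynomial.eval_pow, Polynomial.eval_X, mul_comm]

end WH

section Trans2

variable {σ τ : Type*} [Fintype σ] [Fintype τ]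

lemma isWH_trans {f : MvPolynomial (σ ⊕ τ) ℂ} {m : ℕ} (hf : IsWeightedHomogeneous (Yw σ τ) f m)
    (z : σ → ℂ) : IsWeightedHomogeneous (Yw σ τ) (trans (Sum.elim z 0) f) m := by
  refine isWH_aeval _ ?_ hf
  rintro (i | b)
  · exact (isWH_X_inl i).add (isWeightedHomogeneous_C _ _)
  · have h1 : (C ((Sum.elim z 0 : σ ⊕ τ → ℂ) (Sum.inr b)) : MvPolynomial (σ ⊕ τ) ℂ) = 0 := by
      simp
    rw [h1, add_zero]
    exact isWH_X_inr b

lemma low_one_of_isWH {h : MvPolynomial (σ ⊕ τ) ℂ} {m : ℕ}
    (hh : IsWeightedHomogeneous (Yw σ τ) h m) : Low (1 : σ ⊕ τ → ℕ) m h := by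
  intro e he
  exact eq_zero_of_degrees (homogeneousComponent_isHomogeneous e h)
    (isWH_wc (v := (1 : σ ⊕ τ → ℕ)) hh e) he

lemma low_trans {g : MvPolynomial (σ ⊕ τ) ℂ} {n : ℕ} (hg : Low (Yw σ τ) n g) (z : σ → ℂ) :
    Low (1 : σ ⊕ τ → ℕ) n (trans (Sum.elim z 0) g) := by
  obtain ⟨D, hD⟩ := exists_sum_wc (Yw σ τ) g
  rw [hD, map_sum]
  apply Low.sum
  intro m _
  by_cases hm : m < n
  · rw [hg m hm, map_zero]
    exact low_of_zero _
  · exact (low_one_of_isWH (isWH_trans (weightedHomogeneousComponent_isWeightedHomogeneous _ _)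
      z)).mono (not_lt.mp hm)

lemma eval_hc_of_isWH {h : MvPolynomial (σ ⊕ τ) ℂ} {n : ℕ}
    (hh : IsWeightedHomogeneous (Yw σ τ) h n) (y : τ → ℂ) :
    eval (Sum.elim 0 y) (homogeneousComponent n h) = eval (Sum.elim 0 y) h := by
  have key : ∀ e, e ≠ n → eval (Sum.elim 0 y) (homogeneousComponent e h) = 0 := by
    intro e he
    have h1 := eval_smul_of_isHomogeneous (homogeneousComponent_isHomogeneous e h) 2
      (Sum.elim 0 y : σ ⊕ τ → ℂ)
    have h2 := eval_weight_scale (isWH_wc (v := (1 : σ ⊕ τ → ℕ)) hh e) 2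
      (Sum.elim 0 y : σ ⊕ τ → ℂ)
    have h3 : (fun i => (2 : ℂ) ^ Yw σ τ i * (Sum.elim 0 y : σ ⊕ τ → ℂ) i) =
        (2 : ℂ) • (Sum.elim 0 y : σ ⊕ τ → ℂ) := by
      funext i
      rcases i with i | b
      · simp [Yw]
      · simp [Yw]
    rw [h3] at h2
    have h4 : eval ((2 : ℂ) • (Sum.elim 0 y : σ ⊕ τ → ℂ)) (homogeneousComponent e h) =
        2 ^ n * eval (Sum.elim 0 y) (homogeneousComponent e h) := h2
    rw [h1] at h4
    by_contra hne
    have h5 := mul_right_cancel₀ hne h4
    have h6 : (2 : ℕ) ^ e = 2 ^ n := by exact_mod_cast h5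
    exact he (Nat.pow_right_injective le_rfl h6)
  conv_rhs => rw [← sum_homogeneousComponent h, map_sum]
  by_cases hn : n ∈ Finset.range (h.totalDegree + 1)
  · rw [Finset.sum_eq_single n]
    · intro e _ he
      exact key e he
    · intro h1
      exact absurd hn h1
  · rw [Finset.sum_eq_zero]
    · rw [Finset.mem_range] at hn
      rw [homogeneousComponent_eq_zero _ _ (by omega), map_zero]
    · intro e he
      apply key
      rintro rfl
      exact hn he

lemma lead_trans {g : MvPolynomial (σ ⊕ τ) ℂ} {n : ℕ} (hg : Low (Yw σ τ) n g) (z : σ → ℂ)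
    (y : τ → ℂ) :
    eval (Sum.elim 0 y) (homogeneousComponent n (trans (Sum.elim z 0) g)) =
      eval (Sum.elim z y) (weightedHomogeneousComponent (Yw σ τ) n g) := by
  have h0 : Low (Yw σ τ) (n + 1) (g - weightedHomogeneousComponent (Yw σ τ) n g) := by
    apply low_succ
    · exact hg.sub (low_of_isWeightedHomogeneous
        (weightedHomogeneousComponent_isWeightedHomogeneous _ _))
    · rw [map_sub, wc_self (weightedHomogeneousComponent_isWeightedHomogeneous _ _), sub_self]
  have h1 := low_trans h0 z n (Nat.lt_succ_self n)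
  have h2 : homogeneousComponent n (trans (Sum.elim z 0) g) = homogeneousComponent n
      (trans (Sum.elim z 0) (weightedHomogeneousComponent (Yw σ τ) n g)) := by
    rw [map_sub] at h1
    have h3 : homogeneousComponent n (trans (Sum.elim z 0) g -
      trans (Sum.elim z 0) (weightedHomogeneousComponent (Yw σ τ) n g)) = 0 := h1
    rw [map_sub, sub_eq_zero] at h3
    exact h3
  rw [h2, eval_hc_of_isWH (isWH_trans
    (weightedHomogeneousComponent_isWeightedHomogeneous _ _) z), eval_trans]
  congr 2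
  funext i
  rcases i with i | b <;> simp

end Trans2

section Pointwise

variable {σ τ : Type*} [Fintype σ] [Fintype τ] [DecidableEq τ] {c : ℕ}
  (ψ : ℕ → τ → MvPolynomial σ ℂ)

lemma Xi_eq_zero_of_pointwise (i₀ : σ) (q : MvPolynomial (σ ⊕ τ) ℂ)
    (h : ∀ z : σ → ℂ, z ≠ 0 → ∀ y : τ → ℂ,
      (∀ k < c, eval (Sum.elim z y) (lin (ψ k)) = 0) → eval (Sum.elim z y) q = 0)
    (T : Fin c → τ) : Xi c c ψ T q = 0 := by
  apply eq_zero_of_eval (X_ne_zero (Sum.inl i₀) : (X (Sum.inl i₀) : MvPolynomial (σ ⊕ τ) ℂ) ≠ 0)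
  intro w hw
  rw [eval_X] at hw
  have h1 : ∀ f : MvPolynomial (σ ⊕ τ) ℂ, eval w (Xi c c ψ T f) =
      eval (Sum.elim (fun i => w (Sum.inl i))
        (fun b => eval w (Xi c c ψ T (X (Sum.inr b))))) f := by
    intro f
    have h2 : (eval w).comp (Xi c c ψ T : MvPolynomial (σ ⊕ τ) ℂ →+* MvPolynomial (σ ⊕ τ) ℂ) =
        eval (Sum.elim (fun i => w (Sum.inl i))
        (fun b => eval w (Xi c c ψ T (X (Sum.inr b))))) := by
      apply MvPolynomial.ringHom_ext
      · intro a
        have h3 : Xi c c ψ T (C a) = C a := by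
          rw [← algebraMap_eq]
          exact (Xi c c ψ T).commutes _
        simp only [RingHom.comp_apply, RingHom.coe_coe, h3, eval_C]
      · intro i
        rcases i with i | b
        · simp only [RingHom.comp_apply, RingHom.coe_coe, Xi_X_inl, eval_X, Sum.elim_inl]
        · simp only [RingHom.comp_apply, RingHom.coe_coe, eval_X, Sum.elim_inr]
    exact RingHom.congr_fun h2 f
  rw [h1]
  apply h
  · intro h0
    exact hw (congrFun h0 i₀)
  · intro k hk
    rw [← h1, Xi_psi ψ T k hk, if_pos hk, map_zero]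

variable (hli : ∀ z : σ → ℂ, z ≠ 0 → LinearIndependent ℂ (fun i : Fin c => rowEval z (ψ i)))

include hli

lemma mem_pI_of_pointwise {n : ℕ} (hcard : min c n + 1 ≤ Fintype.card σ)
    (q : MvPolynomial (σ ⊕ τ) ℂ) (hq : IsWeightedHomogeneous (Yw σ τ) q n)
    (h : ∀ z : σ → ℂ, z ≠ 0 → ∀ y : τ → ℂ,
      (∀ k < c, eval (Sum.elim z y) (lin (ψ k)) = 0) → eval (Sum.elim z y) q = 0) :
    q ∈ pI ψ c := by
  obtain ⟨i₀⟩ : Nonempty σ := Fintype.card_pos_iff.mp (by omega)
  obtain ⟨M, hM⟩ := gkos_pow (c := c) (q := c) (Z := (∅ : Set σ)) ψ q hli (by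
    intro z _ _ T _
    rw [Xi_eq_zero_of_pointwise ψ i₀ q h T]
    exact Ideal.zero_mem _) i₀
  rw [aI_empty ψ hli] at hM
  exact gkos_reg_pow ψ hli hcard i₀ M q hq hM

end Pointwise

section MemOrd

variable {σ τ : Type*} [Fintype σ] [Fintype τ] [DecidableEq τ] {c : ℕ}
  {J : Ideal (MvPolynomial (σ ⊕ τ) ℂ)}

lemma rowE_eq_span (hJ : J.IsPrime) (hJq : J ≤ posIdeal (Yw σ τ))
    (hdim : ((Fintype.card (σ ⊕ τ) : ℕ) : WithBot ℕ∞) ≤
      ringKrullDim (MvPolynomial (σ ⊕ τ) ℂ ⧸ J) + (c : WithBot ℕ∞)) (z : σ → ℂ)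
    (w : Fin c → (τ → ℂ)) (hw : ∀ i, w i ∈ rowE J z) (hli : LinearIndependent ℂ w) :
    Submodule.span ℂ (Set.range w) = rowE J z := by
  have h0 : Submodule.span ℂ (Set.range w) ≤ rowE J z := by
    rw [Submodule.span_le]
    rintro _ ⟨i, rfl⟩
    exact hw i
  apply Submodule.eq_of_le_of_finrank_le h0
  rw [finrank_span_eq_card hli, Fintype.card_fin]
  obtain ⟨R, hR⟩ : ∃ R, Module.finrank ℂ (rowE J z) = R := ⟨_, rfl⟩
  rw [hR]
  rw [rowE] at hR
  obtain ⟨g, hg, hgli⟩ := exists_li_image (J : Set (MvPolynomial (σ ⊕ τ) ℂ))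
    (fun G => rowEval z (rowOf G)) hR
  exact card_le_of_li hJ hJq hdim z g hg hgli

/-- **Membership from order of vanishing along a linear space.** -/
theorem mem_span_of_ord (hJ : J.IsPrime) (hJq : J ≤ posIdeal (Yw σ τ))
    (hdim : ((Fintype.card (σ ⊕ τ) : ℕ) : WithBot ℕ∞) ≤
      ringKrullDim (MvPolynomial (σ ⊕ τ) ℂ ⧸ J) + (c : WithBot ℕ∞))
    (hfrm : ∀ z : σ → ℂ, z ≠ 0 → ∃ F : Fin c → MvPolynomial (σ ⊕ τ) ℂ, (∀ k, F k ∈ J) ∧
      LinearIndependent ℂ (fun k => grad (Sum.elim z 0) (F k)))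
    (G : Fin c → MvPolynomial (σ ⊕ τ) ℂ) (e : Fin c → ℕ) (hGh : ∀ i, (G i).IsHomogeneous (e i))
    (M : ℕ) (hGo : ∀ z : σ → ℂ, z ≠ 0 → ∀ i, OrdPt J M (Sum.elim z 0) (G i))
    (hG0 : ∀ i, weightedHomogeneousComponent (Yw σ τ) 0 (G i) = 0)
    (hGE : ∀ z : σ → ℂ, z ≠ 0 → ∀ i, rowEval z (rowOf (G i)) ∈ rowE J z)
    (hGli : ∀ z : σ → ℂ, z ≠ 0 → LinearIndependent ℂ (fun i => rowEval z (rowOf (G i))))
    (hs : ∀ n < M, min c n + 1 ≤ Fintype.card σ) {D : ℕ} (hD : D < M)
    {g : MvPolynomial (σ ⊕ τ) ℂ} (hg : g.IsHomogeneous D)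
    (hgo : ∀ z : σ → ℂ, z ≠ 0 → OrdPt J M (Sum.elim z 0) g) :
    g ∈ Ideal.span (Set.range G) := by
  set G' : ℕ → MvPolynomial (σ ⊕ τ) ℂ := fun k => if h : k < c then G ⟨k, h⟩ else 0 with hG'
  have hG'k : ∀ k (hk : k < c), G' k = G ⟨k, hk⟩ := fun k hk => by
    simp only [hG']; rw [dif_pos hk]
  set ψ : ℕ → τ → MvPolynomial σ ℂ := fun k => rowOf (G' k) with hψ
  have hψk : ∀ k : Fin c, ψ k = rowOf (G k) := fun k => by
    simp only [hψ]; rw [hG'k k k.2]
  have hli : ∀ z : σ → ℂ, z ≠ 0 → LinearIndependent ℂ (fun i : Fin c => rowEval z (ψ i)) := by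
    intro z hz
    simp only [hψk]
    exact hGli z hz
  have hspanhom : ∀ g ∈ Ideal.span (Set.range G), ∀ e,
      homogeneousComponent e g ∈ Ideal.span (Set.range G) := by
    intro g hg e
    refine wc_mem_span (v := (1 : σ ⊕ τ → ℕ)) ?_ hg e
    rintro _ ⟨k, rfl⟩
    exact ⟨_, hGh k⟩
  have hkey : ∀ n, ∀ g : MvPolynomial (σ ⊕ τ) ℂ, g.IsHomogeneous D →
      (∀ z : σ → ℂ, z ≠ 0 → OrdPt J M (Sum.elim z 0) g) → Low (Yw σ τ) (D + 1 - n) g →
      g ∈ Ideal.span (Set.range G) := by
    intro n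
    induction n with
    | zero =>
      intro g hgD _ hlow
      rw [low_zero_of_degrees hgD hlow (by omega)]
      exact Ideal.zero_mem _
    | succ n ih =>
      intro g hgD hgo hlow
      by_cases hn : D + 1 ≤ n
      · exact ih g hgD hgo (hlow.mono (by omega))
      have hk1 : D + 1 - n = (D + 1 - (n + 1)) + 1 := by omega
      set k := D + 1 - (n + 1) with hk
      have h1 : weightedHomogeneousComponent (Yw σ τ) k g ∈ pI ψ c := by
        refine mem_pI_of_pointwise ψ hli (hs k (by omega)) _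
          (weightedHomogeneousComponent_isWeightedHomogeneous _ _) ?_
        intro z hz y hy
        obtain ⟨F, hF, hFli⟩ := hfrm z hz
        have h2 := ord_lead hJ (fun h hh => eval_zero_of_le hJq hh z) hdim F hF hFli (hgo z hz)
          (show k < M by omega) (low_trans hlow z) (Sum.elim 0 y) (by
            intro h hh
            rw [Fintype.sum_sum_type]
            simp only [Sum.elim_inl, Sum.elim_inr, Pi.zero_apply, mul_zero,
              Finset.sum_const_zero, zero_add]
            have h3 : rowEval z (rowOf h) ∈ Submodule.span ℂ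
                (Set.range fun i => rowEval z (rowOf (G i))) := by
              rw [rowE_eq_span hJ hJq hdim z _ (hGE z hz) (hGli z hz)]
              exact rowEval_mem_rowE hh z
            obtain ⟨a, ha⟩ := (Submodule.mem_span_range_iff_exists_fun _).mp h3
            have h4 : ∀ b, grad (Sum.elim z 0) h (Sum.inr b) =
                ∑ i, a i * rowEval z (rowOf (G i)) b := by
              intro b
              rw [grad_apply, ← rowEval_rowOf, ← ha, Finset.sum_apply]
              rfl
            simp only [h4, Finset.sum_mul]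
            rw [Finset.sum_comm]
            refine Finset.sum_eq_zero (fun i _ => ?_)
            have h5 := hy i i.2
            rw [hψk, eval_lin] at h5
            have h6 : ∑ b, a i * rowEval z (rowOf (G i)) b * y b =
                a i * ∑ b, eval z (rowOf (G i) b) * y b := by
              rw [Finset.mul_sum]
              refine Finset.sum_congr rfl (fun b _ => ?_)
              rw [rowEval_apply]
              ring
            rw [h6, h5, mul_zero])
        rwa [lead_trans hlow] at h2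
      have h2 : pI ψ c = Ideal.span
          ((fun j => weightedHomogeneousComponent (Yw σ τ) 1 (G' j)) '' Set.Iio c) := by
        rw [pI]
        congr 1
        apply Set.image_congr
        intro j _
        rw [wc_one_eq]
      rw [h2] at h1
      obtain ⟨b, hb, hblow, hbk⟩ := exists_lift_of_mem_span (n := c) G' (by
        intro i hi
        rw [hG'k i hi]
        exact hG0 _) le_rfl
        (weightedHomogeneousComponent_isWeightedHomogeneous (w := Yw σ τ) k g) h1
      have hbG : b ∈ Ideal.span (Set.range G) := by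
        refine (Ideal.span_le.mpr ?_) hb
        rintro _ ⟨j, hj, rfl⟩
        have hj' : j < c := hj
        rw [SetLike.mem_coe, hG'k j hj']
        exact Ideal.subset_span ⟨_, rfl⟩
      have hbG' := hspanhom b hbG D
      have h3 : g - homogeneousComponent D b ∈ Ideal.span (Set.range G) := by
        apply ih _ (hgD.sub (homogeneousComponent_isHomogeneous _ _))
        · intro z hz
          refine (hgo z hz).sub (OrdPt.of_span ?_ hbG')
          rintro _ ⟨i, rfl⟩
          exact hGo z hz i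
        · rw [hk1]
          apply low_succ
          · exact hlow.sub (low_wc _ hblow _)
          · rw [map_sub, hc_eq, wc_comm, hbk, ← hc_eq, sub_eq_zero]
            symm
            exact homogeneousComponent_eq_self (isWH_wc hgD k)
      have h4 := Ideal.add_mem _ h3 hbG'
      rwa [sub_add_cancel] at h4
  refine hkey (D + 1) g hg hgo ?_
  rw [Nat.sub_self]
  exact low_zero _

end MemOrd

end Pool.Agent.Hartshorne
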