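import Mathlib
import Pool.Agent.Hartshorne.MemOrd

/-!
Lifting of linear parts up to a bounded order, on linear spaces of small dimension.
-/

namespace Pool.Agent.Hartshorne

open MvPolynomial

set_option linter.unusedSectionVars false

section Lift2

variable {σ τ : Type*} [Fintype σ] [Fintype τ] [DecidableEq τ] {c : ℕ}
  {J : Ideal (MvPolynomial (σ ⊕ τ) ℂ)} {ψ : ℕ → τ → MvPolynomial σ ℂ}

/-- Leading forms lie in the ideal of the linear forms. -/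
lemma lead_pI_of_ord (hJ : J.IsPrime) (hJq : J ≤ posIdeal (Yw σ τ))
    (hdim : ((Fintype.card (σ ⊕ τ) : ℕ) : WithBot ℕ∞) ≤
      ringKrullDim (MvPolynomial (σ ⊕ τ) ℂ ⧸ J) + (c : WithBot ℕ∞))
    (hfrm : ∀ z : σ → ℂ, z ≠ 0 → ∃ F : Fin c → MvPolynomial (σ ⊕ τ) ℂ, (∀ k, F k ∈ J) ∧
      LinearIndependent ℂ (fun k => grad (Sum.elim z 0) (F k)))
    (hψE : ∀ z : σ → ℂ, z ≠ 0 → ∀ i : Fin c, rowEval z (ψ i) ∈ rowE J z)
    (hli : ∀ z : σ → ℂ, z ≠ 0 → LinearIndependent ℂ (fun i : Fin c => rowEval z (ψ i)))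
    {M k : ℕ} (hk : k < M) (hcard : min c k + 1 ≤ Fintype.card σ) {g : MvPolynomial (σ ⊕ τ) ℂ}
    (hgo : ∀ z : σ → ℂ, z ≠ 0 → OrdPt J M (Sum.elim z 0) g) (hlow : Low (Yw σ τ) k g) :
    weightedHomogeneousComponent (Yw σ τ) k g ∈ pI ψ c := by
  refine mem_pI_of_pointwise ψ hli hcard _
    (weightedHomogeneousComponent_isWeightedHomogeneous _ _) ?_
  intro z hz y hy
  obtain ⟨F, hF, hFli⟩ := hfrm z hz
  have h2 := ord_lead hJ (fun h hh => eval_zero_of_le hJq hh z) hdim F hF hFli (hgo z hz)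
    hk (low_trans hlow z) (Sum.elim 0 y) (by
      intro h hh
      rw [Fintype.sum_sum_type]
      simp only [Sum.elim_inl, Sum.elim_inr, Pi.zero_apply, mul_zero,
        Finset.sum_const_zero, zero_add]
      have h3 : rowEval z (rowOf h) ∈ Submodule.span ℂ
          (Set.range fun i : Fin c => rowEval z (ψ i)) := by
        rw [rowE_eq_span hJ hJq hdim z _ (hψE z hz) (hli z hz)]
        exact rowEval_mem_rowE hh z
      obtain ⟨a, ha⟩ := (Submodule.mem_span_range_iff_exists_fun _).mp h3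
      have h4 : ∀ b, grad (Sum.elim z 0) h (Sum.inr b) = ∑ i, a i * rowEval z (ψ i) b := by
        intro b
        rw [grad_apply, ← rowEval_rowOf, ← ha, Finset.sum_apply]
        rfl
      simp only [h4, Finset.sum_mul]
      rw [Finset.sum_comm]
      refine Finset.sum_eq_zero (fun i _ => ?_)
      have h5 := hy i i.2
      rw [eval_lin] at h5
      have h6 : ∑ b, a i * rowEval z (ψ i) b * y b = a i * ∑ b, eval z (ψ i b) * y b := by
        rw [Finset.mul_sum]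
        refine Finset.sum_congr rfl (fun b _ => ?_)
        rw [rowEval_apply]
        ring
      rw [h6, h5, mul_zero])
  rwa [lead_trans hlow] at h2

/-- One lifting step. -/
lemma JK_step2 (hJ : J.IsPrime)
    (hhom : ∀ f ∈ J, ∀ e, homogeneousComponent e f ∈ J)
    (hJq : J ≤ posIdeal (Yw σ τ))
    (hdim : ((Fintype.card (σ ⊕ τ) : ℕ) : WithBot ℕ∞) ≤
      ringKrullDim (MvPolynomial (σ ⊕ τ) ℂ ⧸ J) + (c : WithBot ℕ∞))
    (hfrm : ∀ z : σ → ℂ, z ≠ 0 → ∃ F : Fin c → MvPolynomial (σ ⊕ τ) ℂ, (∀ k, F k ∈ J) ∧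
      LinearIndependent ℂ (fun k => grad (Sum.elim z 0) (F k)))
    (hψE : ∀ z : σ → ℂ, z ≠ 0 → ∀ i : Fin c, rowEval z (ψ i) ∈ rowE J z)
    (hψh : ∀ k < c, ∃ e, HomRow e (ψ k))
    (hli : ∀ z : σ → ℂ, z ≠ 0 → LinearIndependent ℂ (fun i : Fin c => rowEval z (ψ i)))
    (h : ∀ k < c, ∀ l, ∃ N, ∃ G ∈ J, weightedHomogeneousComponent (Yw σ τ) 1 G =
      X (Sum.inl l) ^ N * lin (ψ k)) {i j : σ} (hij : j ≠ i) {k D : ℕ}
    (hs : min c k + 2 ≤ Fintype.card σ)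
    {g : MvPolynomial (σ ⊕ τ) ℂ} (hgD : g.IsHomogeneous D) (hg : JK J i j k g) :
    ∃ η, IsWeightedHomogeneous (Yw σ τ) η k ∧ η.IsHomogeneous D ∧ JK J i j (k + 1) (g - η) := by
  classical
  obtain ⟨N₁, hN₁⟩ := uniform_N i (fun k hk => h k hk i)
  obtain ⟨N₂, hN₂⟩ := uniform_N j (fun k hk => h k hk j)
  obtain ⟨N, a₀, b₀, ha₀, hb₀, hlowa, hlowb⟩ := hg
  set x : MvPolynomial (σ ⊕ τ) ℂ := X (Sum.inl i) with hx
  set y : MvPolynomial (σ ⊕ τ) ℂ := X (Sum.inl j) with hy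
  have hx0 : IsWeightedHomogeneous (Yw σ τ) x 0 := isWH_X_inl i
  have hy0 : IsWeightedHomogeneous (Yw σ τ) y 0 := isWH_X_inl j
  set a := homogeneousComponent (N + D) a₀ with ha
  set b := homogeneousComponent (N + D) b₀ with hb
  have haJ : a ∈ J := hhom _ ha₀ _
  have hbJ : b ∈ J := hhom _ hb₀ _
  have hxa : x ^ N * g - a = homogeneousComponent (N + D) (x ^ N * g - a₀) := by
    rw [map_sub, hx, hc_pow_mul, homogeneousComponent_eq_self hgD]
  have hyb : y ^ N * g - b = homogeneousComponent (N + D) (y ^ N * g - b₀) := by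
    rw [map_sub, hy, hc_pow_mul, homogeneousComponent_eq_self hgD]
  have hlowa' : Low (Yw σ τ) k (x ^ N * g - a) := by rw [hxa]; exact low_wc _ hlowa _
  have hlowb' : Low (Yw σ τ) k (y ^ N * g - b) := by rw [hyb]; exact low_wc _ hlowb _
  set r₁ := weightedHomogeneousComponent (Yw σ τ) k (x ^ N * g - a) with hr₁
  set r₂ := weightedHomogeneousComponent (Yw σ τ) k (y ^ N * g - b) with hr₂
  have hr₁k : IsWeightedHomogeneous (Yw σ τ) r₁ k :=
    weightedHomogeneousComponent_isWeightedHomogeneous _ _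
  have hr₂k : IsWeightedHomogeneous (Yw σ τ) r₂ k :=
    weightedHomogeneousComponent_isWeightedHomogeneous _ _
  have hr₁D : r₁.IsHomogeneous (N + D) := by
    rw [hr₁, hxa]
    exact isWH_wc (homogeneousComponent_isHomogeneous _ _) _
  have hM : y ^ N * r₁ - x ^ N * r₂ ∈ pI ψ c := by
    have h1 : y ^ N * r₁ - x ^ N * r₂ =
        weightedHomogeneousComponent (Yw σ τ) k (x ^ N * b - y ^ N * a) := by
      have h0 : y ^ N * (x ^ N * g - a) - x ^ N * (y ^ N * g - b) = x ^ N * b - y ^ N * a := by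
        ring
      rw [hr₁, hr₂, ← wc_pow_mul hy0, ← wc_pow_mul hx0, ← map_sub, h0]
    rw [h1]
    refine lead_pI_of_ord hJ hJq hdim hfrm hψE hli (Nat.lt_succ_self k) (by omega)
      (fun z _ => OrdPt.of_mem (J.sub_mem (J.mul_mem_left _ hbJ) (J.mul_mem_left _ haJ))) ?_
    have h2 : x ^ N * b - y ^ N * a = y ^ N * (x ^ N * g - a) - x ^ N * (y ^ N * g - b) := by
      ring
    rw [h2]
    exact (hlowa'.mul_left _).sub (hlowb'.mul_left _)
  have hpow : ∀ {z : MvPolynomial (σ ⊕ τ) ℂ}, IsWeightedHomogeneous (Yw σ τ) z 0 → ∀ n f,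
      IsWeightedHomogeneous (Yw σ τ) f k → IsWeightedHomogeneous (Yw σ τ) (z ^ n * f) k := by
    intro z hz n f hf
    have := (isWH_pow_zero hz n).mul hf
    rwa [zero_add] at this
  -- the graded piece
  set S : AddSubgroup (MvPolynomial (σ ⊕ τ) ℂ) :=
    (weightedHomogeneousSubmodule ℂ (Yw σ τ) k).toAddSubgroup with hS
  have hmemS : ∀ f, f ∈ S ↔ IsWeightedHomogeneous (Yw σ τ) f k := fun f => Iff.rfl
  obtain ⟨m₀, hm₀, hm₀S, η₀, hη₀S, hη₀⟩ := reg_pow_gr S (pI ψ c) x y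
    (fun f hf => by
      have := hpow hx0 1 f hf
      rwa [pow_one] at this)
    (fun f hf => by
      have := hpow hy0 1 f hf
      rwa [pow_one] at this)
    (fun f hf hxf => gkos_reg_one ψ hli (n := k) (by omega) i f hf hxf)
    (fun f hf hex => by
      obtain ⟨m, hm, -, b, -, hb⟩ := hex
      obtain ⟨m', hm', hm'k, b', hb'k, hfb⟩ := gkos_reg_two ψ hli (n := k) hs hij f hf
        ⟨m, hm, b, hb⟩
      exact ⟨m', hm', hm'k, b', hb'k, hfb⟩) N N r₁ hr₁k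
    ⟨_, hM, (hpow hy0 N _ hr₁k).sub (hpow hx0 N _ hr₂k), r₂, hr₂k, by ring⟩
  have hgens : ∀ g ∈ (fun k => lin (ψ k)) '' Set.Iio c,
      ∃ e, IsWeightedHomogeneous (Yw σ τ) g e := by
    rintro _ ⟨k, _, rfl⟩
    exact ⟨1, isWH_lin _⟩
  have hgens' : ∀ g ∈ (fun k => lin (ψ k)) '' Set.Iio c,
      ∃ e, IsWeightedHomogeneous (1 : σ ⊕ τ → ℕ) g e := by
    rintro _ ⟨k, hk, rfl⟩
    obtain ⟨e, he⟩ := hψh k hk
    exact ⟨e + 1, isHomogeneous_lin he⟩
  set η := homogeneousComponent D (weightedHomogeneousComponent (Yw σ τ) k η₀) with hη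
  have hηk : IsWeightedHomogeneous (Yw σ τ) η k := by
    rw [hη, hc_eq]
    exact isWH_wc (weightedHomogeneousComponent_isWeightedHomogeneous _ _) _
  have hηD : η.IsHomogeneous D := homogeneousComponent_isHomogeneous _ _
  have hp₁ : r₁ - x ^ N * η ∈ pI ψ c := by
    have h1 : r₁ = homogeneousComponent (N + D)
        (weightedHomogeneousComponent (Yw σ τ) k m₀) + x ^ N * η := by
      rw [hη, hx, ← hc_pow_mul, ← hx, ← wc_pow_mul hx0, ← map_add, ← map_add, ← hη₀,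
        wc_self hr₁k, homogeneousComponent_eq_self hr₁D]
    rw [h1, add_sub_cancel_right]
    exact wc_mem_span hgens' (wc_mem_span hgens hm₀ k) _
  have hηx : ∀ {z : MvPolynomial (σ ⊕ τ) ℂ}, IsWeightedHomogeneous (Yw σ τ) z 0 →
      IsWeightedHomogeneous (Yw σ τ) (z ^ N * η) k := by
    intro z hz
    exact hpow hz N η hηk
  have hp₂ : r₂ - y ^ N * η ∈ pI ψ c := by
    apply gkos_reg_pow ψ hli (n := k) (by omega) i N _ (hr₂k.sub (hηx hy0))
    have h1 : x ^ N * (r₂ - y ^ N * η) =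
        -(y ^ N * r₁ - x ^ N * r₂) + y ^ N * (r₁ - x ^ N * η) := by
      ring
    rw [← hx, h1]
    exact Ideal.add_mem _ (Ideal.neg_mem_iff _ |>.mpr hM) (Ideal.mul_mem_left _ _ hp₁)
  obtain ⟨b₁, hb₁, hb₁low, hb₁k⟩ := lift_pI hJq i (N₁ + N₂) (hN₁ _ (Nat.le_add_right _ _)) hp₁
    (hr₁k.sub (hηx hx0))
  obtain ⟨b₂, hb₂, hb₂low, hb₂k⟩ := lift_pI hJq j (N₁ + N₂) (hN₂ _ (Nat.le_add_left _ _)) hp₂
    (hr₂k.sub (hηx hy0))
  refine ⟨η, hηk, hηD, N₁ + N₂ + N, x ^ (N₁ + N₂) * a + b₁, y ^ (N₁ + N₂) * b + b₂,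
    J.add_mem (J.mul_mem_left _ haJ) hb₁, J.add_mem (J.mul_mem_left _ hbJ) hb₂, ?_, ?_⟩
  · have h1 : x ^ (N₁ + N₂ + N) * (g - η) - (x ^ (N₁ + N₂) * a + b₁) =
        x ^ (N₁ + N₂) * ((x ^ N * g - a) - x ^ N * η) - b₁ := by
      rw [pow_add _ (N₁ + N₂) N]; ring
    rw [h1]
    apply low_succ
    · exact ((hlowa'.sub (low_of_isWeightedHomogeneous (hηx hx0))).mul_left _).sub hb₁low
    · rw [map_sub, wc_pow_mul hx0, map_sub, wc_self (hηx hx0), hb₁k, ← hr₁, sub_self]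
  · have h1 : y ^ (N₁ + N₂ + N) * (g - η) - (y ^ (N₁ + N₂) * b + b₂) =
        y ^ (N₁ + N₂) * ((y ^ N * g - b) - y ^ N * η) - b₂ := by
      rw [pow_add _ (N₁ + N₂) N]; ring
    rw [h1]
    apply low_succ
    · exact ((hlowb'.sub (low_of_isWeightedHomogeneous (hηx hy0))).mul_left _).sub hb₂low
    · rw [map_sub, wc_pow_mul hy0, map_sub, wc_self (hηx hy0), hb₂k, ← hr₂, sub_self]

/-- Membership up to order `k` in all charts. -/
def JA (J : Ideal (MvPolynomial (σ ⊕ τ) ℂ)) (k : ℕ) (g : MvPolynomial (σ ⊕ τ) ℂ) : Prop :=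
  ∀ l : σ, ∃ N a, a ∈ J ∧ Low (Yw σ τ) k (X (Sum.inl l) ^ N * g - a)

lemma JA.toJK {k : ℕ} {g : MvPolynomial (σ ⊕ τ) ℂ} (hg : JA J k g) (i j : σ) : JK J i j k g := by
  obtain ⟨N₁, a, ha, hlow₁⟩ := hg i
  obtain ⟨N₂, b, hb, hlow₂⟩ := hg j
  refine ⟨N₁ + N₂, X (Sum.inl i) ^ N₂ * a, X (Sum.inl j) ^ N₁ * b, J.mul_mem_left _ ha,
    J.mul_mem_left _ hb, ?_, ?_⟩
  · have h1 : X (Sum.inl i) ^ (N₁ + N₂) * g - X (Sum.inl i) ^ N₂ * a =
        X (Sum.inl i) ^ N₂ * (X (Sum.inl i) ^ N₁ * g - a) := by rw [pow_add]; ring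
    rw [h1]
    exact hlow₁.mul_left _
  · have h1 : X (Sum.inl j) ^ (N₁ + N₂) * g - X (Sum.inl j) ^ N₁ * b =
        X (Sum.inl j) ^ N₁ * (X (Sum.inl j) ^ N₂ * g - b) := by rw [pow_add]; ring
    rw [h1]
    exact hlow₂.mul_left _

lemma JA_step (hJ : J.IsPrime)
    (hhom : ∀ f ∈ J, ∀ e, homogeneousComponent e f ∈ J)
    (hJq : J ≤ posIdeal (Yw σ τ))
    (hdim : ((Fintype.card (σ ⊕ τ) : ℕ) : WithBot ℕ∞) ≤
      ringKrullDim (MvPolynomial (σ ⊕ τ) ℂ ⧸ J) + (c : WithBot ℕ∞))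
    (hfrm : ∀ z : σ → ℂ, z ≠ 0 → ∃ F : Fin c → MvPolynomial (σ ⊕ τ) ℂ, (∀ k, F k ∈ J) ∧
      LinearIndependent ℂ (fun k => grad (Sum.elim z 0) (F k)))
    (hψE : ∀ z : σ → ℂ, z ≠ 0 → ∀ i : Fin c, rowEval z (ψ i) ∈ rowE J z)
    (hψh : ∀ k < c, ∃ e, HomRow e (ψ k))
    (hli : ∀ z : σ → ℂ, z ≠ 0 → LinearIndependent ℂ (fun i : Fin c => rowEval z (ψ i)))
    (h : ∀ k < c, ∀ l, ∃ N, ∃ G ∈ J, weightedHomogeneousComponent (Yw σ τ) 1 G =
      X (Sum.inl l) ^ N * lin (ψ k)) {k D : ℕ}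
    (hs : min c k + 2 ≤ Fintype.card σ)
    {g : MvPolynomial (σ ⊕ τ) ℂ} (hgD : g.IsHomogeneous D) (hg : JA J k g) :
    ∃ η, IsWeightedHomogeneous (Yw σ τ) η k ∧ η.IsHomogeneous D ∧ JA J (k + 1) (g - η) := by
  obtain ⟨i, j, hij⟩ := Fintype.exists_pair_of_one_lt_card (α := σ) (by omega)
  obtain ⟨η, hηk, hηD, M, a', b', ha', hb', hlowa', -⟩ := JK_step2 hJ hhom hJq hdim hfrm hψE hψh
    hli h hij.symm hs hgD (hg.toJK i j)
  refine ⟨η, hηk, hηD, fun l => ?_⟩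
  obtain ⟨N, a, ha, hlow⟩ := hg l
  obtain ⟨N₁, hN₁⟩ := uniform_N l (fun k hk => h k hk l)
  have hl0 : IsWeightedHomogeneous (Yw σ τ) (X (Sum.inl l) : MvPolynomial (σ ⊕ τ) ℂ) 0 :=
    isWH_X_inl l
  have hi0 : IsWeightedHomogeneous (Yw σ τ) (X (Sum.inl i) : MvPolynomial (σ ⊕ τ) ℂ) 0 :=
    isWH_X_inl i
  have hηl : IsWeightedHomogeneous (Yw σ τ)
      ((X (Sum.inl l) : MvPolynomial (σ ⊕ τ) ℂ) ^ N * η) k := by
    have := (isWH_pow_zero hl0 N).mul hηk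
    rwa [zero_add] at this
  have hlow' : Low (Yw σ τ) k (X (Sum.inl l) ^ N * (g - η) - a) := by
    have h1 : X (Sum.inl l) ^ N * (g - η) - a =
        (X (Sum.inl l) ^ N * g - a) - X (Sum.inl l) ^ N * η := by ring
    rw [h1]
    exact hlow.sub (low_of_isWeightedHomogeneous hηl)
  set r := weightedHomogeneousComponent (Yw σ τ) k (X (Sum.inl l) ^ N * (g - η) - a) with hr
  have hrk : IsWeightedHomogeneous (Yw σ τ) r k :=
    weightedHomogeneousComponent_isWeightedHomogeneous _ _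
  have hmem : r ∈ pI ψ c := by
    apply gkos_reg_pow ψ hli (n := k) (by omega) i M r hrk
    have h1 : X (Sum.inl i) ^ M * r = weightedHomogeneousComponent (Yw σ τ) k
        (X (Sum.inl l) ^ N * a' - X (Sum.inl i) ^ M * a) := by
      rw [hr, ← wc_pow_mul hi0]
      have h2 : X (Sum.inl i) ^ M * (X (Sum.inl l) ^ N * (g - η) - a) =
          X (Sum.inl l) ^ N * (X (Sum.inl i) ^ M * (g - η) - a') +
          (X (Sum.inl l) ^ N * a' - X (Sum.inl i) ^ M * a) := by ring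
      rw [h2, map_add, (hlowa'.mul_left _) k (Nat.lt_succ_self k), zero_add]
    rw [h1]
    refine lead_pI_of_ord hJ hJq hdim hfrm hψE hli (Nat.lt_succ_self k) (by omega)
      (fun z _ => OrdPt.of_mem (J.sub_mem (J.mul_mem_left _ ha') (J.mul_mem_left _ ha))) ?_
    have h2 : X (Sum.inl l) ^ N * a' - X (Sum.inl i) ^ M * a =
        X (Sum.inl i) ^ M * (X (Sum.inl l) ^ N * (g - η) - a) -
        X (Sum.inl l) ^ N * (X (Sum.inl i) ^ M * (g - η) - a') := by ring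
    rw [h2]
    exact (hlow'.mul_left _).sub ((hlowa'.mono (Nat.le_succ k)).mul_left _)
  obtain ⟨b, hb, hblow, hbk⟩ := lift_pI hJq l N₁ (hN₁ _ le_rfl) hmem hrk
  refine ⟨N₁ + N, X (Sum.inl l) ^ N₁ * a + b, J.add_mem (J.mul_mem_left _ ha) hb, ?_⟩
  have h1 : X (Sum.inl l) ^ (N₁ + N) * (g - η) - (X (Sum.inl l) ^ N₁ * a + b) =
      X (Sum.inl l) ^ N₁ * (X (Sum.inl l) ^ N * (g - η) - a) - b := by
    rw [pow_add]; ring
  rw [h1]
  apply low_succ
  · exact (hlow'.mul_left _).sub hblow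
  · rw [map_sub, wc_pow_mul hl0, hbk, ← hr, sub_self]

/-- Lifting of linear parts up to a bounded order. -/
theorem exists_lift_bounded (hJ : J.IsPrime)
    (hhom : ∀ f ∈ J, ∀ e, homogeneousComponent e f ∈ J)
    (hJq : J ≤ posIdeal (Yw σ τ))
    (hdim : ((Fintype.card (σ ⊕ τ) : ℕ) : WithBot ℕ∞) ≤
      ringKrullDim (MvPolynomial (σ ⊕ τ) ℂ ⧸ J) + (c : WithBot ℕ∞))
    (hfrm : ∀ z : σ → ℂ, z ≠ 0 → ∃ F : Fin c → MvPolynomial (σ ⊕ τ) ℂ, (∀ k, F k ∈ J) ∧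
      LinearIndependent ℂ (fun k => grad (Sum.elim z 0) (F k)))
    (hψE : ∀ z : σ → ℂ, z ≠ 0 → ∀ i : Fin c, rowEval z (ψ i) ∈ rowE J z)
    (hψh : ∀ k < c, ∃ e, HomRow e (ψ k))
    (hli : ∀ z : σ → ℂ, z ≠ 0 → LinearIndependent ℂ (fun i : Fin c => rowEval z (ψ i)))
    (h : ∀ k < c, ∀ l, ∃ N, ∃ G ∈ J, weightedHomogeneousComponent (Yw σ τ) 1 G =
      X (Sum.inl l) ^ N * lin (ψ k)) {m : ℕ}
    (hs : min c (m + 1) + 2 ≤ Fintype.card σ) {k e : ℕ} (hk : k < c) (he : HomRow e (ψ k)) :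
    ∃ g : MvPolynomial (σ ⊕ τ) ℂ, g.IsHomogeneous (e + 1) ∧
      weightedHomogeneousComponent (Yw σ τ) 0 g = 0 ∧
      weightedHomogeneousComponent (Yw σ τ) 1 g = lin (ψ k) ∧ JA J (m + 2) g := by
  have hiter : ∀ n ≤ m, ∃ g : MvPolynomial (σ ⊕ τ) ℂ, g.IsHomogeneous (e + 1) ∧
      weightedHomogeneousComponent (Yw σ τ) 0 g = 0 ∧
      weightedHomogeneousComponent (Yw σ τ) 1 g = lin (ψ k) ∧ JA J (n + 2) g := by
    intro n
    induction n with
    | zero =>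
      intro _
      refine ⟨lin (ψ k), isHomogeneous_lin he, wc_of_ne (isWH_lin _) zero_ne_one,
        wc_self (isWH_lin _), ?_⟩
      intro l
      obtain ⟨N, G, hG, hG1⟩ := h k hk l
      refine ⟨N, G, hG, ?_⟩
      apply low_succ
      · apply low_succ (low_zero _)
        rw [map_sub, wc_pow_mul (isWH_X_inl l), wc_of_ne (isWH_lin _) zero_ne_one, mul_zero,
          mem_posIdeal.mp (hJq hG), sub_zero]
      · rw [map_sub, hG1, wc_pow_mul (isWH_X_inl l), wc_self (isWH_lin _), sub_self]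
    | succ n ih =>
      intro hn
      obtain ⟨g, hg, hg0, hg1, hgJ⟩ := ih (by omega)
      obtain ⟨η, hη, hηD, hηJ⟩ := JA_step hJ hhom hJq hdim hfrm hψE hψh hli h
        (k := n + 2) (by omega) hg hgJ
      refine ⟨g - η, hg.sub hηD, ?_, ?_, hηJ⟩
      · rw [map_sub, hg0, wc_of_ne hη (by omega), sub_zero]
      · rw [map_sub, hg1, wc_of_ne hη (by omega), sub_zero]
  exact hiter m le_rfl

lemma JA.ordPt {k : ℕ} {g : MvPolynomial (σ ⊕ τ) ℂ} (hg : JA J k g) {z : σ → ℂ} (hz : z ≠ 0) :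
    OrdPt J k (Sum.elim z 0) g := by
  obtain ⟨l, hl⟩ := Function.ne_iff.mp hz
  obtain ⟨N, a, ha, hlow⟩ := hg l
  refine ⟨X (Sum.inl l) ^ N, a, ?_, ha, low_trans hlow z⟩
  rw [map_pow, eval_X]
  exact pow_ne_zero _ hl

lemma lin_injective {r r' : τ → MvPolynomial σ ℂ} (h : lin r = lin r') : r = r' := by
  have key : ∀ (r : τ → MvPolynomial σ ℂ) b z,
      eval (Sum.elim z (Pi.single b 1)) (lin r) = eval z (r b) := by
    intro r b z
    rw [eval_lin, Finset.sum_eq_single b]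
    · rw [Pi.single_eq_same, mul_one]
    · intro b' _ hb'
      rw [Pi.single_eq_of_ne hb', mul_zero]
    · intro h; exact absurd (Finset.mem_univ _) h
  funext b
  apply MvPolynomial.funext
  intro z
  rw [← key r b z, h, key]

end Lift2

end Pool.Agent.Hartshorne
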