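import Mathlib
import Pool.Agent.Hartshorne.Lift2

/-!
Transport to general coordinates of the results on bounded lifting.
-/

namespace Pool.Agent.Hartshorne

open MvPolynomial

set_option linter.unusedSectionVars false

section TransportOrd

variable {κ ρ : Type*} [Fintype κ] [DecidableEq κ] [Fintype ρ] [DecidableEq ρ]

lemma trans_lsub (Φ : (κ → ℂ) →ₗ[ℂ] (ρ → ℂ)) (p : κ → ℂ) (f : MvPolynomial ρ ℂ) :
    trans p (lsub Φ f) = lsub Φ (trans (Φ p) f) := by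
  apply MvPolynomial.funext
  intro y
  rw [eval_trans, eval_lsub, eval_lsub, eval_trans, map_add]

lemma low_lsub (Φ : (κ → ℂ) →ₗ[ℂ] (ρ → ℂ)) {M : ℕ} {f : MvPolynomial ρ ℂ}
    (hf : Low (1 : ρ → ℕ) M f) : Low (1 : κ → ℕ) M (lsub Φ f) := by
  intro e he
  have h1 : homogeneousComponent e (lsub Φ f) = lsub Φ (homogeneousComponent e f) :=
    hc_algHom _ (isHomogeneous_lsub Φ) e f
  have h2 : homogeneousComponent e f = 0 := hf e he
  have h3 : homogeneousComponent e (lsub Φ f) = 0 := by rw [h1, h2, map_zero]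
  exact h3

variable (Φ : (κ → ℂ) ≃ₗ[ℂ] (ρ → ℂ)) (I : Ideal (MvPolynomial ρ ℂ))

lemma OrdPt.transport {M : ℕ} {p : κ → ℂ} {g : MvPolynomial ρ ℂ} (hg : OrdPt I M (Φ p) g) :
    OrdPt (tI Φ I) M p (lsub (Φ : (κ → ℂ) →ₗ[ℂ] (ρ → ℂ)) g) := by
  obtain ⟨u, a, hu, ha, hlow⟩ := hg
  refine ⟨lsub (Φ : (κ → ℂ) →ₗ[ℂ] (ρ → ℂ)) u, lsub (Φ : (κ → ℂ) →ₗ[ℂ] (ρ → ℂ)) a, ?_,
    lsub_mem_tI Φ I ha, ?_⟩
  · rw [eval_lsub]; exact hu
  · rw [← map_mul, ← map_sub, trans_lsub]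
    exact low_lsub _ hlow

lemma OrdPt.untransport {M : ℕ} {p : κ → ℂ} {g : MvPolynomial κ ℂ}
    (hg : OrdPt (tI Φ I) M p g) :
    OrdPt I M (Φ p) (lsub (Φ.symm : (ρ → ℂ) →ₗ[ℂ] (κ → ℂ)) g) := by
  obtain ⟨u, a, hu, ha, hlow⟩ := hg
  refine ⟨lsub (Φ.symm : (ρ → ℂ) →ₗ[ℂ] (κ → ℂ)) u, lsub (Φ.symm : (ρ → ℂ) →ₗ[ℂ] (κ → ℂ)) a, ?_,
    (mem_tI Φ I a).mp ha, ?_⟩
  · rw [eval_lsub]
    have h1 : (Φ.symm : (ρ → ℂ) →ₗ[ℂ] (κ → ℂ)) (Φ p) = p := Φ.symm_apply_apply p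
    rw [h1]; exact hu
  · rw [← map_mul, ← map_sub, trans_lsub]
    have h1 : (Φ.symm : (ρ → ℂ) →ₗ[ℂ] (κ → ℂ)) (Φ p) = p := Φ.symm_apply_apply p
    rw [h1]
    exact low_lsub _ hlow

end TransportOrd

section Grad2

variable {ρ : Type*} [Fintype ρ] {I : Ideal (MvPolynomial ρ ℂ)}

lemma grad_zero_of_low {f : MvPolynomial ρ ℂ} (hf : Low (1 : ρ → ℕ) 2 f) : grad 0 f = 0 := by
  classical
  funext i
  have h1 := eval_hc_one f (Pi.single i 1)
  rw [Finset.sum_eq_single i] at h1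
  · rw [Pi.single_eq_same, mul_one] at h1
    have h2 : homogeneousComponent 1 f = 0 := hf 1 one_lt_two
    rw [h2, map_zero] at h1
    rw [← h1]; rfl
  · intro j _ hj
    rw [Pi.single_eq_of_ne hj, mul_zero]
  · intro h; exact absurd (Finset.mem_univ _) h

lemma OrdPt.grad_mem {M : ℕ} (hM : 2 ≤ M) {p : ρ → ℂ} {g : MvPolynomial ρ ℂ}
    (hg : OrdPt I M p g) (hg0 : eval p g = 0) : grad p g ∈ gradSpan I p := by
  obtain ⟨u, a, hu, ha, hlow⟩ := hg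
  have h1 : grad p (u * g - a) = 0 := by
    rw [← grad_trans]
    exact grad_zero_of_low (hlow.mono hM)
  rw [map_sub, sub_eq_zero, grad_mul, hg0, zero_smul, add_zero] at h1
  have h2 : grad p g = (eval p u)⁻¹ • grad p a := by
    rw [← h1, smul_smul, inv_mul_cancel₀ hu, one_smul]
  rw [h2]
  exact Submodule.smul_mem _ _ (grad_mem_gradSpan ha p)

lemma OrdPt.eval_zero {M : ℕ} (hM : 1 ≤ M) {p : ρ → ℂ} {g : MvPolynomial ρ ℂ}
    (hg : OrdPt I M p g) (hp : ∀ h ∈ I, eval p h = 0) : eval p g = 0 := by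
  obtain ⟨u, a, hu, ha, hlow⟩ := hg
  have h1 : homogeneousComponent 0 (trans p (u * g - a)) = 0 := hlow 0 hM
  have h2 : eval 0 (homogeneousComponent 0 (trans p (u * g - a))) = eval p (u * g - a) := by
    rw [homogeneousComponent_zero, eval_C, ← eval_zero_eq_coeff, eval_trans, zero_add]
  rw [h1, map_zero, map_sub, hp a ha, sub_zero, map_mul] at h2
  exact (mul_eq_zero.mp h2.symm).resolve_left hu

end Grad2

section General

variable {ρ : Type*} [Fintype ρ] [DecidableEq ρ] {c d k : ℕ} {I : Ideal (MvPolynomial ρ ℂ)}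

/-- Existence of forms with given linear parts along a linear space, up to bounded order. -/
theorem exists_G (hI : I.IsPrime) (hhom : ∀ f ∈ I, ∀ e, homogeneousComponent e f ∈ I)
    (hdim : ((Fintype.card ρ : ℕ) : WithBot ℕ∞) ≤
      ringKrullDim (MvPolynomial ρ ℂ ⧸ I) + (c : WithBot ℕ∞))
    (e : Fin k → (ρ → ℂ)) (heli : LinearIndependent ℂ e)
    (hvan : ∀ z, ∀ h ∈ I, eval (comb e z) h = 0)
    (hgood : ∀ z ≠ 0, GoodPt I c d (comb e z))
    (Ψ : Fin c → ρ → MvPolynomial (Fin k) ℂ) (f : Fin c → ℕ) (hΨ : ∀ i, HomRow (f i) (Ψ i))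
    (hΨE : ∀ z ≠ 0, ∀ i, rowEval z (Ψ i) ∈ gradSpan I (comb e z))
    (hΨli : ∀ z ≠ 0, LinearIndependent ℂ (fun i => rowEval z (Ψ i))) {m : ℕ}
    (hs : min c (m + 1) + 2 ≤ k) :
    ∃ G : Fin c → MvPolynomial ρ ℂ, (∀ i, (G i).IsHomogeneous (f i + 1)) ∧
      (∀ z ≠ 0, ∀ i, OrdPt I (m + 2) (comb e z) (G i)) ∧
      ∀ z ≠ 0, LinearIndependent ℂ (fun i => grad (comb e z) (G i)) := by
  classical
  obtain ⟨n, Φ, hΦ⟩ := exists_extend (comb e) (comb_injective heli)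
  have hL' : ∀ (z : Fin k → ℂ), ∀ h ∈ I, eval (Φ (Sum.elim z 0)) h = 0 := by
    intro z h hh
    rw [hΦ]; exact hvan z h hh
  have hcard : Fintype.card (Fin k ⊕ Fin n) = Fintype.card ρ := by
    have h1 := Φ.finrank_eq
    rwa [Module.finrank_fintype_fun_eq_card, Module.finrank_fintype_fun_eq_card] at h1
  have hJ := tI_isPrime Φ I hI
  have hJhom := tI_hom Φ I hhom
  have hJq := tI_le Φ I hL'
  have hJdim : ((Fintype.card (Fin k ⊕ Fin n) : ℕ) : WithBot ℕ∞) ≤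
      ringKrullDim (MvPolynomial (Fin k ⊕ Fin n) ℂ ⧸ tI Φ I) + (c : WithBot ℕ∞) := by
    rw [tI_dim, hcard]; exact hdim
  set ψ : Fin c → Fin n → MvPolynomial (Fin k) ℂ :=
    fun i b => ∑ j, C (Φ (Pi.single (Sum.inr b) 1) j) * Ψ i j with hψ
  have hψeval : ∀ z i, rowEval z (ψ i) = contr Φ (rowEval z (Ψ i)) := by
    intro z i
    funext b
    rw [rowEval_apply, hψ, contr_apply, map_sum]
    refine Finset.sum_congr rfl (fun j _ => ?_)
    rw [map_mul, eval_C]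
    rfl
  have hE' : ∀ z ≠ 0, ∀ i, rowEval z (Ψ i) ∈ gradSpan I (Φ (Sum.elim z 0)) := by
    intro z hz i
    rw [hΦ]; exact hΨE z hz i
  have hψE : ∀ z ≠ 0, ∀ i, rowEval z (ψ i) ∈ rowE (tI Φ I) z := by
    intro z hz i
    rw [hψeval]
    exact contr_mem Φ I (hE' z hz i)
  have hψli : ∀ z ≠ 0, LinearIndependent ℂ (fun i => rowEval z (ψ i)) := by
    intro z hz
    simp only [hψeval]
    exact contr_li Φ I hL' z _ (hE' z hz) (hΨli z hz)
  have hψh : ∀ i, HomRow (f i) (ψ i) := by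
    intro i b
    refine IsHomogeneous.sum _ _ _ (fun j _ => ?_)
    have h1 := (isHomogeneous_C (Fin k) (Φ (Pi.single (Sum.inr b) 1) j)).mul (hΨ i j)
    rwa [zero_add] at h1
  have hfrm : ∀ z : Fin k → ℂ, z ≠ 0 → ∃ F : Fin c → MvPolynomial (Fin k ⊕ Fin n) ℂ,
      (∀ i, F i ∈ tI Φ I) ∧ LinearIndependent ℂ (fun i => grad (Sum.elim z 0) (F i)) := by
    intro z hz
    obtain ⟨⟨w, hw, hwli⟩, -⟩ := hgood z hz
    refine ⟨fun i => lsub (Φ : (Fin k ⊕ Fin n → ℂ) →ₗ[ℂ] (ρ → ℂ)) (w i),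
      fun i => lsub_mem_tI Φ I (hw i).1, ?_⟩
    apply LinearIndependent.of_comp (LinearMap.funLeft ℂ ℂ (Sum.inr : Fin n → Fin k ⊕ Fin n))
    have h1 : (LinearMap.funLeft ℂ ℂ (Sum.inr : Fin n → Fin k ⊕ Fin n)) ∘
        (fun i => grad (Sum.elim z 0) (lsub (Φ : (Fin k ⊕ Fin n → ℂ) →ₗ[ℂ] (ρ → ℂ)) (w i))) =
        fun i => contr Φ (grad (Φ (Sum.elim z 0)) (w i)) := by
      funext i
      rw [grad_eq_fun (Φ (Sum.elim z 0)), contr_grad]
      funext b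
      rw [rowEval_rowOf, Function.comp_apply, LinearMap.funLeft_apply, grad_apply]
    rw [h1]
    refine contr_li Φ I hL' z _ (fun i => grad_mem_gradSpan (hw i).1 _) ?_
    rw [hΦ]
    exact hwli
  have hb : IsBundle c (rowMod hJq) (rowE (tI Φ I)) := by
    refine isBundle_rowMod hJ hJhom hJq hJdim (fun z hz => ?_)
    have h1 : Submodule.span ℂ (Set.range fun i => rowEval z (ψ i)) ≤ rowE (tI Φ I) z := by
      rw [Submodule.span_le]
      rintro _ ⟨i, rfl⟩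
      exact hψE z hz i
    have h2 := Submodule.finrank_mono h1
    rwa [finrank_span_eq_card (hψli z hz), Fintype.card_fin] at h2
  set ψ' : ℕ → Fin n → MvPolynomial (Fin k) ℂ := fun i => if h : i < c then ψ ⟨i, h⟩ else 0
    with hψ'
  have hψk : ∀ i (hi : i < c), ψ' i = ψ ⟨i, hi⟩ := fun i hi => by
    simp only [hψ']; rw [dif_pos hi]
  have hψk' : ∀ i : Fin c, ψ' i = ψ i := fun i => hψk i i.2
  have hG : ∀ i : Fin c, ∃ g : MvPolynomial (Fin k ⊕ Fin n) ℂ, g.IsHomogeneous (f i + 1) ∧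
      weightedHomogeneousComponent (Yw (Fin k) (Fin n)) 0 g = 0 ∧
      weightedHomogeneousComponent (Yw (Fin k) (Fin n)) 1 g = lin (ψ i) ∧
      JA (tI Φ I) (m + 2) g := by
    intro i
    have h1 := exists_lift_bounded (c := c) (ψ := ψ') hJ hJhom hJq hJdim hfrm
      (fun z hz i => by rw [hψk']; exact hψE z hz i)
      (fun i hi => ⟨f ⟨i, hi⟩, by rw [hψk i hi]; exact hψh _⟩)
      (fun z hz => by simp only [hψk']; exact hψli z hz)
      (fun i hi l => by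
        obtain ⟨K, G, hG, hGr⟩ := hb.exists_pow (g := X l) (by simp)
          (fun z hz => hψE z hz ⟨i, hi⟩)
        refine ⟨K, G, hG, ?_⟩
        rw [wc_one_eq, hGr, lin_smul, map_pow, renL_X, hψk i hi])
      (m := m) (by rw [Fintype.card_fin]; exact hs) i.2 (e := f i) (by rw [hψk']; exact hψh i)
    rwa [hψk'] at h1
  choose G hGh hG0 hG1 hGJ using hG
  have hΦs : ∀ z, (Φ : (Fin k ⊕ Fin n → ℂ) →ₗ[ℂ] (ρ → ℂ)) (Sum.elim z 0) = comb e z := hΦ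
  refine ⟨fun i => lsub (Φ.symm : (ρ → ℂ) →ₗ[ℂ] (Fin k ⊕ Fin n → ℂ)) (G i),
    fun i => isHomogeneous_lsub _ _ _ (hGh i), ?_, ?_⟩
  · intro z hz i
    rw [← hΦ]
    exact OrdPt.untransport Φ I ((hGJ i).ordPt hz)
  · intro z hz
    have h2 : ∀ i, contr Φ (grad (comb e z)
        (lsub (Φ.symm : (ρ → ℂ) →ₗ[ℂ] (Fin k ⊕ Fin n → ℂ)) (G i))) = rowEval z (ψ i) := by
      intro i
      rw [← hΦ, grad_eq_fun (Φ (Sum.elim z 0)), contr_grad, lsub_lsub_symm]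
      congr 1
      apply lin_injective
      rw [← wc_one_eq, hG1]
    apply LinearIndependent.of_comp (contr Φ)
    have h3 : (contr Φ) ∘ (fun i => grad (comb e z)
        (lsub (Φ.symm : (ρ → ℂ) →ₗ[ℂ] (Fin k ⊕ Fin n → ℂ)) (G i))) =
        fun i => rowEval z (ψ i) := funext h2
    rw [h3]
    exact hψli z hz

/-- Membership from order of vanishing, in general coordinates. -/
theorem mem_span_of_ord' (hk : 0 < k) (hI : I.IsPrime)
    (hdim : ((Fintype.card ρ : ℕ) : WithBot ℕ∞) ≤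
      ringKrullDim (MvPolynomial ρ ℂ ⧸ I) + (c : WithBot ℕ∞))
    (e : Fin k → (ρ → ℂ)) (heli : LinearIndependent ℂ e)
    (hvan : ∀ z, ∀ h ∈ I, eval (comb e z) h = 0)
    (hgood : ∀ z ≠ 0, GoodPt I c d (comb e z))
    (G : Fin c → MvPolynomial ρ ℂ) (f : Fin c → ℕ) (hGh : ∀ i, (G i).IsHomogeneous (f i))
    {M : ℕ} (hM : 2 ≤ M) (hGo : ∀ z ≠ 0, ∀ i, OrdPt I M (comb e z) (G i))
    (hGli : ∀ z ≠ 0, LinearIndependent ℂ (fun i => grad (comb e z) (G i)))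
    (hs : ∀ n < M, min c n + 1 ≤ k) {D : ℕ} (hD : D < M)
    {g : MvPolynomial ρ ℂ} (hg : g.IsHomogeneous D)
    (hgo : ∀ z ≠ 0, OrdPt I M (comb e z) g) :
    g ∈ Ideal.span (Set.range G) := by
  classical
  obtain ⟨n, Φ, hΦ⟩ := exists_extend (comb e) (comb_injective heli)
  have hL' : ∀ (z : Fin k → ℂ), ∀ h ∈ I, eval (Φ (Sum.elim z 0)) h = 0 := by
    intro z h hh
    rw [hΦ]; exact hvan z h hh
  have hcard : Fintype.card (Fin k ⊕ Fin n) = Fintype.card ρ := by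
    have h1 := Φ.finrank_eq
    rwa [Module.finrank_fintype_fun_eq_card, Module.finrank_fintype_fun_eq_card] at h1
  have hJ := tI_isPrime Φ I hI
  have hJq := tI_le Φ I hL'
  have hJdim : ((Fintype.card (Fin k ⊕ Fin n) : ℕ) : WithBot ℕ∞) ≤
      ringKrullDim (MvPolynomial (Fin k ⊕ Fin n) ℂ ⧸ tI Φ I) + (c : WithBot ℕ∞) := by
    rw [tI_dim, hcard]; exact hdim
  have hgr : ∀ z h, rowEval z (rowOf (lsub (Φ : (Fin k ⊕ Fin n → ℂ) →ₗ[ℂ] (ρ → ℂ)) h)) =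
      contr Φ (grad (Φ (Sum.elim z 0)) h) := by
    intro z h
    rw [grad_eq_fun, contr_grad]
  have hfrm : ∀ z : Fin k → ℂ, z ≠ 0 → ∃ F : Fin c → MvPolynomial (Fin k ⊕ Fin n) ℂ,
      (∀ i, F i ∈ tI Φ I) ∧ LinearIndependent ℂ (fun i => grad (Sum.elim z 0) (F i)) := by
    intro z hz
    obtain ⟨⟨w, hw, hwli⟩, -⟩ := hgood z hz
    refine ⟨fun i => lsub (Φ : (Fin k ⊕ Fin n → ℂ) →ₗ[ℂ] (ρ → ℂ)) (w i),
      fun i => lsub_mem_tI Φ I (hw i).1, ?_⟩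
    apply LinearIndependent.of_comp (LinearMap.funLeft ℂ ℂ (Sum.inr : Fin n → Fin k ⊕ Fin n))
    have h1 : (LinearMap.funLeft ℂ ℂ (Sum.inr : Fin n → Fin k ⊕ Fin n)) ∘
        (fun i => grad (Sum.elim z 0) (lsub (Φ : (Fin k ⊕ Fin n → ℂ) →ₗ[ℂ] (ρ → ℂ)) (w i))) =
        fun i => contr Φ (grad (Φ (Sum.elim z 0)) (w i)) := by
      funext i
      rw [← hgr]
      funext b
      rw [rowEval_rowOf, Function.comp_apply, LinearMap.funLeft_apply, grad_apply]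
    rw [h1]
    refine contr_li Φ I hL' z _ (fun i => grad_mem_gradSpan (hw i).1 _) ?_
    rw [hΦ]
    exact hwli
  have hGval : ∀ z ≠ 0, ∀ i, eval (comb e z) (G i) = 0 := fun z hz i =>
    (hGo z hz i).eval_zero (by omega) (hvan z)
  have hGgr : ∀ z ≠ 0, ∀ i, grad (Φ (Sum.elim z 0)) (G i) ∈ gradSpan I (Φ (Sum.elim z 0)) := by
    intro z hz i
    rw [hΦ]
    exact (hGo z hz i).grad_mem hM (hGval z hz i)
  have h1 := mem_span_of_ord (J := tI Φ I) hJ hJq hJdim hfrm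
    (fun i => lsub (Φ : (Fin k ⊕ Fin n → ℂ) →ₗ[ℂ] (ρ → ℂ)) (G i)) f
    (fun i => isHomogeneous_lsub _ _ _ (hGh i)) M
    (fun z hz i => OrdPt.transport Φ I (by rw [hΦ]; exact hGo z hz i))
    (by
      intro i
      rw [wc_zero_eq]
      have h2 : projZ (Fin k) (Fin n) (lsub (Φ : (Fin k ⊕ Fin n → ℂ) →ₗ[ℂ] (ρ → ℂ)) (G i)) = 0 := by
        apply eq_zero_of_eval (X_ne_zero (⟨0, hk⟩ : Fin k) :
          (X ⟨0, hk⟩ : MvPolynomial (Fin k) ℂ) ≠ 0)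
        intro z hz
        rw [eval_X] at hz
        have hz0 : z ≠ 0 := by
          rintro rfl
          exact hz rfl
        rw [eval_projZ, eval_lsub]
        have h3 : (Φ : (Fin k ⊕ Fin n → ℂ) →ₗ[ℂ] (ρ → ℂ)) (Sum.elim z 0) = comb e z := hΦ z
        rw [h3]
        exact hGval z hz0 i
      rw [h2, map_zero])
    (fun z hz i => by
      rw [hgr]
      exact contr_mem Φ I (hGgr z hz i))
    (fun z hz => by
      simp only [hgr]
      refine contr_li Φ I hL' z _ (hGgr z hz) ?_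
      rw [hΦ]
      exact hGli z hz)
    (fun n hn => by rw [Fintype.card_fin]; exact hs n hn) hD
    (isHomogeneous_lsub (Φ : (Fin k ⊕ Fin n → ℂ) →ₗ[ℂ] (ρ → ℂ)) D g hg)
    (fun z hz => OrdPt.transport Φ I (by rw [hΦ]; exact hgo z hz))
  have h2 : Ideal.span (Set.range fun i =>
      lsub (Φ : (Fin k ⊕ Fin n → ℂ) →ₗ[ℂ] (ρ → ℂ)) (G i)) ≤
      (Ideal.span (Set.range G)).comap
        (lsub (Φ.symm : (ρ → ℂ) →ₗ[ℂ] (Fin k ⊕ Fin n → ℂ))) := by
    rw [Ideal.span_le]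
    rintro _ ⟨i, rfl⟩
    rw [SetLike.mem_coe, Ideal.mem_comap, lsub_symm_lsub]
    exact Ideal.subset_span ⟨i, rfl⟩
  have h3 := h2 h1
  rw [Ideal.mem_comap, lsub_symm_lsub] at h3
  exact h3

end General

end Pool.Agent.Hartshorne
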