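import Mathlib
import Pool.Agent.Hartshorne.MainH
import Pool.Agent.Hartshorne.Select2
import Pool.Agent.Hartshorne.Transp2

/-!
The equations: forms `G 1, …, G c` in the ideal, of degrees at most `d`, whose gradients are
independent at all points of `X ∩ Λ`.
-/

namespace Pool.Agent.Hartshorne

open MvPolynomial

set_option linter.unusedSectionVars false

section Eqs

variable {ρ : Type*} [Fintype ρ] [DecidableEq ρ] {c d D : ℕ} {I : Ideal (MvPolynomial ρ ℂ)}
  {Λ : Submodule ℂ (ρ → ℂ)} {x : ρ → ℂ} {F : Fin c → MvPolynomial ρ ℂ}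

/-- The conclusion of the splitting theorem. -/
def SplitSpec (I : Ideal (MvPolynomial ρ ℂ)) (c d : ℕ) (Λ : Submodule ℂ (ρ → ℂ)) (x : ρ → ℂ)
    (F : Fin c → MvPolynomial ρ ℂ) (f : Fin c → ℕ) : Prop :=
  ∀ (k : ℕ) (e : Fin k → (ρ → ℂ)), 1 < k → (∀ i, e i ∈ Λ) →
    LinearIndependent ℂ (Fin.cons x e : Fin (k + 1) → (ρ → ℂ)) →
    (∀ i z, eval (comb (Fin.cons x e : Fin (k + 1) → (ρ → ℂ)) z) (F i) = 0) →
    (∀ i, f i < d) ∧
    ∃ Ψ : Fin c → ρ → MvPolynomial (Fin (k + 1)) ℂ, (∀ i, HomRow (f i) (Ψ i)) ∧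
      (∀ z ≠ 0, ∀ i, rowEval z (Ψ i) ∈
        gradSpan I (comb (Fin.cons x e : Fin (k + 1) → (ρ → ℂ)) z)) ∧
      ∀ z ≠ 0, LinearIndependent ℂ (fun i => rowEval z (Ψ i))

/-- Extension by a vector satisfying further equations. -/
lemma Base.extend (hB : Base I c d Λ x F) {k : ℕ} (e : Fin k → (ρ → ℂ)) (he : ∀ i, e i ∈ Λ)
    (hli : LinearIndependent ℂ e) (hFe : ∀ i z, eval (comb e z) (F i) = 0)
    {ι' : Type*} [Fintype ι'] (q : ι' → MvPolynomial ρ ℂ) (hq : ∀ j, eval 0 (q j) = 0)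
    (hcount : c * (k + d - 1).choose k + Fintype.card ι' + k < Module.finrank ℂ Λ) :
    ∃ w ∈ Λ, LinearIndependent ℂ (Fin.snoc e w : Fin (k + 1) → (ρ → ℂ)) ∧
      (∀ i z, eval (comb (Fin.snoc e w : Fin (k + 1) → (ρ → ℂ)) z) (F i) = 0) ∧
      ∀ j, eval w (q j) = 0 := by
  obtain ⟨w, hw, hwli, hwF, hwq⟩ := select2 Λ e he hli F (fun _ => d) (fun i => (hB.hF i).2) q hq
    (by simpa using hcount)
  refine ⟨w, hw, hwli, fun i z => ?_, hwq⟩
  rw [eval_snoc e w (hB.hF i).2 (hwF i)]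
  exact hFe i _

lemma cons_snoc' {k : ℕ} (x w : ρ → ℂ) (e : Fin k → (ρ → ℂ)) :
    (Fin.snoc (Fin.cons x e : Fin (k + 1) → (ρ → ℂ)) w : Fin (k + 1 + 1) → (ρ → ℂ)) =
      Fin.cons x (Fin.snoc e w : Fin (k + 1) → (ρ → ℂ)) :=
  (@Fin.cons_snoc_eq_snoc_cons k (ρ → ℂ) x e w).symm

/-- Linear spaces through the base point. -/
lemma Base.exists_lin (hB : Base I c d Λ x F) (k : ℕ)
    (hcount : ∀ j, 1 ≤ j → j ≤ k → c * (j + d - 1).choose j + j < Module.finrank ℂ Λ) :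
    ∃ e : Fin k → (ρ → ℂ), (∀ i, e i ∈ Λ) ∧
      LinearIndependent ℂ (Fin.cons x e : Fin (k + 1) → (ρ → ℂ)) ∧
      ∀ i z, eval (comb (Fin.cons x e : Fin (k + 1) → (ρ → ℂ)) z) (F i) = 0 := by
  induction k with
  | zero =>
    refine ⟨Fin.elim0, fun i => i.elim0, ?_, ?_⟩
    · rw [Fintype.linearIndependent_iff]
      intro g hg i
      rw [Fin.sum_univ_succ, Finset.univ_eq_empty, Finset.sum_empty, add_zero, Fin.cons_zero,
        smul_eq_zero] at hg
      have hi : i = 0 := Subsingleton.elim (α := Fin 1) i 0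
      rw [hi]
      exact hg.resolve_right hB.hx0
    · intro i z
      rw [comb_apply, Fin.sum_univ_succ, Finset.univ_eq_empty, Finset.sum_empty, add_zero,
        Fin.cons_zero, eval_smul_of_isHomogeneous (hB.hF i).2, hB.hxI _ (hB.hF i).1, mul_zero]
  | succ k ih =>
    obtain ⟨e, he, hli, hFe⟩ := ih (fun j h1 h2 => hcount j h1 (by omega))
    obtain ⟨w, hw, hwli, hwF, -⟩ := hB.extend (Fin.cons x e : Fin (k + 1) → (ρ → ℂ))
      (fun i => by
        refine Fin.cases ?_ (fun j => ?_) i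
        · exact hB.hxΛ
        · exact he j) hli hFe (fun j : Fin 0 => (0 : MvPolynomial ρ ℂ)) (fun j => j.elim0) (by
        have := hcount (k + 1) (by omega) le_rfl
        rw [Fintype.card_fin]
        omega)
    rw [cons_snoc'] at hwli
    refine ⟨Fin.snoc e w, snoc_mem he hw, hwli, ?_⟩
    intro i z
    have h1 := hwF i z
    rw [cons_snoc'] at h1
    exact h1

lemma comb_cons_one {k : ℕ} (x : ρ → ℂ) (e : Fin k → (ρ → ℂ)) :
    comb (Fin.cons x e : Fin (k + 1) → (ρ → ℂ)) (Fin.cons 1 0) = x := by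
  rw [comb_cons, map_zero, add_zero, one_smul]

lemma Base.van (hS : Setup I c D Λ) (hB : Base I c d Λ x F) {k : ℕ} (e : Fin k → (ρ → ℂ))
    (hFe : ∀ i z, eval (comb (Fin.cons x e : Fin (k + 1) → (ρ → ℂ)) z) (F i) = 0) :
    ∀ z, ∀ h ∈ I, eval (comb (Fin.cons x e : Fin (k + 1) → (ρ → ℂ)) z) h = 0 :=
  vanish_on I hS.hI hS.hdim _ (Fin.cons 1 0) (by rw [comb_cons_one]; exact hB.hxI) F
    (fun i => (hB.hF i).1) (by rw [comb_cons_one]; exact hB.hli) hFe

lemma Base.cons_mem (hB : Base I c d Λ x F) {k : ℕ} {e : Fin k → (ρ → ℂ)} (he : ∀ i, e i ∈ Λ) :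
    ∀ i, (Fin.cons x e : Fin (k + 1) → (ρ → ℂ)) i ∈ Λ := by
  intro i
  refine Fin.cases ?_ (fun j => ?_) i
  · exact hB.hxΛ
  · exact he j

/-- Approximate equations along a linear space. -/
theorem Base.exists_eqs (hS : Setup I c D Λ) (hB : Base I c d Λ x F) {f : Fin c → ℕ}
    (hf : SplitSpec I c d Λ x F f) {k : ℕ} (hk : 1 < k) (hkc : min c d + 2 ≤ k + 1)
    (e : Fin k → (ρ → ℂ)) (he : ∀ i, e i ∈ Λ)
    (hli : LinearIndependent ℂ (Fin.cons x e : Fin (k + 1) → (ρ → ℂ)))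
    (hFe : ∀ i z, eval (comb (Fin.cons x e : Fin (k + 1) → (ρ → ℂ)) z) (F i) = 0) :
    (∀ i, f i < d) ∧ ∃ G : Fin c → MvPolynomial ρ ℂ, (∀ i, (G i).IsHomogeneous (f i + 1)) ∧
      (∀ z ≠ 0, ∀ i, OrdPt I (d + 1) (comb (Fin.cons x e : Fin (k + 1) → (ρ → ℂ)) z) (G i)) ∧
      ∀ z ≠ 0, LinearIndependent ℂ
        (fun i => grad (comb (Fin.cons x e : Fin (k + 1) → (ρ → ℂ)) z) (G i)) := by
  obtain ⟨hfd, Ψ, hΨ, hΨE, hΨli⟩ := hf k e hk he hli hFe
  refine ⟨hfd, ?_⟩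
  have hvan := hB.van hS e hFe
  obtain ⟨m, rfl⟩ : ∃ m, d = m + 1 := ⟨d - 1, by have := hB.hd; omega⟩
  exact exists_G hS.hI hS.hhom hS.hdim _ hli hvan (fun z hz => hS.good _
    (comb_mem (hB.cons_mem he) z) (comb_ne_zero hli hz) (hvan z)) Ψ f hΨ hΨE hΨli hkc

lemma snoc_zero_ne {k : ℕ} {z : Fin (k + 1) → ℂ} (hz : z ≠ 0) :
    (Fin.snoc z 0 : Fin (k + 1 + 1) → ℂ) ≠ 0 := by
  intro h
  apply hz
  funext i
  have h1 := congrFun h (Fin.castSucc i)
  rwa [Fin.snoc_castSucc] at h1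

lemma comb_cons_snoc {k : ℕ} (x w : ρ → ℂ) (e : Fin k → (ρ → ℂ)) (z : Fin (k + 1) → ℂ) :
    comb (Fin.cons x e : Fin (k + 1) → (ρ → ℂ)) z =
      comb (Fin.cons x (Fin.snoc e w : Fin (k + 1) → (ρ → ℂ)) : Fin (k + 1 + 1) → (ρ → ℂ))
        (Fin.snoc z 0) := by
  rw [← cons_snoc', comb_snoc]
  simp

lemma comb_cons_snoc_last {k : ℕ} (x w : ρ → ℂ) (e : Fin k → (ρ → ℂ)) :
    w = comb (Fin.cons x (Fin.snoc e w : Fin (k + 1) → (ρ → ℂ)) :
      Fin (k + 1 + 1) → (ρ → ℂ)) (Fin.snoc 0 1) := by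
  rw [← cons_snoc', comb_snoc]
  simp only [Fin.snoc_castSucc, Pi.zero_apply, Fin.snoc_last, one_smul]
  rw [show (fun _ : Fin (k + 1) => (0 : ℂ)) = 0 from rfl, map_zero, zero_add]

lemma snoc_one_ne {k : ℕ} : (Fin.snoc 0 1 : Fin (k + 1 + 1) → ℂ) ≠ 0 := by
  intro h
  have h1 := congrFun h (Fin.last (k + 1))
  rw [Fin.snoc_last] at h1
  exact one_ne_zero h1

/-- Approximate equations along a linear space. -/
structure Approx (I : Ideal (MvPolynomial ρ ℂ)) (c d : ℕ) (f : Fin c → ℕ) {k : ℕ}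
    (E : Fin k → (ρ → ℂ)) (G : Fin c → MvPolynomial ρ ℂ) : Prop where
  hfd : ∀ i, f i < d
  hom : ∀ i, (G i).IsHomogeneous (f i + 1)
  ord : ∀ z ≠ 0, ∀ i, OrdPt I (d + 1) (comb E z) (G i)
  li : ∀ z ≠ 0, LinearIndependent ℂ (fun i => grad (comb E z) (G i))

/-- Approximate equations for a larger space restrict. -/
lemma Approx.restrict {f : Fin c → ℕ} {k : ℕ} {w : ρ → ℂ} {e : Fin k → (ρ → ℂ)}
    {G : Fin c → MvPolynomial ρ ℂ}
    (h : Approx I c d f (Fin.cons x (Fin.snoc e w : Fin (k + 1) → (ρ → ℂ)) :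
      Fin (k + 1 + 1) → (ρ → ℂ)) G) :
    Approx I c d f (Fin.cons x e : Fin (k + 1) → (ρ → ℂ)) G := by
  refine ⟨h.hfd, h.hom, ?_, ?_⟩
  · intro z hz i
    rw [comb_cons_snoc x w]
    exact h.ord _ (snoc_zero_ne hz) i
  · intro z hz
    rw [comb_cons_snoc x w]
    exact h.li _ (snoc_zero_ne hz)

/-- Forms of small degree which lie in the ideal up to high order along the linear space are
combinations of the approximate equations. -/
lemma Base.mem_span_approx (hS : Setup I c D Λ) (hB : Base I c d Λ x F) {f : Fin c → ℕ}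
    {k : ℕ} (hkc : min c d ≤ k) (e : Fin k → (ρ → ℂ)) (he : ∀ i, e i ∈ Λ)
    (hli : LinearIndependent ℂ (Fin.cons x e : Fin (k + 1) → (ρ → ℂ)))
    (hFe : ∀ i z, eval (comb (Fin.cons x e : Fin (k + 1) → (ρ → ℂ)) z) (F i) = 0)
    {G : Fin c → MvPolynomial ρ ℂ}
    (hG : Approx I c d f (Fin.cons x e : Fin (k + 1) → (ρ → ℂ)) G) {b : ℕ} (hb : b ≤ d)
    {g : MvPolynomial ρ ℂ} (hg : g.IsHomogeneous b)
    (hgo : ∀ z ≠ 0, OrdPt I (d + 1) (comb (Fin.cons x e : Fin (k + 1) → (ρ → ℂ)) z) g) :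
    g ∈ Ideal.span (Set.range G) := by
  have hvan := hB.van hS e hFe
  have hd := hB.hd
  refine mem_span_of_ord' (M := d + 1) (D := b) (f := fun i => f i + 1) (by omega) hS.hI
    hS.hdim _ hli hvan (fun z hz => hS.good _ (comb_mem (hB.cons_mem he) z)
    (comb_ne_zero hli hz) (hvan z)) G hG.hom (by omega) hG.ord hG.li ?_ (by omega) hg hgo
  intro n hn
  have : min c n ≤ min c d := min_le_min_left _ (by omega)
  omega

/-- The approximate equations of order `d + 1` at a further vector. -/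
theorem Base.approx_step (hS : Setup I c D Λ) (hB : Base I c d Λ x F) {f : Fin c → ℕ}
    (hf : SplitSpec I c d Λ x F f) {k : ℕ} (hk : 0 < k) (hkc : min c d ≤ k)
    (e : Fin k → (ρ → ℂ)) (he : ∀ i, e i ∈ Λ)
    (hli : LinearIndependent ℂ (Fin.cons x e : Fin (k + 1) → (ρ → ℂ)))
    (hFe : ∀ i z, eval (comb (Fin.cons x e : Fin (k + 1) → (ρ → ℂ)) z) (F i) = 0)
    {G : Fin c → MvPolynomial ρ ℂ}
    (hG : Approx I c d f (Fin.cons x e : Fin (k + 1) → (ρ → ℂ)) G) {w : ρ → ℂ} (hw : w ∈ Λ)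
    (hwli : LinearIndependent ℂ
      (Fin.snoc (Fin.cons x e : Fin (k + 1) → (ρ → ℂ)) w : Fin (k + 1 + 1) → (ρ → ℂ)))
    (hwF : ∀ i z, eval (comb
      (Fin.snoc (Fin.cons x e : Fin (k + 1) → (ρ → ℂ)) w : Fin (k + 1 + 1) → (ρ → ℂ)) z)
        (F i) = 0) :
    (∀ i, OrdPt I (d + 1) w (G i)) ∧
      ((∀ i, eval w (G i) = 0) → LinearIndependent ℂ (fun i => grad w (G i))) := by
  rw [cons_snoc'] at hwF hwli
  obtain ⟨hfd, G', hGh', hGo', hGli'⟩ := hB.exists_eqs hS hf (k := k + 1) (by omega) (by omega)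
    (Fin.snoc e w) (snoc_mem he hw) hwli hwF
  have hG'0 : Approx I c d f (Fin.cons x (Fin.snoc e w : Fin (k + 1) → (ρ → ℂ)) :
      Fin (k + 1 + 1) → (ρ → ℂ)) G' := ⟨hfd, hGh', hGo', hGli'⟩
  have hG' := hG'0.restrict
  have hwz := comb_cons_snoc_last x w e
  constructor
  · intro i
    have hmem : G i ∈ Ideal.span (Set.range G') :=
      hB.mem_span_approx hS hkc e he hli hFe hG' (hG.hfd i) (hG.hom i) (fun z hz => hG.ord z hz i)
    refine OrdPt.of_span ?_ hmem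
    rintro _ ⟨j, rfl⟩
    rw [hwz]
    exact hGo' _ snoc_one_ne j
  · intro hw0
    have hmem : ∀ j, G' j ∈ Ideal.span (Set.range G) := fun j =>
      hB.mem_span_approx hS hkc e he hli hFe hG (hG'.hfd j) (hG'.hom j)
        (fun z hz => hG'.ord z hz j)
    have hgr : ∀ h ∈ Ideal.span (Set.range G),
        grad w h ∈ Submodule.span ℂ (Set.range fun i => grad w (G i)) := by
      intro h hh
      obtain ⟨a, rfl⟩ := (Ideal.mem_span_range_iff_exists_fun).mp hh
      have h1 : grad w (∑ i, a i * G i) = ∑ i, eval w (a i) • grad w (G i) := by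
        funext b
        simp only [grad_apply, map_sum, Derivation.leibniz, smul_eq_mul, map_add, map_mul,
          Finset.sum_apply, Pi.smul_apply]
        refine Finset.sum_congr rfl (fun i _ => ?_)
        rw [hw0 i, zero_mul, add_zero]
      rw [h1]
      exact Submodule.sum_mem _ (fun i _ => Submodule.smul_mem _ _
        (Submodule.subset_span ⟨i, rfl⟩))
    have hle : Submodule.span ℂ (Set.range fun i => grad w (G' i)) ≤
        Submodule.span ℂ (Set.range fun i => grad w (G i)) := by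
      rw [Submodule.span_le]
      rintro _ ⟨i, rfl⟩
      exact hgr _ (hmem i)
    have hfin := Submodule.finrank_mono hle
    have hli' : LinearIndependent ℂ (fun i => grad w (G' i)) := by
      have := hGli' _ (snoc_one_ne (k := k))
      rwa [← hwz] at this
    rw [finrank_span_eq_card hli'] at hfin
    exact linearIndependent_iff_card_le_finrank_span.mpr hfin

/-- The approximate equations vanish at the points of `X` where the frame is independent. -/
theorem Base.eval_eqs (hS : Setup I c D Λ) (hB : Base I c d Λ x F) {f : Fin c → ℕ}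
    (hf : SplitSpec I c d Λ x F f) {k : ℕ} (hk : 0 < k) (hkc : min c d ≤ k)
    (hcount : c * (k + 1 + d - 1).choose (k + 1) + c * d + (k + 1) < Module.finrank ℂ Λ)
    (e : Fin k → (ρ → ℂ)) (he : ∀ i, e i ∈ Λ)
    (hli : LinearIndependent ℂ (Fin.cons x e : Fin (k + 1) → (ρ → ℂ)))
    (hFe : ∀ i z, eval (comb (Fin.cons x e : Fin (k + 1) → (ρ → ℂ)) z) (F i) = 0)
    {G : Fin c → MvPolynomial ρ ℂ}
    (hG : Approx I c d f (Fin.cons x e : Fin (k + 1) → (ρ → ℂ)) G)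
    {p : ρ → ℂ} (hpI : ∀ h ∈ I, eval p h = 0)
    (hpli : LinearIndependent ℂ (fun i => grad p (F i))) (i : Fin c) : eval p (G i) = 0 := by
  obtain ⟨w, hw, hwli, hwF, hwq⟩ := hB.extend (Fin.cons x e : Fin (k + 1) → (ρ → ℂ))
    (hB.cons_mem he) hli hFe
    (fun j : Fin c × Fin d => homogeneousComponent ((j.2 : ℕ) + 1) (trans p (F j.1)))
    (fun j => by
      rw [eval_zero_eq_coeff, coeff_homogeneousComponent, if_neg]
      simp) (by
      rw [Fintype.card_prod, Fintype.card_fin, Fintype.card_fin]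
      exact hcount)
  -- the line through `p` and `w`
  have hline : ∀ z, ∀ h ∈ I, eval (comb (ln p w) z) h = 0 := by
    refine vanish_on I hS.hI hS.hdim (ln p w) (pt 0) ?_ F (fun i => (hB.hF i).1) ?_ ?_
    · rw [comb_ln_one]; exact hpI
    · rw [comb_ln_one]; exact hpli
    · intro i z
      exact line_of_taylor (hB.hF i).2 (hpI _ (hB.hF i).1) (fun j => hwq (i, j)) z
  have hord := (hB.approx_step hS hf hk hkc e he hli hFe hG hw hwli hwF).1 i
  exact vanish_of_ordPt (hG.hom i) (by have := hG.hfd i; omega) hord hline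

lemma two_mul_le_choose {d : ℕ} (hd : 1 ≤ d) : 2 * d ≤ (d + 1).choose 2 + 1 := by
  induction d, hd using Nat.le_induction with
  | base => decide
  | succ d hd ih =>
    have h1 : (d + 1 + 1).choose 2 = (d + 1).choose 1 + (d + 1).choose 2 := Nat.choose_succ_succ _ _
    rw [Nat.choose_one_right] at h1
    omega

/-- **The equations.** -/
theorem Base.exists_equations (hS : Setup I c D Λ) (hB : Base I c d Λ x F) (hc : 0 < c)
    (hcount : c * ((min c d + d).choose (min c d + 1) + d) + min c d + 2 ≤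
      Module.finrank ℂ Λ) :
    ∃ (G : Fin c → MvPolynomial ρ ℂ) (f : Fin c → ℕ) (e : Fin (min c d) → (ρ → ℂ)),
      SplitSpec I c d Λ x F f ∧ (∀ i, e i ∈ Λ) ∧
      LinearIndependent ℂ (Fin.cons x e : Fin (min c d + 1) → (ρ → ℂ)) ∧
      (∀ i z, eval (comb (Fin.cons x e : Fin (min c d + 1) → (ρ → ℂ)) z) (F i) = 0) ∧
      Approx I c d f (Fin.cons x e : Fin (min c d + 1) → (ρ → ℂ)) G ∧ ∀ i, G i ∈ I := by
  have hd := hB.hd
  obtain ⟨ℓ, hℓ⟩ : ∃ ℓ, min c d = ℓ := ⟨_, rfl⟩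
  have hℓ1 : 1 ≤ ℓ := by omega
  rw [hℓ] at hcount ⊢
  obtain ⟨B, hBdef⟩ : ∃ B, (ℓ + d).choose (ℓ + 1) = B := ⟨_, rfl⟩
  rw [hBdef] at hcount
  have hbound : ∀ j, j ≤ ℓ + 1 → (j + d - 1).choose j ≤ B := by
    intro j hj
    rw [← hBdef]
    exact choose_bound hd hj
  have hB2 : 2 * d ≤ B + 1 := by
    have h1 := hbound 2 (by omega)
    have h2 : 2 + d - 1 = d + 1 := by omega
    rw [h2] at h1
    have h3 := two_mul_le_choose hd
    omega
  rw [mul_add] at hcount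
  have hsplit : 2 * (c * d) + c * (d - 1) + 1 < Module.finrank ℂ Λ := by
    have h1 : c * (2 * d - 1) ≤ c * B := Nat.mul_le_mul_left _ (by omega)
    have h2 : c * (2 * d - 1) = c * d + c * (d - 1) := by
      rw [← mul_add]
      congr 1
      omega
    omega
  obtain ⟨f, hf⟩ := hB.exists_split hS hsplit
  have hmono : ∀ j, j ≤ ℓ + 1 → c * (j + d - 1).choose j ≤ c * B :=
    fun j hj => Nat.mul_le_mul_left _ (hbound j hj)
  have hcd : 0 < c * d := Nat.mul_pos hc hd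
  obtain ⟨e, he, hli, hFe⟩ := hB.exists_lin (ℓ + 1) (fun j _ hj => by
    have := hmono j hj
    omega)
  obtain ⟨hfd, G, hGh, hGo, hGli⟩ := hB.exists_eqs hS hf (by omega) (by omega) e he hli hFe
  -- the smaller space
  set e' : Fin ℓ → (ρ → ℂ) := Fin.init e with he'
  have hesnoc : Fin.snoc e' (e (Fin.last ℓ)) = e := Fin.snoc_init_self e
  have hG0 : Approx I c d f (Fin.cons x (Fin.snoc e' (e (Fin.last ℓ)) : Fin (ℓ + 1) → (ρ → ℂ)) :
      Fin (ℓ + 1 + 1) → (ρ → ℂ)) G := by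
    rw [hesnoc]
    exact ⟨hfd, hGh, hGo, hGli⟩
  have hG := hG0.restrict
  have hli' : LinearIndependent ℂ (Fin.cons x e' : Fin (ℓ + 1) → (ρ → ℂ)) := by
    have h1 : (Fin.cons x e' : Fin (ℓ + 1) → (ρ → ℂ)) =
        (Fin.cons x e : Fin (ℓ + 1 + 1) → (ρ → ℂ)) ∘ Fin.castSucc := by
      rw [← hesnoc, ← cons_snoc']
      funext i
      rw [Function.comp_apply, Fin.snoc_castSucc]
    rw [h1]
    exact hli.comp _ (Fin.castSucc_injective _)
  have hFe' : ∀ i z, eval (comb (Fin.cons x e' : Fin (ℓ + 1) → (ρ → ℂ)) z) (F i) = 0 := by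
    intro i z
    rw [comb_cons_snoc x (e (Fin.last ℓ)), hesnoc]
    exact hFe i _
  have heval : ∀ p : ρ → ℂ, (∀ h ∈ I, eval p h = 0) →
      LinearIndependent ℂ (fun i => grad p (F i)) → ∀ i, eval p (G i) = 0 := by
    intro p hp hpli i
    refine hB.eval_eqs hS hf (k := ℓ) (by omega) (by omega) ?_ e' (fun i => he _) hli' hFe' hG
      hp hpli i
    have := hmono (ℓ + 1) le_rfl
    omega
  refine ⟨G, f, e', hf, fun i => he _, hli', hFe', hG, ?_⟩
  -- the equations are in the ideal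
  intro i
  obtain ⟨T, hT⟩ := exists_minor _ hB.hli
  set Δ : MvPolynomial ρ ℂ := (Matrix.of fun i l => pderiv (T l) (F i)).det with hΔ
  have hΔx : eval x Δ ≠ 0 := by
    rw [hΔ, eval_det]
    exact hT
  have h1 : Δ * G i ∈ I := by
    apply mem_of_eval_zero hS.hI
    intro z hz
    rw [map_mul]
    by_cases hΔz : eval z Δ = 0
    · rw [hΔz, zero_mul]
    · have h2 : LinearIndependent ℂ (fun i => grad z (F i)) :=
        rowEval_li_of_det z (fun i b => pderiv b (F i)) T hΔz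
      rw [heval z hz h2 i, mul_zero]
  rcases hS.hI.mem_or_mem h1 with h2 | h2
  · exact absurd (hB.hxI _ h2) hΔx
  · exact h2

end Eqs

end Pool.Agent.Hartshorne
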