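import Mathlib
import Pool.Agent.Hartshorne.Eqs

/-!
The equations cut out `X`.
-/

namespace Pool.Agent.Hartshorne

open MvPolynomial

set_option linter.unusedSectionVars false

section Cut

variable {ρ : Type*} [Fintype ρ] [DecidableEq ρ] {c d D : ℕ} {I : Ideal (MvPolynomial ρ ℂ)}
  {Λ : Submodule ℂ (ρ → ℂ)} {x : ρ → ℂ} {F : Fin c → MvPolynomial ρ ℂ}

lemma eval_zero_hc_succ {ρ : Type*} (j : ℕ) (f : MvPolynomial ρ ℂ) :
    eval 0 (homogeneousComponent (j + 1) f) = 0 := by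
  rw [eval_zero_eq_coeff, coeff_homogeneousComponent, if_neg]
  simp

lemma comb_ln_right (x w : ρ → ℂ) : comb (ln x w) ![0, 1] = w := by
  rw [comb_ln]
  simp

/-- The equations cut out `X`. -/
theorem Base.cut (hS : Setup I c D Λ) (hB : Base I c d Λ x F) {f : Fin c → ℕ}
    (hf : SplitSpec I c d Λ x F f) {k : ℕ} (hk : 0 < k) (hkc : min c d ≤ k)
    (hcount : c * (k + 1 + d - 1).choose (k + 1) + c * d + (k + 1) < Module.finrank ℂ Λ)
    (e : Fin k → (ρ → ℂ)) (he : ∀ i, e i ∈ Λ)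
    (hli : LinearIndependent ℂ (Fin.cons x e : Fin (k + 1) → (ρ → ℂ)))
    (hFe : ∀ i z, eval (comb (Fin.cons x e : Fin (k + 1) → (ρ → ℂ)) z) (F i) = 0)
    {G : Fin c → MvPolynomial ρ ℂ}
    (hG : Approx I c d f (Fin.cons x e : Fin (k + 1) → (ρ → ℂ)) G) (hGI : ∀ i, G i ∈ I)
    {q : ρ → ℂ} (hqG : ∀ i, eval q (G i) = 0) : ∀ h ∈ I, eval q h = 0 := by
  obtain ⟨w, hw, hwli, hwF, hwq⟩ := hB.extend (Fin.cons x e : Fin (k + 1) → (ρ → ℂ))
    (hB.cons_mem he) hli hFe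
    (fun j : Fin c × Fin d => homogeneousComponent ((j.2 : ℕ) + 1) (trans q (G j.1)))
    (fun j => eval_zero_hc_succ _ _) (by
      rw [Fintype.card_prod, Fintype.card_fin, Fintype.card_fin]
      exact hcount)
  have hwF' := hwF
  rw [cons_snoc'] at hwF'
  have hwI : ∀ h ∈ I, eval w h = 0 := by
    have h1 := hB.van hS (Fin.snoc e w : Fin (k + 1) → (ρ → ℂ)) hwF' (Fin.snoc 0 1)
    rwa [← comb_cons_snoc_last x w e] at h1
  have hwG := (hB.approx_step hS hf hk hkc e he hli hFe hG hw hwli hwF).2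
    (fun i => hwI _ (hGI i))
  have h2 : ∀ z, ∀ h ∈ I, eval (comb (ln q w) z) h = 0 := by
    refine vanish_on I hS.hI hS.hdim (ln q w) ![0, 1] ?_ G hGI ?_ ?_
    · rw [comb_ln_right]; exact hwI
    · rw [comb_ln_right]; exact hwG
    · intro i z
      exact line_of_taylor (hG.hom i) (hqG i)
        (fun j => hwq (i, Fin.castLE (hG.hfd i) j)) z
  have := h2 (pt 0)
  rwa [comb_ln_one] at this

end Cut

end Pool.Agent.Hartshorne
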