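import Mathlib
import Pool.Agent.Hartshorne.Cap
import Pool.Agent.Hartshorne.RegSeq
import Pool.Agent.Hartshorne.Select

/-!
Flags of linear spaces in general position with respect to a system of forms.
-/

namespace Pool.Agent.Hartshorne

open MvPolynomial

set_option linter.unusedSectionVars false

section Finite

variable {ρ : Type*} [Fintype ρ] [DecidableEq ρ]

/-- Finiteness over the algebra generated by forms without common zero. -/
theorem integral_of_no_zero {κ : Type*} [Fintype κ] (g : κ → MvPolynomial ρ ℂ) (e : κ → ℕ)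
    (hg : ∀ i, (g i).IsHomogeneous (e i)) (he : ∀ i, 0 < e i) (I : Ideal (MvPolynomial ρ ℂ))
    (hhom : HI I)
    (hcon : ∀ p : ρ → ℂ, (∀ i, eval p (g i) = 0) → (∀ h ∈ I, eval p h = 0) → p = 0) :
    ((Ideal.Quotient.mk I).comp (aeval g : MvPolynomial κ ℂ →ₐ[ℂ] MvPolynomial ρ ℂ) :
      MvPolynomial κ ℂ →+* MvPolynomial ρ ℂ ⧸ I).IsIntegral := by
  classical
  set φ : MvPolynomial κ ℂ →+* MvPolynomial ρ ℂ ⧸ I :=
    (Ideal.Quotient.mk I).comp ((aeval g : MvPolynomial κ ℂ →ₐ[ℂ] MvPolynomial ρ ℂ) :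
      MvPolynomial κ ℂ →+* MvPolynomial ρ ℂ) with hφ
  algebraize [φ]
  let hmod : Module (MvPolynomial κ ℂ) (MvPolynomial ρ ℂ ⧸ I) := Algebra.toModule
  have hsm : ∀ (a : MvPolynomial κ ℂ) (f : MvPolynomial ρ ℂ),
      a • (Ideal.Quotient.mk I f) = Ideal.Quotient.mk I (aeval g a * f) := by
    intro a f
    rw [Algebra.smul_def, map_mul]
    rfl
  set K : Ideal (MvPolynomial ρ ℂ) := I ⊔ Ideal.span (Set.range g) with hK
  set m : Ideal (MvPolynomial ρ ℂ) := posIdeal (fun _ : ρ => 1) with hm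
  have hmK : m ≤ K.radical := by
    intro f hf
    rw [← vanishingIdeal_zeroLocus_eq_radical (K := ℂ), mem_vanishingIdeal_iff]
    intro p hp
    rw [mem_zeroLocus_iff] at hp
    have h1 : p = 0 := by
      apply hcon
      · intro i
        have h2 := hp (g i) (Ideal.mem_sup_right (Ideal.subset_span ⟨i, rfl⟩))
        rwa [aeval_eq_eval] at h2
      · intro h hh
        have h2 := hp h (Ideal.mem_sup_left hh)
        rwa [aeval_eq_eval] at h2
    have h3 := mem_posIdeal.mp hf
    rw [weightedHomogeneousComponent_zero (φ := f) (w := fun _ : ρ => 1)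
      (fun _ => one_ne_zero)] at h3
    rw [h1, aeval_eq_eval, eval_zero_eq_coeff]
    exact C_injective _ _ (by rw [h3, C_0])
  obtain ⟨D₀, hD₀⟩ := Ideal.exists_pow_le_of_le_radical_of_fg hmK (IsNoetherian.noetherian m)
  set M : Submodule (MvPolynomial κ ℂ) (MvPolynomial ρ ℂ ⧸ I) :=
    Submodule.span (MvPolynomial κ ℂ) ((fun s : ρ →₀ ℕ =>
      Ideal.Quotient.mk I (monomial s 1)) '' {s | s.degree < D₀}) with hM
  have key : ∀ n, ∀ f : MvPolynomial ρ ℂ, f.IsHomogeneous n → Ideal.Quotient.mk I f ∈ M := by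
    intro n
    induction n using Nat.strong_induction_on with
    | _ n ih =>
      intro f hf
      by_cases hn : n < D₀
      · rw [f.as_sum, map_sum]
        refine Submodule.sum_mem _ (fun s hs => ?_)
        have h1 : monomial s (coeff s f) = aeval g (C (coeff s f) : MvPolynomial κ ℂ) *
            monomial s 1 := by
          have h2 : aeval g (C (coeff s f) : MvPolynomial κ ℂ) = C (coeff s f) := by
            rw [← algebraMap_eq, ← algebraMap_eq]
            exact (aeval g).commutes _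
          rw [h2, C_mul_monomial, mul_one]
        rw [h1, ← hsm]
        refine Submodule.smul_mem _ _ (Submodule.subset_span ⟨s, ?_, rfl⟩)
        have h3 := hf (mem_support_iff.mp hs)
        show s.degree < D₀
        rw [Finsupp.degree_eq_weight_one]
        exact lt_of_eq_of_lt h3 hn
      · push Not at hn
        have hlow : Low (fun _ : ρ => 1) D₀ f := by
          intro j hj
          have h1 : IsWeightedHomogeneous (fun _ : ρ => 1) f n := hf
          exact wc_of_ne h1 (by omega)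
        have h1 := hD₀ (mem_pow_of_low (fun _ => le_rfl) hlow)
        obtain ⟨a, ha, b, hb, hab⟩ := Submodule.mem_sup.mp h1
        obtain ⟨t, ht⟩ := (Submodule.mem_span_range_iff_exists_fun _).mp hb
        have h4 : f = homogeneousComponent n a +
            ∑ i, (if e i ≤ n then homogeneousComponent (n - e i) (t i) * g i else 0) := by
          conv_lhs => rw [← homogeneousComponent_eq_self hf, ← hab, map_add, ← ht, map_sum]
          congr 1
          refine Finset.sum_congr rfl (fun i _ => ?_)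
          rw [smul_eq_mul, homogeneousComponent_mul_right (hg i)]
        rw [h4, map_add, Ideal.Quotient.eq_zero_iff_mem.mpr (hhom a ha _), zero_add, map_sum]
        refine Submodule.sum_mem _ (fun i _ => ?_)
        split_ifs with hi
        · have h5 : homogeneousComponent (n - e i) (t i) * g i =
              aeval g (X i : MvPolynomial κ ℂ) * homogeneousComponent (n - e i) (t i) := by
            rw [aeval_X, mul_comm]
          rw [h5, ← hsm]
          exact Submodule.smul_mem _ _ (ih _ (by have := he i; omega) _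
            (homogeneousComponent_isHomogeneous _ _))
        · rw [map_zero]
          exact M.zero_mem
  have htop : M = ⊤ := by
    rw [eq_top_iff]
    intro y _
    obtain ⟨f, rfl⟩ := Ideal.Quotient.mk_surjective y
    rw [← sum_homogeneousComponent f, map_sum]
    exact Submodule.sum_mem _ (fun n _ => key n _ (homogeneousComponent_isHomogeneous _ _))
  have hfin : Module.Finite (MvPolynomial κ ℂ) (MvPolynomial ρ ℂ ⧸ I) := by
    refine ⟨?_⟩
    rw [← htop, hM]
    refine Submodule.fg_span ?_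
    refine Set.Finite.image _ ?_
    have h1 : {s : ρ →₀ ℕ | s.degree < D₀} ⊆ ⋃ n ∈ Finset.range D₀,
        ((Finset.univ : Finset ρ).finsuppAntidiag n : Set (ρ →₀ ℕ)) := by
      intro s hs
      simp only [Set.mem_iUnion]
      refine ⟨s.degree, Finset.mem_range.mpr hs, ?_⟩
      rw [Finset.mem_coe, Finset.mem_finsuppAntidiag]
      exact ⟨(Finsupp.degree_eq_sum s).symm, Finset.subset_univ _⟩
    refine Set.Finite.subset ?_ h1
    exact Set.Finite.biUnion (Finset.finite_toSet _) (fun n _ => Finset.finite_toSet _)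
  have hint : Algebra.IsIntegral (MvPolynomial κ ℂ) (MvPolynomial ρ ℂ ⧸ I) :=
    Algebra.IsIntegral.of_finite _ _
  intro y
  exact hint.isIntegral y

/-- Dimension bound. -/
theorem dim_le_of_forms {κ : Type*} [Fintype κ] (g : κ → MvPolynomial ρ ℂ) (e : κ → ℕ)
    (hg : ∀ i, (g i).IsHomogeneous (e i)) (he : ∀ i, 0 < e i) (I : Ideal (MvPolynomial ρ ℂ))
    (hhom : HI I)
    (hcon : ∀ p : ρ → ℂ, (∀ i, eval p (g i) = 0) → (∀ h ∈ I, eval p h = 0) → p = 0) :
    ringKrullDim (MvPolynomial ρ ℂ ⧸ I) ≤ ((Fintype.card κ : ℕ) : WithBot ℕ∞) := by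
  have h1 := integral_of_no_zero g e hg he I hhom hcon
  algebraize [((Ideal.Quotient.mk I).comp (aeval g : MvPolynomial κ ℂ →ₐ[ℂ] MvPolynomial ρ ℂ) :
      MvPolynomial κ ℂ →+* MvPolynomial ρ ℂ ⧸ I)]
  refine (ringKrullDim_le_of_integral (R := MvPolynomial κ ℂ)).trans ?_
  rw [MvPolynomial.ringKrullDim_of_isNoetherianRing, ringKrullDim_eq_zero_of_field, zero_add,
    Nat.card_eq_fintype_card]

/-- A relation between the linear forms. -/
theorem exists_form {r : ℕ} (lam : (ρ → ℂ) →ₗ[ℂ] (Fin r → ℂ)) (I : Ideal (MvPolynomial ρ ℂ))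
    (hhom : HI I)
    (hcon : ∀ p : ρ → ℂ, lam p = 0 → (∀ h ∈ I, eval p h = 0) → p = 0)
    (hdim : ¬ (((r : ℕ) : WithBot ℕ∞) ≤ ringKrullDim (MvPolynomial ρ ℂ ⧸ I))) :
    ∃ f : MvPolynomial (Fin r) ℂ, f ≠ 0 ∧ (∃ n, f.IsHomogeneous n) ∧ lsub lam f ∈ I := by
  set g : Fin r → MvPolynomial ρ ℂ := fun i => lsub lam (X i) with hgdef
  have hint := integral_of_no_zero g (fun _ => 1)
    (fun i => isHomogeneous_lsub lam 1 _ (isHomogeneous_X _ i)) (fun _ => one_pos) I hhom
    (fun p hp hpI => hcon p (by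
      funext i
      have h1 := hp i
      rw [hgdef] at h1
      simp only [eval_lsub, eval_X] at h1
      exact h1) hpI)
  have hag : (aeval g : MvPolynomial (Fin r) ℂ →ₐ[ℂ] MvPolynomial ρ ℂ) = lsub lam := by
    apply MvPolynomial.algHom_ext
    intro i
    rw [aeval_X]
  rw [hag] at hint
  set φ : MvPolynomial (Fin r) ℂ →+* MvPolynomial ρ ℂ ⧸ I :=
    ((Ideal.Quotient.mk I).comp (lsub lam : MvPolynomial (Fin r) ℂ →+* MvPolynomial ρ ℂ)) with hφ
  have hninj : ¬ Function.Injective φ := by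
    intro hinj
    apply hdim
    algebraize [φ]
    have h1 := le_ringKrullDim_of_integral (R := MvPolynomial (Fin r) ℂ)
      (S := MvPolynomial ρ ℂ ⧸ I) hinj
    rw [MvPolynomial.ringKrullDim_of_isNoetherianRing, ringKrullDim_eq_zero_of_field, zero_add,
      Nat.card_eq_fintype_card, Fintype.card_fin] at h1
    exact h1
  rw [injective_iff_map_eq_zero] at hninj
  push Not at hninj
  obtain ⟨f, hf0, hfne⟩ := hninj
  have hfI : lsub lam f ∈ I := Ideal.Quotient.eq_zero_iff_mem.mp hf0
  obtain ⟨n, hn⟩ : ∃ n, homogeneousComponent n f ≠ 0 := by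
    by_contra hcon
    push Not at hcon
    apply hfne
    rw [← sum_homogeneousComponent f]
    exact Finset.sum_eq_zero (fun i _ => hcon i)
  refine ⟨homogeneousComponent n f, hn, ⟨n, homogeneousComponent_isHomogeneous _ _⟩, ?_⟩
  rw [← hc_algHom _ (isHomogeneous_lsub lam)]
  exact hhom _ hfI n

/-- Extension of a linear space missing a cone. -/
theorem extend_flag (I : Ideal (MvPolynomial ρ ℂ)) (hhom : HI I) {q : ℕ}
    (e : Fin q → (ρ → ℂ)) (hli : LinearIndependent ℂ e) {r : ℕ}
    (hr : r + 1 + q = Fintype.card ρ)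
    (hcon : ∀ z : Fin q → ℂ, (∀ h ∈ I, eval (comb e z) h = 0) → z = 0)
    (hdim : ¬ (((r + 1 : ℕ) : WithBot ℕ∞) ≤ ringKrullDim (MvPolynomial ρ ℂ ⧸ I))) :
    ∃ w : ρ → ℂ, LinearIndependent ℂ (Fin.snoc e w : Fin (q + 1) → (ρ → ℂ)) ∧
      ∀ z : Fin (q + 1) → ℂ,
        (∀ h ∈ I, eval (comb (Fin.snoc e w : Fin (q + 1) → (ρ → ℂ)) z) h = 0) → z = 0 := by
  set U : Submodule ℂ (ρ → ℂ) := Submodule.span ℂ (Set.range e) with hU
  have hfU : Module.finrank ℂ ((ρ → ℂ) ⧸ U) = r + 1 := by
    have h1 := Submodule.finrank_quotient_add_finrank U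
    have h2 : Module.finrank ℂ U = q := by
      rw [hU, finrank_span_eq_card hli, Fintype.card_fin]
    rw [Module.finrank_fintype_fun_eq_card, h2] at h1
    omega
  set lam : (ρ → ℂ) →ₗ[ℂ] (Fin (r + 1) → ℂ) :=
    ((Module.finBasisOfFinrankEq ℂ ((ρ → ℂ) ⧸ U) hfU).equivFun :
      ((ρ → ℂ) ⧸ U) →ₗ[ℂ] (Fin (r + 1) → ℂ)) ∘ₗ U.mkQ with hlam
  have hlam0 : ∀ p, lam p = 0 → p ∈ U := by
    intro p hp
    have h1 : (Module.finBasisOfFinrankEq ℂ ((ρ → ℂ) ⧸ U) hfU).equivFun (U.mkQ p) = 0 := hp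
    rw [LinearEquiv.map_eq_zero_iff] at h1
    rwa [Submodule.mkQ_apply, Submodule.Quotient.mk_eq_zero] at h1
  have hlamU : ∀ p ∈ U, lam p = 0 := by
    intro p hp
    show (Module.finBasisOfFinrankEq ℂ ((ρ → ℂ) ⧸ U) hfU).equivFun (U.mkQ p) = 0
    rw [Submodule.mkQ_apply, (Submodule.Quotient.mk_eq_zero U).mpr hp, map_zero]
  have hsurj : Function.Surjective lam := by
    intro y
    obtain ⟨w, hw⟩ := Submodule.mkQ_surjective U
      ((Module.finBasisOfFinrankEq ℂ ((ρ → ℂ) ⧸ U) hfU).equivFun.symm y)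
    refine ⟨w, ?_⟩
    show (Module.finBasisOfFinrankEq ℂ ((ρ → ℂ) ⧸ U) hfU).equivFun (U.mkQ w) = y
    rw [hw, LinearEquiv.apply_symm_apply]
  obtain ⟨f, hf0, ⟨n, hfn⟩, hfI⟩ := exists_form lam I hhom (by
    intro p hp hpI
    obtain ⟨z, hz⟩ := (Submodule.mem_span_range_iff_exists_fun _).mp (hlam0 p hp)
    have h1 : comb e z = p := by rw [comb_apply]; exact hz
    rw [← h1] at hpI ⊢
    rw [hcon z hpI, map_zero]) hdim
  -- a point outside of the image
  obtain ⟨y, hy⟩ : ∃ y : Fin (r + 1) → ℂ, eval y (X 0 * f) ≠ 0 := by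
    by_contra hno
    push Not at hno
    exact mul_ne_zero (X_ne_zero 0) hf0 (MvPolynomial.funext fun x => by rw [hno x, map_zero])
  rw [map_mul, eval_X] at hy
  have hy0 := left_ne_zero_of_mul hy
  have hyf := right_ne_zero_of_mul hy
  obtain ⟨w, hw⟩ := hsurj y
  refine ⟨w, ?_, ?_⟩
  · refine linearIndependent_finSnoc.mpr ⟨hli, ?_⟩
    intro hmem
    apply hy0
    rw [← hw, hlamU w hmem]
    rfl
  · intro z hz
    rw [comb_snoc] at hz
    have hlz : lam (comb e (fun i => z (Fin.castSucc i)) + z (Fin.last q) • w) =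
        z (Fin.last q) • y := by
      rw [map_add, hlamU _ (comb_mem_span e _), zero_add, map_smul, hw]
    have h1 := hz _ hfI
    rw [eval_lsub, hlz, eval_smul_of_isHomogeneous hfn] at h1
    have h2 : z (Fin.last q) ^ n = 0 := by
      rcases mul_eq_zero.mp h1 with h3 | h3
      · exact h3
      · exact absurd h3 hyf
    have h3 : z (Fin.last q) = 0 := eq_zero_of_pow_eq_zero h2
    rw [h3, zero_smul, add_zero] at hz
    have h4 := hcon _ hz
    funext i
    refine Fin.lastCases ?_ (fun j => ?_) i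
    · exact h3
    · exact congrFun h4 j

end Finite

end Pool.Agent.Hartshorne
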