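import Mathlib
import Pool.Agent.Hartshorne.Filt
import Pool.Agent.Hartshorne.Flags

/-!
An ideal which is prime, is the radical of an ideal generated by as many forms as its
codimension, and is generically generated by these forms, is generated by these forms.
-/

namespace Pool.Agent.Hartshorne

open MvPolynomial

set_option linter.unusedSectionVars false

section Unmixed

variable {ρ : Type*} [Fintype ρ] [DecidableEq ρ] {c : ℕ}

lemma exists_lam {q : ℕ} (e : Fin q → (ρ → ℂ)) (hli : LinearIndependent ℂ e) {r : ℕ}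
    (hr : r + q = Fintype.card ρ) :
    ∃ lam : (ρ → ℂ) →ₗ[ℂ] (Fin r → ℂ), ∀ p, lam p = 0 → ∃ z, p = comb e z := by
  set U : Submodule ℂ (ρ → ℂ) := Submodule.span ℂ (Set.range e) with hU
  have hfU : Module.finrank ℂ ((ρ → ℂ) ⧸ U) = r := by
    have h1 := Submodule.finrank_quotient_add_finrank U
    have h2 : Module.finrank ℂ U = q := by
      rw [hU, finrank_span_eq_card hli, Fintype.card_fin]
    rw [Module.finrank_fintype_fun_eq_card, h2] at h1
    omega
  refine ⟨((Module.finBasisOfFinrankEq ℂ ((ρ → ℂ) ⧸ U) hfU).equivFun :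
      ((ρ → ℂ) ⧸ U) →ₗ[ℂ] (Fin r → ℂ)) ∘ₗ U.mkQ, ?_⟩
  intro p hp
  have h1 : (Module.finBasisOfFinrankEq ℂ ((ρ → ℂ) ⧸ U) hfU).equivFun (U.mkQ p) = 0 := hp
  rw [LinearEquiv.map_eq_zero_iff, Submodule.mkQ_apply, Submodule.Quotient.mk_eq_zero] at h1
  obtain ⟨z, hz⟩ := (Submodule.mem_span_range_iff_exists_fun _).mp h1
  exact ⟨z, by rw [comb_apply]; exact hz.symm⟩

lemma dim_not_le {a : WithBot ℕ∞} {m c n : ℕ} (h : a + (c : WithBot ℕ∞) ≤ ((n : ℕ) : WithBot ℕ∞))
    (hn : n < m + c) : ¬ ((m : ℕ) : WithBot ℕ∞) ≤ a := by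
  intro hm
  have h1 : ((m + c : ℕ) : WithBot ℕ∞) ≤ ((n : ℕ) : WithBot ℕ∞) := by
    rw [Nat.cast_add]
    exact (add_le_add_left hm _).trans h
  have h2 : m + c ≤ n := by exact_mod_cast h1
  omega

lemma exists_missing (I : Ideal (MvPolynomial ρ ℂ)) (hhom : HI I) (hcn : c < Fintype.card ρ)
    (hdim : ringKrullDim (MvPolynomial ρ ℂ ⧸ I) + (c : WithBot ℕ∞) ≤
      ((Fintype.card ρ : ℕ) : WithBot ℕ∞)) (q : ℕ) (hq : q ≤ c) :
    ∃ e : Fin q → (ρ → ℂ), LinearIndependent ℂ e ∧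
      ∀ z : Fin q → ℂ, (∀ h ∈ I, eval (comb e z) h = 0) → z = 0 := by
  induction q with
  | zero =>
    refine ⟨Fin.elim0, linearIndependent_empty_type, fun z _ => ?_⟩
    funext i
    exact i.elim0
  | succ q ih =>
    obtain ⟨e, he, hcon⟩ := ih (by omega)
    obtain ⟨w, hw, hwcon⟩ := extend_flag I hhom e he (r := Fintype.card ρ - q - 1) (by omega) hcon
      (dim_not_le hdim (by omega))
    exact ⟨Fin.snoc e w, hw, hwcon⟩

/-- The ideal generated by the first forms. -/
noncomputable def firstI (G : Fin c → MvPolynomial ρ ℂ) (q : ℕ) : Ideal (MvPolynomial ρ ℂ) :=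
  Ideal.span (G '' {i : Fin c | (i : ℕ) < q})

lemma firstI_HI {G : Fin c → MvPolynomial ρ ℂ} {e : Fin c → ℕ}
    (hG : ∀ i, (G i).IsHomogeneous (e i)) (q : ℕ) : HI (firstI G q) := by
  apply HI.span
  rintro _ ⟨i, -, rfl⟩
  exact ⟨e i, hG i⟩

lemma mem_firstI {G : Fin c → MvPolynomial ρ ℂ} {q : ℕ} {i : Fin c} (hi : (i : ℕ) < q) :
    G i ∈ firstI G q := Ideal.subset_span ⟨i, hi, rfl⟩

lemma dim_firstI (I : Ideal (MvPolynomial ρ ℂ)) (hhom : HI I) (hcn : c < Fintype.card ρ)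
    (hdim : ringKrullDim (MvPolynomial ρ ℂ ⧸ I) + (c : WithBot ℕ∞) ≤
      ((Fintype.card ρ : ℕ) : WithBot ℕ∞)) (G : Fin c → MvPolynomial ρ ℂ) (e : Fin c → ℕ)
    (hG : ∀ i, (G i).IsHomogeneous (e i)) (he : ∀ i, 0 < e i)
    (hV : ∀ p, (∀ i, eval p (G i) = 0) → ∀ h ∈ I, eval p h = 0) (q : ℕ) (hq : q ≤ c) :
    ringKrullDim (MvPolynomial ρ ℂ ⧸ firstI G q) ≤
      ((Fintype.card ρ - q : ℕ) : WithBot ℕ∞) := by
  obtain ⟨b, hb, hbcon⟩ := exists_missing I hhom hcn hdim c le_rfl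
  obtain ⟨lam, hlam⟩ := exists_lam b hb (r := Fintype.card ρ - c) (by omega)
  have h1 := dim_le_of_forms (κ := Fin (Fintype.card ρ - c) ⊕ Fin (c - q))
    (Sum.elim (fun i => lsub lam (X i)) (fun i => G ⟨q + i, by omega⟩))
    (Sum.elim (fun _ => 1) (fun i => e ⟨q + i, by omega⟩)) (by
      rintro (i | i)
      · exact isHomogeneous_lsub lam 1 _ (isHomogeneous_X _ i)
      · exact hG _) (by
      rintro (i | i)
      · exact one_pos
      · exact he _) (firstI G q) (firstI_HI hG q) (by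
      intro p hp hpI
      have h2 : ∀ i, eval p (G i) = 0 := by
        intro i
        by_cases hi : (i : ℕ) < q
        · exact hpI _ (mem_firstI hi)
        · have h3 := hp (Sum.inr ⟨i - q, by omega⟩)
          simp only [Sum.elim_inr] at h3
          have h4 : (⟨q + (i - q), by omega⟩ : Fin c) = i := by
            apply Fin.ext
            simp only
            omega
          rwa [h4] at h3
      obtain ⟨z, rfl⟩ := hlam p (by
        funext i
        have h3 := hp (Sum.inl i)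
        simp only [Sum.elim_inl, eval_lsub, eval_X] at h3
        exact h3)
      rw [hbcon z (hV _ h2), map_zero])
  refine h1.trans ?_
  rw [Fintype.card_sum, Fintype.card_fin, Fintype.card_fin]
  exact_mod_cast (by omega : Fintype.card ρ - c + (c - q) ≤ Fintype.card ρ - q)

theorem exists_flag (I : Ideal (MvPolynomial ρ ℂ)) (hhom : HI I) (hcn : c < Fintype.card ρ)
    (hdim : ringKrullDim (MvPolynomial ρ ℂ ⧸ I) + (c : WithBot ℕ∞) ≤
      ((Fintype.card ρ : ℕ) : WithBot ℕ∞)) (G : Fin c → MvPolynomial ρ ℂ) (e : Fin c → ℕ)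
    (hG : ∀ i, (G i).IsHomogeneous (e i)) (he : ∀ i, 0 < e i)
    (hV : ∀ p, (∀ i, eval p (G i) = 0) → ∀ h ∈ I, eval p h = 0) (q : ℕ) (hq : q ≤ c) :
    ∃ b : Fin q → (ρ → ℂ), LinearIndependent ℂ b ∧ ∀ q' ≤ q, ∀ z : Fin q → ℂ,
      (∀ j : Fin q, q' ≤ j → z j = 0) →
      (∀ i : Fin c, (i : ℕ) < q' → eval (comb b z) (G i) = 0) → z = 0 := by
  induction q with
  | zero =>
    refine ⟨Fin.elim0, linearIndependent_empty_type, fun _ _ z _ _ => ?_⟩
    funext i
    exact i.elim0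
  | succ q ih =>
    obtain ⟨b, hb, hcon⟩ := ih (by omega)
    obtain ⟨w, hw, hwcon⟩ := extend_flag (firstI G (q + 1)) (firstI_HI hG _) b hb
      (r := Fintype.card ρ - q - 1) (by omega) (by
        intro z hz
        refine hcon q le_rfl z (fun j hj => absurd j.2 (by omega)) (fun i hi => ?_)
        exact hz _ (mem_firstI (by omega))) (by
        intro h1
        have h2 := h1.trans (dim_firstI I hhom hcn hdim G e hG he hV (q + 1) hq)
        have h3 : Fintype.card ρ - q - 1 + 1 ≤ Fintype.card ρ - (q + 1) := by exact_mod_cast h2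
        omega)
    refine ⟨Fin.snoc b w, hw, ?_⟩
    intro q' hq' z hz hzG
    by_cases hqq : q' = q + 1
    · subst hqq
      apply hwcon
      intro h hh
      have h1 : firstI G (q + 1) ≤ RingHom.ker
          (eval (comb (Fin.snoc b w : Fin (q + 1) → (ρ → ℂ)) z)) := by
        rw [firstI, Ideal.span_le]
        rintro _ ⟨i, hi, rfl⟩
        exact hzG i hi
      exact h1 hh
    · have hlast : z (Fin.last q) = 0 := hz _ (by rw [Fin.val_last]; omega)
      have h1 : (fun i => z (Fin.castSucc i)) = 0 := by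
        refine hcon q' (by omega) _ (fun j hj => hz _ hj) (fun i hi => ?_)
        have h2 := hzG i hi
        rw [comb_snoc, hlast, zero_smul, add_zero] at h2
        exact h2
      funext i
      refine Fin.lastCases ?_ (fun j => ?_) i
      · exact hlast
      · exact congrFun h1 j

lemma exists_unit_at (I K : Ideal (MvPolynomial ρ ℂ)) (x : ρ → ℂ)
    (h : ∀ g ∈ I, ∃ u, eval x u ≠ 0 ∧ u * g ∈ K) : ∃ u, eval x u ≠ 0 ∧ ∀ g ∈ I, u * g ∈ K := by
  obtain ⟨S, hS⟩ := IsNoetherian.noetherian I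
  have h1 : ∀ s : S, ∃ u, eval x u ≠ 0 ∧ u * (s : MvPolynomial ρ ℂ) ∈ K := by
    intro s
    refine h _ ?_
    rw [← hS]
    exact Submodule.subset_span s.2
  choose u hu hus using h1
  refine ⟨∏ s, u s, ?_, ?_⟩
  · rw [map_prod]
    exact Finset.prod_ne_zero_iff.mpr (fun s _ => hu s)
  · intro g hg
    rw [← hS] at hg
    refine Submodule.span_induction (p := fun g _ => (∏ s, u s) * g ∈ K) ?_ ?_ ?_ ?_ hg
    · intro s hs
      rw [← Finset.mul_prod_erase _ _ (Finset.mem_univ (⟨s, hs⟩ : S)), mul_comm (u _), mul_assoc]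
      exact K.mul_mem_left _ (hus ⟨s, hs⟩)
    · rw [mul_zero]; exact K.zero_mem
    · intro a b _ _ ha hb
      rw [mul_add]
      exact K.add_mem ha hb
    · intro r a _ ha
      rw [smul_eq_mul, mul_left_comm]
      exact K.mul_mem_left _ ha

/-- The annihilator of `I` modulo `K`. -/
noncomputable def colonJ (K I : Ideal (MvPolynomial ρ ℂ)) : Ideal (MvPolynomial ρ ℂ) where
  carrier := {b | ∀ h ∈ I, b * h ∈ K}
  add_mem' := by
    intro a b ha hb h hh
    rw [add_mul]
    exact K.add_mem (ha h hh) (hb h hh)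
  zero_mem' := by
    intro h _
    rw [zero_mul]
    exact K.zero_mem
  smul_mem' := by
    intro r a ha h hh
    rw [smul_eq_mul, mul_assoc]
    exact K.mul_mem_left _ (ha h hh)

lemma colonJ_HI {K I : Ideal (MvPolynomial ρ ℂ)} (hK : HI K) (hI : HI I) :
    HI (colonJ K I) := by
  intro b hb e h hh
  rw [← sum_homogeneousComponent h, Finset.mul_sum]
  refine Ideal.sum_mem _ (fun j _ => ?_)
  have h1 := hK _ (hb _ (hI h hh j)) (e + j)
  rw [homogeneousComponent_mul_right (homogeneousComponent_isHomogeneous j h),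
    if_pos (by omega), Nat.add_sub_cancel] at h1
  exact h1

lemma HI.sup {J K : Ideal (MvPolynomial ρ ℂ)} (hJ : HI J) (hK : HI K) : HI (J ⊔ K) := by
  intro f hf e
  obtain ⟨a, ha, b, hb, rfl⟩ := Submodule.mem_sup.mp hf
  rw [map_add]
  exact Ideal.add_mem _ (Ideal.mem_sup_left (hJ a ha e)) (Ideal.mem_sup_right (hK b hb e))

/-- **The unmixedness theorem in the case at hand.** -/
theorem unmixed (I : Ideal (MvPolynomial ρ ℂ)) (hI : I.IsPrime) (hhom : HI I)
    (hcn : c < Fintype.card ρ)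
    (hdim : ((Fintype.card ρ : ℕ) : WithBot ℕ∞) ≤
      ringKrullDim (MvPolynomial ρ ℂ ⧸ I) + (c : WithBot ℕ∞))
    (G : Fin c → MvPolynomial ρ ℂ) (e : Fin c → ℕ) (hG : ∀ i, (G i).IsHomogeneous (e i))
    (he : ∀ i, 0 < e i) (hGI : ∀ i, G i ∈ I)
    (hV : ∀ p, (∀ i, eval p (G i) = 0) → ∀ h ∈ I, eval p h = 0) {x : ρ → ℂ}
    (hx : ∀ h ∈ I, eval x h = 0) (hli : LinearIndependent ℂ (fun i => grad x (G i))) :
    Ideal.span (Set.range G) = I := by
  have hle : Ideal.span (Set.range G) ≤ I := by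
    rw [Ideal.span_le]
    rintro _ ⟨i, rfl⟩
    exact hGI i
  obtain ⟨hdim', hloc⟩ := point_case I hI x hx c G hGI hli
  obtain ⟨u, hux, hu⟩ := exists_unit_at I (Ideal.span (Set.range G)) x (hloc hdim)
  -- the annihilator
  have hGHI : HI (Ideal.span (Set.range G)) := HI.span (by rintro _ ⟨i, rfl⟩; exact ⟨e i, hG i⟩)
  set b : Ideal (MvPolynomial ρ ℂ) := colonJ (Ideal.span (Set.range G)) I with hb
  have hbHI : HI b := colonJ_HI hGHI hhom
  have hub : u ∈ b := hu
  have huI : u ∉ I := fun h => hux (hx _ h)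
  have hlt : I < b ⊔ I := by
    refine lt_of_le_of_ne le_sup_right (fun h => huI ?_)
    rw [h]
    exact Ideal.mem_sup_left hub
  have hdimb := ringKrullDim_quotient_succ_le_of_lt hlt
  -- the flag
  obtain ⟨v, hv, hvcon⟩ := exists_flag I hhom hcn hdim' G e hG he hV c le_rfl
  obtain ⟨w, hw, hwcon⟩ := extend_flag (b ⊔ I) (hbHI.sup hhom) v hv
    (r := Fintype.card ρ - c - 1) (by omega) (by
      intro z hz
      refine hvcon c le_rfl z (fun j hj => absurd j.2 (by omega)) (fun i _ => ?_)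
      exact hz _ (Ideal.mem_sup_right (hGI i))) (by
      apply dim_not_le (c := c + 1) (n := Fintype.card ρ) _ (by omega)
      rw [Nat.cast_add, Nat.cast_one]
      refine le_trans (le_of_eq ?_) ((add_le_add_left hdimb (c : WithBot ℕ∞)).trans hdim')
      rw [add_assoc, add_comm (c : WithBot ℕ∞) 1])
  -- extension to a basis
  obtain ⟨m, hm⟩ : ∃ m, (c + 1) + m = Fintype.card ρ := ⟨Fintype.card ρ - (c + 1), by omega⟩
  obtain ⟨B, hB, hBv⟩ := extend_li (Fin.snoc v w : Fin (c + 1) → (ρ → ℂ)) hw m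
    (by rw [Module.finrank_fintype_fun_eq_card]; omega)
  have hBinj := comb_injective hB
  set Φ : (Fin (c + 1 + m) → ℂ) ≃ₗ[ℂ] (ρ → ℂ) :=
    LinearEquiv.ofInjectiveOfFinrankEq (comb B) hBinj (by
      rw [Module.finrank_fintype_fun_eq_card, Module.finrank_fintype_fun_eq_card,
        Fintype.card_fin, hm]) with hΦ
  have hΦapp : ∀ z, Φ z = comb B z := fun z => rfl
  -- points of the flag
  have hcomb : ∀ z : Fin (c + 1 + m) → ℂ, (∀ j : Fin (c + 1 + m), c + 1 ≤ (j : ℕ) → z j = 0) →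
      comb B z = comb (Fin.snoc v w : Fin (c + 1) → (ρ → ℂ)) (fun i => z (Fin.castAdd m i)) := by
    intro z hz
    rw [comb_apply, comb_apply, Fin.sum_univ_add]
    have h1 : ∑ i : Fin m, z (Fin.natAdd (c + 1) i) • B (Fin.natAdd (c + 1) i) = 0 := by
      refine Finset.sum_eq_zero (fun i _ => ?_)
      rw [hz _ (by simp), zero_smul]
    rw [h1, add_zero]
    exact Finset.sum_congr rfl (fun i _ => by rw [hBv])
  have hzero : ∀ z : Fin (c + 1 + m) → ℂ, (∀ j : Fin (c + 1 + m), c + 1 ≤ (j : ℕ) → z j = 0) →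
      (fun i => z (Fin.castAdd m i)) = 0 → z = 0 := by
    intro z hz h0
    funext i
    refine Fin.addCases (fun j => ?_) (fun j => ?_) i
    · exact congrFun h0 j
    · exact hz _ (by simp)
  refine le_antisymm hle ?_
  have hmain : tI Φ I ≤ Ideal.span (Set.range fun i =>
      lsub (Φ : (Fin (c + 1 + m) → ℂ) →ₗ[ℂ] (ρ → ℂ)) (G i)) := by
    refine le_span_of_flag (by omega) _ e (fun i => isHomogeneous_lsub _ _ _ (hG i)) (tI Φ I)
      (tI_hom Φ I hhom) ?_ ?_
    · intro q hq z hz hzG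
      have hz' : ∀ j : Fin (c + 1 + m), c + 1 ≤ (j : ℕ) → z j = 0 := fun j hj => hz j (by omega)
      apply hzero z hz'
      have hlast : z (Fin.castAdd m (Fin.last c)) = 0 := hz _ (by simp; omega)
      have h1 : (fun i : Fin c => z (Fin.castAdd m (Fin.castSucc i))) = 0 := by
        refine hvcon q hq _ (fun j hj => hz _ (by simpa using hj)) (fun i hi => ?_)
        have h2 := hzG i hi
        rw [eval_lsub] at h2
        have h3 : (Φ : (Fin (c + 1 + m) → ℂ) →ₗ[ℂ] (ρ → ℂ)) z = comb B z := rfl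
        rw [h3, hcomb z hz', comb_snoc] at h2
        rw [hlast, zero_smul, add_zero] at h2
        exact h2
      funext i
      refine Fin.lastCases ?_ (fun j => ?_) i
      · exact hlast
      · exact congrFun h1 j
    · intro z hz hzb
      apply hzero z hz
      apply hwcon
      intro h hh
      have hcz := hcomb z hz
      have key : ∀ a ∈ b, eval (comb (Fin.snoc v w : Fin (c + 1) → (ρ → ℂ))
          (fun i => z (Fin.castAdd m i))) a = 0 := by
        intro a ha
        have h1 := hzb (lsub (Φ : (Fin (c + 1 + m) → ℂ) →ₗ[ℂ] (ρ → ℂ)) a) (by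
          intro f hf
          have h2 : a * lsub (Φ.symm : (ρ → ℂ) →ₗ[ℂ] (Fin (c + 1 + m) → ℂ)) f ∈
              Ideal.span (Set.range G) := ha _ ((mem_tI Φ I f).mp hf)
          have h3 := Ideal.mem_map_of_mem
            (lsub (Φ : (Fin (c + 1 + m) → ℂ) →ₗ[ℂ] (ρ → ℂ))) h2
          rw [map_mul, lsub_lsub_symm, Ideal.map_span] at h3
          have h4 : (lsub (Φ : (Fin (c + 1 + m) → ℂ) →ₗ[ℂ] (ρ → ℂ))) '' Set.range G =
              Set.range fun i => lsub (Φ : (Fin (c + 1 + m) → ℂ) →ₗ[ℂ] (ρ → ℂ)) (G i) := by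
            rw [← Set.range_comp]
            rfl
          rwa [h4] at h3)
        rw [eval_lsub] at h1
        have h3 : (Φ : (Fin (c + 1 + m) → ℂ) →ₗ[ℂ] (ρ → ℂ)) z = comb B z := rfl
        rwa [h3, hcz] at h1
      have hGb : ∀ i, G i ∈ b := by
        intro i f _
        exact Ideal.mul_mem_right _ _ (Ideal.subset_span ⟨i, rfl⟩)
      have hkey2 : ∀ a ∈ I, eval (comb (Fin.snoc v w : Fin (c + 1) → (ρ → ℂ))
          (fun i => z (Fin.castAdd m i))) a = 0 := hV _ (fun i => key _ (hGb i))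
      obtain ⟨a₁, ha₁, a₂, ha₂, rfl⟩ := Submodule.mem_sup.mp hh
      rw [map_add, key _ ha₁, hkey2 _ ha₂, add_zero]
  intro h hh
  have h1 := hmain (lsub_mem_tI Φ I hh)
  have h2 := Ideal.mem_map_of_mem
    (lsub (Φ.symm : (ρ → ℂ) →ₗ[ℂ] (Fin (c + 1 + m) → ℂ))) h1
  rw [lsub_symm_lsub, Ideal.map_span] at h2
  refine Ideal.span_mono ?_ h2
  rintro _ ⟨_, ⟨i, rfl⟩, rfl⟩
  exact ⟨i, (lsub_symm_lsub Φ (G i)).symm⟩

end Unmixed

end Pool.Agent.Hartshorne
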