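import Mathlib
import Pool.Agent.Hartshorne.Cut
import Pool.Agent.Hartshorne.Unmixed

/-!
The main theorem: the bound linear in the codimension.
-/

namespace Pool.Agent.Hartshorne

open MvPolynomial

set_option linter.unusedSectionVars false

section Final

variable {ρ : Type*} [Fintype ρ] [DecidableEq ρ]

/-- Homogeneous generators of bounded degree. -/
lemma exists_generators (I : Ideal (MvPolynomial ρ ℂ)) (hhom : HI I) :
    ∃ (D : ℕ) (S : Set (MvPolynomial ρ ℂ)), (∀ g ∈ S, g ∈ I ∧ ∃ e ≤ D, g.IsHomogeneous e) ∧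
      I = Ideal.span S := by
  classical
  obtain ⟨T, hT⟩ := IsNoetherian.noetherian I
  set D := T.sup MvPolynomial.totalDegree with hD
  refine ⟨D, {g | g ∈ I ∧ ∃ e ≤ D, g.IsHomogeneous e}, fun g hg => hg, ?_⟩
  apply le_antisymm
  · have h1 : I = Submodule.span _ (T : Set (MvPolynomial ρ ℂ)) := hT.symm
    rw [h1]
    rw [Submodule.span_le]
    intro t ht
    have htI : t ∈ I := by
      rw [← hT]
      exact Submodule.subset_span ht
    rw [← sum_homogeneousComponent t]
    refine Submodule.sum_mem _ (fun e he => Submodule.subset_span ⟨?_, e, ?_, ?_⟩)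
    · rw [← h1]
      exact hhom t htI e
    · rw [Finset.mem_range] at he
      have h2 : t.totalDegree ≤ D := Finset.le_sup (f := MvPolynomial.totalDegree) ht
      omega
    · exact homogeneousComponent_isHomogeneous _ _
  · rw [Ideal.span_le]
    exact fun g hg => hg.1

/-- Nonsingular points are good for a uniform degree. -/
lemma exists_setup {c : ℕ} (Λ : Submodule ℂ (ρ → ℂ))
    (I : Ideal (MvPolynomial ρ ℂ)) (hI : I.IsPrime) (hhom : HI I)
    (hdim : ((Fintype.card ρ : ℕ) : WithBot ℕ∞) ≤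
      ringKrullDim (MvPolynomial ρ ℂ ⧸ I) + (c : WithBot ℕ∞))
    (hsm : ∀ p ∈ Λ, p ≠ 0 → (∀ h ∈ I, eval p h = 0) →
      ∃ q : Fin c → MvPolynomial ρ ℂ, (∀ k, q k ∈ I) ∧
        LinearIndependent ℂ (fun k => fun j => eval p (pderiv j (q k)))) :
    ∃ D, Setup I c D Λ := by
  obtain ⟨D, S, hS, hIS⟩ := exists_generators I hhom
  refine ⟨D + 1, Nat.succ_pos _, hI, hhom, hdim, ?_⟩
  intro p hp hp0 hpI
  obtain ⟨q, hq, hli⟩ := hsm p hp hp0 hpI
  -- gradients of elements of the ideal are combinations of those of the generators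
  have hgr : ∀ h ∈ I, grad p h ∈ Submodule.span ℂ ((fun g => grad p g) '' S) := by
    intro h hh
    rw [hIS] at hh
    refine Submodule.span_induction
      (p := fun h _ => grad p h ∈ Submodule.span ℂ ((fun g => grad p g) '' S)) ?_ ?_ ?_ ?_ hh
    · intro g hg
      exact Submodule.subset_span ⟨g, hg, rfl⟩
    · rw [map_zero]
      exact Submodule.zero_mem _
    · intro a b _ _ ha hb
      rw [map_add]
      exact Submodule.add_mem _ ha hb
    · intro r a ha' ha
      have h0 : eval p a = 0 := hpI _ (by rw [hIS]; exact ha')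
      have h1 : grad p (r • a) = eval p r • grad p a := by
        funext b
        simp only [grad_apply, Derivation.leibniz, smul_eq_mul, map_add, map_mul,
          Pi.smul_apply, h0, zero_mul, add_zero]
      rw [h1]
      exact Submodule.smul_mem _ _ ha
  have hle : c ≤ Module.finrank ℂ (Submodule.span ℂ ((fun g => grad p g) '' S)) := by
    have h1 : Submodule.span ℂ (Set.range fun k => grad p (q k)) ≤
        Submodule.span ℂ ((fun g => grad p g) '' S) := by
      rw [Submodule.span_le]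
      rintro _ ⟨k, rfl⟩
      exact hgr _ (hq k)
    have h2 := Submodule.finrank_mono h1
    have h3 : LinearIndependent ℂ (fun k => grad p (q k)) := hli
    rw [finrank_span_eq_card h3, Fintype.card_fin] at h2
    exact h2
  obtain ⟨g, hg, hgli⟩ := exists_li_of_le S (fun g => grad p g) hle
  refine goodPt_of_cut hI hdim hp0 hpI g (fun k => ⟨(hS _ (hg k)).1, ?_⟩) hgli
  obtain ⟨e, he, hge⟩ := (hS _ (hg k)).2
  exact ⟨e, by omega, hge⟩

/-- A frame of forms of degree `d` at a point. -/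
lemma exists_frame {c d : ℕ} {I : Ideal (MvPolynomial ρ ℂ)} (hI : I.IsPrime)
    (hdim : ((Fintype.card ρ : ℕ) : WithBot ℕ∞) ≤
      ringKrullDim (MvPolynomial ρ ℂ ⧸ I) + (c : WithBot ℕ∞)) {p : ρ → ℂ} (hp0 : p ≠ 0)
    (hp : ∀ h ∈ I, eval p h = 0) (q : Fin c → MvPolynomial ρ ℂ)
    (hq : ∀ k, q k ∈ I ∧ ∃ e ≤ d, (q k).IsHomogeneous e)
    (hli : LinearIndependent ℂ (fun k => fun j => eval p (pderiv j (q k)))) :
    ∃ F : Fin c → MvPolynomial ρ ℂ, (∀ i, F i ∈ I ∧ (F i).IsHomogeneous d) ∧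
      LinearIndependent ℂ (fun i => grad p (F i)) :=
  (goodPt_of_cut hI hdim hp0 hp q hq hli).1

/-- **Main theorem, general form.** -/
theorem core_linear (c d : ℕ) (hc : 0 < c) (hd : 0 < d) (Λ : Submodule ℂ (ρ → ℂ))
    (hΛ : c * ((min c d + d).choose (min c d + 1) + d) + min c d + 2 ≤ Module.finrank ℂ Λ)
    (I : Ideal (MvPolynomial ρ ℂ)) (hI : I.IsPrime)
    (hhom : ∀ f ∈ I, ∀ e, homogeneousComponent e f ∈ I)
    (hdim : ((Fintype.card ρ : ℕ) : WithBot ℕ∞) ≤
      ringKrullDim (MvPolynomial ρ ℂ ⧸ I) + (c : WithBot ℕ∞))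
    (hsm : ∀ p ∈ Λ, p ≠ 0 → (∀ h ∈ I, eval p h = 0) →
      ∃ q : Fin c → MvPolynomial ρ ℂ, (∀ k, q k ∈ I) ∧
        LinearIndependent ℂ (fun k => fun j => eval p (pderiv j (q k))))
    (hcut : ∃ p ∈ Λ, p ≠ 0 ∧ (∀ h ∈ I, eval p h = 0) ∧
      ∃ q : Fin c → MvPolynomial ρ ℂ, (∀ k, q k ∈ I ∧ ∃ e ≤ d, (q k).IsHomogeneous e) ∧
        LinearIndependent ℂ (fun k => fun j => eval p (pderiv j (q k)))) :
    ∃ F : Fin c → MvPolynomial ρ ℂ, (∀ k, ∃ e ≤ d, (F k).IsHomogeneous e) ∧
      Ideal.span (Set.range F) = I := by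
  have hle : Module.finrank ℂ Λ ≤ Fintype.card ρ := by
    have := Submodule.finrank_le Λ
    rwa [Module.finrank_fintype_fun_eq_card] at this
  obtain ⟨D, hS⟩ := exists_setup Λ I hI hhom hdim hsm
  obtain ⟨x, hxΛ, hx0, hxI, q, hq, hqli⟩ := hcut
  obtain ⟨F, hF, hFli⟩ := exists_frame hI hdim hx0 hxI q hq hqli
  have hB : Base I c d Λ x F := ⟨hd, hxΛ, hx0, hxI, hF, hFli⟩
  obtain ⟨G, f, e, hf, he, hli, hFe, hG, hGI⟩ := hB.exists_equations hS hc hΛ
  refine ⟨G, fun i => ⟨f i + 1, hG.hfd i, hG.hom i⟩, ?_⟩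
  have hΛ' := hΛ
  rw [mul_add] at hΛ'
  have hcd : c * 1 ≤ c * d := Nat.mul_le_mul_left _ hd
  have hxG : LinearIndependent ℂ (fun i => grad x (G i)) := by
    have h1 := hG.li (Fin.cons 1 0) (by
      intro h
      have := congrFun h 0
      simp at this)
    rwa [comb_cons_one] at h1
  refine unmixed I hI hhom (by omega) hdim G (fun i => f i + 1) hG.hom (fun i => Nat.succ_pos _)
    hGI ?_ hxI hxG
  intro p hp
  refine hB.cut hS hf (k := min c d) (by omega) le_rfl ?_ e he hli hFe hG hGI hp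
  have h2 : min c d + 1 + d - 1 = min c d + d := by omega
  rw [h2]
  omega

end Final

end Pool.Agent.Hartshorne
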