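import Mathlib
import Pool.Agent.Hartshorne.Const

/-!
A refined form of the constancy of the filtration.
-/

namespace Pool.Agent.Hartshorne

open MvPolynomial

set_option linter.unusedSectionVars false

section Mat

variable {σ γ : Type*} [Fintype γ] [DecidableEq γ]

lemma rowEval_mulVec (v : σ → ℂ) (M : Matrix γ γ (MvPolynomial σ ℂ))
    (k : γ → MvPolynomial σ ℂ) :
    rowEval v (M.mulVec k) = (M.map (eval v)).mulVec (rowEval v k) := by
  funext b
  exact RingHom.map_mulVec (eval v) M k b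

lemma det_map_eval (v : σ → ℂ) (M : Matrix γ γ (MvPolynomial σ ℂ)) :
    (M.map (eval v)).det = eval v M.det := (RingHom.map_det (eval v) M).symm

lemma FrameProp.comap_mat {S : Set (σ → ℂ)} {H : (σ → ℂ) → Submodule ℂ (γ → ℂ)}
    (h : FrameProp S H) (M : Matrix γ γ (MvPolynomial σ ℂ)) (hM : ∀ v ∈ S, eval v M.det ≠ 0) :
    FrameProp S (fun v => (H v).comap (Matrix.toLin' (M.map (eval v)))) := by
  intro v₀ hv₀ a₀ ha₀
  rw [Submodule.mem_comap, Matrix.toLin'_apply] at ha₀
  obtain ⟨Δ, k, hΔ, hk, hkS⟩ := h v₀ hv₀ _ ha₀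
  refine ⟨Δ * M.det, M.adjugate.mulVec k, ?_, ?_, ?_⟩
  · rw [map_mul]
    exact mul_ne_zero hΔ (hM v₀ hv₀)
  · rw [rowEval_mulVec, hk]
    have h1 : (M.adjugate).map (eval v₀) = (M.map (eval v₀)).adjugate :=
      RingHom.map_adjugate (eval v₀) M
    rw [h1, Matrix.mulVec_smul, Matrix.mulVec_mulVec, Matrix.adjugate_mul, Matrix.smul_mulVec,
      Matrix.one_mulVec, det_map_eval, smul_smul, map_mul]
  · intro v hv hΔv
    rw [map_mul] at hΔv
    rw [Submodule.mem_comap, Matrix.toLin'_apply, rowEval_mulVec]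
    have h1 : (M.adjugate).map (eval v) = (M.map (eval v)).adjugate :=
      RingHom.map_adjugate (eval v) M
    rw [h1, Matrix.mulVec_mulVec, Matrix.mul_adjugate, Matrix.smul_mulVec, Matrix.one_mulVec]
    exact (H v).smul_mem _ (hkS v hv (left_ne_zero_of_mul hΔv))

end Mat

section Tri

variable {ρ : Type*} [Fintype ρ] [DecidableEq ρ] {c n' : ℕ} (x : ρ → ℂ) (u : Fin n' → (ρ → ℂ))

lemma eval_cf_zero (v : Fin n' → ℂ) (f : MvPolynomial ρ ℂ) :
    eval v (cf x u 0 f) = eval x f := by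
  rw [cf, homogeneousComponent_zero, eval_C, ← eval_zero_eq_coeff, eval_aff, map_zero, add_zero]

/-- The change of coordinates. -/
noncomputable def PM (T : Fin c → ρ) (F' : Fin c → MvPolynomial ρ ℂ) (m : ℕ) :
    Matrix (Fin m × Fin c) (Fin m × Fin c) (MvPolynomial (Fin n') ℂ) :=
  Matrix.of fun p q => if (q.1 : ℕ) ≤ p.1 then
    cf x u ((p.1 : ℕ) - q.1) (pderiv (T p.2) (F' q.2)) else 0

lemma PM_eval (T : Fin c → ρ) (F' : Fin c → MvPolynomial ρ ℂ) (m : ℕ) (v : Fin n' → ℂ)
    (p q : Fin m × Fin c) : (PM x u T F' m).map (eval v) p q = if (q.1 : ℕ) ≤ p.1 then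
    eval v (cf x u ((p.1 : ℕ) - q.1) (pderiv (T p.2) (F' q.2))) else 0 := by
  rw [Matrix.map_apply, PM, Matrix.of_apply]
  split_ifs
  · rfl
  · rw [map_zero]

lemma PM_mulVec (T : Fin c → ρ) (F' : Fin c → MvPolynomial ρ ℂ) (m : ℕ) (v : Fin n' → ℂ)
    (a : Fin m × Fin c → ℂ) (p : Fin m × Fin c) :
    ((PM x u T F' m).map (eval v)).mulVec a p = ∑ k : Fin m, ∑ i : Fin c,
      (if (k : ℕ) ≤ p.1 then eval v (cf x u ((p.1 : ℕ) - k) (pderiv (T p.2) (F' i))) else 0) *
        a (k, i) := by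
  rw [Matrix.mulVec, dotProduct, Fintype.sum_prod_type]
  refine Finset.sum_congr rfl (fun k _ => Finset.sum_congr rfl (fun i _ => ?_))
  rw [PM_eval]

lemma PM_top (T : Fin c → ρ) (F' : Fin c → MvPolynomial ρ ℂ) (m : ℕ) (v : Fin n' → ℂ)
    (a : Fin m × Fin c → ℂ) (j : Fin m) (ha : ∀ k < j, ∀ i, a (k, i) = 0) (l : Fin c) :
    ((PM x u T F' m).map (eval v)).mulVec a (j, l) = ∑ i, grad x (F' i) (T l) * a (j, i) := by
  rw [PM_mulVec, Finset.sum_eq_single j]
  · refine Finset.sum_congr rfl (fun i _ => ?_)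
    rw [if_pos le_rfl, Nat.sub_self, eval_cf_zero, grad_apply]
  · intro k _ hk
    refine Finset.sum_eq_zero (fun i _ => ?_)
    rcases lt_or_gt_of_ne hk with h | h
    · rw [ha k h i, mul_zero]
    · rw [if_neg (by
        have h1 : (j : ℕ) < k := h
        show ¬ (k : ℕ) ≤ j
        omega), zero_mul]
  · intro h; exact absurd (Finset.mem_univ _) h

lemma PM_det (T : Fin c → ρ) (F' : Fin c → MvPolynomial ρ ℂ)
    (hT : (Matrix.of fun i l => grad x (F' i) (T l)).det ≠ 0) (m : ℕ) (v : Fin n' → ℂ) :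
    eval v (PM x u T F' m).det ≠ 0 := by
  rw [← det_map_eval]
  intro h0
  obtain ⟨a, ha0, ha⟩ := Matrix.exists_mulVec_eq_zero_iff.mpr h0
  apply ha0
  have key : ∀ j : ℕ, ∀ (hj : j < m) (i : Fin c), a (⟨j, hj⟩, i) = 0 := by
    intro j
    induction j using Nat.strong_induction_on with
    | _ j ih =>
      intro hj
      have h1 : Matrix.vecMul (fun i => a (⟨j, hj⟩, i))
          (Matrix.of fun i l => grad x (F' i) (T l)) = 0 := by
        funext l
        have h2 := PM_top x u T F' m v a ⟨j, hj⟩ (fun k hk i => ih k hk k.2 i) l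
        rw [ha] at h2
        rw [Pi.zero_apply] at h2
        rw [Pi.zero_apply, h2, Matrix.vecMul, dotProduct]
        refine Finset.sum_congr rfl (fun i _ => ?_)
        rw [Matrix.of_apply, mul_comm]
      intro i
      exact congrFun (Matrix.eq_zero_of_vecMul_eq_zero hT h1) i
  funext p
  exact key p.1 p.1.2 p.2

/-- Scaling. -/
lemma PM_scale (T : Fin c → ρ) (F' : Fin c → MvPolynomial ρ ℂ) (m : ℕ) (v : Fin n' → ℂ) (t : ℂ)
    (a : Fin m × Fin c → ℂ) (p : Fin m × Fin c) :
    ((PM x u T F' m).map (eval (t • v))).mulVec (fun q => t ^ (q.1 : ℕ) * a q) p =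
      t ^ (p.1 : ℕ) * ((PM x u T F' m).map (eval v)).mulVec a p := by
  rw [PM_mulVec, PM_mulVec, Finset.mul_sum]
  refine Finset.sum_congr rfl (fun k _ => ?_)
  rw [Finset.mul_sum]
  refine Finset.sum_congr rfl (fun i _ => ?_)
  split_ifs with h
  · rw [eval_smul_of_isHomogeneous (cf_isHomogeneous x u _ _)]
    have h1 : t ^ (p.1 : ℕ) = t ^ ((p.1 : ℕ) - k) * t ^ (k : ℕ) := by
      rw [← pow_add, Nat.sub_add_cancel h]
    rw [h1]
    ring
  · ring

end Tri

section FinrankMap

lemma finrank_map_of_ker_le {V W : Type*} [AddCommGroup V] [Module ℂ V] [AddCommGroup W]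
    [Module ℂ W] [Module.Finite ℂ V] (f : V →ₗ[ℂ] W) {p : Submodule ℂ V}
    (hp : LinearMap.ker f ≤ p) :
    Module.finrank ℂ (p.map f) + Module.finrank ℂ (LinearMap.ker f) = Module.finrank ℂ p := by
  have h1 := LinearMap.finrank_range_add_finrank_ker (f.domRestrict p)
  have h2 : LinearMap.range (f.domRestrict p) = p.map f := by
    rw [LinearMap.range_domRestrict]
  have h3 : Module.finrank ℂ (LinearMap.ker (f.domRestrict p)) =
      Module.finrank ℂ (LinearMap.ker f) := by
    have h4 : LinearMap.ker (f.domRestrict p) = (LinearMap.ker f).submoduleOf p := by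
      rw [LinearMap.ker_domRestrict]
      rfl
    rw [h4]
    exact (Submodule.submoduleOfEquivOfLe hp).finrank_eq
  rw [h2, h3] at h1
  exact h1

lemma finrank_comap_of_det {γ : Type*} [Fintype γ] [DecidableEq γ] (M : Matrix γ γ ℂ)
    (hM : M.det ≠ 0) (H : Submodule ℂ (γ → ℂ)) :
    Module.finrank ℂ (H.comap (Matrix.toLin' M)) = Module.finrank ℂ H := by
  have hinj : LinearMap.ker (Matrix.toLin' M) = ⊥ := by
    rw [LinearMap.ker_eq_bot']
    intro a ha
    rw [Matrix.toLin'_apply] at ha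
    by_contra hne
    exact hM (Matrix.exists_mulVec_eq_zero_iff.mp ⟨a, hne, ha⟩)
  have hsurj : LinearMap.range (Matrix.toLin' M) = ⊤ :=
    LinearMap.range_eq_top.mpr (LinearMap.injective_iff_surjective.mp
      (LinearMap.ker_eq_bot.mp hinj))
  have h1 := finrank_map_of_ker_le (Matrix.toLin' M) (p := H.comap (Matrix.toLin' M)) (by
    rw [hinj]; exact bot_le)
  rw [hinj, finrank_bot, add_zero, Submodule.map_comap_eq, hsurj, top_inf_eq] at h1
  exact h1.symm

end FinrankMap

section Refined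

variable {ρ : Type*} [Fintype ρ] [DecidableEq ρ] {c d D n' : ℕ} {I : Ideal (MvPolynomial ρ ℂ)}
  {x : ρ → ℂ} {u : Fin n' → (ρ → ℂ)} {F F' : Fin c → MvPolynomial ρ ℂ} {d' : Fin c → ℕ}
  {κ : Type*} {y : κ → MvPolynomial (Fin n') ℂ}

/-- A frame of mixed degrees. -/
structure MixF (I : Ideal (MvPolynomial ρ ℂ)) (x : ρ → ℂ) (d : ℕ)
    (F' : Fin c → MvPolynomial ρ ℂ) (d' : Fin c → ℕ) : Prop where
  hF : ∀ i, F' i ∈ I ∧ (F' i).IsHomogeneous (d' i)
  hd1 : ∀ i, 0 < d' i
  hdd : ∀ i, d' i ≤ d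
  hli : LinearIndependent ℂ (fun i => grad x (F' i))

lemma inE_gRow {h : MvPolynomial ρ ℂ} (hh : h ∈ I) (v : Fin n' → ℂ) :
    InE (El I x u v) (gRow (pl x u v) h) := by
  intro z _
  rw [rowEval_gRow]
  exact grad_mem_gradSpan hh _

lemma card_le_sum (d : ℕ) (d' : Fin c → ℕ) (m : ℕ) (hm : m ≤ d - 1) :
    Fintype.card {p : Fin m × Fin c // ¬ (d' p.2 + (p.1 : ℕ) ≤ d - 1)} ≤ ∑ i, (d' i - 1) := by
  classical
  have h1 : ∑ i, (d' i - 1) = Fintype.card (Σ i : Fin c, Fin (d' i - 1)) := by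
    rw [Fintype.card_sigma]
    exact Finset.sum_congr rfl (fun i _ => (Fintype.card_fin _).symm)
  rw [h1]
  refine Fintype.card_le_of_injective (fun p => ⟨p.1.2, ⟨d - 2 - (p.1.1 : ℕ), ?_⟩⟩) ?_
  · have h2 := p.2
    have h3 := p.1.1.2
    omega
  · rintro ⟨⟨j, i⟩, hp⟩ ⟨⟨j', i'⟩, hp'⟩ h
    simp only [Sigma.mk.injEq] at h
    obtain ⟨rfl, h⟩ := h
    have h2 := congrArg Fin.val (eq_of_heq h)
    simp only at h2
    have h3 := j.2
    have h4 := j'.2
    have h5 : j = j' := Fin.ext (by omega)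
    subst h5
    rfl

/-- The filtration of the gradient space at the vertex is constant. -/
theorem Pencil.Wsp_const' [Fintype κ] (hP : Pencil I x u c d D F y) (hM : MixF I x d F' d')
    (hcard : 2 * Fintype.card κ + ∑ i, (d' i - 1) < n')
    {v₁ v₂ : Fin n' → ℂ} (hv₁ : ∀ p, eval v₁ (y p) = 0) (hv₁0 : v₁ ≠ 0)
    (hv₂ : ∀ p, eval v₂ (y p) = 0) (hv₂0 : v₂ ≠ 0) (e : ℕ) :
    Wsp (El I x u v₁) e = Wsp (El I x u v₂) e := by
  classical
  obtain ⟨T, hTdet⟩ := exists_minor _ hM.hli
  have hspan : Submodule.span ℂ (Set.range fun i => grad x (F' i)) = gradSpan I x :=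
    span_eq_of_li hP.vertex.fr _ hM.hli (fun i => grad_mem_gradSpan (hM.hF i).1 x)
  have hT : ∀ w ∈ gradSpan I x, (∀ l, w (T l) = 0) → w = 0 := by
    intro w hw h0
    rw [← hspan] at hw
    obtain ⟨a, ha⟩ := (Submodule.mem_span_range_iff_exists_fun _).mp hw
    have h1 : Matrix.vecMul a (Matrix.of fun i l => grad x (F' i) (T l)) = 0 := by
      funext l
      have h2 := h0 l
      rw [← ha, Finset.sum_apply] at h2
      exact h2
    have h3 := Matrix.eq_zero_of_vecMul_eq_zero hTdet h1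
    rw [← ha, h3]
    simp
  have hT' : ∀ v, ∀ w ∈ El I x u v (pt 0), (∀ l, w (T l) = 0) → w = 0 := by
    intro v
    rw [El_pt_zero]; exact hT
  induction e using Nat.strong_induction_on generalizing v₁ v₂ with
  | _ e ih =>
  rcases Nat.lt_or_ge e (d - 1) with hlt | hge
  swap
  · rw [hP.vertex.Wsp_top u v₁ hge, hP.vertex.Wsp_top u v₂ hge]
  have key : ∀ {v₁ v₂ : Fin n' → ℂ} (hv₁ : ∀ p, eval v₁ (y p) = 0) (hv₁0 : v₁ ≠ 0)
      (hv₂ : ∀ p, eval v₂ (y p) = 0) (hv₂0 : v₂ ≠ 0),
      Wsp (El I x u v₁) e ≤ Wsp (El I x u v₂) e := by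
    intro v₁ v₂ hv₁ hv₁0 hv₂ hv₂0 w hw
    have hb₁ := isBundle_El I x u (hP.good _ hv₁0 hv₁)
    have hb₂ := isBundle_El I x u (hP.good _ hv₂0 hv₂)
    have hm : d - 1 - e ≤ d - 1 := Nat.sub_le _ _
    have hF : FrameProp {v | v ∈ {v | ∀ i, eval v (y i) = 0} ∧ v ≠ 0}
        (fun v => Hm (El I x u v) T (d - 1) (d - 1 - e) hm) := by
      have h1 := frame_of_eqs {v | v ∈ {v | ∀ i, eval v (y i) = 0} ∧ v ≠ 0}
        (famA I x u c D (d - 1)) (Module.finrank ℂ (KM (El I x u v₁) (d - 1))) (by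
          rintro v ⟨hv, hv0⟩
          rw [solS_famA I x u _ (hP.good v hv0 hv)]
          exact hP.finrank_KM_const (by omega) hv hv0 hv₁ hv₁0)
      have h2 := h1.comap_coord (fun p : Fin (d - 1 - e) × Fin c => (Fin.castLE hm p.1, T p.2))
      intro v₀ hv₀ h hh
      obtain ⟨Δ, k, hΔ, hk, hkS⟩ := h2 v₀ hv₀ h (by
        beta_reduce
        rw [solS_famA I x u _ (hP.good v₀ hv₀.2 hv₀.1)]
        exact hh)
      refine ⟨Δ, k, hΔ, hk, ?_⟩
      intro v hv hvΔ
      have h3 := hkS v hv hvΔ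
      beta_reduce at h3
      rw [solS_famA I x u _ (hP.good v hv.2 hv.1)] at h3
      exact h3
    have hsum : ∀ v, (∀ i, eval v (y i) = 0) → v ≠ 0 →
        Module.finrank ℂ (Hm (El I x u v) T (d - 1) (d - 1 - e) hm) +
          ∑ j ∈ Finset.range e, Module.finrank ℂ (Wsp (El I x u v) j) =
        Module.finrank ℂ (KM (El I x u v) (d - 1)) := by
      intro v hv hv0
      have hb := isBundle_El I x u (hP.good _ hv0 hv)
      rw [finrank_KM hb T (hT' v), finrank_Hm T hb (hT' v)]
      have h1 : ∑ j ∈ Finset.range (d - 1), Module.finrank ℂ (Wsp (El I x u v) j) =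
          ∑ j ∈ Finset.range (e + (d - 1 - e)), Module.finrank ℂ (Wsp (El I x u v) j) := by
        rw [show e + (d - 1 - e) = d - 1 by omega]
      rw [h1, Finset.sum_range_add, add_comm]
      congr 1
      rw [← Finset.sum_range_reflect]
      refine Finset.sum_congr rfl (fun j hj => ?_)
      rw [Finset.mem_range] at hj
      rw [show d - 1 - 1 - (d - 1 - e - 1 - j) = e + j by omega]
    have hg : ∀ v ∈ {v | v ∈ {v | ∀ i, eval v (y i) = 0} ∧ v ≠ 0},
        Module.finrank ℂ (Hm (El I x u v) T (d - 1) (d - 1 - e) hm) =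
        Module.finrank ℂ (Hm (El I x u v₁) T (d - 1) (d - 1 - e) hm) := by
      rintro v ⟨hv, hv0⟩
      have h1 := hsum v hv hv0
      have h2 := hsum v₁ hv₁ hv₁0
      have h3 := hP.finrank_KM_const (by omega) hv hv0 hv₁ hv₁0
      have h4 : ∑ j ∈ Finset.range e, Module.finrank ℂ (Wsp (El I x u v) j) =
          ∑ j ∈ Finset.range e, Module.finrank ℂ (Wsp (El I x u v₁) j) := by
        refine Finset.sum_congr rfl (fun j hj => ?_)
        rw [ih j (Finset.mem_range.mp hj) hv hv0 hv₁ hv₁0]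
      omega
    -- the change of coordinates
    set P : (Fin n' → ℂ) → Matrix (Fin (d - 1 - e) × Fin c) (Fin (d - 1 - e) × Fin c) ℂ :=
      fun v => (PM x u T F' (d - 1 - e)).map (eval v) with hPdef
    have hPdet : ∀ v, (P v).det ≠ 0 := by
      intro v
      rw [hPdef]
      simp only
      rw [det_map_eval]
      exact PM_det x u T F' hTdet _ v
    set Ha : (Fin n' → ℂ) → Submodule ℂ (Fin (d - 1 - e) × Fin c → ℂ) := fun v =>
      (Hm (El I x u v) T (d - 1) (d - 1 - e) hm).comap (Matrix.toLin' (P v)) with hHa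
    have hFa : FrameProp {v | v ∈ {v | ∀ i, eval v (y i) = 0} ∧ v ≠ 0} Ha :=
      hF.comap_mat (PM x u T F' (d - 1 - e)) (fun v _ => PM_det x u T F' hTdet _ v)
    set res := LinearMap.funLeft ℂ ℂ (Subtype.val :
      {p : Fin (d - 1 - e) × Fin c // ¬ (d' p.2 + (p.1 : ℕ) ≤ d - 1)} →
        Fin (d - 1 - e) × Fin c) with hres
    have hF' : FrameProp {v | v ∈ {v | ∀ i, eval v (y i) = 0} ∧ v ≠ 0}
        (fun v => (Ha v).map res) := hFa.comap_coord _
    have hsingle : ∀ v, ∀ p : Fin (d - 1 - e) × Fin c, d' p.2 + (p.1 : ℕ) ≤ d - 1 →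
        (Pi.single p 1 : Fin (d - 1 - e) × Fin c → ℂ) ∈ Ha v := by
      intro v p hp
      rw [hHa]
      simp only
      rw [Submodule.mem_comap, Matrix.toLin'_apply]
      refine ⟨rowEval v (mq x u (d - 1) (p.1 : ℕ) (F' p.2)), ?_, ?_⟩
      · show _ ∈ KM (El I x u v) (d - 1)
        rw [mem_KM, arr_mq x u (hM.hF p.2).2 (hM.hd1 p.2) (d - 1 - (p.1 : ℕ) - d' p.2) (p.1 : ℕ)
          (by omega) v]
        exact (inE_gRow (hM.hF p.2).1 v).smul _
      · funext q
        rw [LinearMap.funLeft_apply, rowEval_apply, mq, Matrix.mulVec_single_one,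
          Matrix.col_apply]
        rw [hPdef]
        simp only
        rw [PM_eval]
        simp only [Fin.val_castLE]
        split_ifs
        · rfl
        · rw [map_zero]
    have hker : ∀ v, LinearMap.ker res ≤ Ha v := by
      intro v a ha
      rw [LinearMap.mem_ker] at ha
      rw [pi_eq_sum_univ' a]
      refine Submodule.sum_mem _ (fun p _ => ?_)
      by_cases hp : d' p.2 + (p.1 : ℕ) ≤ d - 1
      · exact Submodule.smul_mem _ _ (hsingle v p hp)
      · have h1 : a p = 0 := congrFun ha ⟨p, hp⟩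
        rw [h1, zero_smul]
        exact Submodule.zero_mem _
    have hga : ∀ v, Module.finrank ℂ (Ha v) =
        Module.finrank ℂ (Hm (El I x u v) T (d - 1) (d - 1 - e) hm) := fun v =>
      finrank_comap_of_det _ (hPdet v) _
    have hg' : ∀ v ∈ {v | v ∈ {v | ∀ i, eval v (y i) = 0} ∧ v ≠ 0},
        Module.finrank ℂ ((Ha v).map res) = Module.finrank ℂ ((Ha v₁).map res) := by
      intro v hv
      have h1 := finrank_map_of_ker_le res (hker v)
      have h2 := finrank_map_of_ker_le res (hker v₁)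
      have h3 := hg v hv
      rw [← hga, ← hga] at h3
      omega
    -- the vector
    have hwx : w ∈ gradSpan I x := by
      rw [← El_pt_zero I x u v₁]
      exact Wsp_le _ _ hw
    rw [← hspan] at hwx
    obtain ⟨b, hb⟩ := (Submodule.mem_span_range_iff_exists_fun _).mp hwx
    have hbT : ∀ l, ∑ i, grad x (F' i) (T l) * b i = w (T l) := by
      intro l
      rw [← hb, Finset.sum_apply]
      refine Finset.sum_congr rfl (fun i _ => ?_)
      rw [Pi.smul_apply, smul_eq_mul, mul_comm]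
    set αa : Fin (d - 1 - e) × Fin c → ℂ := fun p =>
      if (p.1 : ℕ) = d - 1 - e - 1 then b p.2 else 0 with hαa
    set α : Fin (d - 1 - e) × Fin c → ℂ := fun p =>
      if (p.1 : ℕ) = d - 1 - e - 1 then w (T p.2) else 0 with hα
    have hPα : ∀ v, (P v).mulVec αa = α := by
      intro v
      funext p
      obtain ⟨j, l⟩ := p
      have h1 : ∀ k < j, ∀ i, αa (k, i) = 0 := by
        intro k hk i
        rw [hαa]
        simp only
        rw [if_neg]
        have h2 : (k : ℕ) < j := hk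
        have h3 := j.2
        omega
      have h2 := PM_top x u T F' (d - 1 - e) v αa j h1 l
      rw [hPdef]
      simp only
      rw [h2, hα]
      simp only
      split_ifs with hj
      · rw [← hbT]
        refine Finset.sum_congr rfl (fun i _ => ?_)
        rw [hαa]
        simp only
        rw [if_pos hj]
      · refine Finset.sum_eq_zero (fun i _ => ?_)
        rw [hαa]
        simp only
        rw [if_neg hj, mul_zero]
    have hα₁ : α ∈ Hm (El I x u v₁) T (d - 1) (d - 1 - e) hm := by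
      have h1 : d - 1 - e - 1 < d - 1 := by omega
      obtain ⟨q, hq, hq0, hqw⟩ := KM_of_Wsp (E := El I x u v₁) (n := d - 1)
        (m := d - 1 - e - 1) h1 (w := w)
        (by rw [show d - 1 - 1 - (d - 1 - e - 1) = e by omega]; exact hw)
      refine ⟨q, hq, ?_⟩
      funext p
      obtain ⟨j, l⟩ := p
      show q (Fin.castLE hm j, T l) = α (j, l)
      rw [hα]
      simp only
      split_ifs with hj
      · rw [← hqw]
        congr 2
        exact Fin.ext hj
      · apply hq0
        have := j.2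
        show (j : ℕ) < d - 1 - e - 1
        omega
    have hαa₁ : αa ∈ Ha v₁ := by
      rw [hHa]
      simp only
      rw [Submodule.mem_comap, Matrix.toLin'_apply, hPα]
      exact hα₁
    have hres₂ : res αa ∈ (Ha v₂).map res := by
      refine constancy hP.hy hF' hg' (fun p => (p.1.1 : ℕ)) (d - 1 - e - 1) ?_ ?_ ?_ (res αa) ?_
        hv₁ hv₁0 hv₂ hv₂0 ⟨αa, hαa₁, rfl⟩
      · intro p
        have := p.1.1.2
        show (p.1.1 : ℕ) ≤ d - 1 - e - 1
        omega
      · rintro v hv hv0 t ht _ ⟨a, ha, rfl⟩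
        refine ⟨fun q => t ^ (q.1 : ℕ) * a q, ?_, rfl⟩
        have ha' : (P v).mulVec a ∈ Hm (El I x u v) T (d - 1) (d - 1 - e) hm := ha
        show (P (t • v)).mulVec (fun q => t ^ (q.1 : ℕ) * a q) ∈
          Hm (El I x u (t • v)) T (d - 1) (d - 1 - e) hm
        obtain ⟨q, hq, hqa⟩ := ha'
        refine ⟨_, KM_smul I x u (d - 1) ht hq, ?_⟩
        funext p
        rw [hPdef]
        simp only
        rw [PM_scale]
        have h1 := congrFun hqa p
        rw [hPdef] at h1
        simp only at h1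
        rw [← h1]
        rfl
      · have h1 := card_le_sum d d' (d - 1 - e) hm
        rw [Fintype.card_fin]
        omega
      · intro p hp
        by_contra h1
        apply hp
        show αa p.1 = 0
        rw [hαa]
        exact if_neg h1
    have hαa₂ : αa ∈ Ha v₂ := by
      obtain ⟨a, ha, haα⟩ := hres₂
      have h1 : αa - a ∈ LinearMap.ker res := by
        rw [LinearMap.mem_ker, map_sub, haα, sub_self]
      have h2 := Submodule.add_mem _ (hker v₂ h1) ha
      rwa [sub_add_cancel] at h2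
    have hα₂ : α ∈ Hm (El I x u v₂) T (d - 1) (d - 1 - e) hm := by
      rw [← hPα v₂]
      exact hαa₂
    obtain ⟨q, hq, hqα⟩ := hα₂
    have hval : ∀ (j : Fin (d - 1 - e)) (l : Fin c), q (Fin.castLE hm j, T l) = α (j, l) :=
      fun j l => congrFun hqα (j, l)
    have h1 : d - 1 - e - 1 < d - 1 := by omega
    have hq0 : ∀ (j : Fin (d - 1)) b, (j : ℕ) < d - 1 - e - 1 → q (j, b) = 0 := by
      apply KM_vanish T hb₂ (hT' v₂) (le_of_lt h1) hq
      intro j l hj
      have h2 := hval ⟨j, by omega⟩ l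
      rw [hα] at h2
      simp only at h2
      rw [if_neg (by omega)] at h2
      rw [← h2]
      rfl
    have h3 := KM_lead hb₂ h1 hq hq0
    rw [show d - 1 - 1 - (d - 1 - e - 1) = e by omega] at h3
    have h4 : (fun b => q (⟨d - 1 - e - 1, h1⟩, b)) - w = 0 := by
      apply hT
      · apply Submodule.sub_mem
        · rw [← El_pt_zero I x u v₂]
          exact Wsp_le _ _ h3
        · rw [← El_pt_zero I x u v₁]
          exact Wsp_le _ _ hw
      · intro l
        have h5 := hval ⟨d - 1 - e - 1, by omega⟩ l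
        rw [hα] at h5
        simp only [if_true] at h5
        rw [Pi.sub_apply, sub_eq_zero, ← h5]
        rfl
    rw [← sub_eq_zero.mp h4]
    exact h3
  exact le_antisymm (key hv₁ hv₁0 hv₂ hv₂0) (key hv₂ hv₂0 hv₁ hv₁0)

end Refined

end Pool.Agent.Hartshorne
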