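import Mathlib
import Pool.Agent.Hartshorne.Unmixed

/-!
Regularity properties of the cone over a smooth complete intersection.
-/

namespace Pool.Agent.Hartshorne

open MvPolynomial

set_option linter.unusedSectionVars false

section PointCase

variable {ρ κ : Type*} [Fintype ρ] [DecidableEq ρ] [Fintype κ]

lemma point_case' (J : Ideal (MvPolynomial ρ ℂ)) (hJ : J.IsPrime) (p : ρ → ℂ)
    (hp : ∀ h ∈ J, eval p h = 0) (F : κ → MvPolynomial ρ ℂ) (hF : ∀ k, F k ∈ J)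
    (hli : LinearIndependent ℂ (fun k => grad p (F k))) :
    ringKrullDim (MvPolynomial ρ ℂ ⧸ J) + ((Fintype.card κ : ℕ) : WithBot ℕ∞) ≤
        ((Fintype.card ρ : ℕ) : WithBot ℕ∞) ∧
      (((Fintype.card ρ : ℕ) : WithBot ℕ∞) ≤
        ringKrullDim (MvPolynomial ρ ℂ ⧸ J) + ((Fintype.card κ : ℕ) : WithBot ℕ∞) →
        ∀ g ∈ J, ∃ u, eval p u ≠ 0 ∧ u * g ∈ Ideal.span (Set.range F)) := by
  have h1 := point_case J hJ p hp (Fintype.card κ) (fun i => F ((Fintype.equivFin κ).symm i))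
    (fun i => hF _) (hli.comp _ (Fintype.equivFin κ).symm.injective)
  refine ⟨h1.1, fun h g hg => ?_⟩
  obtain ⟨u, hu, hm⟩ := h1.2 h g hg
  refine ⟨u, hu, Ideal.span_mono ?_ hm⟩
  rintro _ ⟨i, rfl⟩
  exact ⟨_, rfl⟩

/-- Local reducedness at points with independent gradients. -/
lemma local_rad (y : κ → MvPolynomial ρ ℂ) (p : ρ → ℂ) (hy : ∀ k, eval p (y k) = 0)
    (hli : LinearIndependent ℂ (fun k => grad p (y k))) {g : MvPolynomial ρ ℂ}
    (hg : ∀ q, (∀ k, eval q (y k) = 0) → eval q g = 0) :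
    ∃ u, eval p u ≠ 0 ∧ u * g ∈ Ideal.span (Set.range y) := by
  obtain ⟨P, hP, hyP, hPp, hdim⟩ := exists_prime_at y p hy
  refine (point_case' P hP p hPp y hyP hli).2 hdim g ?_
  exact mem_of_eval_zero hP (fun z hz => hg z (fun k => hz _ (hyP k)))

end PointCase

section Prime

variable {σ κ : Type*} [Fintype σ] [DecidableEq σ] [Fintype κ]

lemma NZ.all {J : Ideal (MvPolynomial σ ℂ)} (hJ : HI J) {g : MvPolynomial σ ℂ} {e : ℕ}
    (hg : g.IsHomogeneous e) (h : NZ J g) {f : MvPolynomial σ ℂ} (hf : g * f ∈ J) : f ∈ J := by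
  rw [← sum_homogeneousComponent f]
  refine Ideal.sum_mem _ (fun k _ => ?_)
  apply h k _ (homogeneousComponent_isHomogeneous _ _)
  have h1 := hJ _ hf (k + e)
  rw [mul_comm, homogeneousComponent_mul_right hg, if_pos (Nat.le_add_left _ _),
    Nat.add_sub_cancel] at h1
  rwa [mul_comm]

/-- A smooth complete intersection cone of small codimension is irreducible. -/
theorem exists_prime_cone (y : κ → MvPolynomial σ ℂ) (hy : ∀ k, ∃ e, (y k).IsHomogeneous (e + 1))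
    (hli : ∀ v ≠ 0, (∀ k, eval v (y k) = 0) → LinearIndependent ℂ (fun k => grad v (y k)))
    (hcard : 2 * Fintype.card κ < Fintype.card σ) :
    ∃ P : Ideal (MvPolynomial σ ℂ), P.IsPrime ∧ HI P ∧ (∀ k, y k ∈ P) ∧
      (∀ v, (∀ k, eval v (y k) = 0) → ∀ h ∈ P, eval v h = 0) ∧
      ((Fintype.card σ : ℕ) : WithBot ℕ∞) ≤
        ringKrullDim (MvPolynomial σ ℂ ⧸ P) + ((Fintype.card κ : ℕ) : WithBot ℕ∞) ∧
      ringKrullDim (MvPolynomial σ ℂ ⧸ P) + ((Fintype.card κ : ℕ) : WithBot ℕ∞) ≤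
        ((Fintype.card σ : ℕ) : WithBot ℕ∞) := by
  have hcomp : ∀ v : σ → ℂ, (∀ k, eval v (y k) = 0) → ∃ P : Ideal (MvPolynomial σ ℂ),
      P.IsPrime ∧ HI P ∧ (∀ k, y k ∈ P) ∧ (∀ h ∈ P, eval v h = 0) ∧
      ((Fintype.card σ : ℕ) : WithBot ℕ∞) ≤
        ringKrullDim (MvPolynomial σ ℂ ⧸ P) + ((Fintype.card κ : ℕ) : WithBot ℕ∞) := by
    intro v hv
    obtain ⟨P, hP, hyP, hPv, hdim⟩ := exists_prime_at y v hv
    refine ⟨hcore P, hcore_isPrime hP, hcore_hom P, fun k => ?_, fun h hh => hPv h (hcore_le P hh),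
      hdim.trans (add_le_add_left ?_ _)⟩
    · obtain ⟨e, he⟩ := hy k
      exact mem_hcore_of_homog he (hyP k)
    · exact ringKrullDim_le_of_surjective (Ideal.Quotient.factor (hcore_le P))
        (Ideal.Quotient.factor_surjective (hcore_le P))
  have hsame : ∀ P Q : Ideal (MvPolynomial σ ℂ), P.IsPrime → Q.IsPrime → HI P → HI Q →
      (∀ k, y k ∈ P) → (∀ k, y k ∈ Q) → ((Fintype.card σ : ℕ) : WithBot ℕ∞) ≤
        ringKrullDim (MvPolynomial σ ℂ ⧸ P) + ((Fintype.card κ : ℕ) : WithBot ℕ∞) →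
      ((Fintype.card σ : ℕ) : WithBot ℕ∞) ≤
        ringKrullDim (MvPolynomial σ ℂ ⧸ Q) + ((Fintype.card κ : ℕ) : WithBot ℕ∞) → P ≤ Q := by
    intro P Q hP hQ hPh hQh hyP hyQ hdP hdQ
    have hdn : ∀ R : Ideal (MvPolynomial σ ℂ), ((Fintype.card σ : ℕ) : WithBot ℕ∞) ≤
        ringKrullDim (MvPolynomial σ ℂ ⧸ R) + ((Fintype.card κ : ℕ) : WithBot ℕ∞) →
        ((Fintype.card σ - Fintype.card κ : ℕ) : WithBot ℕ∞) ≤
          ringKrullDim (MvPolynomial σ ℂ ⧸ R) := by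
      intro R hR
      apply dim_cancel (b := Fintype.card κ)
      rwa [Nat.sub_add_cancel (by omega)]
    obtain ⟨v, hv0, hvP, hvQ⟩ := cap hP hQ hPh hQh (hdn P hdP) (hdn Q hdQ) (by omega)
    intro g hg
    obtain ⟨u, hu, hm⟩ := (point_case' P hP v hvP y hyP
      (hli v hv0 (fun k => hvP _ (hyP k)))).2 hdP g hg
    have h1 : u * g ∈ Q := by
      refine (Ideal.span_le.mpr ?_) hm
      rintro _ ⟨k, rfl⟩
      exact hyQ k
    exact (hQ.mem_or_mem h1).resolve_left (fun h2 => hu (hvQ u h2))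
  obtain ⟨v₀, hv₀, hv₀y⟩ := exists_common_zero y (by
    intro k
    obtain ⟨e, he⟩ := hy k
    have h1 := eval_smul_of_isHomogeneous he 0 (0 : σ → ℂ)
    rwa [smul_zero, zero_pow (Nat.succ_ne_zero e), zero_mul] at h1) (by omega)
  obtain ⟨P, hP, hPh, hyP, hPv, hdP⟩ := hcomp v₀ hv₀y
  refine ⟨P, hP, hPh, hyP, ?_, hdP, (point_case' P hP v₀ hPv y hyP (hli v₀ hv₀ hv₀y)).1⟩
  intro v hv h hh
  obtain ⟨Q, hQ, hQh, hyQ, hQv, hdQ⟩ := hcomp v hv
  exact hQv h (hsame P Q hP hQ hPh hQh hyP hyQ hdP hdQ hh)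

end Prime

section Proj

variable {ρ : Type*} [Fintype ρ] [DecidableEq ρ] {n : ℕ}

/-- Projection from a point. -/
structure ProjS (x : ρ → ℂ) (u : Fin n → (ρ → ℂ)) (π : (ρ → ℂ) →ₗ[ℂ] (Fin n → ℂ))
    (ξ : (ρ → ℂ) →ₗ[ℂ] ℂ) : Prop where
  dec : ∀ p, p = ξ p • x + comb u (π p)
  πx : π x = 0
  πu : ∀ v, π (comb u v) = v
  ξx : ξ x = 1
  ξu : ∀ v, ξ (comb u v) = 0

lemma exists_projS {x : ρ → ℂ} {u : Fin n → (ρ → ℂ)}
    (hbas : LinearIndependent ℂ (Fin.cons x u : Fin (n + 1) → (ρ → ℂ)))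
    (hn : n + 1 = Fintype.card ρ) : ∃ π ξ, ProjS x u π ξ := by
  set Φ : (Fin (n + 1) → ℂ) ≃ₗ[ℂ] (ρ → ℂ) :=
    LinearEquiv.ofInjectiveOfFinrankEq (comb (Fin.cons x u : Fin (n + 1) → (ρ → ℂ)))
      (comb_injective hbas) (by
      rw [Module.finrank_fintype_fun_eq_card, Module.finrank_fintype_fun_eq_card,
        Fintype.card_fin, hn]) with hΦ
  have hΦapp : ∀ s v, Φ (Fin.cons s v) = s • x + comb u v := fun s v => comb_cons x u s v
  have hx : Φ.symm x = Fin.cons 1 0 := by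
    rw [LinearEquiv.symm_apply_eq, hΦapp, one_smul, map_zero, add_zero]
  have hu : ∀ v, Φ.symm (comb u v) = Fin.cons 0 v := by
    intro v
    rw [LinearEquiv.symm_apply_eq, hΦapp, zero_smul, zero_add]
  refine ⟨(LinearMap.funLeft ℂ ℂ Fin.succ) ∘ₗ (Φ.symm : (ρ → ℂ) →ₗ[ℂ] (Fin (n + 1) → ℂ)),
    (LinearMap.proj 0) ∘ₗ (Φ.symm : (ρ → ℂ) →ₗ[ℂ] (Fin (n + 1) → ℂ)), ?_, ?_, ?_, ?_, ?_⟩
  · intro p
    have h1 : p = Φ (Φ.symm p) := (LinearEquiv.apply_symm_apply _ _).symm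
    have h2 : Φ.symm p = Fin.cons (Φ.symm p 0) (fun i => Φ.symm p i.succ) := by
      exact (Fin.cons_self_tail _).symm
    rw [h2, hΦapp] at h1
    exact h1
  · funext k
    show Φ.symm x k.succ = 0
    rw [hx, Fin.cons_succ]
    rfl
  · intro v
    funext k
    show Φ.symm (comb u v) k.succ = v k
    rw [hu, Fin.cons_succ]
  · show Φ.symm x 0 = 1
    rw [hx, Fin.cons_zero]
  · intro v
    show Φ.symm (comb u v) 0 = 0
    rw [hu, Fin.cons_zero]

variable {x : ρ → ℂ} {u : Fin n → (ρ → ℂ)} {π : (ρ → ℂ) →ₗ[ℂ] (Fin n → ℂ)}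
  {ξ : (ρ → ℂ) →ₗ[ℂ] ℂ}

/-- Two linear forms which form a regular sequence modulo the cone. -/
theorem ProjS.exists_reg {κ : Type*} [Fintype κ] (hπ : ProjS x u π ξ)
    (hn : n + 1 = Fintype.card ρ) (y : κ → MvPolynomial (Fin n) ℂ)
    (hy : ∀ k, ∃ e, (y k).IsHomogeneous (e + 1))
    (hli : ∀ v ≠ 0, (∀ k, eval v (y k) = 0) → LinearIndependent ℂ (fun k => grad v (y k)))
    (hcard : 2 * Fintype.card κ < n) (hcard2 : Fintype.card κ + 2 ≤ n) :
    ∃ l l' : MvPolynomial ρ ℂ, l.IsHomogeneous 1 ∧ l'.IsHomogeneous 1 ∧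
      (∀ p, π p = 0 → eval p l = 0 ∧ eval p l' = 0) ∧
      (∀ g, l * g ∈ Ideal.span (Set.range fun k => lsub π (y k)) →
        g ∈ Ideal.span (Set.range fun k => lsub π (y k))) ∧
      (∀ g, l' * g ∈ Ideal.span (Set.range fun k => lsub π (y k)) ⊔ Ideal.span {l} →
        g ∈ Ideal.span (Set.range fun k => lsub π (y k)) ⊔ Ideal.span {l}) := by
  classical
  obtain ⟨P, hP, hPh, hyP, hPv, hdP, hdP'⟩ := exists_prime_cone y hy hli
    (by rw [Fintype.card_fin]; exact hcard)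
  obtain ⟨m, hm⟩ : ∃ m, Fintype.card κ = m := ⟨_, rfl⟩
  rw [hm] at hdP' hcard hcard2
  have e : Fin m ≃ κ := (Fintype.equivFinOfCardEq hm).symm
  choose d hd using hy
  obtain ⟨b, hb, hbcon⟩ := exists_flag P hPh (c := m) (by rw [Fintype.card_fin]; omega) hdP'
    (fun i => y (e i)) (fun i => d (e i) + 1) (fun i => hd (e i)) (fun i => Nat.succ_pos _)
    (fun p hp => hPv p (fun k => by
      have := hp (e.symm k)
      simpa using this)) m le_rfl
  -- the basis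
  have hxne : x ≠ 0 := by
    rintro rfl
    have h1 := hπ.ξx
    rw [map_zero] at h1
    exact zero_ne_one h1
  have hv0 : LinearIndependent ℂ (Fin.snoc (fun j => comb u (b j)) x : Fin (m + 1) → (ρ → ℂ)) := by
    refine linearIndependent_finSnoc.mpr ⟨?_, ?_⟩
    · apply LinearIndependent.of_comp π
      have h1 : (π ∘ fun j => comb u (b j)) = b := funext fun j => hπ.πu _
      rw [h1]
      exact hb
    · intro hx
      obtain ⟨t, ht⟩ := (Submodule.mem_span_range_iff_exists_fun _).mp hx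
      apply hxne
      have h1 : ∑ j, t j • b j = 0 := by
        have h2 := congrArg π ht
        rw [hπ.πx, map_sum] at h2
        rw [← h2]
        refine Finset.sum_congr rfl (fun j _ => ?_)
        rw [map_smul, hπ.πu]
      have h2 := Fintype.linearIndependent_iff.mp hb t h1
      rw [← ht]
      exact Finset.sum_eq_zero (fun j _ => by rw [h2 j, zero_smul])
  obtain ⟨r, hr⟩ : ∃ r, m + 1 + r = Fintype.card ρ := ⟨Fintype.card ρ - (m + 1), by omega⟩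
  obtain ⟨v', hv', hv'0⟩ := extend_li _ hv0 r (by
    rw [Module.finrank_fintype_fun_eq_card]; omega)
  have hinj := comb_injective hv'
  set Φ : (Fin (m + 1 + r) → ℂ) ≃ₗ[ℂ] (ρ → ℂ) :=
    LinearEquiv.ofInjectiveOfFinrankEq (comb v') hinj (by
      rw [Module.finrank_fintype_fun_eq_card, Module.finrank_fintype_fun_eq_card,
        Fintype.card_fin, hr]) with hΦ
  have hΦapp : ∀ z, Φ z = comb v' z := fun z => rfl
  -- the flag
  set G' : ℕ → MvPolynomial (Fin (m + 1 + r)) ℂ := fun i => if h : i < m then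
    lsub (Φ : (Fin (m + 1 + r) → ℂ) →ₗ[ℂ] (ρ → ℂ)) (lsub π (y (e ⟨i, h⟩))) else 0 with hG'
  set e' : ℕ → ℕ := fun i => if h : i < m then d (e ⟨i, h⟩) + 1 else 0 with he'
  have hG'h : ∀ i, (G' i).IsHomogeneous (e' i) := by
    intro i
    simp only [hG', he']
    split_ifs with h
    · exact isHomogeneous_lsub _ _ _ (isHomogeneous_lsub _ _ _ (hd _))
    · exact isHomogeneous_zero _ _ _
  have hG'i : ∀ i (h : i < m), G' i =
      lsub (Φ : (Fin (m + 1 + r) → ℂ) →ₗ[ℂ] (ρ → ℂ)) (lsub π (y (e ⟨i, h⟩))) := by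
    intro i h
    simp only [hG']
    rw [dif_pos h]
  have hV : ∀ q, q ≤ m → ∀ z : Fin (m + 1 + r) → ℂ,
      (∀ j : Fin (m + 1 + r), q ≤ j → z j = 0) → (∀ i < q, eval z (G' i) = 0) → z = 0 := by
    intro q hq z hz hzG
    have hπz : π (Φ z) = comb b (fun j => z (Fin.castAdd r (Fin.castSucc j))) := by
      have h1 : Φ z = comb u (comb b (fun j => z (Fin.castAdd r (Fin.castSucc j)))) := by
        rw [hΦapp, comb_apply, Fin.sum_univ_add]
        have h2 : ∑ i : Fin r, z (Fin.natAdd (m + 1) i) • v' (Fin.natAdd (m + 1) i) = 0 := by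
          refine Finset.sum_eq_zero (fun i _ => ?_)
          rw [hz _ (by simp; omega), zero_smul]
        rw [h2, add_zero]
        simp only [hv'0]
        rw [Fin.sum_univ_castSucc]
        simp only [Fin.snoc_castSucc, Fin.snoc_last]
        rw [hz (Fin.castAdd r (Fin.last m)) (by simp; omega), zero_smul, add_zero,
          comb_apply b, map_sum]
        exact Finset.sum_congr rfl (fun j _ => (map_smul _ _ _).symm)
      rw [h1, hπ.πu]
    have h1 : (fun j : Fin m => z (Fin.castAdd r (Fin.castSucc j))) = 0 := by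
      refine hbcon q hq _ (fun j hj => hz _ (by simpa using hj)) (fun i hi => ?_)
      have h2 := hzG i hi
      rw [hG'i i i.2, eval_lsub, eval_lsub] at h2
      have h3 : (Φ : (Fin (m + 1 + r) → ℂ) →ₗ[ℂ] (ρ → ℂ)) z = Φ z := rfl
      rw [h3, hπz] at h2
      exact h2
    funext i
    by_cases hi : (i : ℕ) < m
    · have h2 := congrFun h1 ⟨i, hi⟩
      have h3 : Fin.castAdd r (Fin.castSucc (⟨i, hi⟩ : Fin m)) = i := Fin.ext (by simp)
      rw [h3] at h2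
      exact h2
    · exact hz i (by omega)
  have hN := nz_main hG'h (c := m) (by omega) hV m le_rfl
  -- transport
  set J : Ideal (MvPolynomial ρ ℂ) := Ideal.span (Set.range fun k => lsub π (y k)) with hJ
  set Ψ := lequiv Φ with hΨ
  have hΨs : ∀ g, lsub (Φ.symm : (ρ → ℂ) →ₗ[ℂ] (Fin (m + 1 + r) → ℂ))
      (lsub (Φ : (Fin (m + 1 + r) → ℂ) →ₗ[ℂ] (ρ → ℂ)) g) = g := lsub_symm_lsub Φ
  have hΨs' : ∀ g, lsub (Φ : (Fin (m + 1 + r) → ℂ) →ₗ[ℂ] (ρ → ℂ))
      (lsub (Φ.symm : (ρ → ℂ) →ₗ[ℂ] (Fin (m + 1 + r) → ℂ)) g) = g := lsub_lsub_symm Φ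
  have hJt : Jt G' (m + 1 + r) m = Ideal.span (Set.range fun k =>
      lsub (Φ : (Fin (m + 1 + r) → ℂ) →ₗ[ℂ] (ρ → ℂ)) (lsub π (y k))) := by
    rw [Jt]
    congr 1
    ext f
    constructor
    · rintro (⟨j, hj, rfl⟩ | ⟨i, hi, rfl⟩)
      · exact absurd j.2 (by have : m + 1 + r ≤ (j : ℕ) := hj; omega)
      · exact ⟨e ⟨i, hi⟩, (hG'i i hi).symm⟩
    · rintro ⟨k, rfl⟩
      refine Or.inr ⟨(e.symm k : ℕ), (e.symm k).2, ?_⟩
      rw [hG'i _ (e.symm k).2]
      simp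
  have hmap : ∀ g, g ∈ J → lsub (Φ : (Fin (m + 1 + r) → ℂ) →ₗ[ℂ] (ρ → ℂ)) g ∈
      Jt G' (m + 1 + r) m := by
    intro g hg
    have h1 := Ideal.mem_map_of_mem (lsub (Φ : (Fin (m + 1 + r) → ℂ) →ₗ[ℂ] (ρ → ℂ))) hg
    rw [hJ, Ideal.map_span, ← Set.range_comp] at h1
    rw [hJt]
    exact h1
  have hmap' : ∀ g, g ∈ Jt G' (m + 1 + r) m →
      lsub (Φ.symm : (ρ → ℂ) →ₗ[ℂ] (Fin (m + 1 + r) → ℂ)) g ∈ J := by
    intro g hg
    rw [hJt] at hg
    have h1 := Ideal.mem_map_of_mem (lsub (Φ.symm : (ρ → ℂ) →ₗ[ℂ] (Fin (m + 1 + r) → ℂ))) hg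
    rw [Ideal.map_span, ← Set.range_comp] at h1
    refine Ideal.span_mono ?_ h1
    rintro _ ⟨k, rfl⟩
    exact ⟨k, (hΨs _).symm⟩
  have hr2 : 2 ≤ r := by omega
  set X1 : MvPolynomial (Fin (m + 1 + r)) ℂ := X ⟨m + r, by omega⟩ with hX1
  set X2 : MvPolynomial (Fin (m + 1 + r)) ℂ := X ⟨m + r - 1, by omega⟩ with hX2
  set l := lsub (Φ.symm : (ρ → ℂ) →ₗ[ℂ] (Fin (m + 1 + r) → ℂ)) X1 with hl
  set l' := lsub (Φ.symm : (ρ → ℂ) →ₗ[ℂ] (Fin (m + 1 + r) → ℂ)) X2 with hl'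
  have hll : lsub (Φ : (Fin (m + 1 + r) → ℂ) →ₗ[ℂ] (ρ → ℂ)) l = X1 := hΨs' _
  have hll' : lsub (Φ : (Fin (m + 1 + r) → ℂ) →ₗ[ℂ] (ρ → ℂ)) l' = X2 := hΨs' _
  have hJtX : Jt G' (m + r) m = Jt G' (m + 1 + r) m ⊔ Ideal.span {X1} := by
    rw [Jt_X (m + r) m (by omega)]
    have h1 : m + r + 1 = m + 1 + r := by omega
    rw [h1]
  have hvanish : ∀ p, π p = 0 → ∀ j : Fin (m + 1 + r), (j : ℕ) ≠ m → Φ.symm p j = 0 := by
    intro p hp j hj
    have h1 : p = ξ p • x := by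
      have h2 := hπ.dec p
      rwa [hp, map_zero, add_zero] at h2
    have h2 : Φ.symm x = Pi.single (Fin.castAdd r (Fin.last m)) 1 := by
      rw [LinearEquiv.symm_apply_eq, hΦapp, comb_apply]
      rw [Finset.sum_eq_single (Fin.castAdd r (Fin.last m))]
      · rw [Pi.single_eq_same, one_smul, hv'0, Fin.snoc_last]
      · intro j _ hj
        rw [Pi.single_eq_of_ne hj, zero_smul]
      · intro h; exact absurd (Finset.mem_univ _) h
    rw [h1, map_smul, h2, Pi.smul_apply, Pi.single_eq_of_ne, smul_zero]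
    intro h3
    apply hj
    rw [h3]
    simp
  refine ⟨l, l', isHomogeneous_lsub _ _ _ (isHomogeneous_X _ _),
    isHomogeneous_lsub _ _ _ (isHomogeneous_X _ _), ?_, ?_, ?_⟩
  · intro p hp
    rw [hl, hl', eval_lsub, eval_lsub, hX1, hX2, eval_X, eval_X]
    refine ⟨hvanish p hp _ ?_, hvanish p hp _ ?_⟩
    · simp only; omega
    · simp only; omega
  · intro g hg
    have h1 := hmap _ hg
    rw [map_mul, hll] at h1
    have h2 := hN (m + r) (by omega) (by omega)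
    have h3 : m + r + 1 = m + 1 + r := by omega
    rw [h3] at h2
    have h4 := hmap' _ (h2.all (Jt_HI hG'h _ _) (isHomogeneous_X _ _) h1)
    rwa [hΨs] at h4
  · intro g hg
    obtain ⟨a, ha, b', hb', hab⟩ := Submodule.mem_sup.mp hg
    obtain ⟨t, rfl⟩ := Ideal.mem_span_singleton'.mp hb'
    have h1 : X2 * lsub (Φ : (Fin (m + 1 + r) → ℂ) →ₗ[ℂ] (ρ → ℂ)) g ∈ Jt G' (m + r) m := by
      rw [← hll', ← map_mul, ← hab, map_add, map_mul, hll, hJtX]
      exact Ideal.add_mem _ (Ideal.mem_sup_left (hmap _ ha)) (Ideal.mem_sup_right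
        (Ideal.mul_mem_left _ _ (Ideal.mem_span_singleton_self _)))
    have h2 := hN (m + r - 1) (by omega) (by omega)
    have h3 : m + r - 1 + 1 = m + r := by omega
    rw [h3] at h2
    have h4 := h2.all (Jt_HI hG'h _ _) (isHomogeneous_X _ _) h1
    rw [hJtX] at h4
    obtain ⟨a', ha', b'', hb'', hab'⟩ := Submodule.mem_sup.mp h4
    obtain ⟨t', rfl⟩ := Ideal.mem_span_singleton'.mp hb''
    rw [← hΨs g, ← hab', map_add, map_mul]
    exact Ideal.add_mem _ (Ideal.mem_sup_left (hmap' _ ha')) (Ideal.mem_sup_right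
      (Ideal.mul_mem_left _ _ (Ideal.mem_span_singleton_self _)))

end Proj

section Hartogs

variable {ρ : Type*} [Fintype ρ] [DecidableEq ρ]

lemma nz_pow {J : Ideal (MvPolynomial ρ ℂ)} {l : MvPolynomial ρ ℂ}
    (hl : ∀ g, l * g ∈ J → g ∈ J) (M : ℕ) : ∀ g, l ^ M * g ∈ J → g ∈ J := by
  induction M with
  | zero => intro g h; simpa using h
  | succ M ih =>
    intro g h
    apply ih
    apply hl
    rwa [← mul_assoc, ← pow_succ']

/-- A Nullstellensatz for the set where a local property holds. -/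
lemma exists_pow_of_local (𝔡 : Ideal (MvPolynomial ρ ℂ)) (l : MvPolynomial ρ ℂ)
    (h : ∀ p, eval p l ≠ 0 → ∃ u ∈ 𝔡, eval p u ≠ 0) : ∃ M, l ^ M ∈ 𝔡 := by
  have hg : l ∈ 𝔡.radical := by
    rw [← vanishingIdeal_zeroLocus_eq_radical (K := ℂ), mem_vanishingIdeal_iff]
    intro z hz
    rw [mem_zeroLocus_iff] at hz
    by_contra hne
    rw [aeval_eq_eval] at hne
    obtain ⟨u, hu, huz⟩ := h z hne
    have h3 := hz u hu
    rw [aeval_eq_eval] at h3
    exact huz h3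
  exact hg

/-- The ideal is radical. -/
theorem rad_of_reg {κ : Type*} [Fintype κ] (Y : κ → MvPolynomial ρ ℂ) (l : MvPolynomial ρ ℂ)
    (hl : ∀ g, l * g ∈ Ideal.span (Set.range Y) → g ∈ Ideal.span (Set.range Y))
    (hli : ∀ p, eval p l ≠ 0 → (∀ k, eval p (Y k) = 0) →
      LinearIndependent ℂ (fun k => grad p (Y k))) {g : MvPolynomial ρ ℂ}
    (hg : ∀ p, (∀ k, eval p (Y k) = 0) → eval p g = 0) : g ∈ Ideal.span (Set.range Y) := by
  let 𝔠 : Ideal (MvPolynomial ρ ℂ) :=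
    { carrier := {u | u * g ∈ Ideal.span (Set.range Y)}
      zero_mem' := by
        show 0 * g ∈ Ideal.span (Set.range Y)
        rw [zero_mul]; exact Ideal.zero_mem _
      add_mem' := by
        intro a b ha hb
        show (a + b) * g ∈ Ideal.span (Set.range Y)
        rw [add_mul]; exact Ideal.add_mem _ ha hb
      smul_mem' := by
        intro a b hb
        show (a • b) * g ∈ Ideal.span (Set.range Y)
        rw [smul_eq_mul, mul_assoc]; exact Ideal.mul_mem_left _ _ hb }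
  obtain ⟨M, hM⟩ := exists_pow_of_local 𝔠 l (by
    intro p hp
    by_cases hY : ∀ k, eval p (Y k) = 0
    · obtain ⟨u, hu, hm⟩ := local_rad Y p hY (hli p hp hY) hg
      exact ⟨u, hm, hu⟩
    · push Not at hY
      obtain ⟨k, hk⟩ := hY
      have h1 : Y k * g ∈ Ideal.span (Set.range Y) :=
        Ideal.mul_mem_right _ _ (Ideal.subset_span ⟨k, rfl⟩)
      exact ⟨Y k, h1, hk⟩)
  exact nz_pow hl M g hM

/-- Extension of regular functions. -/
theorem hartogsJ (J : Ideal (MvPolynomial ρ ℂ)) (l l' : MvPolynomial ρ ℂ)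
    (hl : ∀ g, l * g ∈ J → g ∈ J)
    (hl' : ∀ g, l' * g ∈ J ⊔ Ideal.span {l} → g ∈ J ⊔ Ideal.span {l})
    (hrad : ∀ g, (∀ p, (∀ h ∈ J, eval p h = 0) → eval p g = 0) → g ∈ J)
    (Z : Set (ρ → ℂ)) (hZ : ∀ p ∈ Z, ∀ h ∈ J, eval p h = 0)
    (hZ' : ∀ p, (∀ h ∈ J, eval p h = 0) → p ∉ Z → eval p l = 0 ∧ eval p l' = 0)
    (φ : (ρ → ℂ) → ℂ) (hφ : ∀ q ∈ Z, ∃ A B : MvPolynomial ρ ℂ, eval q B ≠ 0 ∧
      ∀ p ∈ Z, eval p B ≠ 0 → φ p * eval p B = eval p A) :
    ∃ f : MvPolynomial ρ ℂ, ∀ p ∈ Z, φ p = eval p f := by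
  let 𝔡 : Ideal (MvPolynomial ρ ℂ) :=
    { carrier := {Q | ∃ A, ∀ p ∈ Z, φ p * eval p Q = eval p A}
      zero_mem' := ⟨0, fun p _ => by simp⟩
      add_mem' := by
        rintro a b ⟨A, hA⟩ ⟨B, hB⟩
        refine ⟨A + B, fun p hp => ?_⟩
        rw [map_add, map_add, mul_add, hA p hp, hB p hp]
      smul_mem' := by
        rintro c a ⟨A, hA⟩
        refine ⟨c * A, fun p hp => ?_⟩
        rw [smul_eq_mul, map_mul, map_mul, ← hA p hp]
        ring }
  have hloc : ∀ p, (eval p l ≠ 0 ∨ eval p l' ≠ 0) → ∃ u ∈ 𝔡, eval p u ≠ 0 := by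
    intro p hp
    by_cases hpJ : ∀ h ∈ J, eval p h = 0
    · have hpZ : p ∈ Z := by
        by_contra hpZ
        obtain ⟨h1, h2⟩ := hZ' p hpJ hpZ
        rcases hp with hp | hp
        · exact hp h1
        · exact hp h2
      obtain ⟨A, B, hB, hAB⟩ := hφ p hpZ
      refine ⟨B ^ 2, ⟨A * B, fun q hq => ?_⟩, ?_⟩
      · by_cases hqB : eval q B = 0
        · rw [map_pow, map_mul, hqB]; ring
        · rw [map_pow, map_mul, ← hAB q hq hqB]; ring
      · rw [map_pow]; exact pow_ne_zero _ hB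
    · push Not at hpJ
      obtain ⟨h, hh, hph⟩ := hpJ
      exact ⟨h, ⟨0, fun q hq => by rw [hZ q hq h hh, map_zero, mul_zero]⟩, hph⟩
  obtain ⟨M₁, hM₁⟩ := exists_pow_of_local 𝔡 l (fun p hp => hloc p (Or.inl hp))
  obtain ⟨M₂, hM₂⟩ := exists_pow_of_local 𝔡 l' (fun p hp => hloc p (Or.inr hp))
  obtain ⟨A, hA⟩ : ∃ A, ∀ p ∈ Z, φ p * eval p (l ^ (M₁ + 1)) = eval p A :=
    𝔡.mul_mem_right l hM₁
  obtain ⟨A', hA'⟩ : ∃ A, ∀ p ∈ Z, φ p * eval p (l' ^ (M₂ + 1)) = eval p A :=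
    𝔡.mul_mem_right l' hM₂
  -- the relation
  have hrel : l' ^ (M₂ + 1) * (l * A) - l ^ (M₁ + 1) * (l * A') ∈ J := by
    apply hrad
    intro p hp
    by_cases hpZ : p ∈ Z
    · rw [map_sub, map_mul, map_mul, map_mul, map_mul, ← hA p hpZ, ← hA' p hpZ]
      ring
    · obtain ⟨h1, h2⟩ := hZ' p hp hpZ
      rw [map_sub, map_mul, map_mul, map_mul, map_mul, h1]
      ring
  have hreg := reg_pow (M' := MvPolynomial ρ ℂ) J l l' hl (by
    rintro a ⟨m, hm, b, hab⟩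
    have h1 := hl' a (by
      rw [← smul_eq_mul, hab]
      refine Ideal.add_mem _ (Ideal.mem_sup_left hm) (Ideal.mem_sup_right ?_)
      rw [smul_eq_mul]
      exact Ideal.mul_mem_right _ _ (Ideal.mem_span_singleton_self _))
    obtain ⟨m', hm', t, ht, hmt⟩ := Submodule.mem_sup.mp h1
    obtain ⟨b', rfl⟩ := Ideal.mem_span_singleton'.mp ht
    exact ⟨m', hm', b', by rw [← hmt, smul_eq_mul]; ring⟩) (M₁ + 1 + 1) (M₂ + 1) (l * A) (by
    refine ⟨_, hrel, A', ?_⟩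
    rw [smul_eq_mul, smul_eq_mul]
    ring)
  obtain ⟨m, hm, f, hf⟩ := hreg
  rw [smul_eq_mul] at hf
  have hAf : A - l ^ (M₁ + 1) * f ∈ J := by
    apply hl
    have h1 : l * (A - l ^ (M₁ + 1) * f) = m := by
      have h2 : l * A = m + l ^ (M₁ + 1 + 1) * f := hf
      rw [mul_sub, h2]
      ring
    rw [h1]
    exact hm
  refine ⟨f, fun p hp => ?_⟩
  have hlne : ∀ q ∈ Z, eval q l ≠ 0 → φ q = eval q f := by
    intro q hq hql
    have h1 := hZ q hq _ hAf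
    rw [map_sub, map_mul, ← hA q hq, sub_eq_zero, map_pow] at h1
    have h2 : eval q l ^ (M₁ + 1) ≠ 0 := pow_ne_zero _ hql
    exact mul_left_cancel₀ h2 (by rw [← h1]; ring)
  obtain ⟨A₁, B₁, hB₁, hAB₁⟩ := hφ p hp
  have h1 : f * B₁ ^ 2 - A₁ * B₁ ∈ J := by
    apply hl
    apply hrad
    intro q hq
    by_cases hql : eval q l = 0
    · rw [map_mul, hql, zero_mul]
    · have hqZ : q ∈ Z := by
        by_contra hqZ
        exact hql (hZ' q hq hqZ).1
      by_cases hqB : eval q B₁ = 0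
      · rw [map_mul, map_sub, map_mul, map_mul, map_pow, hqB]; ring
      · rw [map_mul, map_sub, map_mul, map_mul, map_pow, ← hlne q hqZ hql, ← hAB₁ q hqZ hqB]
        ring
  have h2 := hZ p hp _ h1
  rw [map_sub, map_mul, map_mul, map_pow, sub_eq_zero, ← hAB₁ p hp hB₁] at h2
  have h3 : eval p B₁ ^ 2 ≠ 0 := pow_ne_zero _ hB₁
  exact mul_right_cancel₀ h3 (by rw [h2]; ring)

end Hartogs

end Pool.Agent.Hartshorne
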