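import Mathlib
import Pool.Agent.Hartshorne.Ord
import Pool.Agent.Hartshorne.ZHart

/-!
Lifting the top equations of the cone of lines through a point to equations of the variety.
-/

namespace Pool.Agent.Hartshorne

open MvPolynomial

set_option linter.unusedSectionVars false

section Dual

variable {ρ : Type*} [Fintype ρ] [DecidableEq ρ]

lemma exists_dot {ι : Type*} {w : ι → (ρ → ℂ)} (hw : LinearIndependent ℂ w) (t : ι → ℂ) :
    ∃ y : ρ → ℂ, ∀ i, ∑ j, w i j * y j = t i := by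
  obtain ⟨g, hg⟩ := LinearMap.exists_extend (p := Submodule.span ℂ (Set.range w))
    ((Finsupp.linearCombination ℂ t) ∘ₗ (hw.repr : _ →ₗ[ℂ] (ι →₀ ℂ)))
  refine ⟨fun j => g (Pi.single j 1), fun i => ?_⟩
  have h1 : g (w i) = t i := by
    have h2 := LinearMap.congr_fun hg ⟨w i, Submodule.subset_span ⟨i, rfl⟩⟩
    rw [LinearMap.comp_apply, LinearMap.comp_apply] at h2
    have h3 : (hw.repr : _ →ₗ[ℂ] (ι →₀ ℂ)) ⟨w i, Submodule.subset_span ⟨i, rfl⟩⟩ =
        Finsupp.single i 1 := hw.repr_eq_single i _ rfl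
    rw [h3, Finsupp.linearCombination_single, one_smul] at h2
    exact h2
  rw [← h1]
  conv_rhs => rw [pi_eq_sum_univ' (w i), map_sum]
  refine Finset.sum_congr rfl (fun j _ => ?_)
  rw [map_smul, smul_eq_mul]

end Dual

section Lead

variable {ρ κ' : Type*} [Fintype ρ] [DecidableEq ρ] [Fintype κ']

lemma wc_zero_C (g : MvPolynomial ρ ℂ) :
    weightedHomogeneousComponent (1 : ρ → ℕ) 0 g = C (eval 0 g) := by
  rw [weightedHomogeneousComponent_zero (φ := g) (w := (1 : ρ → ℕ)) (fun _ => one_ne_zero),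
    eval_zero_eq_coeff]

/-- The leading form of a form in functions vanishing at a point. -/
lemma lead_eval (Θ : MvPolynomial κ' (MvPolynomial ρ ℂ)) {k : ℕ} (hΘ : Θ.IsHomogeneous k)
    (Y' : κ' → MvPolynomial ρ ℂ) (p : ρ → ℂ) (hY : ∀ k, eval p (Y' k) = 0) (y : ρ → ℂ) :
    Low (1 : ρ → ℕ) k (trans p (eval Y' Θ)) ∧
    eval y (weightedHomogeneousComponent (1 : ρ → ℕ) k (trans p (eval Y' Θ))) =
      eval (fun l => ∑ i, grad p (Y' l) i * y i) (map (eval p) Θ) := by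
  classical
  set T : MvPolynomial ρ ℂ →+* Polynomial (MvPolynomial ρ ℂ) :=
    (coact (1 : ρ → ℕ) : MvPolynomial ρ ℂ →+* Polynomial (MvPolynomial ρ ℂ)).comp
      (trans p : MvPolynomial ρ ℂ →+* MvPolynomial ρ ℂ) with hT
  have hTapp : ∀ g, T g = coact (1 : ρ → ℕ) (trans p g) := fun g => rfl
  have hTc : ∀ g, (T g).coeff 0 = C (eval p g) := by
    intro g
    rw [hTapp, coeff_coact, wc_zero_C, eval_trans, zero_add]
  have hdvd : ∀ l, ∃ q, T (Y' l) = Polynomial.X * q := by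
    intro l
    have h1 : (Polynomial.X : Polynomial (MvPolynomial ρ ℂ)) ∣ T (Y' l) := by
      rw [Polynomial.X_dvd_iff, hTc, hY, C_0]
    exact h1
  choose q hq using hdvd
  set R : Polynomial (MvPolynomial ρ ℂ) := ∑ d ∈ Θ.support, T (coeff d Θ) * ∏ i, q i ^ d i with hR
  have hmain : T (eval Y' Θ) = Polynomial.X ^ k * R := by
    rw [eval_eq', map_sum, hR, Finset.mul_sum]
    refine Finset.sum_congr rfl (fun d hd => ?_)
    rw [map_mul, map_prod]
    have h1 : ∏ i, T (Y' i ^ d i) = Polynomial.X ^ k * ∏ i, q i ^ d i := by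
      have h2 : ∀ i, T (Y' i ^ d i) = Polynomial.X ^ d i * q i ^ d i := by
        intro i
        rw [map_pow, hq, mul_pow]
      rw [Finset.prod_congr rfl (fun i _ => h2 i), Finset.prod_mul_distrib,
        Finset.prod_pow_eq_pow_sum]
      congr 2
      have h3 := hΘ (mem_support_iff.mp hd)
      rw [← h3, Finsupp.weight_apply, Finsupp.sum_fintype _ _ (fun i => by simp)]
      refine Finset.sum_congr rfl (fun i _ => ?_)
      simp
    rw [h1]
    ring
  constructor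
  · rw [low_iff_dvd, ← hTapp, hmain]
    exact Dvd.intro _ rfl
  · rw [← coeff_coact, ← hTapp, hmain]
    have h1 := Polynomial.coeff_X_pow_mul R k 0
    rw [zero_add] at h1
    rw [h1]
    have h2 : R.coeff 0 = Polynomial.constantCoeff R := rfl
    rw [h2, hR, map_sum, map_sum, eval_map, eval₂_eq']
    refine Finset.sum_congr rfl (fun d _ => ?_)
    rw [map_mul, map_mul]
    congr 1
    · have h3 : Polynomial.constantCoeff (T (coeff d Θ)) = C (eval p (coeff d Θ)) := hTc _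
      rw [h3, eval_C]
    · rw [map_prod, map_prod]
      refine Finset.prod_congr rfl (fun i _ => ?_)
      rw [map_pow, map_pow]
      congr 1
      have h3 : Polynomial.constantCoeff (q i) =
          weightedHomogeneousComponent (1 : ρ → ℕ) 1 (trans p (Y' i)) := by
        rw [← coeff_coact, ← hTapp, hq]
        have h4 := Polynomial.coeff_X_pow_mul (q i) 1 0
        rw [zero_add, pow_one] at h4
        exact h4.symm
      rw [h3]
      have h5 := eval_hc_one (trans p (Y' i)) y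
      rw [grad_trans] at h5
      exact h5

end Lead

section ZSet

variable {ρ κ' : Type*} [Fintype ρ] [DecidableEq ρ] [Fintype κ'] {c : ℕ}

/-- Local membership along a set. -/
def LocZ (Z : Set (ρ → ℂ)) (K : Ideal (MvPolynomial ρ ℂ)) (g : MvPolynomial ρ ℂ) : Prop :=
  ∀ p ∈ Z, ∃ u, eval p u ≠ 0 ∧ u * g ∈ K

/-- A complete intersection cone in a variety. -/
structure ZS (I : Ideal (MvPolynomial ρ ℂ)) (Y' : κ' → MvPolynomial ρ ℂ)
    (e' : κ' → ℕ) (Yl : Fin c → MvPolynomial ρ ℂ) (el : Fin c → ℕ) (Z : Set (ρ → ℂ)) : Prop where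
  hI : I.IsPrime
  hhom : HI I
  hdim : ((Fintype.card ρ : ℕ) : WithBot ℕ∞) ≤
      ringKrullDim (MvPolynomial ρ ℂ ⧸ I) + (c : WithBot ℕ∞)
  hY' : ∀ k, (Y' k).IsHomogeneous (e' k)
  hYl : ∀ i, (Yl i).IsHomogeneous (el i)
  zY : ∀ p ∈ Z, ∀ k, eval p (Sum.elim Y' Yl k) = 0
  cone : ∀ p, (∀ k, eval p (Sum.elim Y' Yl k) = 0) → ∀ h ∈ I, eval p h = 0
  sep : ∀ p ∈ Z, ∃ l : MvPolynomial ρ ℂ, l.IsHomogeneous 1 ∧ eval p l ≠ 0 ∧
    ∀ q, (∀ k, eval q (Sum.elim Y' Yl k) = 0) → eval q l ≠ 0 → q ∈ Z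
  hli : ∀ p ∈ Z, LinearIndependent ℂ (fun k => grad p (Sum.elim Y' Yl k))
  hh : ∀ p ∈ Z, ∃ h : Fin c → MvPolynomial ρ ℂ, (∀ i, h i ∈ I) ∧
    LinearIndependent ℂ (fun k => grad p (Sum.elim Y' h k))
  hart : ∀ φ : (ρ → ℂ) → ℂ, (∀ q ∈ Z, ∃ A B : MvPolynomial ρ ℂ, eval q B ≠ 0 ∧
      ∀ p ∈ Z, eval p B ≠ 0 → φ p * eval p B = eval p A) →
    ∃ f : MvPolynomial ρ ℂ, ∀ p ∈ Z, φ p = eval p f

variable {I : Ideal (MvPolynomial ρ ℂ)} {Y' : κ' → MvPolynomial ρ ℂ}
    {e' : κ' → ℕ} {Yl : Fin c → MvPolynomial ρ ℂ} {el : Fin c → ℕ} {Z : Set (ρ → ℂ)}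
    {K : Ideal (MvPolynomial ρ ℂ)}

/-- The ideal of all equations. -/
noncomputable def jAll (Y' : κ' → MvPolynomial ρ ℂ) (Yl : Fin c → MvPolynomial ρ ℂ) :
    Ideal (MvPolynomial ρ ℂ) := Ideal.span (Set.range (Sum.elim Y' Yl))

lemma mem_jAll (k : κ' ⊕ Fin c) : Sum.elim Y' Yl k ∈ jAll Y' Yl := Ideal.subset_span ⟨k, rfl⟩

/-- The ideal of the first equations. -/
noncomputable def jFst (Y' : κ' → MvPolynomial ρ ℂ) : Ideal (MvPolynomial ρ ℂ) :=
  Ideal.span (Set.range Y')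

lemma mem_jFst (k : κ') : Y' k ∈ jFst Y' := Ideal.subset_span ⟨k, rfl⟩

lemma jFst_le : jFst Y' ≤ jAll Y' Yl := by
  rw [jFst, Ideal.span_le]
  rintro _ ⟨k, rfl⟩
  exact mem_jAll (Sum.inl k)

lemma ZS.pow_mem (_hS : ZS I Y' e' Yl el Z) {k : ℕ} (hK : jAll Y' Yl ^ k ≤ K)
    {g : MvPolynomial ρ ℂ} (hg : LocZ Z K g) {l : MvPolynomial ρ ℂ}
    (hl : ∀ q, (∀ k, eval q (Sum.elim Y' Yl k) = 0) → eval q l ≠ 0 → q ∈ Z) :
    ∃ M, l ^ M * g ∈ K := by
  let 𝔡 : Ideal (MvPolynomial ρ ℂ) :=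
    { carrier := {u | u * g ∈ K}
      zero_mem' := by
        show 0 * g ∈ K
        rw [zero_mul]; exact Ideal.zero_mem _
      add_mem' := by
        intro a b ha hb
        show (a + b) * g ∈ K
        rw [add_mul]; exact Ideal.add_mem _ ha hb
      smul_mem' := by
        intro a b hb
        show (a • b) * g ∈ K
        rw [smul_eq_mul, mul_assoc]; exact Ideal.mul_mem_left _ _ hb }
  obtain ⟨M, hM⟩ := exists_pow_of_local 𝔡 l (by
    intro p hp
    by_cases hY : ∀ k, eval p (Sum.elim Y' Yl k) = 0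
    · obtain ⟨u, hu, hm⟩ := hg p (hl p hY hp)
      exact ⟨u, hm, hu⟩
    · push Not at hY
      obtain ⟨j, hj⟩ := hY
      refine ⟨(Sum.elim Y' Yl j) ^ k, ?_, ?_⟩
      · show (Sum.elim Y' Yl j) ^ k * g ∈ K
        exact Ideal.mul_mem_right _ _ (hK (Ideal.pow_mem_pow (mem_jAll j) k))
      · rw [map_pow]; exact pow_ne_zero _ hj)
  exact ⟨M, hM⟩

lemma ZS.hc (hS : ZS I Y' e' Yl el Z) {k : ℕ} (hK : jAll Y' Yl ^ k ≤ K) (hKH : HI K)
    {g : MvPolynomial ρ ℂ} (hg : LocZ Z K g) (e : ℕ) : LocZ Z K (homogeneousComponent e g) := by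
  intro p hp
  obtain ⟨l, hl1, hlp, hlZ⟩ := hS.sep p hp
  obtain ⟨M, hM⟩ := hS.pow_mem hK hg hlZ
  have hlM : (l ^ M).IsHomogeneous M := by
    have := hl1.pow M
    rwa [one_mul] at this
  refine ⟨l ^ M, by rw [map_pow]; exact pow_ne_zero _ hlp, ?_⟩
  have h1 := hKH _ hM (e + M)
  rw [mul_comm, homogeneousComponent_mul_right hlM, if_pos (Nat.le_add_left _ _),
    Nat.add_sub_cancel] at h1
  rwa [mul_comm]

lemma ZS.exists_unit (hS : ZS I Y' e' Yl el Z) {p : ρ → ℂ} (hp : p ∈ Z) :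
    ∃ u, eval p u ≠ 0 ∧ ∀ k, u * Sum.elim Y' Yl k ∈ I ⊔ jFst Y' := by
  classical
  have h1 : ∀ i, ∃ u, eval p u ≠ 0 ∧ u * Yl i ∈ I ⊔ jFst Y' := by
    intro i
    obtain ⟨Q, hQ, hYQ, hQp, hdim⟩ := exists_prime_at (Sum.elim Y' Yl) p (hS.zY p hp)
    obtain ⟨h, hhI, hli⟩ := hS.hh p hp
    have hhQ : ∀ i, h i ∈ Q := fun i => mem_of_eval_zero hQ (fun z hz =>
      hS.cone z (fun k => hz _ (hYQ k)) _ (hhI i))
    obtain ⟨u, hu, hm⟩ := (point_case' Q hQ p hQp (Sum.elim Y' h) (by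
      rintro (k | k)
      · exact hYQ (Sum.inl k)
      · exact hhQ k) hli).2 hdim (Yl i) (hYQ (Sum.inr i))
    refine ⟨u, hu, ?_⟩
    refine (Ideal.span_le.mpr ?_) hm
    rintro _ ⟨k | k, rfl⟩
    · exact Ideal.mem_sup_right (mem_jFst k)
    · exact Ideal.mem_sup_left (hhI k)
  choose u hu hm using h1
  refine ⟨∏ i, u i, ?_, ?_⟩
  · rw [map_prod]
    exact Finset.prod_ne_zero_iff.mpr (fun i _ => hu i)
  · rintro (k | k)
    · exact Ideal.mul_mem_left _ _ (Ideal.mem_sup_right (mem_jFst k))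
    · rw [← Finset.mul_prod_erase Finset.univ u (Finset.mem_univ k), mul_comm (u k), mul_assoc]
      exact Ideal.mul_mem_left _ _ (hm k)

lemma sup_pow_le {R : Type*} [CommRing R] (A B : Ideal R) (k : ℕ) : (A ⊔ B) ^ k ≤ A ⊔ B ^ k := by
  induction k with
  | zero => simp
  | succ k ih =>
    rw [pow_succ]
    refine (Ideal.mul_mono_left ih).trans ?_
    rw [Ideal.mul_le]
    intro r hr s hs
    obtain ⟨a, ha, b, hb, rfl⟩ := Submodule.mem_sup.mp hr
    obtain ⟨a', ha', b', hb', rfl⟩ := Submodule.mem_sup.mp hs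
    have h1 : (a + b) * (a' + b') = (a * (a' + b') + b * a') + b * b' := by ring
    rw [h1, pow_succ]
    exact Submodule.add_mem_sup (A.add_mem (A.mul_mem_right _ ha) (A.mul_mem_left _ ha'))
      (Ideal.mul_mem_mul hb hb')

lemma ZS.loc_pow (hS : ZS I Y' e' Yl el Z) {k : ℕ} {g : MvPolynomial ρ ℂ}
    (hg : LocZ Z (I ⊔ jAll Y' Yl ^ k) g) : LocZ Z (I ⊔ jFst Y' ^ k) g := by
  intro p hp
  obtain ⟨u, hu, hm⟩ := hg p hp
  obtain ⟨w, hw, hwm⟩ := hS.exists_unit hp
  refine ⟨w ^ k * u, ?_, ?_⟩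
  · rw [map_mul, map_pow]
    exact mul_ne_zero (pow_ne_zero _ hw) hu
  · rw [mul_assoc]
    obtain ⟨a, ha, b, hb, hab⟩ := Submodule.mem_sup.mp hm
    rw [← hab, mul_add]
    refine Ideal.add_mem _ (Ideal.mul_mem_left _ _ (Ideal.mem_sup_left ha)) ?_
    have h1 : Ideal.span {w} * jAll Y' Yl ≤ I ⊔ jFst Y' := by
      rw [jAll, Ideal.span_mul_span', Ideal.span_le]
      rintro _ ⟨x, hx, y, ⟨j, rfl⟩, rfl⟩
      rw [Set.mem_singleton_iff] at hx
      subst hx
      exact hwm j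
    have h2 : w ^ k * b ∈ (Ideal.span {w} * jAll Y' Yl) ^ k := by
      rw [mul_pow]
      exact Ideal.mul_mem_mul (Ideal.pow_mem_pow (Ideal.mem_span_singleton_self w) k) hb
    exact sup_pow_le I (jFst Y') k (Ideal.pow_right_mono h1 k h2)

/-- Uniqueness of the leading coefficients. -/
lemma ZS.coeff_van (hS : ZS I Y' e' Yl el Z) {p : ρ → ℂ} (hp : p ∈ Z)
    {Θ : MvPolynomial κ' (MvPolynomial ρ ℂ)} {k : ℕ} (hΘ : Θ.IsHomogeneous k)
    (hm : eval Y' Θ ∈ I) (α : κ' →₀ ℕ) : eval p (coeff α Θ) = 0 := by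
  classical
  obtain ⟨h, hhI, hli⟩ := hS.hh p hp
  have hYp : ∀ k, eval p (Y' k) = 0 := fun k => hS.zY p hp (Sum.inl k)
  have hpI : ∀ h ∈ I, eval p h = 0 := hS.cone p (hS.zY p hp)
  have key : map (eval p) Θ = 0 := by
    apply MvPolynomial.funext
    intro s
    rw [map_zero]
    obtain ⟨y, hy⟩ := exists_dot hli (Sum.elim s 0)
    obtain ⟨hlow, hlead⟩ := lead_eval Θ hΘ Y' p hYp y
    have h1 : (fun l => ∑ i, grad p (Y' l) i * y i) = s := funext fun l => hy (Sum.inl l)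
    rw [h1] at hlead
    rw [← hlead]
    have h2 := point_lead I hS.hI p hpI c h hhI (hli.comp Sum.inr Sum.inr_injective) hS.hdim hm
      (k := k) hlow
    have h3 : ∀ f ∈ Ideal.span (Set.range fun i => weightedHomogeneousComponent (fun _ : ρ => 1) 1
        (trans p (h i))), eval y f = 0 := by
      intro f hf
      have h4 : Ideal.span (Set.range fun i => weightedHomogeneousComponent (fun _ : ρ => 1) 1
        (trans p (h i))) ≤ RingHom.ker (eval y) := by
        rw [Ideal.span_le]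
        rintro _ ⟨i, rfl⟩
        rw [SetLike.mem_coe, RingHom.mem_ker]
        have h5 := eval_hc_one (trans p (h i)) y
        rw [grad_trans] at h5
        have h6 : eval y (weightedHomogeneousComponent (fun _ : ρ => 1) 1 (trans p (h i))) =
            ∑ j, grad p (h i) j * y j := h5
        simp only
        rw [h6]
        exact hy (Sum.inr i)
      exact h4 hf
    exact h3 _ h2
  have h1 := congrArg (coeff α) key
  rw [coeff_map, coeff_zero] at h1
  exact h1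

lemma HI.mul {J J' : Ideal (MvPolynomial ρ ℂ)} (hJ : HI J) (hJ' : HI J') : HI (J * J') := by
  intro f hf e
  refine Submodule.mul_induction_on hf ?_ ?_
  · intro a ha b hb
    have h1 : a * b = ∑ i ∈ Finset.range (a.totalDegree + 1), b * homogeneousComponent i a := by
      rw [← Finset.mul_sum, sum_homogeneousComponent, mul_comm]
    rw [h1, map_sum]
    refine Ideal.sum_mem _ (fun i _ => ?_)
    rw [homogeneousComponent_mul_right (homogeneousComponent_isHomogeneous _ _)]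
    split_ifs
    · rw [mul_comm ((homogeneousComponent (e - i)) b)]
      exact Ideal.mul_mem_mul (hJ a ha i) (hJ' b hb _)
    · exact Ideal.zero_mem _
  · intro a b ha hb
    rw [map_add]
    exact Ideal.add_mem _ ha hb

lemma HI.pow {J : Ideal (MvPolynomial ρ ℂ)} (hJ : HI J) (k : ℕ) : HI (J ^ k) := by
  induction k with
  | zero =>
    intro f _ e
    rw [pow_zero, Ideal.one_eq_top]
    exact Submodule.mem_top
  | succ k ih => rw [pow_succ]; exact ih.mul hJ

lemma ZS.jAll_HI (hS : ZS I Y' e' Yl el Z) : HI (jAll Y' Yl) := by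
  apply HI.span
  rintro _ ⟨k | k, rfl⟩
  · exact ⟨_, hS.hY' k⟩
  · exact ⟨_, hS.hYl k⟩

lemma ZS.jFst_HI (hS : ZS I Y' e' Yl el Z) : HI (jFst Y') := by
  apply HI.span
  rintro _ ⟨k, rfl⟩
  exact ⟨_, hS.hY' k⟩

lemma ZS.loc_van (hS : ZS I Y' e' Yl el Z) {g : MvPolynomial ρ ℂ} (hg : ∀ p ∈ Z, eval p g = 0) :
    LocZ Z (jAll Y' Yl) g := by
  intro p hp
  obtain ⟨l, -, hlp, hlZ⟩ := hS.sep p hp
  obtain ⟨u, hu, hm⟩ := local_rad (Sum.elim Y' Yl) p (hS.zY p hp) (hS.hli p hp) (g := l * g) (by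
    intro q hq
    rw [map_mul]
    by_cases hql : eval q l = 0
    · rw [hql, zero_mul]
    · rw [hg q (hlZ q hq hql), mul_zero])
  refine ⟨u * l, ?_, ?_⟩
  · rw [map_mul]
    exact mul_ne_zero hu hlp
  · rwa [mul_assoc]

lemma ZS.loc_eval (hS : ZS I Y' e' Yl el Z) {Θ : MvPolynomial κ' (MvPolynomial ρ ℂ)} {k : ℕ}
    (hΘ : Θ.IsHomogeneous k) (hv : ∀ α, ∀ p ∈ Z, eval p (coeff α Θ) = 0) :
    LocZ Z (jAll Y' Yl ^ (k + 1)) (eval Y' Θ) := by
  classical
  intro p hp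
  have h1 : ∀ α, ∃ u, eval p u ≠ 0 ∧ u * coeff α Θ ∈ jAll Y' Yl := fun α =>
    hS.loc_van (hv α) p hp
  choose u hu hm using h1
  refine ⟨∏ α ∈ Θ.support, u α, ?_, ?_⟩
  · rw [map_prod]
    exact Finset.prod_ne_zero_iff.mpr (fun i _ => hu i)
  · rw [eval_eq', Finset.mul_sum]
    refine Ideal.sum_mem _ (fun α hα => ?_)
    have h2 : (∏ i, Y' i ^ α i) ∈ jAll Y' Yl ^ k := by
      have h3 := hΘ (mem_support_iff.mp hα)
      have h4 : ∑ i, α i = k := by
        rw [← h3, Finsupp.weight_apply, Finsupp.sum_fintype _ _ (fun i => by simp)]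
        exact Finset.sum_congr rfl (fun i _ => by simp)
      rw [← h4, ← Finset.prod_pow_eq_pow_sum]
      exact Ideal.prod_mem_prod (fun i _ => Ideal.pow_mem_pow (mem_jAll (Sum.inl i)) _)
    rw [pow_succ', ← Finset.mul_prod_erase _ u hα]
    have h5 : u α * (∏ x ∈ Θ.support.erase α, u x) * (coeff α Θ * ∏ i, Y' i ^ α i) =
        (∏ x ∈ Θ.support.erase α, u x) * ((u α * coeff α Θ) * ∏ i, Y' i ^ α i) := by ring
    rw [h5]
    exact Ideal.mul_mem_left _ _ (Ideal.mul_mem_mul (hm α) h2)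

/-- One step of the lifting. -/
theorem ZS.step (hS : ZS I Y' e' Yl el Z) {k D : ℕ} {g : MvPolynomial ρ ℂ}
    (hgD : g.IsHomogeneous D) (hg : LocZ Z (I ⊔ jAll Y' Yl ^ k) g) :
    ∃ g', g' ∈ jFst Y' ^ k ∧ g'.IsHomogeneous D ∧
      LocZ Z (I ⊔ jAll Y' Yl ^ (k + 1)) (g - g') := by
  classical
  have hloc : ∀ p ∈ Z, ∃ (u : MvPolynomial ρ ℂ) (Θ : MvPolynomial κ' (MvPolynomial ρ ℂ)),
      eval p u ≠ 0 ∧ Θ.IsHomogeneous k ∧ u * g - eval Y' Θ ∈ I := by
    intro p hp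
    obtain ⟨u, hu, hm⟩ := hS.loc_pow hg p hp
    obtain ⟨a, ha, b, hb, hab⟩ := Submodule.mem_sup.mp hm
    obtain ⟨Θ, hΘ, hΘb⟩ := (Ideal.mem_span_pow_iff_exists_isHomogeneous _ _).mp hb
    exact ⟨u, Θ, hu, hΘ, by rw [hΘb, ← hab, add_sub_cancel_right]; exact ha⟩
  choose! u Θ hu hΘ hm using hloc
  have hcompat : ∀ p ∈ Z, ∀ q ∈ Z, ∀ α, eval p (coeff α (Θ p)) * eval p (u q) =
      eval p (coeff α (Θ q)) * eval p (u p) := by
    intro p hp q hq α
    have h1 : (C (u q) * Θ p - C (u p) * Θ q).IsHomogeneous k :=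
      ((hΘ p hp).C_mul _).sub ((hΘ q hq).C_mul _)
    have h2 : eval Y' (C (u q) * Θ p - C (u p) * Θ q) ∈ I := by
      have h3 : eval Y' (C (u q) * Θ p - C (u p) * Θ q) =
          u p * (u q * g - eval Y' (Θ q)) - u q * (u p * g - eval Y' (Θ p)) := by
        rw [map_sub, map_mul, map_mul, eval_C, eval_C]
        ring
      rw [h3]
      exact I.sub_mem (I.mul_mem_left _ (hm q hq)) (I.mul_mem_left _ (hm p hp))
    have h3 := hS.coeff_van hp h1 h2 α
    rw [coeff_sub, coeff_C_mul, coeff_C_mul, map_sub, map_mul, map_mul, sub_eq_zero] at h3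
    rw [mul_comm, h3, mul_comm]
  have hex : ∀ α : κ' →₀ ℕ, ∃ f : MvPolynomial ρ ℂ, ∀ p ∈ Z,
      eval p (coeff α (Θ p)) / eval p (u p) = eval p f := by
    intro α
    apply hS.hart
    intro q hq
    refine ⟨coeff α (Θ q), u q, hu q hq, fun p hp _ => ?_⟩
    rw [div_mul_eq_mul_div, hcompat p hp q hq α, mul_div_assoc, div_self (hu p hp), mul_one]
  choose f hf using hex
  set T : Finset (κ' →₀ ℕ) := Finset.univ.finsuppAntidiag k with hT
  set Ψ : MvPolynomial κ' (MvPolynomial ρ ℂ) := ∑ α ∈ T, monomial α (f α) with hΨ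
  have hTd : ∀ α ∈ T, Finsupp.weight (1 : κ' → ℕ) α = k := by
    intro α hα
    rw [hT, Finset.mem_finsuppAntidiag] at hα
    rw [← hα.1, Finsupp.weight_apply, Finsupp.sum_fintype _ _ (fun i => by simp)]
    exact Finset.sum_congr rfl (fun i _ => by simp)
  have hΨh : Ψ.IsHomogeneous k := by
    refine IsHomogeneous.sum _ _ _ (fun α hα => ?_)
    apply isHomogeneous_monomial
    rw [← hTd α hα, Finsupp.degree_eq_weight_one]
    rfl
  have hΨc : ∀ α, coeff α Ψ = if α ∈ T then f α else 0 := by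
    intro α
    rw [hΨ, coeff_sum]
    simp only [coeff_monomial]
    rw [Finset.sum_ite_eq']
  have hmain : LocZ Z (I ⊔ jAll Y' Yl ^ (k + 1)) (g - eval Y' Ψ) := by
    intro p hp
    have h1 : (Θ p - C (u p) * Ψ).IsHomogeneous k := (hΘ p hp).sub (hΨh.C_mul _)
    obtain ⟨w, hw, hwm⟩ := hS.loc_eval h1 (by
      intro α q hq
      rw [coeff_sub, coeff_C_mul, hΨc]
      split_ifs with hα
      · rw [map_sub, map_mul, ← hf α q hq, sub_eq_zero]
        have h2 := hcompat q hq p hp α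
        rw [mul_div_assoc', mul_comm (eval q (u p)), h2, mul_div_assoc, div_self (hu q hq),
          mul_one]
      · rw [mul_zero, sub_zero]
        have h2 : coeff α (Θ p) = 0 := by
          by_contra hne
          apply hα
          have h3 := hΘ p hp hne
          rw [hT, Finset.mem_finsuppAntidiag]
          refine ⟨?_, Finset.subset_univ _⟩
          rw [← h3, Finsupp.weight_apply, Finsupp.sum_fintype _ _ (fun i => by simp)]
          exact Finset.sum_congr rfl (fun i _ => by simp)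
        rw [h2, map_zero]) p hp
    refine ⟨w * u p, ?_, ?_⟩
    · rw [map_mul]; exact mul_ne_zero hw (hu p hp)
    · have h2 : w * u p * (g - eval Y' Ψ) =
          w * (u p * g - eval Y' (Θ p)) + w * eval Y' (Θ p - C (u p) * Ψ) := by
        rw [map_sub, map_mul, eval_C]
        ring
      rw [h2]
      exact Ideal.add_mem _ (Ideal.mem_sup_left (I.mul_mem_left _ (hm p hp)))
        (Ideal.mem_sup_right hwm)
  have hΨm : eval Y' Ψ ∈ jFst Y' ^ k :=
    (Ideal.mem_span_pow_iff_exists_isHomogeneous _ _).mpr ⟨Ψ, hΨh, rfl⟩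
  refine ⟨homogeneousComponent D (eval Y' Ψ), (hS.jFst_HI.pow k) _ hΨm D,
    homogeneousComponent_isHomogeneous _ _, ?_⟩
  have h1 := hS.hc (k := k + 1) le_sup_right (hS.hhom.sup (hS.jAll_HI.pow _)) hmain D
  rw [map_sub] at h1
  have h2 : homogeneousComponent D g = g := by
    rw [homogeneousComponent_of_mem hgD, if_pos rfl]
  rwa [h2] at h1

/-- Lifting to arbitrary order. -/
theorem ZS.lift (hS : ZS I Y' e' Yl el Z) (i : Fin c) (k : ℕ) :
    ∃ g, g.IsHomogeneous (el i) ∧ Yl i - g ∈ jFst Y' ∧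
      LocZ Z (I ⊔ jAll Y' Yl ^ (k + 1)) g := by
  induction k with
  | zero =>
    refine ⟨Yl i, hS.hYl i, by rw [sub_self]; exact Ideal.zero_mem _, fun p _ => ?_⟩
    refine ⟨1, by rw [map_one]; exact one_ne_zero, ?_⟩
    rw [one_mul, zero_add, pow_one]
    exact Ideal.mem_sup_right (mem_jAll (Sum.inr i))
  | succ k ih =>
    obtain ⟨g, hg, hgm, hgl⟩ := ih
    obtain ⟨g', hg', hg'D, hl⟩ := hS.step hg hgl
    refine ⟨g - g', hg.sub hg'D, ?_, hl⟩
    have h1 : Yl i - (g - g') = (Yl i - g) + g' := by ring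
    rw [h1]
    refine Ideal.add_mem _ hgm ?_
    exact Ideal.pow_le_self (Nat.succ_ne_zero k) hg'

end ZSet

end Pool.Agent.Hartshorne
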