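import Mathlib
import Pool.Agent.Hartshorne.Cone
import Pool.Agent.Hartshorne.Const2
import Pool.Agent.Hartshorne.Cut
import Pool.Agent.Hartshorne.LiftZ

/-!
The equations of the variety from the cone of lines through a point.
-/

namespace Pool.Agent.Hartshorne

open MvPolynomial

set_option linter.unusedSectionVars false

section Index

variable {c : ℕ} (f : Fin c → ℕ)

/-- The splitting of the index set. -/
def eSf : (Σ i : Fin c, Fin (f i)) ⊕ Fin c → (Σ i : Fin c, Fin (f i + 1)) :=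
  Sum.elim (fun q => ⟨q.1, q.2.castSucc⟩) (fun i => ⟨i, Fin.last _⟩)

lemma eSf_injective : Function.Injective (eSf f) := by
  rintro (⟨i, j⟩ | i) (⟨i', j'⟩ | i') h
  · simp only [eSf, Sum.elim_inl, Sigma.mk.injEq] at h
    obtain ⟨rfl, h⟩ := h
    have h1 := Fin.castSucc_injective _ (eq_of_heq h)
    rw [h1]
  · simp only [eSf, Sum.elim_inl, Sum.elim_inr, Sigma.mk.injEq] at h
    obtain ⟨rfl, h⟩ := h
    exact absurd (eq_of_heq h) (Fin.castSucc_lt_last j).ne
  · simp only [eSf, Sum.elim_inl, Sum.elim_inr, Sigma.mk.injEq] at h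
    obtain ⟨rfl, h⟩ := h
    exact absurd (eq_of_heq h).symm (Fin.castSucc_lt_last j').ne
  · simp only [eSf, Sum.elim_inr, Sigma.mk.injEq] at h
    rw [h.1]

lemma eSf_surjective : Function.Surjective (eSf f) := by
  rintro ⟨i, j⟩
  induction j using Fin.lastCases with
  | last => exact ⟨Sum.inr i, rfl⟩
  | cast j => exact ⟨Sum.inl ⟨i, j⟩, rfl⟩

lemma eSf_last_iff (k : (Σ i : Fin c, Fin (f i)) ⊕ Fin c) :
    ((eSf f k).2 : ℕ) = f (eSf f k).1 ↔ ∃ i, k = Sum.inr i := by
  rcases k with ⟨i, j⟩ | i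
  · simp only [eSf, Sum.elim_inl, Fin.val_castSucc, reduceCtorEq, exists_false, iff_false]
    exact j.2.ne
  · simp [eSf]

end Index

section GradL

variable {ρ : Type*} [Fintype ρ] [DecidableEq ρ] {n : ℕ}

lemma dot_grad_lsub (π : (ρ → ℂ) →ₗ[ℂ] (Fin n → ℂ)) (p w : ρ → ℂ)
    (g : MvPolynomial (Fin n) ℂ) :
    ∑ b, w b * grad p (lsub π g) b = ∑ i, π w i * grad (π p) g i := by
  have h1 : ∀ b, w b * grad p (lsub π g) b = ∑ i, (w b * π (Pi.single b 1) i) *
      grad (π p) g i := by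
    intro b
    rw [grad_apply, pderiv_lsub, map_sum, Finset.mul_sum]
    refine Finset.sum_congr rfl (fun i _ => ?_)
    rw [map_mul, eval_C, eval_lsub, grad_apply]
    ring
  rw [Finset.sum_congr rfl (fun b _ => h1 b), Finset.sum_comm]
  refine Finset.sum_congr rfl (fun i _ => ?_)
  rw [← Finset.sum_mul]
  congr 1
  conv_rhs => rw [pi_eq_sum_univ' w, map_sum, Finset.sum_apply]
  refine Finset.sum_congr rfl (fun b _ => ?_)
  rw [map_smul, Pi.smul_apply, smul_eq_mul]

variable {x : ρ → ℂ} {u : Fin n → (ρ → ℂ)} {π : (ρ → ℂ) →ₗ[ℂ] (Fin n → ℂ)}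
  {ξ : (ρ → ℂ) →ₗ[ℂ] ℂ}

lemma ProjS.πuk (hπ : ProjS x u π ξ) (k : Fin n) : π (u k) = Pi.single k 1 := by
  have h1 := hπ.πu (Pi.single k 1)
  have h2 : comb u (Pi.single k 1) = u k := by
    rw [comb_apply, Finset.sum_eq_single k]
    · rw [Pi.single_eq_same, one_smul]
    · intro j _ hj
      rw [Pi.single_eq_of_ne hj, zero_smul]
    · intro h; exact absurd (Finset.mem_univ _) h
  rwa [h2] at h1

lemma ProjS.ust_grad (hπ : ProjS x u π ξ) (p : ρ → ℂ) (g : MvPolynomial (Fin n) ℂ) :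
    ust u (grad p (lsub π g)) = grad (π p) g := by
  funext k
  rw [ust_apply, dot_grad_lsub, hπ.πuk, Finset.sum_eq_single k]
  · rw [Pi.single_eq_same, one_mul]
  · intro j _ hj
    rw [Pi.single_eq_of_ne hj, zero_mul]
  · intro h; exact absurd (Finset.mem_univ _) h

lemma eval_smul_mem {I : Ideal (MvPolynomial ρ ℂ)} (hI : HI I) {x : ρ → ℂ}
    (hx : ∀ h ∈ I, eval x h = 0) (t : ℂ) : ∀ h ∈ I, eval (t • x) h = 0 := by
  intro h hh
  rw [← sum_homogeneousComponent h, map_sum]
  refine Finset.sum_eq_zero (fun e _ => ?_)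
  rw [eval_smul_of_isHomogeneous (homogeneousComponent_isHomogeneous e h), hx _ (hI h hh e),
    mul_zero]

end GradL

section Inst

variable {ρ : Type*} [Fintype ρ] [DecidableEq ρ] {c d D n : ℕ}
  {I : Ideal (MvPolynomial ρ ℂ)} {x : ρ → ℂ} {u : Fin n → (ρ → ℂ)}
  {F : Fin c → MvPolynomial ρ ℂ} {f : Fin c → ℕ}
  {π : (ρ → ℂ) →ₗ[ℂ] (Fin n → ℂ)} {ξ : (ρ → ℂ) →ₗ[ℂ] ℂ}

/-- The first equations of the cone. -/
noncomputable def zF (x : ρ → ℂ) (u : Fin n → (ρ → ℂ)) (F : Fin c → MvPolynomial ρ ℂ)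
    (f : Fin c → ℕ) (π : (ρ → ℂ) →ₗ[ℂ] (Fin n → ℂ)) :
    (Σ i : Fin c, Fin (f i)) → MvPolynomial ρ ℂ :=
  fun q => lsub π (cf x u ((q.2 : ℕ) + 1) (F q.1))

/-- The last equations of the cone. -/
noncomputable def zL (x : ρ → ℂ) (u : Fin n → (ρ → ℂ)) (F : Fin c → MvPolynomial ρ ℂ)
    (f : Fin c → ℕ) (π : (ρ → ℂ) →ₗ[ℂ] (Fin n → ℂ)) : Fin c → MvPolynomial ρ ℂ :=
  fun i => lsub π (cf x u (f i + 1) (F i))

lemma elim_zF (k : (Σ i : Fin c, Fin (f i)) ⊕ Fin c) :
    Sum.elim (zF x u F f π) (zL x u F f π) k = lsub π (yF x u F f (eSf f k)) := by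
  rcases k with ⟨i, j⟩ | i
  · rfl
  · rfl

/-- The punctured cone. -/
def zSet (x : ρ → ℂ) (u : Fin n → (ρ → ℂ)) (F : Fin c → MvPolynomial ρ ℂ)
    (f : Fin c → ℕ) (π : (ρ → ℂ) →ₗ[ℂ] (Fin n → ℂ)) : Set (ρ → ℂ) :=
  {p | (∀ q, eval (π p) (yF x u F f q) = 0) ∧ π p ≠ 0}

lemma all_iff (p : ρ → ℂ) :
    (∀ k, eval p (Sum.elim (zF x u F f π) (zL x u F f π) k) = 0) ↔
      ∀ q, eval (π p) (yF x u F f q) = 0 := by
  constructor
  · intro h q
    obtain ⟨k, rfl⟩ := eSf_surjective f q
    have h1 := h k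
    rwa [elim_zF, eval_lsub] at h1
  · intro h k
    rw [elim_zF, eval_lsub]
    exact h _

lemma ProjS.eq_pl (hπ : ProjS x u π ξ) (p : ρ → ℂ) :
    comb (pl x u (π p)) ![ξ p, 1] = p := by
  rw [comb_pl]
  simp only [Matrix.cons_val_zero, Matrix.cons_val_one, one_smul]
  exact (hπ.dec p).symm

theorem ConeS.zs (h : ConeS I x u c d D F f) (hπ : ProjS x u π ξ) (hc : 0 < c)
    (hcard : 2 * ∑ i, (f i + 1) < n)
    (hne : ∃ v₀ : Fin n → ℂ, v₀ ≠ 0 ∧ ∀ i z, eval (comb (pl x u v₀) z) (F i) = 0) :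
    ZS I (zF x u F f π) (fun q => (q.2 : ℕ) + 1) (zL x u F f π) (fun i => f i + 1)
      (zSet x u F f π) := by
  classical
  have hcardS : Fintype.card (Σ i : Fin c, Fin (f i + 1)) = ∑ i, (f i + 1) := by
    rw [Fintype.card_sigma]
    exact Finset.sum_congr rfl (fun i _ => Fintype.card_fin _)
  have hyh : ∀ q, ∃ e, (yF x u F f q).IsHomogeneous (e + 1) := fun q => ⟨_, cf_isHomogeneous _ _ _ _⟩
  have hyli : ∀ v ≠ 0, (∀ q, eval v (yF x u F f q) = 0) →
      LinearIndependent ℂ (fun q => grad v (yF x u F f q)) := by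
    intro v hv0 hv
    exact (h.li_cone hv0 (h.cone_of_y hcard hne hv0 hv)).1
  have hYli : ∀ p, π p ≠ 0 → (∀ q, eval (π p) (yF x u F f q) = 0) →
      LinearIndependent ℂ (fun q => grad p (lsub π (yF x u F f q))) := by
    intro p hp hy
    apply LinearIndependent.of_comp (ust u)
    have h1 : (ust u ∘ fun q => grad p (lsub π (yF x u F f q))) =
        fun q => grad (π p) (yF x u F f q) := by
      funext q
      exact hπ.ust_grad p _
    rw [h1]
    exact hyli _ hp hy
  have hcI : ∀ p, (∀ q, eval (π p) (yF x u F f q) = 0) → ∀ g ∈ I, eval p g = 0 := by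
    intro p hp
    by_cases hp0 : π p = 0
    · have h1 : p = ξ p • x := by
        have h2 := hπ.dec p
        rwa [hp0, map_zero, add_zero] at h2
      rw [h1]
      exact eval_smul_mem h.hhom h.hx _
    · have h1 := h.van (h.cone_of_y hcard hne hp0 hp) ![ξ p, 1]
      rwa [hπ.eq_pl] at h1
  have hm1 : 0 < ∑ i, (f i + 1) :=
    Finset.sum_pos (fun i _ => Nat.succ_pos _) ⟨⟨0, hc⟩, Finset.mem_univ _⟩
  obtain ⟨l, l', hl1, hl'1, hll, hlr, hlr'⟩ := hπ.exists_reg h.hn (yF x u F f) hyh hyli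
    (by rw [hcardS]; exact hcard) (by rw [hcardS]; omega)
  refine
    { hI := h.hI
      hhom := h.hhom
      hdim := h.hdim
      hY' := fun q => isHomogeneous_lsub _ _ _ (cf_isHomogeneous _ _ _ _)
      hYl := fun q => isHomogeneous_lsub _ _ _ (cf_isHomogeneous _ _ _ _)
      zY := fun p hp => (all_iff p).mpr hp.1
      cone := fun p hp => hcI p ((all_iff p).mp hp)
      sep := ?_
      hli := ?_
      hh := ?_
      hart := ?_ }
  · intro p hp
    obtain ⟨k, hk⟩ := Function.ne_iff.mp hp.2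
    refine ⟨lsub π (X k), isHomogeneous_lsub _ _ _ (isHomogeneous_X _ _), ?_, ?_⟩
    · rw [eval_lsub, eval_X]; exact hk
    · intro q hq hqk
      refine ⟨(all_iff q).mp hq, ?_⟩
      rw [eval_lsub, eval_X] at hqk
      intro h0
      rw [h0] at hqk
      exact hqk rfl
  · intro p hp
    have h1 := (hYli p hp.2 hp.1).comp (eSf f) (eSf_injective f)
    have h2 : (fun k => grad p (Sum.elim (zF x u F f π) (zL x u F f π) k)) =
        (fun q => grad p (lsub π (yF x u F f q))) ∘ eSf f := by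
      funext k
      rw [elim_zF]
      rfl
    rw [h2]
    exact h1
  · intro p hp
    obtain ⟨w, hw, hwli⟩ := (h.li_cone hp.2 (h.cone_of_y hcard hne hp.2 hp.1)).2 ![ξ p, 1]
      (by simp)
    rw [hπ.eq_pl] at hw
    have hp0 : p ≠ 0 := by
      intro h0
      apply hp.2
      rw [h0, map_zero]
    have hex : ∀ i, ∃ g ∈ I, g.IsHomogeneous D ∧ grad p g = w i := fun i =>
      exists_grad_eq (h.good p hp0 (hcI p hp.1)) (hw i)
    choose g hgI hgD hg using hex
    refine ⟨g, hgI, ?_⟩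
    apply LinearIndependent.of_comp (ust u)
    have h1 := hwli.comp (eSf f) (eSf_injective f)
    have h2 : (ust u ∘ fun k => grad p (Sum.elim (zF x u F f π) g k)) =
        (fun q : (Σ i : Fin c, Fin (f i + 1)) =>
          if (q.2 : ℕ) = f q.1 then ust u (w q.1) else grad (π p) (yF x u F f q)) ∘ eSf f := by
      funext k
      rcases k with ⟨i, j⟩ | i
      · simp only [Function.comp_apply, Sum.elim_inl]
        rw [if_neg]
        · rw [zF, hπ.ust_grad]
          rfl
        · rw [eSf_last_iff]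
          rintro ⟨i', hi'⟩
          exact absurd hi' (by simp)
      · simp only [Function.comp_apply, Sum.elim_inr]
        rw [if_pos ((eSf_last_iff f _).mpr ⟨i, rfl⟩), hg]
        rfl
    rw [h2]
    exact h1
  · intro φ hφ
    have hspan : ∀ p : ρ → ℂ, (∀ g ∈ Ideal.span (Set.range fun q => lsub π (yF x u F f q)),
        eval p g = 0) ↔ ∀ q, eval (π p) (yF x u F f q) = 0 := by
      intro p
      constructor
      · intro hp q
        have h1 := hp _ (Ideal.subset_span ⟨q, rfl⟩)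
        rwa [eval_lsub] at h1
      · intro hp g hg
        have h1 : Ideal.span (Set.range fun q => lsub π (yF x u F f q)) ≤ RingHom.ker (eval p) := by
          rw [Ideal.span_le]
          rintro _ ⟨q, rfl⟩
          rw [SetLike.mem_coe, RingHom.mem_ker, eval_lsub]
          exact hp q
        exact h1 hg
    refine hartogsJ (Ideal.span (Set.range fun q => lsub π (yF x u F f q))) l l' hlr hlr' ?_
      (zSet x u F f π) ?_ ?_ φ hφ
    · intro g hg
      refine rad_of_reg (fun q => lsub π (yF x u F f q)) l hlr ?_ ?_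
      · intro p hpl hp
        refine hYli p ?_ (fun q => ?_)
        · intro h0
          exact hpl (hll p h0).1
        · have := hp q
          rwa [eval_lsub] at this
      · intro p hp
        apply hg
        rw [hspan]
        intro q
        have := hp q
        rwa [eval_lsub] at this
    · intro p hp
      rw [hspan]
      exact hp.1
    · intro p hp hpZ
      apply hll
      by_contra h0
      exact hpZ ⟨(hspan p).mp hp, h0⟩

end Inst

section Low

variable {ρ : Type*} [Fintype ρ] [DecidableEq ρ]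

lemma low_one_of_eval {p : ρ → ℂ} {g : MvPolynomial ρ ℂ} (hg : eval p g = 0) :
    Low (1 : ρ → ℕ) 1 (trans p g) := by
  intro j hj
  rw [Nat.lt_one_iff.mp hj, wc_zero_C, eval_trans, zero_add, hg, C_0]

lemma low_of_mem_pow {J : Ideal (MvPolynomial ρ ℂ)} {p : ρ → ℂ} (hJ : ∀ g ∈ J, eval p g = 0)
    (M : ℕ) : ∀ g ∈ J ^ M, Low (1 : ρ → ℕ) M (trans p g) := by
  induction M with
  | zero => intro g _; exact low_zero _
  | succ M ih =>
    intro g hg
    rw [pow_succ] at hg
    refine Submodule.mul_induction_on hg ?_ ?_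
    · intro a ha b hb
      rw [map_mul]
      exact (low_mul (ih a ha) (low_one_of_eval (hJ b hb))).1
    · intro a b ha hb
      rw [map_add]
      exact ha.add hb

lemma ordPt_of_loc {I J : Ideal (MvPolynomial ρ ℂ)} {p : ρ → ℂ} (hJ : ∀ g ∈ J, eval p g = 0)
    {M : ℕ} {g : MvPolynomial ρ ℂ} (hg : ∃ u, eval p u ≠ 0 ∧ u * g ∈ I ⊔ J ^ M) :
    OrdPt I M p g := by
  obtain ⟨u, hu, hm⟩ := hg
  obtain ⟨a, ha, b, hb, hab⟩ := Submodule.mem_sup.mp hm
  refine ⟨u, a, hu, ha, ?_⟩
  have h1 : u * g - a = b := by rw [← hab, add_sub_cancel_left]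
  rw [h1]
  exact low_of_mem_pow hJ M b hb

lemma grad_mem_span {κ : Type*} [Fintype κ] {Y : κ → MvPolynomial ρ ℂ} {p : ρ → ℂ}
    (hY : ∀ k, eval p (Y k) = 0) {g : MvPolynomial ρ ℂ} (hg : g ∈ Ideal.span (Set.range Y)) :
    grad p g ∈ Submodule.span ℂ (Set.range fun k => grad p (Y k)) := by
  obtain ⟨a, ha⟩ := (Submodule.mem_span_range_iff_exists_fun _).mp hg
  have h1 : grad p g = ∑ k, eval p (a k) • grad p (Y k) := by
    rw [← ha]
    funext j
    rw [grad_apply, map_sum, map_sum, Finset.sum_apply]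
    refine Finset.sum_congr rfl (fun k _ => ?_)
    rw [smul_eq_mul, pderiv_mul, map_add, map_mul, map_mul, hY, mul_zero, zero_add,
      Pi.smul_apply, smul_eq_mul, grad_apply]
  rw [h1]
  exact Submodule.sum_mem _ (fun k _ => Submodule.smul_mem _ _ (Submodule.subset_span ⟨k, rfl⟩))

lemma li_of_sub {κ κ' V : Type*} [Fintype κ'] [AddCommGroup V] [Module ℂ V] {a : κ → V}
    {b b' : κ' → V} (h : LinearIndependent ℂ (Sum.elim a b))
    (hb : ∀ k, b k - b' k ∈ Submodule.span ℂ (Set.range a)) : LinearIndependent ℂ b' := by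
  rw [linearIndependent_sum] at h
  obtain ⟨-, h2, h3⟩ := h
  simp only [Sum.elim_comp_inl, Sum.elim_comp_inr] at h2 h3
  rw [Fintype.linearIndependent_iff]
  intro t ht
  apply Fintype.linearIndependent_iff.mp h2 t
  have h4 : ∑ k, t k • b k ∈ Submodule.span ℂ (Set.range a) := by
    have h5 : ∑ k, t k • b k = ∑ k, t k • (b k - b' k) := by
      rw [← sub_zero (∑ k, t k • b k), ← ht, ← Finset.sum_sub_distrib]
      exact Finset.sum_congr rfl (fun k _ => (smul_sub _ _ _).symm)
    rw [h5]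
    exact Submodule.sum_mem _ (fun k _ => Submodule.smul_mem _ _ (hb k))
  have h5 : ∑ k, t k • b k ∈ Submodule.span ℂ (Set.range b) :=
    Submodule.sum_mem _ (fun k _ => Submodule.smul_mem _ _ (Submodule.subset_span ⟨k, rfl⟩))
  exact (Submodule.disjoint_def.mp h3) _ h4 h5

end Low

section Fin

variable {ρ : Type*} [Fintype ρ] [DecidableEq ρ] {c d D n : ℕ}
  {I : Ideal (MvPolynomial ρ ℂ)} {x : ρ → ℂ} {u : Fin n → (ρ → ℂ)}
  {F F' : Fin c → MvPolynomial ρ ℂ} {f d' : Fin c → ℕ}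

/-- **The equations.** -/
theorem ConeS.main (h : ConeS I x u c d D F f) (hc : 0 < c) (hM : MixF I x d F' d')
    (hcard : 2 * ∑ i, (f i + 1) < n) (hcd : ∑ i, d' i + ∑ i, (f i + 1) < n) :
    ∃ G : Fin c → MvPolynomial ρ ℂ, (∀ i, (G i).IsHomogeneous (f i + 1)) ∧
      Ideal.span (Set.range G) = I := by
  classical
  obtain ⟨π, ξ, hπ⟩ := exists_projS h.hbas h.hn
  have hcardD : Fintype.card (Σ i : Fin c, Fin (d' i)) = ∑ i, d' i := by
    rw [Fintype.card_sigma]
    exact Finset.sum_congr rfl (fun i _ => Fintype.card_fin _)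
  have hne : ∃ v₀ : Fin n → ℂ, v₀ ≠ 0 ∧ ∀ i z, eval (comb (pl x u v₀) z) (F i) = 0 := by
    obtain ⟨v₀, hv₀, hv₀y⟩ := exists_common_zero (ι := Fin n)
      (fun q : (Σ i : Fin c, Fin (d' i)) => cf x u ((q.2 : ℕ) + 1) (F' q.1))
      (fun q => eval_zero_hc_succ _ _) (by
        rw [hcardD, Fintype.card_fin]
        omega)
    refine ⟨v₀, hv₀, fun i z => ?_⟩
    refine vanish_on I h.hI h.hdim (pl x u v₀) (pt 0) (by rw [pl, comb_ln_one]; exact h.hx) F'
      (fun i => (hM.hF i).1) (by rw [pl, comb_ln_one]; exact hM.hli) (fun i' => ?_) z _ (h.hF i).1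
    exact (pencil_iff x u (hM.hF i').2 (h.hx _ (hM.hF i').1) v₀).mp (fun j => hv₀y ⟨i', j⟩)
  have hS := h.zs hπ hc hcard hne
  have hlift : ∀ i, ∃ g, g.IsHomogeneous (f i + 1) ∧ zL x u F f π i - g ∈ jFst (zF x u F f π) ∧
      LocZ (zSet x u F f π) (I ⊔ jAll (zF x u F f π) (zL x u F f π) ^ (f i + 1 + 1)) g :=
    fun i => hS.lift i (f i + 1)
  choose G hGh hGm hGl using hlift
  have hJ : ∀ p ∈ zSet x u F f π, ∀ g ∈ jAll (zF x u F f π) (zL x u F f π), eval p g = 0 := by
    intro p hp g hg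
    have h1 : jAll (zF x u F f π) (zL x u F f π) ≤ RingHom.ker (eval p) := by
      rw [jAll, Ideal.span_le]
      rintro _ ⟨k, rfl⟩
      rw [SetLike.mem_coe, RingHom.mem_ker]
      exact hS.zY p hp k
    exact h1 hg
  have hord : ∀ p ∈ zSet x u F f π, ∀ i, OrdPt I (f i + 1 + 1) p (G i) := fun p hp i =>
    ordPt_of_loc (hJ p hp) (hGl i p hp)
  have hcardS : Fintype.card (Σ i : Fin c, Fin (f i + 1)) = ∑ i, (f i + 1) := by
    rw [Fintype.card_sigma]
    exact Finset.sum_congr rfl (fun i _ => Fintype.card_fin _)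
  have hy0 : ∀ q, eval 0 (yF x u F f q) = 0 := fun q => eval_zero_hc_succ _ _
  have hu0 : ∀ (q : ρ → ℂ) (j : ℕ) (g : MvPolynomial ρ ℂ),
      eval 0 (lsub (comb u) (homogeneousComponent (j + 1) (trans q g))) = 0 := by
    intro q j g
    rw [eval_lsub, map_zero]
    exact eval_zero_hc_succ _ _
  have hzmem : ∀ v : Fin n → ℂ, v ≠ 0 → (∀ q, eval v (yF x u F f q) = 0) →
      comb u v ∈ zSet x u F f π := by
    intro v hv0 hv
    refine ⟨?_, ?_⟩
    · rw [hπ.πu]; exact hv
    · rw [hπ.πu]; exact hv0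
  -- the equations vanish where the frame is independent
  have heval : ∀ q : ρ → ℂ, (∀ g ∈ I, eval q g = 0) →
      LinearIndependent ℂ (fun i => grad q (F' i)) → ∀ i, eval q (G i) = 0 := by
    intro q hq hqli i
    obtain ⟨v, hv0, hv⟩ := exists_common_zero (ι := Fin n)
      (κ := (Σ i : Fin c, Fin (f i + 1)) ⊕ (Σ i : Fin c, Fin (d' i)))
      (Sum.elim (yF x u F f) (fun j => lsub (comb u)
        (homogeneousComponent ((j.2 : ℕ) + 1) (trans q (F' j.1))))) (by
        rintro (k | k)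
        · exact hy0 k
        · exact hu0 _ _ _) (by
        rw [Fintype.card_sum, hcardS, hcardD, Fintype.card_fin]
        omega)
    have hw := hzmem v hv0 (fun k => hv (Sum.inl k))
    refine vanish_of_ordPt (hGh i) (Nat.lt_succ_self _) (hord _ hw i) ?_
    refine vanish_on I h.hI h.hdim (ln q (comb u v)) (pt 0) ?_ F' (fun i => (hM.hF i).1) ?_ ?_
    · rw [comb_ln_one]; exact hq
    · rw [comb_ln_one]; exact hqli
    · intro i' z
      refine line_of_taylor (hM.hF i').2 (hq _ (hM.hF i').1) (fun j => ?_) z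
      have h1 := hv (Sum.inr ⟨i', j⟩)
      rw [Sum.elim_inr, eval_lsub] at h1
      exact h1
  have hGI : ∀ i, G i ∈ I := by
    intro i
    obtain ⟨T, hT⟩ := exists_minor _ hM.hli
    set Δ : MvPolynomial ρ ℂ := (Matrix.of fun i l => pderiv (T l) (F' i)).det with hΔ
    have hΔx : eval x Δ ≠ 0 := by
      rw [hΔ, eval_det]
      exact hT
    have h1 : Δ * G i ∈ I := by
      apply mem_of_eval_zero h.hI
      intro z hz
      rw [map_mul]
      by_cases hΔz : eval z Δ = 0
      · rw [hΔz, zero_mul]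
      · have h2 : LinearIndependent ℂ (fun i => grad z (F' i)) :=
          rowEval_li_of_det z (fun i b => pderiv b (F' i)) T hΔz
        rw [heval z hz h2 i, mul_zero]
    rcases h.hI.mem_or_mem h1 with h2 | h2
    · exact absurd (h.hx _ h2) hΔx
    · exact h2
  -- the gradients
  have hGli : ∀ p ∈ zSet x u F f π, LinearIndependent ℂ (fun i => grad p (G i)) := by
    intro p hp
    have h1 := hS.hli p hp
    have h2 : (fun k => grad p (Sum.elim (zF x u F f π) (zL x u F f π) k)) =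
        Sum.elim (fun k => grad p (zF x u F f π k)) (fun i => grad p (zL x u F f π i)) := by
      funext k
      rcases k with k | k
      · rfl
      · rfl
    rw [h2] at h1
    refine li_of_sub h1 (fun i => ?_)
    have h3 := grad_mem_span (fun k => hS.zY p hp (Sum.inl k)) (hGm i)
    have h4 : grad p (zL x u F f π i) - grad p (G i) = grad p (zL x u F f π i - G i) := by
      funext j
      rw [Pi.sub_apply, grad_apply, grad_apply, grad_apply, map_sub, map_sub]
    rw [h4]
    exact h3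
  -- the equations cut out the variety
  have hcut : ∀ q : ρ → ℂ, (∀ i, eval q (G i) = 0) → ∀ g ∈ I, eval q g = 0 := by
    intro q hq
    obtain ⟨v, hv0, hv⟩ := exists_common_zero (ι := Fin n)
      (κ := (Σ i : Fin c, Fin (f i + 1)) ⊕ (Σ i : Fin c, Fin (f i + 1)))
      (Sum.elim (yF x u F f) (fun j => lsub (comb u)
        (homogeneousComponent ((j.2 : ℕ) + 1) (trans q (G j.1))))) (by
        rintro (k | k)
        · exact hy0 k
        · exact hu0 _ _ _) (by
        rw [Fintype.card_sum, hcardS, Fintype.card_fin]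
        omega)
    have hw := hzmem v hv0 (fun k => hv (Sum.inl k))
    have hwI : ∀ g ∈ I, eval (comb u v) g = 0 := hS.cone _ (hS.zY _ hw)
    have h2 : ∀ z, ∀ g ∈ I, eval (comb (ln q (comb u v)) z) g = 0 := by
      refine vanish_on I h.hI h.hdim (ln q (comb u v)) ![0, 1] ?_ G hGI ?_ ?_
      · rw [comb_ln_right]; exact hwI
      · rw [comb_ln_right]; exact hGli _ hw
      · intro i z
        refine line_of_taylor (hGh i) (hq i) (fun j => ?_) z
        have h1 := hv (Sum.inr ⟨i, j⟩)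
        rw [Sum.elim_inr, eval_lsub] at h1
        exact h1
    have h3 := h2 (pt 0)
    rwa [comb_ln_one] at h3
  -- conclusion
  obtain ⟨v, hv0, hv⟩ := exists_common_zero (ι := Fin n) (yF x u F f) hy0 (by
    rw [hcardS, Fintype.card_fin]
    omega)
  have hw := hzmem v hv0 hv
  refine ⟨G, hGh, ?_⟩
  refine unmixed I h.hI h.hhom ?_ h.hdim G (fun i => f i + 1) hGh (fun i => Nat.succ_pos _) hGI
    hcut (x := comb u v) (hS.cone _ (hS.zY _ hw)) (hGli _ hw)
  have h1 : c ≤ ∑ i : Fin c, (f i + 1) := by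
    have h2 : ∑ i : Fin c, 1 ≤ ∑ i : Fin c, (f i + 1) :=
      Finset.sum_le_sum (fun i _ => Nat.le_add_left _ _)
    simpa using h2
  have h2 := h.hn
  omega

end Fin

end Pool.Agent.Hartshorne
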