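import Mathlib

/-!
Extension of derivations in characteristic zero.
-/

namespace Pool.Agent.Hartshorne

/-- A derivation into a field extends along a formally smooth algebra. -/
theorem exists_deriv_ext {A K : Type} [CommRing A] [Algebra ℂ A] [Field K] [Algebra ℂ K]
    [Algebra A K] [IsScalarTower ℂ A K] [Algebra.FormallySmooth A K] (D : Derivation ℂ A K) :
    ∃ D' : Derivation ℂ K K, ∀ a, D' (algebraMap A K a) = D a := by
  have hinj : Function.Injective (KaehlerDifferential.mapBaseChange ℂ A K) := by
    rw [injective_iff_map_eq_zero]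
    intro x hx
    obtain ⟨y, hy⟩ := (Algebra.H1Cotangent.exact_δ_mapBaseChange ℂ A K x).mp hx
    rw [← hy, Subsingleton.elim y 0, map_zero]
  obtain ⟨ψ, hψ⟩ := LinearMap.exists_leftInverse_of_injective _
    (LinearMap.ker_eq_bot.mpr hinj)
  set Φ : TensorProduct A K (Ω[A⁄ℂ]) →ₗ[K] K :=
    LinearMap.liftBaseChange K D.liftKaehlerDifferential with hΦ
  refine ⟨(Φ ∘ₗ ψ).compDer (KaehlerDifferential.D ℂ K), fun a => ?_⟩
  have h1 : KaehlerDifferential.D ℂ K (algebraMap A K a) =
      KaehlerDifferential.mapBaseChange ℂ A K (1 ⊗ₜ[A] KaehlerDifferential.D ℂ A a) := by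
    rw [KaehlerDifferential.mapBaseChange_tmul, one_smul, KaehlerDifferential.map_D]
  have h2 : ((Φ ∘ₗ ψ).compDer (KaehlerDifferential.D ℂ K)) (algebraMap A K a) =
      Φ (ψ (KaehlerDifferential.D ℂ K (algebraMap A K a))) := rfl
  rw [h2, h1]
  have h3 := LinearMap.congr_fun hψ (1 ⊗ₜ[A] KaehlerDifferential.D ℂ A a)
  rw [LinearMap.comp_apply, LinearMap.id_apply] at h3
  rw [h3, hΦ, LinearMap.liftBaseChange_tmul, one_smul, Derivation.liftKaehlerDifferential_comp_D]

/-- In characteristic zero, a function field extending a domain is formally smooth over it. -/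
theorem formallySmooth_of_injective {A K : Type} [CommRing A] [IsDomain A] [Algebra ℂ A]
    [Field K] [Algebra ℂ K] [Algebra A K] [IsScalarTower ℂ A K]
    (hinj : Function.Injective (algebraMap A K)) [Algebra.EssFiniteType ℂ K] :
    Algebra.FormallySmooth A K := by
  have h0 : FaithfulSMul A K := (faithfulSMul_iff_algebraMap_injective A K).mpr hinj
  let _ : Algebra (FractionRing A) K := FractionRing.liftAlgebra A K
  have h1 : IsScalarTower A (FractionRing A) K := FractionRing.isScalarTower_liftAlgebra A K
  have h2 : IsScalarTower ℂ (FractionRing A) K := by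
    refine IsScalarTower.of_algebraMap_eq (fun z => ?_)
    rw [IsScalarTower.algebraMap_apply ℂ A (FractionRing A),
      ← IsScalarTower.algebraMap_apply A (FractionRing A) K, ← IsScalarTower.algebraMap_apply ℂ A K]
  have h3 : CharZero (FractionRing A) :=
    charZero_of_injective_algebraMap (algebraMap ℂ (FractionRing A)).injective
  have h4 : Algebra.EssFiniteType (FractionRing A) K :=
    Algebra.EssFiniteType.of_comp ℂ (FractionRing A) K
  have h5 : Algebra.FormallySmooth (FractionRing A) K := inferInstance
  have h6 : Algebra.FormallySmooth A (FractionRing A) :=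
    Algebra.FormallySmooth.of_isLocalization (nonZeroDivisors A)
  exact Algebra.FormallySmooth.comp A (FractionRing A) K

end Pool.Agent.Hartshorne
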