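import Mathlib
import Pool.Agent.Hartshorne.Cap
import Pool.Agent.Hartshorne.DerExt

/-!
Lines through a general point of a variety are free.
-/

namespace Pool.Agent.Hartshorne

open MvPolynomial

set_option linter.unusedSectionVars false

/-- Chain rule. -/
lemma deriv_algHom {ρ B M : Type*} [Fintype ρ] [CommRing B] [Algebra ℂ B] [AddCommGroup M]
    [Module B M] [Module ℂ M] (D : Derivation ℂ B M)
    (φ : MvPolynomial ρ ℂ →ₐ[ℂ] B) (h : MvPolynomial ρ ℂ) :
    D (φ h) = ∑ i, φ (pderiv i h) • D (φ (X i)) := by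
  classical
  induction h using MvPolynomial.induction_on with
  | C a =>
    have h1 : φ (C a) = algebraMap ℂ B a := by
      rw [← algebraMap_eq]
      exact φ.commutes a
    rw [h1, Derivation.map_algebraMap]
    symm
    refine Finset.sum_eq_zero (fun i _ => ?_)
    rw [pderiv_C, map_zero, zero_smul]
  | add p q hp hq =>
    rw [map_add, map_add, hp, hq, ← Finset.sum_add_distrib]
    refine Finset.sum_congr rfl (fun i _ => ?_)
    rw [map_add, map_add, add_smul]
  | mul_X p j hp =>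
    rw [map_mul, Derivation.leibniz, hp, Finset.smul_sum]
    have h1 : ∀ i, φ (pderiv i (p * X j)) • D (φ (X i)) =
        (if i = j then φ p • D (φ (X j)) else 0) + φ (X j) • φ (pderiv i p) • D (φ (X i)) := by
      intro i
      rw [pderiv_mul, map_add, map_mul, map_mul, add_smul, add_comm]
      congr 1
      · rw [pderiv_X]
        by_cases hij : i = j
        · subst hij
          rw [if_pos rfl, Pi.single_eq_same, map_one, mul_one]
        · rw [if_neg hij, Pi.single_eq_of_ne (fun h => hij h.symm), map_zero, mul_zero, zero_smul]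
      · rw [mul_comm, mul_smul]
    rw [Finset.sum_congr rfl (fun i _ => h1 i), Finset.sum_add_distrib,
      Finset.sum_ite_eq' Finset.univ j, if_pos (Finset.mem_univ _)]

section Line

variable {ρ : Type} [Fintype ρ] [DecidableEq ρ]

/-- Universal line. -/
noncomputable def lineA (z : Fin 2 → ℂ) : MvPolynomial ρ ℂ →ₐ[ℂ] MvPolynomial (ρ ⊕ ρ) ℂ :=
  aeval (fun i => C (z 0) * X (Sum.inl i) + C (z 1) * X (Sum.inr i))

/-- First component. -/
def pl1 (q : ρ ⊕ ρ → ℂ) : ρ → ℂ := fun i => q (Sum.inl i)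

/-- Second component. -/
def pl2 (q : ρ ⊕ ρ → ℂ) : ρ → ℂ := fun i => q (Sum.inr i)

lemma eval_lineA (q : ρ ⊕ ρ → ℂ) (z : Fin 2 → ℂ) (h : MvPolynomial ρ ℂ) :
    eval q (lineA z h) = eval (z 0 • pl1 q + z 1 • pl2 q) h := by
  have h1 : (eval q).comp ((lineA z : MvPolynomial ρ ℂ →ₐ[ℂ] MvPolynomial (ρ ⊕ ρ) ℂ) :
      MvPolynomial ρ ℂ →+* MvPolynomial (ρ ⊕ ρ) ℂ) = eval (z 0 • pl1 q + z 1 • pl2 q) := by
    apply MvPolynomial.ringHom_ext
    · intro a
      simp [lineA]
    · intro i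
      simp [lineA, pl1, pl2]
  exact RingHom.congr_fun h1 h

lemma eval_rename_inl (q : ρ ⊕ ρ → ℂ) (h : MvPolynomial ρ ℂ) :
    eval q (rename Sum.inl h) = eval (pl1 q) h := by
  rw [eval_rename]
  rfl

/-- The ideal of a set of points. -/
def vanI {κ : Type} (B : Set (κ → ℂ)) : Ideal (MvPolynomial κ ℂ) where
  carrier := {f | ∀ q ∈ B, eval q f = 0}
  zero_mem' := fun q _ => map_zero _
  add_mem' := by
    intro f g hf hg q hq
    rw [map_add, hf q hq, hg q hq, add_zero]
  smul_mem' := by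
    intro c f hf q hq
    rw [smul_eq_mul, map_mul, hf q hq, mul_zero]

lemma mem_vanI {κ : Type} (B : Set (κ → ℂ)) (f : MvPolynomial κ ℂ) :
    f ∈ vanI B ↔ ∀ q ∈ B, eval q f = 0 := Iff.rfl

lemma exists_prime_dense (I : Ideal (MvPolynomial ρ ℂ)) (hI : I.IsPrime)
    (B : Set ((ρ ⊕ ρ) → ℂ)) (hdense : ∀ g, (∀ q ∈ B, eval (pl1 q) g = 0) → g ∈ I) :
    ∃ B' ⊆ B, (vanI B').IsPrime ∧ ∀ g, (∀ q ∈ B', eval (pl1 q) g = 0) → g ∈ I := by
  set 𝒮 : Set (Ideal (MvPolynomial (ρ ⊕ ρ) ℂ)) :=
    {P | ∃ B' ⊆ B, (∀ g, (∀ q ∈ B', eval (pl1 q) g = 0) → g ∈ I) ∧ P = vanI B'} with h𝒮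
  obtain ⟨P, ⟨B', hB', hd, rfl⟩, hmax⟩ := set_has_maximal_iff_noetherian.mpr
    (inferInstance : IsNoetherian (MvPolynomial (ρ ⊕ ρ) ℂ) (MvPolynomial (ρ ⊕ ρ) ℂ)) 𝒮
    ⟨vanI B, B, subset_rfl, hdense, rfl⟩
  refine ⟨B', hB', ⟨?_, ?_⟩, hd⟩
  · intro htop
    apply hI.ne_top
    rw [Ideal.eq_top_iff_one]
    apply hd
    intro q hq
    have h1 : (1 : MvPolynomial (ρ ⊕ ρ) ℂ) ∈ vanI B' := by rw [htop]; trivial
    have h2 := h1 q hq
    rw [map_one] at h2
    exact absurd h2 one_ne_zero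
  · intro f g hfg
    by_contra hcon
    push Not at hcon
    have key : ∀ f' : MvPolynomial (ρ ⊕ ρ) ℂ, f' ∉ vanI B' →
        ∃ a, a ∉ I ∧ ∀ q ∈ B', eval q f' = 0 → eval (pl1 q) a = 0 := by
      intro f' hf'
      by_contra hno
      push Not at hno
      have hlt : vanI B' < vanI {q ∈ B' | eval q f' = 0} := by
        refine lt_of_le_of_ne ?_ ?_
        · intro h hh q hq
          exact hh q hq.1
        · intro heq
          apply hf'
          rw [heq]
          intro q hq
          exact hq.2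
      refine hmax _ ⟨{q ∈ B' | eval q f' = 0}, fun q hq => hB' hq.1, ?_, rfl⟩ hlt
      intro a ha
      by_contra haI
      obtain ⟨q, hq, hq0, hqa⟩ := hno a haI
      exact hqa (ha q ⟨hq, hq0⟩)
    obtain ⟨a, haI, ha⟩ := key f hcon.1
    obtain ⟨a', haI', ha'⟩ := key g hcon.2
    rcases hI.mem_or_mem (hd (a * a') (by
      intro q hq
      have h1 := hfg q hq
      rw [map_mul] at h1 ⊢
      rcases mul_eq_zero.mp h1 with h2 | h2
      · rw [ha q hq h2, zero_mul]
      · rw [ha' q hq h2, mul_zero])) with h | h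
    · exact haI h
    · exact haI' h

lemma ring_aux {K : Type*} [CommRing K] (a b c d e s : K) :
    a * (b * c * s + d * (s * e)) = s * (a * (b * c + d * e)) := by ring

/-- Generic smoothness, in the form needed here. -/
theorem free_generic (I : Ideal (MvPolynomial ρ ℂ)) (hI : I.IsPrime) (V : ρ → MvPolynomial ρ ℂ)
    (hV : ∀ h ∈ I, ∑ b, V b * pderiv b h ∈ I) (B : Set ((ρ ⊕ ρ) → ℂ))
    (hB : ∀ q ∈ B, ∀ z : Fin 2 → ℂ, ∀ h ∈ I, eval (z 0 • pl1 q + z 1 • pl2 q) h = 0)
    (hdense : ∀ g, (∀ q ∈ B, eval (pl1 q) g = 0) → g ∈ I) :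
    ∃ q ∈ B, ∃ b : ρ → ℂ, ∀ h ∈ I, ∀ z : Fin 2 → ℂ,
      grad (z 0 • pl1 q + z 1 • pl2 q) h ⬝ᵥ
        (z 0 • rowEval (pl1 q) V + z 1 • b) = 0 := by
  obtain ⟨B', hB', hP, hd⟩ := exists_prime_dense I hI B hdense
  set P := vanI B' with hPdef
  have hmem : ∀ g, (rename Sum.inl g : MvPolynomial (ρ ⊕ ρ) ℂ) ∈ P ↔ g ∈ I := by
    intro g
    constructor
    · intro h
      refine hd g (fun q hq => ?_)
      have h1 := h q hq
      rwa [eval_rename_inl] at h1
    · intro h q hq
      rw [eval_rename_inl]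
      have h1 := hB q (hB' hq) ![1, 0] g h
      simpa using h1
  let A := MvPolynomial ρ ℂ ⧸ I
  let Bq := MvPolynomial (ρ ⊕ ρ) ℂ ⧸ P
  let K := FractionRing Bq
  have hA : IsDomain A := Ideal.Quotient.isDomain I
  have hBq : IsDomain Bq := Ideal.Quotient.isDomain P
  let ι₀ : A →ₐ[ℂ] Bq := Ideal.quotientMapₐ P (rename Sum.inl) (fun g hg => (hmem g).mpr hg)
  let ι : A →ₐ[ℂ] K := (IsScalarTower.toAlgHom ℂ Bq K).comp ι₀
  let πB : MvPolynomial (ρ ⊕ ρ) ℂ →ₐ[ℂ] K :=
    (IsScalarTower.toAlgHom ℂ Bq K).comp (Ideal.Quotient.mkₐ ℂ P)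
  have hπ0 : ∀ f, πB f = 0 ↔ f ∈ P := by
    intro f
    have h1 : πB f = algebraMap Bq K (Ideal.Quotient.mk P f) := rfl
    rw [h1, ← Ideal.Quotient.eq_zero_iff_mem]
    constructor
    · intro h
      exact IsFractionRing.injective Bq K (h.trans (map_zero _).symm)
    · intro h
      rw [h, map_zero]
  have hιπ : ∀ g : MvPolynomial ρ ℂ, ι (Ideal.Quotient.mk I g) = πB (rename Sum.inl g) :=
    fun g => rfl
  let _ : Algebra A K := ι.toRingHom.toAlgebra
  have halg : ∀ g : MvPolynomial ρ ℂ, algebraMap A K (Ideal.Quotient.mk I g) =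
      πB (rename Sum.inl g) := fun g => rfl
  have hst : IsScalarTower ℂ A K := IsScalarTower.of_algebraMap_eq (fun z => (ι.commutes z).symm)
  have hinj : Function.Injective (algebraMap A K) := by
    rw [injective_iff_map_eq_zero]
    intro a ha
    obtain ⟨g, rfl⟩ := Ideal.Quotient.mk_surjective a
    rw [halg, hπ0, hmem] at ha
    exact Ideal.Quotient.eq_zero_iff_mem.mpr ha
  have hess1 : Algebra.EssFiniteType Bq K :=
    Algebra.EssFiniteType.of_isLocalization K (nonZeroDivisors Bq)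
  have hess : Algebra.EssFiniteType ℂ K := Algebra.EssFiniteType.comp ℂ Bq K
  have hfs : Algebra.FormallySmooth A K := formallySmooth_of_injective hinj
  -- the derivation
  let D0 : Derivation ℂ (MvPolynomial ρ ℂ) (MvPolynomial ρ ℂ) := mkDerivation ℂ V
  have hD0 : ∀ h, D0 h = ∑ b, V b * pderiv b h := by
    intro h
    have h1 := deriv_algHom D0 (AlgHom.id ℂ _) h
    rw [AlgHom.id_apply] at h1
    rw [h1]
    refine Finset.sum_congr rfl (fun b _ => ?_)
    rw [AlgHom.id_apply, AlgHom.id_apply, mkDerivation_X, smul_eq_mul, mul_comm]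
  have hsurj : Function.Surjective (Ideal.Quotient.mkₐ ℂ I) := Ideal.Quotient.mkₐ_surjective ℂ I
  have hD0I : ∀ x, (Ideal.Quotient.mkₐ ℂ I) x = 0 → (Ideal.Quotient.mkₐ ℂ I) (D0 x) = 0 := by
    intro x hx
    rw [Ideal.Quotient.mkₐ_eq_mk, Ideal.Quotient.eq_zero_iff_mem] at hx ⊢
    rw [hD0]
    exact hV x hx
  let DA : Derivation ℂ A A := Derivation.liftOfSurjective hsurj hD0I
  have hDA : ∀ g, DA (Ideal.Quotient.mk I g) = Ideal.Quotient.mk I (D0 g) := fun g =>
    Derivation.liftOfSurjective_apply hsurj hD0I g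
  obtain ⟨D', hD'⟩ := exists_deriv_ext ((Algebra.linearMap A K).compDer DA)
  have hD'x : ∀ i, D' (πB (X (Sum.inl i))) = πB (rename Sum.inl (V i)) := by
    intro i
    have h1 : πB (X (Sum.inl i)) = algebraMap A K (Ideal.Quotient.mk I (X i)) := by
      rw [halg, rename_X]
    have h2 : ((Algebra.linearMap A K).compDer DA) (Ideal.Quotient.mk I (X i)) =
        algebraMap A K (DA (Ideal.Quotient.mk I (X i))) := rfl
    rw [h1, hD', h2, hDA, halg]
    congr 2
    exact mkDerivation_X ℂ V i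
  -- denominators
  obtain ⟨s, hs⟩ := IsLocalization.exist_integer_multiples_of_finite (nonZeroDivisors Bq)
    (fun i : ρ => D' (πB (X (Sum.inr i))))
  choose β hβ using hs
  obtain ⟨s', hs'⟩ := Ideal.Quotient.mk_surjective (s : Bq)
  have hβ'' : ∀ i, ∃ b' : MvPolynomial (ρ ⊕ ρ) ℂ, Ideal.Quotient.mk P b' = β i :=
    fun i => Ideal.Quotient.mk_surjective _
  choose β' hβ' using hβ''
  have hs'P : s' ∉ P := by
    intro h
    have h1 : (s : Bq) = 0 := by rw [← hs', Ideal.Quotient.eq_zero_iff_mem]; exact h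
    exact nonZeroDivisors.coe_ne_zero s h1
  have hβπ : ∀ i, πB (β' i) = πB s' * D' (πB (X (Sum.inr i))) := by
    intro i
    have h1 : πB (β' i) = algebraMap Bq K (β i) := by rw [← hβ' i]; rfl
    have h2 : πB s' = algebraMap Bq K (s : Bq) := by rw [← hs']; rfl
    rw [h1, h2, hβ i, Algebra.smul_def]
  -- the relation
  have hrel : ∀ h ∈ I, ∀ z : Fin 2 → ℂ, (∑ i, lineA z (pderiv i h) *
      (C (z 0) * rename Sum.inl (V i) * s' + C (z 1) * β' i)) ∈ P := by
    intro h hh z
    rw [← hπ0]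
    have h1 : πB (lineA z h) = 0 := by
      rw [hπ0]
      intro q hq
      rw [eval_lineA]
      exact hB q (hB' hq) z h hh
    have h2 := deriv_algHom D' (πB.comp (lineA z)) h
    rw [AlgHom.comp_apply, h1, map_zero] at h2
    have hC : ∀ a : ℂ, πB (C a) = algebraMap ℂ K a := by
      intro a
      rw [← algebraMap_eq]
      exact πB.commutes a
    have h3 : ∀ i, D' ((πB.comp (lineA z)) (X i)) =
        algebraMap ℂ K (z 0) * πB (rename Sum.inl (V i)) +
          algebraMap ℂ K (z 1) * D' (πB (X (Sum.inr i))) := by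
      intro i
      rw [AlgHom.comp_apply, lineA, aeval_X, map_add, map_mul, map_mul, hC, hC, map_add,
        ← Algebra.smul_def, ← Algebra.smul_def, Derivation.map_smul, Derivation.map_smul, hD'x,
        Algebra.smul_def, Algebra.smul_def]
    have h4 : πB (∑ i, lineA z (pderiv i h) *
        (C (z 0) * rename Sum.inl (V i) * s' + C (z 1) * β' i)) = πB s' *
        ∑ i, (πB.comp (lineA z)) (pderiv i h) • D' ((πB.comp (lineA z)) (X i)) := by
      rw [map_sum, Finset.mul_sum]
      refine Finset.sum_congr rfl (fun i _ => ?_)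
      rw [h3, map_mul, map_add, map_mul, map_mul, map_mul, hC, hC, hβπ, AlgHom.comp_apply,
        smul_eq_mul]
      exact ring_aux _ _ _ _ _ _
    rw [h4, ← h2, mul_zero]
  obtain ⟨q, hq, hqs⟩ : ∃ q ∈ B', eval q s' ≠ 0 := by
    by_contra hno
    push Not at hno
    exact hs'P hno
  refine ⟨q, hB' hq, fun i => eval q (β' i) / eval q s', ?_⟩
  intro h hh z
  have h1 := hrel h hh z q hq
  rw [map_sum] at h1
  have h2 : grad (z 0 • pl1 q + z 1 • pl2 q) h ⬝ᵥ (z 0 • rowEval (pl1 q) V + z 1 •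
      (fun i => eval q (β' i) / eval q s')) = (eval q s')⁻¹ * ∑ i, eval q (lineA z (pderiv i h) *
      (C (z 0) * rename Sum.inl (V i) * s' + C (z 1) * β' i)) := by
    rw [Finset.mul_sum, dotProduct]
    refine Finset.sum_congr rfl (fun i _ => ?_)
    rw [map_mul, map_add, map_mul, map_mul, map_mul, eval_lineA, eval_rename_inl, eval_C, eval_C,
      grad_apply, Pi.add_apply, Pi.smul_apply, Pi.smul_apply, rowEval_apply, smul_eq_mul,
      smul_eq_mul]
    field_simp
  rw [h2, h1, mul_zero]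

/-- **Lines through a general point are free.** -/
theorem exists_free_point {c : ℕ} (I : Ideal (MvPolynomial ρ ℂ)) (hI : I.IsPrime)
    (F : Fin c → MvPolynomial ρ ℂ) (hF : ∀ i, F i ∈ I) {p₀ : ρ → ℂ}
    (hp₀ : ∀ h ∈ I, eval p₀ h = 0) (hli : LinearIndependent ℂ (fun i => grad p₀ (F i)))
    (hdim : ((Fintype.card ρ : ℕ) : WithBot ℕ∞) ≤
      ringKrullDim (MvPolynomial ρ ℂ ⧸ I) + (c : WithBot ℕ∞)) (Δ₀ : MvPolynomial ρ ℂ)
    (hΔ₀ : Δ₀ ∉ I) :
    ∃ x : ρ → ℂ, (∀ h ∈ I, eval x h = 0) ∧ eval x Δ₀ ≠ 0 ∧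
      LinearIndependent ℂ (fun i => grad x (F i)) ∧
      ∀ w : ρ → ℂ, (∀ z : Fin 2 → ℂ, ∀ h ∈ I, eval (z 0 • x + z 1 • w) h = 0) →
        ∀ a : ρ → ℂ, (∀ i, grad x (F i) ⬝ᵥ a = 0) → ∃ b : ρ → ℂ, ∀ h ∈ I, ∀ z : Fin 2 → ℂ,
          grad (z 0 • x + z 1 • w) h ⬝ᵥ (z 0 • a + z 1 • b) = 0 := by
  obtain ⟨T, hT⟩ := exists_minor _ hli
  set M : Matrix (Fin c) (Fin c) (MvPolynomial ρ ℂ) :=
    Matrix.of fun i l => pderiv (T l) (F i) with hM
  have hΔp : eval p₀ M.det ≠ 0 := by
    rw [eval_det]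
    have h1 : (Matrix.of fun i l => eval p₀ (M i l)) =
        Matrix.of fun i l => grad p₀ (F i) (T l) := by
      ext i l
      rw [Matrix.of_apply, Matrix.of_apply, grad_apply, hM, Matrix.of_apply]
    rw [h1]
    exact hT
  have hΔI : M.det ∉ I := fun h => hΔp (hp₀ _ h)
  -- the vector fields
  set V : ρ → ρ → MvPolynomial ρ ℂ := fun j b => M.det * (if j = b then 1 else 0) -
    ∑ l, if T l = b then ∑ k, M.adjugate l k * pderiv j (F k) else 0 with hV
  have hVF : ∀ j i, ∑ b, V j b * pderiv b (F i) = 0 := by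
    intro j i
    have h1 : ∑ b, V j b * pderiv b (F i) = M.det * pderiv j (F i) -
        ∑ l, (∑ k, M.adjugate l k * pderiv j (F k)) * pderiv (T l) (F i) := by
      simp only [hV, sub_mul, Finset.sum_sub_distrib]
      congr 1
      · rw [Finset.sum_eq_single j]
        · rw [if_pos rfl, mul_one]
        · intro b _ hb
          rw [if_neg (fun h => hb h.symm), mul_zero, zero_mul]
        · intro h; exact absurd (Finset.mem_univ _) h
      · simp only [Finset.sum_mul]
        rw [Finset.sum_comm]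
        refine Finset.sum_congr rfl (fun l _ => ?_)
        rw [Finset.sum_eq_single (T l)]
        · rw [if_pos rfl, Finset.sum_mul]
        · intro b _ hb
          rw [if_neg (fun h => hb h.symm), zero_mul]
        · intro h; exact absurd (Finset.mem_univ _) h
    rw [h1, sub_eq_zero]
    have h2 : ∀ k, ∑ l, pderiv (T l) (F i) * M.adjugate l k = if i = k then M.det else 0 := by
      intro k
      have h3 := congrFun (congrFun (Matrix.mul_adjugate M) i) k
      rw [Matrix.mul_apply, Matrix.smul_apply, Matrix.one_apply, smul_eq_mul] at h3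
      have h4 : ∀ l, M i l = pderiv (T l) (F i) := fun l => rfl
      simp only [h4] at h3
      rw [h3]
      split_ifs
      · rw [mul_one]
      · rw [mul_zero]
    simp only [Finset.sum_mul]
    rw [Finset.sum_comm]
    have h5 : ∀ k, ∑ l, M.adjugate l k * pderiv j (F k) * pderiv (T l) (F i) =
        if i = k then M.det * pderiv j (F k) else 0 := by
      intro k
      have h6 : ∑ l, M.adjugate l k * pderiv j (F k) * pderiv (T l) (F i) =
          (∑ l, pderiv (T l) (F i) * M.adjugate l k) * pderiv j (F k) := by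
        rw [Finset.sum_mul]
        refine Finset.sum_congr rfl (fun l _ => by ring)
      rw [h6, h2, ite_mul, zero_mul]
    rw [Finset.sum_congr rfl (fun k _ => h5 k), Finset.sum_ite_eq, if_pos (Finset.mem_univ _)]
  have hVI : ∀ j, ∀ h ∈ I, ∑ b, V j b * pderiv b h ∈ I := by
    intro j h hh
    obtain ⟨u, hu, hmem⟩ := (point_case I hI p₀ hp₀ c F hF hli).2 hdim h hh
    obtain ⟨g, hg⟩ := (Submodule.mem_span_range_iff_exists_fun _).mp hmem
    have huI : u ∉ I := fun h => hu (hp₀ _ h)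
    have h1 : ∑ b, V j b * pderiv b (u * h) = ∑ i, (∑ b, V j b * pderiv b (g i)) * F i := by
      rw [← hg]
      simp only [smul_eq_mul, map_sum, pderiv_mul, Finset.mul_sum, Finset.sum_mul]
      rw [Finset.sum_comm]
      refine Finset.sum_congr rfl (fun i _ => ?_)
      have h2 : ∑ b, V j b * (pderiv b (g i) * F i + g i * pderiv b (F i)) =
          (∑ b, V j b * pderiv b (g i) * F i) + g i * ∑ b, V j b * pderiv b (F i) := by
        rw [Finset.mul_sum, ← Finset.sum_add_distrib]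
        refine Finset.sum_congr rfl (fun b _ => by ring)
      rw [h2, hVF, mul_zero, add_zero]
    have h2 : ∑ b, V j b * pderiv b (u * h) = (∑ b, V j b * pderiv b u) * h +
        u * ∑ b, V j b * pderiv b h := by
      rw [Finset.mul_sum, Finset.sum_mul, ← Finset.sum_add_distrib]
      refine Finset.sum_congr rfl (fun b _ => ?_)
      rw [pderiv_mul]
      ring
    have h3 : u * ∑ b, V j b * pderiv b h ∈ I := by
      have h4 : u * ∑ b, V j b * pderiv b h = (∑ i, (∑ b, V j b * pderiv b (g i)) * F i) -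
          (∑ b, V j b * pderiv b u) * h := by
        rw [← h1, h2]; ring
      rw [h4]
      exact Ideal.sub_mem _ (Ideal.sum_mem _ (fun i _ => Ideal.mul_mem_left _ _ (hF i)))
        (Ideal.mul_mem_left _ _ hh)
    exact (hI.mem_or_mem h3).resolve_left huI
  -- bad sets
  have hbad : ∀ j, ∃ g, g ∉ I ∧ ∀ q : ρ ⊕ ρ → ℂ,
      (∀ z : Fin 2 → ℂ, ∀ h ∈ I, eval (z 0 • pl1 q + z 1 • pl2 q) h = 0) →
      eval (pl1 q) g ≠ 0 → ∃ b : ρ → ℂ, ∀ h ∈ I, ∀ z : Fin 2 → ℂ,
        grad (z 0 • pl1 q + z 1 • pl2 q) h ⬝ᵥ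
          (z 0 • rowEval (pl1 q) (V j) + z 1 • b) = 0 := by
    intro j
    by_contra hno
    push Not at hno
    obtain ⟨q, hq, b, hb⟩ := free_generic I hI (V j) (hVI j)
      {q | (∀ z : Fin 2 → ℂ, ∀ h ∈ I, eval (z 0 • pl1 q + z 1 • pl2 q) h = 0) ∧
        ¬ ∃ b : ρ → ℂ, ∀ h ∈ I, ∀ z : Fin 2 → ℂ,
        grad (z 0 • pl1 q + z 1 • pl2 q) h ⬝ᵥ
          (z 0 • rowEval (pl1 q) (V j) + z 1 • b) = 0} (fun q hq => hq.1) (by
      intro g hg
      by_contra hgI
      obtain ⟨q, hq1, hq2, hq3⟩ := hno g hgI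
      apply hq2
      apply hg q
      refine ⟨hq1, ?_⟩
      rintro ⟨b, hb⟩
      obtain ⟨h, hh, z, hz⟩ := hq3 b
      exact hz (hb h hh z))
    exact hq.2 ⟨b, hb⟩
  choose g hgI hg using hbad
  obtain ⟨x, hx, hxne⟩ : ∃ x : ρ → ℂ, (∀ h ∈ I, eval x h = 0) ∧
      eval x (Δ₀ * M.det * ∏ j, g j) ≠ 0 := by
    by_contra hno
    push Not at hno
    have h1 := mem_of_eval_zero hI hno
    rcases hI.mem_or_mem h1 with h2 | h2
    · rcases hI.mem_or_mem h2 with h3 | h3
      · exact hΔ₀ h3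
      · exact hΔI h3
    · obtain ⟨j, -, hj⟩ := (hI.prod_mem_iff).mp h2
      exact hgI j hj
  rw [map_mul, map_mul, map_prod] at hxne
  have hx1 := left_ne_zero_of_mul (left_ne_zero_of_mul hxne)
  have hx2 := right_ne_zero_of_mul (left_ne_zero_of_mul hxne)
  have hx3 := Finset.prod_ne_zero_iff.mp (right_ne_zero_of_mul hxne)
  refine ⟨x, hx, hx1, ?_, ?_⟩
  · have h1 := rowEval_li_of_det x (fun i b => pderiv b (F i)) T hx2
    have h2 : ∀ i, rowEval x (fun b => pderiv b (F i)) = grad x (F i) := by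
      intro i
      funext b
      rw [grad_apply]
      rfl
    simp only [h2] at h1
    exact h1
  · intro w hw a ha
    have h1 : ∀ j, ∃ b : ρ → ℂ, ∀ h ∈ I, ∀ z : Fin 2 → ℂ,
        grad (z 0 • x + z 1 • w) h ⬝ᵥ (z 0 • rowEval x (V j) + z 1 • b) = 0 := by
      intro j
      exact hg j (Sum.elim x w) hw (hx3 j (Finset.mem_univ _))
    choose b hb using h1
    have h2 : eval x M.det • a = ∑ j, a j • rowEval x (V j) := by
      funext b'
      rw [Pi.smul_apply, Finset.sum_apply, smul_eq_mul]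
      have h3 : ∀ j, (a j • rowEval x (V j)) b' = a j * (eval x M.det * (if j = b' then 1 else 0)) -
          ∑ l, if T l = b' then ∑ k, eval x (M.adjugate l k) *
            (a j * grad x (F k) j) else 0 := by
        intro j
        rw [Pi.smul_apply, smul_eq_mul, rowEval_apply]
        simp only [hV, map_sub, map_mul, map_sum, mul_sub, Finset.mul_sum]
        congr 1
        · split_ifs <;> simp
        · refine Finset.sum_congr rfl (fun l _ => ?_)
          split_ifs
          · rw [map_sum, Finset.mul_sum]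
            refine Finset.sum_congr rfl (fun k _ => ?_)
            rw [map_mul, grad_apply]
            ring
          · rw [map_zero, mul_zero]
      rw [Finset.sum_congr rfl (fun j _ => h3 j), Finset.sum_sub_distrib]
      have h4 : ∑ j, a j * (eval x M.det * (if j = b' then 1 else 0)) = eval x M.det * a b' := by
        rw [Finset.sum_eq_single b']
        · rw [if_pos rfl]; ring
        · intro j _ hj
          rw [if_neg hj]; ring
        · intro h; exact absurd (Finset.mem_univ _) h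
      have h5 : ∑ j, ∑ l, (if T l = b' then ∑ k, eval x (M.adjugate l k) *
            (a j * grad x (F k) j) else 0) = 0 := by
        rw [Finset.sum_comm]
        refine Finset.sum_eq_zero (fun l _ => ?_)
        split_ifs
        · rw [Finset.sum_comm]
          refine Finset.sum_eq_zero (fun k _ => ?_)
          rw [← Finset.mul_sum]
          have h6 : ∑ j, a j * grad x (F k) j = grad x (F k) ⬝ᵥ a := by
            rw [dotProduct]
            exact Finset.sum_congr rfl (fun j _ => mul_comm _ _)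
          rw [h6, ha k, mul_zero]
        · exact Finset.sum_const_zero
      rw [h4, h5, sub_zero]
    refine ⟨(eval x M.det)⁻¹ • ∑ j, a j • b j, ?_⟩
    intro h hh z
    set D := eval x M.det with hD
    have h3 : D • (z 0 • a + z 1 • (D⁻¹ • ∑ j, a j • b j) : ρ → ℂ) =
        ∑ j, a j • (z 0 • rowEval x (V j) + z 1 • b j) := by
      have h4 : D • (z 0 • a + z 1 • (D⁻¹ • ∑ j, a j • b j) : ρ → ℂ) =
          z 0 • (D • a) + z 1 • ∑ j, a j • b j := by
        rw [smul_add, smul_comm D (z 0) a, smul_comm D (z 1), smul_smul D D⁻¹,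
          mul_inv_cancel₀ hx2, one_smul]
      rw [h4, h2, Finset.smul_sum, Finset.smul_sum, ← Finset.sum_add_distrib]
      refine Finset.sum_congr rfl (fun j _ => ?_)
      rw [smul_add, smul_comm (z 0), smul_comm (z 1)]
    have h4 : D * (grad (z 0 • x + z 1 • w) h ⬝ᵥ
        (z 0 • a + z 1 • (D⁻¹ • ∑ j, a j • b j))) = 0 := by
      rw [← smul_eq_mul, ← dotProduct_smul, h3, dotProduct_sum]
      exact Finset.sum_eq_zero (fun j _ => by rw [dotProduct_smul, hb j h hh z, smul_zero])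
    exact (mul_eq_zero.mp h4).resolve_left hx2

end Line

end Pool.Agent.Hartshorne
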