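import Mathlib
import Pool.Agent.Hartshorne.Final
import Pool.Agent.Hartshorne.FinalZ
import Pool.Agent.Hartshorne.Gen

/-!
Construction of the data for the cone of lines through a general point.
-/

namespace Pool.Agent.Hartshorne

open MvPolynomial

set_option linter.unusedSectionVars false

section Perm

lemma exists_perm_of_det {c : ℕ} (A : Matrix (Fin c) (Fin c) ℂ) (h : A.det ≠ 0) :
    ∃ σ : Equiv.Perm (Fin c), ∀ k, A k (σ k) ≠ 0 := by
  rw [Matrix.det_apply] at h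
  obtain ⟨σ, -, hσ⟩ := Finset.exists_ne_zero_of_sum_ne_zero h
  refine ⟨σ⁻¹, fun k => ?_⟩
  intro h0
  apply hσ
  rw [Finset.prod_eq_zero (Finset.mem_univ (σ⁻¹ k)), smul_zero]
  have h1 : σ (σ⁻¹ k) = k := by simp
  rw [h1]
  exact h0

lemma exists_perm_of_li {c : ℕ} {V : Type*} [AddCommGroup V] [Module ℂ V] {w b : Fin c → V}
    (A : Fin c → Fin c → ℂ) (hb : LinearIndependent ℂ b) (hA : ∀ k, b k = ∑ i, A k i • w i) :
    ∃ σ : Equiv.Perm (Fin c), ∀ k, A k (σ k) ≠ 0 := by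
  apply exists_perm_of_det (Matrix.of A)
  intro h0
  obtain ⟨t, ht0, ht⟩ := Matrix.exists_vecMul_eq_zero_iff.mpr h0
  apply ht0
  have h1 : ∑ k, t k • b k = 0 := by
    have h2 : ∀ k, t k • b k = ∑ i, (t k * A k i) • w i := by
      intro k
      rw [hA, Finset.smul_sum]
      exact Finset.sum_congr rfl (fun i _ => smul_smul _ _ _)
    rw [Finset.sum_congr rfl (fun k _ => h2 k), Finset.sum_comm]
    refine Finset.sum_eq_zero (fun i _ => ?_)
    rw [← Finset.sum_smul]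
    have h3 := congrFun ht i
    rw [Matrix.vecMul, dotProduct] at h3
    have h4 : ∑ k, t k * A k i = 0 := h3
    rw [h4, zero_smul]
  funext k
  exact Fintype.linearIndependent_iff.mp hb t h1 k

end Perm

section Build

variable {ρ : Type*} [Fintype ρ] [DecidableEq ρ] {c d D n : ℕ}
  {I : Ideal (MvPolynomial ρ ℂ)} {x : ρ → ℂ} {u : Fin n → (ρ → ℂ)}
  {F₀ F' : Fin c → MvPolynomial ρ ℂ} {d' : Fin c → ℕ}

lemma grad_sum_C {κ : Type*} [Fintype κ] (p : ρ → ℂ) (a : κ → ℂ) (g : κ → MvPolynomial ρ ℂ) :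
    grad p (∑ j, C (a j) * g j) = ∑ j, a j • grad p (g j) := by
  funext b
  rw [grad_apply, map_sum, map_sum, Finset.sum_apply]
  refine Finset.sum_congr rfl (fun j _ => ?_)
  rw [pderiv_mul, pderiv_C, zero_mul, zero_add, map_mul, eval_C, Pi.smul_apply, smul_eq_mul,
    grad_apply]

lemma eval_cf_one (x : ρ → ℂ) (u : Fin n → (ρ → ℂ)) (v : Fin n → ℂ) (f : MvPolynomial ρ ℂ) :
    eval v (cf x u 1 f) = ∑ b, grad x f b * comb u v b := by
  rw [cf, eval_hc_one]
  have h1 : ∀ k, grad 0 (aff x u f) k = ∑ b, u k b * grad x f b := by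
    intro k
    rw [grad_apply, pderiv_aff, map_sum]
    refine Finset.sum_congr rfl (fun b _ => ?_)
    rw [map_mul, eval_C, eval_aff, map_zero, add_zero, grad_apply]
  have h2 : ∀ b, comb u v b = ∑ k, v k * u k b := by
    intro b
    rw [comb_apply, Finset.sum_apply]
    rfl
  simp only [h1, h2, Finset.sum_mul, Finset.mul_sum]
  rw [Finset.sum_comm]
  exact Finset.sum_congr rfl (fun b _ => Finset.sum_congr rfl (fun k _ => by ring))

/-- A line in the variety is tangent. -/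
lemma grad_of_line {x w : ρ → ℂ} {f : MvPolynomial ρ ℂ} {e : ℕ} (hf : f.IsHomogeneous e)
    (he : 0 < e) (hline : ∀ z, eval (comb (ln x w) z) f = 0) : ∑ b, grad x f b * w b = 0 := by
  have h1 : comb (fun _ : Fin 1 => w) (fun _ => 1) = w := by
    rw [comb_apply]
    simp
  have h2 := (pencil_iff x (fun _ : Fin 1 => w) hf (by
    have h3 := hline (pt 0)
    rwa [comb_ln_one] at h3) (fun _ => 1)).mpr (by
    rw [h1]
    exact hline) ⟨0, he⟩
  have h3 := eval_cf_one x (fun _ : Fin 1 => w) (fun _ => 1) f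
  rw [h1] at h3
  rw [← h3]
  exact h2

/-- The tangent space at the vertex. -/
noncomputable def gmap (x : ρ → ℂ) (F' : Fin c → MvPolynomial ρ ℂ) :
    (ρ → ℂ) →ₗ[ℂ] (Fin c → ℂ) where
  toFun := fun w i => ∑ b, grad x (F' i) b * w b
  map_add' := by
    intro w w'; funext i
    simp [mul_add, Finset.sum_add_distrib]
  map_smul' := by
    intro t w; funext i
    simp only [Pi.smul_apply, smul_eq_mul, RingHom.id_apply, Finset.mul_sum]
    exact Finset.sum_congr rfl (fun b _ => by ring)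

lemma gmap_apply (x : ρ → ℂ) (F' : Fin c → MvPolynomial ρ ℂ) (w : ρ → ℂ) (i : Fin c) :
    gmap x F' w i = ∑ b, grad x (F' i) b * w b := rfl

lemma finrank_ker_gmap (x : ρ → ℂ) (F' : Fin c → MvPolynomial ρ ℂ) :
    Fintype.card ρ ≤ Module.finrank ℂ (LinearMap.ker (gmap x F')) + c := by
  have h1 := LinearMap.finrank_range_add_finrank_ker (gmap x F')
  rw [Module.finrank_fintype_fun_eq_card] at h1
  have h2 : Module.finrank ℂ (LinearMap.range (gmap x F')) ≤ c := by
    have := Submodule.finrank_le (LinearMap.range (gmap x F'))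
    rwa [Module.finrank_fintype_fun_eq_card, Fintype.card_fin] at this
  omega

lemma MixF.vanish (hS : Setup I c D (⊤ : Submodule ℂ (ρ → ℂ)))
    (hM : MixF I x d F' d') (hx : ∀ h ∈ I, eval x h = 0) {w : ρ → ℂ}
    (hF : ∀ i z, eval (comb (ln x w) z) (F' i) = 0) :
    ∀ z, ∀ h ∈ I, eval (comb (ln x w) z) h = 0 :=
  vanish_on I hS.hI hS.hdim (ln x w) (pt 0) (by rw [comb_ln_one]; exact hx) F'
    (fun i => (hM.hF i).1) (by rw [comb_ln_one]; exact hM.hli) hF

/-- The filtration of the gradient space at the vertex is the same for all lines. -/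
theorem Base.filtrationT (hS : Setup I c D (⊤ : Submodule ℂ (ρ → ℂ)))
    (hB : Base I c d (⊤ : Submodule ℂ (ρ → ℂ)) x F₀) (hM : MixF I x d F' d')
    (hcard : 3 * ∑ i, (d' i - 1) + c + 1 < Fintype.card ρ) :
    ∃ W : ℕ → Submodule ℂ (ρ → ℂ), ∀ w, LinearIndependent ℂ (ln x w) →
      (∀ i z, eval (comb (ln x w) z) (F₀ i) = 0) →
      ∀ e, Wsp (fun z => gradSpan I (comb (ln x w) z)) e = W e := by
  classical
  set Λ := LinearMap.ker (gmap x F') with hΛ
  have hfr := finrank_ker_gmap x F'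
  rw [← hΛ] at hfr
  have hxΛ : x ∈ Λ := by
    rw [hΛ, LinearMap.mem_ker]
    funext i
    have h1 := grad_dot_line (x := x) (w := 0) (g := F' i) (by
      intro z
      rw [comb_ln, smul_zero, add_zero, eval_smul_of_isHomogeneous (hM.hF i).2,
        hB.hxI _ (hM.hF i).1, mul_zero]) (pt 0)
    rw [comb_ln_one] at h1
    exact h1
  obtain ⟨n, hn⟩ : ∃ n, n + 1 = Module.finrank ℂ Λ := ⟨Module.finrank ℂ Λ - 1, by omega⟩
  obtain ⟨u, hu, hli, hdec⟩ := exists_basis_cons Λ hxΛ hB.hx0 hn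
  set y : (Σ i : Fin c, Fin (d' i - 1)) → MvPolynomial (Fin n) ℂ :=
    fun q => cf x u ((q.2 : ℕ) + 2) (F' q.1) with hy
  have hlines : ∀ v : Fin n → ℂ, (∀ q, eval v (y q) = 0) →
      ∀ i z, eval (comb (ln x (comb u v)) z) (F' i) = 0 := by
    intro v hv i
    refine (pencil_iff x u (hM.hF i).2 (hB.hxI _ (hM.hF i).1) v).mp (fun j => ?_)
    obtain ⟨j, hj⟩ := j
    rcases Nat.eq_zero_or_pos j with rfl | hj0
    · rw [zero_add, eval_cf_one]
      have h1 : comb u v ∈ Λ := comb_mem hu v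
      rw [hΛ, LinearMap.mem_ker] at h1
      exact congrFun h1 i
    · have h1 := hv ⟨i, ⟨j - 1, by omega⟩⟩
      rw [hy] at h1
      simp only at h1
      rw [show j - 1 + 2 = j + 1 by omega] at h1
      exact h1
  have hP : Pencil I x u c d D F₀ y :=
    { vertex := hB.vertex hS
      hD := hS.hD
      hy := fun q => ⟨_, cf_isHomogeneous x u _ _⟩
      good := by
        intro v hv0 hv z hz
        have hvan := hM.vanish hS hB.hxI (hlines v hv)
        exact hS.good _ Submodule.mem_top (ne_zero_of_li_cons hli hv0 hz) (hvan z) }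
  have hcardS : Fintype.card (Σ i : Fin c, Fin (d' i - 1)) = ∑ i, (d' i - 1) := by
    rw [Fintype.card_sigma]
    exact Finset.sum_congr rfl (fun i _ => Fintype.card_fin _)
  -- reduction to the lines of the pencil
  have hred : ∀ w, LinearIndependent ℂ (ln x w) →
      (∀ i z, eval (comb (ln x w) z) (F₀ i) = 0) → ∃ v : Fin n → ℂ, v ≠ 0 ∧
        (∀ p, eval v (y p) = 0) ∧
        ∀ e, Wsp (fun z => gradSpan I (comb (ln x w) z)) e = Wsp (El I x u v) e := by
    intro w hwli hwF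
    have hvan := hB.line_van hS hwF
    have hw : w ∈ Λ := by
      rw [hΛ, LinearMap.mem_ker]
      funext i
      exact grad_of_line (hM.hF i).2 (hM.hd1 i) (fun z => hvan z _ (hM.hF i).1)
    obtain ⟨a, v, rfl⟩ := hdec w hw
    have hcomb : ∀ z, comb (ln x (a • x + comb u v)) z = comb (pl x u v) (shear a z) := by
      intro z
      rw [comb_ln, comb_pl, shear_apply]
      simp only [Matrix.cons_val_zero, Matrix.cons_val_one, smul_add, smul_smul, add_smul]
      rw [mul_comm (z 1) a, add_assoc]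
    refine ⟨v, ?_, ?_, ?_⟩
    · rintro rfl
      have h1 := Fintype.linearIndependent_iff.mp hwli ![-a, 1] (by
        rw [Fin.sum_univ_two]
        simp [ln]) 1
      simp at h1
    · rintro ⟨i, j⟩
      have h1 := (pencil_iff x u (hM.hF i).2 (hB.hxI _ (hM.hF i).1) v).mpr (by
        intro z
        have h2 := hvan ((shear a).symm z) _ (hM.hF i).1
        rw [hcomb, LinearEquiv.apply_symm_apply] at h2
        exact h2)
      have h2 := j.2
      exact h1 ⟨(j : ℕ) + 1, by omega⟩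
    · intro e
      have h1 := Wsp_comp (El I x u v) (shear a) (shear_pt a) e
      rw [← h1]
      congr 1
      funext z
      rw [hcomb]
      rfl
  by_cases hex : ∃ v : Fin n → ℂ, v ≠ 0 ∧ ∀ p, eval v (y p) = 0
  · obtain ⟨v₀, hv₀, hv₀y⟩ := hex
    refine ⟨fun e => Wsp (El I x u v₀) e, ?_⟩
    intro w hwli hwF e
    obtain ⟨v, hv, hvy, hWv⟩ := hred w hwli hwF
    rw [hWv e]
    exact hP.Wsp_const' hM (by rw [hcardS]; omega) hvy hv hv₀y hv₀ e
  · refine ⟨fun _ => ⊥, ?_⟩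
    intro w hwli hwF e
    obtain ⟨v, hv, hvy, -⟩ := hred w hwli hwF
    exact absurd ⟨v, hv, hvy⟩ hex

/-- The data for the cone of lines through a free point. -/
theorem Base.coneS (hS : Setup I c D (⊤ : Submodule ℂ (ρ → ℂ)))
    (hB : Base I c d (⊤ : Submodule ℂ (ρ → ℂ)) x F₀) (hM : MixF I x d F' d')
    (hbas : LinearIndependent ℂ (Fin.cons x u : Fin (n + 1) → (ρ → ℂ)))
    (hn : n + 1 = Fintype.card ρ) (hcd : ∑ i, d' i < n)
    (W : ℕ → Submodule ℂ (ρ → ℂ))
    (hW : ∀ v : Fin n → ℂ, v ≠ 0 → (∀ i z, eval (comb (pl x u v) z) (F₀ i) = 0) →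
      ∀ e, Wsp (El I x u v) e = W e)
    (hfree : ∀ w : ρ → ℂ, (∀ z : Fin 2 → ℂ, ∀ h ∈ I, eval (z 0 • x + z 1 • w) h = 0) →
        ∀ a : ρ → ℂ, (∀ i, grad x (F' i) ⬝ᵥ a = 0) → ∃ b : ρ → ℂ, ∀ h ∈ I, ∀ z : Fin 2 → ℂ,
          grad (z 0 • x + z 1 • w) h ⬝ᵥ (z 0 • a + z 1 • b) = 0) :
    ∃ (F : Fin c → MvPolynomial ρ ℂ) (f : Fin c → ℕ), ∑ i, (f i + 1) ≤ ∑ i, d' i ∧
      ConeS I x u c d D F f := by
  classical
  have hP := hB.pencil hS u (fun _ => Submodule.mem_top) hbas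
  have hcardD : Fintype.card (Σ i : Fin c, Fin (d' i)) = ∑ i, d' i := by
    rw [Fintype.card_sigma]
    exact Finset.sum_congr rfl (fun i _ => Fintype.card_fin _)
  obtain ⟨v₀, hv₀0, hv₀⟩ := exists_common_zero (ι := Fin n)
    (fun q : (Σ i : Fin c, Fin (d' i)) => cf x u ((q.2 : ℕ) + 1) (F' q.1))
    (fun q => eval_zero_hc_succ _ _) (by
      rw [hcardD, Fintype.card_fin]
      exact hcd)
  have hl' : ∀ i z, eval (comb (ln x (comb u v₀)) z) (F' i) = 0 := fun i =>
    (pencil_iff x u (hM.hF i).2 (hB.hxI _ (hM.hF i).1) v₀).mp (fun j => hv₀ ⟨i, j⟩)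
  have hl₀ : ∀ i z, eval (comb (pl x u v₀) z) (F₀ i) = 0 := fun i z =>
    hM.vanish hS hB.hxI hl' z _ (hB.hF i).1
  have hgl := hP.good v₀ hv₀0 (fun p =>
    (pencil_iff x u (hB.hF p.1).2 (hB.hxI _ (hB.hF p.1).1) v₀).mpr (hl₀ p.1) p.2)
  obtain ⟨w, f, hwli, hwW, hwspan⟩ := exists_adapted (isBundle_El I x u hgl)
  have hfd : ∑ i, (f i + 1) ≤ ∑ i, d' i := by
    have h1 : ∀ k, ∃ a : Fin c → ℂ, (∀ i, d' k - 1 < f i → a i = 0) ∧
        grad x (F' k) = ∑ i, a i • w i := by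
      intro k
      apply hwspan
      refine ⟨gRow (pl x u v₀) (F' k), homRow_gRow _ (hM.hF k).2, inE_gRow (hM.hF k).1 v₀, ?_⟩
      rw [rowEval_gRow, comb_pl]
      simp [pt]
    choose A hA0 hA using h1
    obtain ⟨σ, hσ⟩ := exists_perm_of_li A hM.hli hA
    have h2 : ∀ k, f (σ k) + 1 ≤ d' k := by
      intro k
      have h3 : ¬ (d' k - 1 < f (σ k)) := fun h => hσ k (hA0 k _ h)
      have h4 := hM.hd1 k
      omega
    rw [← Equiv.sum_comp σ (fun i => f i + 1)]
    exact Finset.sum_le_sum (fun k _ => h2 k)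
  have hwg : ∀ i, w i ∈ Submodule.span ℂ (Set.range fun i => grad x (F₀ i)) := by
    intro i
    rw [hP.vertex.span_eq, ← El_pt_zero I x u v₀]
    exact Wsp_le _ _ (hwW i)
  choose A hA using fun i => (Submodule.mem_span_range_iff_exists_fun _).mp (hwg i)
  have hFI : ∀ i, (∑ j, C (A i j) * F₀ j) ∈ I ∧ (∑ j, C (A i j) * F₀ j).IsHomogeneous d := by
    intro i
    refine ⟨Ideal.sum_mem _ (fun j _ => Ideal.mul_mem_left _ _ (hB.hF j).1), ?_⟩
    refine IsHomogeneous.sum _ _ _ (fun j _ => ?_)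
    exact (hB.hF j).2.C_mul _
  have hFg : ∀ i, grad x (∑ j, C (A i j) * F₀ j) = w i := by
    intro i
    rw [grad_sum_C, hA]
  have hli : LinearIndependent ℂ (fun i => grad x (∑ j, C (A i j) * F₀ j)) := by
    have h1 : (fun i => grad x (∑ j, C (A i j) * F₀ j)) = w := funext hFg
    rw [h1]
    exact hwli
  have hback : ∀ v : Fin n → ℂ, (∀ i z, eval (comb (pl x u v) z) (∑ j, C (A i j) * F₀ j) = 0) →
      ∀ z, ∀ h ∈ I, eval (comb (pl x u v) z) h = 0 := by
    intro v hv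
    exact vanish_on I hS.hI hS.hdim (pl x u v) (pt 0) (by rw [pl, comb_ln_one]; exact hB.hxI)
      (fun i => ∑ j, C (A i j) * F₀ j) (fun i => (hFI i).1)
      (by rw [pl, comb_ln_one]; exact hli) hv
  have hWv : ∀ v : Fin n → ℂ, v ≠ 0 →
      (∀ i z, eval (comb (pl x u v) z) (∑ j, C (A i j) * F₀ j) = 0) →
      ∀ e, Wsp (El I x u v) e = Wsp (El I x u v₀) e := by
    intro v hv0 hv e
    rw [hW v hv0 (fun i z => hback v hv z _ (hB.hF i).1) e, hW v₀ hv₀0 hl₀ e]
  refine ⟨fun i => ∑ j, C (A i j) * F₀ j, f, hfd, ?_⟩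
  refine
    { hI := hS.hI
      hhom := hS.hhom
      hdim := hS.hdim
      hD := hS.hD
      hd := hB.hd
      hx := hB.hxI
      hF := hFI
      hli := hli
      good := fun p hp0 hp => hS.good p Submodule.mem_top hp0 hp
      hbas := hbas
      hn := hn
      ad1 := ?_
      ad2 := ?_
      free := ?_ }
  · intro v hv0 hv i
    rw [hWv v hv0 hv, hFg]
    exact hwW i
  · intro v hv0 hv e y hy
    rw [hWv v hv0 hv] at hy
    obtain ⟨a, ha, hay⟩ := hwspan e y hy
    refine ⟨a, ha, ?_⟩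
    rw [hay]
    exact Finset.sum_congr rfl (fun i _ => by rw [hFg])
  · intro v hv a ha
    have h1 := hback v hv
    obtain ⟨b, hb⟩ := hfree (comb u v) (fun z h hh => by
      have h2 := h1 z h hh
      rwa [comb_pl] at h2) a (by
      intro j
      have h2 : grad x (F' j) ∈ Submodule.span ℂ (Set.range w) := by
        rw [span_eq_of_li (hB.fr hS) w hwli (fun i => by
          rw [← El_pt_zero I x u v₀]
          exact Wsp_le _ _ (hwW i))]
        exact grad_mem_gradSpan (hM.hF j).1 x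
      obtain ⟨t, ht⟩ := (Submodule.mem_span_range_iff_exists_fun _).mp h2
      rw [← ht, sum_dotProduct]
      refine Finset.sum_eq_zero (fun i _ => ?_)
      rw [smul_dotProduct, ← hFg, ha i, smul_zero])
    refine ⟨b, fun h hh z => ?_⟩
    rw [comb_pl]
    exact hb h hh z

end Build

section Core

variable {ρ : Type} [Fintype ρ] [DecidableEq ρ]

lemma raise_frame {c : ℕ} {I : Ideal (MvPolynomial ρ ℂ)} {p : ρ → ℂ}
    (hp : ∀ h ∈ I, eval p h = 0) {i₀ : ρ} (hi₀ : p i₀ ≠ 0) (q : Fin c → MvPolynomial ρ ℂ)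
    (e d' : Fin c → ℕ) (he : ∀ k, e k ≤ d' k) (hq : ∀ k, q k ∈ I ∧ (q k).IsHomogeneous (e k))
    (hli : LinearIndependent ℂ (fun k => grad p (q k))) :
    (∀ k, X i₀ ^ (d' k - e k) * q k ∈ I ∧
      (X i₀ ^ (d' k - e k) * q k).IsHomogeneous (d' k)) ∧
      LinearIndependent ℂ (fun k => grad p (X i₀ ^ (d' k - e k) * q k)) := by
  refine ⟨fun k => ⟨Ideal.mul_mem_left _ _ (hq k).1, ?_⟩, ?_⟩
  · have h1 := ((isHomogeneous_X ℂ i₀).pow (d' k - e k)).mul (hq k).2
    rw [one_mul, Nat.sub_add_cancel (he k)] at h1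
    exact h1
  · have h2 : (fun k => grad p (X i₀ ^ (d' k - e k) * q k)) =
        (fun k => (Units.mk0 (p i₀ ^ (d' k - e k)) (pow_ne_zero _ hi₀)) • grad p (q k)) := by
      funext k
      rw [grad_X_pow_mul i₀ _ (hp _ (hq k).1)]
      rfl
    rw [h2]
    exact hli.units_smul _

/-- Comparison of degrees. -/
lemma exists_perm_degrees {c : ℕ} {I : Ideal (MvPolynomial ρ ℂ)} {x : ρ → ℂ}
    (hx : ∀ h ∈ I, eval x h = 0) (F' : Fin c → MvPolynomial ρ ℂ) (d' : Fin c → ℕ)
    (hF : ∀ i, F' i ∈ I ∧ (F' i).IsHomogeneous (d' i))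
    (hli : LinearIndependent ℂ (fun i => grad x (F' i))) (G : Fin c → MvPolynomial ρ ℂ)
    (g : Fin c → ℕ) (hG : ∀ i, (G i).IsHomogeneous (g i))
    (hGI : Ideal.span (Set.range G) = I) :
    ∃ σ : Equiv.Perm (Fin c), ∀ k, g (σ k) ≤ d' k := by
  classical
  have hGm : ∀ i, G i ∈ I := fun i => by rw [← hGI]; exact Ideal.subset_span ⟨i, rfl⟩
  have h1 : ∀ k, ∃ B : Fin c → MvPolynomial ρ ℂ, ∑ j, B j * G j = F' k := by
    intro k
    have h2 := (hF k).1
    rw [← hGI] at h2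
    obtain ⟨B, hB⟩ := (Submodule.mem_span_range_iff_exists_fun _).mp h2
    exact ⟨B, hB⟩
  choose B hB using h1
  obtain ⟨σ, hσ⟩ := exists_perm_of_li (w := fun j => grad x (G j))
    (fun k j => if g j ≤ d' k then eval x (homogeneousComponent (d' k - g j) (B k j)) else 0)
    hli (by
      intro k
      have h2 : F' k = ∑ j, (if g j ≤ d' k then
          homogeneousComponent (d' k - g j) (B k j) * G j else 0) := by
        have h3 : homogeneousComponent (d' k) (F' k) = F' k := by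
          rw [homogeneousComponent_of_mem (hF k).2, if_pos rfl]
        conv_lhs => rw [← h3, ← hB k, map_sum]
        exact Finset.sum_congr rfl (fun j _ => homogeneousComponent_mul_right (hG j) _ _)
      funext b
      rw [grad_apply]
      conv_lhs => rw [h2]
      rw [map_sum, map_sum, Finset.sum_apply]
      refine Finset.sum_congr rfl (fun j _ => ?_)
      split_ifs
      · rw [pderiv_mul, map_add, map_mul, map_mul, hx _ (hGm j), mul_zero, zero_add,
          Pi.smul_apply, smul_eq_mul, grad_apply]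
      · simp)
  refine ⟨σ, fun k => ?_⟩
  by_contra hlt
  exact hσ k (if_neg hlt)

/-- **Main theorem.** -/
theorem core_mixed (c : ℕ) (hc : 0 < c) (d' : Fin c → ℕ) (hd : ∀ i, 2 ≤ d' i)
    (hcard : 3 * ∑ i, (d' i - 1) + c + 1 < Fintype.card ρ)
    (I : Ideal (MvPolynomial ρ ℂ)) (hI : I.IsPrime)
    (hhom : ∀ f ∈ I, ∀ e, homogeneousComponent e f ∈ I)
    (hdim : ((Fintype.card ρ : ℕ) : WithBot ℕ∞) ≤
      ringKrullDim (MvPolynomial ρ ℂ ⧸ I) + (c : WithBot ℕ∞))
    (hsm : ∀ p : ρ → ℂ, p ≠ 0 → (∀ h ∈ I, eval p h = 0) →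
      ∃ q : Fin c → MvPolynomial ρ ℂ, (∀ k, q k ∈ I) ∧
        LinearIndependent ℂ (fun k => fun j => eval p (pderiv j (q k))))
    (hcut : ∃ p : ρ → ℂ, p ≠ 0 ∧ (∀ h ∈ I, eval p h = 0) ∧
      ∃ q : Fin c → MvPolynomial ρ ℂ, (∀ k, q k ∈ I ∧ ∃ e ≤ d' k, (q k).IsHomogeneous e) ∧
        LinearIndependent ℂ (fun k => fun j => eval p (pderiv j (q k)))) :
    ∃ F : Fin c → MvPolynomial ρ ℂ, (∀ k, ∃ e ≤ d' k, (F k).IsHomogeneous e) ∧
      Ideal.span (Set.range F) = I := by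
  classical
  obtain ⟨D, hS⟩ := exists_setup (c := c) (⊤ : Submodule ℂ (ρ → ℂ)) I hI hhom hdim
    (fun p _ hp0 hp => hsm p hp0 hp)
  obtain ⟨p₀, hp₀0, hp₀, q, hq, hqli⟩ := hcut
  choose hqI e he hqe using hq
  obtain ⟨i₀, hi₀⟩ := Function.ne_iff.mp hp₀0
  obtain ⟨hF', hF'li⟩ := raise_frame hp₀ hi₀ q e d' he (fun k => ⟨hqI k, hqe k⟩) hqli
  set F' : Fin c → MvPolynomial ρ ℂ := fun k => X i₀ ^ (d' k - e k) * q k with hF'def
  obtain ⟨x, hx, hxi, hxli, hfree⟩ := exists_free_point I hI F' (fun i => (hF' i).1) hp₀ hF'li hdim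
    (X i₀) (fun h => hi₀ (by
      have := hp₀ _ h
      rwa [eval_X] at this))
  rw [eval_X] at hxi
  have hx0 : x ≠ 0 := by
    rintro rfl
    exact hxi rfl
  obtain ⟨hF₀, hF₀li⟩ := raise_frame hx hxi F' d' (fun _ => ∑ i, d' i)
    (fun k => Finset.single_le_sum (fun _ _ => Nat.zero_le _) (Finset.mem_univ k)) hF' hxli
  have hdpos : 0 < ∑ i, d' i :=
    Finset.sum_pos (fun i _ => by have := hd i; omega) ⟨⟨0, hc⟩, Finset.mem_univ _⟩
  have hB : Base I c (∑ i, d' i) (⊤ : Submodule ℂ (ρ → ℂ)) x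
      (fun k => X i₀ ^ (∑ i, d' i - d' k) * F' k) :=
    { hd := hdpos
      hxΛ := Submodule.mem_top
      hx0 := hx0
      hxI := hx
      hF := hF₀
      hli := hF₀li }
  have hM : MixF I x (∑ i, d' i) F' d' :=
    { hF := hF'
      hd1 := fun i => by have := hd i; omega
      hdd := fun k => Finset.single_le_sum (fun _ _ => Nat.zero_le _) (Finset.mem_univ k)
      hli := hxli }
  obtain ⟨W, hW⟩ := hB.filtrationT hS hM hcard
  have hfr : Module.finrank ℂ (⊤ : Submodule ℂ (ρ → ℂ)) = Fintype.card ρ := by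
    rw [finrank_top, Module.finrank_fintype_fun_eq_card]
  obtain ⟨n, hn⟩ : ∃ n, n + 1 = Module.finrank ℂ (⊤ : Submodule ℂ (ρ → ℂ)) :=
    ⟨Fintype.card ρ - 1, by omega⟩
  obtain ⟨u, -, hbas, -⟩ := exists_basis_cons (⊤ : Submodule ℂ (ρ → ℂ)) Submodule.mem_top hx0 hn
  rw [hfr] at hn
  have hsum1 : ∑ i, d' i = ∑ i, (d' i - 1) + c := by
    have h1 : ∑ i, d' i = ∑ i : Fin c, ((d' i - 1) + 1) :=
      Finset.sum_congr rfl (fun i _ => by have := hd i; omega)
    rw [h1, Finset.sum_add_distrib]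
    simp
  have hsum2 : c ≤ ∑ i, (d' i - 1) := by
    have h2 : ∑ i : Fin c, 1 ≤ ∑ i : Fin c, (d' i - 1) :=
      Finset.sum_le_sum (fun i _ => by have := hd i; omega)
    simpa using h2
  obtain ⟨F, f, hfd, hC⟩ := hB.coneS hS hM hbas hn (by omega) W (by
    intro v hv0 hv e
    refine hW (comb u v) ?_ hv e
    rw [Fintype.linearIndependent_iff]
    intro g hg i
    rw [Fin.sum_univ_two] at hg
    by_contra hgi
    have h1 : g ≠ 0 := by
      rintro rfl
      exact hgi rfl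
    apply ne_zero_of_li_cons hbas hv0 h1
    rw [comb_pl]
    exact hg) hfree
  obtain ⟨G, hG, hGI⟩ := hC.main hc hM (by omega) (by omega)
  obtain ⟨σ, hσ⟩ := exists_perm_degrees hx F' d' hF' hxli G (fun i => f i + 1) hG hGI
  refine ⟨fun k => G (σ k), fun k => ⟨f (σ k) + 1, hσ k, hG _⟩, ?_⟩
  rw [← hGI]
  congr 1
  exact σ.surjective.range_comp G

end Core

end Pool.Agent.Hartshorne
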