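import Mathlib
import Pool.Agent.Hartshorne.Core2

/-!
Codimension two in weighted projective space.
-/

namespace Pool.Agent.Hartshorne

open MvPolynomial

lemma weight_comp {σ τ : Type*} (ρ : τ → σ) (v : σ → ℕ) (s : τ →₀ ℕ) :
    Finsupp.weight (v ∘ ρ) s = Finsupp.weight v (s.mapDomain ρ) := by
  rw [Finsupp.weight_apply, Finsupp.weight_apply,
    Finsupp.sum_mapDomain_index (by simp) (by intro a b c; rw [add_smul])]
  rfl

lemma weightedHomogeneousComponent_rename' {σ τ : Type*} (ρ : τ → σ) (v : σ → ℕ) (e : ℕ)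
    (f : MvPolynomial τ ℂ) : weightedHomogeneousComponent v e (rename ρ f)
      = rename ρ (weightedHomogeneousComponent (v ∘ ρ) e f) := by
  induction f using MvPolynomial.induction_on' with
  | add p q hp hq => rw [map_add, map_add, hp, hq, map_add, map_add]
  | monomial s c =>
    rw [rename_monomial, weightedHomogeneousComponent_of_mem
      (isWeightedHomogeneous_monomial v _ c rfl : _ ∈ weightedHomogeneousSubmodule ℂ v _),
      weightedHomogeneousComponent_of_mem
      (isWeightedHomogeneous_monomial (v ∘ ρ) s c rfl :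
        _ ∈ weightedHomogeneousSubmodule ℂ (v ∘ ρ) _), weight_comp]
    split_ifs
    · rw [rename_monomial]
    · rw [map_zero]

/-- A prime element generating a homogeneous ideal is homogeneous. -/
lemma exists_weight_of_span {σ : Type*} (v : σ → ℕ) (g : MvPolynomial σ ℂ) (hg : g ≠ 0)
    (h : ∀ e, weightedHomogeneousComponent v e g ∈ Ideal.span {g}) :
    ∃ e, IsWeightedHomogeneous v g e := by
  have hex : ∃ e, weightedHomogeneousComponent v e g ≠ 0 := by
    by_contra hcon
    push Not at hcon
    apply hg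
    rw [← finsum_weightedHomogeneousComponent v g]
    simp [hcon]
  obtain ⟨e, he⟩ := hex
  obtain ⟨q, hq⟩ := Ideal.mem_span_singleton.mp (h e)
  apply isWeightedHomogeneous_of_mul v (f := g) (g := q) (e := e)
  · rw [← hq]; exact he
  · rw [← hq]; exact weightedHomogeneousComponent_isWeightedHomogeneous _ _

/-- Prime ideals of small height in a polynomial ring containing a homogeneous element with a
linear term. -/
theorem case_zero {σ : Type*} [Fintype σ] [DecidableEq σ] (v : σ → ℕ) (hv : ∀ i, 0 < v i)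
    (J : Ideal (MvPolynomial σ ℂ)) (hJ : J.IsPrime)
    (hhom : ∀ F ∈ J, ∀ e, weightedHomogeneousComponent v e F ∈ J)
    (hdim : ((Fintype.card σ : ℕ) : WithBot ℕ∞) ≤ ringKrullDim (MvPolynomial σ ℂ ⧸ J) + 1 + 1)
    (F : MvPolynomial σ ℂ) (hF : F ∈ J) (e : ℕ) (hFe : IsWeightedHomogeneous v F e) (a : σ)
    (ha : coeff (Finsupp.single a 1) F ≠ 0) :
    ∃ F' : MvPolynomial σ ℂ, (∃ e', IsWeightedHomogeneous v F' e') ∧
      J = Ideal.span {F, F'} := by
  classical
  set K : Ideal (MvPolynomial σ ℂ) := Ideal.span {F} with hK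
  have hKJ : K ≤ J := by
    rw [hK, Ideal.span_le, Set.singleton_subset_iff]; exact hF
  set C' : Set σ := {a}ᶜ with hC'
  -- surjectivity
  have hzero : ∀ k : Unit, aeval (fun l => Ideal.Quotient.mkₐ ℂ K (X l)) ((fun _ => F) k) = 0 := by
    intro k
    have h1 : aeval (fun l => Ideal.Quotient.mkₐ ℂ K (X l)) F
        = Ideal.Quotient.mkₐ ℂ K (aeval X F) := by
      rw [← AlgHom.comp_apply, comp_aeval]
    show aeval (fun l => Ideal.Quotient.mkₐ ℂ K (X l)) F = 0
    rw [h1, aeval_X_left_apply, Ideal.Quotient.mkₐ_eq_mk, Ideal.Quotient.eq_zero_iff_mem]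
    exact Ideal.mem_span_singleton_self _
  have hspan : ∀ l : σ, (Pi.single l 1 : σ → ℂ) ∈ Submodule.span ℂ
      (Set.range (fun k : Unit => fun l => coeff (Finsupp.single l 1) ((fun _ => F) k)) ∪
        (fun j => (Pi.single j 1 : σ → ℂ)) '' C') := by
    intro l
    set W := Submodule.span ℂ
      (Set.range (fun k : Unit => fun l => coeff (Finsupp.single l 1) ((fun _ => F) k)) ∪
        (fun j => (Pi.single j 1 : σ → ℂ)) '' C') with hW
    have hothers : ∀ l, l ≠ a → (Pi.single l 1 : σ → ℂ) ∈ W := by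
      intro l hl
      exact Submodule.subset_span (Or.inr ⟨l, hl, rfl⟩)
    by_cases hl : l = a
    · subst hl
      have h1 : (fun i => coeff (Finsupp.single i 1) F) ∈ W :=
        Submodule.subset_span (Or.inl ⟨(), rfl⟩)
      have h2 : (fun i => coeff (Finsupp.single i 1) F)
          = ∑ i, coeff (Finsupp.single i 1) F • (Pi.single i 1 : σ → ℂ) := by
        funext j
        simp [Finset.sum_apply, Pi.single_apply]
      rw [h2, ← Finset.add_sum_erase _ _ (Finset.mem_univ l)] at h1
      have h3 : ∑ i ∈ Finset.univ.erase l, coeff (Finsupp.single i 1) F •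
          (Pi.single i 1 : σ → ℂ) ∈ W := by
        refine Submodule.sum_mem _ (fun i hi => Submodule.smul_mem _ _ (hothers i ?_))
        exact (Finset.mem_erase.mp hi).1
      have h4 := (Submodule.add_mem_iff_left _ h3).mp h1
      have h5 := Submodule.smul_mem W (coeff (Finsupp.single l 1) F)⁻¹ h4
      rwa [smul_smul, inv_mul_cancel₀ ha, one_smul] at h5
    · exact hothers l hl
  have helim := elim_variables v hv (fun l => Ideal.Quotient.mkₐ ℂ K (X l))
    (fun _ : Unit => F) (fun _ => e) (fun _ => hFe) hzero C' hspan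
  set ι : MvPolynomial C' ℂ →ₐ[ℂ] MvPolynomial σ ℂ := rename Subtype.val with hι
  have hιinj : Function.Injective ι := rename_injective _ Subtype.val_injective
  have hsurj : ∀ z : MvPolynomial σ ℂ, ∃ t : MvPolynomial C' ℂ, z - ι t ∈ K := by
    intro z
    have h1 : Algebra.adjoin ℂ (Set.range (X : σ → MvPolynomial σ ℂ))
        ≤ (((Ideal.Quotient.mkₐ ℂ K).comp ι).range).comap (Ideal.Quotient.mkₐ ℂ K) := by
      rw [Algebra.adjoin_le_iff]
      rintro _ ⟨l, rfl⟩
      rw [SetLike.mem_coe, Subalgebra.mem_comap]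
      have h2 : Algebra.adjoin ℂ ((fun l => Ideal.Quotient.mkₐ ℂ K (X l)) '' C')
          ≤ ((Ideal.Quotient.mkₐ ℂ K).comp ι).range := by
        rw [Algebra.adjoin_le_iff]
        rintro _ ⟨j, hj, rfl⟩
        refine ⟨X ⟨j, hj⟩, ?_⟩
        show Ideal.Quotient.mkₐ ℂ K (ι (X ⟨j, hj⟩)) = _
        rw [hι, rename_X]
      exact h2 (helim l)
    rw [adjoin_range_X] at h1
    obtain ⟨t, ht⟩ := h1 (Algebra.mem_top (x := z))
    refine ⟨t, ?_⟩
    have h2 : Ideal.Quotient.mkₐ ℂ K (ι t) = Ideal.Quotient.mkₐ ℂ K z := ht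
    rw [Ideal.Quotient.mkₐ_eq_mk] at h2
    exact (Ideal.Quotient.eq).mp h2.symm
  -- the contracted ideal
  set J' := J.comap ι.toRingHom with hJ'
  have hJ'p : J'.IsPrime := Ideal.comap_isPrime _ _
  have hmem : ∀ t, t ∈ J' ↔ ι t ∈ J := fun t => Iff.rfl
  have hdim' : ((Nat.card C' : ℕ) : WithBot ℕ∞) ≤ ringKrullDim (MvPolynomial C' ℂ ⧸ J') + 1 := by
    have h1 : ringKrullDim (MvPolynomial σ ℂ ⧸ J) ≤ ringKrullDim (MvPolynomial C' ℂ ⧸ J') := by
      have hs : Function.Surjective (Ideal.quotientMap J ι.toRingHom (le_refl J')) := by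
        intro y
        obtain ⟨y, rfl⟩ := Ideal.Quotient.mk_surjective y
        obtain ⟨t, ht⟩ := hsurj y
        refine ⟨Ideal.Quotient.mk J' t, ?_⟩
        rw [Ideal.quotientMap_mk]
        exact ((Ideal.Quotient.eq).mpr (hKJ ht)).symm
      exact ringKrullDim_le_of_surjective _ hs
    have h2 : Nat.card C' + 1 = Fintype.card σ := by
      have h3 := Set.ncard_add_ncard_compl ({a} : Set σ)
      rw [Set.ncard_singleton, Nat.card_eq_fintype_card] at h3
      rw [← h3, add_comm]
      rfl
    apply dim_cancel (b := 1)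
    rw [h2]
    refine hdim.trans ?_
    push_cast
    exact add_le_add_left (add_le_add_left h1 1) 1
  have hprinc : ∃ g : MvPolynomial C' ℂ, J' = Ideal.span {g} ∧
      ∃ e', IsWeightedHomogeneous (v ∘ Subtype.val) g e' := by
    by_cases hbot : J' = ⊥
    · exact ⟨0, by rw [hbot]; simp, 0, isWeightedHomogeneous_zero _ _ _⟩
    · obtain ⟨g, hgJ, hg⟩ := hJ'p.exists_mem_prime_of_ne_bot hbot
      have hspang : J' = Ideal.span {g} := by
        by_contra hne
        have hgprime : (Ideal.span {g}).IsPrime := (Ideal.span_singleton_prime hg.ne_zero).mpr hg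
        have hlt1 : Ideal.span {g} < J' := by
          refine lt_of_le_of_ne ?_ (Ne.symm hne)
          rw [Ideal.span_le, Set.singleton_subset_iff]
          exact hgJ
        have hlt0 : (⊥ : Ideal (MvPolynomial C' ℂ)) < Ideal.span {g} := by
          rw [bot_lt_iff_ne_bot, Ne, Ideal.span_singleton_eq_bot]
          exact hg.ne_zero
        have hd1 := ringKrullDim_quotient_succ_le_of_lt hlt0
        have hd2 := ringKrullDim_quotient_succ_le_of_lt hlt1
        have hd0 : ringKrullDim (MvPolynomial C' ℂ ⧸ (⊥ : Ideal (MvPolynomial C' ℂ))) =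
            ((Nat.card C' : ℕ) : WithBot ℕ∞) := by
          rw [ringKrullDim_eq_of_ringEquiv (RingEquiv.quotientBot _),
            MvPolynomial.ringKrullDim_of_isNoetherianRing,
            ringKrullDim_eq_zero_of_field, zero_add]
        rw [hd0] at hd1
        exact dim_contra ((add_le_add_left hd2 1).trans hd1) hdim'
      refine ⟨g, hspang, exists_weight_of_span _ g hg.ne_zero (fun k => ?_)⟩
      rw [← hspang, hmem, hι, ← weightedHomogeneousComponent_rename']
      exact hhom _ hgJ k
  obtain ⟨g, hg, e', hge'⟩ := hprinc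
  refine ⟨ι g, ⟨e', ?_⟩, ?_⟩
  · have h1 := weightedHomogeneousComponent_rename' (Subtype.val : C' → σ) v e' g
    rw [weightedHomogeneousComponent_eq_self hge'] at h1
    rw [hι, ← h1]
    exact weightedHomogeneousComponent_isWeightedHomogeneous _ _
  · apply le_antisymm
    · intro z hz
      obtain ⟨t, ht⟩ := hsurj z
      have h1 : ι t ∈ J := by
        have := Ideal.sub_mem _ hz (hKJ ht)
        simpa using this
      rw [← hmem, hg, Ideal.mem_span_singleton] at h1
      obtain ⟨c, hc⟩ := h1
      rw [hK, Ideal.mem_span_singleton] at ht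
      obtain ⟨c', hc'⟩ := ht
      rw [Ideal.mem_span_pair]
      refine ⟨c', ι c, ?_⟩
      rw [hc, map_mul] at hc'
      linear_combination -hc'
    · rw [Ideal.span_le]
      rintro _ (rfl | rfl)
      · exact hF
      · show ι g ∈ J
        rw [← hmem, hg]
        exact Ideal.mem_span_singleton_self _

/-- The first variable as a polynomial variable. -/
noncomputable abbrev fse (m : ℕ) :
    MvPolynomial (Fin (m + 1)) ℂ ≃ₐ[ℂ] Polynomial (MvPolynomial (Fin m) ℂ) :=
  MvPolynomial.finSuccEquiv ℂ m

lemma fse_rename {m : ℕ} (F : MvPolynomial (Fin m) ℂ) :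
    fse m (rename Fin.succ F) = Polynomial.C F := by
  induction F using MvPolynomial.induction_on with
  | C a =>
    rw [rename_C]
    simp [fse, finSuccEquiv_apply]
  | add p q hp hq => rw [map_add, map_add, hp, hq, map_add]
  | mul_X p i hp => rw [map_mul, map_mul, hp, rename_X, finSuccEquiv_X_succ, map_mul]

lemma fse_symm_lin2 {m : ℕ} (F : MvPolynomial (Fin m) ℂ × MvPolynomial (Fin m) ℂ) :
    (fse m).symm (lin2 F) = rename Fin.succ F.1 + X 0 * rename Fin.succ F.2 := by
  rw [AlgEquiv.symm_apply_eq, map_add, map_mul, fse_rename, fse_rename, finSuccEquiv_X_zero]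
  rfl

lemma pderiv_zero_rename {m : ℕ} (F : MvPolynomial (Fin m) ℂ) :
    pderiv 0 (rename Fin.succ F) = 0 := by
  induction F using MvPolynomial.induction_on with
  | C a => rw [rename_C, pderiv_C]
  | add p q hp hq => rw [map_add, map_add, hp, hq, add_zero]
  | mul_X p i hp =>
    rw [map_mul, rename_X, pderiv_mul, hp, pderiv_X_of_ne (Fin.succ_ne_zero i), zero_mul, mul_zero,
      add_zero]

/-- The linear map `(a, u) ↦ (a, u)` into `ℂ ^ (m + 1)`. -/
noncomputable def consLin (m : ℕ) : (ℂ × (Fin m → ℂ)) →ₗ[ℂ] (Fin (m + 1) → ℂ) :=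
  { toFun := fun p => Fin.cons p.1 p.2
    map_add' := by
      intro p q
      funext i
      refine Fin.cases ?_ (fun j => ?_) i <;> simp
    map_smul' := by
      intro c p
      funext i
      refine Fin.cases ?_ (fun j => ?_) i <;> simp }

lemma eval_fse_symm_lin2 {m : ℕ} (z : ℂ) (q : Fin m → ℂ)
    (F : MvPolynomial (Fin m) ℂ × MvPolynomial (Fin m) ℂ) :
    eval (Fin.cons z q : Fin (m + 1) → ℂ) ((fse m).symm (lin2 F)) = leval z q F := by
  rw [fse_symm_lin2, leval, map_add, map_mul, eval_X, Fin.cons_zero, eval_rename, eval_rename]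
  rfl

lemma grad_fse_symm_lin2 {m : ℕ} (z : ℂ) (q : Fin m → ℂ)
    (F : MvPolynomial (Fin m) ℂ × MvPolynomial (Fin m) ℂ) :
    grad (Fin.cons z q : Fin (m + 1) → ℂ) ((fse m).symm (lin2 F)) = consLin m (lgrad z q F) := by
  have hc : (Fin.cons z q : Fin (m + 1) → ℂ) ∘ Fin.succ = q := by
    funext j; simp
  funext i
  rw [grad_apply, fse_symm_lin2]
  refine Fin.cases ?_ (fun j => ?_) i
  · rw [map_add, pderiv_mul, pderiv_zero_rename, pderiv_zero_rename, pderiv_X_self, zero_add,
      mul_zero, add_zero, one_mul, eval_rename, hc]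
    rfl
  · rw [map_add, pderiv_mul, pderiv_rename (Fin.succ_injective m),
      pderiv_rename (Fin.succ_injective m), pderiv_X_of_ne (Fin.succ_ne_zero j).symm, zero_mul,
      zero_add, map_add, map_mul, eval_X, eval_rename, eval_rename, hc]
    show _ = (Fin.cons (lgrad z q F).1 (lgrad z q F).2 : Fin (m + 1) → ℂ) j.succ
    rw [Fin.cons_succ, Fin.cons_zero, lgrad]
    simp only [Pi.add_apply, Pi.smul_apply, grad_apply, smul_eq_mul]

lemma weight_cons {m : ℕ} (d : Fin (m + 1) → ℕ) (i : ℕ) (s : Fin m →₀ ℕ) :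
    Finsupp.weight d (Finsupp.cons i s) = i * d 0 + Finsupp.weight (fun a => d a.succ) s := by
  rw [Finsupp.weight_apply, Finsupp.weight_apply, Finsupp.sum_fintype _ _ (by simp),
    Finsupp.sum_fintype _ _ (by simp), Fin.sum_univ_succ]
  simp

/-- Codimension two in a weighted projective space. -/
theorem weighted_codim_two (m : ℕ) (hm : 6 ≤ m) (d : Fin (m + 1) → ℕ) (hd : ∀ i, 0 < d i)
    (D : ℕ) (hD : D ≤ 2 * d 0)
    (J : Ideal (MvPolynomial (Fin (m + 1)) ℂ)) (hJ : J.IsPrime)
    (hhom : ∀ F ∈ J, ∀ e, weightedHomogeneousComponent d e F ∈ J)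
    (hdim : ((m : ℕ) : WithBot ℕ∞) ≤ ringKrullDim (MvPolynomial (Fin (m + 1)) ℂ ⧸ J) + 1)
    (hjac : ∀ y : Fin (m + 1) → ℂ, y ≠ 0 →
      (∀ F ∈ J, ∀ e < D, IsWeightedHomogeneous d F e → eval y F = 0) →
      ∃ F ∈ J, ∃ F' ∈ J, (∃ e < D, IsWeightedHomogeneous d F e) ∧
        (∃ e < D, IsWeightedHomogeneous d F' e) ∧ LinearIndependent ℂ ![grad y F, grad y F']) :
    ∃ F F' : MvPolynomial (Fin (m + 1)) ℂ, (∃ e, IsWeightedHomogeneous d F e) ∧
      (∃ e, IsWeightedHomogeneous d F' e) ∧ J = Ideal.span {F, F'} := by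
  classical
  by_cases hcase : ∃ F ∈ J, ∃ a, coeff (Finsupp.single a 1) F ≠ 0
  · obtain ⟨F, hF, a, ha⟩ := hcase
    have h1 : coeff (Finsupp.single a 1) (weightedHomogeneousComponent d (d a) F) ≠ 0 := by
      rw [coeff_weightedHomogeneousComponent, if_pos]
      · exact ha
      · rw [Finsupp.weight_single, one_smul]
    obtain ⟨F', hF', hspan⟩ := case_zero d hd J hJ hhom (by
        rw [Fintype.card_fin]
        push_cast
        exact add_le_add_left hdim 1) _ (hhom F hF (d a)) (d a)
      (weightedHomogeneousComponent_isWeightedHomogeneous _ _) a h1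
    exact ⟨_, F', ⟨_, weightedHomogeneousComponent_isWeightedHomogeneous _ _⟩, hF', hspan⟩
  · push Not at hcase
    have hconst : ∀ F ∈ J, coeff 0 F = 0 := by
      intro F hF
      have h1 := hhom F hF 0
      rw [weightedHomogeneousComponent_zero (φ := F) (w := d) (fun i => (hd i).ne')] at h1
      by_contra hne
      apply hJ.ne_top
      rw [Ideal.eq_top_iff_one]
      have h2 := Ideal.mul_mem_left J (C (coeff 0 F)⁻¹) h1
      rwa [← C_mul, inv_mul_cancel₀ hne, C_1] at h2
    set φ : Polynomial (MvPolynomial (Fin m) ℂ) →+* MvPolynomial (Fin (m + 1)) ℂ :=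
      ((fse m).symm : Polynomial (MvPolynomial (Fin m) ℂ) ≃ₐ[ℂ] _).toRingEquiv.toRingHom with hφ
    have hφapp : ∀ F, φ F = (fse m).symm F := fun F => rfl
    have hφsurj : Function.Surjective φ := (fse m).symm.surjective
    set Jz := J.comap φ with hJz
    have hJzp : Jz.IsPrime := Ideal.comap_isPrime _ _
    have hmem : ∀ F, F ∈ Jz ↔ (fse m).symm F ∈ J := fun F => Iff.rfl
    have hcoef : ∀ (F : Polynomial (MvPolynomial (Fin m) ℂ)) (i : ℕ) (t : Fin m →₀ ℕ),
        coeff t (F.coeff i) = coeff (Finsupp.cons i t) ((fse m).symm F) := by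
      intro F i t
      rw [← finSuccEquiv_coeff_coeff, AlgEquiv.apply_symm_apply]
    have hdimz : ((Fintype.card (Fin m) : ℕ) : WithBot ℕ∞) ≤
        ringKrullDim (Polynomial (MvPolynomial (Fin m) ℂ) ⧸ Jz) + 1 := by
      rw [Fintype.card_fin]
      refine hdim.trans (add_le_add_left ?_ 1)
      have hs : Function.Surjective (Ideal.quotientMap J φ (le_refl Jz)) := by
        intro y
        obtain ⟨y, rfl⟩ := Ideal.Quotient.mk_surjective y
        obtain ⟨t, rfl⟩ := hφsurj y
        exact ⟨Ideal.Quotient.mk Jz t, Ideal.quotientMap_mk⟩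
      exact ringKrullDim_le_of_surjective _ hs
    set 𝓗 : Set (MvPolynomial (Fin m) ℂ × MvPolynomial (Fin m) ℂ) :=
      {F | lin2 F ∈ Jz ∧ ∃ e < D, IsWeightedHomogeneous d ((fse m).symm (lin2 F)) e} with h𝓗
    obtain ⟨F, hF, F', hF', hspan⟩ := core_case (fun a : Fin m => d a.succ) (fun a => hd _)
      (by rw [Fintype.card_fin]; exact hm) (d 0) Jz hJzp hdimz
      (by
        intro F hF
        rw [hcoef, Finsupp.cons_zero_zero]
        exact hconst _ hF)
      (by
        intro F hF
        rw [hcoef, Finsupp.cons_zero_eq_single_zero]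
        exact hcase _ hF 0)
      (by
        intro F hF a
        rw [hcoef, Finsupp.cons_zero_single_eq_single_succ]
        exact hcase _ hF _)
      𝓗 (fun F hF => hF.1)
      (by
        rintro F ⟨-, e, -, hFe⟩ hF2
        have hw1 : ∀ t, coeff t F.1 ≠ 0 →
            Finsupp.weight (fun a : Fin m => d a.succ) t = e := by
          intro t ht
          rw [← coeff_lin2_zero F, hcoef] at ht
          have := hFe ht
          rwa [weight_cons, zero_mul, zero_add] at this
        have hw2 : ∀ t, coeff t F.2 ≠ 0 →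
            d 0 + Finsupp.weight (fun a : Fin m => d a.succ) t = e := by
          intro t ht
          rw [← coeff_lin2_one F, hcoef] at ht
          have := hFe ht
          rwa [weight_cons, one_mul] at this
        obtain ⟨t, ht⟩ := ne_zero_iff.mp hF2
        have hle := hw2 t ht
        refine ⟨e - d 0, ?_, ?_⟩
        · intro t ht
          have := hw2 t ht
          omega
        · intro t ht
          have := hw1 t ht
          omega)
      (by
        intro z q hzq hvan
        have hy : (Fin.cons z q : Fin (m + 1) → ℂ) ≠ 0 := by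
          intro h
          rcases hzq with h1 | h1
          · apply h1
            have := congrFun h 0
            simpa using this
          · apply h1
            funext j
            have := congrFun h j.succ
            simpa using this
        have hrep : ∀ F ∈ J, ∀ e < D, IsWeightedHomogeneous d F e →
            ∃ F₀ ∈ 𝓗, (fse m).symm (lin2 F₀) = F := by
          intro F hF e he hFe
          have h2 : lin2 (((fse m) F).coeff 0, ((fse m) F).coeff 1) = (fse m) F := by
            ext1 i
            rcases i with _ | _ | i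
            · rw [coeff_lin2_zero]
            · rw [coeff_lin2_one]
            · have h3 : ((fse m) F).coeff (i + 1 + 1) = 0 := by
                ext t
                rw [coeff_zero, finSuccEquiv_coeff_coeff]
                by_contra hne
                have h4 := hFe hne
                rw [weight_cons] at h4
                have h5 : 2 * d 0 ≤ (i + 1 + 1) * d 0 := Nat.mul_le_mul_right _ (by omega)
                omega
              rw [h3, lin2, Polynomial.coeff_add, Polynomial.coeff_C, Polynomial.coeff_X_mul,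
                Polynomial.coeff_C, if_neg (by omega), if_neg (by omega), add_zero]
          refine ⟨(((fse m) F).coeff 0, ((fse m) F).coeff 1), ⟨?_, e, he, ?_⟩, ?_⟩
          · rw [h2, hmem, AlgEquiv.symm_apply_apply]; exact hF
          · rw [h2, AlgEquiv.symm_apply_apply]; exact hFe
          · rw [h2, AlgEquiv.symm_apply_apply]
        obtain ⟨F, hF, F', hF', ⟨e, he, hFe⟩, ⟨e', he', hFe'⟩, hli⟩ :=
          hjac (Fin.cons z q) hy (by
            intro F hF e he hFe
            obtain ⟨F₀, hF₀, rfl⟩ := hrep F hF e he hFe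
            rw [eval_fse_symm_lin2]
            exact hvan F₀ hF₀)
        obtain ⟨F₀, hF₀, rfl⟩ := hrep F hF e he hFe
        obtain ⟨F₀', hF₀', rfl⟩ := hrep F' hF' e' he' hFe'
        refine ⟨F₀, hF₀, F₀', hF₀', ?_⟩
        apply LinearIndependent.of_comp (consLin m)
        convert hli using 1
        funext k
        fin_cases k
        · exact (grad_fse_symm_lin2 z q F₀).symm
        · exact (grad_fse_symm_lin2 z q F₀').symm)
    refine ⟨(fse m).symm (lin2 F), (fse m).symm (lin2 F'), ?_, ?_, ?_⟩
    · obtain ⟨_, e, _, he⟩ := hF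
      exact ⟨e, he⟩
    · obtain ⟨_, e, _, he⟩ := hF'
      exact ⟨e, he⟩
    · have h1 : J = Jz.map φ := (Ideal.map_comap_of_surjective φ hφsurj J).symm
      rw [h1, hspan, Ideal.map_span]
      congr 1
      rw [Set.image_insert_eq, Set.image_singleton]
      rfl

end Pool.Agent.Hartshorne
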