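import Mathlib
import Pool.Agent.Hartshorne.Refl
import Pool.Agent.Hartshorne.Weighted2

/-!
Codimension two subvarieties stable under a finite reflection group.
-/

namespace Pool.Agent.Hartshorne

open MvPolynomial

set_option linter.unusedSectionVars false

section Basics

variable {σ : Type*} [Fintype σ] [DecidableEq σ]

/-- The polynomial ring is integral over the invariants. -/
lemma isIntegral_aeval (G : Subgroup (GL σ ℂ)) [Finite G] {τ : Type*}
    (f : τ → MvPolynomial σ ℂ) (hf : ∀ h, Inv G h → h ∈ Algebra.adjoin ℂ (Set.range f)) :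
    ((aeval f : MvPolynomial τ ℂ →ₐ[ℂ] MvPolynomial σ ℂ) :
      MvPolynomial τ ℂ →+* MvPolynomial σ ℂ).IsIntegral := by
  intro z
  obtain ⟨Q, hQm, hQz, hQc⟩ := exists_monic_invariant G z
  have hlift : Q ∈ Polynomial.lifts ((aeval f : MvPolynomial τ ℂ →ₐ[ℂ] MvPolynomial σ ℂ) :
      MvPolynomial τ ℂ →+* MvPolynomial σ ℂ) := by
    rw [Polynomial.lifts_iff_coeff_lifts]
    intro m
    have h1 := hf _ (hQc m)
    rw [Algebra.adjoin_range_eq_range_aeval] at h1
    obtain ⟨t, ht⟩ := h1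
    exact ⟨t, ht⟩
  obtain ⟨Q', hQ', _, hQ'm⟩ := Polynomial.lifts_and_natDegree_eq_and_monic hlift hQm
  refine ⟨Q', hQ'm, ?_⟩
  rw [Polynomial.eval₂_eq_eval_map, hQ', hQz]

/-- The basic invariants have no common zero but the origin. -/
lemma eq_zero_of_invariants (G : Subgroup (GL σ ℂ)) [Finite G] {τ : Type*}
    (f : τ → MvPolynomial σ ℂ) (d : τ → ℕ)
    (hfd : ∀ i, (f i).IsHomogeneous (d i))
    (hf : ∀ h, Inv G h → h ∈ Algebra.adjoin ℂ (Set.range f))
    (x : σ → ℂ) (hx : ∀ i, eval x (f i) = 0) : x = 0 := by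
  funext j
  by_contra hne
  obtain ⟨Q, hQm, hQz, hQc⟩ := exists_monic_invariant G (X j)
  have hval : ∀ t : ℂ, ∀ h, Inv G h → eval (t • x) h = eval (0 : σ → ℂ) h := by
    intro t h hh
    have h1 := hf h hh
    rw [Algebra.adjoin_range_eq_range_aeval] at h1
    obtain ⟨P, rfl⟩ := h1
    have h2 : ∀ p : σ → ℂ, eval p (aeval f P) = eval (fun i => eval p (f i)) P := by
      intro p
      rw [← aeval_eq_eval, ← aeval_eq_eval, ← AlgHom.comp_apply, comp_aeval]
    have h3 : (fun i => eval (t • x) (f i)) = fun i => eval (0 : σ → ℂ) (f i) := by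
      funext i
      have h4 : ∀ c : ℂ, eval (c • x) (f i) = c ^ (d i) * eval x (f i) := by
        intro c
        rw [eval_eq, eval_eq, Finset.mul_sum]
        refine Finset.sum_congr rfl (fun s hs => ?_)
        have h8 := hfd i (mem_support_iff.mp hs)
        rw [Finsupp.weight_apply, Finsupp.sum] at h8
        simp only [Pi.one_apply, smul_eq_mul, mul_one] at h8
        simp only [Pi.smul_apply, smul_eq_mul, mul_pow, Finset.prod_mul_distrib]
        rw [Finset.prod_pow_eq_pow_sum, h8]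
        ring
      have h5 : (0 : σ → ℂ) = (0 : ℂ) • x := by simp
      rw [h5, h4 t, h4 0, hx i, mul_zero, mul_zero]
    have h6 := h2 (t • x)
    have h7 := h2 0
    rw [h3] at h6
    exact h6.trans h7.symm
  have hroot : ∀ c : ℂ, (Q.map (eval (0 : σ → ℂ))).eval c = 0 := by
    intro c
    have h1 : Q.map (eval (0 : σ → ℂ)) = Q.map (eval ((c / x j) • x)) := by
      ext k
      rw [Polynomial.coeff_map, Polynomial.coeff_map, hval _ _ (hQc k)]
    have h2 : c = eval ((c / x j) • x) (X j) := by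
      rw [eval_X, Pi.smul_apply, smul_eq_mul, div_mul_cancel₀ _ hne]
    have h3 : (Q.map (eval ((c / x j) • x))).eval (eval ((c / x j) • x) (X j)) = 0 := by
      rw [Polynomial.eval_map, Polynomial.eval₂_at_apply, hQz, map_zero]
    rw [h1]
    rwa [← h2] at h3
  have hzero : Q.map (eval (0 : σ → ℂ)) = 0 := by
    apply Polynomial.funext
    intro c
    rw [hroot, Polynomial.eval_zero]
  have hmon : (Q.map (eval (0 : σ → ℂ))).Monic := hQm.map _
  exact hmon.ne_zero hzero

/-- Every point is the value of the basic invariants at some point. -/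
lemma exists_point (G : Subgroup (GL σ ℂ)) [Finite G] {τ : Type*} [Finite τ]
    (f : τ → MvPolynomial σ ℂ)
    (hf : ∀ h, Inv G h → h ∈ Algebra.adjoin ℂ (Set.range f))
    (hinj : Function.Injective (aeval f : MvPolynomial τ ℂ →ₐ[ℂ] MvPolynomial σ ℂ))
    (y : τ → ℂ) : ∃ x : σ → ℂ, ∀ i, eval x (f i) = y i := by
  let φ : MvPolynomial τ ℂ →+* MvPolynomial σ ℂ :=
    ((aeval f : MvPolynomial τ ℂ →ₐ[ℂ] MvPolynomial σ ℂ) : MvPolynomial τ ℂ →+* MvPolynomial σ ℂ)
  let _ : Algebra (MvPolynomial τ ℂ) (MvPolynomial σ ℂ) := φ.toAlgebra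
  have : Algebra.IsIntegral (MvPolynomial τ ℂ) (MvPolynomial σ ℂ) := ⟨isIntegral_aeval G f hf⟩
  have hker : RingHom.ker (algebraMap (MvPolynomial τ ℂ) (MvPolynomial σ ℂ))
      ≤ vanishingIdeal ℂ {y} := by
    intro P hP
    have h1 : aeval f P = 0 := hP
    have h2 : P = 0 := hinj (by rw [h1, map_zero])
    rw [h2]
    exact Ideal.zero_mem _
  obtain ⟨Q, hQ, hQy⟩ := Ideal.exists_ideal_over_maximal_of_isIntegral
    (vanishingIdeal ℂ {y}) hker
  obtain ⟨x, hx⟩ := isMaximal_iff_eq_vanishingIdeal_singleton.mp hQ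
  refine ⟨x, fun i => ?_⟩
  have h1 : (X i - C (y i) : MvPolynomial τ ℂ) ∈ vanishingIdeal ℂ {y} := by
    rw [mem_vanishingIdeal_singleton_iff]
    simp
  rw [← hQy, Ideal.mem_comap, hx, mem_vanishingIdeal_singleton_iff] at h1
  have h2 : aeval x (aeval f (X i - C (y i) : MvPolynomial τ ℂ)) = 0 := h1
  rw [map_sub, aeval_X, aeval_C, map_sub, aeval_eq_eval] at h2
  have h3 : aeval x (algebraMap ℂ (MvPolynomial σ ℂ) (y i)) = y i := by
    rw [algebraMap_eq, aeval_C]; rfl
  rw [aeval_eq_eval] at h3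
  rw [h3] at h2
  exact sub_eq_zero.mp h2

lemma exists_pair_of_span {V : Type*} [AddCommGroup V] [Module ℂ V] (s : Set V) (w : Fin 2 → V)
    (hw : LinearIndependent ℂ w) (hmem : ∀ k, w k ∈ Submodule.span ℂ s) :
    ∃ u ∈ s, ∃ u' ∈ s, LinearIndependent ℂ ![u, u'] := by
  by_contra hcon
  push Not at hcon
  have hex : ∃ u ∈ s, u ≠ 0 := by
    by_contra h
    push Not at h
    have h1 : Submodule.span ℂ s = ⊥ := by
      rw [Submodule.span_eq_bot]; exact h
    have h2 := hmem 0
    rw [h1, Submodule.mem_bot] at h2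
    exact hw.ne_zero 0 h2
  obtain ⟨u, hu, hu0⟩ := hex
  have h1 : ∀ u' ∈ s, u' ∈ Submodule.span ℂ {u} := by
    intro u' hu'
    have h2 := hcon u hu u' hu'
    rw [LinearIndependent.pair_iff' hu0] at h2
    push Not at h2
    obtain ⟨a, ha⟩ := h2
    rw [Submodule.mem_span_singleton]
    exact ⟨a, ha⟩
  have h2 : Submodule.span ℂ s ≤ Submodule.span ℂ {u} := Submodule.span_le.mpr h1
  have h3 : ∀ k, ∃ a : ℂ, w k = a • u := by
    intro k
    obtain ⟨a, ha⟩ := Submodule.mem_span_singleton.mp (h2 (hmem k))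
    exact ⟨a, ha.symm⟩
  have h4 : ![w 0, w 1] = w := by
    funext k
    fin_cases k <;> rfl
  apply not_li_of_smul (h3 0) (h3 1)
  rw [h4]
  exact hw

end Basics

/-- **Codimension two.** -/
theorem codim_two_case (n D' : ℕ) (hn : 4 ≤ n)
    (G : Subgroup (GL (Fin (n + 3)) ℂ)) [Finite G]
    (hG : Subgroup.closure {g | g ∈ G ∧ IsReflection g} = G)
    (x : Fin (n + 3) → ℂ) (hx0 : x ≠ 0)
    (hx : ∀ h : MvPolynomial (Fin (n + 3)) ℂ, (∀ g ∈ G, act (g : Matrix _ _ ℂ) h = h) →
      ∀ e : ℕ, 0 < e → e < D' → h.IsHomogeneous e → eval x h = 0)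
    (I : Ideal (MvPolynomial (Fin (n + 3)) ℂ))
    (hom : ∀ h ∈ I, ∀ e : ℕ, homogeneousComponent e h ∈ I)
    (hI : I.IsPrime)
    (hdim : ringKrullDim (MvPolynomial (Fin (n + 3)) ℂ ⧸ I) = ((n + 1 : ℕ) : WithBot ℕ∞))
    (hstab : ∀ g ∈ G, ∀ h ∈ I, act (g : Matrix _ _ ℂ) h ∈ I)
    (hmir : ∀ g ∈ G, IsReflection g →
      ∃ p : Fin (n + 3) → ℂ, (∀ h ∈ I, eval p h = 0) ∧ (g : Matrix _ _ ℂ).mulVec p ≠ p)
    (hcut : ∀ p : Fin (n + 3) → ℂ, p ≠ 0 →
      (∀ h ∈ I, h.totalDegree < 2 * D' → eval p h = 0) →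
      ∃ q : Fin 2 → MvPolynomial (Fin (n + 3)) ℂ,
        (∀ k, q k ∈ I ∧ (q k).totalDegree < 2 * D') ∧
        LinearIndependent ℂ (fun k => fun j => eval p (pderiv j (q k)))) :
    ∃ h : Fin 2 → MvPolynomial (Fin (n + 3)) ℂ,
      (∀ k, ∃ e : ℕ, (h k).IsHomogeneous e) ∧
      (∀ k, ∀ g ∈ G, act (g : Matrix _ _ ℂ) (h k) = h k) ∧
      Ideal.span (Set.range h) = I := by
  classical
  obtain ⟨r, f₀, d₀, hr, hd₀, hfd₀, hfinv₀, hf₀⟩ := exists_basic_invariants G hG
  rw [Fintype.card_fin] at hr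
  -- injectivity
  have hdimS : ringKrullDim (MvPolynomial (Fin (n + 3)) ℂ) = ((n + 3 : ℕ) : WithBot ℕ∞) := by
    rw [MvPolynomial.ringKrullDim_of_isNoetherianRing, ringKrullDim_eq_zero_of_field, zero_add,
      Nat.card_eq_fintype_card, Fintype.card_fin]
  have hint₀ := isIntegral_aeval G f₀ hf₀
  have hrge : n + 3 ≤ r := by
    let _ : Algebra (MvPolynomial (Fin r) ℂ) (MvPolynomial (Fin (n + 3)) ℂ) :=
      ((aeval f₀ : MvPolynomial (Fin r) ℂ →ₐ[ℂ] MvPolynomial (Fin (n + 3)) ℂ) :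
        MvPolynomial (Fin r) ℂ →+* MvPolynomial (Fin (n + 3)) ℂ).toAlgebra
    have : Algebra.IsIntegral (MvPolynomial (Fin r) ℂ) (MvPolynomial (Fin (n + 3)) ℂ) := ⟨hint₀⟩
    have h1 := ringKrullDim_le_of_isIntegral (A := MvPolynomial (Fin r) ℂ)
      (B := MvPolynomial (Fin (n + 3)) ℂ)
    rw [hdimS, MvPolynomial.ringKrullDim_of_isNoetherianRing, ringKrullDim_eq_zero_of_field,
      zero_add, Nat.card_eq_fintype_card, Fintype.card_fin] at h1
    exact_mod_cast h1
  obtain rfl : r = n + 2 + 1 := by omega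
  have hinj₀ : Function.Injective
      (aeval f₀ : MvPolynomial (Fin (n + 2 + 1)) ℂ →ₐ[ℂ] MvPolynomial (Fin (n + 3)) ℂ) := by
    apply injective_of_isIntegral
    · intro z
      have h1 : ((algebraMap (aeval f₀ : MvPolynomial (Fin (n + 2 + 1)) ℂ →ₐ[ℂ]
          MvPolynomial (Fin (n + 3)) ℂ).range (MvPolynomial (Fin (n + 3)) ℂ)).comp
          (aeval f₀ : MvPolynomial (Fin (n + 2 + 1)) ℂ →ₐ[ℂ]
          MvPolynomial (Fin (n + 3)) ℂ).rangeRestrict.toRingHom).IsIntegralElem z := hint₀ z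
      exact RingHom.isIntegralElem.of_comp _ _ h1
    · rw [hdimS, Nat.card_eq_fintype_card, Fintype.card_fin]
  -- a basic invariant of large degree, placed first
  obtain ⟨i₀, hi₀⟩ : ∃ i, D' ≤ d₀ i := by
    by_contra hcon
    push Not at hcon
    apply hx0
    apply eq_zero_of_invariants G f₀ d₀ hfd₀ hf₀
    intro i
    exact hx (f₀ i) (hfinv₀ i) (d₀ i) (hd₀ i) (hcon i) (hfd₀ i)
  set f : Fin (n + 2 + 1) → MvPolynomial (Fin (n + 3)) ℂ := f₀ ∘ Equiv.swap 0 i₀ with hfdef
  set d : Fin (n + 2 + 1) → ℕ := d₀ ∘ Equiv.swap 0 i₀ with hddef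
  have hd : ∀ i, 0 < d i := fun i => hd₀ _
  have hfd : ∀ i, (f i).IsHomogeneous (d i) := fun i => hfd₀ _
  have hfinv : ∀ i, Inv G (f i) := fun i => hfinv₀ _
  have hrange : Set.range f = Set.range f₀ := (Equiv.swap 0 i₀).surjective.range_comp f₀
  have hf : ∀ h, Inv G h → h ∈ Algebra.adjoin ℂ (Set.range f) := by
    rw [hrange]; exact hf₀
  have hd0 : D' ≤ d 0 := by
    simp only [hddef, Function.comp_apply, Equiv.swap_apply_left]
    exact hi₀
  have hinj : Function.Injective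
      (aeval f : MvPolynomial (Fin (n + 2 + 1)) ℂ →ₐ[ℂ] MvPolynomial (Fin (n + 3)) ℂ) := by
    have h1 : (aeval f : MvPolynomial (Fin (n + 2 + 1)) ℂ →ₐ[ℂ] MvPolynomial (Fin (n + 3)) ℂ)
        = (aeval f₀).comp (rename (Equiv.swap 0 i₀)) := by
      apply MvPolynomial.algHom_ext
      intro i
      simp [hfdef]
    rw [h1]
    exact hinj₀.comp (rename_injective _ (Equiv.injective _))
  have hint := isIntegral_aeval G f hf
  have hmemspan := mem_invSpan G hG I hI hstab hmir
  -- the ideal in the ring of invariants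
  set φ : MvPolynomial (Fin (n + 2 + 1)) ℂ →+* MvPolynomial (Fin (n + 3)) ℂ :=
    ((aeval f : MvPolynomial (Fin (n + 2 + 1)) ℂ →ₐ[ℂ] MvPolynomial (Fin (n + 3)) ℂ) :
      MvPolynomial (Fin (n + 2 + 1)) ℂ →+* MvPolynomial (Fin (n + 3)) ℂ)
    with hφ
  set J : Ideal (MvPolynomial (Fin (n + 2 + 1)) ℂ) := I.comap φ with hJ
  have hmemJ : ∀ P, P ∈ J ↔ aeval f P ∈ I := fun P => Iff.rfl
  have hJp : J.IsPrime := Ideal.comap_isPrime _ _
  have hhomJ : ∀ F ∈ J, ∀ e, weightedHomogeneousComponent d e F ∈ J := by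
    intro F hF e
    rw [hmemJ, aeval_weightedHomogeneousComponent f d hfd]
    exact hom _ hF e
  have hdimJ : ((n + 2 : ℕ) : WithBot ℕ∞) ≤
      ringKrullDim (MvPolynomial (Fin (n + 2 + 1)) ℂ ⧸ J) + 1 := by
    let _ : Algebra (MvPolynomial (Fin (n + 2 + 1)) ℂ ⧸ J) (MvPolynomial (Fin (n + 3)) ℂ ⧸ I) :=
      (Ideal.quotientMap I φ le_rfl).toAlgebra
    have : Algebra.IsIntegral (MvPolynomial (Fin (n + 2 + 1)) ℂ ⧸ J)
      (MvPolynomial (Fin (n + 3)) ℂ ⧸ I) := ⟨RingHom.IsIntegral.quotient φ hint⟩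
    have h1 := ringKrullDim_le_of_isIntegral (A := MvPolynomial (Fin (n + 2 + 1)) ℂ ⧸ J)
      (B := MvPolynomial (Fin (n + 3)) ℂ ⧸ I)
    rw [hdim] at h1
    have h2 := add_le_add_left h1 1
    refine le_trans (le_of_eq ?_) h2
    push_cast
    rw [add_assoc]
    rfl
  -- evaluation and gradients of invariants
  have heval : ∀ (p : Fin (n + 3) → ℂ) (P : MvPolynomial (Fin (n + 2 + 1)) ℂ),
      eval p (aeval f P) = eval (fun i => eval p (f i)) P := by
    intro p P
    rw [← aeval_eq_eval, ← aeval_eq_eval, ← AlgHom.comp_apply, comp_aeval]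
  set 𝓗 : Set (MvPolynomial (Fin (n + 2 + 1)) ℂ) :=
    {F | F ∈ J ∧ ∃ e < 2 * D', IsWeightedHomogeneous d F e} with h𝓗
  have hjac : ∀ y : Fin (n + 2 + 1) → ℂ, y ≠ 0 →
      (∀ F ∈ J, ∀ e < 2 * D', IsWeightedHomogeneous d F e → eval y F = 0) →
      ∃ F ∈ J, ∃ F' ∈ J, (∃ e < 2 * D', IsWeightedHomogeneous d F e) ∧
        (∃ e < 2 * D', IsWeightedHomogeneous d F' e) ∧
        LinearIndependent ℂ ![grad y F, grad y F'] := by
    intro y hy hvan
    obtain ⟨p, hp⟩ := exists_point G f hf hinj y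
    have hpy : (fun i => eval p (f i)) = y := funext hp
    have hp0 : p ≠ 0 := by
      rintro rfl
      apply hy
      funext i
      rw [← hp i, eval_zero_eq_coeff]
      by_contra hne
      have h1 := hfd i hne
      rw [map_zero] at h1
      have := hd i
      omega
    have hspan : ∀ k, k < 2 * D' → ∀ h ∈ invSpan G I k,
        eval p h = 0 ∧ grad p h ∈ Submodule.span ℂ (grad p '' (aeval f '' 𝓗)) := by
      intro k hk h hh
      unfold invSpan at hh
      induction hh using Submodule.span_induction with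
      | mem h hh =>
        obtain ⟨hhI, hinv, hdeg⟩ := hh
        have hcomp : ∀ e ∈ Finset.range (h.totalDegree + 1), ∃ P ∈ 𝓗,
            aeval f P = homogeneousComponent e h := by
          intro e he
          rw [Finset.mem_range] at he
          have hinv' : Inv G (homogeneousComponent e h) := by
            intro g hg
            rw [← act_homogeneousComponent, hinv g hg]
          obtain ⟨P, hP, hPh⟩ := exists_weighted_rep f d hfd
            (homogeneousComponent_isHomogeneous e h) (hf _ hinv')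
          refine ⟨P, ⟨?_, e, by omega, hP⟩, hPh⟩
          rw [hmemJ, hPh]
          exact hom h hhI e
        rw [← sum_homogeneousComponent h, map_sum, map_sum]
        refine ⟨Finset.sum_eq_zero (fun e he => ?_), Submodule.sum_mem _ (fun e he => ?_)⟩
        · obtain ⟨P, ⟨hPJ, e', he', hPe⟩, hPh⟩ := hcomp e he
          rw [← hPh, heval, hpy]
          exact hvan P hPJ e' he' hPe
        · obtain ⟨P, hP, hPh⟩ := hcomp e he
          rw [← hPh]
          exact Submodule.subset_span ⟨_, ⟨P, hP, rfl⟩, rfl⟩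
      | zero => exact ⟨map_zero _, by rw [map_zero]; exact Submodule.zero_mem _⟩
      | add a b _ _ ha hb =>
        rw [map_add, map_add, ha.1, hb.1]
        exact ⟨add_zero _, Submodule.add_mem _ ha.2 hb.2⟩
      | smul a b _ hb =>
        rw [smul_eq_mul, map_mul, hb.1, grad_mul, hb.1, zero_smul, add_zero]
        exact ⟨mul_zero _, Submodule.smul_mem _ _ hb.2⟩
    obtain ⟨q, hq, hqli⟩ := hcut p hp0 (fun h hh hdeg =>
      (hspan _ hdeg h (hmemspan _ h hh le_rfl)).1)
    let T : (Fin (n + 2 + 1) → ℂ) →ₗ[ℂ] (Fin (n + 3) → ℂ) :=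
      ∑ l, (LinearMap.proj l).smulRight (grad p (f l))
    have hT : ∀ P : MvPolynomial (Fin (n + 2 + 1)) ℂ, grad p (aeval f P) = T (grad y P) := by
      intro P
      have h1 : T (grad y P) = ∑ l, grad y P l • grad p (f l) := by
        simp [T, LinearMap.sum_apply]
      rw [h1]
      funext j
      rw [grad_apply, pderiv_aeval, map_sum, Finset.sum_apply]
      refine Finset.sum_congr rfl (fun l _ => ?_)
      rw [Pi.smul_apply, grad_apply, smul_eq_mul, map_mul, grad_apply, heval, hpy]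
    have hw : ∀ k, ∃ w ∈ Submodule.span ℂ (grad y '' 𝓗), T w = grad p (q k) := by
      intro k
      have h1 := (hspan _ (hq k).2 _ (hmemspan _ _ (hq k).1 le_rfl)).2
      have h2 : grad p '' (aeval f '' 𝓗) = T '' (grad y '' 𝓗) := by
        rw [Set.image_image, Set.image_image]
        exact Set.image_congr (fun P _ => hT P)
      rw [h2, Submodule.span_image] at h1
      exact h1
    choose w hw hTw using hw
    have hwli : LinearIndependent ℂ w := by
      apply LinearIndependent.of_comp T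
      have h1 : (T ∘ w) = (fun k => fun j => eval p (pderiv j (q k))) := by
        funext k j
        rw [Function.comp_apply, hTw, grad_apply]
      rw [h1]
      exact hqli
    obtain ⟨_, ⟨F, hF, rfl⟩, _, ⟨F', hF', rfl⟩, hli⟩ := exists_pair_of_span _ w hwli hw
    exact ⟨F, hF.1, F', hF'.1, hF.2, hF'.2, hli⟩
  obtain ⟨F, F', ⟨e, he⟩, ⟨e', he'⟩, hspanJ⟩ := weighted_codim_two (n + 2) (by omega) d hd
    (2 * D') (Nat.mul_le_mul_left 2 hd0) J hJp hhomJ hdimJ hjac
  have hhomF : ∀ (P : MvPolynomial (Fin (n + 2 + 1)) ℂ) (e : ℕ), IsWeightedHomogeneous d P e →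
      (aeval f P : MvPolynomial (Fin (n + 3)) ℂ).IsHomogeneous e := by
    intro P e hP
    rw [← weightedHomogeneousComponent_eq_self hP, aeval_weightedHomogeneousComponent f d hfd]
    exact homogeneousComponent_isHomogeneous _ _
  have hFI : (aeval f F : MvPolynomial (Fin (n + 3)) ℂ) ∈ I := by
    rw [← hmemJ, hspanJ]; exact Ideal.subset_span (by simp)
  have hFI' : (aeval f F' : MvPolynomial (Fin (n + 3)) ℂ) ∈ I := by
    rw [← hmemJ, hspanJ]; exact Ideal.subset_span (by simp)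
  refine ⟨![(aeval f F : MvPolynomial (Fin (n + 3)) ℂ), aeval f F'], ?_, ?_, ?_⟩
  · intro k
    fin_cases k
    · exact ⟨e, hhomF F e he⟩
    · exact ⟨e', hhomF F' e' he'⟩
  · intro k
    fin_cases k
    · exact inv_aeval G f hfinv F
    · exact inv_aeval G f hfinv F'
  · rw [Matrix.range_cons, Matrix.range_cons, Matrix.range_empty, Set.union_empty,
      Set.singleton_union]
    apply le_antisymm
    · rw [Ideal.span_le]
      rintro _ (rfl | rfl)
      · exact hFI
      · exact hFI'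
    · intro z hz
      have h1 := hmemspan _ z hz le_rfl
      have h2 : invSpan G I z.totalDegree ≤ Ideal.span {aeval f F, aeval f F'} := by
        unfold invSpan
        rw [Ideal.span_le]
        rintro y ⟨hyI, hyinv, -⟩
        have h3 := hf y hyinv
        rw [Algebra.adjoin_range_eq_range_aeval] at h3
        obtain ⟨P, rfl⟩ := h3
        have h4 : P ∈ J := hyI
        rw [hspanJ, Ideal.mem_span_pair] at h4
        obtain ⟨a, b, hab⟩ := h4
        rw [SetLike.mem_coe, Ideal.mem_span_pair]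
        refine ⟨(aeval f a : MvPolynomial (Fin (n + 3)) ℂ), aeval f b, ?_⟩
        rw [← map_mul, ← map_mul, ← map_add, hab]
        rfl
      exact h2 h1

end Pool.Agent.Hartshorne
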