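import Mathlib
import Pool.Agent.Hartshorne.Final

/-!
Varieties containing a linear space of dimension linear in the codimension and the degree.
-/

namespace Pool.Agent.Hartshorne

open MvPolynomial

set_option linter.unusedSectionVars false

section LThm

variable {ρ : Type*} [Fintype ρ] [DecidableEq ρ]

/-- Splitting along a linear space contained in the variety. -/
theorem exists_split_linear {c d D n : ℕ} {I : Ideal (MvPolynomial ρ ℂ)}
    {Λ : Submodule ℂ (ρ → ℂ)} {x : ρ → ℂ} {F : Fin c → MvPolynomial ρ ℂ}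
    (hS : Setup I c D Λ) (hB : Base I c d Λ x F) (hL : ∀ p ∈ Λ, ∀ h ∈ I, eval p h = 0)
    (hn1 : 1 < n) (hn : c * (d - 1) < n) (u : Fin n → (ρ → ℂ)) (hu : ∀ i, u i ∈ Λ)
    (hli : LinearIndependent ℂ (Fin.cons x u : Fin (n + 1) → (ρ → ℂ))) :
    ∃ f : Fin c → ℕ, (∀ i, f i < d) ∧
      ∃ Ψ : Fin c → ρ → MvPolynomial (Fin (n + 1)) ℂ, (∀ i, HomRow (f i) (Ψ i)) ∧
        (∀ z ≠ 0, ∀ i, rowEval z (Ψ i) ∈
          gradSpan I (comb (Fin.cons x u : Fin (n + 1) → (ρ → ℂ)) z)) ∧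
        ∀ z ≠ 0, LinearIndependent ℂ (fun i => rowEval z (Ψ i)) := by
  have hgood : ∀ v : Fin n → ℂ, v ≠ 0 → GoodLine I x u c D v := by
    intro v hv0 z hz
    have hmem : comb (pl x u v) z ∈ Λ := by
      rw [comb_pl]
      exact Λ.add_mem (Λ.smul_mem _ hB.hxΛ) (Λ.smul_mem _ (comb_mem hu v))
    exact hS.good _ hmem (ne_zero_of_li_cons hli hv0 hz) (hL _ hmem)
  have hP : Pencil I x u c d D F (fun e : Empty => (e.elim : MvPolynomial (Fin n) ℂ)) :=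
    ⟨hB.vertex hS, hS.hD, fun p => p.elim, fun v hv _ => hgood v hv⟩
  set v : Fin n → ℂ := Pi.single ⟨0, by omega⟩ 1 with hv
  have hv0 : v ≠ 0 := by
    intro h
    have h1 := congrFun h ⟨0, by omega⟩
    simp [hv] at h1
  have hconst : ∀ v' : Fin n → ℂ, v' ≠ 0 → ∀ e, Wsp (El I x u v') e = Wsp (El I x u v) e := by
    intro v' hv' e
    exact hP.Wsp_const (by rw [Fintype.card_empty]; omega) (fun p => p.elim) hv'
      (fun p => p.elim) hv0 e
  have hU : Uniform I x u c d D F (fun e => Wsp (El I x u v) e) :=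
    ⟨hn1, hB.vertex hS, hgood, hconst⟩
  obtain ⟨w, f, hwli, hwW, hwspan⟩ := exists_adapted (isBundle_El I x u (hgood v hv0))
  refine ⟨f, ?_, hU.split ⟨hwli, hwW, hwspan⟩⟩
  intro i
  by_contra hfi
  have h1 : w i ∈ Wsp (El I x u v) (d - 1) := by
    rw [hP.vertex.Wsp_top u v le_rfl, ← El_pt_zero I x u v]
    exact Wsp_le _ _ (hwW i)
  obtain ⟨a, ha0, haw⟩ := hwspan _ _ h1
  have h2 := Fintype.linearIndependent_iff.mp hwli (fun j => a j - (Pi.single i 1 : Fin c → ℂ) j)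
    (by
      simp only [sub_smul, Finset.sum_sub_distrib]
      rw [← haw, Finset.sum_eq_single i]
      · simp
      · intro j _ hj
        rw [Pi.single_eq_of_ne hj, zero_smul]
      · intro h; exact absurd (Finset.mem_univ _) h) i
  rw [ha0 i (by have := hB.hd; omega), Pi.single_eq_same] at h2
  norm_num at h2

/-- **Varieties containing a linear space.** -/
theorem core_linear_space (N c d : ℕ) (hc : 0 < c) (hd : 2 ≤ d)
    (I : Ideal (MvPolynomial (Fin (N + 1)) ℂ)) (hI : I.IsPrime)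
    (hhom : ∀ f ∈ I, ∀ e, homogeneousComponent e f ∈ I)
    (hdim : ((N + 1 : ℕ) : WithBot ℕ∞) ≤
      ringKrullDim (MvPolynomial (Fin (N + 1)) ℂ ⧸ I) + (c : WithBot ℕ∞))
    (Λ : Submodule ℂ (Fin (N + 1) → ℂ)) (hΛ : c * (d - 1) + 2 ≤ Module.finrank ℂ Λ)
    (hL : ∀ p ∈ Λ, ∀ h ∈ I, eval p h = 0)
    (hsm : ∀ p ∈ Λ, p ≠ 0 →
      ∃ q : Fin c → MvPolynomial (Fin (N + 1)) ℂ, (∀ k, q k ∈ I) ∧
        LinearIndependent ℂ (fun k => fun j => eval p (pderiv j (q k))))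
    (hcut : ∃ p ∈ Λ, p ≠ 0 ∧
      ∃ q : Fin c → MvPolynomial (Fin (N + 1)) ℂ,
        (∀ k, q k ∈ I ∧ ∃ e ≤ d, (q k).IsHomogeneous e) ∧
        LinearIndependent ℂ (fun k => fun j => eval p (pderiv j (q k)))) :
    ∃ F : Fin c → MvPolynomial (Fin (N + 1)) ℂ, (∀ k, ∃ e ≤ d, (F k).IsHomogeneous e) ∧
      Ideal.span (Set.range F) = I := by
  have hdim' : ((Fintype.card (Fin (N + 1)) : ℕ) : WithBot ℕ∞) ≤
      ringKrullDim (MvPolynomial (Fin (N + 1)) ℂ ⧸ I) + (c : WithBot ℕ∞) := by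
    rw [Fintype.card_fin]; exact hdim
  obtain ⟨D, hS⟩ := exists_setup Λ I hI hhom hdim' (fun p hp hp0 _ => hsm p hp hp0)
  obtain ⟨x, hxΛ, hx0, q, hq, hqli⟩ := hcut
  have hxI := hL x hxΛ
  obtain ⟨F, hF, hFli⟩ := exists_frame hI hdim' hx0 hxI q hq hqli
  have hB : Base I c d Λ x F := ⟨by omega, hxΛ, hx0, hxI, hF, hFli⟩
  obtain ⟨n, hn⟩ : ∃ n, n + 1 = Module.finrank ℂ Λ := ⟨Module.finrank ℂ Λ - 1, by omega⟩
  obtain ⟨u, hu, hli, -⟩ := exists_basis_cons Λ hxΛ hx0 hn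
  have hcd : c * 1 ≤ c * (d - 1) := Nat.mul_le_mul_left _ (by omega)
  obtain ⟨f, hfd, Ψ, hΨ, hΨE, hΨli⟩ := exists_split_linear hS hB hL (by omega) (by omega) u hu hli
  have hmem : ∀ z, comb (Fin.cons x u : Fin (n + 1) → (Fin (N + 1) → ℂ)) z ∈ Λ := by
    apply comb_mem
    intro i
    refine Fin.cases ?_ (fun i => ?_) i
    · exact hxΛ
    · exact hu i
  obtain ⟨G, hG, hGs⟩ := theorem_L N c (n + 1) (by omega)
    (comb (Fin.cons x u : Fin (n + 1) → (Fin (N + 1) → ℂ))) (comb_injective hli) I hI hhom hdim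
    (fun z h hh => hL _ (hmem z) h hh) Ψ f hΨ hΨli hΨE
  exact ⟨G, fun k => ⟨f k + 1, hfd k, hG k⟩, hGs⟩

end LThm

end Pool.Agent.Hartshorne
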